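import Pool.Agent.Lib.MP_4e5fcd_ag.NC.Wd
import Pool.Agent.Lib.MP_4e5fcd_ag.SW.C3
import Pool.Agent.Lib.MP_4e5fcd_ag.WH.V5b
import Pool.Agent.Lib.MP_4e5fcd_ag.Mon.G0

/-!
# NC-Base: nondegenerate curves, notation

`f : Fin r → MvPolynomial (Fin N) ℂ`, `r + 1 = N`, `S = Sup f` the set of the exponents. Weights, facets: NC/Wd.lean.
-/

open MvPolynomial

namespace MotMono
namespace NC

open WH

variable {N r : ℕ}

/-- the exponents of the monomials of the `f j` -/
noncomputable def Sup (f : Fin r → MvPolynomial (Fin N) ℂ) : Finset (Fin N →₀ ℕ) :=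
  Finset.univ.biUnion fun j => (f j).support

/-- the part of weight `e` of `f j` -/
noncomputable def ip (f : Fin r → MvPolynomial (Fin N) ℂ) (w : Fin N → ℕ) (e : ℕ) (j : Fin r) :
    MvPolynomial (Fin N) ℂ :=
  weightedHomogeneousComponent w e (f j)

/-- `f` is nondegenerate: for all positive weights `w` the parts of the `f j` of the least weight
have linearly independent gradients at their common zeros in the torus. -/
def Nondeg (f : Fin r → MvPolynomial (Fin N) ℂ) : Prop :=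
  ∀ (w : Fin N → ℕ) (e : ℕ), (∀ i, 0 < w i) → (∀ m ∈ Sup f, e ≤ wd w m) →
    (∃ m ∈ Sup f, wd w m = e) → ∀ z : Fin N → ℂ, (∀ i, z i ≠ 0) → (∀ j, eval z (ip f w e j) = 0) →
      LinearIndependent ℂ fun j => grad (ip f w e j) z

/-- the common zeros in the torus of the parts of weight `e` -/
def VT (f : Fin r → MvPolynomial (Fin N) ℂ) (w : Fin N → ℕ) (e : ℕ) : Set (Fin N → ℂ) :=
  {z | (∀ i, z i ≠ 0) ∧ ∀ j, eval z (ip f w e j) = 0}

/-- a slice of `VT`: one point of each orbit of `ℂ^*` if `∑ i, u i * w i = 1` -/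
def VU (f : Fin r → MvPolynomial (Fin N) ℂ) (w : Fin N → ℕ) (e : ℕ) (u : Fin N → ℤ) :
    Set (Fin N → ℂ) :=
  {z | z ∈ VT f w e ∧ mon Finset.univ u z = 1}

end NC
end MotMono
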