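import Pool.Agent.Lib.MP_4e5fcd_ag.NC.FDefs
import Pool.Agent.Lib.MP_4e5fcd_ag.LFM.GF1

/-!
# NC-F1: the facets through a point on an axis

PROOF. `f_rays`: `LFM.exists_ext_rays ∅ Ls` with `Ls` the set of the vectors `k ↦ m k - (if k = i then a else 0)`, `m ∈ S`
(image of `S`). The inequality of `m` at `y` is `a * y i ≤ wd y m`. For `u ∈ U` (`Prim u`, `ExtRay`) with `0 < u i`: `Fac S u (a * u i)`:
`pos`, `ge` (nonneg) clear, `prim`: `Finset.univ.gcd u` divides all `u k`, so it is `1` (`Prim`, Det/Base.lean). `ext`: let `y`, `t` be given; the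
point `single i a ∈ S` has weight `a * u i`, so `a * y i = t`. For `m ∈ S` with equality `wd u m = a * u i`: `∑ m k * y k - a * y i = t - t = 0`. So
`ExtRay.ext` gives `c` with `y k = c * u k` and `t = a * y i = c * (a * u i)`. `gen` of `IsRays` (Det/G1.lean) gives the last clause.
`f_exists`: `y k = if k = i then 1 else a`. For `m ∈ S`: if some `m k ≠ 0`, `k ≠ i`, then `wd y m ≥ a`. Otherwise `m = single i (m i)` and
`m i ≥ a` by `IsAx`. So `a * y i = a ≤ wd y m`, and by `f_rays` `1 = y i = ∑ α u * u i`: some `u ∈ U` has `u i > 0`.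
-/

namespace MotMono
namespace NC

variable {N : ℕ}

theorem f_rays (S : Finset (Fin N →₀ ℕ)) (i : Fin N) (a : ℕ) (ha : 0 < a)
    (hs : Finsupp.single i a ∈ S) :
    ∃ U : Finset (Fin N → ℕ), (∀ u ∈ U, 0 < u i → Fac S u (a * u i)) ∧
      ∀ y : Fin N → ℕ, (∀ m ∈ S, a * y i ≤ wd y m) →
        ∃ α : (Fin N → ℕ) → ℚ, (∀ u, 0 ≤ α u) ∧ ∀ k, (y k : ℚ) = ∑ u ∈ U, α u * (u k : ℚ) := by
  classical
  let L : (Fin N →₀ ℕ) → (Fin N → ℤ) := fun m k => (m k : ℤ) - (if k = i then (a : ℤ) else 0)
  have hLs : ∀ (m : Fin N →₀ ℕ) (y : Fin N → ℕ),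
      ∑ k, L m k * (y k : ℤ) = (wd y m : ℤ) - a * y i := by
    intro m y
    simp only [L, sub_mul, Finset.sum_sub_distrib, ite_mul, zero_mul, Finset.sum_ite_eq',
      Finset.mem_univ, if_true, wd]
    push_cast
    rfl
  obtain ⟨U, hU, hp⟩ := LFM.exists_ext_rays ∅ (S.image L)
  refine ⟨U, ?_, ?_⟩
  · intro u hu hui
    obtain ⟨hprim, hext⟩ := hp u hu
    refine ⟨Nat.mul_pos ha hui, ?_, ?_, ?_⟩
    · intro m hm
      have h1 := hext.nonneg (L m) (Finset.mem_image_of_mem _ hm)
      rw [hLs] at h1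
      have h2 : ((a * u i : ℕ) : ℤ) ≤ (wd u m : ℤ) := by push_cast; linarith
      exact_mod_cast h2
    · exact hprim _ (fun k => Finset.gcd_dvd (Finset.mem_univ k))
    · intro y t hy ht
      have h1 : (a : ℚ) * y i = t := by
        have h2 := ht _ hs (by simp [wd, Finsupp.single_apply])
        rw [← h2]
        simp [Finsupp.single_apply]
      obtain ⟨c, hc⟩ := hext.ext y hy (by
        intro l hl hl0
        obtain ⟨m, hm, rfl⟩ := Finset.mem_image.1 hl
        rw [hLs] at hl0
        have h3 : wd u m = a * u i := by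
          have : (wd u m : ℤ) = ((a * u i : ℕ) : ℤ) := by push_cast; linarith
          exact_mod_cast this
        have h2 := ht m hm h3
        simp only [L]
        push_cast
        simp only [sub_mul, Finset.sum_sub_distrib, ite_mul, zero_mul, Finset.sum_ite_eq',
          Finset.mem_univ, if_true]
        linarith)
      refine ⟨c, hc, ?_⟩
      rw [← h1, hc i]
      push_cast
      ring
  · intro y hy
    obtain ⟨α, h1, h2⟩ := hU.gen (fun k => (y k : ℚ)) (fun k => by positivity) (by simp) (by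
      intro l hl
      obtain ⟨m, hm, rfl⟩ := Finset.mem_image.1 hl
      have h3 := hLs m y
      have h4 : (∑ k, ((L m k : ℤ) : ℚ) * (y k : ℚ)) =
          ((∑ k, L m k * (y k : ℤ) : ℤ) : ℚ) := by push_cast; rfl
      rw [h4, h3]
      have h5 : (0 : ℤ) ≤ (wd y m : ℤ) - a * y i := by
        have h6 : ((a * y i : ℕ) : ℤ) ≤ (wd y m : ℤ) := by exact_mod_cast hy m hm
        push_cast at h6
        linarith
      exact_mod_cast h5)
    exact ⟨α, h1, h2⟩

theorem f_exists {S : Finset (Fin N →₀ ℕ)} {i : Fin N} {a : ℕ} (h : IsAx S i a) (ha : 0 < a) :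
    ∃ u : Fin N → ℕ, 0 < u i ∧ Fac S u (a * u i) := by
  classical
  obtain ⟨U, hU, hg⟩ := f_rays S i a ha h.1
  obtain ⟨α, h1, h2⟩ := hg (fun k => if k = i then 1 else a) (by
    intro m hm
    simp only [if_true, mul_one]
    by_cases hk : ∃ k, k ≠ i ∧ m k ≠ 0
    · obtain ⟨k, hki, hmk⟩ := hk
      calc a = 1 * a := (one_mul a).symm
        _ ≤ m k * a := Nat.mul_le_mul_right _ (Nat.one_le_iff_ne_zero.2 hmk)
        _ = m k * (if k = i then 1 else a) := by rw [if_neg hki]
        _ ≤ ∑ k, m k * (if k = i then 1 else a) :=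
          Finset.single_le_sum (f := fun k => m k * (if k = i then 1 else a))
            (fun _ _ => Nat.zero_le _) (Finset.mem_univ k)
    · push Not at hk
      have hm' : m = Finsupp.single i (m i) := by
        ext k
        by_cases hki : k = i
        · rw [hki, Finsupp.single_eq_same]
        · rw [hk k hki, Finsupp.single_eq_of_ne hki]
      have h3 : a ≤ m i := h.2 _ (hm' ▸ hm)
      calc a ≤ m i := h3
        _ = m i * (if i = i then 1 else a) := by simp
        _ ≤ ∑ k, m k * (if k = i then 1 else a) :=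
          Finset.single_le_sum (f := fun k => m k * (if k = i then 1 else a))
            (fun _ _ => Nat.zero_le _) (Finset.mem_univ i))
  by_contra hne
  push Not at hne
  have h3 := h2 i
  have h4 : ∑ u ∈ U, α u * (u i : ℚ) = 0 := by
    refine Finset.sum_eq_zero fun u hu => ?_
    by_cases hui : 0 < u i
    · exact absurd (hU u hu hui) (hne u hui)
    · have : u i = 0 := by omega
      rw [this]
      simp
  rw [h4] at h3
  simp at h3

end NC
end MotMono
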