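import Pool.Agent.Lib.MP_4e5fcd_ag.NC.F1

/-!
# NC-F2: points in the coordinate planes

PROOF. `U` from `f_rays S i a`. Assume that no such `α, β` exist. Then every `m ∈ S` with `wd w m = a * w i` and `m k > 0` has some `j ≠ i, k` with
`m j > 0` (otherwise `m = single i (m i) + single k (m k)`, `α = m i`, `β = m k`). Let `T` be larger than all `m k`, `m ∈ S`, and `T ≥ 1`. Put
`y i = T * w i`, `y k = T * w k - 1` (natural, `w k ≥ 1`), `y j = T * w j + T` for `j ≠ i, k`. For `m ∈ S`: `wd y m + m k = T * wd w m + T * ∑_{j ≠ i,k} m j`, and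
this is `≥ T * a * w i + m k`: if `wd w m > a * w i` because `T ≥ m k`; if `wd w m = a * w i`: clear for `m k = 0`, otherwise some `m j ≥ 1` and
`T ≥ m k`. (`wd w m ≥ a * w i`: `hF.ge`.) So `a * y i ≤ wd y m` for all `m ∈ S`, and `f_rays` gives `α`: `y l = ∑ α u * u l`. The `u ∈ U` with `u i > 0` are equal to
`w` (`huniq`), so `T * w i = y i = α w * w i` if `w ∈ U` (if `w ∉ U`, `y i = 0`, impossible), `α w = T`, and `y k ≥ α w * w k = T * w k`, contradiction.
-/

namespace MotMono
namespace NC

variable {N : ℕ}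

theorem f_planar {S : Finset (Fin N →₀ ℕ)} {i : Fin N} {a : ℕ} (hs : Finsupp.single i a ∈ S)
    (ha : 0 < a) {w : Fin N → ℕ} (hw : ∀ k, 0 < w k) (hF : Fac S w (a * w i))
    (huniq : ∀ u : Fin N → ℕ, 0 < u i → Fac S u (a * u i) → u = w) {k : Fin N} (hk : k ≠ i) :
    ∃ α β : ℕ, 0 < β ∧ Finsupp.single i α + Finsupp.single k β ∈ S ∧
      α * w i + β * w k = a * w i := by
  classical
  obtain ⟨U, hU, hgen⟩ := f_rays S i a ha hs
  by_contra hcon
  have hno : ∀ m ∈ S, wd w m = a * w i → 0 < m k → ∃ j, j ≠ i ∧ j ≠ k ∧ 0 < m j := by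
    intro m hm hwm hmk
    by_contra h
    push Not at h
    have h0 : ∀ j, j ≠ i → j ≠ k → m j = 0 := fun j h1 h2 => Nat.le_zero.mp (h j h1 h2)
    have he : m = Finsupp.single i (m i) + Finsupp.single k (m k) := by
      ext j
      rw [Finsupp.add_apply]
      by_cases hji : j = i
      · subst hji
        rw [Finsupp.single_eq_same, Finsupp.single_eq_of_ne (by exact hk.symm), add_zero]
      · by_cases hjk : j = k
        · subst hjk
          rw [Finsupp.single_eq_same, Finsupp.single_eq_of_ne (by exact hji), zero_add]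
        · rw [h0 j hji hjk, Finsupp.single_eq_of_ne (by exact hji),
            Finsupp.single_eq_of_ne (by exact hjk), add_zero]
    apply hcon
    refine ⟨m i, m k, hmk, ?_, ?_⟩
    · rw [← he]
      exact hm
    · rw [← hwm]
      unfold wd
      rw [← Finset.add_sum_erase _ _ (Finset.mem_univ i),
        ← Finset.add_sum_erase _ _ (Finset.mem_erase.mpr ⟨hk, Finset.mem_univ k⟩)]
      rw [Finset.sum_eq_zero, add_zero]
      intro j hj
      rw [Finset.mem_erase, Finset.mem_erase] at hj
      rw [h0 j hj.2.1 hj.1, zero_mul]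
  obtain ⟨T, hT⟩ : ∃ T : ℕ, T = (∑ m ∈ S, m k) + 1 := ⟨_, rfl⟩
  have hT1 : 1 ≤ T := by omega
  have hTm : ∀ m ∈ S, m k ≤ T := by
    intro m hm
    have := Finset.single_le_sum (f := fun m : Fin N →₀ ℕ => m k) (fun _ _ => Nat.zero_le _) hm
    omega
  let y : Fin N → ℕ := fun j => if j = i then T * w i else if j = k then T * w k - 1 else T * w j + T
  have hyi : y i = T * w i := by simp [y]
  have hyk : y k = T * w k - 1 := by simp [y, hk]
  have hTk : 1 ≤ T * w k := Nat.mul_pos hT1 (hw k)
  have hsum : ∀ m : Fin N →₀ ℕ, wd y m + m k =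
      T * wd w m + T * ∑ j, (if j ≠ i ∧ j ≠ k then m j else 0) := by
    intro m
    have e1 : m k = ∑ j, (if j = k then m j else 0) := by simp
    unfold wd
    rw [Finset.mul_sum, Finset.mul_sum, ← Finset.sum_add_distrib]
    conv_lhs => rw [e1]
    rw [← Finset.sum_add_distrib]
    refine Finset.sum_congr rfl fun j _ => ?_
    by_cases hji : j = i
    · subst hji
      rw [hyi, if_neg (Ne.symm hk), if_neg (by simp)]
      ring
    · by_cases hjk : j = k
      · subst hjk
        rw [hyk, if_pos rfl, if_neg (by simp)]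
        obtain ⟨c, hc⟩ : ∃ c, T * w j = c + 1 := ⟨T * w j - 1, by omega⟩
        have e2 : T * (m j * w j) = m j * (T * w j) := by ring
        rw [e2, hc, Nat.add_sub_cancel]
        ring
      · rw [if_neg hjk, if_pos ⟨hji, hjk⟩]
        simp only [y, if_neg hji, if_neg hjk]
        ring
  have hy : ∀ m ∈ S, a * y i ≤ wd y m := by
    intro m hm
    rw [hyi]
    have h1 := hsum m
    have h2 := hF.ge m hm
    have h3 := hTm m hm
    rcases Nat.lt_or_ge (a * w i) (wd w m) with h4 | h4
    · have h5 : T * (a * w i + 1) ≤ T * wd w m := Nat.mul_le_mul_left _ h4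
      have h6 : a * (T * w i) = T * (a * w i) := by ring
      rw [h6]
      have h7 : T * (a * w i + 1) = T * (a * w i) + T := by ring
      omega
    · have h5 : wd w m = a * w i := le_antisymm h4 h2
      have h6 : a * (T * w i) = T * (a * w i) := by ring
      rw [h6]
      rw [h5] at h1
      rcases Nat.eq_zero_or_pos (m k) with h7 | h7
      · omega
      · obtain ⟨j, hj1, hj2, hj3⟩ := hno m hm h5 h7
        have h8 : m j ≤ ∑ j, (if j ≠ i ∧ j ≠ k then m j else 0) := by
          have := Finset.single_le_sum (f := fun j => if j ≠ i ∧ j ≠ k then m j else 0)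
            (fun _ _ => Nat.zero_le _) (Finset.mem_univ j)
          rw [if_pos ⟨hj1, hj2⟩] at this
          exact this
        have h9 : T * 1 ≤ T * ∑ j, (if j ≠ i ∧ j ≠ k then m j else 0) :=
          Nat.mul_le_mul_left _ (by omega)
        rw [mul_one] at h9
        omega
  obtain ⟨α, hα, hyα⟩ := hgen y hy
  have hwi : (0 : ℚ) < w i := by exact_mod_cast hw i
  have hTq : (0 : ℚ) < T := by exact_mod_cast hT1
  have hsi : ∑ u ∈ U, α u * (u i : ℚ) = if w ∈ U then α w * (w i : ℚ) else 0 := by
    rw [← Finset.sum_ite_eq' U w (fun u => α u * (u i : ℚ))]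
    refine Finset.sum_congr rfl fun u hu => ?_
    by_cases huw : u = w
    · rw [if_pos huw]
    · rw [if_neg huw]
      have : u i = 0 := by
        by_contra h
        exact huw (huniq u (Nat.pos_of_ne_zero h) (hU u hu (Nat.pos_of_ne_zero h)))
      rw [this]
      simp
  have h1 := hyα i
  rw [hsi, hyi] at h1
  push_cast at h1
  by_cases hwU : w ∈ U
  · rw [if_pos hwU] at h1
    have h2 : α w = T := (mul_right_cancel₀ hwi.ne' h1).symm
    have h3 := hyα k
    have h4 : α w * (w k : ℚ) ≤ ∑ u ∈ U, α u * (u k : ℚ) :=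
      Finset.single_le_sum (f := fun u => α u * (u k : ℚ))
        (fun u _ => mul_nonneg (hα u) (Nat.cast_nonneg _)) hwU
    rw [← h3, h2, hyk] at h4
    have h5 : T * w k ≤ T * w k - 1 := by exact_mod_cast h4
    omega
  · rw [if_neg hwU] at h1
    have : (0 : ℚ) < T * w i := mul_pos hTq hwi
    linarith

end NC
end MotMono
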