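import Pool.Agent.Lib.MP_4e5fcd_ag.NC.FDefs

/-!
# NC-F3: a basis of a facet with given axis points

PROOF. Induction on `M` (`Finset.induction_on`). `M = ∅`: `exists_basis` (NC/Fa.lean). Step `insert i M`, `i ∉ M`: `D` for `M`. The vectors `D l` are a basis of
`ℚ ^ N` (`N` independent vectors; `basisOfLinearIndependentOfCardEqFinrank` or `LinearIndependent.span_eq_top_of_card_eq_finrank`), so
`single i (a i) = ∑ c l * D l`. The `i`-th coordinate of the left side is `a i > 0` and the `D j`, `j ∈ M`, have `i`-th coordinate `0` (`j ≠ i`): so `c l ≠ 0` for some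
`l ∉ M`. Replace `D l` by `single i (a i)`: still independent (`c l ≠ 0`). Then exchange the positions `l` and `i` (if `l ≠ i`; `i ∉ M`, `l ∉ M`, so the
positions in `M` do not move): the new family is `D' = Function.update (D ∘ Equiv.swap i l) i (single i (a i))`, up to this reindexing
(`LinearIndependent.comp` with an injective map).
-/

namespace MotMono
namespace NC

variable {N : ℕ}

private theorem f3_update {N : ℕ} {E : Fin N → Fin N → ℚ} (hE : LinearIndependent ℚ E) {i : Fin N}
    {x : Fin N → ℚ} {c : Fin N → ℚ} (hx : x = ∑ k, c k • E k) (hc : c i ≠ 0) :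
    LinearIndependent ℚ (Function.update E i x) := by
  classical
  rw [Fintype.linearIndependent_iff] at hE ⊢
  intro g hg
  have h1 : ∑ k, g k • Function.update E i x k
      = ∑ k, (g i * c k + (if k = i then 0 else g k)) • E k := by
    have h2 : ∀ k, g k • Function.update E i x k
        = (if k = i then g i • x else 0) + (if k = i then (0 : ℚ) else g k) • E k := by
      intro k
      by_cases hk : k = i
      · subst hk
        simp
      · rw [Function.update_of_ne hk, if_neg hk, if_neg hk, zero_add]
    rw [Finset.sum_congr rfl (fun k _ => h2 k), Finset.sum_add_distrib, Finset.sum_ite_eq' Finset.univ i]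
    simp only [Finset.mem_univ, if_true]
    have h3 : ∀ k, (g i * c k + (if k = i then 0 else g k)) • E k
        = g i • (c k • E k) + (if k = i then (0 : ℚ) else g k) • E k := by
      intro k
      rw [add_smul, mul_smul]
    rw [Finset.sum_congr rfl (fun k _ => h3 k), Finset.sum_add_distrib, ← Finset.smul_sum, ← hx]
  rw [h1] at hg
  have h4 := hE _ hg
  have h5 : g i = 0 := by
    have := h4 i
    rw [if_pos rfl, add_zero] at this
    exact (mul_eq_zero.1 this).resolve_right hc
  intro k
  by_cases hk : k = i
  · rw [hk]
    exact h5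
  · have := h4 k
    rw [h5, zero_mul, zero_add, if_neg hk] at this
    exact this

private theorem f3_wd (w : Fin N → ℕ) (i : Fin N) (a : ℕ) : wd w (Finsupp.single i a) = a * w i := by
  classical
  rw [wd, Finset.sum_eq_single i]
  · rw [Finsupp.single_eq_same]
  · intro j _ hj
    rw [Finsupp.single_eq_of_ne hj, zero_mul]
  · intro h
    exact absurd (Finset.mem_univ i) h

theorem f_basis {S : Finset (Fin N →₀ ℕ)} {w : Fin N → ℕ} {e : ℕ} (hF : Fac S w e)
    (hw : ∀ i, 0 < w i) (M : Finset (Fin N)) (a : Fin N → ℕ)
    (ha : ∀ i ∈ M, 0 < a i ∧ Finsupp.single i (a i) ∈ S ∧ a i * w i = e) :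
    ∃ D : Fin N → (Fin N →₀ ℕ), (∀ l, D l ∈ S ∧ wd w (D l) = e) ∧
      LinearIndependent ℚ (fun l => fun i => ((D l i : ℕ) : ℚ)) ∧
      ∀ i ∈ M, D i = Finsupp.single i (a i) := by
  classical
  induction M using Finset.induction_on with
  | empty =>
    obtain ⟨D, h1, h2⟩ := exists_basis hF hw
    exact ⟨D, h1, h2, fun i hi => absurd hi (Finset.notMem_empty i)⟩
  | insert i M hi ih =>
    obtain ⟨D, h1, h2, h3⟩ := ih (fun j hj => ha j (Finset.mem_insert_of_mem hj))
    obtain ⟨ha0, haS, hae⟩ := ha i (Finset.mem_insert_self i M)
    set v : Fin N → Fin N → ℚ := fun l => fun j => ((D l j : ℕ) : ℚ) with hv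
    set x : Fin N → ℚ := fun j => ((Finsupp.single i (a i) j : ℕ) : ℚ) with hxd
    have : Nonempty (Fin N) := ⟨i⟩
    let b := basisOfLinearIndependentOfCardEqFinrank h2 (by simp)
    have hb : ∀ l, b l = v l := by
      intro l
      simp [b, hv]
    have hx : x = ∑ l, b.repr x l • v l := by
      conv_lhs => rw [← b.sum_repr x]
      exact Finset.sum_congr rfl (fun l _ => by rw [hb l])
    have hl : ∃ l, l ∉ M ∧ b.repr x l ≠ 0 := by
      by_contra hcon
      push Not at hcon
      have h4 := congrFun hx i
      rw [Finset.sum_apply] at h4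
      have h5 : ∀ l ∈ (Finset.univ : Finset (Fin N)), (b.repr x l • v l) i = 0 := by
        intro l _
        by_cases hlM : l ∈ M
        · have hli : l ≠ i := fun h => hi (h ▸ hlM)
          have h6 : v l i = 0 := by
            simp only [hv]
            rw [h3 l hlM, Finsupp.single_eq_of_ne (Ne.symm hli)]
            simp
          rw [Pi.smul_apply, h6, smul_zero]
        · rw [hcon l hlM, zero_smul]
          rfl
      rw [Finset.sum_eq_zero h5] at h4
      simp only [hxd, Finsupp.single_eq_same] at h4
      exact ha0.ne' (by exact_mod_cast h4)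
    obtain ⟨l, hlM, hcl⟩ := hl
    set D' : Fin N → (Fin N →₀ ℕ) :=
      Function.update (fun k => D (Equiv.swap i l k)) i (Finsupp.single i (a i)) with hD'
    have hEi : LinearIndependent ℚ (fun k => v (Equiv.swap i l k)) :=
      h2.comp _ (Equiv.swap i l).injective
    have hx' : x = ∑ k, b.repr x (Equiv.swap i l k) • v (Equiv.swap i l k) := by
      rw [Equiv.sum_comp (Equiv.swap i l) (fun k => b.repr x k • v k)]
      exact hx
    have hc' : b.repr x (Equiv.swap i l i) ≠ 0 := by
      rw [Equiv.swap_apply_left]
      exact hcl
    have hnew := f3_update hEi hx' hc'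
    refine ⟨D', ?_, ?_, ?_⟩
    · intro k
      by_cases hk : k = i
      · subst hk
        rw [hD', Function.update_self]
        refine ⟨haS, ?_⟩
        rw [f3_wd]
        exact hae
      · rw [hD', Function.update_of_ne hk]
        exact h1 _
    · have e1 : (fun l => fun j => ((D' l j : ℕ) : ℚ)) = Function.update (fun k => v (Equiv.swap i l k)) i x := by
        funext k
        by_cases hk : k = i
        · subst hk
          rw [Function.update_self, hD']
          simp only [Function.update_self]
          rfl
        · rw [Function.update_of_ne hk, hD']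
          simp only [Function.update_of_ne hk]
          rfl
      rw [e1]
      exact hnew
    · intro j hj
      rcases Finset.mem_insert.1 hj with hj | hj
      · subst hj
        rw [hD', Function.update_self]
      · have hji : j ≠ i := fun h => hi (h ▸ hj)
        have hjl : j ≠ l := fun h => hlM (h ▸ hj)
        rw [hD', Function.update_of_ne hji, Equiv.swap_apply_of_ne_of_ne hji hjl]
        exact h3 j hj

end NC
end MotMono
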