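import Pool.Agent.Lib.MP_4e5fcd_ag.NC.F3

/-!
# NC-F4: a lower bound from the axis points of a facet

PROOF. `D` from `f_basis` for `M`. Call `ρ` admissible if `ρ k = 0` for `k ∉ M`, `ρ i < a i` for `i ∈ M` and `e ∣ wd w ρ`. An admissible `ρ` is in the cone
(`c i = ρ i / a i` for `i ∈ M`, `c l = 0` otherwise), and different admissible `ρ, ρ'` are inequivalent: if `ρ = ρ' + ∑ c l * D l`, `c l` integers,
then with `c' i = (ρ i - ρ' i) / a i` (`i ∈ M`), `c' l = 0` otherwise, `∑ (c l - c' l) * D l = 0`, so `c = c'` by independence, and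
`ρ i - ρ' i = c i * a i` with `|ρ i - ρ' i| < a i` gives `ρ i = ρ' i`. So `LowB` gives `G.card ≤ n` for every set `G` of admissible vectors.
Let `a i = m * b i` for `i ∈ M`; `(b i) * w i * m = e`. The vector `∑ s i * b i` (`s i < m`, supported on `M`) is admissible if `m ∣ ∑ s i`. Take:
`0`; and, fixing `i₀ ∈ M`, `b i` at `i` and `(m - 1) * b i₀` at `i₀` for `i ∈ M`, `i ≠ i₀`: `M.card` different vectors (`M` nonempty; for `M = ∅` `G = {0}` has one element), so
`M.card ≤ n` and `1 ≤ n`. Now let `n = M.card` (so `M.card ≥ 1`). If `M.card ≥ 3`: one more vector, `b i` at `i`, `b j` at `j`, `(m - 2) * b i₀` at `i₀`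
(`i ≠ j` in `M`, different from `i₀`): `n ≥ M.card + 1`, contradiction. If `M.card = 2` and `m ≥ 3`: the vectors `(s, (m - s) % m)`, `s = 0, 1, 2`: `n ≥ 3`, contradiction.
-/

namespace MotMono
namespace NC

variable {N : ℕ}

/-- the vector with the entries `s i * b i`, `i ∈ M` -/
private noncomputable def f4V (M : Finset (Fin N)) (b s : Fin N → ℕ) : Fin N →₀ ℕ :=
  Finsupp.equivFunOnFinite.symm fun i => if i ∈ M then s i * b i else 0

private theorem f4V_apply (M : Finset (Fin N)) (b s : Fin N → ℕ) (i : Fin N) :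
    f4V M b s i = if i ∈ M then s i * b i else 0 := rfl

private def f4Adm (M : Finset (Fin N)) (a w : Fin N → ℕ) (e : ℕ) (ρ : Fin N →₀ ℕ) : Prop :=
  (∀ k, k ∉ M → ρ k = 0) ∧ (∀ i ∈ M, ρ i < a i) ∧ e ∣ wd w ρ

private theorem f4_sum {M : Finset (Fin N)} {a : Fin N → ℕ} {D : Fin N → (Fin N →₀ ℕ)}
    (hD : ∀ i ∈ M, D i = Finsupp.single i (a i)) (c : Fin N → ℚ) (hc : ∀ l, l ∉ M → c l = 0)
    (i : Fin N) : ∑ l, c l * ((D l i : ℕ) : ℚ) = if i ∈ M then c i * a i else 0 := by
  have h1 : ∀ l, c l * ((D l i : ℕ) : ℚ) = if l = i then (if i ∈ M then c i * a i else 0) else 0 := by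
    intro l
    by_cases hl : l ∈ M
    · rw [hD l hl, Finsupp.single_apply]
      by_cases hli : l = i
      · subst hli
        rw [if_pos rfl, if_pos rfl, if_pos hl]
      · rw [if_neg hli, if_neg hli, Nat.cast_zero, mul_zero]
    · rw [hc l hl, zero_mul]
      by_cases hli : l = i
      · subst hli
        rw [if_pos rfl, if_neg hl]
      · rw [if_neg hli]
  rw [Finset.sum_congr rfl fun l _ => h1 l, Finset.sum_ite_eq' Finset.univ i, if_pos (Finset.mem_univ i)]

private theorem f4_key {S : Finset (Fin N →₀ ℕ)} {w : Fin N → ℕ} {e n : ℕ} (hF : Fac S w e)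
    (hw : ∀ i, 0 < w i) (hL : LowB S w e n) (M : Finset (Fin N)) (a : Fin N → ℕ)
    (ha : ∀ i ∈ M, 0 < a i ∧ Finsupp.single i (a i) ∈ S ∧ a i * w i = e)
    (G : Finset (Fin N →₀ ℕ)) (hG : ∀ ρ ∈ G, f4Adm M a w e ρ) : G.card ≤ n := by
  obtain ⟨D, hD1, hD2, hD3⟩ := f_basis hF hw M a ha
  refine (hL D hD1 hD2 G ?_ ?_).1
  · intro ρ hρ
    obtain ⟨h1, h2, h3⟩ := hG ρ hρ
    refine ⟨h3, fun l => if l ∈ M then (ρ l : ℚ) / a l else 0, ?_, ?_⟩
    · intro l
      dsimp only
      split_ifs
      · positivity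
      · exact le_rfl
    · intro i
      rw [f4_sum hD3 _ (fun l hl => if_neg hl) i]
      by_cases hi : i ∈ M
      · have ha0 : (a i : ℚ) ≠ 0 := by
          have := (ha i hi).1
          positivity
        rw [if_pos hi, if_pos hi, div_mul_cancel₀ _ ha0]
      · rw [if_neg hi, h1 i hi, Nat.cast_zero]
  · intro ρ hρ ρ' hρ' hne c hc
    obtain ⟨h1, h2, h3⟩ := hG ρ hρ
    obtain ⟨h1', h2', h3'⟩ := hG ρ' hρ'
    apply hne
    have hcz : ∀ l, l ∉ M → (fun l => if l ∈ M then ((ρ l : ℚ) - ρ' l) / a l else 0) l = 0 :=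
      fun l hl => if_neg hl
    have hlin := Fintype.linearIndependent_iff.1 hD2
      (fun l => (c l : ℚ) - (fun l => if l ∈ M then ((ρ l : ℚ) - ρ' l) / a l else 0) l) (by
        funext i
        rw [Finset.sum_apply]
        simp only [Pi.smul_apply, smul_eq_mul, Pi.zero_apply, sub_mul, Finset.sum_sub_distrib]
        rw [f4_sum hD3 _ hcz i]
        have h4 := hc i
        have h5 : (ρ i : ℚ) = ρ' i + ∑ l, (c l : ℚ) * ((D l i : ℕ) : ℚ) := by exact_mod_cast h4
        by_cases hi : i ∈ M
        · have ha0 : (a i : ℚ) ≠ 0 := by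
            have := (ha i hi).1
            positivity
          rw [if_pos hi, if_pos hi, div_mul_cancel₀ _ ha0]
          linarith
        · rw [if_neg hi]
          rw [h1 i hi, h1' i hi, Nat.cast_zero] at h5
          linarith)
    ext i
    by_cases hi : i ∈ M
    · have h6 := hlin i
      dsimp only at h6
      rw [if_pos hi] at h6
      have ha0 : (a i : ℚ) ≠ 0 := by
        have := (ha i hi).1
        positivity
      have h7 : (c i : ℚ) * a i = (ρ i : ℚ) - ρ' i := by
        rw [sub_eq_zero.1 h6, div_mul_cancel₀ _ ha0]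
      have h8 : c i * (a i : ℤ) = (ρ i : ℤ) - ρ' i := by exact_mod_cast h7
      have h9 := h2 i hi
      have h9' := h2' i hi
      have h10 : c i = 0 := by
        by_contra hcon
        rcases lt_or_gt_of_ne hcon with h11 | h11
        · have h12 : c i ≤ -1 := by omega
          have h13 : c i * (a i : ℤ) ≤ -1 * (a i : ℤ) :=
            mul_le_mul_of_nonneg_right h12 (Int.natCast_nonneg _)
          omega
        · have h12 : 1 ≤ c i := by omega
          have h13 : 1 * (a i : ℤ) ≤ c i * (a i : ℤ) :=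
            mul_le_mul_of_nonneg_right h12 (Int.natCast_nonneg _)
          omega
      rw [h10, zero_mul] at h8
      omega
    · rw [h1 i hi, h1' i hi]

private theorem f4_adm {M : Finset (Fin N)} {a b w : Fin N → ℕ} {e q m : ℕ}
    (hb : ∀ i ∈ M, 0 < b i ∧ a i = m * b i ∧ b i * w i = q) (he : e = m * q) (s : Fin N → ℕ)
    (hs : ∀ i ∈ M, s i < m) (hd : m ∣ ∑ i ∈ M, s i) : f4Adm M a w e (f4V M b s) := by
  refine ⟨fun k hk => ?_, fun i hi => ?_, ?_⟩
  · rw [f4V_apply, if_neg hk]
  · rw [f4V_apply, if_pos hi, (hb i hi).2.1]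
    exact Nat.mul_lt_mul_of_pos_right (hs i hi) (hb i hi).1
  · have h1 : wd w (f4V M b s) = (∑ i ∈ M, s i) * q := by
      unfold wd
      rw [Finset.sum_mul, ← Finset.sum_filter_add_sum_filter_not Finset.univ (fun i => i ∈ M)]
      have h2 : ∑ i ∈ Finset.univ.filter (fun i => ¬ i ∈ M), f4V M b s i * w i = 0 := by
        refine Finset.sum_eq_zero fun i hi => ?_
        rw [f4V_apply, if_neg (Finset.mem_filter.1 hi).2, zero_mul]
      have h3 : Finset.univ.filter (fun i => i ∈ M) = M := by
        ext i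
        simp
      rw [h2, add_zero, h3]
      refine Finset.sum_congr rfl fun i hi => ?_
      rw [f4V_apply, if_pos hi, mul_assoc, (hb i hi).2.2]
    rw [h1, he]
    exact Nat.mul_dvd_mul_right hd q


theorem f_low {S : Finset (Fin N →₀ ℕ)} {w : Fin N → ℕ} {e n m : ℕ} (hF : Fac S w e)
    (hw : ∀ i, 0 < w i) (hL : LowB S w e n) (hm : 2 ≤ m) (M : Finset (Fin N)) (a : Fin N → ℕ)
    (ha : ∀ i ∈ M, 0 < a i ∧ Finsupp.single i (a i) ∈ S ∧ a i * w i = e ∧ m ∣ a i) :
    M.card ≤ n ∧ (n = M.card → M.card = 1 ∨ (M.card = 2 ∧ m = 2)) := by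
  classical
  have ha' : ∀ i ∈ M, 0 < a i ∧ Finsupp.single i (a i) ∈ S ∧ a i * w i = e :=
    fun i hi => ⟨(ha i hi).1, (ha i hi).2.1, (ha i hi).2.2.1⟩
  have key := f4_key hF hw hL M a ha'
  rcases M.eq_empty_or_nonempty with rfl | ⟨i₀, hi₀⟩
  · have h1 := key {0} (by
      intro ρ hρ
      rw [Finset.mem_singleton.1 hρ]
      refine ⟨fun k _ => rfl, fun i hi => absurd hi (Finset.notMem_empty i), ?_⟩
      have h2 : wd w (0 : Fin N →₀ ℕ) = 0 := by simp [wd]
      rw [h2]
      exact dvd_zero e)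
    rw [Finset.card_singleton] at h1
    rw [Finset.card_empty]
    exact ⟨Nat.zero_le n, fun h => by omega⟩
  have hbex : ∀ i, ∃ b, i ∈ M → a i = m * b := by
    intro i
    by_cases hi : i ∈ M
    · obtain ⟨b, hb⟩ := (ha i hi).2.2.2
      exact ⟨b, fun _ => hb⟩
    · exact ⟨0, fun h => absurd h hi⟩
  choose b hab using hbex
  have he : e = m * (b i₀ * w i₀) := by
    rw [← (ha i₀ hi₀).2.2.1, hab i₀ hi₀, mul_assoc]
  have hb : ∀ i ∈ M, 0 < b i ∧ a i = m * b i ∧ b i * w i = b i₀ * w i₀ := by
    intro i hi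
    refine ⟨?_, hab i hi, ?_⟩
    · have h1 := (ha i hi).1
      rw [hab i hi] at h1
      exact Nat.pos_of_mul_pos_left h1
    · have h1 : m * (b i * w i) = m * (b i₀ * w i₀) := by
        rw [← he, ← (ha i hi).2.2.1, hab i hi, mul_assoc]
      exact Nat.eq_of_mul_eq_mul_left (by omega) h1
  have hV := fun s => f4_adm (a := a) (w := w) hb he s
  set σ : Fin N → Fin N → ℕ := fun i k =>
    if i = i₀ then 0 else (if k = i then 1 else 0) + (if k = i₀ then m - 1 else 0) with hσ
  have hσ0 : σ i₀ = fun _ => 0 := by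
    funext k
    simp [hσ]
  have hσ1 : ∀ i, i ≠ i₀ → σ i = fun k => (if k = i then 1 else 0) + (if k = i₀ then m - 1 else 0) := by
    intro i hi
    funext k
    simp [hσ, hi]
  have hσ2 : ∀ i j, j ≠ i₀ → j ≠ i → σ i j = 0 := by
    intro i j h1 h2
    simp [hσ, h1, h2]
  have hσ3 : ∀ i, i ≠ i₀ → σ i i = 1 := by
    intro i hi
    simp [hσ, hi]
  set G : Finset (Fin N →₀ ℕ) := M.image fun i => f4V M b (σ i) with hGdef
  have hGadm : ∀ ρ ∈ G, f4Adm M a w e ρ := by
    intro ρ hρ
    obtain ⟨i, hi, rfl⟩ := Finset.mem_image.1 hρ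
    by_cases hii : i = i₀
    · subst hii
      refine hV _ (fun k _ => ?_) ?_
      · rw [hσ0]
        show 0 < m
        omega
      · rw [hσ0, Finset.sum_const_zero]
        exact dvd_zero m
    · refine hV _ (fun k _ => ?_) ?_
      · rw [hσ1 i hii]
        show (if k = i then 1 else 0) + (if k = i₀ then m - 1 else 0) < m
        by_cases h1 : k = i
        · have h2 : k ≠ i₀ := fun h => hii (h1 ▸ h)
          rw [if_pos h1, if_neg h2]
          omega
        · rw [if_neg h1]
          split_ifs <;> omega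
      · rw [hσ1 i hii, Finset.sum_add_distrib, Finset.sum_ite_eq' M i, Finset.sum_ite_eq' M i₀,
          if_pos hi, if_pos hi₀]
        have h1 : 1 + (m - 1) = m := by omega
        rw [h1]
  have hinj : Set.InjOn (fun i => f4V M b (σ i)) M := by
    intro i hi j hj hij
    by_contra hne
    have hval : ∀ k ∈ M, σ i k * b k = σ j k * b k := by
      intro k hk
      have h1 := DFunLike.congr_fun hij k
      simp only [f4V_apply] at h1
      rw [if_pos hk, if_pos hk] at h1
      exact h1
    by_cases hii : i = i₀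
    · have hjj : j ≠ i₀ := fun h => hne (hii.trans h.symm)
      have h2 := hval j hj
      rw [hσ2 i j hjj (Ne.symm hne), hσ3 j hjj, zero_mul, one_mul] at h2
      have := (hb j hj).1
      omega
    · have h2 := hval i hi
      rw [hσ3 i hii, hσ2 j i hii hne, zero_mul, one_mul] at h2
      have := (hb i hi).1
      omega
  have hcard : G.card = M.card := Finset.card_image_of_injOn hinj
  have hle : M.card ≤ n := hcard ▸ key G hGadm
  refine ⟨hle, fun hn => ?_⟩
  have hextra : ∀ s : Fin N → ℕ, (∀ i ∈ M, s i < m) → m ∣ ∑ i ∈ M, s i →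
      (∀ l ∈ M, ∃ k ∈ M, s k ≠ σ l k) → False := by
    intro s h1 h2 h3
    have hnot : f4V M b s ∉ G := by
      intro hmem
      obtain ⟨l, hl, hl2⟩ := Finset.mem_image.1 hmem
      obtain ⟨k, hk, hk2⟩ := h3 l hl
      have h4 := DFunLike.congr_fun hl2 k
      simp only [f4V_apply] at h4
      rw [if_pos hk, if_pos hk] at h4
      exact hk2 (Nat.eq_of_mul_eq_mul_right (hb k hk).1 h4).symm
    have h5 := key (insert (f4V M b s) G) (by
      intro ρ hρ
      rcases Finset.mem_insert.1 hρ with rfl | h6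
      · exact hV s h1 h2
      · exact hGadm ρ h6)
    rw [Finset.card_insert_of_notMem hnot, hcard] at h5
    omega
  have hpos : 0 < M.card := Finset.card_pos.2 ⟨i₀, hi₀⟩
  rcases Nat.lt_or_ge M.card 3 with hlt | hge
  · rcases Nat.lt_or_ge M.card 2 with hlt2 | hge2
    · left
      omega
    · right
      refine ⟨by omega, ?_⟩
      by_contra hm2
      have hm3 : 3 ≤ m := by omega
      have h1 : 0 < (M.erase i₀).card := by
        rw [Finset.card_erase_of_mem hi₀]
        omega
      obtain ⟨i, hi⟩ := Finset.card_pos.1 h1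
      have hii : i ≠ i₀ := (Finset.mem_erase.1 hi).1
      have hiM : i ∈ M := (Finset.mem_erase.1 hi).2
      refine hextra (fun k => (if k = i then 2 else 0) + (if k = i₀ then m - 2 else 0)) ?_ ?_ ?_
      · intro k _
        by_cases h2 : k = i
        · have h3 : k ≠ i₀ := fun h => hii (h2 ▸ h)
          rw [if_pos h2, if_neg h3]
          omega
        · rw [if_neg h2]
          split_ifs <;> omega
      · rw [Finset.sum_add_distrib, Finset.sum_ite_eq' M i, Finset.sum_ite_eq' M i₀,
          if_pos hiM, if_pos hi₀]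
        have h2 : 2 + (m - 2) = m := by omega
        rw [h2]
      · intro l _
        refine ⟨i, hiM, ?_⟩
        rw [if_pos rfl, if_neg hii, add_zero]
        by_cases hl : i = l
        · rw [← hl, hσ3 i hii]
          norm_num
        · rw [hσ2 l i hii hl]
          norm_num
  · exfalso
    have h1 : 1 < (M.erase i₀).card := by
      rw [Finset.card_erase_of_mem hi₀]
      omega
    obtain ⟨i, hi, j, hj, hij⟩ := Finset.one_lt_card.1 h1
    have hii : i ≠ i₀ := (Finset.mem_erase.1 hi).1
    have hiM : i ∈ M := (Finset.mem_erase.1 hi).2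
    have hjj : j ≠ i₀ := (Finset.mem_erase.1 hj).1
    have hjM : j ∈ M := (Finset.mem_erase.1 hj).2
    refine hextra (fun k => ((if k = i then 1 else 0) + (if k = j then 1 else 0)) +
      (if k = i₀ then m - 2 else 0)) ?_ ?_ ?_
    · intro k _
      by_cases h2 : k = i
      · have h3 : k ≠ i₀ := fun h => hii (h2 ▸ h)
        have h4 : k ≠ j := fun h => hij (h2 ▸ h)
        rw [if_pos h2, if_neg h3, if_neg h4]
        omega
      · rw [if_neg h2]
        by_cases h5 : k = j
        · have h3 : k ≠ i₀ := fun h => hjj (h5 ▸ h)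
          rw [if_pos h5, if_neg h3]
          omega
        · rw [if_neg h5]
          split_ifs <;> omega
    · rw [Finset.sum_add_distrib, Finset.sum_add_distrib, Finset.sum_ite_eq' M i,
        Finset.sum_ite_eq' M j, Finset.sum_ite_eq' M i₀, if_pos hiM, if_pos hjM, if_pos hi₀]
      have h2 : 1 + 1 + (m - 2) = m := by omega
      rw [h2]
    · intro l _
      by_cases hl : i = l
      · refine ⟨j, hjM, ?_⟩
        have h2 : j ≠ l := fun h => hij (hl.trans h.symm)
        rw [if_neg (Ne.symm hij), if_pos rfl, if_neg hjj, hσ2 l j hjj h2]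
        norm_num
      · refine ⟨i, hiM, ?_⟩
        rw [if_pos rfl, if_neg hij, if_neg hii, hσ2 l i hii hl]
        norm_num

end NC
end MotMono
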