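import Pool.Agent.Lib.MP_4e5fcd_ag.NC.F1
import Pool.Agent.Lib.MP_4e5fcd_ag.NC.F4

/-!
# NC-F5: counting

PROOF. Choose `a i` for `i ∈ A` by `hA` (`a i = 0` otherwise); `a i ≠ 0` because `single i 0 = 0 ∉ S`. Let `M p = A.filter fun i => a i * p.1 i = p.2`. For `p ∈ P`: `f_low` gives
`(M p).card ≤ n p`. For `i ∈ A` let `R i = P.filter fun p => a i * p.1 i = p.2`. `f_exists` gives `u` with `0 < u i` and `Fac S u (a i * u i)`; `m ∣ a i * u i`, so `u` is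
positive (`hc`) and `(u, a i * u i) ∈ P`: `1 ≤ (R i).card`. Double counting (`Finset.sum_card_bipartiteAbove_eq_sum_card_bipartiteBelow` or
`Finset.sum_comm` with indicator functions): `∑ p ∈ P, (M p).card = ∑ i ∈ A, (R i).card`. So
`A.card = ∑ n p ≥ ∑ (M p).card = ∑ (R i).card ≥ A.card`, and all are equalities: `n p = (M p).card` for `p ∈ P` (`Finset.sum_eq_sum_iff_of_le`) and
`(R i).card = 1` for `i ∈ A`. Uniqueness: `(u, a i * u i)` and `(u', a i * u' i)` are both in `R i`.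
-/

namespace MotMono
namespace NC

variable {N : ℕ}

theorem f_count {S : Finset (Fin N →₀ ℕ)} (h0 : (0 : Fin N →₀ ℕ) ∉ S) {m : ℕ} (hm : 2 ≤ m)
    {P : Finset ((Fin N → ℕ) × ℕ)}
    (hP : ∀ p, p ∈ P ↔ Fac S p.1 p.2 ∧ (∀ i, 0 < p.1 i) ∧ m ∣ p.2)
    (hc : ∀ w e, Fac S w e → m ∣ e → ∀ i, 0 < w i) {n : (Fin N → ℕ) × ℕ → ℕ}
    (hK : ∀ p ∈ P, LowB S p.1 p.2 (n p)) {A : Finset (Fin N)}
    (hA : ∀ i, i ∈ A ↔ ∃ a, IsAx S i a ∧ m ∣ a) (hE : A.card = ∑ p ∈ P, n p) :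
    ∃ a : Fin N → ℕ, (∀ i ∈ A, IsAx S i (a i) ∧ m ∣ a i ∧ 0 < a i) ∧
      (∀ p ∈ P, n p = (A.filter fun i => a i * p.1 i = p.2).card) ∧
      ∀ i ∈ A, ∀ u u' : Fin N → ℕ, 0 < u i → 0 < u' i → Fac S u (a i * u i) →
        Fac S u' (a i * u' i) → u = u' := by
  classical
  have hex : ∀ i : Fin N, ∃ a : ℕ, i ∈ A → IsAx S i a ∧ m ∣ a := by
    intro i
    by_cases hi : i ∈ A
    · obtain ⟨a, ha⟩ := (hA i).1 hi
      exact ⟨a, fun _ => ha⟩
    · exact ⟨0, fun h => absurd h hi⟩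
  choose a ha using hex
  have hpos : ∀ i ∈ A, 0 < a i := by
    intro i hi
    rcases Nat.eq_zero_or_pos (a i) with h | h
    · exfalso
      apply h0
      have h1 := (ha i hi).1.1
      rw [h, Finsupp.single_zero] at h1
      exact h1
    · exact h
  have h1 : ∀ p ∈ P, (A.filter fun i => a i * p.1 i = p.2).card ≤ n p := by
    intro p hp
    obtain ⟨hF, hw, _⟩ := (hP p).1 hp
    refine (f_low hF hw (hK p hp) hm _ a (fun i hi => ?_)).1
    rw [Finset.mem_filter] at hi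
    exact ⟨hpos i hi.1, (ha i hi.1).1.1, hi.2, (ha i hi.1).2⟩
  have hmem : ∀ i ∈ A, ∀ u : Fin N → ℕ, Fac S u (a i * u i) →
      (u, a i * u i) ∈ P.filter fun p => a i * p.1 i = p.2 := by
    intro i hi u hu
    have hd : m ∣ a i * u i := Dvd.dvd.mul_right (ha i hi).2 _
    rw [Finset.mem_filter, hP]
    exact ⟨⟨hu, hc u _ hu hd, hd⟩, rfl⟩
  have h2 : ∀ i ∈ A, 1 ≤ (P.filter fun p => a i * p.1 i = p.2).card := by
    intro i hi
    obtain ⟨u, _, hu⟩ := f_exists (ha i hi).1 (hpos i hi)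
    exact Finset.card_pos.2 ⟨_, hmem i hi u hu⟩
  have h3 : ∑ p ∈ P, (A.filter fun i => a i * p.1 i = p.2).card =
      ∑ i ∈ A, (P.filter fun p => a i * p.1 i = p.2).card :=
    Finset.sum_card_bipartiteAbove_eq_sum_card_bipartiteBelow
      (fun (p : (Fin N → ℕ) × ℕ) (i : Fin N) => a i * p.1 i = p.2)
  have h4 : ∑ p ∈ P, (A.filter fun i => a i * p.1 i = p.2).card ≤ ∑ p ∈ P, n p :=
    Finset.sum_le_sum h1
  have h5 : ∑ i ∈ A, 1 ≤ ∑ i ∈ A, (P.filter fun p => a i * p.1 i = p.2).card :=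
    Finset.sum_le_sum h2
  have h6 : ∑ i ∈ A, 1 = A.card := (Finset.card_eq_sum_ones A).symm
  have h7 : ∑ p ∈ P, (A.filter fun i => a i * p.1 i = p.2).card = ∑ p ∈ P, n p := by omega
  have h8 : ∑ i ∈ A, 1 = ∑ i ∈ A, (P.filter fun p => a i * p.1 i = p.2).card := by omega
  have h9 := (Finset.sum_eq_sum_iff_of_le h1).1 h7
  have h10 := (Finset.sum_eq_sum_iff_of_le h2).1 h8
  refine ⟨a, fun i hi => ⟨(ha i hi).1, (ha i hi).2, hpos i hi⟩, fun p hp => (h9 p hp).symm, ?_⟩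
  intro i hi u u' _ _ hu hu'
  obtain ⟨x, hx⟩ := Finset.card_eq_one.1 (h10 i hi).symm
  have e1 := hmem i hi u hu
  have e2 := hmem i hi u' hu'
  rw [hx, Finset.mem_singleton] at e1 e2
  exact (Prod.mk.inj (e1.trans e2.symm)).1

end NC
end MotMono
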