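import Pool.Agent.Lib.MP_4e5fcd_ag.NC.FDefs

/-!
# NC-F6: facets with one axis point and one zero

PROOF. Choose `α k`, `β k` for `k ≠ i` (`hpl`) and put `D i = single i a`, `D k = single i (α k) + single k (β k)`: independent (from `∑ c l * D l = 0` the coordinate `k ≠ i` gives
`c k * β k = 0`, then the coordinate `i` gives `c i * a = 0`; `a ≥ 2`). `hdiv`: `∑ w l = q * w i`; the vector `x` with `x k = 1` for `k ≠ i` and
`x i = - (q - 1)` has `∑ x l * w l = 0`. Take `T` with `T * a ≥ q - 1 + ∑ α k / β k` (for instance `T = q + ∑ α k`) and `ρ k = 1` (`k ≠ i`), `ρ i = T * a - (q - 1)`: `wd w ρ = T * e`, and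
`ρ = ∑_{k ≠ i} (1 / β k) * D k + c * D i` with `c * a = T * a - (q - 1) - ∑ α k / β k ≥ 0`. `LowB … 1` with `G = {0, ρ}` would give `2 ≤ 1`, so `0` and `ρ` are
equivalent (`ρ ≠ 0` unless `N = 1`; if `N = 1` there is no `k ≠ i`): in both orders one gets integers `c l` with `ρ = ± ∑ c l * D l`, the coordinate `k ≠ i` gives `1 = ± c k * β k`: `β k = 1`.
Now `α k * w i + w k = e = a * w i`, so `w i ∣ w k` for all `k`, and `w i ∣ Finset.univ.gcd w = 1`: `w i = 1`, `e = a`. This gives `one`, `two`, `ax`, `pt` (`α k + w k = e`).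
`only`: let `m' ∈ S`, `wd w m' = e`; `m' = ∑_{k ≠ i} m' k * D k + c * D i` with `c * a = m' i - ∑ m' k * α k`; taking weights, `∑_{k ≠ i} m' k + c = 1`. If
`∑_{k ≠ i} m' k ≥ 2` then `c < 0` and the last clause of `LowB` (`G = {0}`) gives `2 ≤ 1`. So `∑_{k ≠ i} m' k ≤ 1`: `m' = single i (m' i)`, and `m' i = e` by the weight, or
`m' = single i (m' i) + single k 1`.
-/

namespace MotMono
namespace NC

variable {N : ℕ}

private theorem f6_sumK {R : Type*} [CommSemiring R] {D : Fin N → (Fin N →₀ ℕ)} {b : ℕ} {k : Fin N}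
    (h : ∀ l, D l k = if l = k then b else 0) (c : Fin N → R) :
    ∑ l, c l * ((D l k : ℕ) : R) = c k * (b : R) := by
  rw [Finset.sum_eq_single k]
  · rw [h k, if_pos rfl]
  · intro l _ hl
    rw [h l, if_neg hl, Nat.cast_zero, mul_zero]
  · intro hk
    exact absurd (Finset.mem_univ k) hk

private theorem f6_sumI {D : Fin N → (Fin N →₀ ℕ)} {a : ℕ} {α : Fin N → ℕ} {i : Fin N}
    (h : ∀ l, D l i = if l = i then a else α l) (c : Fin N → ℚ) :
    ∑ l, c l * ((D l i : ℕ) : ℚ) = c i * (a : ℚ) + ∑ l ∈ Finset.univ.erase i, c l * (α l : ℚ) := by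
  rw [← Finset.add_sum_erase _ _ (Finset.mem_univ i), h i, if_pos rfl]
  congr 1
  refine Finset.sum_congr rfl fun l hl => ?_
  rw [h l, if_neg (Finset.ne_of_mem_erase hl)]

private theorem f6_sumI' {D : Fin N → (Fin N →₀ ℕ)} {a : ℕ} {α : Fin N → ℕ} {i : Fin N}
    (h : ∀ l, D l i = if l = i then a else α l) (x : ℚ) (g : Fin N → ℚ) :
    ∑ l, (if l = i then x else g l) * ((D l i : ℕ) : ℚ) =
      x * (a : ℚ) + ∑ l ∈ Finset.univ.erase i, g l * (α l : ℚ) := by
  rw [f6_sumI h, if_pos rfl]
  congr 1
  refine Finset.sum_congr rfl fun l hl => ?_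
  rw [if_neg (Finset.ne_of_mem_erase hl)]

private theorem f6_wd (w : Fin N → ℕ) (m : Fin N →₀ ℕ) (i : Fin N) :
    wd w m = m i * w i + ∑ k ∈ Finset.univ.erase i, m k * w k := by
  unfold wd
  rw [← Finset.add_sum_erase _ _ (Finset.mem_univ i)]

theorem f_one {S : Finset (Fin N →₀ ℕ)} {w : Fin N → ℕ} {e : ℕ} (hF : Fac S w e)
    (hw : ∀ i, 0 < w i) (hL : LowB S w e 1) {i : Fin N} {a : ℕ} (hs : Finsupp.single i a ∈ S)
    (hae : a * w i = e) (ha : 2 ≤ a) (hdiv : w i ∣ ∑ k, w k)
    (hpl : ∀ k, k ≠ i → ∃ α β : ℕ, 0 < β ∧ Finsupp.single i α + Finsupp.single k β ∈ S ∧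
      α * w i + β * w k = e) : BT S w e i := by
  classical
  choose! α β hβ hS hwt using hpl
  obtain ⟨D, hD⟩ : ∃ D : Fin N → (Fin N →₀ ℕ), D = fun l => if l = i then Finsupp.single i a
    else Finsupp.single i (α l) + Finsupp.single l (β l) := ⟨_, rfl⟩
  have hDi : ∀ l, D l i = if l = i then a else α l := by
    intro l
    rw [hD]
    by_cases h : l = i
    · simp [h]
    · simp [h]
  have hDk : ∀ k, k ≠ i → ∀ l, D l k = if l = k then β k else 0 := by
    intro k hk l
    rw [hD]
    by_cases h : l = i
    · subst h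
      simp [hk, Ne.symm hk]
    · by_cases h2 : l = k
      · subst h2
        simp [h]
      · simp [h, h2, Ne.symm hk, Ne.symm h2]
  have ha0 : (a : ℚ) ≠ 0 := by
    have : a ≠ 0 := by omega
    exact_mod_cast this
  have hDS : ∀ l, D l ∈ S ∧ wd w (D l) = e := by
    intro l
    by_cases h : l = i
    · subst h
      have e1 : D l = Finsupp.single l a := by
        rw [hD]
        simp
      rw [f6_wd w (D l) l, hDi l, if_pos rfl, Finset.sum_eq_zero, add_zero]
      · rw [e1]
        exact ⟨hs, hae⟩
      · intro k hk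
        have hk' := Finset.ne_of_mem_erase hk
        rw [hDk k hk' l, if_neg hk'.symm, zero_mul]
    · have e1 : D l = Finsupp.single i (α l) + Finsupp.single l (β l) := by
        rw [hD]
        simp [h]
      rw [f6_wd w (D l) i, hDi l, if_neg h, Finset.sum_eq_single l]
      · rw [hDk l h l, if_pos rfl, hwt l h, e1]
        exact ⟨hS l h, rfl⟩
      · intro k hk hkl
        rw [hDk k (Finset.ne_of_mem_erase hk) l, if_neg hkl.symm, zero_mul]
      · intro hl
        exact absurd (Finset.mem_erase.2 ⟨h, Finset.mem_univ l⟩) hl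
  have hlin : LinearIndependent ℚ (fun l => fun j => ((D l j : ℕ) : ℚ)) := by
    rw [Fintype.linearIndependent_iff]
    intro g hg
    have h1 : ∀ j, ∑ l, g l * ((D l j : ℕ) : ℚ) = 0 := by
      intro j
      have h2 := congrFun hg j
      simpa [Finset.sum_apply] using h2
    have h2 : ∀ k, k ≠ i → g k = 0 := by
      intro k hk
      have h3 := h1 k
      rw [f6_sumK (hDk k hk)] at h3
      rcases mul_eq_zero.1 h3 with h4 | h4
      · exact h4
      · exact absurd (Nat.cast_eq_zero.1 h4) (hβ k hk).ne'
    intro l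
    by_cases h : l = i
    · subst h
      have h3 := h1 l
      rw [f6_sumI hDi, Finset.sum_eq_zero, add_zero] at h3
      · exact (mul_eq_zero.1 h3).resolve_right ha0
      · intro k hk
        rw [h2 k (Finset.ne_of_mem_erase hk), zero_mul]
    · exact h2 l h
  -- all `β k` are `1`
  have hβ1 : ∀ k, k ≠ i → β k = 1 := by
    obtain ⟨q, hq⟩ := hdiv
    have hq1 : 1 ≤ q := by
      rcases Nat.eq_zero_or_pos q with h0 | h0
      · rw [h0, mul_zero, Finset.sum_eq_zero_iff] at hq
        exact absurd (hq i (Finset.mem_univ i)) (hw i).ne'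
      · exact h0
    have hsum : ∑ k ∈ Finset.univ.erase i, w k + w i = w i * q := by
      rw [← hq, ← Finset.add_sum_erase _ _ (Finset.mem_univ i), add_comm]
    obtain ⟨T, hT⟩ : ∃ T : ℕ, T = q + ∑ k ∈ Finset.univ.erase i, α k := ⟨_, rfl⟩
    have hTa : q - 1 ≤ T * a := by
      have h1 : T * 1 ≤ T * a := Nat.mul_le_mul_left T (by omega)
      omega
    obtain ⟨ρ, hρ⟩ : ∃ ρ : Fin N →₀ ℕ, ρ = Finsupp.equivFunOnFinite.symm
      (fun k => if k = i then T * a - (q - 1) else 1) := ⟨_, rfl⟩
    have hρi : ρ i = T * a - (q - 1) := by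
      rw [hρ]
      simp
    have hρk : ∀ k, k ≠ i → ρ k = 1 := by
      intro k hk
      rw [hρ]
      simp [hk]
    have hρw : e ∣ wd w ρ := by
      refine ⟨T, ?_⟩
      rw [f6_wd w ρ i, hρi, Finset.sum_congr rfl (g := fun k => w k)
        (fun k hk => by rw [hρk k (Finset.ne_of_mem_erase hk), one_mul]), ← hae]
      obtain ⟨u, hu⟩ : ∃ u, u + (q - 1) = T * a := ⟨T * a - (q - 1), by omega⟩
      have e1 : T * a - (q - 1) = u := by omega
      have e2 : ∑ k ∈ Finset.univ.erase i, w k = w i * (q - 1) := by
        obtain ⟨q', rfl⟩ : ∃ q', q = q' + 1 := ⟨q - 1, by omega⟩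
        rw [Nat.add_sub_cancel]
        rw [mul_add, mul_one] at hsum
        omega
      rw [e1, e2]
      calc u * w i + w i * (q - 1) = (u + (q - 1)) * w i := by ring
        _ = a * w i * T := by
          rw [hu]
          ring
    intro k hk
    by_contra hb
    have hρ0 : (0 : Fin N →₀ ℕ) ≠ ρ := by
      intro h
      have h1 := hρk k hk
      rw [← h] at h1
      simp at h1
    have h1 := (hL D hDS hlin {0, ρ} ?_ ?_).1
    · rw [Finset.card_pair hρ0] at h1
      omega
    · intro ρ' hρ'
      rw [Finset.mem_insert, Finset.mem_singleton] at hρ'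
      rcases hρ' with rfl | rfl
      · refine ⟨by simp [wd], fun _ => 0, fun _ => le_rfl, fun j => ?_⟩
        simp
      · refine ⟨hρw, fun l => if l = i then ((T : ℚ) * a - (q - 1) -
          ∑ k ∈ Finset.univ.erase i, (α k : ℚ) / β k) / a else 1 / (β l : ℚ), ?_, ?_⟩
        · intro l
          by_cases h : l = i
          · simp only [h, if_true]
            refine div_nonneg ?_ (Nat.cast_nonneg a)
            have h2 : ∑ k ∈ Finset.univ.erase i, (α k : ℚ) / β k ≤
                ∑ k ∈ Finset.univ.erase i, (α k : ℚ) := by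
              refine Finset.sum_le_sum fun k hk => ?_
              refine div_le_self (Nat.cast_nonneg _) ?_
              exact_mod_cast hβ k (Finset.ne_of_mem_erase hk)
            have h3 : (T : ℚ) = q + ∑ k ∈ Finset.univ.erase i, (α k : ℚ) := by
              rw [hT]
              push_cast
              rfl
            have h4 : (T : ℚ) * 1 ≤ T * a := by
              apply mul_le_mul_of_nonneg_left _ (Nat.cast_nonneg _)
              exact_mod_cast (show 1 ≤ a by omega)
            linarith
          · simp only [h, if_false]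
            positivity
        · intro j
          by_cases h : j = i
          · subst h
            have e1 : ∑ l ∈ Finset.univ.erase j, 1 / (β l : ℚ) * α l =
                ∑ k ∈ Finset.univ.erase j, (α k : ℚ) / β k :=
              Finset.sum_congr rfl fun k _ => by ring
            rw [f6_sumI' hDi, div_mul_cancel₀ _ ha0, e1, hρi, Nat.cast_sub hTa, Nat.cast_sub hq1]
            push_cast
            ring
          · rw [f6_sumK (hDk j h)]
            simp only [h, if_false]
            rw [hρk j h, Nat.cast_one, one_div, inv_mul_cancel₀]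
            exact_mod_cast (hβ j h).ne'
    · intro ρ1 h1 ρ2 h2 hne c hc
      have h3 := hc k
      rw [f6_sumK (hDk k hk)] at h3
      have h4 : (β k : ℤ) ∣ 1 := by
        rw [Finset.mem_insert, Finset.mem_singleton] at h1 h2
        rcases h1 with rfl | rfl <;> rcases h2 with rfl | rfl
        · exact absurd rfl hne
        · rw [hρk k hk] at h3
          refine ⟨-c k, ?_⟩
          simp only [Finsupp.coe_zero, Pi.zero_apply] at h3
          push_cast at h3
          linarith
        · rw [hρk k hk] at h3
          refine ⟨c k, ?_⟩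
          simp only [Finsupp.coe_zero, Pi.zero_apply] at h3
          push_cast at h3
          linarith
        · exact absurd rfl hne
      have h5 : β k ∣ 1 := by exact_mod_cast h4
      exact hb (Nat.dvd_one.1 h5)
  -- the weight of the axis is `1`
  have hwi : w i = 1 := by
    have h1 : w i ∣ Finset.univ.gcd w := by
      refine Finset.dvd_gcd fun k _ => ?_
      by_cases h : k = i
      · rw [h]
      · have h2 := hwt k h
        rw [hβ1 k h, one_mul, ← hae] at h2
        exact (Nat.dvd_add_right (dvd_mul_left (w i) (α k))).1 (by rw [h2]; exact dvd_mul_left _ _)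
    rw [hF.prim] at h1
    exact Nat.dvd_one.1 h1
  have hea : a = e := by
    rw [hwi, mul_one] at hae
    exact hae
  subst hea
  have hwk : ∀ k, k ≠ i → α k + w k = a := by
    intro k hk
    have h2 := hwt k hk
    rw [hβ1 k hk, hwi, mul_one, one_mul] at h2
    exact h2
  refine ⟨hw, hwi, ha, hs, ?_, ?_⟩
  · intro k hk
    refine ⟨α k, ?_, hwk k hk⟩
    have h1 := hS k hk
    rw [hβ1 k hk] at h1
    exact h1
  · intro m hm hme
    have hme' := hme
    rw [f6_wd w m i, hwi, mul_one] at hme'
    by_cases h2 : 2 ≤ ∑ k ∈ Finset.univ.erase i, m k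
    · exfalso
      have h3 := (hL D hDS hlin {0} ?_ ?_).2 ⟨m, hm, hme,
        fun l => if l = i then 1 - ∑ k ∈ Finset.univ.erase i, (m k : ℚ) else (m l : ℚ), ?_, ?_⟩
      · rw [Finset.card_singleton] at h3
        omega
      · intro ρ' hρ'
        rw [Finset.mem_singleton] at hρ'
        subst hρ'
        refine ⟨by simp [wd], fun _ => 0, fun _ => le_rfl, fun j => ?_⟩
        simp
      · intro ρ1 h1 ρ2 h4 hne
        rw [Finset.mem_singleton] at h1 h4
        exact absurd (h1.trans h4.symm) hne
      · refine ⟨i, ?_⟩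
        simp only [if_true]
        have h4 : ((2 : ℕ) : ℚ) ≤ ((∑ k ∈ Finset.univ.erase i, m k : ℕ) : ℚ) := by exact_mod_cast h2
        push_cast at h4
        linarith
      · intro j
        by_cases h : j = i
        · subst h
          rw [f6_sumI' hDi]
          have h5 : (m j : ℚ) + ∑ k ∈ Finset.univ.erase j, (m k : ℚ) * w k = a := by
            exact_mod_cast hme'
          have h6 : ∑ k ∈ Finset.univ.erase j, (m k : ℚ) * w k =
              (∑ k ∈ Finset.univ.erase j, (m k : ℚ)) * a -
                ∑ k ∈ Finset.univ.erase j, (m k : ℚ) * α k := by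
            rw [Finset.sum_mul, ← Finset.sum_sub_distrib]
            refine Finset.sum_congr rfl fun k hk => ?_
            have h7 : (α k : ℚ) + w k = a := by exact_mod_cast hwk k (Finset.ne_of_mem_erase hk)
            rw [← h7]
            ring
          rw [h6] at h5
          linarith
        · rw [f6_sumK (hDk j h), hβ1 j h, Nat.cast_one, mul_one]
          simp only [h, if_false]
    · push Not at h2
      by_cases h0 : ∀ k, k ≠ i → m k = 0
      · left
        rw [Finset.sum_eq_zero, add_zero] at hme'
        · rw [← hme']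
          ext j
          by_cases h : j = i
          · subst h
            simp
          · rw [h0 j h, Finsupp.single_eq_of_ne h]
        · intro k hk
          rw [h0 k (Finset.ne_of_mem_erase hk), zero_mul]
      · right
        push Not at h0
        obtain ⟨k, hk, hmk⟩ := h0
        have hkm : k ∈ Finset.univ.erase i := Finset.mem_erase.2 ⟨hk, Finset.mem_univ k⟩
        refine ⟨k, hk, m i, ?_⟩
        have h3 := Finset.add_sum_erase _ (fun l => m l) hkm
        have hmk1 : m k = 1 := by
          have : m k ≤ ∑ l ∈ Finset.univ.erase i, m l :=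
            Finset.single_le_sum (f := fun l => m l) (fun l _ => Nat.zero_le _) hkm
          omega
        have h4 : ∑ l ∈ (Finset.univ.erase i).erase k, m l = 0 := by
          have h5 : m k + ∑ l ∈ (Finset.univ.erase i).erase k, m l =
            ∑ l ∈ Finset.univ.erase i, m l := h3
          omega
        rw [Finset.sum_eq_zero_iff] at h4
        ext j
        rw [Finsupp.add_apply]
        by_cases h : j = i
        · subst h
          rw [Finsupp.single_eq_same, Finsupp.single_eq_of_ne (Ne.symm hk), add_zero]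
        · by_cases h' : j = k
          · subst h'
            rw [Finsupp.single_eq_of_ne h, Finsupp.single_eq_same, zero_add, hmk1]
          · rw [Finsupp.single_eq_of_ne h, Finsupp.single_eq_of_ne h', add_zero]
            exact h4 j (Finset.mem_erase.2 ⟨h', Finset.mem_erase.2 ⟨h, Finset.mem_univ j⟩⟩)

end NC
end MotMono
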