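import Pool.Agent.Lib.MP_4e5fcd_ag.NC.FDefs

/-!
# NC-F7: facets with two axis points and two zeros, first part: all vertices are on the axes

PROOF. `k = i`, `k = j`: `a`, `b`. Let `k ≠ i, j`. For all `l ≠ i, j` take `α l, β l` from `hpi`; `α' , β'` from `hpj` for `k`.
`D i = single i a`, `D j = single j b`, `D l = single i (α l) + single l (β l)` for `l ≠ i, j`: independent (coordinates `l ≠ i, j` first, then `j`, `i`).
If `α k = 0`: `c = β k`. If `α k > 0`: the point `m' = single j α' + single k β'` is in `S` and has weight `e`, and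
`m' = (β' / β k) * D k + (α' / b) * D j - (β' * α k / (β k * a)) * D i`, so the coefficient of `D i` is negative. `G = {0, single i (a / 2) + single j (b / 2)}`: both are in the cone
(`1 / 2 * D i + 1 / 2 * D j`), `e ∣` weight (`a / 2 * w i + b / 2 * w j = e`), inequivalent (by independence the coefficients would be `± 1 / 2`). The last
clause of `LowB` gives `3 ≤ 2`, contradiction.
-/

namespace MotMono
namespace NC

variable {N : ℕ}

private theorem f7_wd (w : Fin N → ℕ) (i l : Fin N) (x y : ℕ) :
    wd w (Finsupp.single i x + Finsupp.single l y) = x * w i + y * w l := by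
  classical
  unfold wd
  simp only [Finsupp.add_apply, Finsupp.single_apply, add_mul, Finset.sum_add_distrib, ite_mul,
    zero_mul, Finset.sum_ite_eq, Finset.mem_univ, if_true]

private theorem f7_sum {R : Type} [CommRing R] (i : Fin N) (α β : Fin N → ℕ) (c : Fin N → R)
    (t : Fin N) :
    ∑ l, c l * (((Finsupp.single i (α l) + Finsupp.single l (β l) : Fin N →₀ ℕ) t : ℕ) : R) =
      (if i = t then ∑ l, c l * (α l : R) else 0) + c t * (β t : R) := by
  classical
  have h1 : ∀ l, c l * (((Finsupp.single i (α l) + Finsupp.single l (β l) : Fin N →₀ ℕ) t : ℕ) : R) =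
      (if i = t then c l * (α l : R) else 0) + (if l = t then c l * (β l : R) else 0) := by
    intro l
    rw [Finsupp.add_apply, Finsupp.single_apply, Finsupp.single_apply]
    split_ifs <;> simp [mul_add]
  rw [Finset.sum_congr rfl fun l _ => h1 l, Finset.sum_add_distrib]
  congr 1
  · split_ifs with h
    · rfl
    · simp
  · simp

private theorem f7_ind {i : Fin N} {α β : Fin N → ℕ} (hβ : ∀ l, 0 < β l) (hαi : α i = 0) :
    LinearIndependent ℚ (fun l => fun t =>
      (((Finsupp.single i (α l) + Finsupp.single l (β l) : Fin N →₀ ℕ) t : ℕ) : ℚ)) := by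
  classical
  rw [Fintype.linearIndependent_iff]
  intro g hg
  have h1 : ∀ t, (if i = t then ∑ l, g l * (α l : ℚ) else 0) + g t * (β t : ℚ) = 0 := by
    intro t
    rw [← f7_sum]
    have h2 := congrFun hg t
    simpa [Finset.sum_apply] using h2
  have hne : ∀ t, t ≠ i → g t = 0 := by
    intro t ht
    have h2 := h1 t
    rw [if_neg (Ne.symm ht), zero_add] at h2
    have h3 : (β t : ℚ) ≠ 0 := by
      have := hβ t
      positivity
    exact (mul_eq_zero.1 h2).resolve_right h3
  intro t
  by_cases ht : t = i
  · subst ht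
    have h2 := h1 t
    rw [if_pos rfl] at h2
    have h4 : ∑ l, g l * (α l : ℚ) = 0 := by
      apply Finset.sum_eq_zero
      intro l _
      by_cases hl : l = t
      · subst hl
        rw [hαi]
        simp
      · rw [hne l hl, zero_mul]
    rw [h4, zero_add] at h2
    have h3 : (β t : ℚ) ≠ 0 := by
      have := hβ t
      positivity
    exact (mul_eq_zero.1 h2).resolve_right h3
  · exact hne t ht

theorem f_axes {S : Finset (Fin N →₀ ℕ)} {w : Fin N → ℕ} {e : ℕ}
    (hw : ∀ i, 0 < w i) (hL : LowB S w e 2) {i j : Fin N} {a b : ℕ} (hij : i ≠ j)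
    (hsa : Finsupp.single i a ∈ S) (hae : a * w i = e) (ha : 0 < a) (ha2 : 2 ∣ a)
    (hsb : Finsupp.single j b ∈ S) (hbe : b * w j = e) (hb : 0 < b) (hb2 : 2 ∣ b)
    (hpi : ∀ k, k ≠ i → ∃ α β : ℕ, 0 < β ∧ Finsupp.single i α + Finsupp.single k β ∈ S ∧
      α * w i + β * w k = e)
    (hpj : ∀ k, k ≠ j → ∃ α β : ℕ, 0 < β ∧ Finsupp.single j α + Finsupp.single k β ∈ S ∧
      α * w j + β * w k = e) :
    ∀ k, ∃ c : ℕ, 0 < c ∧ Finsupp.single k c ∈ S ∧ c * w k = e := by
  classical
  intro k
  by_cases hki : k = i
  · subst hki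
    exact ⟨a, ha, hsa, hae⟩
  by_cases hkj : k = j
  · subst hkj
    exact ⟨b, hb, hsb, hbe⟩
  -- the points
  have hpt : ∀ l, ∃ α β : ℕ, 0 < β ∧ Finsupp.single i α + Finsupp.single l β ∈ S ∧
      α * w i + β * w l = e ∧ (l = i → α = 0 ∧ β = a) ∧ (l = j → α = 0 ∧ β = b) := by
    intro l
    by_cases h1 : l = i
    · subst h1
      refine ⟨0, a, ha, ?_, ?_, fun _ => ⟨rfl, rfl⟩, fun h => absurd h hij⟩
      · simpa using hsa
      · simpa using hae
    by_cases h2 : l = j
    · subst h2
      refine ⟨0, b, hb, ?_, ?_, fun h => absurd h h1, fun _ => ⟨rfl, rfl⟩⟩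
      · simpa using hsb
      · simpa using hbe
    obtain ⟨α, β, h3, h4, h5⟩ := hpi l h1
    exact ⟨α, β, h3, h4, h5, fun h => absurd h h1, fun h => absurd h h2⟩
  choose α β hβ hS hwt hi hj using hpt
  have hαi : α i = 0 := (hi i rfl).1
  have hβi : β i = a := (hi i rfl).2
  have hαj : α j = 0 := (hj j rfl).1
  have hβj : β j = b := (hj j rfl).2
  obtain ⟨a', rfl⟩ := ha2
  obtain ⟨b', rfl⟩ := hb2
  have ha' : 0 < a' := by omega
  have hb' : 0 < b' := by omega
  by_cases hαk : α k = 0
  · refine ⟨β k, hβ k, ?_, ?_⟩
    · have h1 := hS k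
      rw [hαk] at h1
      simpa using h1
    · have h1 := hwt k
      rw [hαk] at h1
      simpa using h1
  exfalso
  have hαk' : 0 < α k := Nat.pos_of_ne_zero hαk
  obtain ⟨α1, β1, hβ1, hS1, hwt1⟩ := hpj k hkj
  set ρ : Fin N →₀ ℕ := Finsupp.single i a' + Finsupp.single j b' with hρ
  have hρi : ρ i = a' := by
    rw [hρ, Finsupp.add_apply, Finsupp.single_eq_same, Finsupp.single_eq_of_ne hij]
    simp
  have hρj : ρ j = b' := by
    rw [hρ, Finsupp.add_apply, Finsupp.single_eq_same, Finsupp.single_eq_of_ne (Ne.symm hij)]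
    simp
  have hρt : ∀ t, t ≠ i → t ≠ j → ρ t = 0 := by
    intro t h1 h2
    rw [hρ, Finsupp.add_apply, Finsupp.single_apply, Finsupp.single_apply, if_neg (Ne.symm h1),
      if_neg (Ne.symm h2), add_zero]
  have hρ0 : ρ ≠ 0 := by
    intro h
    have := hρi
    rw [h] at this
    simp at this
    omega
  have key := hL (fun l => Finsupp.single i (α l) + Finsupp.single l (β l))
    (fun l => ⟨hS l, by rw [f7_wd]; exact hwt l⟩) (f7_ind hβ hαi) {0, ρ} ?_ ?_
  · have hcard : ({0, ρ} : Finset (Fin N →₀ ℕ)).card = 2 := Finset.card_pair (Ne.symm hρ0)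
    have h3 := key.2 ⟨Finsupp.single j α1 + Finsupp.single k β1, hS1, by rw [f7_wd]; exact hwt1, ?_⟩
    · omega
    refine ⟨fun l => if l = i then -((β1 : ℚ) * α k) / (β k * (2 * a' : ℕ)) else if l = j then
      (α1 : ℚ) / (2 * b' : ℕ) else if l = k then (β1 : ℚ) / β k else 0, ⟨i, ?_⟩, fun t => ?_⟩
    · dsimp only
      rw [if_pos rfl]
      have h1 : (0 : ℚ) < β1 * α k := by positivity
      have h2 : (0 : ℚ) < β k * (2 * a' : ℕ) := by
        have := hβ k
        positivity
      rw [neg_div]
      linarith [div_pos h1 h2]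
    · rw [f7_sum]
      have hβk : (β k : ℚ) ≠ 0 := by
        have := hβ k
        positivity
      have ha0 : ((2 * a' : ℕ) : ℚ) ≠ 0 := by positivity
      have hb0 : ((2 * b' : ℕ) : ℚ) ≠ 0 := by positivity
      have hsum : ∑ l, (if l = i then -((β1 : ℚ) * α k) / (β k * (2 * a' : ℕ)) else if l = j then
          (α1 : ℚ) / (2 * b' : ℕ) else if l = k then (β1 : ℚ) / β k else 0) * (α l : ℚ) =
          (β1 : ℚ) / β k * α k := by
        rw [Finset.sum_eq_single k]
        · rw [if_neg hki, if_neg hkj, if_pos rfl]
        · intro l _ hl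
          by_cases h1 : l = i
          · rw [h1, hαi]; simp
          by_cases h2 : l = j
          · rw [h2, hαj]; simp
          rw [if_neg h1, if_neg h2, if_neg hl, zero_mul]
        · intro h
          exact absurd (Finset.mem_univ _) h
      rw [hsum, Finsupp.add_apply, Finsupp.single_apply, Finsupp.single_apply]
      by_cases h1 : t = i
      · subst h1
        rw [if_pos rfl, if_pos rfl, if_neg (Ne.symm hij), if_neg hki, hβi]
        push_cast
        push_cast at ha0
        field_simp
        ring
      by_cases h2 : t = j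
      · subst h2
        rw [if_neg hij, if_neg h1, if_pos rfl, if_pos rfl, if_neg hkj, hβj]
        push_cast
        push_cast at hb0
        field_simp
        ring
      by_cases h3 : t = k
      · subst h3
        rw [if_neg (Ne.symm h1), if_neg h1, if_neg h2, if_pos rfl, if_neg (Ne.symm h2), if_pos rfl]
        push_cast
        field_simp
      · rw [if_neg (Ne.symm h1), if_neg h1, if_neg h2, if_neg h3, if_neg (Ne.symm h2),
          if_neg (Ne.symm h3)]
        simp
  · intro σ hσ
    rw [Finset.mem_insert, Finset.mem_singleton] at hσ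
    rcases hσ with rfl | rfl
    · refine ⟨by simp [wd], fun _ => 0, fun _ => le_rfl, fun t => by simp⟩
    · refine ⟨?_, fun l => if l = i then 1 / 2 else if l = j then 1 / 2 else 0, fun l => ?_,
        fun t => ?_⟩
      · rw [hρ, f7_wd]
        have h1 : a' * w i + b' * w j = e := by
          have h2 : 2 * (a' * w i) = e := by rw [← hae]; ring
          have h3 : 2 * (b' * w j) = e := by rw [← hbe]; ring
          omega
        rw [h1]
      · dsimp only
        split_ifs <;> norm_num
      · rw [f7_sum]
        have hsum : ∑ l, (if l = i then (1 / 2 : ℚ) else if l = j then 1 / 2 else 0) *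
            (α l : ℚ) = 0 := by
          apply Finset.sum_eq_zero
          intro l _
          by_cases h1 : l = i
          · rw [h1, hαi]; simp
          by_cases h2 : l = j
          · rw [h2, hαj]; simp
          rw [if_neg h1, if_neg h2, zero_mul]
        rw [hsum]
        by_cases h1 : t = i
        · subst h1
          rw [hρi, if_pos rfl, if_pos rfl, hβi]
          push_cast
          ring
        by_cases h2 : t = j
        · subst h2
          rw [hρj, if_neg hij, if_neg h1, if_pos rfl, hβj]
          push_cast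
          ring
        · rw [hρt t h1 h2, if_neg (Ne.symm h1), if_neg h1, if_neg h2]
          simp
  · intro σ hσ σ' hσ' hne c hc
    have hc := hc j
    rw [f7_sum (R := ℤ), if_neg hij, zero_add, hβj] at hc
    rw [Finset.mem_insert, Finset.mem_singleton] at hσ hσ'
    have hb0 : (0 : ℤ) < b' := by exact_mod_cast hb'
    rcases hσ with rfl | rfl <;> rcases hσ' with rfl | rfl
    · exact hne rfl
    · rw [hρj] at hc
      push_cast at hc
      have h1 : (b' : ℤ) * (2 * c j + 1) = 0 := by
        simp at hc
        linarith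
      rcases mul_eq_zero.1 h1 with h2 | h2 <;> omega
    · rw [hρj] at hc
      push_cast at hc
      have h1 : (b' : ℤ) * (2 * c j - 1) = 0 := by
        simp at hc
        linarith
      rcases mul_eq_zero.1 h1 with h2 | h2 <;> omega
    · exact hne rfl

end NC
end MotMono
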