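import Pool.Agent.Lib.MP_4e5fcd_ag.NC.FDefs

/-!
# NC-F8: facets with two axis points and two zeros, second part: arithmetic

PROOF. Choose `b l` by `hax` (`b l * w l = e`, `0 < b l`); `D l = single l (b l)` is independent. Vectors `ρ` with `e ∣ wd w ρ` are in the cone (`c l = ρ l / b l`), and `ρ, ρ'` are equivalent iff
`b l ∣ ρ l - ρ' l` (in `ℤ`) for all `l`. So `LowB … 2` says: among three vectors with `e ∣ wd w` two are congruent modulo all `b l`.
`b i` and `b j` are even (they are equal to `a` and `b`: `hae`, `hbe`), the other `b l` are odd (`honly`). `g = (b i / 2, b j / 2)` on `i, j` has weight `e`, and is not congruent to `0`.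
`hden`: the denominator of `∑ w l / e` is `2`, so `2 * ∑ w l / e` is an integer (`Rat.mul_den_eq_num`): `e ∣ 2 * ∑ w l`, i.e. the vector `h = (2, …, 2)` has `e ∣ wd w h`. `LowB` with
`{0, g, h}` (if they are different): `h` is congruent to `0` or to `g`. In the first case all `b l ∣ 2`, so `b i = b j = 2` and `b l = 1` for the others, `w l = e / b l`, and
`∑ w l / e = 1 / 2 + 1 / 2 + (N - 2)` is an integer, contradiction to `hden`. In the second case `b i ∣ 2 - b i / 2` and `b i` even give `b i = 4`, and `b j = 4`: then `h' = (1, 3)` on `i, j` has weight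
`w i + 3 * w j = e / 4 + 3 * e / 4 = e`, and `0, g = (2, 2), h' = (1, 3)` are three pairwise incongruent vectors, contradiction.
-/

namespace MotMono
namespace NC

variable {N : ℕ}

private theorem f8_wd (w : Fin N → ℕ) (l : Fin N) (c : ℕ) : wd w (Finsupp.single l c) = c * w l := by
  unfold wd
  rw [Finset.sum_eq_single l]
  · rw [Finsupp.single_eq_same]
  · intro b _ hb
    rw [Finsupp.single_eq_of_ne hb, zero_mul]
  · intro h
    exact absurd (Finset.mem_univ _) h

private theorem f8_wd_add (w : Fin N → ℕ) (m m' : Fin N →₀ ℕ) : wd w (m + m') = wd w m + wd w m' := by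
  unfold wd
  rw [← Finset.sum_add_distrib]
  refine Finset.sum_congr rfl fun i _ => ?_
  rw [Finsupp.add_apply]
  ring

private theorem f8_sum (b : Fin N → ℕ) (c : Fin N → ℚ) (i : Fin N) :
    ∑ l, c l * (((Finsupp.single l (b l) : Fin N →₀ ℕ) i : ℕ) : ℚ) = c i * b i := by
  rw [Finset.sum_eq_single i]
  · rw [Finsupp.single_eq_same]
  · intro l _ hl
    rw [Finsupp.single_eq_of_ne (Ne.symm hl)]
    simp
  · intro h
    exact absurd (Finset.mem_univ _) h

private theorem f8_sumZ (b : Fin N → ℕ) (c : Fin N → ℤ) (i : Fin N) :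
    ∑ l, c l * (((Finsupp.single l (b l) : Fin N →₀ ℕ) i : ℕ) : ℤ) = c i * b i := by
  rw [Finset.sum_eq_single i]
  · rw [Finsupp.single_eq_same]
  · intro l _ hl
    rw [Finsupp.single_eq_of_ne (Ne.symm hl)]
    simp
  · intro h
    exact absurd (Finset.mem_univ _) h

/-- three vectors of weight divisible by `e`: two are congruent modulo the `b l` -/
private theorem f8_key {S : Finset (Fin N →₀ ℕ)} {w : Fin N → ℕ} {e : ℕ} (hL : LowB S w e 2)
    (b : Fin N → ℕ) (hb0 : ∀ l, 0 < b l) (hbS : ∀ l, Finsupp.single l (b l) ∈ S)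
    (hbw : ∀ l, b l * w l = e) (G : Finset (Fin N →₀ ℕ)) (hG : ∀ ρ ∈ G, e ∣ wd w ρ)
    (hinc : ∀ ρ ∈ G, ∀ ρ' ∈ G, ρ ≠ ρ' → ¬ ∀ l, (b l : ℤ) ∣ (ρ l : ℤ) - ρ' l) : G.card ≤ 2 := by
  refine (hL (fun l => Finsupp.single l (b l)) (fun l => ⟨hbS l, ?_⟩) ?_ G ?_ ?_).1
  · rw [f8_wd]
    exact hbw l
  · rw [Fintype.linearIndependent_iff]
    intro g hg i
    have h1 := congrFun hg i
    simp only [Finset.sum_apply, Pi.smul_apply, smul_eq_mul, Pi.zero_apply] at h1
    rw [f8_sum b g i] at h1
    rcases mul_eq_zero.1 h1 with h2 | h2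
    · exact h2
    · exfalso
      have h3 : b i = 0 := by exact_mod_cast h2
      have := hb0 i
      omega
  · intro ρ hρ
    refine ⟨hG ρ hρ, fun l => (ρ l : ℚ) / b l, fun l => by positivity, fun i => ?_⟩
    rw [f8_sum b (fun l => (ρ l : ℚ) / b l) i]
    have : (b i : ℚ) ≠ 0 := by
      have := hb0 i
      positivity
    field_simp
  · intro ρ hρ ρ' hρ' hne c hc
    refine hinc ρ hρ ρ' hρ' hne fun l => ⟨c l, ?_⟩
    have h1 := hc l
    rw [f8_sumZ b c l] at h1
    rw [h1]
    ring

theorem f_arith {S : Finset (Fin N →₀ ℕ)} {w : Fin N → ℕ} {e : ℕ} (he : 0 < e)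
    (hw : ∀ i, 0 < w i) (hL : LowB S w e 2) {i j : Fin N} {a b : ℕ} (hij : i ≠ j)
    (hae : a * w i = e) (ha2 : 2 ∣ a) (hbe : b * w j = e) (hb2 : 2 ∣ b)
    (hax : ∀ k, ∃ c : ℕ, 0 < c ∧ Finsupp.single k c ∈ S ∧ c * w k = e)
    (honly : ∀ k c, Finsupp.single k c ∈ S → c * w k = e → 2 ∣ c → k = i ∨ k = j)
    (hden : ((∑ i, (w i : ℚ)) / e).den = 2) : False := by
  classical
  obtain ⟨β, hβe, hβ2⟩ : ∃ β : ℕ, β * w j = e ∧ 2 ∣ β := ⟨b, hbe, hb2⟩
  clear hbe hb2
  choose b hb0 hbS hbw using hax
  have key := f8_key hL b hb0 hbS hbw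
  have heq : (e : ℚ) ≠ 0 := by positivity
  have hbi : b i = a := Nat.eq_of_mul_eq_mul_right (hw i) ((hbw i).trans hae.symm)
  have hi2 : 2 ∣ b i := by rw [hbi]; exact ha2
  have hj2 : 2 ∣ b j := by
    have h1 : b j = β := Nat.eq_of_mul_eq_mul_right (hw j) ((hbw j).trans hβe.symm)
    rw [h1]
    exact hβ2
  obtain ⟨p, hp⟩ := hi2
  obtain ⟨q, hq⟩ := hj2
  have hp0 : 0 < p := by have := hb0 i; omega
  have hq0 : 0 < q := by have := hb0 j; omega
  have hpw : 2 * (p * w i) = e := by rw [← hbw i, hp]; ring
  have hqw : 2 * (q * w j) = e := by rw [← hbw j, hq]; ring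
  -- the sum of the weights
  have hsum : e ∣ 2 * ∑ l, w l := by
    have h1 := Rat.mul_den_eq_num ((∑ i, (w i : ℚ)) / e)
    rw [hden] at h1
    have h2 : (2 : ℚ) * ∑ l, (w l : ℚ) = ((∑ i, (w i : ℚ)) / e).num * e := by
      rw [← h1]
      field_simp
      push_cast
      ring
    have h3 : (2 : ℤ) * ∑ l, (w l : ℤ) = ((∑ i, (w i : ℚ)) / e).num * e := by
      exact_mod_cast h2
    have h4 : (e : ℤ) ∣ ((2 * ∑ l, w l : ℕ) : ℤ) := by
      refine ⟨((∑ i, (w i : ℚ)) / e).num, ?_⟩
      push_cast
      rw [h3]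
      ring
    exact_mod_cast h4
  obtain ⟨g, hg⟩ : ∃ g : Fin N →₀ ℕ, g = Finsupp.single i p + Finsupp.single j q := ⟨_, rfl⟩
  obtain ⟨h, hh⟩ : ∃ h : Fin N →₀ ℕ, h = Finsupp.equivFunOnFinite.symm (fun _ => 2) := ⟨_, rfl⟩
  have hgi : g i = p := by
    rw [hg, Finsupp.add_apply, Finsupp.single_eq_same, Finsupp.single_eq_of_ne hij, add_zero]
  have hgj : g j = q := by
    rw [hg, Finsupp.add_apply, Finsupp.single_eq_same, Finsupp.single_eq_of_ne hij.symm, zero_add]
  have hhl : ∀ l, h l = 2 := by
    intro l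
    rw [hh]
    rfl
  have hwg : e ∣ wd w g := by
    rw [hg, f8_wd_add, f8_wd, f8_wd]
    exact ⟨1, by omega⟩
  have hwh : e ∣ wd w h := by
    have h1 : wd w h = 2 * ∑ l, w l := by
      unfold wd
      rw [Finset.mul_sum]
      exact Finset.sum_congr rfl fun l _ => by rw [hhl]
    rw [h1]
    exact hsum
  have hw0 : e ∣ wd w 0 := by
    have h1 : wd w 0 = 0 := by
      unfold wd
      exact Finset.sum_eq_zero fun l _ => by simp
    rw [h1]
    exact dvd_zero _
  have hnd : ¬ ((b i : ℤ) ∣ (p : ℤ)) := by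
    rw [hp]
    rintro ⟨c, hc⟩
    push_cast at hc
    have h1 : (p : ℤ) * (2 * c - 1) = 0 := by linear_combination -hc
    rcases mul_eq_zero.1 h1 with h2 | h2 <;> omega
  -- `h` is congruent to `0` or `g`
  have hcase : (∀ l, (b l : ℤ) ∣ 2) ∨ (∀ l, (b l : ℤ) ∣ 2 - (g l : ℤ)) := by
    by_contra hcon
    push Not at hcon
    obtain ⟨⟨l1, hl1⟩, l2, hl2⟩ := hcon
    have hne1 : (0 : Fin N →₀ ℕ) ≠ g := by
      intro h0
      have := congrArg (fun m => m i) h0
      simp only [Finsupp.zero_apply, hgi] at this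
      omega
    have hne2 : (0 : Fin N →₀ ℕ) ≠ h := by
      intro h0
      have := congrArg (fun m => m i) h0
      simp only [Finsupp.zero_apply, hhl] at this
      omega
    have hne3 : g ≠ h := by
      intro h0
      apply hl2
      rw [h0, hhl]
      simp
    have hc := key {0, g, h} ?_ ?_
    · rw [Finset.card_insert_of_notMem (by simp [hne1, hne2]),
        Finset.card_insert_of_notMem (by simp [hne3]), Finset.card_singleton] at hc
      omega
    · intro ρ hρ
      simp only [Finset.mem_insert, Finset.mem_singleton] at hρ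
      rcases hρ with rfl | rfl | rfl
      exacts [hw0, hwg, hwh]
    · intro ρ hρ ρ' hρ' hne hall
      simp only [Finset.mem_insert, Finset.mem_singleton] at hρ hρ'
      rcases hρ with rfl | rfl | rfl <;> rcases hρ' with rfl | rfl | rfl
      · exact hne rfl
      · apply hnd
        have := hall i
        rw [hgi] at this
        simpa using this
      · apply hl1
        have := hall l1
        rw [hhl] at this
        simpa using this
      · apply hnd
        have := hall i
        rw [hgi] at this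
        simpa using this
      · exact hne rfl
      · apply hl2
        have := hall l2
        rw [hhl] at this
        rw [← dvd_neg]
        simpa using this
      · apply hl1
        have := hall l1
        rw [hhl] at this
        simpa using this
      · apply hl2
        have := hall l2
        rw [hhl] at this
        simpa using this
      · exact hne rfl
  rcases hcase with hall | hall
  · -- the first case
    have hle : ∀ l, b l ∣ 2 := fun l => by exact_mod_cast hall l
    have hbi2 : b i = 2 := by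
      have := Nat.le_of_dvd (by norm_num) (hle i)
      omega
    have hbj2 : b j = 2 := by
      have := Nat.le_of_dvd (by norm_num) (hle j)
      omega
    have hoth : ∀ l, l ≠ i → l ≠ j → w l = e := by
      intro l hli hlj
      have h1 := Nat.le_of_dvd (by norm_num) (hle l)
      have h2 := hb0 l
      have h3 : b l ≠ 2 := by
        intro h4
        rcases honly l (b l) (hbS l) (hbw l) (by rw [h4]) with h5 | h5
        exacts [hli h5, hlj h5]
      have h4 : b l = 1 := by omega
      have h5 := hbw l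
      rw [h4, one_mul] at h5
      exact h5
    have hdv : e ∣ ∑ l, w l := by
      have h1 : ∑ l, w l = w i + (w j + ∑ l ∈ (Finset.univ.erase i).erase j, w l) := by
        rw [Finset.add_sum_erase _ _ (Finset.mem_erase.2 ⟨hij.symm, Finset.mem_univ _⟩),
          Finset.add_sum_erase _ _ (Finset.mem_univ _)]
      rw [h1, ← add_assoc]
      refine dvd_add ⟨1, ?_⟩ (Finset.dvd_sum fun l hl => ?_)
      · have h2 := hbw i
        have h3 := hbw j
        rw [hbi2] at h2
        rw [hbj2] at h3
        omega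
      · rw [Finset.mem_erase, Finset.mem_erase] at hl
        rw [hoth l hl.2.1 hl.1]
    obtain ⟨m, hm⟩ := hdv
    have h1 : (∑ i, (w i : ℚ)) / e = ((m : ℤ) : ℚ) := by
      have h2 : (∑ i, (w i : ℚ)) = e * m := by exact_mod_cast hm
      rw [h2]
      field_simp
      push_cast
      ring
    rw [h1, Rat.den_intCast] at hden
    omega
  · -- the second case
    have hp2 : p = 2 := by
      have h1 := hall i
      rw [hgi, hp] at h1
      by_contra hne
      have h2 := Int.le_of_dvd (a := ((2 * p : ℕ) : ℤ)) (b := |2 - (p : ℤ)|)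
        (abs_pos.2 (by omega)) ((dvd_abs _ _).2 h1)
      rcases abs_cases (2 - (p : ℤ)) with h3 | h3 <;> push_cast at h2 <;> omega
    have hq2 : q = 2 := by
      have h1 := hall j
      rw [hgj, hq] at h1
      by_contra hne
      have h2 := Int.le_of_dvd (a := ((2 * q : ℕ) : ℤ)) (b := |2 - (q : ℤ)|)
        (abs_pos.2 (by omega)) ((dvd_abs _ _).2 h1)
      rcases abs_cases (2 - (q : ℤ)) with h3 | h3 <;> push_cast at h2 <;> omega
    obtain ⟨h', hh'⟩ : ∃ h' : Fin N →₀ ℕ, h' = Finsupp.single i 1 + Finsupp.single j 3 := ⟨_, rfl⟩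
    have hh'i : h' i = 1 := by
      rw [hh', Finsupp.add_apply, Finsupp.single_eq_same, Finsupp.single_eq_of_ne hij, add_zero]
    have hwh' : e ∣ wd w h' := by
      rw [hh', f8_wd_add, f8_wd, f8_wd]
      rw [hp2] at hpw
      rw [hq2] at hqw
      exact ⟨1, by omega⟩
    have hbi4 : b i = 4 := by omega
    have hne1 : (0 : Fin N →₀ ℕ) ≠ g := by
      intro h0
      have := congrArg (fun m => m i) h0
      simp only [Finsupp.zero_apply, hgi] at this
      omega
    have hne2 : (0 : Fin N →₀ ℕ) ≠ h' := by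
      intro h0
      have := congrArg (fun m => m i) h0
      simp only [Finsupp.zero_apply, hh'i] at this
      omega
    have hne3 : g ≠ h' := by
      intro h0
      have := congrArg (fun m => m i) h0
      simp only [hgi, hh'i] at this
      omega
    have hc := key {0, g, h'} ?_ ?_
    · rw [Finset.card_insert_of_notMem (by simp [hne1, hne2]),
        Finset.card_insert_of_notMem (by simp [hne3]), Finset.card_singleton] at hc
      omega
    · intro ρ hρ
      simp only [Finset.mem_insert, Finset.mem_singleton] at hρ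
      rcases hρ with rfl | rfl | rfl
      exacts [hw0, hwg, hwh']
    · intro ρ hρ ρ' hρ' hne hall'
      simp only [Finset.mem_insert, Finset.mem_singleton] at hρ hρ'
      have h1 := hall' i
      rw [hbi4] at h1
      rcases hρ with rfl | rfl | rfl <;> rcases hρ' with rfl | rfl | rfl
      · exact hne rfl
      · rw [hgi, hp2, Finsupp.zero_apply] at h1
        omega
      · rw [hh'i, Finsupp.zero_apply] at h1
        omega
      · rw [hgi, hp2, Finsupp.zero_apply] at h1
        omega
      · exact hne rfl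
      · rw [hgi, hp2, hh'i] at h1
        omega
      · rw [hh'i, Finsupp.zero_apply] at h1
        omega
      · rw [hgi, hp2, hh'i] at h1
        omega
      · exact hne rfl

end NC
end MotMono
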