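import Pool.Agent.Lib.MP_4e5fcd_ag.NC.Wd

/-!
# NC-FB: a compact facet contains a basis

PROOF. Let `F` be the set of the points `m ∈ S` with `wd w m = e`, as vectors in `ℚ ^ N`, and `W` its span. `W = ⊤`: otherwise there is a linear form `y ≠ 0` (`y : Fin N → ℚ`)
with `∑ m i * y i = 0` for all `m ∈ F` (`Submodule.exists_dual_map_eq_bot_of_lt_top` or `Submodule.exists_le_ker_of_lt_top`; a linear form on `Fin N → ℚ` is given by its
values on the standard basis). `hF.ext y 0` (the vanishing condition is empty as `w` is positive) gives `c` with `y i = c * w i` and `0 = c * e`, `e > 0`: `c = 0`, `y = 0`, contradiction.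
So `F` spans `ℚ ^ N`; a maximal independent subset of it is a basis (`exists_linearIndependent`, or `Module.Basis.ofSpan`/`Submodule.exists_fun_fin_finrank_span_eq`): it has `N` elements, number them
by `Fin N`.
-/

namespace MotMono
namespace NC

variable {N : ℕ}

/-- a compact facet contains `N` linearly independent points -/
theorem exists_basis {S : Finset (Fin N →₀ ℕ)} {w : Fin N → ℕ} {e : ℕ} (hF : Fac S w e)
    (hw : ∀ i, 0 < w i) : ∃ D : Fin N → (Fin N →₀ ℕ), (∀ l, D l ∈ S ∧ wd w (D l) = e) ∧
      LinearIndependent ℚ (fun l => fun i => ((D l i : ℕ) : ℚ)) := by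
  classical
  set v : {m : Fin N →₀ ℕ // m ∈ S ∧ wd w m = e} → (Fin N → ℚ) :=
    fun m i => ((m.1 i : ℕ) : ℚ) with hv
  have htop : Submodule.span ℚ (Set.range v) = ⊤ := by
    by_contra hne
    have hlt : Submodule.span ℚ (Set.range v) < ⊤ := lt_top_iff_ne_top.2 hne
    obtain ⟨f, hf0, hf⟩ := Submodule.exists_le_ker_of_lt_top _ hlt
    have hfe : ∀ x : Fin N → ℚ, f x = ∑ i, x i * f (Pi.single i 1) := by
      intro x
      conv_lhs => rw [← Finset.univ_sum_single x]
      rw [map_sum]
      refine Finset.sum_congr rfl fun i _ => ?_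
      have : (Pi.single i (x i) : Fin N → ℚ) = x i • Pi.single i (1 : ℚ) := by
        ext j
        by_cases hj : j = i
        · subst hj; simp
        · simp [Pi.single_eq_of_ne hj]
      rw [this, map_smul, smul_eq_mul]
    obtain ⟨c, hc, hc0⟩ := hF.ext (fun i => f (Pi.single i 1)) 0
      (fun i hi => absurd hi (hw i).ne') (fun m hm hme => by
        have h1 : v ⟨m, hm, hme⟩ ∈ LinearMap.ker f :=
          hf (Submodule.subset_span ⟨_, rfl⟩)
        rw [LinearMap.mem_ker, hfe] at h1
        exact h1)
    have he : (e : ℚ) ≠ 0 := by exact_mod_cast hF.pos.ne'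
    have hc' : c = 0 := by
      rcases mul_eq_zero.1 hc0.symm with h | h
      · exact h
      · exact absurd h he
    apply hf0
    apply LinearMap.ext
    intro x
    rw [hfe x, LinearMap.zero_apply]
    refine Finset.sum_eq_zero fun i _ => ?_
    have := hc i
    rw [hc', zero_mul] at this
    rw [this, mul_zero]
  obtain ⟨κ, a, -, hspan, hli⟩ := exists_linearIndependent' ℚ v
  rw [htop] at hspan
  let b : Module.Basis κ ℚ (Fin N → ℚ) := Module.Basis.mk hli (by rw [hspan])
  haveI : Finite κ := Module.Finite.finite_basis b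
  haveI : Fintype κ := Fintype.ofFinite κ
  have hcard : Fintype.card κ = Fintype.card (Fin N) := by
    rw [← Module.finrank_eq_card_basis b, Module.finrank_fintype_fun_eq_card]
  let eq : κ ≃ Fin N := Fintype.equivOfCardEq hcard
  refine ⟨fun l => (a (eq.symm l)).1, fun l => (a (eq.symm l)).2, ?_⟩
  exact hli.comp eq.symm eq.symm.injective

end NC
end MotMono
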