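import Pool.Agent.Lib.MP_4e5fcd_ag.NC.FB

/-! # NC-FDefs: the lower bounds of `kush` as a property of a number. Do not edit. -/

namespace MotMono
namespace NC

variable {N : ℕ}

/-- the lower bounds of `kush` for the number `n` -/
def LowB (S : Finset (Fin N →₀ ℕ)) (w : Fin N → ℕ) (e n : ℕ) : Prop :=
  ∀ D : Fin N → (Fin N →₀ ℕ), (∀ l, D l ∈ S ∧ wd w (D l) = e) →
    LinearIndependent ℚ (fun l => fun i => ((D l i : ℕ) : ℚ)) →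
    ∀ G : Finset (Fin N →₀ ℕ),
      (∀ ρ ∈ G, e ∣ wd w ρ ∧ ∃ c : Fin N → ℚ, (∀ l, 0 ≤ c l) ∧
        ∀ i, (ρ i : ℚ) = ∑ l, c l * (D l i : ℚ)) →
      (∀ ρ ∈ G, ∀ ρ' ∈ G, ρ ≠ ρ' → ∀ c : Fin N → ℤ,
        ¬ ∀ i, (ρ i : ℤ) = ρ' i + ∑ l, c l * (D l i : ℤ)) →
      G.card ≤ n ∧
        ((∃ m' ∈ S, wd w m' = e ∧ ∃ c : Fin N → ℚ, (∃ l, c l < 0) ∧
          ∀ i, (m' i : ℚ) = ∑ l, c l * (D l i : ℚ)) → G.card + 1 ≤ n)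

end NC
end MotMono
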