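import Pool.Agent.Lib.MP_4e5fcd_ag.NC.F2
import Pool.Agent.Lib.MP_4e5fcd_ag.NC.F5
import Pool.Agent.Lib.MP_4e5fcd_ag.NC.F6
import Pool.Agent.Lib.MP_4e5fcd_ag.NC.F7
import Pool.Agent.Lib.MP_4e5fcd_ag.NC.F8

/-! # NC-FMain: the combinatorics -/

namespace MotMono
namespace NC

variable {N : ℕ}

/-- `m ≥ 2`. If all facets `(w, e)` with `m ∣ e` are compact, have numbers `n (w, e)` with the lower bounds
of `kush`, and the sum of these numbers is the number of the axis points `a` with `m ∣ a`, then the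
facets `(w, e)` such that `m` is the denominator of `∑ w i / e` are B-facets. -/
theorem comb (hN : 2 ≤ N) (S : Finset (Fin N →₀ ℕ)) (h0 : (0 : Fin N →₀ ℕ) ∉ S) (m : ℕ) (hm : 2 ≤ m)
    (P : Finset ((Fin N → ℕ) × ℕ))
    (hP : ∀ p, p ∈ P ↔ Fac S p.1 p.2 ∧ (∀ i, 0 < p.1 i) ∧ m ∣ p.2)
    (hc : ∀ w e, Fac S w e → m ∣ e → ∀ i, 0 < w i)
    (n : (Fin N → ℕ) × ℕ → ℕ)
    (hK : ∀ p ∈ P, ∀ D : Fin N → (Fin N →₀ ℕ), (∀ l, D l ∈ S ∧ wd p.1 (D l) = p.2) →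
      LinearIndependent ℚ (fun l => fun i => ((D l i : ℕ) : ℚ)) →
      ∀ G : Finset (Fin N →₀ ℕ),
        (∀ ρ ∈ G, p.2 ∣ wd p.1 ρ ∧ ∃ c : Fin N → ℚ, (∀ l, 0 ≤ c l) ∧
          ∀ i, (ρ i : ℚ) = ∑ l, c l * (D l i : ℚ)) →
        (∀ ρ ∈ G, ∀ ρ' ∈ G, ρ ≠ ρ' → ∀ c : Fin N → ℤ,
          ¬ ∀ i, (ρ i : ℤ) = ρ' i + ∑ l, c l * (D l i : ℤ)) →
        G.card ≤ n p ∧
          ((∃ m' ∈ S, wd p.1 m' = p.2 ∧ ∃ c : Fin N → ℚ, (∃ l, c l < 0) ∧
            ∀ i, (m' i : ℚ) = ∑ l, c l * (D l i : ℚ)) → G.card + 1 ≤ n p))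
    (A : Finset (Fin N)) (hA : ∀ i, i ∈ A ↔ ∃ a, IsAx S i a ∧ m ∣ a)
    (hE : A.card = ∑ p ∈ P, n p) (w : Fin N → ℕ) (e : ℕ) (hF : Fac S w e)
    (hden : ((∑ i, (w i : ℚ)) / e).den = m) : ∃ i, BT S w e i := by
  classical
  have hd : ((∑ i, (w i : ℚ)) / e).den ∣ e := by
    have h1 := Rat.den_dvd (∑ i, (w i : ℤ)) (e : ℤ)
    rw [Rat.divInt_eq_div] at h1
    push_cast at h1
    exact_mod_cast h1
  rw [hden] at hd
  have hwp := hc w e hF hd
  have hpP : (w, e) ∈ P := (hP (w, e)).2 ⟨hF, hwp, hd⟩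
  obtain ⟨a, ha, hn, huq⟩ := f_count h0 hm hP hc hK hA hE
  set M := A.filter fun i => a i * w i = e with hM
  have hMn : n (w, e) = M.card := hn _ hpP
  have hMa : ∀ i ∈ M, 0 < a i ∧ Finsupp.single i (a i) ∈ S ∧ a i * w i = e ∧ m ∣ a i := by
    intro i hi
    obtain ⟨hiA, hie⟩ := Finset.mem_filter.1 hi
    obtain ⟨h1, h2, h3⟩ := ha i hiA
    exact ⟨h3, h1.1, hie, h2⟩
  have hpl : ∀ i ∈ M, ∀ k, k ≠ i → ∃ α β : ℕ, 0 < β ∧
      Finsupp.single i α + Finsupp.single k β ∈ S ∧ α * w i + β * w k = e := by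
    intro i hi k hk
    obtain ⟨h1, h2, h3, h4⟩ := hMa i hi
    obtain ⟨hiA, _⟩ := Finset.mem_filter.1 hi
    obtain ⟨α, β, h5, h6, h7⟩ := f_planar h2 h1 hwp (by rw [h3]; exact hF) (fun u hu hFu =>
      huq i hiA u w hu (hwp i) hFu (by rw [h3]; exact hF)) hk
    exact ⟨α, β, h5, h6, by rw [h7, h3]⟩
  have hLB : LowB S w e (n (w, e)) := hK _ hpP
  obtain ⟨_, h2⟩ := f_low hF hwp hLB hm M a hMa
  -- `m * (∑ w / e)` is an integer
  obtain ⟨z, hz⟩ : ∃ z : ℤ, (m : ℚ) * ((∑ i, (w i : ℚ)) / e) = z := by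
    refine ⟨((∑ i, (w i : ℚ)) / e).num, ?_⟩
    rw [← hden, mul_comm]
    exact Rat.mul_den_eq_num _
  have he : (e : ℚ) ≠ 0 := by
    have := hF.pos
    positivity
  rcases h2 hMn with h3 | ⟨h3, rfl⟩
  · obtain ⟨i, hi⟩ := Finset.card_eq_one.1 h3
    have hiM : i ∈ M := by rw [hi]; exact Finset.mem_singleton_self i
    obtain ⟨h4, h5, h6, h7⟩ := hMa i hiM
    refine ⟨i, f_one hF hwp (by rw [hMn, h3] at hLB; exact hLB) h5 h6 ?_ ?_ (hpl i hiM)⟩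
    · exact le_trans hm (Nat.le_of_dvd h4 h7)
    · obtain ⟨q, hq⟩ := h7
      have h8 : (w i : ℚ) * (q * z) = ∑ k, (w k : ℚ) := by
        rw [← hz]
        have h9 : (e : ℚ) = (m : ℚ) * q * w i := by
          rw [← h6, hq]
          push_cast
          ring
        have hwi : (w i : ℚ) ≠ 0 := by
          have := hwp i
          positivity
        have h10 : (w i : ℚ) * (q * ((m : ℚ) * ((∑ k, (w k : ℚ)) / e))) =
            ((m : ℚ) * q * w i) * (∑ k, (w k : ℚ)) / e := by ring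
        rw [h10, ← h9, mul_div_assoc, mul_div_cancel₀ _ he]
      have h11 : (w i : ℤ) * (q * z) = ((∑ k, w k : ℕ) : ℤ) := by
        have h12 : (((w i : ℤ) * (q * z) : ℤ) : ℚ) = (((∑ k, w k : ℕ) : ℤ) : ℚ) := by
          push_cast
          exact h8
        exact_mod_cast h12
      have h13 : (w i : ℤ) ∣ ((∑ k, w k : ℕ) : ℤ) := ⟨_, h11.symm⟩
      exact_mod_cast h13
  · obtain ⟨i, j, hij, hMij⟩ := Finset.card_eq_two.1 h3
    have hiM : i ∈ M := by rw [hMij]; exact Finset.mem_insert_self i _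
    have hjM : j ∈ M := by rw [hMij]; exact Finset.mem_insert_of_mem (Finset.mem_singleton_self j)
    obtain ⟨h4, h5, h6, h7⟩ := hMa i hiM
    obtain ⟨g4, g5, g6, g7⟩ := hMa j hjM
    have hL2 : LowB S w e 2 := by rw [hMn, h3] at hLB; exact hLB
    have hax := f_axes hwp hL2 hij h5 h6 h4 h7 g5 g6 g4 g7 (hpl i hiM) (hpl j hjM)
    refine absurd (f_arith hF.pos hwp hL2 hij h6 h7 g6 g7 hax ?_ hden) id
    intro k c hk hce hc2
    have hAx : IsAx S k c := by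
      refine ⟨hk, fun b hb => ?_⟩
      have h8 := hF.ge _ hb
      have h9 : wd w (Finsupp.single k b) = b * w k := by
        unfold wd
        rw [Finset.sum_eq_single k]
        · simp
        · intro l _ hl
          rw [Finsupp.single_eq_of_ne hl, zero_mul]
        · intro hk'
          exact absurd (Finset.mem_univ k) hk'
      rw [h9, ← hce] at h8
      exact Nat.le_of_mul_le_mul_right h8 (hwp k)
    have hkA : k ∈ A := (hA k).2 ⟨c, hAx, hc2⟩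
    have hac : a k = c := le_antisymm ((ha k hkA).1.2 c hk) (hAx.2 _ (ha k hkA).1.1)
    have hkM : k ∈ M := Finset.mem_filter.2 ⟨hkA, by rw [hac, hce]⟩
    rw [hMij] at hkM
    simpa using hkM

end NC
end MotMono
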