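import Pool.Agent.Lib.MP_4e5fcd_ag.NC.Base
import Pool.Agent.Lib.MP_4e5fcd_ag.NC.FB
import Pool.Agent.Lib.MP_4e5fcd_ag.LFM.GF1

/-! # NC-Fa: facets -/

open MvPolynomial

namespace MotMono
namespace NC

open WH

variable {N r : ℕ}

private theorem fa_gcd (a : ℕ) (w : Fin N → ℕ) :
    (Finset.univ.gcd fun i => a * w i) = a * Finset.univ.gcd w := by
  rw [Finset.gcd_mul_left]
  simp

theorem finite_fac (S : Finset (Fin N →₀ ℕ)) : {p : (Fin N → ℕ) × ℕ | Fac S p.1 p.2}.Finite := by
  classical
  refine Set.Finite.of_finite_image (f := fun p : (Fin N → ℕ) × ℕ =>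
    ((Finset.univ.filter fun i => p.1 i = 0), S.filter fun m => wd p.1 m = p.2)) ?_ ?_
  · refine Set.Finite.subset
      ((Finset.univ : Finset (Finset (Fin N))) ×ˢ S.powerset).finite_toSet ?_
    rintro _ ⟨p, _, rfl⟩
    rw [Finset.mem_coe, Finset.mem_product]
    exact ⟨Finset.mem_univ _, Finset.mem_powerset.2 (Finset.filter_subset _ _)⟩
  · rintro ⟨w, e⟩ hp ⟨w', e'⟩ hq hpq
    simp only [Set.mem_ofPred_eq] at hp hq
    simp only [Prod.mk.injEq] at hpq
    obtain ⟨h1, h2⟩ := hpq
    obtain ⟨c, hc, hce⟩ := hp.ext (fun i => (w' i : ℚ)) (e' : ℚ) (by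
      intro i hi
      have h3 : i ∈ Finset.univ.filter fun i => w' i = 0 := by
        rw [← h1]
        simp [hi]
      have h4 := (Finset.mem_filter.1 h3).2
      simp [h4]) (by
      intro m hm hme
      have h3 : m ∈ S.filter fun m => wd w' m = e' := by
        rw [← h2]
        exact Finset.mem_filter.2 ⟨hm, hme⟩
      have h4 := (Finset.mem_filter.1 h3).2
      rw [← h4]
      unfold wd
      push_cast
      rfl)
    have hc0 : 0 < c := by
      have h3 : (0 : ℚ) < e' := by exact_mod_cast hq.pos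
      have h4 : (0 : ℚ) < e := by exact_mod_cast hp.pos
      rw [hce] at h3
      by_contra hcon
      push Not at hcon
      exact absurd h3 (not_lt.2 (mul_nonpos_of_nonpos_of_nonneg hcon h4.le))
    have hnum : (0 : ℤ) < c.num := Rat.num_pos.2 hc0
    obtain ⟨a, ha⟩ := Int.eq_ofNat_of_zero_le hnum.le
    have key : ∀ x y : ℕ, (x : ℚ) = c * y → c.den * x = a * y := by
      intro x y hxy
      have h5 : c * c.den = (a : ℚ) := by
        rw [Rat.mul_den_eq_num, ha]
        simp
      have h6 : ((c.den * x : ℕ) : ℚ) = ((a * y : ℕ) : ℚ) := by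
        push_cast
        rw [hxy, ← h5]
        ring
      exact_mod_cast h6
    have h7 : (Finset.univ.gcd fun i => c.den * w' i) = Finset.univ.gcd fun i => a * w i := by
      congr 1
      funext i
      exact key _ _ (hc i)
    rw [fa_gcd, fa_gcd, hp.prim, hq.prim, mul_one, mul_one] at h7
    have h8 : 0 < c.den := c.den_pos
    have hw : w = w' := by
      funext i
      have h9 := key _ _ (hc i)
      rw [h7] at h9
      exact (Nat.eq_of_mul_eq_mul_left (h7 ▸ h8) h9).symm
    have he : e = e' := by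
      have h9 := key _ _ hce
      rw [h7] at h9
      exact (Nat.eq_of_mul_eq_mul_left (h7 ▸ h8) h9).symm
    rw [hw, he]

/-- the linear form of an exponent: the constraint `t ≤ w · m` -/
def lf (m : Fin N →₀ ℕ) : Option (Fin N) → ℤ := fun o => o.elim (-1) fun i => (m i : ℤ)

theorem lf_sum (m : Fin N →₀ ℕ) (u : Option (Fin N) → ℕ) :
    ∑ o, lf m o * (u o : ℤ) = (wd (fun i => u (some i)) m : ℤ) - u none := by
  rw [Fintype.sum_option]
  simp only [lf, Option.elim]
  unfold wd
  push_cast
  ring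

theorem lf_sumQ (m : Fin N →₀ ℕ) (y : Option (Fin N) → ℚ) :
    ∑ o, (lf m o : ℚ) * y o = ∑ i, (m i : ℚ) * y (some i) - y none := by
  rw [Fintype.sum_option]
  simp only [lf, Option.elim]
  push_cast
  ring

open Classical in
/-- extreme rays of the cone `t ≤ w · m` (`m ∈ S`) with `t > 0` are facets -/
theorem fac_of_ray {S : Finset (Fin N →₀ ℕ)} (hS : S.Nonempty) {u : Option (Fin N) → ℕ}
    (hu : LFM.ExtRay (∅ : Set (Option (Fin N))) (S.image lf) u) (hp : Prim u) (h0 : 0 < u none) :
    Fac S (fun i => u (some i)) (u none) := by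
  have hge : ∀ m ∈ S, u none ≤ wd (fun i => u (some i)) m := by
    intro m hm
    have h1 := hu.nonneg (lf m) (Finset.mem_image_of_mem _ hm)
    rw [lf_sum] at h1
    omega
  have hext : ∀ (y : Fin N → ℚ) (t : ℚ), (∀ i, u (some i) = 0 → y i = 0) →
      (∀ m ∈ S, wd (fun i => u (some i)) m = u none → ∑ i, (m i : ℚ) * y i = t) →
      ∃ c : ℚ, (∀ i, y i = c * u (some i)) ∧ t = c * u none := by
    intro y t hy ht
    obtain ⟨c, hc⟩ := hu.ext (fun o => o.elim t y) (by
      intro o ho
      cases o with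
      | none => omega
      | some i => exact hy i ho) (by
      intro l hl hl0
      obtain ⟨m, hm, rfl⟩ := Finset.mem_image.1 hl
      rw [lf_sum] at hl0
      rw [lf_sumQ]
      simp only [Option.elim]
      rw [ht m hm (by omega), sub_self])
    exact ⟨c, fun i => hc (some i), hc none⟩
  have htight : ∃ m ∈ S, wd (fun i => u (some i)) m = u none := by
    by_contra hcon
    push Not at hcon
    obtain ⟨c, hc1, hc2⟩ := hext 0 1 (fun i _ => rfl) fun m hm h => absurd h (hcon m hm)
    have hc0 : c ≠ 0 := by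
      rintro rfl
      rw [zero_mul] at hc2
      exact one_ne_zero hc2
    obtain ⟨m, hm⟩ := hS
    have h1 : wd (fun i => u (some i)) m = 0 := by
      unfold wd
      refine Finset.sum_eq_zero fun i _ => ?_
      have h2 := hc1 i
      rw [Pi.zero_apply] at h2
      have h3 : (u (some i) : ℚ) = 0 := (mul_eq_zero.1 h2.symm).resolve_left hc0
      have h4 : u (some i) = 0 := by exact_mod_cast h3
      show m i * u (some i) = 0
      rw [h4, mul_zero]
    have := hge m hm
    omega
  refine ⟨h0, hge, ?_, hext⟩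
  apply hp
  intro o
  cases o with
  | some i => exact Finset.gcd_dvd (Finset.mem_univ i)
  | none =>
    obtain ⟨m, hm, hme⟩ := htight
    rw [← hme]
    unfold wd
    exact Finset.dvd_sum fun i _ => Dvd.dvd.mul_left (Finset.gcd_dvd (Finset.mem_univ i)) _

theorem exists_fac (S : Finset (Fin N →₀ ℕ)) (hS : S.Nonempty) (h0 : (0 : Fin N →₀ ℕ) ∉ S) :
    ∃ w e, Fac S w e := by
  classical
  obtain ⟨U, hU, hp⟩ := LFM.exists_ext_rays (∅ : Set (Option (Fin N))) (S.image lf)
  obtain ⟨α, hα, hx⟩ := hU.gen (fun _ => 1) (fun _ => zero_le_one) (fun i hi => absurd hi (Set.notMem_empty i))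
    (by
      intro l hl
      obtain ⟨m, hm, rfl⟩ := Finset.mem_image.1 hl
      rw [lf_sumQ]
      have h1 : m ≠ 0 := fun h => h0 (h ▸ hm)
      obtain ⟨i, hi⟩ : ∃ i, m i ≠ 0 := by
        by_contra hcon
        push Not at hcon
        exact h1 (Finsupp.ext hcon)
      have h2 : (1 : ℚ) ≤ ∑ i, (m i : ℚ) * 1 := by
        have h3 : ((m i : ℕ) : ℚ) * 1 ≤ ∑ i, (m i : ℚ) * 1 :=
          Finset.single_le_sum (f := fun i => (m i : ℚ) * 1)
            (fun _ _ => mul_nonneg (Nat.cast_nonneg _) zero_le_one) (Finset.mem_univ i)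
        have h4 : (1 : ℚ) ≤ (m i : ℚ) := by exact_mod_cast Nat.one_le_iff_ne_zero.2 hi
        linarith
      linarith)
  have h1 : ∃ u ∈ U, 0 < u none := by
    by_contra hcon
    push Not at hcon
    have h2 := hx none
    rw [Finset.sum_eq_zero] at h2
    · exact one_ne_zero h2
    · intro u hu
      have h3 : u none = 0 := Nat.le_zero.1 (hcon u hu)
      rw [h3, Nat.cast_zero, mul_zero]
  obtain ⟨u, hu, hu0⟩ := h1
  exact ⟨_, _, fac_of_ray hS (hp u hu).2 (hp u hu).1 hu0⟩

theorem mem_support_ip {f : Fin r → MvPolynomial (Fin N) ℂ} {w : Fin N → ℕ} {e : ℕ} {j : Fin r}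
    {m : Fin N →₀ ℕ} (hm : m ∈ (ip f w e j).support) : m ∈ Sup f ∧ wd w m = e := by
  classical
  unfold ip at hm
  rw [mem_support_iff, coeff_weightedHomogeneousComponent] at hm
  have h1 : Finsupp.weight w m = e := by
    by_contra h
    rw [if_neg h] at hm
    exact hm rfl
  rw [if_pos h1] at hm
  refine ⟨Finset.mem_biUnion.2 ⟨j, Finset.mem_univ j, mem_support_iff.2 hm⟩, ?_⟩
  rw [← h1, Finsupp.weight_apply, Finsupp.sum_fintype _ _ (fun i => zero_smul ℕ (w i))]
  unfold wd
  simp only [smul_eq_mul]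

/-- Euler relations -/
theorem euler_rel (F : MvPolynomial (Fin N) ℂ) (y : Fin N → ℂ) (t : ℂ)
    (h : ∀ m ∈ F.support, ∑ i, (m i : ℂ) * y i = t) (z : Fin N → ℂ) :
    ∑ i, y i * (z i * grad F z i) = t * eval z F := by
  classical
  have h1 : ∀ i, z i * grad F z i = ∑ m ∈ F.support, (m i : ℂ) * (coeff m F * ∏ k, z k ^ m k) := by
    intro i
    unfold grad
    conv_lhs => rw [← F.support_sum_monomial_coeff]
    rw [map_sum, map_sum, Finset.mul_sum]
    refine Finset.sum_congr rfl fun m _ => ?_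
    rw [pderiv_monomial, eval_monomial, Finsupp.prod_pow]
    by_cases hm : m i = 0
    · rw [hm]
      simp
    · have h2 : ∏ k, z k ^ (m k) = z i * ∏ k, z k ^ ((m - Finsupp.single i 1 : Fin N →₀ ℕ) k) := by
        rw [← Finset.mul_prod_erase _ _ (Finset.mem_univ i),
          ← Finset.mul_prod_erase Finset.univ (fun k => z k ^ ((m - Finsupp.single i 1 : Fin N →₀ ℕ) k))
            (Finset.mem_univ i), ← mul_assoc]
        congr 1
        · simp only [Finsupp.coe_tsub, Pi.sub_apply, Finsupp.single_eq_same]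
          rw [← pow_succ']
          congr 1
          omega
        · refine Finset.prod_congr rfl fun k hk => ?_
          have hk' : i ≠ k := (Finset.ne_of_mem_erase hk).symm
          simp [Finsupp.single_eq_of_ne' hk']
      rw [h2]
      ring
  simp only [h1]
  rw [eval_eq', Finset.mul_sum]
  simp only [Finset.mul_sum]
  rw [Finset.sum_comm]
  refine Finset.sum_congr rfl fun m hm => ?_
  rw [← h m hm, Finset.sum_mul]
  refine Finset.sum_congr rfl fun i _ => ?_
  ring

/-- Common zeros in the torus exist on facets only (`r + 1 = N`). -/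
theorem ext_of_zero {f : Fin r → MvPolynomial (Fin N) ℂ} (hr : r + 1 = N) (hf : Nondeg f)
    {w : Fin N → ℕ} {e : ℕ} (hw : ∀ i, 0 < w i) (hge : ∀ m ∈ Sup f, e ≤ wd w m)
    (hex : ∃ m ∈ Sup f, wd w m = e) (_he : 0 < e) {z : Fin N → ℂ} (hz : z ∈ VT f w e)
    (y : Fin N → ℂ) (t : ℂ) (hy : ∀ m ∈ Sup f, wd w m = e → ∑ i, (m i : ℂ) * y i = t) :
    ∃ c : ℂ, (∀ i, y i = c * w i) ∧ t = c * e := by
  classical
  have hli := hf w e hw hge hex z hz.1 hz.2
  set A : Matrix (Fin r) (Fin N) ℂ := Matrix.of fun j i => z i * grad (ip f w e j) z i with hA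
  have hrow : LinearIndependent ℂ A.row := by
    have h1 : A.row = (LinearMap.pi fun i => z i • LinearMap.proj i : (Fin N → ℂ) →ₗ[ℂ] (Fin N → ℂ)) ∘
        fun j => grad (ip f w e j) z := by
      funext j i
      simp [hA, Matrix.row]
    rw [h1]
    refine hli.map' _ ?_
    rw [LinearMap.ker_eq_bot']
    intro v hv
    funext i
    have h2 := congrFun hv i
    simp only [LinearMap.pi_apply, LinearMap.smul_apply, LinearMap.proj_apply, smul_eq_mul,
      Pi.zero_apply, mul_eq_zero] at h2
    exact h2.resolve_left (hz.1 i)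
  have hmem : ∀ (y : Fin N → ℂ) (t : ℂ), (∀ m ∈ Sup f, wd w m = e → ∑ i, (m i : ℂ) * y i = t) →
      y ∈ LinearMap.ker A.mulVecLin := by
    intro y t hy
    rw [LinearMap.mem_ker]
    funext j
    have h1 := euler_rel (ip f w e j) y t (fun m hm => hy m (mem_support_ip hm).1 (mem_support_ip hm).2) z
    rw [hz.2 j, mul_zero] at h1
    rw [Matrix.mulVecLin_apply, Matrix.mulVec, dotProduct, Pi.zero_apply, ← h1]
    refine Finset.sum_congr rfl fun i _ => ?_
    rw [hA, Matrix.of_apply]
    ring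
  have hrank : Module.finrank ℂ (LinearMap.ker A.mulVecLin) = 1 := by
    have h1 := LinearMap.finrank_range_add_finrank_ker A.mulVecLin
    have h2 : Module.finrank ℂ (LinearMap.range A.mulVecLin) = r := by
      have h3 := hrow.rank_matrix
      rw [Matrix.rank, Fintype.card_fin] at h3
      exact h3
    rw [h2, Module.finrank_fintype_fun_eq_card, Fintype.card_fin] at h1
    omega
  have hwmem : (fun i => (w i : ℂ)) ∈ LinearMap.ker A.mulVecLin := by
    refine hmem _ (e : ℂ) fun m _ hme => ?_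
    rw [← hme]
    unfold wd
    push_cast
    rfl
  have hN : 0 < N := by omega
  have hwne : (⟨fun i => (w i : ℂ), hwmem⟩ : LinearMap.ker A.mulVecLin) ≠ 0 := by
    intro h
    have h1 := congrFun (congrArg Subtype.val h) ⟨0, hN⟩
    have h2 := hw ⟨0, hN⟩
    simp only [ZeroMemClass.coe_zero, Pi.zero_apply, Nat.cast_eq_zero] at h1
    omega
  obtain ⟨c, hc⟩ := (finrank_eq_one_iff_of_nonzero' _ hwne).1 hrank ⟨y, hmem y t hy⟩
  have hc' : ∀ i, y i = c * w i := by
    intro i
    have h1 := congrFun (congrArg Subtype.val hc) i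
    exact h1.symm
  refine ⟨c, hc', ?_⟩
  obtain ⟨m, hm, hme⟩ := hex
  rw [← hy m hm hme, ← hme]
  unfold wd
  push_cast
  rw [Finset.mul_sum]
  refine Finset.sum_congr rfl fun i _ => ?_
  rw [hc' i]
  ring

end NC
end MotMono
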