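import Pool.Agent.Lib.MP_4e5fcd_ag.NC.KDefs
import Pool.Agent.Lib.MP_4e5fcd_ag.NC.Fa

/-!
# NC-K0: weights, the cone, the graded pieces `LK`: basic facts

All statements are elementary. PROOFS.
* `wd_add`, `wd_nsmul`, `wd_sumq`: `wd` is additive.
* `Cone`: `n b = ∑ q a`, `n' b' = ∑ q' a` give `n n' (b + b') = ∑ (n' q + n q') a`. `cone_div`: if `n b = ∑ q a` with `n E ≤ q a₀`, then `E a₀ ≤ b` (coordinates: `n b_i = ∑ q_a a_i ≥ n E (a₀)_i`), `b = E a₀ + b'`, and `n b' = ∑ q' a` with `q' a₀ = q a₀ - n E`.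
* `mul_mem_LK`: `restrictSupport_add` or by `mem_restrictSupport_iff`, `support_mul`; `mem_LK_iff` is `mem_restrictSupport_iff`; `monomial_mem_LK`.
* `coeff_ip`: `coeff_weightedHomogeneousComponent`; the weight of mathlib is `Finsupp.weight w m = ∑ m i • w i = wd w m` (see `mem_support_ip` in `Fa.lean`).
* `finite_LK`: the exponents `b` with `wd w b = k e` satisfy `b i ≤ k e`, so they are finitely many; `Module.Finite` from `basisRestrictSupport`.
* `mul_mem_UK`: `g ∈ L_i`, `h ∈ ∑ F j L_(k-1)` ⟹ `g h ∈ ∑ F j L_(k+i-1)`.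
-/

open MvPolynomial

namespace MotMono
namespace NC

open WH

variable {N r : ℕ}

theorem wd_add (w : Fin N → ℕ) (a b : Fin N →₀ ℕ) : wd w (a + b) = wd w a + wd w b := by
  unfold wd
  rw [← Finset.sum_add_distrib]
  refine Finset.sum_congr rfl fun i _ => ?_
  rw [Finsupp.add_apply]
  ring

theorem wd_zero (w : Fin N → ℕ) : wd w 0 = 0 := by
  unfold wd
  exact Finset.sum_eq_zero fun i _ => by simp

theorem wd_nsmul (w : Fin N → ℕ) (n : ℕ) (a : Fin N →₀ ℕ) : wd w (n • a) = n * wd w a := by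
  unfold wd
  rw [Finset.mul_sum]
  refine Finset.sum_congr rfl fun i _ => ?_
  rw [Finsupp.smul_apply, smul_eq_mul]
  ring

theorem wd_sumq (w : Fin N → ℕ) (A : Finset (Fin N →₀ ℕ)) (q : (Fin N →₀ ℕ) → ℕ) :
    wd w (∑ a ∈ A, q a • a) = ∑ a ∈ A, q a * wd w a := by
  classical
  induction A using Finset.induction_on with
  | empty => simp [wd_zero]
  | insert a A ha ih => rw [Finset.sum_insert ha, Finset.sum_insert ha, wd_add, wd_nsmul, ih]

theorem mem_SA {S : Finset (Fin N →₀ ℕ)} {w : Fin N → ℕ} {e : ℕ} {m : Fin N →₀ ℕ} :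
    m ∈ SA S w e ↔ m ∈ S ∧ wd w m = e := by
  unfold SA
  exact Finset.mem_filter

theorem cone_sumq (A : Finset (Fin N →₀ ℕ)) (q : (Fin N →₀ ℕ) → ℕ) : Cone A (∑ a ∈ A, q a • a) := by
  exact ⟨1, q, one_pos, one_smul _ _⟩

theorem cone_of_mem {A : Finset (Fin N →₀ ℕ)} {a : Fin N →₀ ℕ} (h : a ∈ A) : Cone A a := by
  classical
  refine ⟨1, fun b => if b = a then 1 else 0, one_pos, ?_⟩
  rw [one_smul, Finset.sum_eq_single a]
  · simp
  · intro b _ hb
    simp [hb]
  · intro h'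
    exact absurd h h'

theorem cone_zero (A : Finset (Fin N →₀ ℕ)) : Cone A 0 := by
  refine ⟨1, fun _ => 0, one_pos, ?_⟩
  simp

theorem Cone.add {A : Finset (Fin N →₀ ℕ)} {a b : Fin N →₀ ℕ} (ha : Cone A a) (hb : Cone A b) :
    Cone A (a + b) := by
  obtain ⟨n, q, hn, h1⟩ := ha
  obtain ⟨n', q', hn', h2⟩ := hb
  refine ⟨n * n', fun c => n' * q c + n * q' c, Nat.mul_pos hn hn', ?_⟩
  have h3 : ∑ c ∈ A, (n' * q c + n * q' c) • c = n' • ∑ c ∈ A, q c • c + n • ∑ c ∈ A, q' c • c := by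
    rw [Finset.smul_sum, Finset.smul_sum, ← Finset.sum_add_distrib]
    refine Finset.sum_congr rfl fun c _ => ?_
    rw [add_smul, mul_smul, mul_smul]
  rw [h3, ← h1, ← h2, smul_add, mul_comm n n', mul_smul, mul_comm n' n, mul_smul]

theorem Cone.nsmul {A : Finset (Fin N →₀ ℕ)} {a : Fin N →₀ ℕ} (ha : Cone A a) (n : ℕ) :
    Cone A (n • a) := by
  obtain ⟨m, q, hm, h1⟩ := ha
  refine ⟨m, fun c => n * q c, hm, ?_⟩
  have h3 : ∑ c ∈ A, (n * q c) • c = n • ∑ c ∈ A, q c • c := by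
    rw [Finset.smul_sum]
    exact Finset.sum_congr rfl fun c _ => mul_smul _ _ _
  rw [h3, ← h1, smul_comm]

theorem cone_div {A : Finset (Fin N →₀ ℕ)} {b a₀ : Fin N →₀ ℕ} {n E : ℕ} {q : (Fin N →₀ ℕ) → ℕ}
    (hn : 0 < n) (hb : n • b = ∑ a ∈ A, q a • a) (ha : a₀ ∈ A) (hq : n * E ≤ q a₀) :
    ∃ b', Cone A b' ∧ b = E • a₀ + b' := by
  classical
  have h1 : ∑ a ∈ A, q a • a = (n * E) • a₀ + ((q a₀ - n * E) • a₀ + ∑ a ∈ A.erase a₀, q a • a) := by
    rw [← add_assoc, ← add_smul, Nat.add_sub_cancel' hq]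
    exact (Finset.add_sum_erase A (fun a => q a • a) ha).symm
  have h2 : E • a₀ ≤ b := by
    intro i
    have h3 := congrArg (fun f : Fin N →₀ ℕ => f i) (hb.trans h1)
    simp only [Finsupp.smul_apply, Finsupp.add_apply, smul_eq_mul] at h3
    rw [Finsupp.smul_apply, smul_eq_mul]
    have h4 : n * (E * a₀ i) ≤ n * b i := by
      rw [h3, ← mul_assoc]
      exact Nat.le_add_right _ _
    exact Nat.le_of_mul_le_mul_left h4 hn
  obtain ⟨b', hb'⟩ := exists_add_of_le h2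
  refine ⟨b', ⟨n, fun a => if a = a₀ then q a₀ - n * E else q a, hn, ?_⟩, hb'⟩
  have h5 : ∑ a ∈ A, (if a = a₀ then q a₀ - n * E else q a) • a =
      (q a₀ - n * E) • a₀ + ∑ a ∈ A.erase a₀, q a • a := by
    rw [← Finset.add_sum_erase A (fun a => (if a = a₀ then q a₀ - n * E else q a) • a) ha,
      if_pos rfl]
    congr 1
    refine Finset.sum_congr rfl fun a h => ?_
    rw [if_neg (Finset.ne_of_mem_erase h)]
  rw [h5]
  have h6 := hb.trans h1
  rw [hb', smul_add, smul_smul] at h6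
  exact add_left_cancel h6

theorem mem_LK {A : Finset (Fin N →₀ ℕ)} {w : Fin N → ℕ} {e k : ℕ} {g : MvPolynomial (Fin N) ℂ} :
    g ∈ LK A w e k ↔ ∀ b ∈ g.support, Cone A b ∧ wd w b = k * e := by
  unfold LK
  rw [mem_restrictSupport_iff]
  constructor
  · intro h b hb
    exact h (Finset.mem_coe.2 hb)
  · intro h b hb
    exact h b (Finset.mem_coe.1 hb)

theorem monomial_mem_LK {A : Finset (Fin N →₀ ℕ)} {w : Fin N → ℕ} {e k : ℕ} {b : Fin N →₀ ℕ}
    (hb : Cone A b) (hk : wd w b = k * e) (c : ℂ) : monomial b c ∈ LK A w e k := by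
  unfold LK
  exact (monomial_mem_restrictSupport ℂ).2 (Or.inl ⟨hb, hk⟩)

theorem mul_mem_LK {A : Finset (Fin N →₀ ℕ)} {w : Fin N → ℕ} {e i k : ℕ}
    {g h : MvPolynomial (Fin N) ℂ} (hg : g ∈ LK A w e i) (hh : h ∈ LK A w e k) :
    g * h ∈ LK A w e (i + k) := by
  classical
  rw [mem_LK] at hg hh ⊢
  intro b hb
  obtain ⟨b1, hb1, b2, hb2, rfl⟩ := Finset.mem_add.1 (support_mul g h hb)
  refine ⟨(hg b1 hb1).1.add (hh b2 hb2).1, ?_⟩
  rw [wd_add, (hg b1 hb1).2, (hh b2 hb2).2]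
  ring

theorem finite_LK (A : Finset (Fin N →₀ ℕ)) {w : Fin N → ℕ} (hw : ∀ i, 0 < w i) (e k : ℕ) :
    Module.Finite ℂ (LK A w e k) := by
  classical
  have hfin : ({b : Fin N →₀ ℕ | Cone A b ∧ wd w b = k * e}).Finite := by
    have h1 : ({b : Fin N →₀ ℕ | ∀ i, b i ≤ k * e}).Finite := by
      have h2 : ({b : Fin N →₀ ℕ | ∀ i, b i ≤ k * e}) ⊆
          Set.Iic (Finsupp.equivFunOnFinite.symm fun _ => k * e) := by
        intro b hb i
        exact hb i
      exact (Set.finite_Iic _).subset h2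
    refine h1.subset ?_
    rintro b ⟨_, hb⟩ i
    rw [← hb]
    unfold wd
    calc b i ≤ b i * w i := Nat.le_mul_of_pos_right _ (hw i)
      _ ≤ ∑ j, b j * w j := Finset.single_le_sum (f := fun j => b j * w j)
          (fun j _ => Nat.zero_le _) (Finset.mem_univ i)
  have := hfin.to_subtype
  unfold LK
  exact Module.Finite.of_basis (basisRestrictSupport ℂ {b | Cone A b ∧ wd w b = k * e})

theorem coeff_ip (f : Fin r → MvPolynomial (Fin N) ℂ) (w : Fin N → ℕ) (e : ℕ) (j : Fin r)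
    (m : Fin N →₀ ℕ) : coeff m (ip f w e j) = if wd w m = e then coeff m (f j) else 0 := by
  unfold ip
  have h1 : Finsupp.weight w m = wd w m := by
    rw [Finsupp.weight_apply, Finsupp.sum_fintype _ _ (by intro i; simp)]
    unfold wd
    exact Finset.sum_congr rfl fun i _ => by rw [smul_eq_mul]
  rw [coeff_weightedHomogeneousComponent, h1]

theorem ip_eq_sum (f : Fin r → MvPolynomial (Fin N) ℂ) (w : Fin N → ℕ) (e : ℕ) (j : Fin r) :
    ip f w e j = ∑ a ∈ SA (Sup f) w e, monomial a (coeff a (f j)) := by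
  classical
  ext m
  rw [coeff_ip, coeff_sum]
  simp only [coeff_monomial]
  rw [Finset.sum_ite_eq' (SA (Sup f) w e) m]
  by_cases h : wd w m = e
  · rw [if_pos h]
    by_cases h2 : m ∈ SA (Sup f) w e
    · rw [if_pos h2]
    · rw [if_neg h2]
      by_contra h3
      apply h2
      rw [mem_SA]
      refine ⟨?_, h⟩
      unfold Sup
      rw [Finset.mem_biUnion]
      exact ⟨j, Finset.mem_univ _, mem_support_iff.2 h3⟩
  · rw [if_neg h, if_neg]
    intro h2
    exact h (mem_SA.1 h2).2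

theorem eval_ip (f : Fin r → MvPolynomial (Fin N) ℂ) (w : Fin N → ℕ) (e : ℕ) (j : Fin r)
    (z : Fin N → ℂ) :
    eval z (ip f w e j) = ∑ a ∈ SA (Sup f) w e, coeff a (f j) * ∏ i, z i ^ a i := by
  rw [ip_eq_sum, map_sum]
  refine Finset.sum_congr rfl fun a _ => ?_
  rw [eval_monomial, Finsupp.prod_fintype _ _ (by intro i; simp)]

theorem ip_mem_LK (f : Fin r → MvPolynomial (Fin N) ℂ) (w : Fin N → ℕ) (e : ℕ) (j : Fin r) :
    ip f w e j ∈ LK (SA (Sup f) w e) w e 1 := by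
  rw [ip_eq_sum]
  refine Submodule.sum_mem _ fun a ha => ?_
  exact monomial_mem_LK (cone_of_mem ha) (by rw [(mem_SA.1 ha).2, one_mul]) _

theorem mul_mem_AJ {F : Fin r → MvPolynomial (Fin N) ℂ} {J : Finset (Fin r)}
    {L : Submodule ℂ (MvPolynomial (Fin N) ℂ)} {j : Fin r} (hj : j ∈ J)
    {g : MvPolynomial (Fin N) ℂ} (hg : g ∈ L) : F j * g ∈ AJ F J L := by
  unfold AJ
  refine Submodule.mem_iSup_of_mem j (Submodule.mem_iSup_of_mem hj ?_)
  exact ⟨g, hg, rfl⟩

theorem AJ_mono {F : Fin r → MvPolynomial (Fin N) ℂ} {J : Finset (Fin r)}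
    {L L' : Submodule ℂ (MvPolynomial (Fin N) ℂ)} (h : L ≤ L') : AJ F J L ≤ AJ F J L' := by
  unfold AJ
  exact iSup₂_mono fun j _ => Submodule.map_mono h

theorem UK_le {F : Fin r → MvPolynomial (Fin N) ℂ} {J : Finset (Fin r)}
    {A : Finset (Fin N →₀ ℕ)} {w : Fin N → ℕ} {e : ℕ} (hF : ∀ j ∈ J, F j ∈ LK A w e 1) (k : ℕ) :
    UK F J A w e k ≤ LK A w e k := by
  cases k with
  | zero => exact bot_le
  | succ k =>
    change AJ F J (LK A w e k) ≤ _
    unfold AJ
    refine iSup₂_le fun j hj => ?_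
    rintro _ ⟨g, hg, rfl⟩
    have h1 := mul_mem_LK (hF j hj) hg
    rw [add_comm] at h1
    exact h1

theorem mul_mem_UK {F : Fin r → MvPolynomial (Fin N) ℂ} {J : Finset (Fin r)}
    {A : Finset (Fin N →₀ ℕ)} {w : Fin N → ℕ} {e i k : ℕ} {g h : MvPolynomial (Fin N) ℂ}
    (hg : g ∈ LK A w e i) (hh : h ∈ UK F J A w e k) : g * h ∈ UK F J A w e (i + k) := by
  cases k with
  | zero =>
    have h0 : h = 0 := (Submodule.mem_bot ℂ).1 hh
    rw [h0, mul_zero]
    exact Submodule.zero_mem _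
  | succ k =>
    change h ∈ AJ F J (LK A w e k) at hh
    change g * h ∈ AJ F J (LK A w e (i + k))
    have h1 : AJ F J (LK A w e k) ≤
        (AJ F J (LK A w e (i + k))).comap (LinearMap.mulLeft ℂ g) := by
      conv_lhs => unfold AJ
      refine iSup₂_le fun j hj => ?_
      rintro _ ⟨l, hl, rfl⟩
      rw [Submodule.mem_comap]
      have h2 := mul_mem_AJ (F := F) hj (mul_mem_LK hg hl)
      have h3 : (LinearMap.mulLeft ℂ g) ((LinearMap.mulLeft ℂ (F j)) l) = F j * (g * l) := by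
        simp only [LinearMap.mulLeft_apply]
        ring
      rw [h3]
      exact h2
    exact h1 hh

end NC
end MotMono
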