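import Mathlib

/-!
# NC-K1: the lemma of Farkas, strict integer form
-/

namespace MotMono
namespace NC

private theorem farkas_fin {T : Type*} [Fintype T] : ∀ (m : ℕ) (A : Fin m → T → ℚ) (b : T → ℚ),
    (∀ v : T → ℚ, (∀ j, A j ⬝ᵥ v ≤ 0) → b ⬝ᵥ v ≤ 0) →
    ∃ u : Fin m → ℚ, (∀ j, 0 ≤ u j) ∧ ∀ t, ∑ j, u j * A j t = b t := by
  intro m
  induction m with
  | zero =>
    intro A b h
    refine ⟨Fin.elim0, fun j => j.elim0, fun t => ?_⟩
    have h1 := h b (fun j => j.elim0)
    have h2 : b ⬝ᵥ b = ∑ t, b t ^ 2 := by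
      unfold dotProduct
      exact Finset.sum_congr rfl fun t _ => by ring
    have h3 : b t ^ 2 ≤ ∑ t, b t ^ 2 :=
      Finset.single_le_sum (f := fun t => b t ^ 2) (fun _ _ => sq_nonneg _) (Finset.mem_univ t)
    have h4 : b t ^ 2 = 0 := by
      have := sq_nonneg (b t)
      linarith
    rw [pow_eq_zero_iff (two_ne_zero)] at h4
    simp [h4]
  | succ m ih =>
    intro A b h
    by_cases hc : ∀ v : T → ℚ, (∀ j : Fin m, A j.succ ⬝ᵥ v ≤ 0) → b ⬝ᵥ v ≤ 0
    · obtain ⟨u, hu, hu'⟩ := ih (fun j => A j.succ) b hc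
      refine ⟨Fin.cons 0 u, fun j => ?_, fun t => ?_⟩
      · refine Fin.cases ?_ (fun j => ?_) j
        · simp
        · simpa using hu j
      · rw [Fin.sum_univ_succ]
        simpa using hu' t
    · push Not at hc
      obtain ⟨v1, hv1, hb1⟩ := hc
      have h0 : 0 < A 0 ⬝ᵥ v1 := by
        by_contra hcon
        push Not at hcon
        have := h v1 (fun j => Fin.cases hcon (fun j => hv1 j) j)
        linarith
      set v0 : T → ℚ := (A 0 ⬝ᵥ v1)⁻¹ • v1 with hv0
      have e0 : A 0 ⬝ᵥ v0 = 1 := by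
        rw [hv0, dotProduct_smul, smul_eq_mul, inv_mul_cancel₀ h0.ne']
      have ej : ∀ j : Fin m, A j.succ ⬝ᵥ v0 ≤ 0 := fun j => by
        rw [hv0, dotProduct_smul, smul_eq_mul]
        exact mul_nonpos_of_nonneg_of_nonpos (inv_pos.2 h0).le (hv1 j)
      have eb : 0 < b ⬝ᵥ v0 := by
        rw [hv0, dotProduct_smul, smul_eq_mul]
        exact mul_pos (inv_pos.2 h0) hb1
      obtain ⟨u, hu, hu'⟩ := ih (fun j => A j.succ - (A j.succ ⬝ᵥ v0) • A 0)
        (b - (b ⬝ᵥ v0) • A 0) (by
          intro v hv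
          have key := h (v - (A 0 ⬝ᵥ v) • v0) (fun j => by
            refine Fin.cases ?_ (fun j => ?_) j
            · rw [dotProduct_sub, dotProduct_smul, e0, smul_eq_mul, mul_one, sub_self]
            · have := hv j
              rw [sub_dotProduct, smul_dotProduct, smul_eq_mul] at this
              rw [dotProduct_sub, dotProduct_smul, smul_eq_mul]
              linarith)
          rw [dotProduct_sub, dotProduct_smul, smul_eq_mul] at key
          rw [sub_dotProduct, smul_dotProduct, smul_eq_mul]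
          linarith)
      refine ⟨Fin.cons (b ⬝ᵥ v0 - ∑ j, u j * (A j.succ ⬝ᵥ v0)) u, fun j => ?_, fun t => ?_⟩
      · refine Fin.cases ?_ (fun j => ?_) j
        · simp only [Fin.cons_zero]
          have : ∑ j, u j * (A j.succ ⬝ᵥ v0) ≤ 0 :=
            Finset.sum_nonpos fun j _ => mul_nonpos_of_nonneg_of_nonpos (hu j) (ej j)
          linarith
        · simpa using hu j
      · rw [Fin.sum_univ_succ]
        simp only [Fin.cons_zero, Fin.cons_succ]
        have h1 := hu' t
        simp only [Pi.sub_apply, Pi.smul_apply, smul_eq_mul] at h1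
        have h2 : ∑ j, u j * (A j.succ t - (A j.succ ⬝ᵥ v0) * A 0 t) =
            ∑ j, u j * A j.succ t - (∑ j, u j * (A j.succ ⬝ᵥ v0)) * A 0 t := by
          rw [Finset.sum_mul, ← Finset.sum_sub_distrib]
          exact Finset.sum_congr rfl fun j _ => by ring
        rw [h2] at h1
        linarith

/-- The lemma of Farkas over `ℚ`. -/
theorem farkas_rat {J T : Type*} [Fintype J] [Fintype T] (A : J → T → ℚ) (b : T → ℚ)
    (h : ∀ v : T → ℚ, (∀ j, ∑ t, A j t * v t ≤ 0) → ∑ t, b t * v t ≤ 0) :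
    ∃ u : J → ℚ, (∀ j, 0 ≤ u j) ∧ ∀ t, ∑ j, u j * A j t = b t := by
  let e := Fintype.equivFin J
  obtain ⟨u, hu, hu'⟩ := farkas_fin (Fintype.card J) (fun j => A (e.symm j)) b
    (fun v hv => h v fun j => by
      have := hv (e j)
      rw [Equiv.symm_apply_apply] at this
      exact this)
  refine ⟨fun j => u (e j), fun j => hu _, fun t => ?_⟩
  rw [← hu' t]
  exact Fintype.sum_equiv e _ _ fun j => by simp

/-- common denominator -/
theorem exists_den {ι : Type*} [Fintype ι] (x : ι → ℚ) :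
    ∃ (M : ℕ) (y : ι → ℤ), 0 < M ∧ ∀ i, (y i : ℚ) = M * x i := by
  classical
  have h : ∀ i, ∃ c : ℤ, (c : ℚ) = ((∏ j, (x j).den : ℕ) : ℚ) * x i := by
    intro i
    obtain ⟨d, hd⟩ := Finset.dvd_prod_of_mem (fun j => (x j).den) (Finset.mem_univ i)
    refine ⟨d * (x i).num, ?_⟩
    rw [hd]
    have h5 : x i * (x i).den = (x i).num := Rat.mul_den_eq_num (x i)
    push_cast
    rw [← h5]
    ring
  choose y hy using h
  exact ⟨_, y, Finset.prod_pos fun j _ => (x j).den_pos, hy⟩

private theorem farkas_strict_rat {σ ι κ η : Type*} [Fintype σ] [Fintype ι] [Fintype κ] [Fintype η]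
    (p : ι → σ → ℚ) (q : κ → σ → ℚ) (e : η → σ → ℚ) :
    (∃ u : σ → ℚ, (∀ a, 0 < ∑ i, u i * p a i) ∧ (∀ b, 0 ≤ ∑ i, u i * q b i) ∧
      ∀ c, ∑ i, u i * e c i = 0) ∨
    ∃ (α : ι → ℚ) (β : κ → ℚ) (γ : η → ℚ), (∀ a, 0 ≤ α a) ∧ (∀ b, 0 ≤ β b) ∧ (∃ a, α a ≠ 0) ∧
      ∀ i, ∑ a, α a * p a i + ∑ b, β b * q b i = ∑ c, γ c * e c i := by
  classical
  by_cases hx : ∃ (α : ι → ℚ) (β : κ → ℚ) (γ : η → ℚ), (∀ a, 0 ≤ α a) ∧ (∀ b, 0 ≤ β b) ∧
      (∃ a, α a ≠ 0) ∧ ∀ i, ∑ a, α a * p a i + ∑ b, β b * q b i = ∑ c, γ c * e c i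
  · exact Or.inr hx
  · left
    have h1 : ∀ a₀, ∃ u : σ → ℚ, (∀ a, 0 ≤ ∑ i, u i * p a i) ∧ (∀ b, 0 ≤ ∑ i, u i * q b i) ∧
        (∀ c, ∑ i, u i * e c i = 0) ∧ 0 < ∑ i, u i * p a₀ i := by
      intro a₀
      by_contra hcon
      push Not at hcon
      obtain ⟨u, hu, hu'⟩ := farkas_rat
        (Sum.elim (fun a i => -p a i) (Sum.elim (fun b i => -q b i)
          (Sum.elim (fun c i => e c i) (fun c i => -e c i))) :
          ι ⊕ (κ ⊕ (η ⊕ η)) → σ → ℚ) (p a₀) (by
          intro v hv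
          have hp : ∀ a, 0 ≤ ∑ i, v i * p a i := by
            intro a
            have := hv (Sum.inl a)
            simp only [Sum.elim_inl] at this
            have h2 : ∑ i, -p a i * v i = -∑ i, v i * p a i := by
              rw [← Finset.sum_neg_distrib]
              exact Finset.sum_congr rfl fun i _ => by ring
            linarith
          have hq : ∀ b, 0 ≤ ∑ i, v i * q b i := by
            intro b
            have := hv (Sum.inr (Sum.inl b))
            simp only [Sum.elim_inl, Sum.elim_inr] at this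
            have h2 : ∑ i, -q b i * v i = -∑ i, v i * q b i := by
              rw [← Finset.sum_neg_distrib]
              exact Finset.sum_congr rfl fun i _ => by ring
            linarith
          have he : ∀ c, ∑ i, v i * e c i = 0 := by
            intro c
            have h3 := hv (Sum.inr (Sum.inr (Sum.inl c)))
            have h4 := hv (Sum.inr (Sum.inr (Sum.inr c)))
            simp only [Sum.elim_inl, Sum.elim_inr] at h3 h4
            have h2 : ∑ i, -e c i * v i = -∑ i, v i * e c i := by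
              rw [← Finset.sum_neg_distrib]
              exact Finset.sum_congr rfl fun i _ => by ring
            have h5 : ∑ i, e c i * v i = ∑ i, v i * e c i :=
              Finset.sum_congr rfl fun i _ => by ring
            linarith
          have := hcon v hp hq he
          have h5 : ∑ i, p a₀ i * v i = ∑ i, v i * p a₀ i :=
            Finset.sum_congr rfl fun i _ => by ring
          linarith)
      apply hx
      refine ⟨fun a => u (Sum.inl a) + if a = a₀ then 1 else 0, fun b => u (Sum.inr (Sum.inl b)),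
        fun c => u (Sum.inr (Sum.inr (Sum.inl c))) - u (Sum.inr (Sum.inr (Sum.inr c))),
        fun a => ?_, fun b => hu _, ⟨a₀, ?_⟩, fun i => ?_⟩
      · have := hu (Sum.inl a)
        show 0 ≤ u (Sum.inl a) + if a = a₀ then (1 : ℚ) else 0
        split_ifs <;> linarith
      · have := hu (Sum.inl a₀)
        show (u (Sum.inl a₀) + if a₀ = a₀ then (1 : ℚ) else 0) ≠ 0
        rw [if_pos rfl]
        exact (by linarith : (0 : ℚ) < u (Sum.inl a₀) + 1).ne'
      · have := hu' i
        simp only [Fintype.sum_sum_type, Sum.elim_inl, Sum.elim_inr] at this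
        simp only [add_mul, sub_mul, Finset.sum_add_distrib, Finset.sum_sub_distrib, ite_mul,
          one_mul, zero_mul, Finset.sum_ite_eq', Finset.mem_univ, if_true]
        simp only [mul_neg, Finset.sum_neg_distrib] at this
        linarith
    choose u hu1 hu2 hu3 hu4 using h1
    have hsw : ∀ g : σ → ℚ, ∑ i, (∑ a₀, u a₀ i) * g i = ∑ a₀, ∑ i, u a₀ i * g i := by
      intro g
      rw [Finset.sum_comm]
      exact Finset.sum_congr rfl fun i _ => by rw [Finset.sum_mul]
    refine ⟨fun i => ∑ a₀, u a₀ i, fun a => ?_, fun b => ?_, fun c => ?_⟩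
    · rw [hsw]
      exact Finset.sum_pos' (fun a₀ _ => hu1 a₀ a) ⟨a, Finset.mem_univ a, hu4 a⟩
    · rw [hsw]
      exact Finset.sum_nonneg fun a₀ _ => hu2 a₀ b
    · rw [hsw]
      exact Finset.sum_eq_zero fun a₀ _ => hu3 a₀ c

/-- Farkas, strict integer form: `p` strict, `q` weak inequalities, `e` equations. -/
theorem farkas_int {σ ι κ η : Type*} [Fintype σ] [Fintype ι] [Fintype κ] [Fintype η]
    (p : ι → σ → ℤ) (q : κ → σ → ℤ) (e : η → σ → ℤ) :
    (∃ u : σ → ℤ, (∀ a, 0 < ∑ i, u i * p a i) ∧ (∀ b, 0 ≤ ∑ i, u i * q b i) ∧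
      ∀ c, ∑ i, u i * e c i = 0) ∨
    ∃ (α : ι → ℕ) (β : κ → ℕ) (γ : η → ℤ), (∃ a, α a ≠ 0) ∧
      ∀ i, ∑ a, (α a : ℤ) * p a i + ∑ b, (β b : ℤ) * q b i = ∑ c, γ c * e c i := by
  classical
  rcases farkas_strict_rat (fun a i => (p a i : ℚ)) (fun b i => (q b i : ℚ))
    (fun c i => (e c i : ℚ)) with ⟨u, h1, h2, h3⟩ | ⟨α, β, γ, hα, hβ, hne, h⟩
  · left
    obtain ⟨M, y, hM, hy⟩ := exists_den u
    have hM' : (0 : ℚ) < M := by exact_mod_cast hM
    have key : ∀ g : σ → ℤ, ((∑ i, y i * g i : ℤ) : ℚ) = M * ∑ i, u i * (g i : ℚ) := by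
      intro g
      push_cast
      rw [Finset.mul_sum]
      exact Finset.sum_congr rfl fun i _ => by rw [hy]; ring
    refine ⟨y, fun a => ?_, fun b => ?_, fun c => ?_⟩
    · have : (0 : ℚ) < ((∑ i, y i * p a i : ℤ) : ℚ) := by
        rw [key]
        exact mul_pos hM' (h1 a)
      exact_mod_cast this
    · have : (0 : ℚ) ≤ ((∑ i, y i * q b i : ℤ) : ℚ) := by
        rw [key]
        exact mul_nonneg hM'.le (h2 b)
      exact_mod_cast this
    · have : ((∑ i, y i * e c i : ℤ) : ℚ) = 0 := by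
        rw [key, h3 c, mul_zero]
      exact_mod_cast this
  · right
    obtain ⟨M, y, hM, hy⟩ := exists_den (Sum.elim α (Sum.elim β γ) : ι ⊕ (κ ⊕ η) → ℚ)
    have hM' : (0 : ℚ) < M := by exact_mod_cast hM
    have ha : ∀ a, (y (Sum.inl a) : ℚ) = M * α a := fun a => by simpa using hy (Sum.inl a)
    have hb : ∀ b, (y (Sum.inr (Sum.inl b)) : ℚ) = M * β b := fun b => by
      simpa using hy (Sum.inr (Sum.inl b))
    have hc : ∀ c, (y (Sum.inr (Sum.inr c)) : ℚ) = M * γ c := fun c => by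
      simpa using hy (Sum.inr (Sum.inr c))
    have ha0 : ∀ a, 0 ≤ y (Sum.inl a) := fun a => by
      have : (0 : ℚ) ≤ (y (Sum.inl a) : ℚ) := by
        rw [ha]
        exact mul_nonneg hM'.le (hα a)
      exact_mod_cast this
    have hb0 : ∀ b, 0 ≤ y (Sum.inr (Sum.inl b)) := fun b => by
      have : (0 : ℚ) ≤ (y (Sum.inr (Sum.inl b)) : ℚ) := by
        rw [hb]
        exact mul_nonneg hM'.le (hβ b)
      exact_mod_cast this
    refine ⟨fun a => (y (Sum.inl a)).toNat, fun b => (y (Sum.inr (Sum.inl b))).toNat,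
      fun c => y (Sum.inr (Sum.inr c)), ?_, fun i => ?_⟩
    · obtain ⟨a, ha1⟩ := hne
      refine ⟨a, fun h0 => ?_⟩
      have h5 : y (Sum.inl a) = 0 := by
        have := ha0 a
        have h00 : (y (Sum.inl a)).toNat = 0 := h0
        omega
      have h6 := ha a
      rw [h5] at h6
      rcases mul_eq_zero.1 h6.symm with h7 | h7
      · exact hM'.ne' h7
      · exact ha1 h7
    · have h5 := h i
      have h6 : ((∑ a, (((y (Sum.inl a)).toNat : ℕ) : ℤ) * p a i +
          ∑ b, (((y (Sum.inr (Sum.inl b))).toNat : ℕ) : ℤ) * q b i : ℤ) : ℚ) =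
          ((∑ c, y (Sum.inr (Sum.inr c)) * e c i : ℤ) : ℚ) := by
        have e1 : ∀ a, (((y (Sum.inl a)).toNat : ℕ) : ℤ) = y (Sum.inl a) := fun a =>
          Int.toNat_of_nonneg (ha0 a)
        have e2 : ∀ b, (((y (Sum.inr (Sum.inl b))).toNat : ℕ) : ℤ) = y (Sum.inr (Sum.inl b)) :=
          fun b => Int.toNat_of_nonneg (hb0 b)
        simp only [e1, e2]
        push_cast
        simp only [ha, hb, hc, mul_assoc, ← Finset.mul_sum]
        rw [← mul_add, h5]
      exact_mod_cast h6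

end NC
end MotMono
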