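import Pool.Agent.Lib.MP_4e5fcd_ag.NC.K8

/-!
# NC-K8d: the algebra of the slice has no derivations

PROOF.
* `der_zero`: let `z` be the point of `φ`, `δ l := D (mk (single l 1)) / φ (mk (single l 1))`: `δ (l + l') = δ l + δ l'`, so `δ l = ∑ l i * ξ i`, `ξ i := δ (Pi.single i 1)`. `D (mk (io N (ip f w e j))) = D 0 = 0` gives `∑_a coeff a (f j) * ∏ z i ^ a i * ∑ a i * ξ i = 0` (`ip_eq_sum`, `io_monomial`), that is `∑ i, ξ i * (z i * grad (ip f w e j) z i) = 0` for all `j` (`z i * grad F z i = ∑_a a i * coeff a F * ∏ z ^ a`, see the proof of `euler_rel` in `Fa.lean`). `D (mk (single u 1)) = D 1 = 0` gives `∑ u i * ξ i = 0`. The `r = N - 1` vectors `v j := (z i * grad (ip f w e j) z i)_i` are linearly independent (`hf` = nondegeneracy at `z`, `z i ≠ 0`; hypotheses of `Nondeg`: `hw`, `hF.ge`, a point of weight `e` exists because otherwise `hF.ext` with `t = 1`, `y = 0` and with `t = 0`... gives `1 = c e` and `0 = c w i`), so the space of `y` orthogonal to all `v j` has dimension `1`; it contains `w` (`euler_rel`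 with `y = w`, `t = e`, `eval z (ip ..) = 0`) and `ξ`: `ξ = c w`, and `0 = ∑ u i * ξ i = c ∑ u i w i = c`. (Or use `ext_of_zero` as in `Fa.lean`: it is the same argument.) So `δ = 0`, `D` vanishes on all `mk (single l c)`, which span `B`.
-/

open MvPolynomial

namespace MotMono
namespace NC

open WH

variable {N r : ℕ}

/-- the vectors orthogonal to the gradients are multiples of `w` -/
private theorem k8d_line {f : Fin r → MvPolynomial (Fin N) ℂ} (hr : r + 1 = N) (hf : Nondeg f)
    {w : Fin N → ℕ} {e : ℕ} (hw : ∀ i, 0 < w i) (hge : ∀ m ∈ Sup f, e ≤ wd w m)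
    (hex : ∃ m ∈ Sup f, wd w m = e) {z : Fin N → ℂ} (hz : z ∈ VT f w e)
    (y : Fin N → ℂ) (hy : ∀ j, ∑ i, y i * (z i * grad (ip f w e j) z i) = 0) :
    ∃ c : ℂ, ∀ i, y i = c * w i := by
  classical
  have hli := hf w e hw hge hex z hz.1 hz.2
  set A : Matrix (Fin r) (Fin N) ℂ := Matrix.of fun j i => z i * grad (ip f w e j) z i with hA
  have hrow : LinearIndependent ℂ A.row := by
    have h1 : A.row = (LinearMap.pi fun i => z i • LinearMap.proj i : (Fin N → ℂ) →ₗ[ℂ] (Fin N → ℂ)) ∘
        fun j => grad (ip f w e j) z := by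
      funext j i
      simp [hA, Matrix.row]
    rw [h1]
    refine hli.map' _ ?_
    rw [LinearMap.ker_eq_bot']
    intro v hv
    funext i
    have h2 := congrFun hv i
    simp only [LinearMap.pi_apply, LinearMap.smul_apply, LinearMap.proj_apply, smul_eq_mul,
      Pi.zero_apply, mul_eq_zero] at h2
    exact h2.resolve_left (hz.1 i)
  have hmem : ∀ y : Fin N → ℂ, (∀ j, ∑ i, y i * (z i * grad (ip f w e j) z i) = 0) →
      y ∈ LinearMap.ker A.mulVecLin := by
    intro y hy
    rw [LinearMap.mem_ker]
    funext j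
    have h1 := hy j
    rw [Matrix.mulVecLin_apply, Matrix.mulVec, dotProduct, Pi.zero_apply, ← h1]
    refine Finset.sum_congr rfl fun i _ => ?_
    rw [hA, Matrix.of_apply]
    ring
  have hrank : Module.finrank ℂ (LinearMap.ker A.mulVecLin) = 1 := by
    have h1 := LinearMap.finrank_range_add_finrank_ker A.mulVecLin
    have h2 : Module.finrank ℂ (LinearMap.range A.mulVecLin) = r := by
      have h3 := hrow.rank_matrix
      rw [Matrix.rank, Fintype.card_fin] at h3
      exact h3
    rw [h2, Module.finrank_fintype_fun_eq_card, Fintype.card_fin] at h1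
    omega
  have hwmem : (fun i => (w i : ℂ)) ∈ LinearMap.ker A.mulVecLin := by
    refine hmem _ fun j => ?_
    rw [euler_rel (ip f w e j) (fun i => (w i : ℂ)) (e : ℂ) (fun m hm => ?_) z, hz.2 j, mul_zero]
    rw [← (mem_support_ip hm).2]
    unfold wd
    push_cast
    rfl
  have hN : 0 < N := by omega
  have hwne : (⟨fun i => (w i : ℂ), hwmem⟩ : LinearMap.ker A.mulVecLin) ≠ 0 := by
    intro h
    have h1 := congrFun (congrArg Subtype.val h) ⟨0, hN⟩
    have h2 := hw ⟨0, hN⟩
    simp only [ZeroMemClass.coe_zero, Pi.zero_apply, Nat.cast_eq_zero] at h1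
    omega
  obtain ⟨c, hc⟩ := (finrank_eq_one_iff_of_nonzero' _ hwne).1 hrank ⟨y, hmem y hy⟩
  refine ⟨c, fun i => ?_⟩
  have h1 := congrFun (congrArg Subtype.val hc) i
  exact h1.symm

theorem der_zero {f : Fin r → MvPolynomial (Fin N) ℂ} (hr : r + 1 = N) (hf : Nondeg f)
    {w : Fin N → ℕ} {e : ℕ} (hF : Fac (Sup f) w e) (hw : ∀ i, 0 < w i) {u : Fin N → ℤ}
    (hu : ∑ i, u i * (w i : ℤ) = 1) (φ : (LR N ⧸ IB f w e u) →ₐ[ℂ] ℂ)
    (D : (LR N ⧸ IB f w e u) →ₗ[ℂ] ℂ) (hD : ∀ x y, D (x * y) = φ x * D y + φ y * D x) : D = 0 := by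
  classical
  obtain ⟨z, hz, hio, hs⟩ := VU_of_hom φ
  have hz0 : ∀ i, z i ≠ 0 := hz.1.1
  set q : LR N →+* (LR N ⧸ IB f w e u) := Ideal.Quotient.mk (IB f w e u) with hq
  have hD1 : D 1 = 0 := by
    have h1 := hD 1 1
    rw [mul_one, map_one φ, one_mul] at h1
    exact left_eq_add.1 h1
  have hchi : ∀ l : Fin N → ℤ, φ (q (AddMonoidAlgebra.single l 1)) = ∏ i, z i ^ l i := by
    intro l
    rw [hs, one_mul]
  have hchi0 : ∀ l : Fin N → ℤ, φ (q (AddMonoidAlgebra.single l 1)) ≠ 0 := by
    intro l
    rw [hchi]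
    exact Finset.prod_ne_zero_iff.2 fun i _ => zpow_ne_zero _ (hz0 i)
  have hmul : ∀ l l' : Fin N → ℤ, q (AddMonoidAlgebra.single (l + l') 1) =
      q (AddMonoidAlgebra.single l 1) * q (AddMonoidAlgebra.single l' 1) := by
    intro l l'
    rw [← map_mul, AddMonoidAlgebra.single_mul_single, one_mul]
  -- the logarithmic derivative
  have hadd : ∀ l l' : Fin N → ℤ,
      D (q (AddMonoidAlgebra.single (l + l') 1)) / φ (q (AddMonoidAlgebra.single (l + l') 1)) =
      D (q (AddMonoidAlgebra.single l 1)) / φ (q (AddMonoidAlgebra.single l 1)) +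
      D (q (AddMonoidAlgebra.single l' 1)) / φ (q (AddMonoidAlgebra.single l' 1)) := by
    intro l l'
    rw [hmul, hD, map_mul]
    have h1 := hchi0 l
    have h2 := hchi0 l'
    field_simp
    ring
  set δ : (Fin N → ℤ) →+ ℂ := AddMonoidHom.mk' (fun l =>
    D (q (AddMonoidAlgebra.single l 1)) / φ (q (AddMonoidAlgebra.single l 1))) hadd with hδ
  have hδ' : ∀ l, D (q (AddMonoidAlgebra.single l 1)) =
      φ (q (AddMonoidAlgebra.single l 1)) * δ l := by
    intro l
    show _ = _ * (D (q (AddMonoidAlgebra.single l 1)) / φ (q (AddMonoidAlgebra.single l 1)))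
    rw [mul_div_cancel₀ _ (hchi0 l)]
  set ξ : Fin N → ℂ := fun i => δ (Pi.single i 1) with hξ
  have hδsum : ∀ l : Fin N → ℤ, δ l = ∑ i, (l i : ℂ) * ξ i := by
    intro l
    have h1 : l = ∑ i, l i • (Pi.single i 1 : Fin N → ℤ) := by
      funext j
      rw [Finset.sum_apply, Finset.sum_eq_single j]
      · rw [Pi.smul_apply, Pi.single_eq_same, smul_eq_mul, mul_one]
      · intro i _ hi
        rw [Pi.smul_apply, Pi.single_eq_of_ne (Ne.symm hi), smul_zero]
      · intro h
        exact absurd (Finset.mem_univ j) h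
    conv_lhs => rw [h1]
    rw [map_sum]
    refine Finset.sum_congr rfl fun i _ => ?_
    rw [map_zsmul, zsmul_eq_mul]
  -- `D` on polynomials
  have hX : ∀ i, io N (X i) = AddMonoidAlgebra.single (Pi.single i 1) 1 := by
    intro i
    unfold io
    rw [aeval_X]
  have hDX : ∀ i, D (q (io N (X i))) = z i * ξ i := by
    intro i
    rw [hX, hδ', ← hX, hio, eval_X]
  have hDpoly : ∀ g : MvPolynomial (Fin N) ℂ,
      D (q (io N g)) = ∑ i, ξ i * (z i * grad g z i) := by
    intro g
    induction g using MvPolynomial.induction_on with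
    | C a =>
      have h1 : q (io N (C a)) = a • (1 : LR N ⧸ IB f w e u) := by
        have h2 : io N (C a) = algebraMap ℂ (LR N) a := (io N).commutes a
        rw [h2, Algebra.algebraMap_eq_smul_one]
        rfl
      rw [h1, map_smul, hD1, smul_zero]
      symm
      refine Finset.sum_eq_zero fun i _ => ?_
      have h3 : grad (C a : MvPolynomial (Fin N) ℂ) z i = 0 := by
        show eval z (pderiv i (C a)) = 0
        rw [pderiv_C, map_zero]
      rw [h3, mul_zero, mul_zero]
    | add p q' hp hq' =>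
      rw [map_add, map_add, map_add, hp, hq', ← Finset.sum_add_distrib]
      refine Finset.sum_congr rfl fun i _ => ?_
      have h3 : grad (p + q') z i = grad p z i + grad q' z i := by
        show eval z (pderiv i (p + q')) = _
        rw [map_add, map_add]
        rfl
      rw [h3]
      ring
    | mul_X p k hp =>
      rw [map_mul, map_mul, hD, hp, hio, hio, hDX, eval_X]
      have h3 : ∀ i, grad (p * X k) z i = grad p z i * z k + eval z p * (if i = k then 1 else 0) := by
        intro i
        show eval z (pderiv i (p * X k)) = _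
        rw [pderiv_mul, map_add, map_mul, map_mul, eval_X, pderiv_X]
        congr 2
        by_cases hik : i = k
        · subst hik
          rw [Pi.single_eq_same, if_pos rfl, map_one]
        · rw [if_neg hik, Pi.single_eq_of_ne (fun h => hik h.symm), map_zero]
      simp only [h3]
      have h4 : ∀ i, ξ i * (z i * (grad p z i * z k + eval z p * (if i = k then 1 else 0))) =
          z k * (ξ i * (z i * grad p z i)) + (if i = k then eval z p * (ξ i * z i) else 0) := by
        intro i
        split_ifs <;> ring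
      simp only [h4]
      rw [Finset.sum_add_distrib, ← Finset.mul_sum, Finset.sum_ite_eq' Finset.univ k,
        if_pos (Finset.mem_univ k)]
      ring
  -- a point of weight `e`
  have hex : ∃ m ∈ Sup f, wd w m = e := by
    by_contra hcon
    push Not at hcon
    obtain ⟨c, hc1, hc2⟩ := hF.ext 0 1 (fun i _ => rfl) fun m hm h => absurd h (hcon m hm)
    have hc0 : c ≠ 0 := by
      rintro rfl
      rw [zero_mul] at hc2
      exact one_ne_zero hc2
    have hN : 0 < N := by omega
    have h2 := hc1 ⟨0, hN⟩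
    rw [Pi.zero_apply] at h2
    have h3 : (w ⟨0, hN⟩ : ℚ) = 0 := (mul_eq_zero.1 h2.symm).resolve_left hc0
    have h4 : w ⟨0, hN⟩ = 0 := by exact_mod_cast h3
    have h5 := hw ⟨0, hN⟩
    omega
  obtain ⟨c, hc⟩ := k8d_line hr hf hw hF.ge hex hz.1 ξ (by
    intro j
    rw [← hDpoly]
    have hj : io N (ip f w e j) ∈ IB f w e u := Ideal.subset_span (Or.inl ⟨j, rfl⟩)
    rw [hq, Ideal.Quotient.eq_zero_iff_mem.2 hj, map_zero])
  have hδu : δ u = 0 := by
    have h1 : q (AddMonoidAlgebra.single u 1) = 1 := by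
      have hj : (AddMonoidAlgebra.single u 1 - 1 : LR N) ∈ IB f w e u :=
        Ideal.subset_span (Or.inr rfl)
      have h2 := Ideal.Quotient.eq_zero_iff_mem.2 hj
      rw [map_sub, map_one, sub_eq_zero] at h2
      exact h2
    have h2 := hδ' u
    rw [h1, hD1, map_one, one_mul] at h2
    exact h2.symm
  have hc0 : c = 0 := by
    rw [hδsum] at hδu
    have h1 : ∑ i, (u i : ℂ) * ξ i = c * ((∑ i, u i * (w i : ℤ) : ℤ) : ℂ) := by
      push_cast
      rw [Finset.mul_sum]
      refine Finset.sum_congr rfl fun i _ => ?_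
      rw [hc i]
      ring
    rw [h1, hu, Int.cast_one, mul_one] at hδu
    exact hδu
  have hδ0 : ∀ l, δ l = 0 := by
    intro l
    rw [hδsum]
    refine Finset.sum_eq_zero fun i _ => ?_
    rw [hc i, hc0, zero_mul, mul_zero]
  have hall : ∀ x : LR N, D (q x) = 0 := by
    intro x
    induction x using AddMonoidAlgebra.induction_linear with
    | zero => rw [map_zero, map_zero]
    | add x y hx hy => rw [map_add, map_add, hx, hy, add_zero]
    | single l a =>
      have h1 : (AddMonoidAlgebra.single l a : LR N) = a • AddMonoidAlgebra.single l 1 := by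
        rw [AddMonoidAlgebra.smul_single, smul_eq_mul, mul_one]
      have h2 : q (a • AddMonoidAlgebra.single l 1) = a • q (AddMonoidAlgebra.single l 1) := rfl
      rw [h1, h2, map_smul, hδ', hδ0, mul_zero, smul_zero]
  apply LinearMap.ext
  intro x
  obtain ⟨x, rfl⟩ := Ideal.Quotient.mk_surjective x
  exact hall x

end NC
end MotMono
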