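import Mathlib

/-!
# NC-K9: an algebra of finite type without derivations is finite and reduced

PROOF. `Ω := Ω[B⁄ℂ]` is a finite `B`-module (`B` is of finite type, hence `EssFiniteType`). If `Ω ≠ 0`, there is a maximal ideal `n` of `B` with `n Ω ≠ Ω` (Nakayama: e.g. `n` a maximal ideal in the support of `Ω`; or `Submodule.eq_bot_of_le_smul_of_le_jacobson_bot`-like after localising; or: `Ω` finite and nonzero has a simple quotient `B ⧸ n`). `B ⧸ n` is a field of finite type over `ℂ`, hence `= ℂ` (`MvPolynomial`/`Algebra.FiniteType` Nullstellensatz: finite over `ℂ`, `ℂ` algebraically closed), which gives `φ : B →ₐ[ℂ] ℂ` with kernel `n`, and a nonzero `B`-linear map `Ω → Ω ⧸ n Ω → B ⧸ n ≅ ℂ`; composed with `KaehlerDifferential.D ℂ B` it is a derivation `D` over `φ`; `D = 0` by `h`, but the `D b` generate `Ω`: contradiction.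
So `Ω = 0`, `B` is formally unramified over `ℂ` (`Algebra.FormallyUnramified`), hence `Module.Finite ℂ B` (`Algebra.FormallyUnramified.finite_of_free`) and `IsReduced B` (`Algebra.FormallyUnramified.isReduced_of_field`), see Mathlib/RingTheory/Unramified/Field.lean.
`B` is artinian, so it has finitely many maximal ideals and `φ ↦ ker φ` is injective (`φ b` is the `c` with `b - c ∈ ker φ`); or: `Finite (B →ₐ[ℂ] ℂ)` from the finite dimension (`Dedekind`: `AlgHom` are linearly independent; instance `AlgHom.fintype`-like, `Module.Finite.algHom`...). If `φ b = 0` for all `φ`, then `b` is in every maximal ideal (each is the kernel of some `φ`), so in the nilradical (artinian, or jacobson = nilradical for rings of finite type over a field), `b = 0`.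
-/

namespace MotMono
namespace NC

private theorem K9_point {B : Type*} [CommRing B] [Algebra ℂ B] [Algebra.FiniteType ℂ B]
    (I : Ideal B) (hI : I.IsMaximal) : ∃ ψ : (B ⧸ I) →ₐ[ℂ] ℂ, Function.Injective ψ := by
  let _ : Field (B ⧸ I) := Ideal.Quotient.field I
  have : Algebra.FiniteType ℂ (B ⧸ I) :=
    Algebra.FiniteType.of_surjective (Ideal.Quotient.mkₐ ℂ I) (Ideal.Quotient.mkₐ_surjective ℂ I)
  have : Module.Finite ℂ (B ⧸ I) := finite_of_finite_type_of_isJacobsonRing ℂ (B ⧸ I)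
  have hb : Function.Bijective (algebraMap ℂ (B ⧸ I)) :=
    IsAlgClosed.algebraMap_bijective_of_isIntegral
  refine ⟨(AlgEquiv.ofBijective (Algebra.ofId ℂ (B ⧸ I)) hb).symm.toAlgHom, ?_⟩
  exact (AlgEquiv.ofBijective (Algebra.ofId ℂ (B ⧸ I)) hb).symm.injective

theorem alg_lemma {B : Type*} [CommRing B] [Algebra ℂ B] [Algebra.FiniteType ℂ B]
    (h : ∀ (φ : B →ₐ[ℂ] ℂ) (D : B →ₗ[ℂ] ℂ), (∀ x y, D (x * y) = φ x * D y + φ y * D x) → D = 0) :
    Finite (B →ₐ[ℂ] ℂ) ∧ ∀ b : B, (∀ φ : B →ₐ[ℂ] ℂ, φ b = 0) → b = 0 := by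
  have hsub : Subsingleton (Ω[B⁄ℂ]) := by
    by_contra hns
    have hnt : Nontrivial (Ω[B⁄ℂ]) := not_subsingleton_iff_nontrivial.mp hns
    obtain ⟨N, hN, -⟩ := (eq_top_or_exists_le_coatom (⊥ : Submodule B (Ω[B⁄ℂ]))).resolve_left bot_ne_top
    have hsimp : IsSimpleModule B (Ω[B⁄ℂ] ⧸ N) := isSimpleModule_iff_isCoatom.mpr hN
    obtain ⟨I, hI, ⟨e⟩⟩ := isSimpleModule_iff_quot_maximal.mp hsimp
    obtain ⟨ψ, hψ⟩ := K9_point I hI
    let f : Ω[B⁄ℂ] →ₗ[B] (B ⧸ I) := e.toLinearMap.comp N.mkQ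
    have hf : Function.Surjective f := e.surjective.comp N.mkQ_surjective
    let D : B →ₗ[ℂ] ℂ := ψ.toLinearMap.comp
      ((f.restrictScalars ℂ).comp (KaehlerDifferential.D ℂ B : B →ₗ[ℂ] Ω[B⁄ℂ]))
    let φ : B →ₐ[ℂ] ℂ := ψ.comp (Ideal.Quotient.mkₐ ℂ I)
    have hD : ∀ x, D x = ψ (f (KaehlerDifferential.D ℂ B x)) := fun x => rfl
    have hφ : ∀ x, φ x = ψ (Ideal.Quotient.mk I x) := fun x => rfl
    have hleib : ∀ x y, D (x * y) = φ x * D y + φ y * D x := by
      intro x y
      rw [hD, hD, hD, hφ, hφ, Derivation.leibniz, map_add, map_smul, map_smul, map_add,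
        ← map_mul, ← map_mul, Algebra.smul_def, Algebra.smul_def]
      rfl
    have hD0 := h φ D hleib
    have hf0 : f = 0 := by
      have hker : (⊤ : Submodule B (Ω[B⁄ℂ])) ≤ LinearMap.ker f := by
        rw [← KaehlerDifferential.span_range_derivation, Submodule.span_le]
        rintro _ ⟨x, rfl⟩
        rw [SetLike.mem_coe, LinearMap.mem_ker]
        apply hψ
        rw [map_zero, ← hD, hD0]
        rfl
      exact LinearMap.ker_eq_top.mp (top_le_iff.mp hker)
    have : Nontrivial (B ⧸ I) := Ideal.Quotient.nontrivial_iff.mpr hI.ne_top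
    obtain ⟨x, hx⟩ := hf 1
    rw [hf0] at hx
    exact zero_ne_one hx
  have hunr : Algebra.FormallyUnramified ℂ B := ⟨hsub⟩
  have hfin : Module.Finite ℂ B := Algebra.FormallyUnramified.finite_of_free ℂ B
  have hred : IsReduced B := Algebra.FormallyUnramified.isReduced_of_field ℂ B
  refine ⟨inferInstance, fun b hb => ?_⟩
  have : IsJacobsonRing B := isJacobsonRing_of_finiteType (A := ℂ)
  have hbot : (⊥ : Ideal B).IsRadical := Ideal.isRadical_bot
  have hjac : (⊥ : Ideal B).jacobson = ⊥ := IsJacobsonRing.out' _ hbot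
  have hmem : b ∈ (⊥ : Ideal B).jacobson := by
    rw [Ideal.jacobson, Ideal.mem_sInf]
    rintro J ⟨-, hJ⟩
    obtain ⟨ψ, hψ⟩ := K9_point J hJ
    have := hb (ψ.comp (Ideal.Quotient.mkₐ ℂ J))
    have h2 : ψ (Ideal.Quotient.mk J b) = 0 := this
    rw [← map_zero ψ] at h2
    exact Ideal.Quotient.eq_zero_iff_mem.mp (hψ h2)
  rw [hjac] at hmem
  exact hmem

end NC
end MotMono
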