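import Pool.Agent.Lib.MP_4e5fcd_ag.NC.K7
import Pool.Agent.Lib.MP_4e5fcd_ag.NC.K8d
import Pool.Agent.Lib.MP_4e5fcd_ag.NC.K9

/-!
# NC-K10: the dimension of `L_k ⧸ U_k` is at most the number of points of the slice

PROOF. `B := LR N ⧸ IB f w e u` is of finite type (`finiteType_LR`, quotient); `alg_lemma` (K9) with `der_zero` (K8d): `Finite (B →ₐ[ℂ] ℂ)`, and an element killed by all `φ` is `0`. `z ↦ φ_z` (`hom_of_VU`) is injective (`φ (mk (io (X i))) = z i`), so `VU f w e u` is finite. Let `k ≥ k₂` (`ker_slice`, K7) and `ev : L_k → (VU → ℂ)`, `h ↦ (z ↦ eval z h)`. If `ev h = 0`, then `φ (mk (io h)) = 0` for all `φ` (`VU_of_hom`), so `mk (io h) = 0`, `io h ∈ IB`, `h ∈ U_k`. So `finrank L_k = finrank (range ev) + finrank (ker ev) ≤ ncard VU + finrank U_k` (`LinearMap.finrank_range_add_finrank_ker`, `finite_LK`).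
-/

open MvPolynomial

namespace MotMono
namespace NC

open WH

variable {N r : ℕ}

theorem dim_le {f : Fin r → MvPolynomial (Fin N) ℂ} (hr : r + 1 = N) (hf : Nondeg f)
    {w : Fin N → ℕ} {e : ℕ} (hF : Fac (Sup f) w e) (hw : ∀ i, 0 < w i) {u : Fin N → ℤ}
    (hu : ∑ i, u i * (w i : ℤ) = 1) :
    (VU f w e u).Finite ∧ ∃ k₂ : ℕ, ∀ k, k₂ ≤ k →
      Module.finrank ℂ (LK (SA (Sup f) w e) w e k) ≤
        Module.finrank ℂ (UK (ip f w e) Finset.univ (SA (Sup f) w e) w e k) + (VU f w e u).ncard := by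
  classical
  have hft : Algebra.FiniteType ℂ (LR N) := finiteType_LR N
  have hftB : Algebra.FiniteType ℂ (LR N ⧸ IB f w e u) :=
    Algebra.FiniteType.of_surjective (Ideal.Quotient.mkₐ ℂ (IB f w e u))
      (Ideal.Quotient.mkₐ_surjective ℂ _)
  obtain ⟨hfin, hzero⟩ := alg_lemma (B := LR N ⧸ IB f w e u)
    (fun φ D hD => der_zero hr hf hF hw hu φ D hD)
  have hVU : (VU f w e u).Finite := by
    choose φ hφ using fun z : VU f w e u => hom_of_VU z.2
    have hinj : Function.Injective φ := by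
      intro z z' h
      apply Subtype.ext
      funext i
      have h1 := hφ z (X i)
      have h2 := hφ z' (X i)
      rw [h, h2, eval_X, eval_X] at h1
      exact h1.symm
    have := Finite.of_injective φ hinj
    exact Set.toFinite _
  refine ⟨hVU, ?_⟩
  obtain ⟨k₂, hk₂⟩ := ker_slice hr hf hF hw hu
  refine ⟨k₂, fun k hk => ?_⟩
  have hfv : Finite (VU f w e u) := hVU
  have _ : Fintype (VU f w e u) := Fintype.ofFinite _
  have hLfin : Module.Finite ℂ (LK (SA (Sup f) w e) w e k) := finite_LK _ hw e k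
  have hUL : UK (ip f w e) Finset.univ (SA (Sup f) w e) w e k ≤ LK (SA (Sup f) w e) w e k :=
    UK_le (fun j _ => ip_mem_LK f w e j) k
  have hUfin : Module.Finite ℂ (UK (ip f w e) Finset.univ (SA (Sup f) w e) w e k) :=
    Submodule.finiteDimensional_of_le hUL
  let ev : LK (SA (Sup f) w e) w e k →ₗ[ℂ] (VU f w e u → ℂ) :=
    LinearMap.pi fun z => (MvPolynomial.aeval (R := ℂ) z.1).toLinearMap.comp
      (LK (SA (Sup f) w e) w e k).subtype
  have hev : ∀ (h : LK (SA (Sup f) w e) w e k) (z : VU f w e u), ev h z = eval z.1 h.1 := by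
    intro h z
    change MvPolynomial.aeval (R := ℂ) z.1 h.1 = _
    rw [MvPolynomial.aeval_eq_eval]
  have hker : (LinearMap.ker ev).map (LK (SA (Sup f) w e) w e k).subtype ≤
      UK (ip f w e) Finset.univ (SA (Sup f) w e) w e k := by
    rintro _ ⟨h, hh, rfl⟩
    refine hk₂ k hk h.1 h.2 ?_
    have h0 : ev h = 0 := hh
    rw [← Ideal.Quotient.eq_zero_iff_mem]
    refine hzero _ fun φ => ?_
    obtain ⟨z, hz, h1, -⟩ := VU_of_hom φ
    rw [h1, ← hev h ⟨z, hz⟩, h0]
    rfl
  have h1 := LinearMap.finrank_range_add_finrank_ker ev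
  have h2 : Module.finrank ℂ (LinearMap.range ev) ≤ (VU f w e u).ncard := by
    refine (Submodule.finrank_le _).trans_eq ?_
    rw [Module.finrank_fintype_fun_eq_card, ← Nat.card_eq_fintype_card]
    rfl
  have h3 : Module.finrank ℂ (LinearMap.ker ev) ≤
      Module.finrank ℂ (UK (ip f w e) Finset.univ (SA (Sup f) w e) w e k) := by
    rw [(Submodule.equivMapOfInjective (LK (SA (Sup f) w e) w e k).subtype
      (Submodule.injective_subtype _) (LinearMap.ker ev)).finrank_eq]
    exact Submodule.finrank_mono hker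
  omega

end NC
end MotMono
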