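import Mathlib

/-!
# NC-K11: Hilbert functions

`R` a commutative `ℂ`-algebra, `L k` finite-dimensional subspaces, `f j * L k ⊆ L (k + 1)`.

Proof (paper step K11). For `i ≤ r` let `H i (k + 1) = dim L (k + 1) - dim (∑_{j < i} f j * L k)` (as a
natural number; the second space is a subspace of the first), `H i 0 = dim L 0`. Claim: for `i < r` and all `k`:
`H i (k + 1) ≤ H i k + H (i + 1) (k + 1)`. For `k ≥ 1`: the map `x ↦ f i * x` from `L k` to
`(∑_{j ≤ i} f j * L k) / (∑_{j < i} f j * L k)` is surjective and kills `∑_{j < i} f j * L (k - 1)` (since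
`f i * f j * x = f j * (f i * x)`, `f i * x ∈ L k` for `x ∈ L (k - 1)`), so `dim (∑_{j ≤ i} f j * L k) - dim (∑_{j < i} f j * L k) ≤ H i k`.
(`k = 0`: the same without the kernel.)
In the form used: `dim (A ⊔ f i * L k) + dim (∑_{j < i} f j * L (k - 1)) ≤ dim A + dim L k`, `A = ∑_{j < i} f j * L k`:
`Submodule.finrank_add_inf_finrank`-like, the image of `mulLeft (f i)` on `L k` modulo `A`.
Hence, with `Σ H (K) = ∑ k ∈ range (K + 1), H k`: `H i K ≤ ∑ k ∈ range (K + 1), H (i + 1) k` (induction on `K`), and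
`H r k ≤ n0 + c0 [k ≤ k2]` (hypothesis; `c0` a bound for `dim L k`, `k ≤ k2 + 1`). Summing `r` times:
`∑_{k ≤ K} (k + i).choose i = (K + i + 1).choose (i + 1)` and `∑_{k ≤ K} c * (k + 1)^i ≤ c * (K + 1)^(i + 1)`; first step:
`∑_{k ≤ K} (n0 + c0 [k ≤ k2]) ≤ n0 * (K + 1) + c0 * (k2 + 1)`. So `H 0 K ≤ n0 * (K + r).choose r + c * (K + 1)^(r - 1)`.
-/

namespace MotMono
namespace NC

private theorem k11_nul {V : Type*} [AddCommGroup V] [Module ℂ V] (φ : V →ₗ[ℂ] V)
    (M : Submodule ℂ V) [FiniteDimensional ℂ M] :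
    Module.finrank ℂ (M.map φ) + Module.finrank ℂ (M ⊓ LinearMap.ker φ : Submodule ℂ V) =
      Module.finrank ℂ M := by
  have h := LinearMap.finrank_range_add_finrank_ker (φ.domRestrict M)
  rw [LinearMap.range_domRestrict] at h
  have h2 : Module.finrank ℂ (LinearMap.ker (φ.domRestrict M)) =
      Module.finrank ℂ (M ⊓ LinearMap.ker φ : Submodule ℂ V) := by
    rw [← Submodule.map_comap_subtype, Submodule.finrank_map_subtype_eq]
    rfl
  rw [h2] at h
  exact h

private theorem k11_dim {V : Type*} [AddCommGroup V] [Module ℂ V] (φ : V →ₗ[ℂ] V)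
    (A M N : Submodule ℂ V) [FiniteDimensional ℂ M] [FiniteDimensional ℂ A] (hNM : N ≤ M)
    (hN : N.map φ ≤ A) :
    Module.finrank ℂ (A ⊔ M.map φ : Submodule ℂ V) + Module.finrank ℂ N ≤
      Module.finrank ℂ A + Module.finrank ℂ M := by
  have : FiniteDimensional ℂ N := Submodule.finiteDimensional_of_le hNM
  have : FiniteDimensional ℂ (M.map φ) := inferInstance
  have h1 := Submodule.finrank_sup_add_finrank_inf_eq A (M.map φ)
  have h2 := k11_nul φ M
  have h3 := k11_nul φ N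
  have : FiniteDimensional ℂ (A ⊓ M.map φ : Submodule ℂ V) :=
    Submodule.finiteDimensional_of_le inf_le_left
  have : FiniteDimensional ℂ (M ⊓ LinearMap.ker φ : Submodule ℂ V) :=
    Submodule.finiteDimensional_of_le inf_le_left
  have h4 : Module.finrank ℂ (N.map φ) ≤ Module.finrank ℂ (A ⊓ M.map φ : Submodule ℂ V) :=
    Submodule.finrank_mono (le_inf hN (Submodule.map_mono hNM))
  have h5 : Module.finrank ℂ (N ⊓ LinearMap.ker φ : Submodule ℂ V) ≤
      Module.finrank ℂ (M ⊓ LinearMap.ker φ : Submodule ℂ V) :=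
    Submodule.finrank_mono (inf_le_inf_right _ hNM)
  omega

section
variable {R : Type*} [CommRing R] [Algebra ℂ R] {r : ℕ} (f : Fin r → R) (L : ℕ → Submodule ℂ R)

private noncomputable def k11_S (i : ℕ) : ℕ → Submodule ℂ R
  | 0 => ⊥
  | k + 1 => ⨆ j : Fin r, ⨆ _ : (j : ℕ) < i, (L k).map (LinearMap.mulLeft ℂ (f j))

private theorem k11_S_le (hL : ∀ k j, ∀ x ∈ L k, f j * x ∈ L (k + 1)) (i k : ℕ) :
    k11_S f L i k ≤ L k := by
  cases k with
  | zero => exact bot_le
  | succ k =>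
    refine iSup_le fun j => iSup_le fun _ => ?_
    rintro _ ⟨x, hx, rfl⟩
    exact hL k j x hx

private theorem k11_S_map (hL : ∀ k j, ∀ x ∈ L k, f j * x ∈ L (k + 1)) (i k : ℕ) (j0 : Fin r) :
    (k11_S f L i k).map (LinearMap.mulLeft ℂ (f j0)) ≤ k11_S f L i (k + 1) := by
  cases k with
  | zero =>
    show Submodule.map _ ⊥ ≤ _
    rw [Submodule.map_bot]
    exact bot_le
  | succ k =>
    show Submodule.map _ (⨆ j : Fin r, ⨆ _ : (j : ℕ) < i, (L k).map (LinearMap.mulLeft ℂ (f j))) ≤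
      ⨆ j : Fin r, ⨆ _ : (j : ℕ) < i, (L (k + 1)).map (LinearMap.mulLeft ℂ (f j))
    rw [Submodule.map_iSup]
    refine iSup_le fun j => ?_
    rw [Submodule.map_iSup]
    refine iSup_le fun hj => ?_
    refine le_trans ?_ (le_iSup_of_le j (le_iSup_of_le hj le_rfl))
    rintro _ ⟨_, ⟨x, hx, rfl⟩, rfl⟩
    refine ⟨f j0 * x, hL k j0 x hx, ?_⟩
    show f j * (f j0 * x) = f j0 * (f j * x)
    ring

private theorem k11_S_succ (i k : ℕ) (hi : i < r) :
    k11_S f L (i + 1) (k + 1) ≤ k11_S f L i (k + 1) ⊔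
      (L k).map (LinearMap.mulLeft ℂ (f ⟨i, hi⟩)) := by
  refine iSup_le fun j => iSup_le fun hj => ?_
  rcases Nat.lt_succ_iff_lt_or_eq.1 hj with h | h
  · refine le_sup_of_le_left ?_
    exact le_iSup_of_le j (le_iSup_of_le h le_rfl)
  · refine le_sup_of_le_right ?_
    have : j = ⟨i, hi⟩ := Fin.ext h
    rw [this]

private noncomputable def k11_H (i k : ℕ) : ℕ :=
  Module.finrank ℂ (L k) - Module.finrank ℂ (k11_S f L i k)

private theorem k11_step (hfin : ∀ k, FiniteDimensional ℂ (L k))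
    (hL : ∀ k j, ∀ x ∈ L k, f j * x ∈ L (k + 1)) (i k : ℕ) (hi : i < r) :
    k11_H f L i (k + 1) ≤ k11_H f L i k + k11_H f L (i + 1) (k + 1) := by
  unfold k11_H
  have := hfin k
  have := hfin (k + 1)
  have : FiniteDimensional ℂ (k11_S f L i (k + 1)) :=
    Submodule.finiteDimensional_of_le (k11_S_le f L hL i (k + 1))
  have h1 := k11_dim (LinearMap.mulLeft ℂ (f ⟨i, hi⟩)) (k11_S f L i (k + 1)) (L k)
    (k11_S f L i k) (k11_S_le f L hL i k) (k11_S_map f L hL i k ⟨i, hi⟩)
  have h2 : Module.finrank ℂ (k11_S f L (i + 1) (k + 1)) ≤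
      Module.finrank ℂ (k11_S f L i (k + 1) ⊔
        (L k).map (LinearMap.mulLeft ℂ (f ⟨i, hi⟩)) : Submodule ℂ R) :=
    Submodule.finrank_mono (k11_S_succ f L i k hi)
  have h3 : Module.finrank ℂ (k11_S f L i k) ≤ Module.finrank ℂ (L k) :=
    Submodule.finrank_mono (k11_S_le f L hL i k)
  have h4 : Module.finrank ℂ (k11_S f L (i + 1) (k + 1)) ≤ Module.finrank ℂ (L (k + 1)) :=
    Submodule.finrank_mono (k11_S_le f L hL (i + 1) (k + 1))
  have h5 : Module.finrank ℂ (k11_S f L i (k + 1)) ≤ Module.finrank ℂ (L (k + 1)) :=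
    Submodule.finrank_mono (k11_S_le f L hL i (k + 1))
  omega

private theorem k11_sum (hfin : ∀ k, FiniteDimensional ℂ (L k))
    (hL : ∀ k j, ∀ x ∈ L k, f j * x ∈ L (k + 1)) (i : ℕ) (hi : i < r) (K : ℕ) :
    k11_H f L i K ≤ ∑ k ∈ Finset.range (K + 1), k11_H f L (i + 1) k := by
  induction K with
  | zero =>
    rw [zero_add, Finset.sum_range_one]
    exact le_rfl
  | succ K ih =>
    rw [Finset.sum_range_succ]
    have := k11_step f L hfin hL i K hi
    omega

private theorem k11_last (n0 k2 : ℕ)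
    (h : ∀ k, k2 ≤ k → Module.finrank ℂ (L (k + 1)) ≤
      n0 + Module.finrank ℂ ((⨆ j, (L k).map (LinearMap.mulLeft ℂ (f j)) : Submodule ℂ R))) (k : ℕ) :
    k11_H f L r k ≤ n0 + if k ≤ k2 then
      (∑ l ∈ Finset.range (k2 + 1), Module.finrank ℂ (L l)) else 0 := by
  by_cases hk : k ≤ k2
  · rw [if_pos hk]
    have h1 : Module.finrank ℂ (L k) ≤ ∑ l ∈ Finset.range (k2 + 1), Module.finrank ℂ (L l) :=
      Finset.single_le_sum (f := fun l => Module.finrank ℂ (L l)) (fun _ _ => Nat.zero_le _)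
        (Finset.mem_range.2 (by omega))
    unfold k11_H
    omega
  · rw [if_neg hk]
    obtain ⟨l, rfl⟩ : ∃ l, k = l + 1 := ⟨k - 1, by omega⟩
    have h1 := h l (by omega)
    have h2 : k11_S f L r (l + 1) = ⨆ j, (L l).map (LinearMap.mulLeft ℂ (f j)) := by
      show (⨆ j : Fin r, ⨆ _ : (j : ℕ) < r, (L l).map (LinearMap.mulLeft ℂ (f j))) = _
      exact iSup_congr fun j => by rw [iSup_pos j.isLt]
    unfold k11_H
    rw [h2]
    omega

private theorem k11_hockey (m K : ℕ) :
    ∑ k ∈ Finset.range (K + 1), (k + m).choose m = (K + m + 1).choose (m + 1) := by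
  induction K with
  | zero => simp
  | succ K ih =>
    rw [Finset.sum_range_succ, ih]
    have e1 : K + 1 + m + 1 = (K + m + 1) + 1 := by ring
    have e2 : K + 1 + m = K + m + 1 := by ring
    rw [e1, e2, Nat.choose_succ_succ (K + m + 1) m]
    exact add_comm _ _

private theorem k11_main (hfin : ∀ k, FiniteDimensional ℂ (L k))
    (hL : ∀ k j, ∀ x ∈ L k, f j * x ∈ L (k + 1)) (n0 k2 : ℕ)
    (h : ∀ k, k2 ≤ k → Module.finrank ℂ (L (k + 1)) ≤
      n0 + Module.finrank ℂ ((⨆ j, (L k).map (LinearMap.mulLeft ℂ (f j)) : Submodule ℂ R)))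
    (m : ℕ) (hm : m + 1 ≤ r) :
    ∃ c : ℕ, ∀ K, k11_H f L (r - (m + 1)) K ≤
      n0 * (K + (m + 1)).choose (m + 1) + c * (K + 1) ^ m := by
  induction m with
  | zero =>
    refine ⟨(∑ l ∈ Finset.range (k2 + 1), Module.finrank ℂ (L l)) * (k2 + 1), fun K => ?_⟩
    set c0 := ∑ l ∈ Finset.range (k2 + 1), Module.finrank ℂ (L l) with hc0
    have h1 := k11_sum f L hfin hL (r - 1) (by omega) K
    rw [Nat.sub_add_cancel (by omega : 1 ≤ r)] at h1
    refine (h1.trans (Finset.sum_le_sum fun k _ => k11_last f L n0 k2 h k)).trans ?_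
    rw [← hc0, Finset.sum_add_distrib, Finset.sum_const, Finset.card_range, smul_eq_mul,
      ← Finset.sum_filter, Finset.sum_const, smul_eq_mul]
    have h2 : ((Finset.range (K + 1)).filter (fun k => k ≤ k2)).card ≤ k2 + 1 := by
      calc _ ≤ (Finset.range (k2 + 1)).card := Finset.card_le_card fun k hk => by
            rw [Finset.mem_filter] at hk
            exact Finset.mem_range.2 (by omega)
        _ = _ := Finset.card_range _
    have h3 := Nat.mul_le_mul_right c0 h2
    rw [zero_add, Nat.choose_one_right, pow_zero]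
    nlinarith
  | succ m ih =>
    obtain ⟨c, hc⟩ := ih (by omega)
    refine ⟨c, fun K => ?_⟩
    have h1 := k11_sum f L hfin hL (r - (m + 1 + 1)) (by omega) K
    have e1 : r - (m + 1 + 1) + 1 = r - (m + 1) := by omega
    rw [e1] at h1
    refine (h1.trans (Finset.sum_le_sum fun k _ => hc k)).trans ?_
    rw [Finset.sum_add_distrib, ← Finset.mul_sum, ← Finset.mul_sum, k11_hockey]
    have h2 : ∑ k ∈ Finset.range (K + 1), (k + 1) ^ m ≤ (K + 1) ^ (m + 1) := by
      have := Finset.sum_le_card_nsmul (Finset.range (K + 1)) (fun k => (k + 1) ^ m)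
        ((K + 1) ^ m) (fun k hk => Nat.pow_le_pow_left (by
          have := Finset.mem_range.1 hk
          omega) m)
      rw [Finset.card_range, smul_eq_mul] at this
      calc _ ≤ (K + 1) * (K + 1) ^ m := this
        _ = _ := by ring
    have h3 := Nat.mul_le_mul_left c h2
    have e2 : K + (m + 1) + 1 = K + (m + 1 + 1) := by ring
    rw [e2]
    exact Nat.add_le_add_left h3 _

end

/-- Upper bound for the Hilbert function by that of the quotient by `r` elements of degree one. -/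
theorem hilbert_le {R : Type*} [CommRing R] [Algebra ℂ R] {r : ℕ} (hr : 0 < r) (f : Fin r → R)
    (L : ℕ → Submodule ℂ R) (hfin : ∀ k, FiniteDimensional ℂ (L k))
    (hL : ∀ k j, ∀ x ∈ L k, f j * x ∈ L (k + 1)) (n0 k2 : ℕ)
    (h : ∀ k, k2 ≤ k → Module.finrank ℂ (L (k + 1)) ≤
      n0 + Module.finrank ℂ ((⨆ j, (L k).map (LinearMap.mulLeft ℂ (f j)) : Submodule ℂ R))) :
    ∃ c : ℕ, ∀ K, Module.finrank ℂ (L K) ≤ n0 * (K + r).choose r + c * (K + 1) ^ (r - 1) := by
  obtain ⟨c, hc⟩ := k11_main f L hfin hL n0 k2 h (r - 1) (by omega)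
  refine ⟨c, fun K => ?_⟩
  have h1 := hc K
  have e1 : r - 1 + 1 = r := Nat.sub_add_cancel hr
  rw [e1, Nat.sub_self] at h1
  have h2 : k11_H f L 0 K = Module.finrank ℂ (L K) := by
    have h3 : k11_S f L 0 K = ⊥ := by
      cases K with
      | zero => rfl
      | succ k =>
        show (⨆ j : Fin r, ⨆ _ : (j : ℕ) < 0, (L k).map (LinearMap.mulLeft ℂ (f j))) = ⊥
        simp
    unfold k11_H
    rw [h3, finrank_bot, Nat.sub_zero]
  rw [h2] at h1
  exact h1

end NC
end MotMono
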