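import Pool.Agent.Lib.MP_4e5fcd_ag.NC.Wd

/-!
# NC-K12: lattice points in the cone over a simplex

Proof (paper step K12). Let `k0` be at least `wd w ρ / e` for all `ρ ∈ G` (and `k0 ≥ 1`). For `ρ ∈ G`, `K ≥ k0` and `n : Fin N → ℕ` with
`∑ n l = K - wd w ρ / e` the point `b = ρ + ∑ n l • D l` has weight `K e` and lies in the rational cone over `D`, so `b ∈ P`.
Different `(ρ, n)` give different points (`hG'` for different `ρ`, linear independence for the same `ρ`). The number of the `n` is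
`(K - wd w ρ / e + r).choose r ≥ (K - k0 + r).choose r` (`Finset.Nat.card_piAntidiag` or `Sym.card_sym_eq_choose`/
`Finset.card_finsuppAntidiag`; `N = r + 1`).
`card_ge_extra`: if `m = ∑ c l • D l` with `c l₀ < 0`, the points `n₀ m + ∑_{l ≠ l₀} n l D l`, `n₀ ≥ 1`, `n₀ + ∑ n l = K` are also in `P`; their `l₀`-th coordinate in
the basis `D` is `n₀ c l₀ < 0`, so they are different from the first family (whose coordinates are `≥ 0`), and different from each other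
(`m, D l (l ≠ l₀)` are linearly independent as `c l₀ ≠ 0`): `(K - 1 + r).choose r` many.
-/

namespace MotMono
namespace NC

variable {N r : ℕ}

private theorem wd_add' (w : Fin N → ℕ) (a b : Fin N →₀ ℕ) : wd w (a + b) = wd w a + wd w b := by
  simp only [wd, Finsupp.add_apply, add_mul, Finset.sum_add_distrib]

private theorem wd_nsmul' (w : Fin N → ℕ) (n : ℕ) (a : Fin N →₀ ℕ) : wd w (n • a) = n * wd w a := by
  simp only [wd, Finsupp.smul_apply, smul_eq_mul, Finset.mul_sum, mul_assoc]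

private theorem wd_sum' (w : Fin N → ℕ) (s : Finset (Fin N)) (n : Fin N → ℕ) (D : Fin N → (Fin N →₀ ℕ)) :
    wd w (∑ l ∈ s, n l • D l) = ∑ l ∈ s, n l * wd w (D l) := by
  classical
  induction s using Finset.induction_on with
  | empty => simp [wd]
  | insert a s ha ih => rw [Finset.sum_insert ha, Finset.sum_insert ha, wd_add', wd_nsmul', ih]

private theorem coord_inj {D : Fin N → (Fin N →₀ ℕ)}
    (hi : LinearIndependent ℚ (fun l => fun i => ((D l i : ℕ) : ℚ))) {x y : Fin N → ℚ}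
    (h : ∀ i, ∑ l, x l * (D l i : ℚ) = ∑ l, y l * (D l i : ℚ)) : x = y := by
  have h1 := Fintype.linearIndependent_iff.1 hi (fun l => x l - y l) (by
    funext i
    simp only [Finset.sum_apply, Pi.smul_apply, smul_eq_mul, Pi.zero_apply, sub_mul,
      Finset.sum_sub_distrib]
    rw [h i, sub_self])
  funext l
  have := h1 l
  linarith

private theorem card_anti (hr : r + 1 = N) (n : ℕ) :
    ((Finset.univ : Finset (Fin N)).finsuppAntidiag n).card = (n + r).choose r := by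
  rw [Finset.card_finsuppAntidiag_nat_eq_choose, Finset.card_univ, Fintype.card_fin, ← hr,
    show r + 1 + n - 1 = n + r by omega, Nat.choose_symm_add]

private theorem first_family (hr : r + 1 = N) (w : Fin N → ℕ) {e : ℕ} (he : 0 < e)
    (D : Fin N → (Fin N →₀ ℕ)) (hD : ∀ l, wd w (D l) = e)
    (hi : LinearIndependent ℚ (fun l => fun i => ((D l i : ℕ) : ℚ)))
    (G : Finset (Fin N →₀ ℕ))
    (hG : ∀ ρ ∈ G, e ∣ wd w ρ ∧ ∃ c : Fin N → ℚ, (∀ l, 0 ≤ c l) ∧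
      ∀ i, (ρ i : ℚ) = ∑ l, c l * (D l i : ℚ))
    (hG' : ∀ ρ ∈ G, ∀ ρ' ∈ G, ρ ≠ ρ' → ∀ c : Fin N → ℤ,
      ¬ ∀ i, (ρ i : ℤ) = ρ' i + ∑ l, c l * (D l i : ℤ)) :
    ∃ k0 : ℕ, 1 ≤ k0 ∧ ∀ K, k0 ≤ K → ∃ T : Finset (Fin N →₀ ℕ),
      G.card * (K - k0 + r).choose r ≤ T.card ∧
      ∀ b ∈ T, wd w b = K * e ∧ ∃ c : Fin N → ℚ, (∀ l, 0 ≤ c l) ∧
        ∀ i, (b i : ℚ) = ∑ l, c l * (D l i : ℚ) := by
  classical
  refine ⟨1 + ∑ ρ ∈ G, wd w ρ / e, by omega, ?_⟩
  intro K hK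
  have hle : ∀ ρ ∈ G, wd w ρ / e ≤ ∑ ρ ∈ G, wd w ρ / e := fun ρ hρ =>
    Finset.single_le_sum (f := fun ρ => wd w ρ / e) (fun _ _ => Nat.zero_le _) hρ
  let Φ : (Σ _ : Fin N →₀ ℕ, Fin N →₀ ℕ) → (Fin N →₀ ℕ) := fun x => x.1 + ∑ l, x.2 l • D l
  let S : Finset (Σ _ : Fin N →₀ ℕ, Fin N →₀ ℕ) :=
    G.sigma fun ρ => (Finset.univ : Finset (Fin N)).finsuppAntidiag (K - wd w ρ / e)
  have hval : ∀ (ρ n : Fin N →₀ ℕ) (i : Fin N), (ρ + ∑ l, n l • D l) i = ρ i + ∑ l, n l * D l i := by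
    intro ρ n i
    simp [Finsupp.add_apply, Finsupp.finsetSum_apply]
  refine ⟨S.image Φ, ?_, ?_⟩
  · rw [Finset.card_image_of_injOn]
    · rw [Finset.card_sigma, ← smul_eq_mul]
      refine Finset.card_nsmul_le_sum _ _ _ fun ρ hρ => ?_
      rw [card_anti hr]
      refine Nat.choose_le_choose r ?_
      have := hle ρ hρ
      omega
    · rintro ⟨ρ, n⟩ hx ⟨ρ', n'⟩ hy h
      have hx' := (Finset.mem_sigma.1 (Finset.mem_coe.1 hx)).1
      have hy' := (Finset.mem_sigma.1 (Finset.mem_coe.1 hy)).1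
      have h1 : ∀ i, ρ i + ∑ l, n l * D l i = ρ' i + ∑ l, n' l * D l i := by
        intro i
        rw [← hval, ← hval]
        exact DFunLike.congr_fun h i
      have hρ : ρ = ρ' := by
        by_contra hne
        refine hG' ρ hx' ρ' hy' hne (fun l => (n' l : ℤ) - n l) fun i => ?_
        have h2 : ((ρ i : ℤ)) + ∑ l, (n l : ℤ) * (D l i : ℤ) = ρ' i + ∑ l, (n' l : ℤ) * (D l i : ℤ) := by
          exact_mod_cast h1 i
        simp only [sub_mul, Finset.sum_sub_distrib]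
        linarith
      subst hρ
      have h3 : (fun l => ((n l : ℕ) : ℚ)) = fun l => ((n' l : ℕ) : ℚ) := by
        refine coord_inj hi fun i => ?_
        have h2 := h1 i
        have h4 : ∑ l, n l * D l i = ∑ l, n' l * D l i := by omega
        exact_mod_cast h4
      have h5 : n = n' := by
        ext l
        exact_mod_cast congrFun h3 l
      rw [h5]
  · intro b hb
    obtain ⟨⟨ρ, n⟩, hx, rfl⟩ := Finset.mem_image.1 hb
    obtain ⟨hρ, hn⟩ := Finset.mem_sigma.1 hx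
    obtain ⟨hn1, -⟩ := Finset.mem_finsuppAntidiag.1 hn
    obtain ⟨⟨q, hq⟩, c, hc, hc'⟩ := hG ρ hρ
    simp only at hρ hn1 hc'
    refine ⟨?_, fun l => c l + n l, fun l => ?_, fun i => ?_⟩
    · change wd w (ρ + ∑ l, n l • D l) = K * e
      rw [wd_add', wd_sum']
      simp only [hD]
      rw [← Finset.sum_mul, hn1]
      have h1 := hle ρ hρ
      rw [hq, Nat.mul_div_cancel_left _ he] at h1 ⊢
      have h2 : q ≤ K := by omega
      rw [mul_comm e q, ← add_mul, Nat.add_sub_cancel' h2]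
    · have := hc l
      positivity
    · change (((ρ + ∑ l, n l • D l) i : ℕ) : ℚ) = _
      rw [hval]
      push_cast
      rw [hc' i, ← Finset.sum_add_distrib]
      refine Finset.sum_congr rfl fun l _ => ?_
      ring

private theorem second_family (hr : r + 1 = N) (w : Fin N → ℕ) {e : ℕ}
    (D : Fin N → (Fin N →₀ ℕ)) (hD : ∀ l, wd w (D l) = e)
    (hi : LinearIndependent ℚ (fun l => fun i => ((D l i : ℕ) : ℚ)))
    (m : Fin N →₀ ℕ) (hm : wd w m = e) (cm : Fin N → ℚ) (l₀ : Fin N) (hneg : cm l₀ < 0)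
    (hcm : ∀ i, (m i : ℚ) = ∑ l, cm l * (D l i : ℚ)) (K : ℕ) (hK : 1 ≤ K) :
    ∃ T : Finset (Fin N →₀ ℕ), T.card = (K - 1 + r).choose r ∧
      ∀ b ∈ T, wd w b = K * e ∧ (∃ (c : Fin N → ℚ) (c0 : ℚ), 0 ≤ c0 ∧ (∀ l, 0 ≤ c l) ∧
        ∀ i, (b i : ℚ) = c0 * (m i : ℚ) + ∑ l, c l * (D l i : ℚ)) ∧
        ∃ x : Fin N → ℚ, x l₀ < 0 ∧ ∀ i, (b i : ℚ) = ∑ l, x l * (D l i : ℚ) := by
  classical
  let g : (Fin N →₀ ℕ) → Fin N → ℕ := fun n l => if l = l₀ then 0 else n l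
  let Φ : (Fin N →₀ ℕ) → (Fin N →₀ ℕ) := fun n => (n l₀ + 1) • m + ∑ l, g n l • D l
  let x : (Fin N →₀ ℕ) → Fin N → ℚ := fun n l => ((n l₀ : ℚ) + 1) * cm l + g n l
  have hval : ∀ (n : Fin N →₀ ℕ) (i : Fin N), ((Φ n i : ℕ) : ℚ) =
      ((n l₀ : ℚ) + 1) * m i + ∑ l, (g n l : ℚ) * (D l i : ℚ) := by
    intro n i
    have h : Φ n i = (n l₀ + 1) * m i + ∑ l, g n l * D l i := by
      simp [Φ, Finsupp.add_apply, Finsupp.finsetSum_apply]
    rw [h]
    push_cast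
    ring
  have hx : ∀ (n : Fin N →₀ ℕ) (i : Fin N), ((Φ n i : ℕ) : ℚ) = ∑ l, x n l * (D l i : ℚ) := by
    intro n i
    rw [hval, hcm i, Finset.mul_sum, ← Finset.sum_add_distrib]
    refine Finset.sum_congr rfl fun l _ => ?_
    simp only [x]
    ring
  refine ⟨((Finset.univ : Finset (Fin N)).finsuppAntidiag (K - 1)).image Φ, ?_, ?_⟩
  · rw [Finset.card_image_of_injOn, card_anti hr]
    intro n _ n' _ h
    have h1 : x n = x n' := by
      refine coord_inj hi fun i => ?_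
      rw [← hx, ← hx]
      exact congrArg (fun t : Fin N →₀ ℕ => ((t i : ℕ) : ℚ)) h
    have h2 : (n l₀ : ℚ) = n' l₀ := by
      have h3 := congrFun h1 l₀
      simp only [x, g, if_true, Nat.cast_zero, add_zero] at h3
      have h4 := mul_right_cancel₀ hneg.ne h3
      linarith
    ext l
    by_cases hl : l = l₀
    · rw [hl]
      exact_mod_cast h2
    · have h3 := congrFun h1 l
      simp only [x, g, if_neg hl] at h3
      rw [h2] at h3
      have h4 : (n l : ℚ) = n' l := by linarith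
      exact_mod_cast h4
  · intro b hb
    obtain ⟨n, hn, rfl⟩ := Finset.mem_image.1 hb
    obtain ⟨hn1, -⟩ := Finset.mem_finsuppAntidiag.1 hn
    refine ⟨?_, ⟨fun l => g n l, (n l₀ : ℚ) + 1, by positivity, fun l => by positivity, fun i => ?_⟩,
      x n, ?_, fun i => hx n i⟩
    · simp only [Φ]
      rw [wd_add', wd_sum', wd_nsmul', hm]
      simp only [hD]
      rw [← Finset.sum_mul, ← add_mul]
      congr 1
      have h1 : ∑ l, n l = n l₀ + ∑ l, g n l := by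
        rw [← Finset.add_sum_erase _ _ (Finset.mem_univ l₀),
          ← Finset.add_sum_erase (f := g n) _ (Finset.mem_univ l₀)]
        simp only [g, if_true, zero_add]
        congr 1
        refine Finset.sum_congr rfl fun l hl => ?_
        rw [if_neg (Finset.ne_of_mem_erase hl)]
      have h2 : ∑ l, n l = K - 1 := hn1
      omega
    · rw [hval]
    · simp only [x, g, if_true, Nat.cast_zero, add_zero]
      exact mul_neg_of_pos_of_neg (by positivity) hneg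

theorem card_ge (hr : r + 1 = N) (w : Fin N → ℕ) {e : ℕ} (he : 0 < e)
    (D : Fin N → (Fin N →₀ ℕ)) (hD : ∀ l, wd w (D l) = e)
    (hi : LinearIndependent ℚ (fun l => fun i => ((D l i : ℕ) : ℚ)))
    (G : Finset (Fin N →₀ ℕ))
    (hG : ∀ ρ ∈ G, e ∣ wd w ρ ∧ ∃ c : Fin N → ℚ, (∀ l, 0 ≤ c l) ∧
      ∀ i, (ρ i : ℚ) = ∑ l, c l * (D l i : ℚ))
    (hG' : ∀ ρ ∈ G, ∀ ρ' ∈ G, ρ ≠ ρ' → ∀ c : Fin N → ℤ,
      ¬ ∀ i, (ρ i : ℤ) = ρ' i + ∑ l, c l * (D l i : ℤ)) :
    ∃ k0 : ℕ, ∀ K, k0 ≤ K → ∀ P : Finset (Fin N →₀ ℕ),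
      (∀ b : Fin N →₀ ℕ, wd w b = K * e → (∃ c : Fin N → ℚ, (∀ l, 0 ≤ c l) ∧
        ∀ i, (b i : ℚ) = ∑ l, c l * (D l i : ℚ)) → b ∈ P) →
      G.card * (K - k0 + r).choose r ≤ P.card := by
  classical
  obtain ⟨k0, -, h⟩ := first_family hr w he D hD hi G hG hG'
  refine ⟨k0, fun K hK P hP => ?_⟩
  obtain ⟨T, hT, hT'⟩ := h K hK
  refine hT.trans (Finset.card_le_card fun b hb => ?_)
  exact hP b (hT' b hb).1 (hT' b hb).2

theorem card_ge_extra (hr : r + 1 = N) (w : Fin N → ℕ) {e : ℕ} (he : 0 < e)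
    (D : Fin N → (Fin N →₀ ℕ)) (hD : ∀ l, wd w (D l) = e)
    (hi : LinearIndependent ℚ (fun l => fun i => ((D l i : ℕ) : ℚ)))
    (G : Finset (Fin N →₀ ℕ))
    (hG : ∀ ρ ∈ G, e ∣ wd w ρ ∧ ∃ c : Fin N → ℚ, (∀ l, 0 ≤ c l) ∧
      ∀ i, (ρ i : ℚ) = ∑ l, c l * (D l i : ℚ))
    (hG' : ∀ ρ ∈ G, ∀ ρ' ∈ G, ρ ≠ ρ' → ∀ c : Fin N → ℤ,
      ¬ ∀ i, (ρ i : ℤ) = ρ' i + ∑ l, c l * (D l i : ℤ))
    (m : Fin N →₀ ℕ) (hm : wd w m = e) (cm : Fin N → ℚ) (hneg : ∃ l, cm l < 0)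
    (hcm : ∀ i, (m i : ℚ) = ∑ l, cm l * (D l i : ℚ)) :
    ∃ k0 : ℕ, ∀ K, k0 ≤ K → ∀ P : Finset (Fin N →₀ ℕ),
      (∀ b : Fin N →₀ ℕ, wd w b = K * e → (∃ (c : Fin N → ℚ) (c0 : ℚ), 0 ≤ c0 ∧ (∀ l, 0 ≤ c l) ∧
        ∀ i, (b i : ℚ) = c0 * (m i : ℚ) + ∑ l, c l * (D l i : ℚ)) → b ∈ P) →
      G.card * (K - k0 + r).choose r + (K - 1 + r).choose r ≤ P.card := by
  classical
  obtain ⟨k0, hk0, h⟩ := first_family hr w he D hD hi G hG hG'
  obtain ⟨l₀, hl₀⟩ := hneg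
  refine ⟨k0, fun K hK P hP => ?_⟩
  obtain ⟨T, hT, hT'⟩ := h K hK
  obtain ⟨U, hU, hU'⟩ := second_family hr w D hD hi m hm cm l₀ hl₀ hcm K (by omega)
  have hdis : Disjoint T U := by
    rw [Finset.disjoint_left]
    intro b hb hb'
    obtain ⟨-, c, hc, hc'⟩ := hT' b hb
    obtain ⟨-, -, x, hx, hx'⟩ := hU' b hb'
    have h1 : c = x := coord_inj hi fun i => by rw [← hc' i, ← hx' i]
    have h2 := hc l₀
    rw [h1] at h2
    linarith
  rw [← hU]
  calc G.card * (K - k0 + r).choose r + U.card ≤ T.card + U.card := Nat.add_le_add_right hT _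
    _ = (T ∪ U).card := (Finset.card_union_of_disjoint hdis).symm
    _ ≤ P.card := Finset.card_le_card fun b hb => by
      rcases Finset.mem_union.1 hb with hb | hb
      · obtain ⟨h1, c, hc, hc'⟩ := hT' b hb
        exact hP b h1 ⟨c, 0, le_rfl, hc, fun i => by rw [zero_mul, zero_add]; exact hc' i⟩
      · exact hP b (hU' b hb).1 (hU' b hb).2.1

end NC
end MotMono
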