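import Mathlib

/-!
# NC-K13: comparison

Proof. Multiply by `r!` and use `K ^ r ≤ (K + r).descFactorial ..`: `r! * (K + r).choose r ≤ (K + r) ^ r`, `r! * (K - k0 + r).choose r ≥ (K - k0) ^ r`,
`r! * (K - 1 + r).choose r ≥ (K - 1) ^ r`. If `a + b ≥ n0 + 1` then `(n0 + 1) (K - k0') ^ r ≤ n0 (K + r) ^ r + r! c (K + 1) ^ (r - 1)` for all large `K`, `k0' = max k0 1`;
`(K + r) ^ r - (K - k0') ^ r ≤ (r + k0') r (K + r) ^ (r - 1)` (`mean value`/`pow_sub_pow`), so `(K - k0') ^ r ≤ C (K + r) ^ (r - 1)` for all large `K`: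
false for large `K` (e.g. divide by `K ^ r` and let `K → ∞`, `Filter.Tendsto`).
-/

namespace MotMono
namespace NC

open Filter Topology

/-- `(K + j + r).choose r / K ^ r → 1 / r!` in the form needed. -/
private theorem choose_le (n r : ℕ) : r.factorial * (n + r).choose r ≤ (n + r) ^ r := by
  rw [← Nat.descFactorial_eq_factorial_mul_choose]
  exact Nat.descFactorial_le_pow _ _

private theorem le_choose (n r : ℕ) : (n + 1) ^ r ≤ r.factorial * (n + r).choose r := by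
  rw [← Nat.descFactorial_eq_factorial_mul_choose]
  have := Nat.pow_sub_le_descFactorial (n + r) r
  have h : n + r + 1 - r = n + 1 := by omega
  rwa [h] at this

theorem compare_le {r : ℕ} (hr : 0 < r) (a b n0 c k0 : ℕ)
    (h : ∀ K, k0 ≤ K → a * (K - k0 + r).choose r + b * (K - 1 + r).choose r ≤
      n0 * (K + r).choose r + c * (K + 1) ^ (r - 1)) :
    a + b ≤ n0 := by
  by_contra hcon
  push Not at hcon
  set k1 := k0 + 1 with hk1
  -- for all `K ≥ k1`: `(n0 + 1) (K - k1) ^ r ≤ n0 (K + r) ^ r + r! c (K + 1) ^ (r - 1)`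
  have h1 : ∀ K, k1 ≤ K → (n0 + 1) * (K - k1) ^ r ≤
      n0 * (K + r) ^ r + r.factorial * c * (K + 1) ^ (r - 1) := by
    intro K hK
    have h2 := h K (by omega)
    have h3 : (K - k1) ^ r ≤ r.factorial * (K - k0 + r).choose r :=
      le_trans (Nat.pow_le_pow_left (by omega) r) (le_choose _ _)
    have h4 : (K - k1) ^ r ≤ r.factorial * (K - 1 + r).choose r :=
      le_trans (Nat.pow_le_pow_left (by omega) r) (le_choose _ _)
    have h5 := choose_le K r
    calc (n0 + 1) * (K - k1) ^ r ≤ (a + b) * (K - k1) ^ r := Nat.mul_le_mul_right _ hcon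
      _ = a * (K - k1) ^ r + b * (K - k1) ^ r := by ring
      _ ≤ a * (r.factorial * (K - k0 + r).choose r) + b * (r.factorial * (K - 1 + r).choose r) :=
          add_le_add (Nat.mul_le_mul_left _ h3) (Nat.mul_le_mul_left _ h4)
      _ = r.factorial * (a * (K - k0 + r).choose r + b * (K - 1 + r).choose r) := by ring
      _ ≤ r.factorial * (n0 * (K + r).choose r + c * (K + 1) ^ (r - 1)) :=
          Nat.mul_le_mul_left _ h2
      _ = n0 * (r.factorial * (K + r).choose r) + r.factorial * c * (K + 1) ^ (r - 1) := by ring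
      _ ≤ n0 * (K + r) ^ r + r.factorial * c * (K + 1) ^ (r - 1) :=
          Nat.add_le_add_right (Nat.mul_le_mul_left _ h5) _
  -- divide by `K ^ r`
  have h2 : ∀ᶠ K : ℕ in atTop, ((n0 : ℝ) + 1) * (((K : ℝ) - k1) / K) ^ r ≤
      n0 * (((K : ℝ) + r) / K) ^ r +
        (r.factorial * c : ℝ) * ((((K : ℝ) + 1) / K) ^ (r - 1) * ((K : ℝ))⁻¹) := by
    filter_upwards [eventually_ge_atTop (k1 + 1)] with K hK
    have hK0 : (0 : ℝ) < K := by exact_mod_cast (by omega : 0 < K)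
    have h3 := h1 K (by omega)
    have h4 : ((n0 : ℝ) + 1) * ((K : ℝ) - k1) ^ r ≤
        n0 * ((K : ℝ) + r) ^ r + r.factorial * c * ((K : ℝ) + 1) ^ (r - 1) := by
      have h5 : (((n0 + 1) * (K - k1) ^ r : ℕ) : ℝ) ≤
          ((n0 * (K + r) ^ r + r.factorial * c * (K + 1) ^ (r - 1) : ℕ) : ℝ) := by exact_mod_cast h3
      push_cast [Nat.cast_sub (by omega : k1 ≤ K)] at h5
      exact h5
    have h6 : ((K : ℝ) + 1) ^ (r - 1) / (K : ℝ) ^ r =
        (((K : ℝ) + 1) / K) ^ (r - 1) * ((K : ℝ))⁻¹ := by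
      obtain ⟨s, rfl⟩ : ∃ s, r = s + 1 := ⟨r - 1, by omega⟩
      rw [Nat.add_sub_cancel, div_pow, pow_succ]
      field_simp
    have h7 := div_le_div_of_nonneg_right h4 (pow_pos hK0 r).le
    calc ((n0 : ℝ) + 1) * (((K : ℝ) - k1) / K) ^ r
        = ((n0 : ℝ) + 1) * ((K : ℝ) - k1) ^ r / (K : ℝ) ^ r := by rw [div_pow]; ring
      _ ≤ (n0 * ((K : ℝ) + r) ^ r + r.factorial * c * ((K : ℝ) + 1) ^ (r - 1)) / (K : ℝ) ^ r := h7
      _ = n0 * (((K : ℝ) + r) / K) ^ r +
          (r.factorial * c : ℝ) * (((K : ℝ) + 1) ^ (r - 1) / (K : ℝ) ^ r) := by rw [div_pow]; ring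
      _ = _ := by rw [h6]
  have hinv : Tendsto (fun K : ℕ => ((K : ℝ))⁻¹) atTop (𝓝 0) := tendsto_inv_atTop_nhds_zero_nat
  have key : ∀ s : ℝ, Tendsto (fun K : ℕ => ((K : ℝ) + s) / K) atTop (𝓝 1) := by
    intro s
    have h3 : Tendsto (fun K : ℕ => 1 + s * ((K : ℝ))⁻¹) atTop (𝓝 (1 + s * 0)) :=
      tendsto_const_nhds.add (hinv.const_mul s)
    rw [mul_zero, add_zero] at h3
    refine h3.congr' ?_
    filter_upwards [eventually_gt_atTop 0] with K hK
    have hK0 : (K : ℝ) ≠ 0 := by exact_mod_cast hK.ne'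
    field_simp
  have hl : Tendsto (fun K : ℕ => ((n0 : ℝ) + 1) * (((K : ℝ) - k1) / K) ^ r) atTop
      (𝓝 (((n0 : ℝ) + 1) * 1 ^ r)) := by
    have h3 := (key (-(k1 : ℝ))).pow r
    simp only [← sub_eq_add_neg] at h3
    exact h3.const_mul _
  have hr' : Tendsto (fun K : ℕ => n0 * (((K : ℝ) + r) / K) ^ r +
        (r.factorial * c : ℝ) * ((((K : ℝ) + 1) / K) ^ (r - 1) * ((K : ℝ))⁻¹)) atTop
      (𝓝 ((n0 : ℝ) * 1 ^ r + (r.factorial * c : ℝ) * (1 ^ (r - 1) * 0))) :=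
    (((key r).pow r).const_mul _).add ((((key 1).pow (r - 1)).mul hinv).const_mul _)
  have h3 := le_of_tendsto_of_tendsto hl hr' h2
  simp only [one_pow, mul_one, mul_zero, add_zero] at h3
  linarith

end NC
end MotMono
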