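import Pool.Agent.Lib.MP_4e5fcd_ag.NC.K11
import Pool.Agent.Lib.MP_4e5fcd_ag.NC.K12
import Pool.Agent.Lib.MP_4e5fcd_ag.NC.K13

/-!
# NC-K14a: the count for Kushnirenko's inequality

`A` a finite set of exponents of weight `e`. `L k` is spanned by the monomials `x ^ b`, `b` in the rational cone over `A`, of weight `k e`.

Proof. `hilbert_le` for `L`; `finrank (L K)` is the number of the monomials (they are linearly independent: `MvPolynomial.basisMonomials`;
the set is finite because `w i > 0`), which is at least what `card_ge`, `card_ge_extra` give (the cones over `D` and over `D, m` are in the cone over `A`); `compare_le`.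
-/

open MvPolynomial

namespace MotMono
namespace NC

variable {N r : ℕ}

/-- the rational cone over `A` -/
def RCone (A : Finset (Fin N →₀ ℕ)) (b : Fin N →₀ ℕ) : Prop :=
  ∃ c : (Fin N →₀ ℕ) → ℚ, (∀ a, 0 ≤ c a) ∧ ∀ i, (b i : ℚ) = ∑ a ∈ A, c a * (a i : ℚ)

/-- the span of the monomials in the cone of weight `k e` -/
noncomputable def LKr (A : Finset (Fin N →₀ ℕ)) (w : Fin N → ℕ) (e k : ℕ) :
    Submodule ℂ (MvPolynomial (Fin N) ℂ) :=
  Submodule.span ℂ ((fun b => monomial b (1 : ℂ)) '' {b | RCone A b ∧ wd w b = k * e})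

/-- the exponents are finitely many -/
theorem finite_LKr (A : Finset (Fin N →₀ ℕ)) (w : Fin N → ℕ) (hw : ∀ i, 0 < w i) (e k : ℕ) :
    {b : Fin N →₀ ℕ | RCone A b ∧ wd w b = k * e}.Finite := by
  classical
  refine (Set.finite_Icc (0 : Fin N →₀ ℕ)
    (Finsupp.equivFunOnFinite.symm fun _ => k * e)).subset ?_
  rintro b ⟨-, hb⟩
  refine ⟨fun i => Nat.zero_le _, fun i => ?_⟩
  show b i ≤ k * e
  calc b i = b i * 1 := (mul_one _).symm
    _ ≤ b i * w i := Nat.mul_le_mul_left _ (hw i)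
    _ ≤ wd w b := Finset.single_le_sum (f := fun i => b i * w i) (fun _ _ => Nat.zero_le _)
      (Finset.mem_univ i)
    _ = k * e := hb

theorem finiteDimensional_LKr (A : Finset (Fin N →₀ ℕ)) (w : Fin N → ℕ) (hw : ∀ i, 0 < w i)
    (e k : ℕ) : FiniteDimensional ℂ (LKr A w e k) :=
  FiniteDimensional.span_of_finite ℂ ((finite_LKr A w hw e k).image _)

theorem finrank_LKr (A : Finset (Fin N →₀ ℕ)) (w : Fin N → ℕ) (hw : ∀ i, 0 < w i) (e k : ℕ) :
    Module.finrank ℂ (LKr A w e k) = (finite_LKr A w hw e k).toFinset.card := by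
  classical
  have h1 : LinearIndependent ℂ
      (fun b : {b // b ∈ (finite_LKr A w hw e k).toFinset} => (monomial b.1 (1 : ℂ) :
        MvPolynomial (Fin N) ℂ)) := by
    have h2 := (MvPolynomial.basisMonomials (Fin N) ℂ).linearIndependent
    rw [MvPolynomial.coe_basisMonomials] at h2
    exact h2.comp (fun b : {b // b ∈ (finite_LKr A w hw e k).toFinset} => b.1)
      Subtype.val_injective
  have h4 := finrank_span_eq_card h1
  rw [Fintype.card_coe] at h4
  rw [← h4]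
  have h5 : (fun b => (monomial b (1 : ℂ) : MvPolynomial (Fin N) ℂ)) ''
      {b | RCone A b ∧ wd w b = k * e} =
      Set.range (fun b : {b // b ∈ (finite_LKr A w hw e k).toFinset} =>
        (monomial b.1 (1 : ℂ) : MvPolynomial (Fin N) ℂ)) := by
    ext x
    constructor
    · rintro ⟨b, hb, rfl⟩
      exact ⟨⟨b, (Set.Finite.mem_toFinset _).2 hb⟩, rfl⟩
    · rintro ⟨⟨b, hb⟩, rfl⟩
      exact ⟨b, (Set.Finite.mem_toFinset _).1 hb, rfl⟩
  unfold LKr
  rw [h5]

theorem mul_mem_LKr (A : Finset (Fin N →₀ ℕ)) (w : Fin N → ℕ) (e : ℕ) {k l : ℕ}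
    {x y : MvPolynomial (Fin N) ℂ} (hx : x ∈ LKr A w e k) (hy : y ∈ LKr A w e l) :
    x * y ∈ LKr A w e (k + l) := by
  have h1 := Submodule.mul_mem_mul hx hy
  unfold LKr at h1
  rw [Submodule.span_mul_span] at h1
  refine Submodule.span_mono ?_ h1
  rintro z ⟨x', ⟨b, ⟨⟨c, hc, hb⟩, hbw⟩, rfl⟩, y', ⟨b', ⟨⟨c', hc', hb'⟩, hbw'⟩, rfl⟩, rfl⟩
  refine ⟨b + b', ⟨⟨fun a => c a + c' a, fun a => add_nonneg (hc a) (hc' a), fun i => ?_⟩, ?_⟩, ?_⟩
  · rw [Finsupp.add_apply, Nat.cast_add, hb i, hb' i, ← Finset.sum_add_distrib]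
    exact Finset.sum_congr rfl fun a _ => by ring
  · unfold wd at hbw hbw' ⊢
    rw [add_mul, ← hbw, ← hbw', ← Finset.sum_add_distrib]
    exact Finset.sum_congr rfl fun i _ => by rw [Finsupp.add_apply]; ring
  · show monomial (b + b') (1 : ℂ) = monomial b 1 * monomial b' 1
    rw [monomial_mul, one_mul]

private theorem rcone_of {A : Finset (Fin N →₀ ℕ)} {ι : Type} [Fintype ι]
    (D : ι → (Fin N →₀ ℕ)) (hD : ∀ l, D l ∈ A) (c : ι → ℚ) (hc : ∀ l, 0 ≤ c l)
    {b : Fin N →₀ ℕ} (hb : ∀ i, (b i : ℚ) = ∑ l, c l * (D l i : ℚ)) : RCone A b := by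
  classical
  refine ⟨fun a => ∑ l, if D l = a then c l else 0, fun a => ?_, fun i => ?_⟩
  · refine Finset.sum_nonneg fun l _ => ?_
    split_ifs
    · exact hc l
    · exact le_rfl
  · rw [hb i]
    simp_rw [Finset.sum_mul]
    rw [Finset.sum_comm]
    refine Finset.sum_congr rfl fun l _ => ?_
    rw [Finset.sum_eq_single (D l)]
    · rw [if_pos rfl]
    · intro a _ ha
      rw [if_neg (Ne.symm ha), zero_mul]
    · intro h
      exact absurd (hD l) h

theorem count_le (hr : r + 1 = N) (hr0 : 0 < r) (A : Finset (Fin N →₀ ℕ)) (w : Fin N → ℕ) {e : ℕ}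
    (he : 0 < e) (hw : ∀ i, 0 < w i) (hA : ∀ a ∈ A, wd w a = e)
    (f : Fin r → MvPolynomial (Fin N) ℂ) (hf : ∀ j, f j ∈ LKr A w e 1) (n0 k2 : ℕ)
    (h : ∀ k, k2 ≤ k → Module.finrank ℂ (LKr A w e (k + 1)) ≤ n0 + Module.finrank ℂ
      ((⨆ j, (LKr A w e k).map (LinearMap.mulLeft ℂ (f j)) :
        Submodule ℂ (MvPolynomial (Fin N) ℂ))))
    (D : Fin N → (Fin N →₀ ℕ)) (hD : ∀ l, D l ∈ A)
    (hi : LinearIndependent ℚ (fun l => fun i => ((D l i : ℕ) : ℚ)))
    (G : Finset (Fin N →₀ ℕ))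
    (hG : ∀ ρ ∈ G, e ∣ wd w ρ ∧ ∃ c : Fin N → ℚ, (∀ l, 0 ≤ c l) ∧
      ∀ i, (ρ i : ℚ) = ∑ l, c l * (D l i : ℚ))
    (hG' : ∀ ρ ∈ G, ∀ ρ' ∈ G, ρ ≠ ρ' → ∀ c : Fin N → ℤ,
      ¬ ∀ i, (ρ i : ℤ) = ρ' i + ∑ l, c l * (D l i : ℤ)) :
    G.card ≤ n0 ∧ ((∃ m ∈ A, ∃ c : Fin N → ℚ, (∃ l, c l < 0) ∧
      ∀ i, (m i : ℚ) = ∑ l, c l * (D l i : ℚ)) → G.card + 1 ≤ n0) := by
  obtain ⟨c, hc⟩ := hilbert_le hr0 f (LKr A w e) (fun k => finiteDimensional_LKr A w hw e k)
    (fun k j x hx => by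
      have h1 := mul_mem_LKr A w e (hf j) hx
      rwa [add_comm 1 k] at h1) n0 k2 h
  have hDe : ∀ l, wd w (D l) = e := fun l => hA _ (hD l)
  constructor
  · obtain ⟨k0, h0⟩ := card_ge hr w he D hDe hi G hG hG'
    have h1 := compare_le hr0 G.card 0 n0 c k0 (fun K hK => by
      rw [zero_mul, add_zero]
      refine le_trans ?_ (hc K)
      rw [finrank_LKr A w hw e K]
      refine h0 K hK _ fun b hb hb' => ?_
      obtain ⟨cb, hcb, hcb'⟩ := hb'
      exact (Set.Finite.mem_toFinset _).2 ⟨rcone_of D hD cb hcb hcb', hb⟩)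
    rwa [add_zero] at h1
  · rintro ⟨m, hm, cm, hneg, hcm⟩
    obtain ⟨k0, h0⟩ := card_ge_extra hr w he D hDe hi G hG hG' m (hA m hm) cm hneg hcm
    refine compare_le hr0 G.card 1 n0 c k0 (fun K hK => ?_)
    rw [one_mul]
    refine le_trans ?_ (hc K)
    rw [finrank_LKr A w hw e K]
    refine h0 K hK _ fun b hb hb' => ?_
    obtain ⟨cb, c0, hc0, hcb, hcb'⟩ := hb'
    refine (Set.Finite.mem_toFinset _).2 ⟨?_, hb⟩
    refine rcone_of (ι := Option (Fin N)) (fun o => o.elim m D)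
      (fun o => by cases o with | none => exact hm | some l => exact hD l)
      (fun o => o.elim c0 cb)
      (fun o => by cases o with | none => exact hc0 | some l => exact hcb l) ?_
    intro i
    rw [Fintype.sum_option]
    exact hcb' i

end NC
end MotMono
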