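import Pool.Agent.Lib.MP_4e5fcd_ag.NC.K0
import Pool.Agent.Lib.MP_4e5fcd_ag.NC.K1
import Pool.Agent.Lib.MP_4e5fcd_ag.NC.K14a

/-!
# NC-K14: the count for Kushnirenko's inequality

`count_le` (K14a) with the notation of KDefs: `Cone A b` iff `RCone A b`, `LK = LKr`.
-/

open MvPolynomial

namespace MotMono
namespace NC

open WH

variable {N r : ℕ}

private theorem kc_cone (A : Finset (Fin N →₀ ℕ)) (b : Fin N →₀ ℕ) : Cone A b ↔ RCone A b := by
  classical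
  constructor
  · rintro ⟨n, q, hn, h⟩
    have hn' : (n : ℚ) ≠ 0 := by exact_mod_cast hn.ne'
    refine ⟨fun a => (q a : ℚ) / n, fun a => by positivity, fun i => ?_⟩
    have h1 : n * b i = ∑ a ∈ A, q a * a i := by
      have h2 := DFunLike.congr_fun h i
      rw [Finsupp.finsetSum_apply] at h2
      simpa using h2
    have h2 : (n : ℚ) * b i = ∑ a ∈ A, (q a : ℚ) * a i := by exact_mod_cast h1
    rw [← mul_right_inj' hn', h2, Finset.mul_sum]
    refine Finset.sum_congr rfl fun a _ => ?_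
    field_simp
  · rintro ⟨c, hc, h⟩
    obtain ⟨M, y, hM, hy⟩ := exists_den (fun a : {a // a ∈ A} => c a.1)
    have hy0 : ∀ a, 0 ≤ y a := by
      intro a
      have h1 : (0 : ℚ) ≤ (y a : ℚ) := by
        rw [hy a]
        exact mul_nonneg (Nat.cast_nonneg _) (hc _)
      exact_mod_cast h1
    refine ⟨M, fun a => if ha : a ∈ A then (y ⟨a, ha⟩).toNat else 0, hM, ?_⟩
    ext i
    rw [Finsupp.finsetSum_apply]
    have h1 : ((M • b) i : ℚ) =
        ((∑ a ∈ A, ((if ha : a ∈ A then (y ⟨a, ha⟩).toNat else 0) • a) i : ℕ) : ℚ) := by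
      rw [Finsupp.smul_apply, smul_eq_mul]
      push_cast
      rw [h i, Finset.mul_sum]
      refine Finset.sum_congr rfl fun a ha => ?_
      rw [dif_pos ha, Pi.smul_apply, smul_eq_mul]
      push_cast
      have h2 : (((y ⟨a, ha⟩).toNat : ℕ) : ℚ) = M * c a := by
        rw [← hy ⟨a, ha⟩]
        exact_mod_cast Int.toNat_of_nonneg (hy0 ⟨a, ha⟩)
      rw [h2]
      ring
    exact_mod_cast h1

private theorem kc_LK (A : Finset (Fin N →₀ ℕ)) (w : Fin N → ℕ) (e k : ℕ) :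
    LK A w e k = LKr A w e k := by
  unfold LK LKr
  rw [restrictSupport_eq_span]
  congr 2
  ext b
  show Cone A b ∧ _ ↔ RCone A b ∧ _
  rw [kc_cone]

theorem count (hr : r + 1 = N) {f : Fin r → MvPolynomial (Fin N) ℂ} {w : Fin N → ℕ} {e : ℕ}
    (hF : Fac (Sup f) w e) (hw : ∀ i, 0 < w i) (n0 : ℕ)
    (h : ∃ k2, ∀ k, k2 ≤ k → Module.finrank ℂ (LK (SA (Sup f) w e) w e k) ≤
      Module.finrank ℂ (UK (ip f w e) Finset.univ (SA (Sup f) w e) w e k) + n0)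
    (D : Fin N → (Fin N →₀ ℕ)) (hD : ∀ l, D l ∈ Sup f ∧ wd w (D l) = e)
    (hi : LinearIndependent ℚ (fun l => fun i => ((D l i : ℕ) : ℚ)))
    (G : Finset (Fin N →₀ ℕ))
    (hG : ∀ ρ ∈ G, e ∣ wd w ρ ∧ ∃ c : Fin N → ℚ, (∀ l, 0 ≤ c l) ∧
      ∀ i, (ρ i : ℚ) = ∑ l, c l * (D l i : ℚ))
    (hG' : ∀ ρ ∈ G, ∀ ρ' ∈ G, ρ ≠ ρ' → ∀ c : Fin N → ℤ,
      ¬ ∀ i, (ρ i : ℤ) = ρ' i + ∑ l, c l * (D l i : ℤ)) :
    G.card ≤ n0 ∧ ((∃ m ∈ Sup f, wd w m = e ∧ ∃ c : Fin N → ℚ, (∃ l, c l < 0) ∧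
      ∀ i, (m i : ℚ) = ∑ l, c l * (D l i : ℚ)) → G.card + 1 ≤ n0) := by
  have hr0 : 0 < r := by
    rcases Nat.eq_zero_or_pos r with h0 | h0
    · exfalso
      subst h0
      have hN : 0 < N := by omega
      have h1 := (hD ⟨0, hN⟩).1
      unfold Sup at h1
      obtain ⟨j, _, _⟩ := Finset.mem_biUnion.1 h1
      exact j.elim0
    · exact h0
  obtain ⟨k2, hk⟩ := h
  have k1 := count_le hr hr0 (SA (Sup f) w e) w hF.pos hw (fun a ha => (mem_SA.1 ha).2) (ip f w e)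
    (fun j => by
      rw [← kc_LK]
      exact ip_mem_LK f w e j) n0 k2 (fun k hk2 => by
      rw [← kc_LK, ← kc_LK, add_comm n0]
      have k3 := hk (k + 1) (by omega)
      have k4 : UK (ip f w e) Finset.univ (SA (Sup f) w e) w e (k + 1) =
          ⨆ j, (LK (SA (Sup f) w e) w e k).map (LinearMap.mulLeft ℂ (ip f w e j)) := by
        show AJ _ _ _ = _
        unfold AJ
        simp
      rwa [k4] at k3) D (fun l => mem_SA.2 (hD l)) hi G hG hG'
  refine ⟨k1.1, ?_⟩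
  rintro ⟨m, hm, hm', hc⟩
  exact k1.2 ⟨m, mem_SA.2 ⟨hm, hm'⟩, hc⟩

end NC
end MotMono
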