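import Mathlib

/-!
# NC-K2: extension of characters
-/

namespace MotMono
namespace NC

private theorem surj_zsmul {n : ℤ} (hn : n ≠ 0) :
    Function.Surjective (fun a : Additive ℂˣ => n • a) := by
  have key : ∀ (m : ℕ), 0 < m → ∀ y : ℂˣ, ∃ x : ℂˣ, x ^ m = y := by
    intro m hm y
    obtain ⟨x, hx⟩ := IsAlgClosed.exists_pow_nat_eq (y : ℂ) hm
    have hx0 : x ≠ 0 := by
      rintro rfl
      rw [zero_pow hm.ne'] at hx
      exact y.ne_zero hx.symm
    exact ⟨Units.mk0 x hx0, by ext; simpa using hx⟩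
  intro y
  rcases lt_or_gt_of_ne hn with h | h
  · obtain ⟨m, rfl⟩ : ∃ m : ℕ, n = -(m : ℤ) := ⟨n.natAbs, by omega⟩
    obtain ⟨x, hx⟩ := key m (by omega) (Additive.toMul y)
    refine ⟨Additive.ofMul x⁻¹, ?_⟩
    apply Additive.toMul.injective
    show (x⁻¹) ^ (-(m : ℤ)) = _
    rw [zpow_neg, inv_zpow, inv_inv, zpow_natCast, hx]
  · obtain ⟨m, rfl⟩ : ∃ m : ℕ, n = (m : ℤ) := ⟨n.natAbs, by omega⟩
    obtain ⟨x, hx⟩ := key m (by omega) (Additive.toMul y)
    refine ⟨Additive.ofMul x, ?_⟩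
    apply Additive.toMul.injective
    show x ^ (m : ℤ) = _
    rw [zpow_natCast, hx]

private theorem baer : Module.Baer ℤ (Additive ℂˣ) := by
  have : DivisibleBy (Additive ℂˣ) ℤ := divisibleByOfSMulRightSurj _ _ (fun hn => surj_zsmul hn)
  exact Module.Baer.of_divisible _

/-- A system of values on vectors `v t` in degree `1` which satisfies the toric relations is the restriction of
`κ z ^ v`. -/
theorem exists_char {σ T : Type*} [Fintype σ] [Fintype T] (v : T → σ → ℤ) (ψ : T → ℂ)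
    (h0 : ∀ t, ψ t ≠ 0)
    (h : ∀ a b : T → ℕ, ∑ t, a t = ∑ t, b t →
      (∀ i, ∑ t, (a t : ℤ) * v t i = ∑ t, (b t : ℤ) * v t i) →
      ∏ t, ψ t ^ a t = ∏ t, ψ t ^ b t) :
    ∃ (κ : ℂ) (z : σ → ℂ), κ ≠ 0 ∧ (∀ i, z i ≠ 0) ∧ ∀ t, ψ t = κ * ∏ i, z i ^ v t i := by
  classical
  let φ : (T → ℤ) →ₗ[ℤ] (σ → ℤ) × ℤ :=
    { toFun := fun a => (fun i => ∑ t, a t * v t i, ∑ t, a t)
      map_add' := fun a b => by
        ext i
        · simp [add_mul, Finset.sum_add_distrib]
        · simp [Finset.sum_add_distrib]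
      map_smul' := fun c a => by
        ext i
        · simp [Finset.mul_sum, mul_assoc]
        · simp [Finset.mul_sum] }
  let u : T → ℂˣ := fun t => Units.mk0 (ψ t) (h0 t)
  let g : (T → ℤ) →ₗ[ℤ] Additive ℂˣ :=
    { toFun := fun a => Additive.ofMul (∏ t, u t ^ a t)
      map_add' := fun a b => by
        apply Additive.toMul.injective
        show ∏ t, u t ^ (a t + b t) = (∏ t, u t ^ a t) * ∏ t, u t ^ b t
        rw [← Finset.prod_mul_distrib]
        exact Finset.prod_congr rfl fun t _ => zpow_add _ _ _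
      map_smul' := fun c a => by
        apply Additive.toMul.injective
        show ∏ t, u t ^ (c * a t) = (∏ t, u t ^ a t) ^ c
        rw [← Finset.prod_zpow]
        exact Finset.prod_congr rfl fun t _ => by rw [mul_comm, zpow_mul] }
  have hker : LinearMap.ker φ ≤ LinearMap.ker g := by
    intro a ha
    rw [LinearMap.mem_ker] at ha ⊢
    have h1 : ∀ i, ∑ t, a t * v t i = 0 := fun i => congrFun (congrArg Prod.fst ha) i
    have h2 : ∑ t, a t = 0 := congrArg Prod.snd ha
    have ht : ∀ t, a t = ((a t).toNat : ℤ) - ((-a t).toNat : ℤ) := fun t => by omega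
    have h3 := h (fun t => (a t).toNat) (fun t => (-a t).toNat) (by
      have : (∑ t, ((a t).toNat : ℤ)) = ∑ t, ((-a t).toNat : ℤ) := by
        have h4 : ∑ t, a t = ∑ t, ((a t).toNat : ℤ) - ∑ t, ((-a t).toNat : ℤ) := by
          rw [← Finset.sum_sub_distrib]
          exact Finset.sum_congr rfl fun t _ => ht t
        linarith
      exact_mod_cast this) (fun i => by
        have h4 : ∑ t, a t * v t i =
            ∑ t, ((a t).toNat : ℤ) * v t i - ∑ t, ((-a t).toNat : ℤ) * v t i := by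
          rw [← Finset.sum_sub_distrib]
          exact Finset.sum_congr rfl fun t _ => by
            conv_lhs => rw [ht t]
            ring
        linarith [h1 i])
    apply Additive.toMul.injective
    show ∏ t, u t ^ a t = 1
    have h4 : ∏ t, u t ^ (a t).toNat = ∏ t, u t ^ (-a t).toNat := by
      ext
      push_cast
      exact h3
    calc ∏ t, u t ^ a t = ∏ t, (u t ^ (a t).toNat * (u t ^ (-a t).toNat)⁻¹) := by
          refine Finset.prod_congr rfl fun t _ => ?_
          conv_lhs => rw [ht t]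
          rw [zpow_sub, zpow_natCast, zpow_natCast]
      _ = 1 := by
          rw [Finset.prod_mul_distrib, Finset.prod_inv_distrib, h4, mul_inv_cancel]
  obtain ⟨G, hG⟩ := baer.extension_property ((LinearMap.ker φ).liftQ φ le_rfl)
    (LinearMap.ker_eq_bot.1 (Submodule.ker_liftQ_eq_bot _ _ _ le_rfl))
    ((LinearMap.ker φ).liftQ g hker)
  have hG' : ∀ a : T → ℤ, G (φ a) = g a := by
    intro a
    have := congrArg (fun F => F (Submodule.Quotient.mk a)) hG
    simpa using this
  refine ⟨((Additive.toMul (G (0, 1)) : ℂˣ) : ℂ),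
    fun i => ((Additive.toMul (G (Pi.single i 1, 0)) : ℂˣ) : ℂ), Units.ne_zero _,
    fun i => Units.ne_zero _, fun t => ?_⟩
  have h5 := hG' (Pi.single t 1)
  have h6 : φ (Pi.single t 1) = (v t, 1) := by
    ext i
    · show ∑ s, (Pi.single t 1 : T → ℤ) s * v s i = v t i
      rw [Finset.sum_eq_single t]
      · simp
      · intro s _ hs
        simp [Pi.single_eq_of_ne hs]
      · simp
    · show ∑ s, (Pi.single t 1 : T → ℤ) s = 1
      rw [Finset.sum_pi_single']
      simp
  have h7 : Additive.toMul (g (Pi.single t 1)) = u t := by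
    show ∏ s, u s ^ ((Pi.single t 1 : T → ℤ) s) = u t
    rw [Finset.prod_eq_single t]
    · simp
    · intro s _ hs
      simp [Pi.single_eq_of_ne hs]
    · simp
  have h8 : ((v t, 1) : (σ → ℤ) × ℤ) = (0, 1) + ∑ i, v t i • ((Pi.single i 1, 0) : (σ → ℤ) × ℤ) := by
    ext j
    · simp [Prod.fst_sum, Finset.sum_apply, Pi.single_apply]
    · simp [Prod.snd_sum]
  rw [h6, h8, map_add, map_sum] at h5
  have h9 := congrArg (fun x : Additive ℂˣ => ((Additive.toMul x : ℂˣ) : ℂ)) h5
  simp only [h7] at h9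
  rw [show (ψ t) = ((u t : ℂˣ) : ℂ) from rfl, ← h9]
  simp only [map_zsmul]
  rw [toMul_add, toMul_sum]
  push_cast
  refine congrArg _ (Finset.prod_congr rfl fun i _ => ?_)
  rw [toMul_zsmul]
  push_cast
  rfl

/-- The same with natural exponents. -/
theorem exists_char_nat {σ T : Type*} [Fintype σ] [Fintype T] (m : T → σ → ℕ) (ψ : T → ℂ)
    (h0 : ∀ t, ψ t ≠ 0)
    (h : ∀ a b : T → ℕ, ∑ t, a t = ∑ t, b t → (∀ i, ∑ t, a t * m t i = ∑ t, b t * m t i) →
      ∏ t, ψ t ^ a t = ∏ t, ψ t ^ b t) :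
    ∃ (κ : ℂ) (z : σ → ℂ), κ ≠ 0 ∧ (∀ i, z i ≠ 0) ∧ ∀ t, ψ t = κ * ∏ i, z i ^ m t i := by
  obtain ⟨κ, z, h1, h2, h3⟩ := exists_char (fun t i => (m t i : ℤ)) ψ h0 (fun a b hab h4 =>
    h a b hab fun i => by exact_mod_cast h4 i)
  exact ⟨κ, z, h1, h2, fun t => by simpa using h3 t⟩

end NC
end MotMono
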