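import Pool.Agent.Lib.MP_4e5fcd_ag.NC.K0
import Pool.Agent.Lib.MP_4e5fcd_ag.NC.K1
import Pool.Agent.Lib.MP_4e5fcd_ag.NC.K2

/-!
# NC-K3: solutions of the toric equations and the linear equations have full support

`T` is the set of the `a` with `y a ≠ 0`, `Z` its complement. By Farkas (K1) there is an integer vector
`u` with `u . a = 0` on `T` and `u . a > 0` on `Z` (the alternative contradicts a toric equation). For
large `M` the weight `M w + u` has its minimum on `Sup f` exactly at `T`; on `T` we have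
`y a = κ z ^ a` (K2), so `z` is a zero in the torus of the initial parts, and `ext_of_zero` gives
`M w + u = M w`, so `u = 0` and `Z` is empty.
-/

open MvPolynomial

namespace MotMono
namespace NC

open WH

variable {N r : ℕ}

private theorem k3_sum {X M : Type*} [AddCommMonoid M] [DecidableEq X] (A T : Finset X) (hT : T ⊆ A)
    (a : {x // x ∈ T} → ℕ) (g : X → M) :
    ∑ m ∈ A, (if h : m ∈ T then a ⟨m, h⟩ else 0) • g m = ∑ t : {x // x ∈ T}, a t • g t := by
  rw [← Finset.sum_subset hT, ← Finset.sum_coe_sort T]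
  · refine Finset.sum_congr rfl fun t _ => ?_
    rw [dif_pos t.2]
  · intro m _ hm
    rw [dif_neg hm, zero_smul]

private theorem k3_prod {X : Type*} [DecidableEq X] (A T : Finset X) (hT : T ⊆ A)
    (a : {x // x ∈ T} → ℕ) (g : X → ℂ) :
    ∏ m ∈ A, g m ^ (if h : m ∈ T then a ⟨m, h⟩ else 0) = ∏ t : {x // x ∈ T}, g t ^ a t := by
  rw [← Finset.prod_subset hT, ← Finset.prod_coe_sort T]
  · refine Finset.prod_congr rfl fun t _ => ?_
    rw [dif_pos t.2]
  · intro m _ hm
    rw [dif_neg hm, pow_zero]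

theorem faces {f : Fin r → MvPolynomial (Fin N) ℂ} (hr : r + 1 = N) (hf : Nondeg f)
    {w : Fin N → ℕ} {e : ℕ} (hF : Fac (Sup f) w e) (hw : ∀ i, 0 < w i) (y : (Fin N →₀ ℕ) → ℂ)
    (hy : ∀ α β : (Fin N →₀ ℕ) → ℕ,
      ∑ a ∈ SA (Sup f) w e, α a • a = ∑ a ∈ SA (Sup f) w e, β a • a →
        ∏ a ∈ SA (Sup f) w e, y a ^ α a = ∏ a ∈ SA (Sup f) w e, y a ^ β a)
    (hl : ∀ j, ∑ a ∈ SA (Sup f) w e, coeff a (f j) * y a = 0)
    (h0 : ∃ a ∈ SA (Sup f) w e, y a ≠ 0) : ∀ a ∈ SA (Sup f) w e, y a ≠ 0 := by
  classical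
  obtain ⟨A, hA⟩ : ∃ A, A = SA (Sup f) w e := ⟨_, rfl⟩
  rw [← hA] at hy hl h0 ⊢
  obtain ⟨T, hT⟩ : ∃ T : Finset (Fin N →₀ ℕ), T = {a ∈ A | y a ≠ 0} := ⟨_, rfl⟩
  obtain ⟨Z, hZ⟩ : ∃ Z : Finset (Fin N →₀ ℕ), Z = {a ∈ A | y a = 0} := ⟨_, rfl⟩
  have hTA : T ⊆ A := by rw [hT]; exact Finset.filter_subset _ _
  have hZA : Z ⊆ A := by rw [hZ]; exact Finset.filter_subset _ _
  have hTy : ∀ a ∈ T, y a ≠ 0 := fun a ha => by
    rw [hT, Finset.mem_filter] at ha
    exact ha.2
  have hZy : ∀ a ∈ Z, y a = 0 := fun a ha => by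
    rw [hZ, Finset.mem_filter] at ha
    exact ha.2
  rcases farkas_int (σ := Fin N) (ι := {a // a ∈ Z}) (κ := Empty) (η := {a // a ∈ T})
    (fun a i => (a.1 i : ℤ)) (fun b => b.elim) (fun c i => (c.1 i : ℤ)) with
    ⟨u, hu1, -, hu3⟩ | ⟨α, β, γ, ⟨a0, ha0⟩, h⟩
  · -- the weight
    obtain ⟨M, hM⟩ : ∃ M : ℕ, 0 < M ∧ (∀ i, -u i < M) ∧ ∀ m ∈ Sup f, -(∑ i, u i * (m i : ℤ)) < M := by
      refine ⟨1 + ∑ i, (u i).natAbs + ∑ m ∈ Sup f, (∑ i, u i * (m i : ℤ)).natAbs, by omega, ?_, ?_⟩
      · intro i
        have h1 := Finset.single_le_sum (f := fun i => (u i).natAbs) (fun _ _ => Nat.zero_le _)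
          (Finset.mem_univ i)
        omega
      · intro m hm
        have h1 := Finset.single_le_sum (f := fun m : Fin N →₀ ℕ => (∑ i, u i * (m i : ℤ)).natAbs)
          (fun _ _ => Nat.zero_le _) hm
        omega
    obtain ⟨hM0, hMi, hMm⟩ := hM
    obtain ⟨w', hw'⟩ : ∃ w' : Fin N → ℕ, ∀ i, (w' i : ℤ) = M * w i + u i := by
      refine ⟨fun i => (M * w i + u i : ℤ).toNat, fun i => ?_⟩
      rw [Int.toNat_of_nonneg]
      have h1 := hMi i
      have h2 : (1 : ℤ) ≤ w i := by exact_mod_cast hw i
      nlinarith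
    have hpos : ∀ i, 0 < w' i := by
      intro i
      have h1 := hMi i
      have h2 : (1 : ℤ) ≤ w i := by exact_mod_cast hw i
      have h3 := hw' i
      have h4 : (0 : ℤ) < w' i := by nlinarith
      exact_mod_cast h4
    have hwd : ∀ m : Fin N →₀ ℕ, (wd w' m : ℤ) = M * wd w m + ∑ i, u i * (m i : ℤ) := by
      intro m
      unfold wd
      push_cast
      rw [Finset.mul_sum, ← Finset.sum_add_distrib]
      refine Finset.sum_congr rfl fun i _ => ?_
      rw [hw' i]
      ring
    have hmem : ∀ m, m ∈ T ∨ m ∈ Z ↔ m ∈ Sup f ∧ wd w m = e := by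
      intro m
      rw [← mem_SA, ← hA, hT, hZ, Finset.mem_filter, Finset.mem_filter]
      tauto
    have hcase : ∀ m ∈ Sup f, (m ∈ T ∧ wd w' m = M * e) ∨ (m ∉ T ∧ M * e < wd w' m) := by
      intro m hm
      by_cases hmT : m ∈ T
      · left
        refine ⟨hmT, ?_⟩
        have h1 := hwd m
        have h2 := hu3 ⟨m, hmT⟩
        simp only at h2
        rw [h2, ((hmem m).1 (Or.inl hmT)).2, add_zero] at h1
        exact_mod_cast h1
      · right
        refine ⟨hmT, ?_⟩
        have h1 := hwd m
        have h3 : (M * e : ℤ) < wd w' m := by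
          by_cases hmZ : m ∈ Z
          · have h2 := hu1 ⟨m, hmZ⟩
            simp only at h2
            rw [((hmem m).1 (Or.inr hmZ)).2] at h1
            linarith
          · have h2 : e + 1 ≤ wd w m := by
              have h4 := hF.ge m hm
              have h5 : wd w m ≠ e := fun h5 => by
                rcases (hmem m).2 ⟨hm, h5⟩ with h6 | h6
                · exact hmT h6
                · exact hmZ h6
              omega
            have h3 := hMm m hm
            have h4 : ((e : ℤ) + 1) ≤ wd w m := by exact_mod_cast h2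
            have h5 : (0 : ℤ) < M := by exact_mod_cast hM0
            nlinarith
        exact_mod_cast h3
    have hSA : SA (Sup f) w' (M * e) = T := by
      ext m
      rw [mem_SA]
      constructor
      · rintro ⟨h1, h2⟩
        rcases hcase m h1 with h3 | h3
        · exact h3.1
        · exact absurd h2 h3.2.ne'
      · intro h1
        have h2 := ((hmem m).1 (Or.inl h1)).1
        rcases hcase m h2 with h3 | h3
        · exact ⟨h2, h3.2⟩
        · exact absurd h1 h3.1
    obtain ⟨κ, z, hκ, hz, hyz⟩ := exists_char_nat (σ := Fin N) (T := {a // a ∈ T})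
      (fun t i => t.1 i) (fun t => y t.1) (fun t => hTy _ t.2) (fun a b _ hab => by
        have h1 := hy (fun m => if h : m ∈ T then a ⟨m, h⟩ else 0)
          (fun m => if h : m ∈ T then b ⟨m, h⟩ else 0) (by
            have e1 := k3_sum A T hTA a (fun m => m)
            have e2 := k3_sum A T hTA b (fun m => m)
            rw [e1, e2]
            ext i
            rw [Finsupp.finset_sum_apply, Finsupp.finset_sum_apply]
            simp only [Finsupp.smul_apply, smul_eq_mul]
            exact hab i)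
        rw [k3_prod A T hTA a y, k3_prod A T hTA b y] at h1
        exact h1)
    obtain ⟨a1, ha1, ha1y⟩ := h0
    have ha1T : a1 ∈ T := by
      rw [hT, Finset.mem_filter]
      exact ⟨ha1, ha1y⟩
    have hzV : z ∈ VT f w' (M * e) := by
      refine ⟨hz, fun j => ?_⟩
      rw [eval_ip, hSA]
      have h1 : κ * ∑ a ∈ T, coeff a (f j) * ∏ i, z i ^ a i = 0 := by
        rw [← hl j, Finset.mul_sum, ← Finset.sum_subset hTA]
        · refine Finset.sum_congr rfl fun a ha => ?_
          rw [hyz ⟨a, ha⟩]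
          ring
        · intro a ha haT
          have h2 : y a = 0 := by
            by_contra h3
            exact haT (by rw [hT, Finset.mem_filter]; exact ⟨ha, h3⟩)
          rw [h2, mul_zero]
      exact (mul_eq_zero.1 h1).resolve_left hκ
    obtain ⟨c, hc1, hc2⟩ := ext_of_zero hr hf (w := w') (e := M * e) hpos
      (fun m hm => by
        rcases hcase m hm with h1 | h1
        · exact h1.2.ge
        · exact h1.2.le)
      ⟨a1, ((hmem a1).1 (Or.inl ha1T)).1, by
        have h1 : a1 ∈ SA (Sup f) w' (M * e) := by rw [hSA]; exact ha1T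
        exact (mem_SA.1 h1).2⟩
      (Nat.mul_pos hM0 hF.pos) hzV (fun i => (w i : ℂ)) (e : ℂ) (fun m hm hme => by
        have h1 : m ∈ T := by
          rw [← hSA, mem_SA]
          exact ⟨hm, hme⟩
        rw [← ((hmem m).1 (Or.inl h1)).2]
        unfold wd
        push_cast
        rfl)
    have hMC : (M : ℂ) ≠ 0 := by exact_mod_cast hM0.ne'
    have heC : (e : ℂ) ≠ 0 := by exact_mod_cast hF.pos.ne'
    have hcM : c * M = 1 := by
      have h1 : (c * M - 1) * e = 0 := by
        push_cast at hc2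
        linear_combination -hc2
      have h2 := (mul_eq_zero.1 h1).resolve_right heC
      linear_combination h2
    have hu0 : ∀ i, u i = 0 := by
      intro i
      have h1 := hc1 i
      have h2 : (w' i : ℂ) = M * w i + u i := by
        have := hw' i
        exact_mod_cast congrArg (Int.cast : ℤ → ℂ) this
      have h3 : (u i : ℂ) = 0 := by
        have h4 : c * (u i : ℂ) = 0 := by
          rw [h2] at h1
          linear_combination (-1 : ℂ) * h1 - (w i : ℂ) * hcM
        rcases mul_eq_zero.1 h4 with h5 | h5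
        · rw [h5, zero_mul] at hcM
          exact absurd hcM zero_ne_one
        · exact h5
      exact_mod_cast h3
    intro a ha hya
    have haZ : a ∈ Z := by
      rw [hZ, Finset.mem_filter]
      exact ⟨ha, hya⟩
    have h1 := hu1 ⟨a, haZ⟩
    simp [hu0] at h1
  · exfalso
    have h1 := hy (fun m => (if h : m ∈ Z then α ⟨m, h⟩ else 0) +
        (if h : m ∈ T then (-γ ⟨m, h⟩).toNat else 0))
      (fun m => if h : m ∈ T then (γ ⟨m, h⟩).toNat else 0) (by
        simp only [add_smul, Finset.sum_add_distrib]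
        have e1 := k3_sum A Z hZA α (fun m => m)
        have e2 := k3_sum A T hTA (fun t => (-γ t).toNat) (fun m => m)
        have e3 := k3_sum A T hTA (fun t => (γ t).toNat) (fun m => m)
        rw [e1, e2, e3]
        ext i
        have h2 := h i
        rw [Finsupp.add_apply, Finsupp.finset_sum_apply, Finsupp.finset_sum_apply,
          Finsupp.finset_sum_apply]
        simp only [Finsupp.smul_apply, smul_eq_mul]
        have h3 : (∑ t : {x // x ∈ T}, γ t * (t.1 i : ℤ)) =
            ∑ t : {x // x ∈ T}, ((γ t).toNat : ℤ) * (t.1 i : ℤ) -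
              ∑ t : {x // x ∈ T}, ((-γ t).toNat : ℤ) * (t.1 i : ℤ) := by
          rw [← Finset.sum_sub_distrib]
          refine Finset.sum_congr rfl fun t _ => ?_
          rw [← sub_mul]
          congr 1
          omega
        rw [h3] at h2
        simp only [Finset.univ_eq_empty, Finset.sum_empty, add_zero] at h2
        have h4 : ((∑ t : {x // x ∈ Z}, α t * t.1 i + ∑ t : {x // x ∈ T}, (-γ t).toNat * t.1 i : ℕ) : ℤ)
            = ((∑ t : {x // x ∈ T}, (γ t).toNat * t.1 i : ℕ) : ℤ) := by
          push_cast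
          linarith
        exact_mod_cast h4)
    have h2 : ∏ m ∈ A, y m ^ (if h : m ∈ T then (γ ⟨m, h⟩).toNat else 0) ≠ 0 := by
      rw [Finset.prod_ne_zero_iff]
      intro m _
      by_cases hm : m ∈ T
      · exact pow_ne_zero _ (hTy m hm)
      · rw [dif_neg hm, pow_zero]
        exact one_ne_zero
    apply h2
    rw [← h1]
    refine Finset.prod_eq_zero (hZA a0.2) ?_
    rw [hZy _ a0.2, zero_pow]
    rw [dif_pos a0.2]
    intro h3
    exact ha0 (Nat.eq_zero_of_add_eq_zero_right h3)

end NC
end MotMono
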