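import Pool.Agent.Lib.MP_4e5fcd_ag.NC.K1
import Pool.Agent.Lib.MP_4e5fcd_ag.NC.K0

/-!
# NC-K3a: separating a face of a face

PROOFS.
* `face_sep`: `farkas_int` (K1) with the strict vectors `a ∈ A \ F`, no weak vectors (`κ := PEmpty` or `Empty`), the equations `a ∈ F` (index types: the subtypes `{a // a ∈ A \ F}`, `{a // a ∈ F}`). In the second case `∑ α a • a = ∑ γ a • a` (`α` on `A \ F`, not all `0`, natural numbers; `γ : F → ℤ`). With `γ = γ⁺ - γ⁻` (`Int.toNat`): the function `α' = α` on `A \ F`, `γ⁻` on `F`, and `β' = γ⁺` on `F`, `0` on `A \ F` satisfy `∑ α' a • a = ∑ β' a • a` (sums over `A`), and `β'` is supported in `F`; by `hcl` (with the roles `α := β'`, `β := α'`) `α'` is supported in `F`: contradiction to `α ≠ 0`.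
* `face_weight`: `C := 1 + ∑ i, |u i| + ∑ m ∈ S, |u·m|` (as a natural number), `w' i := (C * w i + u i).toNat`; `C w i + u i ≥ C - |u i| > 0`. `wd w' m = C * wd w m + u·m` (in `ℤ`). For `m ∈ S` with `wd w m = e`, that is `m ∈ SA S w e`: `wd w' m = C e + u·m`, and `u·m = 0` iff `m ∈ F` (`> 0` otherwise). For `m ∈ S` with `wd w m ≥ e + 1`: `wd w' m ≥ C e + C + u·m > C e`.
-/

open MvPolynomial

namespace MotMono
namespace NC

variable {N r : ℕ}

theorem face_sep (A F : Finset (Fin N →₀ ℕ)) (hFA : F ⊆ A)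
    (hcl : ∀ α β : (Fin N →₀ ℕ) → ℕ, ∑ a ∈ A, α a • a = ∑ a ∈ A, β a • a →
      (∀ a ∈ A, α a ≠ 0 → a ∈ F) → ∀ a ∈ A, β a ≠ 0 → a ∈ F) :
    ∃ u : Fin N → ℤ, (∀ a ∈ F, ∑ i, u i * (a i : ℤ) = 0) ∧
      ∀ a ∈ A, a ∉ F → 0 < ∑ i, u i * (a i : ℤ) := by
  classical
  rcases farkas_int (ι := {a // a ∈ A \ F}) (κ := Empty) (η := {a // a ∈ F})
    (fun a i => ((a : Fin N →₀ ℕ) i : ℤ)) (fun b _ => b.elim)
    (fun a i => ((a : Fin N →₀ ℕ) i : ℤ)) with ⟨u, h1, _, h3⟩ | ⟨α, β, γ, ⟨a₁, ha₁⟩, h⟩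
  · exact ⟨u, fun a ha => h3 ⟨a, ha⟩, fun a ha haF => h1 ⟨a, Finset.mem_sdiff.2 ⟨ha, haF⟩⟩⟩
  · exfalso
    set β' : (Fin N →₀ ℕ) → ℕ := fun a => if h : a ∈ F then (γ ⟨a, h⟩).toNat else 0 with hβ'
    set α' : (Fin N →₀ ℕ) → ℕ := fun a => if h : a ∈ A \ F then α ⟨a, h⟩ else
      if h : a ∈ F then (-γ ⟨a, h⟩).toNat else 0 with hα'
    have hβF : ∀ a : {a // a ∈ F}, β' a = (γ a).toNat := by
      intro a
      rw [hβ']
      simp only
      rw [dif_pos a.2]
    have hβA : ∀ a ∈ A \ F, β' a = 0 := by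
      intro a ha
      rw [hβ']
      simp only
      rw [dif_neg (Finset.mem_sdiff.1 ha).2]
    have hαA : ∀ a : {a // a ∈ A \ F}, α' a = α a := by
      intro a
      rw [hα']
      simp only
      rw [dif_pos a.2]
    have hαF : ∀ a : {a // a ∈ F}, α' a = (-γ a).toNat := by
      intro a
      rw [hα']
      simp only
      rw [dif_neg (fun h => (Finset.mem_sdiff.1 h).2 a.2), dif_pos a.2]
    have happ : ∀ (q : (Fin N →₀ ℕ) → ℕ) (i : Fin N),
        (((∑ a ∈ A, q a • a) i : ℕ) : ℤ) = ∑ a : {a // a ∈ A \ F}, (q a : ℤ) * (a : Fin N →₀ ℕ) i +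
          ∑ a : {a // a ∈ F}, (q a : ℤ) * (a : Fin N →₀ ℕ) i := by
      intro q i
      rw [Finset.sum_coe_sort (A \ F) (fun a => (q a : ℤ) * (a i : ℤ)),
        Finset.sum_coe_sort F (fun a => (q a : ℤ) * (a i : ℤ)), Finset.sum_sdiff hFA,
        Finsupp.finsetSum_apply]
      rw [Nat.cast_sum]
      exact Finset.sum_congr rfl fun a _ => by rw [Finsupp.smul_apply, smul_eq_mul, Nat.cast_mul]
    have key : ∑ a ∈ A, β' a • a = ∑ a ∈ A, α' a • a := by
      ext i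
      have h1 := h i
      have h0 : ∑ b : Empty, (β b : ℤ) * (b.elim : ℤ) = 0 := Finset.sum_of_isEmpty _
      rw [h0, add_zero] at h1
      have h2 : (((∑ a ∈ A, β' a • a) i : ℕ) : ℤ) = (((∑ a ∈ A, α' a • a) i : ℕ) : ℤ) := by
        rw [happ, happ]
        have e1 : ∑ a : {a // a ∈ A \ F}, (β' a : ℤ) * ((a : Fin N →₀ ℕ) i : ℤ) = 0 :=
          Finset.sum_eq_zero fun a _ => by rw [hβA a a.2, Nat.cast_zero, zero_mul]
        have e2 : ∑ a : {a // a ∈ A \ F}, (α' a : ℤ) * ((a : Fin N →₀ ℕ) i : ℤ) =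
            ∑ a : {a // a ∈ A \ F}, (α a : ℤ) * ((a : Fin N →₀ ℕ) i : ℤ) :=
          Finset.sum_congr rfl fun a _ => by rw [hαA]
        have e3 : ∑ a : {a // a ∈ F}, (β' a : ℤ) * ((a : Fin N →₀ ℕ) i : ℤ) -
            ∑ a : {a // a ∈ F}, (α' a : ℤ) * ((a : Fin N →₀ ℕ) i : ℤ) =
            ∑ a : {a // a ∈ F}, γ a * ((a : Fin N →₀ ℕ) i : ℤ) := by
          rw [← Finset.sum_sub_distrib]
          refine Finset.sum_congr rfl fun a _ => ?_
          rw [hβF, hαF, ← sub_mul, Int.toNat_sub_toNat_neg]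
        rw [e1, e2]
        linarith
      exact_mod_cast h2
    have h2 := hcl β' α' key (fun a _ ha => by
      by_contra hF
      refine ha ?_
      rw [hβ']
      simp only
      rw [dif_neg hF]) a₁ (Finset.mem_sdiff.1 a₁.2).1 (by rw [hαA]; exact ha₁)
    exact (Finset.mem_sdiff.1 a₁.2).2 h2

theorem face_weight (S F : Finset (Fin N →₀ ℕ)) (w : Fin N → ℕ) (e : ℕ) (hw : ∀ i, 0 < w i)
    (hge : ∀ m ∈ S, e ≤ wd w m) (hFA : F ⊆ SA S w e) (u : Fin N → ℤ)
    (hu : ∀ a ∈ F, ∑ i, u i * (a i : ℤ) = 0)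
    (hu' : ∀ a ∈ SA S w e, a ∉ F → 0 < ∑ i, u i * (a i : ℤ)) :
    ∃ (C : ℕ) (w' : Fin N → ℕ), 0 < C ∧ (∀ i, 0 < w' i) ∧ (∀ i, (w' i : ℤ) = C * w i + u i) ∧
      (∀ m ∈ S, C * e ≤ wd w' m) ∧ ∀ m ∈ S, wd w' m = C * e ↔ m ∈ F := by
  classical
  set C : ℕ := 1 + ∑ i, (u i).natAbs + ∑ m ∈ S, (∑ i, u i * (m i : ℤ)).natAbs with hC
  have hCu : ∀ i, |u i| < C := by
    intro i
    have h1 : (u i).natAbs ≤ ∑ i, (u i).natAbs :=
      Finset.single_le_sum (f := fun i => (u i).natAbs) (fun _ _ => Nat.zero_le _)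
        (Finset.mem_univ i)
    rw [Int.abs_eq_natAbs]
    have : (u i).natAbs < C := by omega
    exact_mod_cast this
  have hCm : ∀ m ∈ S, |∑ i, u i * (m i : ℤ)| < C := by
    intro m hm
    have h1 : (∑ i, u i * (m i : ℤ)).natAbs ≤ ∑ m ∈ S, (∑ i, u i * (m i : ℤ)).natAbs :=
      Finset.single_le_sum (f := fun m => (∑ i, u i * (m i : ℤ)).natAbs)
        (fun _ _ => Nat.zero_le _) hm
    rw [Int.abs_eq_natAbs]
    have : (∑ i, u i * (m i : ℤ)).natAbs < C := by omega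
    exact_mod_cast this
  have hpos : ∀ i, 0 < (C : ℤ) * w i + u i := by
    intro i
    have h1 := hCu i
    have h2 := neg_abs_le (u i)
    have h3 : (C : ℤ) ≤ C * w i := by
      have : (1 : ℤ) ≤ w i := by exact_mod_cast hw i
      nlinarith [(Nat.cast_nonneg C : (0 : ℤ) ≤ C)]
    linarith
  have hw' : ∀ i, ((((C : ℤ) * w i + u i).toNat : ℕ) : ℤ) = C * w i + u i := fun i =>
    Int.toNat_of_nonneg (hpos i).le
  have hwd : ∀ m : Fin N →₀ ℕ, ((wd (fun i => ((C : ℤ) * w i + u i).toNat) m : ℕ) : ℤ) =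
      C * wd w m + ∑ i, u i * (m i : ℤ) := by
    intro m
    unfold wd
    push_cast
    rw [Finset.mul_sum, ← Finset.sum_add_distrib]
    refine Finset.sum_congr rfl fun i _ => ?_
    rw [hw' i]
    ring
  refine ⟨C, fun i => ((C : ℤ) * w i + u i).toNat, by omega, fun i => ?_, hw', ?_, ?_⟩
  · have h1 := hw' i
    have h2 := hpos i
    show 0 < ((C : ℤ) * w i + u i).toNat
    omega
  · intro m hm
    have h1 := hwd m
    have h2 := hge m hm
    have h3 := hCm m hm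
    have h4 := neg_abs_le (∑ i, u i * (m i : ℤ))
    have h5 : (C : ℤ) * e ≤ wd (fun i => ((C : ℤ) * w i + u i).toNat) m := by
      rw [h1]
      rcases Nat.lt_or_ge e (wd w m) with h6 | h6
      · have h7 : (e : ℤ) + 1 ≤ wd w m := by exact_mod_cast h6
        nlinarith [(Nat.cast_nonneg C : (0 : ℤ) ≤ C)]
      · have h7 : wd w m = e := le_antisymm h6 h2
        have h8 : 0 ≤ ∑ i, u i * (m i : ℤ) := by
          by_cases h9 : m ∈ F
          · exact (hu m h9).ge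
          · exact (hu' m (mem_SA.2 ⟨hm, h7⟩) h9).le
        rw [h7]
        linarith
    exact_mod_cast h5
  · intro m hm
    have h1 := hwd m
    have h2 := hge m hm
    have h3 := hCm m hm
    have h4 := neg_abs_le (∑ i, u i * (m i : ℤ))
    constructor
    · intro h5
      have h6 : (C : ℤ) * e = C * wd w m + ∑ i, u i * (m i : ℤ) := by
        rw [← h1]
        exact_mod_cast h5.symm
      have h7 : wd w m = e := by
        by_contra h8
        have h9 : (e : ℤ) + 1 ≤ wd w m := by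
          have : e < wd w m := lt_of_le_of_ne h2 (Ne.symm h8)
          exact_mod_cast this
        nlinarith [(Nat.cast_nonneg C : (0 : ℤ) ≤ C)]
      by_contra h8
      have h9 := hu' m (mem_SA.2 ⟨hm, h7⟩) h8
      rw [h7] at h6
      linarith
    · intro h5
      have h6 := hu m h5
      have h7 := (mem_SA.1 (hFA h5)).2
      have h8 : ((wd (fun i => ((C : ℤ) * w i + u i).toNat) m : ℕ) : ℤ) = C * e := by
        rw [h1, h6, h7, add_zero]
      exact_mod_cast h8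

end NC
end MotMono
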