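import Pool.Agent.Lib.MP_4e5fcd_ag.NC.K3

/-!
# NC-K4: the certificate

PROOF. `A := SA (Sup f) w e`. In the polynomial ring `P := MvPolynomial A ℂ` (one variable `Y a` for each `a ∈ A`, the finite type `{a // a ∈ A}`) let `𝔍` be the ideal generated by
 (1) all binomials `∏ Y_a ^ α a - ∏ Y_a ^ β a` with `∑ α a • a = ∑ β a • a`, (2) the linear forms `l_j = ∑ c_ja Y_a`, `c_ja = coeff a (f j)`, (3) `Y a₀`.
Let `y` be a zero of `𝔍` (extended by `0` to all exponents). By (1) and (2) and `faces` (K3): if some `y a ≠ 0`, then all are `≠ 0`, but `y a₀ = 0` by (3). So `y = 0`. Hence every `Y_a` vanishes on the zero locus of `𝔍`; Nullstellensatz (`MvPolynomial.vanishingIdeal_zeroLocus_eq_radical`): `Y_a ∈ 𝔍.radical`, and `A` is finite: there is one `E` with `Y_a ^ (E + 1) ∈ 𝔍` for all `a ∈ A`.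
Let `Ψ : P →ₐ[ℂ] MvPolynomial (Fin N) ℂ`, `Ψ Y_a = monomial a 1`. The binomials go to `0`, `Ψ l_j = ip f w e j` (`ip_eq_sum`), `Ψ Y_a₀ = monomial a₀ 1`. So `monomial ((E + 1) • a) 1 = ∑_j ip f w e j * Ψ p_j + monomial a₀ 1 * Ψ p'`.
Apply the projection `weightedHomogeneousComponent w ((E + 1) * e)`: the left side is fixed (weight `(E + 1) e`); the component of `ip f w e j * g` is `ip f w e j *` (component of `g` of weight `E e`), because `ip f w e j` has weight `e`, similarly for `monomial a₀ 1`. The component of weight `E e` of `Ψ p` is in `LK A w e E`: `Ψ` of a monomial is `monomial (∑ α a • a)`, the exponent is in the cone (`cone_sumq`).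
-/

open MvPolynomial

namespace MotMono
namespace NC

open WH

variable {N r : ℕ}

private theorem k4_weight (w : Fin N → ℕ) (b : Fin N →₀ ℕ) : Finsupp.weight w b = wd w b := by
  rw [Finsupp.weight_apply, Finsupp.sum_fintype _ _ (fun i => by rw [zero_smul])]
  unfold wd
  exact Finset.sum_congr rfl fun i _ => by rw [smul_eq_mul]

/-- the substitution `Y_a ↦ x^a` -/
private noncomputable def k4P (A : Finset (Fin N →₀ ℕ)) :
    MvPolynomial {a // a ∈ A} ℂ →ₐ[ℂ] MvPolynomial (Fin N) ℂ :=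
  aeval fun a => monomial (a : Fin N →₀ ℕ) (1 : ℂ)

private theorem k4_cone (A : Finset (Fin N →₀ ℕ)) (g : MvPolynomial {a // a ∈ A} ℂ) :
    ∀ b, coeff b (k4P A g) ≠ 0 → Cone A b := by
  induction g using MvPolynomial.induction_on with
  | C c =>
    intro b hb
    have h1 : k4P A (C c) = C c := by
      unfold k4P
      rw [aeval_C]
      rfl
    rw [h1, coeff_C] at hb
    by_cases h : 0 = b
    · rw [← h]
      exact cone_zero A
    · rw [if_neg h] at hb
      exact absurd rfl hb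
  | add p q hp hq =>
    intro b hb
    rw [map_add, coeff_add] at hb
    by_cases h : coeff b (k4P A p) = 0
    · rw [h, zero_add] at hb
      exact hq b hb
    · exact hp b h
  | mul_X p a hp =>
    intro b hb
    have h1 : k4P A (p * X a) = k4P A p * monomial (a : Fin N →₀ ℕ) (1 : ℂ) := by
      rw [map_mul]
      unfold k4P
      rw [aeval_X]
    rw [h1, coeff_mul_monomial'] at hb
    by_cases h : (a : Fin N →₀ ℕ) ≤ b
    · rw [if_pos h, mul_one] at hb
      have h2 := (hp _ hb).add (cone_of_mem a.2)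
      rwa [tsub_add_cancel_of_le h] at h2
    · rw [if_neg h] at hb
      exact absurd rfl hb

private theorem k4_comp_mem (A : Finset (Fin N →₀ ℕ)) (w : Fin N → ℕ) (e k : ℕ)
    (g : MvPolynomial {a // a ∈ A} ℂ) :
    weightedHomogeneousComponent w (k * e) (k4P A g) ∈ LK A w e k := by
  classical
  rw [mem_LK]
  intro b hb
  rw [mem_support_iff, coeff_weightedHomogeneousComponent, k4_weight] at hb
  by_cases h : wd w b = k * e
  · rw [if_pos h] at hb
    exact ⟨k4_cone A g b hb, h⟩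
  · rw [if_neg h] at hb
    exact absurd rfl hb

private theorem k4_comp_mul (w : Fin N → ℕ) {a : Fin N →₀ ℕ} {e : ℕ} (ha : wd w a = e) (c : ℂ)
    (k : ℕ) (G : MvPolynomial (Fin N) ℂ) :
    weightedHomogeneousComponent w ((k + 1) * e) (monomial a c * G) =
      monomial a c * weightedHomogeneousComponent w (k * e) G := by
  classical
  ext b
  rw [coeff_weightedHomogeneousComponent, coeff_monomial_mul', coeff_monomial_mul',
    coeff_weightedHomogeneousComponent, k4_weight, k4_weight]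
  by_cases h : a ≤ b
  · rw [if_pos h, if_pos h]
    have h1 : wd w b = wd w (b - a) + e := by
      rw [← ha, ← wd_add, tsub_add_cancel_of_le h]
    by_cases h2 : wd w (b - a) = k * e
    · rw [if_pos (by rw [h1, h2]; ring), if_pos h2]
    · rw [if_neg (fun h3 => h2 (by rw [h1] at h3; linarith)), if_neg h2, mul_zero]
  · rw [if_neg h, if_neg h]
    split_ifs <;> rfl

private theorem k4_comp_ip (f : Fin r → MvPolynomial (Fin N) ℂ) (w : Fin N → ℕ) (e : ℕ)
    (j : Fin r) (k : ℕ) (G : MvPolynomial (Fin N) ℂ) :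
    weightedHomogeneousComponent w ((k + 1) * e) (ip f w e j * G) =
      ip f w e j * weightedHomogeneousComponent w (k * e) G := by
  rw [ip_eq_sum, Finset.sum_mul, map_sum, Finset.sum_mul]
  exact Finset.sum_congr rfl fun a ha => k4_comp_mul w (mem_SA.1 ha).2 _ k G

/-- the relations -/
private def k4T (f : Fin r → MvPolynomial (Fin N) ℂ) (w : Fin N → ℕ) (e : ℕ) (a₀ : Fin N →₀ ℕ) :
    Set (MvPolynomial {a // a ∈ SA (Sup f) w e} ℂ) :=
  {g | (∃ α β : (Fin N →₀ ℕ) → ℕ,
      ∑ a ∈ SA (Sup f) w e, α a • a = ∑ a ∈ SA (Sup f) w e, β a • a ∧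
      g = ∏ a : {a // a ∈ SA (Sup f) w e}, X a ^ α a - ∏ a : {a // a ∈ SA (Sup f) w e}, X a ^ β a) ∨
    (∃ j, g = ∑ a : {a // a ∈ SA (Sup f) w e}, C (coeff (a : Fin N →₀ ℕ) (f j)) * X a) ∨
    ∃ h : a₀ ∈ SA (Sup f) w e, g = X ⟨a₀, h⟩}

private theorem k4_P_prod (A : Finset (Fin N →₀ ℕ)) (α : (Fin N →₀ ℕ) → ℕ) :
    k4P A (∏ a : {a // a ∈ A}, X a ^ α a) = monomial (∑ a ∈ A, α a • a) 1 := by
  rw [map_prod, monomial_sum_one, ← Finset.prod_coe_sort A]
  refine Finset.prod_congr rfl fun a _ => ?_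
  rw [map_pow]
  unfold k4P
  rw [aeval_X, monomial_pow, one_pow]

private theorem k4_key (f : Fin r → MvPolynomial (Fin N) ℂ) (w : Fin N → ℕ) (e : ℕ)
    (a₀ : Fin N →₀ ℕ) (q : MvPolynomial {a // a ∈ SA (Sup f) w e} ℂ)
    (hq : q ∈ Ideal.span (k4T f w e a₀)) (k : ℕ) :
    weightedHomogeneousComponent w ((k + 1) * e) (k4P (SA (Sup f) w e) q) ∈
      UK (ip f w e) Finset.univ (SA (Sup f) w e) w e (k + 1) ⊔
        (LK (SA (Sup f) w e) w e k).map (LinearMap.mulLeft ℂ (monomial a₀ (1 : ℂ))) := by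
  suffices H : ∀ g : MvPolynomial {a // a ∈ SA (Sup f) w e} ℂ,
      weightedHomogeneousComponent w ((k + 1) * e) (k4P (SA (Sup f) w e) (g * q)) ∈
      UK (ip f w e) Finset.univ (SA (Sup f) w e) w e (k + 1) ⊔
        (LK (SA (Sup f) w e) w e k).map (LinearMap.mulLeft ℂ (monomial a₀ (1 : ℂ))) by
    have := H 1
    rwa [one_mul] at this
  refine Submodule.span_induction (p := fun q _ => ∀ g : MvPolynomial {a // a ∈ SA (Sup f) w e} ℂ,
      weightedHomogeneousComponent w ((k + 1) * e) (k4P (SA (Sup f) w e) (g * q)) ∈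
      UK (ip f w e) Finset.univ (SA (Sup f) w e) w e (k + 1) ⊔
        (LK (SA (Sup f) w e) w e k).map (LinearMap.mulLeft ℂ (monomial a₀ (1 : ℂ))))
    ?_ ?_ ?_ ?_ hq
  · rintro x (⟨α, β, hαβ, rfl⟩ | ⟨j, rfl⟩ | ⟨h, rfl⟩) g
    · rw [map_mul, map_sub, k4_P_prod, k4_P_prod, hαβ, sub_self, mul_zero, map_zero]
      exact Submodule.zero_mem _
    · have h1 : k4P (SA (Sup f) w e)
          (∑ a : {a // a ∈ SA (Sup f) w e}, C (coeff (a : Fin N →₀ ℕ) (f j)) * X a) =
          ip f w e j := by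
        rw [ip_eq_sum, map_sum, ← Finset.sum_coe_sort (SA (Sup f) w e)]
        refine Finset.sum_congr rfl fun a _ => ?_
        rw [map_mul]
        unfold k4P
        rw [aeval_X, aeval_C]
        show C _ * monomial _ _ = _
        rw [C_mul_monomial, mul_one]
      rw [map_mul, h1, mul_comm (k4P (SA (Sup f) w e) g), k4_comp_ip]
      refine Submodule.mem_sup_left ?_
      show _ ∈ AJ (ip f w e) Finset.univ (LK (SA (Sup f) w e) w e k)
      exact mul_mem_AJ (Finset.mem_univ j) (k4_comp_mem _ w e k g)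
    · have h1 : k4P (SA (Sup f) w e) (X ⟨a₀, h⟩) = monomial a₀ (1 : ℂ) := by
        unfold k4P
        rw [aeval_X]
      rw [map_mul, h1, mul_comm (k4P (SA (Sup f) w e) g), k4_comp_mul w (mem_SA.1 h).2]
      refine Submodule.mem_sup_right ?_
      exact ⟨_, k4_comp_mem _ w e k g, rfl⟩
  · intro g
    rw [mul_zero, map_zero, map_zero]
    exact Submodule.zero_mem _
  · intro x y _ _ hx hy g
    rw [mul_add, map_add, map_add]
    exact Submodule.add_mem _ (hx g) (hy g)
  · intro c x _ hx g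
    have h1 : g * c • x = (g * c) * x := by
      rw [smul_eq_mul]
      ring
    rw [h1]
    exact hx (g * c)

theorem cert {f : Fin r → MvPolynomial (Fin N) ℂ} (hr : r + 1 = N) (hf : Nondeg f)
    {w : Fin N → ℕ} {e : ℕ} (hF : Fac (Sup f) w e) (hw : ∀ i, 0 < w i) {a₀ : Fin N →₀ ℕ}
    (h₀ : a₀ ∈ SA (Sup f) w e) :
    ∃ E : ℕ, ∀ a ∈ SA (Sup f) w e, monomial ((E + 1) • a) (1 : ℂ) ∈
      UK (ip f w e) Finset.univ (SA (Sup f) w e) w e (E + 1) ⊔
        (LK (SA (Sup f) w e) w e E).map (LinearMap.mulLeft ℂ (monomial a₀ (1 : ℂ))) := by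
  classical
  -- the zero locus
  have hz : ∀ y : {a // a ∈ SA (Sup f) w e} → ℂ,
      (∀ g ∈ Ideal.span (k4T f w e a₀), aeval y g = 0) → y = 0 := by
    intro y hy
    have hyT : ∀ g ∈ k4T f w e a₀, aeval y g = 0 := fun g hg => hy g (Ideal.subset_span hg)
    set y' : (Fin N →₀ ℕ) → ℂ := fun m => if h : m ∈ SA (Sup f) w e then y ⟨m, h⟩ else 0 with hy'
    have hyy : ∀ a : {a // a ∈ SA (Sup f) w e}, y' a = y a := by
      intro a
      rw [hy']
      simp only
      rw [dif_pos a.2]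
    by_contra hne
    obtain ⟨a, ha⟩ := Function.ne_iff.1 hne
    have h1 := faces hr hf hF hw y' ?_ ?_ ⟨a, a.2, by rw [hyy]; exact ha⟩ a₀ h₀
    · have h2 := hyT _ (Or.inr (Or.inr ⟨h₀, rfl⟩))
      rw [aeval_X] at h2
      exact h1 ((hyy ⟨a₀, h₀⟩).trans h2)
    · intro α β hαβ
      have h2 := hyT _ (Or.inl ⟨α, β, hαβ, rfl⟩)
      rw [map_sub, sub_eq_zero, map_prod, map_prod] at h2
      rw [← Finset.prod_coe_sort (SA (Sup f) w e) (fun a => y' a ^ α a),
        ← Finset.prod_coe_sort (SA (Sup f) w e) (fun a => y' a ^ β a)]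
      have h3 : ∀ γ : (Fin N →₀ ℕ) → ℕ, ∏ a : {a // a ∈ SA (Sup f) w e},
          aeval y (X a ^ γ a : MvPolynomial {a // a ∈ SA (Sup f) w e} ℂ) =
          ∏ a : {a // a ∈ SA (Sup f) w e}, y' a ^ γ a := by
        intro γ
        refine Finset.prod_congr rfl fun a _ => ?_
        rw [map_pow, aeval_X, hyy]
      rw [h3, h3] at h2
      exact h2
    · intro j
      have h2 := hyT _ (Or.inr (Or.inl ⟨j, rfl⟩))
      rw [map_sum] at h2
      rw [← Finset.sum_coe_sort (SA (Sup f) w e) (fun a => coeff a (f j) * y' a), ← h2]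
      refine Finset.sum_congr rfl fun a _ => ?_
      rw [map_mul, aeval_X, aeval_C, hyy]
      rfl
  -- Nullstellensatz
  have hrad : ∀ a : {a // a ∈ SA (Sup f) w e}, ∃ n : ℕ,
      (X a : MvPolynomial {a // a ∈ SA (Sup f) w e} ℂ) ^ n ∈ Ideal.span (k4T f w e a₀) := by
    intro a
    have h1 : (X a : MvPolynomial {a // a ∈ SA (Sup f) w e} ℂ) ∈
        (Ideal.span (k4T f w e a₀)).radical := by
      rw [← vanishingIdeal_zeroLocus_eq_radical (K := ℂ)]
      rw [mem_vanishingIdeal_iff]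
      intro x hx
      rw [mem_zeroLocus_iff] at hx
      rw [hz x hx, aeval_X]
      rfl
    exact h1
  choose n hn using hrad
  refine ⟨∑ a, n a, fun a ha => ?_⟩
  have h1 : (X ⟨a, ha⟩ : MvPolynomial {a // a ∈ SA (Sup f) w e} ℂ) ^ ((∑ a, n a) + 1) ∈
      Ideal.span (k4T f w e a₀) := by
    have h2 : n ⟨a, ha⟩ ≤ (∑ a, n a) + 1 :=
      le_trans (Finset.single_le_sum (f := n) (fun _ _ => Nat.zero_le _)
        (Finset.mem_univ (⟨a, ha⟩ : {a // a ∈ SA (Sup f) w e}))) (Nat.le_succ _)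
    obtain ⟨c, hc⟩ := Nat.exists_eq_add_of_le h2
    rw [hc, pow_add]
    exact Ideal.mul_mem_right _ _ (hn _)
  have h2 := k4_key f w e a₀ _ h1 (∑ a, n a)
  have h3 : k4P (SA (Sup f) w e) (X ⟨a, ha⟩ ^ ((∑ a, n a) + 1)) =
      monomial (((∑ a, n a) + 1) • a) (1 : ℂ) := by
    rw [map_pow]
    unfold k4P
    rw [aeval_X, monomial_pow, one_pow]
  rw [h3] at h2
  have h4 : weightedHomogeneousComponent w (((∑ a, n a) + 1) * e)
      (monomial (((∑ a, n a) + 1) • a) (1 : ℂ)) = monomial (((∑ a, n a) + 1) • a) (1 : ℂ) := by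
    ext b
    rw [coeff_weightedHomogeneousComponent, k4_weight, coeff_monomial]
    by_cases h5 : ((∑ a, n a) + 1) • a = b
    · rw [if_pos h5, if_pos]
      rw [← h5, wd_nsmul, (mem_SA.1 ha).2]
    · rw [if_neg h5]
      split_ifs <;> rfl
  rwa [h4] at h2

end NC
end MotMono
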