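import Pool.Agent.Lib.MP_4e5fcd_ag.NC.K4

/-!
# NC-K5: the graded pieces are generated by `x ^ a₀` modulo the `F j`

PROOF. `E` from `cert` (K4), `s := #A`, `k₁ := s (E + 1)`. Let `k ≥ k₁` and `b` in the cone, `wd w b = (k + 1) e`: `n b = ∑ q a • a`, `n > 0`. Weights (`wd_sumq`, all `a ∈ A` have weight `e > 0`): `∑ q a = n (k + 1)`. So some `q a ≥ n (E + 1)`: otherwise `∑ q a < s n (E + 1) ≤ n (k + 1)` (if `s = 0`: `∑ = 0 < n (k + 1)`). `cone_div`: `b = (E + 1) • a + b'`, `b'` in the cone, `wd w b' = (k - E) e`.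
`monomial b 1 = monomial ((E + 1) • a) 1 * monomial b' 1`; by `cert` the first factor is `∑ F j g_j + x ^ a₀ g'` with `g_j, g' ∈ L_E`, and `g * monomial b' 1 ∈ L_k` (`mul_mem_LK`). `L_(k+1)` is spanned by the `monomial b 1` (`restrictSupport_eq_span`).
-/

open MvPolynomial

namespace MotMono
namespace NC

open WH

variable {N r : ℕ}

theorem gen {f : Fin r → MvPolynomial (Fin N) ℂ} (hr : r + 1 = N) (hf : Nondeg f)
    {w : Fin N → ℕ} {e : ℕ} (hF : Fac (Sup f) w e) (hw : ∀ i, 0 < w i) {a₀ : Fin N →₀ ℕ}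
    (h₀ : a₀ ∈ SA (Sup f) w e) :
    ∃ k₁ : ℕ, ∀ k, k₁ ≤ k → LK (SA (Sup f) w e) w e (k + 1) ≤
      UK (ip f w e) Finset.univ (SA (Sup f) w e) w e (k + 1) ⊔
        (LK (SA (Sup f) w e) w e k).map (LinearMap.mulLeft ℂ (monomial a₀ (1 : ℂ))) := by
  obtain ⟨E, hE⟩ := cert hr hf hF hw h₀
  refine ⟨(SA (Sup f) w e).card * (E + 1), fun k hk => ?_⟩
  have he : 0 < e := hF.pos
  intro g hg
  rw [mem_LK] at hg
  rw [g.as_sum]
  refine Submodule.sum_mem _ fun b hb => ?_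
  obtain ⟨hc, hwb⟩ := hg b hb
  have hmono : monomial b (coeff b g) = coeff b g • monomial b (1 : ℂ) := by
    rw [smul_monomial, smul_eq_mul, mul_one]
  rw [hmono]
  refine Submodule.smul_mem _ _ ?_
  obtain ⟨n, q, hn, hq⟩ := hc
  have hsum : ∑ a ∈ SA (Sup f) w e, q a = n * (k + 1) := by
    have h1 := congrArg (wd w) hq
    rw [wd_nsmul, wd_sumq, hwb] at h1
    have h2 : ∑ a ∈ SA (Sup f) w e, q a * wd w a = (∑ a ∈ SA (Sup f) w e, q a) * e := by
      rw [Finset.sum_mul]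
      refine Finset.sum_congr rfl fun a ha => ?_
      rw [(mem_SA.1 ha).2]
    rw [h2, ← mul_assoc] at h1
    exact (Nat.eq_of_mul_eq_mul_right he h1).symm
  have hex : ∃ a ∈ SA (Sup f) w e, n * (E + 1) ≤ q a := by
    by_contra hcon
    push Not at hcon
    have h1 : ∑ a ∈ SA (Sup f) w e, q a ≤ (SA (Sup f) w e).card • (n * (E + 1)) :=
      Finset.sum_le_card_nsmul _ _ _ fun a ha => (hcon a ha).le
    rw [hsum, smul_eq_mul] at h1
    have h2 : n * ((SA (Sup f) w e).card * (E + 1)) ≤ n * k := Nat.mul_le_mul_left n hk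
    have h3 : (SA (Sup f) w e).card * (n * (E + 1)) = n * ((SA (Sup f) w e).card * (E + 1)) := by
      ring
    have h4 : n * (k + 1) = n * k + n := by ring
    omega
  obtain ⟨a, ha, hqa⟩ := hex
  obtain ⟨b', hb', hbb⟩ := cone_div hn hq ha hqa
  have hcard : 1 ≤ (SA (Sup f) w e).card := Finset.card_pos.2 ⟨a, ha⟩
  have hkE : E + 1 ≤ k := by
    calc E + 1 = 1 * (E + 1) := (one_mul _).symm
      _ ≤ (SA (Sup f) w e).card * (E + 1) := Nat.mul_le_mul_right _ hcard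
      _ ≤ k := hk
  have hwb' : wd w b' = (k - E) * e := by
    have h1 := hwb
    rw [hbb, wd_add, wd_nsmul, (mem_SA.1 ha).2] at h1
    have h2 : (k + 1) * e = (E + 1) * e + (k - E) * e := by
      rw [← add_mul]
      congr 1
      omega
    omega
  have hb'L : monomial b' (1 : ℂ) ∈ LK (SA (Sup f) w e) w e (k - E) := monomial_mem_LK hb' hwb' 1
  have hprod : monomial b (1 : ℂ) = monomial ((E + 1) • a) (1 : ℂ) * monomial b' (1 : ℂ) := by
    rw [monomial_mul, one_mul, ← hbb]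
  obtain ⟨y, hy, z, hz, hyz⟩ := Submodule.mem_sup.1 (hE a ha)
  obtain ⟨g', hg', hgz⟩ := Submodule.mem_map.1 hz
  rw [hprod, ← hyz, add_mul]
  refine Submodule.add_mem_sup ?_ ?_
  · have h1 := mul_mem_UK hb'L hy
    have h2 : k - E + (E + 1) = k + 1 := by omega
    rw [h2, mul_comm] at h1
    exact h1
  · have h1 := mul_mem_LK hg' hb'L
    have h2 : E + (k - E) = k := by omega
    rw [h2] at h1
    refine Submodule.mem_map.2 ⟨g' * monomial b' (1 : ℂ), h1, ?_⟩
    rw [← hgz, LinearMap.mulLeft_apply, LinearMap.mulLeft_apply, mul_assoc]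

end NC
end MotMono
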