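import Mathlib

/-!
# NC-K6a: a surjection between spaces of nonincreasing dimension is eventually injective

PROOF. `d k := finrank (L k) - finrank (U k) = finrank (L k ⧸ U k)`. For `k ≥ k₁`: `L (k+1) = U (k+1) + T (L k)` and `T (U k) ≤ U (k+1)`, so `T` induces a surjection `L k ⧸ U k → L (k+1) ⧸ U (k+1)` and `d (k+1) ≤ d k`. A nonincreasing sequence of natural numbers is eventually constant: `d k = d k₂` for `k ≥ k₂ ≥ k₁`. A surjective linear map between finite-dimensional spaces of the same dimension is injective (`LinearMap.injective_iff_surjective_of_finrank_eq_finrank`).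
-/

namespace MotMono
namespace NC

theorem stab {V : Type*} [AddCommGroup V] [Module ℂ V] (L U : ℕ → Submodule ℂ V) (T : V →ₗ[ℂ] V)
    (hfin : ∀ k, Module.Finite ℂ (L k)) (hU : ∀ k, U k ≤ L k)
    (hTL : ∀ k, ∀ x ∈ L k, T x ∈ L (k + 1)) (hTU : ∀ k, ∀ x ∈ U k, T x ∈ U (k + 1)) (k₁ : ℕ)
    (h : ∀ k, k₁ ≤ k → L (k + 1) ≤ U (k + 1) ⊔ (L k).map T) :
    ∃ k₂, ∀ k, k₂ ≤ k → ∀ x ∈ L k, T x ∈ U (k + 1) → x ∈ U k := by
  classical
  have hcomap : ∀ k, (U k).comap (L k).subtype ≤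
      ((U (k + 1)).comap (L (k + 1)).subtype).comap (T.restrict (hTL k)) := by
    intro k x hx
    simp only [Submodule.mem_comap, Submodule.subtype_apply] at hx ⊢
    exact hTU k _ hx
  have F : ∀ k, ∃ f : (L k ⧸ (U k).comap (L k).subtype) →ₗ[ℂ]
      (L (k + 1) ⧸ (U (k + 1)).comap (L (k + 1)).subtype),
      ∀ x : L k, f (Submodule.Quotient.mk x) =
        Submodule.Quotient.mk (⟨T x, hTL k _ x.2⟩ : L (k + 1)) :=
    fun k => ⟨Submodule.mapQ _ _ (T.restrict (hTL k)) (hcomap k), fun x => rfl⟩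
  choose f hf using F
  have hsurj : ∀ k, k₁ ≤ k → Function.Surjective (f k) := by
    intro k hk y
    obtain ⟨y, rfl⟩ := Submodule.Quotient.mk_surjective _ y
    obtain ⟨u, hu, t, ht, hut⟩ := Submodule.mem_sup.1 (h k hk y.2)
    obtain ⟨x, hx, rfl⟩ := Submodule.mem_map.1 ht
    refine ⟨Submodule.Quotient.mk ⟨x, hx⟩, ?_⟩
    rw [hf k ⟨x, hx⟩, Submodule.Quotient.eq]
    simp only [Submodule.mem_comap, Submodule.subtype_apply, AddSubgroupClass.coe_sub]
    have : T x - (y : V) = - u := by rw [← hut]; abel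
    rw [this]
    exact (U (k + 1)).neg_mem hu
  let d : ℕ → ℕ := fun k => Module.finrank ℂ (L k ⧸ (U k).comap (L k).subtype)
  have hd1 : ∀ k, k₁ ≤ k → d (k + 1) ≤ d k := by
    intro k hk
    have h1 := LinearMap.finrank_range_le (f k)
    rw [LinearMap.range_eq_top.2 (hsurj k hk), finrank_top] at h1
    exact h1
  have hex : ∃ m, ∃ k, k₁ ≤ k ∧ d k = m := ⟨d k₁, k₁, le_rfl, rfl⟩
  obtain ⟨k₂, hk₂, hdk₂⟩ := Nat.find_spec hex
  have hmin : ∀ k, k₁ ≤ k → d k₂ ≤ d k := by
    intro k hk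
    rw [hdk₂]
    exact Nat.find_min' hex ⟨k, hk, rfl⟩
  have hle : ∀ n, d (k₂ + n) ≤ d k₂ := by
    intro n
    induction n with
    | zero => exact le_rfl
    | succ n ih => exact le_trans (hd1 (k₂ + n) (by omega)) ih
  refine ⟨k₂, fun k hk x hx hTx => ?_⟩
  have hk1 : k₁ ≤ k := le_trans hk₂ hk
  have e1 : d k = d k₂ := by
    apply le_antisymm _ (hmin k hk1)
    have := hle (k - k₂)
    rwa [Nat.add_sub_cancel' hk] at this
  have e2 : d (k + 1) = d k₂ := by
    apply le_antisymm _ (hmin (k + 1) (by omega))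
    have := hle (k + 1 - k₂)
    rwa [Nat.add_sub_cancel' (by omega)] at this
  have e3 : Module.finrank ℂ (L k ⧸ (U k).comap (L k).subtype) =
      Module.finrank ℂ (L (k + 1) ⧸ (U (k + 1)).comap (L (k + 1)).subtype) := by
    exact e1.trans e2.symm
  have hinj : Function.Injective (f k) :=
    (LinearMap.injective_iff_surjective_of_finrank_eq_finrank e3).2 (hsurj k hk1)
  have h0 : f k (Submodule.Quotient.mk ⟨x, hx⟩) = 0 := by
    rw [hf k ⟨x, hx⟩, Submodule.Quotient.mk_eq_zero]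
    exact hTx
  have h1 := (injective_iff_map_eq_zero (f k)).1 hinj _ h0
  rw [Submodule.Quotient.mk_eq_zero] at h1
  exact h1

end NC
end MotMono
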