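import Pool.Agent.Lib.MP_4e5fcd_ag.NC.K5
import Pool.Agent.Lib.MP_4e5fcd_ag.NC.K6a

/-!
# NC-K6: multiplication by monomials is injective modulo `U_k` for large `k`

PROOF. For each `a₀ ∈ A` `stab` (K6a) with `L k = LK A w e k`, `U k = UK F univ A w e k`, `T` = multiplication by `monomial a₀ 1`: hypotheses `finite_LK`, `UK_le` and `ip_mem_LK`, `mul_mem_LK`, `mul_mem_UK` (`monomial a₀ 1 ∈ L_1`; `1 + k = k + 1`), `gen` (K5). It gives `k₂ (a₀)`; `k₂` := the maximum over the finite set `A` (`inj_one`).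
`inj_sum`: induction on `∑ q a` (or on the finite sum): multiply by one `x ^ a` at a time; the intermediate product `monomial (∑ q' a • a) 1 * h` is in `L_(k + ∑ q')` (`mul_mem_LK`).
-/

open MvPolynomial

namespace MotMono
namespace NC

open WH

variable {N r : ℕ}

theorem inj_one {f : Fin r → MvPolynomial (Fin N) ℂ} (hr : r + 1 = N) (hf : Nondeg f)
    {w : Fin N → ℕ} {e : ℕ} (hF : Fac (Sup f) w e) (hw : ∀ i, 0 < w i) :
    ∃ k₂ : ℕ, ∀ k, k₂ ≤ k → ∀ a ∈ SA (Sup f) w e, ∀ h ∈ LK (SA (Sup f) w e) w e k,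
      monomial a (1 : ℂ) * h ∈ UK (ip f w e) Finset.univ (SA (Sup f) w e) w e (k + 1) →
        h ∈ UK (ip f w e) Finset.univ (SA (Sup f) w e) w e k := by
  classical
  have key : ∀ a ∈ SA (Sup f) w e, ∃ k₂ : ℕ, ∀ k, k₂ ≤ k → ∀ h ∈ LK (SA (Sup f) w e) w e k,
      monomial a (1 : ℂ) * h ∈ UK (ip f w e) Finset.univ (SA (Sup f) w e) w e (k + 1) →
        h ∈ UK (ip f w e) Finset.univ (SA (Sup f) w e) w e k := by
    intro a ha
    obtain ⟨k₁, hk₁⟩ := gen hr hf hF hw ha
    have hmon : monomial a (1 : ℂ) ∈ LK (SA (Sup f) w e) w e 1 :=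
      monomial_mem_LK (cone_of_mem ha) (by rw [(mem_SA.1 ha).2, one_mul]) _
    obtain ⟨k₂, hk₂⟩ := stab (LK (SA (Sup f) w e) w e)
      (UK (ip f w e) Finset.univ (SA (Sup f) w e) w e)
      (LinearMap.mulLeft ℂ (monomial a (1 : ℂ)))
      (fun k => finite_LK (SA (Sup f) w e) hw e k)
      (fun k => UK_le (fun j _ => ip_mem_LK f w e j) k)
      (fun k x hx => by
        have h1 := mul_mem_LK hmon hx
        rw [add_comm] at h1
        exact h1)
      (fun k x hx => by
        have h1 := mul_mem_UK (F := ip f w e) (J := Finset.univ) hmon hx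
        rw [add_comm] at h1
        exact h1)
      k₁ hk₁
    exact ⟨k₂, fun k hk h hh hm => hk₂ k hk h hh hm⟩
  choose! g hg using key
  exact ⟨(SA (Sup f) w e).sup g, fun k hk a ha h hh hm =>
    hg a ha k ((Finset.le_sup ha).trans hk) h hh hm⟩

theorem inj_sum {f : Fin r → MvPolynomial (Fin N) ℂ} (hr : r + 1 = N) (hf : Nondeg f)
    {w : Fin N → ℕ} {e : ℕ} (hF : Fac (Sup f) w e) (hw : ∀ i, 0 < w i) :
    ∃ k₂ : ℕ, ∀ k, k₂ ≤ k → ∀ q : (Fin N →₀ ℕ) → ℕ, ∀ h ∈ LK (SA (Sup f) w e) w e k,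
      monomial (∑ a ∈ SA (Sup f) w e, q a • a) (1 : ℂ) * h ∈
        UK (ip f w e) Finset.univ (SA (Sup f) w e) w e (k + ∑ a ∈ SA (Sup f) w e, q a) →
        h ∈ UK (ip f w e) Finset.univ (SA (Sup f) w e) w e k := by
  classical
  obtain ⟨k₂, hk₂⟩ := inj_one hr hf hF hw
  refine ⟨k₂, fun k hk q h hh hm => ?_⟩
  have key : ∀ (n : ℕ) (q : (Fin N →₀ ℕ) → ℕ), ∑ a ∈ SA (Sup f) w e, q a = n →
      monomial (∑ a ∈ SA (Sup f) w e, q a • a) (1 : ℂ) * h ∈
        UK (ip f w e) Finset.univ (SA (Sup f) w e) w e (k + n) →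
        h ∈ UK (ip f w e) Finset.univ (SA (Sup f) w e) w e k := by
    intro n
    induction n with
    | zero =>
      intro q hq hm
      have h0 : ∑ a ∈ SA (Sup f) w e, q a • a = 0 := by
        refine Finset.sum_eq_zero fun a ha => ?_
        rw [(Finset.sum_eq_zero_iff.1 hq) a ha, zero_smul]
      rw [h0, add_zero] at hm
      have h1 : monomial (0 : Fin N →₀ ℕ) (1 : ℂ) = 1 := rfl
      rw [h1, one_mul] at hm
      exact hm
    | succ n ih =>
      intro q hq hm
      obtain ⟨a₀, ha₀, hpos⟩ : ∃ a₀ ∈ SA (Sup f) w e, q a₀ ≠ 0 := by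
        by_contra hcon
        push Not at hcon
        rw [Finset.sum_eq_zero hcon] at hq
        omega
      set q' : (Fin N →₀ ℕ) → ℕ := fun a => if a = a₀ then q a₀ - 1 else q a with hq'
      have e1 : ∑ a ∈ (SA (Sup f) w e).erase a₀, q' a =
          ∑ a ∈ (SA (Sup f) w e).erase a₀, q a :=
        Finset.sum_congr rfl fun a h => by
          simp only [hq']
          rw [if_neg (Finset.ne_of_mem_erase h)]
      have e2 : ∑ a ∈ (SA (Sup f) w e).erase a₀, q' a • a =
          ∑ a ∈ (SA (Sup f) w e).erase a₀, q a • a :=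
        Finset.sum_congr rfl fun a h => by
          simp only [hq']
          rw [if_neg (Finset.ne_of_mem_erase h)]
      have e3 : q' a₀ = q a₀ - 1 := by simp only [hq', if_pos rfl]
      have hq'n : ∑ a ∈ SA (Sup f) w e, q' a = n := by
        have h1 := Finset.add_sum_erase (SA (Sup f) w e) q ha₀
        have h2 := Finset.add_sum_erase (SA (Sup f) w e) q' ha₀
        rw [e1, e3] at h2
        omega
      have hsum : ∑ a ∈ SA (Sup f) w e, q a • a = a₀ + ∑ a ∈ SA (Sup f) w e, q' a • a := by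
        have h1 := Finset.add_sum_erase (SA (Sup f) w e) (fun a => q a • a) ha₀
        have h2 := Finset.add_sum_erase (SA (Sup f) w e) (fun a => q' a • a) ha₀
        rw [← h1, ← h2, ← add_assoc, e2]
        congr 1
        rw [e3]
        have h3 : q a₀ = 1 + (q a₀ - 1) := by omega
        conv_lhs => rw [h3, add_smul, one_smul]
      have hmul : monomial (∑ a ∈ SA (Sup f) w e, q a • a) (1 : ℂ) * h =
          monomial a₀ (1 : ℂ) * (monomial (∑ a ∈ SA (Sup f) w e, q' a • a) (1 : ℂ) * h) := by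
        rw [hsum, ← mul_assoc, monomial_mul, one_mul]
      have hL : monomial (∑ a ∈ SA (Sup f) w e, q' a • a) (1 : ℂ) * h ∈
          LK (SA (Sup f) w e) w e (k + n) := by
        have h1 : monomial (∑ a ∈ SA (Sup f) w e, q' a • a) (1 : ℂ) ∈
            LK (SA (Sup f) w e) w e n := by
          refine monomial_mem_LK (cone_sumq _ _) ?_ _
          rw [wd_sumq, ← hq'n, Finset.sum_mul]
          exact Finset.sum_congr rfl fun a ha => by rw [(mem_SA.1 ha).2]
        have h2 := mul_mem_LK h1 hh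
        rw [add_comm] at h2
        exact h2
      rw [hmul, ← add_assoc] at hm
      exact ih q' hq'n (hk₂ (k + n) (by omega) a₀ ha₀ _ hL hm)
  exact key _ q rfl hm

end NC
end MotMono
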