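import Pool.Agent.Lib.MP_4e5fcd_ag.NC.K7b
import Pool.Agent.Lib.MP_4e5fcd_ag.NC.K6

/-!
# NC-K7: the kernel of the restriction to the slice

PROOF. `k₂` from `inj_sum` (K6), take `max k₂ 1`. Let `k ≥ 1`, `k = k' + 1`, `h ∈ L_k`, `io h ∈ IB`. `proj` (K7a): `io h = ∑ io (F j) * Q j`, `Q j` of weight `k' e`. `lift_poly` (K7b) with one `n` for all `j : Fin r`: `io (monomial (∑ n • a) 1) * Q j = io (g j)`, `g j ∈ L_(k' + n s)`. So `io (monomial (∑ n • a) 1 * h) = io (∑ F j * g j)`, and `monomial (∑ n • a) 1 * h = ∑ F j * g j` (`io_injective`) is in `U_(k' + n s + 1)`. `inj_sum` with `q = fun _ => n`: `k + ∑ q a = k' + 1 + n s` (`Finset.sum_const`, `smul_eq_mul`).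
-/

open MvPolynomial

namespace MotMono
namespace NC

open WH

variable {N r : ℕ}

theorem ker_slice {f : Fin r → MvPolynomial (Fin N) ℂ} (hr : r + 1 = N) (hf : Nondeg f)
    {w : Fin N → ℕ} {e : ℕ} (hF : Fac (Sup f) w e) (hw : ∀ i, 0 < w i) {u : Fin N → ℤ}
    (hu : ∑ i, u i * (w i : ℤ) = 1) :
    ∃ k₂ : ℕ, ∀ k, k₂ ≤ k → ∀ h ∈ LK (SA (Sup f) w e) w e k, io N h ∈ IB f w e u →
      h ∈ UK (ip f w e) Finset.univ (SA (Sup f) w e) w e k := by
  classical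
  obtain ⟨k₂, hk₂⟩ := inj_sum hr hf hF hw
  refine ⟨max k₂ 1, fun k hk h hh hI => ?_⟩
  obtain ⟨k', rfl⟩ : ∃ k', k = k' + 1 := ⟨k - 1, by omega⟩
  obtain ⟨Q, hQ, hsum⟩ := proj hu hh hI
  have h1 : ∀ j : Fin r, ∃ n₀ : ℕ, ∀ n, n₀ ≤ n →
      ∃ g ∈ LK (SA (Sup f) w e) w e (k' + n * (SA (Sup f) w e).card),
        io N g = io N (monomial (∑ a ∈ SA (Sup f) w e, n • a) 1) * Q j := fun j =>
    lift_poly hF hw (Q j) (hQ j)
  choose n₀ hn₀ using h1
  set n : ℕ := Finset.univ.sup n₀ with hn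
  have h2 : ∀ j : Fin r, ∃ g ∈ LK (SA (Sup f) w e) w e (k' + n * (SA (Sup f) w e).card),
      io N g = io N (monomial (∑ a ∈ SA (Sup f) w e, n • a) 1) * Q j := fun j =>
    hn₀ j n (Finset.le_sup (Finset.mem_univ j))
  choose g hgL hg using h2
  have h3 : monomial (∑ a ∈ SA (Sup f) w e, n • a) (1 : ℂ) * h = ∑ j, ip f w e j * g j := by
    apply io_injective
    rw [map_mul, hsum, map_sum, Finset.mul_sum]
    refine Finset.sum_congr rfl fun j _ => ?_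
    rw [map_mul, hg j]
    ring
  refine hk₂ (k' + 1) (by omega) (fun _ => n) h hh ?_
  have h4 : k' + 1 + ∑ _a ∈ SA (Sup f) w e, n = (k' + n * (SA (Sup f) w e).card) + 1 := by
    rw [Finset.sum_const, smul_eq_mul]
    ring
  rw [h4, h3]
  change _ ∈ AJ (ip f w e) Finset.univ (LK (SA (Sup f) w e) w e (k' + n * (SA (Sup f) w e).card))
  exact Submodule.sum_mem _ fun j _ => mul_mem_AJ (Finset.mem_univ j) (hgL j)

end NC
end MotMono
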