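import Pool.Agent.Lib.MP_4e5fcd_ag.NC.K0

/-!
# NC-K7a: the ideal of the slice and homogeneous elements

PROOF. `io N (monomial b c) = single (fun i => (b i : ℤ)) c` (`io_monomial`: `aeval_monomial`, product of powers of `single (Pi.single i 1) 1`), `io` is injective (`b ↦ (b i : ℤ)` is injective: compare coefficients; `io_injective`). `coeff_io`: the coefficient of `io N g` at `l` is `coeff b g` if `l i = (b i : ℤ)` for all `i`, and `0` if some `l i < 0`.
For `κ : ℤ` let `π κ : LR N →ₗ[ℂ] LR N`, `single b c ↦ single (b + (κ - w·b) • u) c`, `w·b = ∑ b i * w i` (`AddMonoidAlgebra.mapDomain`, or `Finsupp.lmapDomain` transported). Since `w·u = 1` (`hu`): all exponents in the image of `π κ` have weight `κ`; `π κ (x * single u 1) = π κ x` (on `single b c`: `b + u + (κ - w·b - 1) • u = b + (κ - w·b) • u`); `π κ (io (ip f w e j) * x) = io (ip f w e j) * π (κ - e) x` (on monomials: the exponents `a` of `ip f w e j` have `w·a = e`, `mem_support_ip`; `a + b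 + (κ - e - w·b) • u`); `π ((k + 1) e) (io h) = io h` for `h ∈ L_(k+1)`.
`io h ∈ IB`: `io h = ∑_j io (ip f w e j) * q_j + (single u 1 - 1) * p` (`Ideal.span` of a union, `Submodule.mem_sup`, `Ideal.mem_span_singleton`, `Ideal.mem_span_range_iff_exists_fun`). Apply `π ((k + 1) e)`: `io h = ∑_j io (ip f w e j) * π (k e) q_j`; `Q j := π (k e) (q j)`.
-/

open MvPolynomial

namespace MotMono
namespace NC

open WH

variable {N r : ℕ}

/-- the exponents as integers -/
private def ka_hom (N : ℕ) : (Fin N →₀ ℕ) →+ (Fin N → ℤ) where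
  toFun b := fun i => (b i : ℤ)
  map_zero' := by
    ext i
    simp
  map_add' := by
    intro a b
    ext i
    simp

private theorem ka_inj (N : ℕ) : Function.Injective (ka_hom N) := by
  intro a b h
  ext i
  have h1 : ((a i : ℕ) : ℤ) = (b i : ℕ) := congrFun h i
  exact_mod_cast h1

private theorem ka_io : io N = AddMonoidAlgebra.mapDomainAlgHom ℂ ℂ (ka_hom N) := by
  apply MvPolynomial.algHom_ext
  intro i
  unfold io
  rw [aeval_X]
  show _ = AddMonoidAlgebra.mapDomain (ka_hom N) (AddMonoidAlgebra.single (Finsupp.single i 1) 1)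
  rw [AddMonoidAlgebra.mapDomain_single]
  congr 1
  ext k
  show _ = ((Finsupp.single i 1 k : ℕ) : ℤ)
  rw [Finsupp.single_apply, Pi.single_apply]
  by_cases h : i = k
  · subst h
    simp
  · rw [if_neg h, if_neg (fun h' => h h'.symm)]
    rfl

theorem io_monomial (b : Fin N →₀ ℕ) (c : ℂ) :
    io N (monomial b c) = AddMonoidAlgebra.single (fun i => (b i : ℤ)) c := by
  rw [ka_io]
  show AddMonoidAlgebra.mapDomain (ka_hom N) (AddMonoidAlgebra.single b c) = _
  rw [AddMonoidAlgebra.mapDomain_single]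
  rfl

theorem io_injective : Function.Injective (io N) := by
  intro a b h
  rw [ka_io] at h
  exact AddMonoidAlgebra.mapDomain_injective (ka_inj N) h

/-- the projection to the weight `κ` -/
private noncomputable def ka_pi (w : Fin N → ℕ) (u : Fin N → ℤ) (κ : ℤ) : LR N →ₗ[ℂ] LR N :=
  AddMonoidAlgebra.mapDomainLinearMap ℂ ℂ fun b => b + (κ - ∑ i, b i * (w i : ℤ)) • u

private theorem ka_single (w : Fin N → ℕ) (u : Fin N → ℤ) (κ : ℤ) (b : Fin N → ℤ) (c : ℂ) :
    ka_pi w u κ (AddMonoidAlgebra.single b c) =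
      AddMonoidAlgebra.single (b + (κ - ∑ i, b i * (w i : ℤ)) • u) c :=
  AddMonoidAlgebra.mapDomainLinearMap_single _ _ _

private theorem ka_wt {w : Fin N → ℕ} {u : Fin N → ℤ} (hu : ∑ i, u i * (w i : ℤ) = 1) (κ : ℤ)
    (x : LR N) (l : Fin N → ℤ) (hl : l ∈ (ka_pi w u κ x).coeff.support) :
    ∑ i, l i * (w i : ℤ) = κ := by
  classical
  have h1 : (ka_pi w u κ x).coeff = x.coeff.mapDomain fun b => b + (κ - ∑ i, b i * (w i : ℤ)) • u :=
    AddMonoidAlgebra.coeff_mapDomainLinearMap _ _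
  rw [h1] at hl
  obtain ⟨b, _, rfl⟩ := Finset.mem_image.1 (Finsupp.mapDomain_support hl)
  have h2 : ∀ i, (b + (κ - ∑ i, b i * (w i : ℤ)) • u) i * (w i : ℤ) =
      b i * (w i : ℤ) + (κ - ∑ i, b i * (w i : ℤ)) * (u i * (w i : ℤ)) := by
    intro i
    simp only [Pi.add_apply, Pi.smul_apply, smul_eq_mul]
    ring
  rw [Finset.sum_congr rfl fun i _ => h2 i, Finset.sum_add_distrib, ← Finset.mul_sum, hu]
  ring

private theorem ka_u {w : Fin N → ℕ} {u : Fin N → ℤ} (hu : ∑ i, u i * (w i : ℤ) = 1) (κ : ℤ)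
    (x : LR N) : ka_pi w u κ (x * AddMonoidAlgebra.single u 1) = ka_pi w u κ x := by
  have h : (ka_pi w u κ).comp (LinearMap.mulRight ℂ (AddMonoidAlgebra.single u 1)) = ka_pi w u κ := by
    refine AddMonoidAlgebra.lhom_ext' fun b => LinearMap.ext fun c => ?_
    show ka_pi w u κ (AddMonoidAlgebra.single b c * AddMonoidAlgebra.single u 1) =
      ka_pi w u κ (AddMonoidAlgebra.single b c)
    rw [AddMonoidAlgebra.single_mul_single, ka_single, ka_single, mul_one]
    congr 1
    have h2 : ∑ i, (b + u) i * (w i : ℤ) = ∑ i, b i * (w i : ℤ) + 1 := by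
      simp only [Pi.add_apply, add_mul, Finset.sum_add_distrib, hu]
    rw [h2]
    ext i
    simp only [Pi.add_apply, Pi.smul_apply, smul_eq_mul]
    ring
  exact LinearMap.congr_fun h x

private theorem ka_mul {w : Fin N → ℕ} {u : Fin N → ℤ} (κ : ℤ) (a : Fin N → ℤ) (c : ℂ) (e : ℤ)
    (ha : ∑ i, a i * (w i : ℤ) = e) (x : LR N) :
    ka_pi w u κ (AddMonoidAlgebra.single a c * x) = AddMonoidAlgebra.single a c * ka_pi w u (κ - e) x := by
  have h : (ka_pi w u κ).comp (LinearMap.mulLeft ℂ (AddMonoidAlgebra.single a c)) =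
      (LinearMap.mulLeft ℂ (AddMonoidAlgebra.single a c)).comp (ka_pi w u (κ - e)) := by
    refine AddMonoidAlgebra.lhom_ext' fun b => LinearMap.ext fun d => ?_
    show ka_pi w u κ (AddMonoidAlgebra.single a c * AddMonoidAlgebra.single b d) =
      AddMonoidAlgebra.single a c * ka_pi w u (κ - e) (AddMonoidAlgebra.single b d)
    rw [AddMonoidAlgebra.single_mul_single, ka_single, ka_single, AddMonoidAlgebra.single_mul_single]
    congr 1
    have h2 : ∑ i, (a + b) i * (w i : ℤ) = e + ∑ i, b i * (w i : ℤ) := by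
      simp only [Pi.add_apply, add_mul, Finset.sum_add_distrib, ha]
    rw [h2]
    ext i
    simp only [Pi.add_apply, Pi.smul_apply, smul_eq_mul]
    ring
  exact LinearMap.congr_fun h x

private theorem ka_wd (w : Fin N → ℕ) (b : Fin N →₀ ℕ) :
    ∑ i, ((b i : ℕ) : ℤ) * (w i : ℤ) = (wd w b : ℤ) := by
  unfold wd
  push_cast
  rfl

private theorem ka_ip (f : Fin r → MvPolynomial (Fin N) ℂ) (w : Fin N → ℕ) (e : ℕ) (u : Fin N → ℤ)
    (j : Fin r) (κ : ℤ) (x : LR N) :
    ka_pi w u κ (io N (ip f w e j) * x) = io N (ip f w e j) * ka_pi w u (κ - e) x := by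
  rw [ip_eq_sum, map_sum, Finset.sum_mul, Finset.sum_mul, map_sum]
  refine Finset.sum_congr rfl fun a ha => ?_
  rw [io_monomial]
  refine ka_mul κ _ _ (e : ℤ) ?_ x
  rw [ka_wd, (mem_SA.1 ha).2]

private theorem ka_fix {A : Finset (Fin N →₀ ℕ)} {w : Fin N → ℕ} {e k : ℕ} (u : Fin N → ℤ)
    {h : MvPolynomial (Fin N) ℂ} (hh : h ∈ LK A w e k) :
    ka_pi w u ((k : ℤ) * e) (io N h) = io N h := by
  have h1 := mem_LK.1 hh
  rw [h.as_sum, map_sum, map_sum]
  refine Finset.sum_congr rfl fun b hb => ?_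
  rw [io_monomial, ka_single, ka_wd, (h1 b hb).2]
  congr 1
  push_cast
  rw [sub_self, zero_smul, add_zero]

theorem proj {f : Fin r → MvPolynomial (Fin N) ℂ} {w : Fin N → ℕ} {e : ℕ} {u : Fin N → ℤ}
    (hu : ∑ i, u i * (w i : ℤ) = 1) {k : ℕ} {h : MvPolynomial (Fin N) ℂ}
    (hh : h ∈ LK (SA (Sup f) w e) w e (k + 1)) (hI : io N h ∈ IB f w e u) :
    ∃ Q : Fin r → LR N, (∀ j, ∀ l ∈ (Q j).coeff.support, ∑ i, l i * (w i : ℤ) = k * e) ∧
      io N h = ∑ j, io N (ip f w e j) * Q j := by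
  unfold IB at hI
  rw [Ideal.span_union] at hI
  obtain ⟨y, hy, z, hz, hyz⟩ := Submodule.mem_sup.1 hI
  obtain ⟨q, hq⟩ := Ideal.mem_span_range_iff_exists_fun.1 hy
  obtain ⟨p, hp⟩ := Ideal.mem_span_singleton'.1 hz
  refine ⟨fun j => ka_pi w u ((k : ℤ) * e) (q j), fun j l hl => ka_wt hu _ _ l hl, ?_⟩
  have h1 := ka_fix u hh
  rw [← h1]
  conv_lhs => rw [← hyz, ← hq, ← hp]
  rw [map_add, mul_sub, mul_one, map_sub, ka_u hu, sub_self, add_zero, map_sum]
  refine Finset.sum_congr rfl fun j _ => ?_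
  rw [mul_comm (q j), ka_ip]
  congr 2
  push_cast
  ring_nf

end NC
end MotMono
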