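import Pool.Agent.Lib.MP_4e5fcd_ag.NC.K7a

/-!
# NC-K7b: Laurent polynomials are quotients of elements of the graded pieces

PROOF. `A := SA S w e`, `s := #A`.
* `lift_exp`: `exists_basis` (FB.lean): `A` contains `N` linearly independent vectors `D l'`, a basis of `ℚ^N`; so `l = ∑ ρ_a a` with rational `ρ_a`, `a ∈ A`. Let `n₀ ≥ |ρ_a|` for all `a`. For `n ≥ n₀`: `l + n ∑ a = ∑ (ρ_a + n) a` with rational coefficients `≥ 0`; so the coordinates are `≥ 0` and there is `b : Fin N →₀ ℕ` with these coordinates; with `m > 0` a common denominator of the `ρ_a`, `m • b = ∑ q a • a`, `q a = m (ρ_a + n) ∈ ℕ`: `Cone A b`. Weight: `w·l + n ∑ e = k e + n s e`.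
* `lift_poly`: the maximum `n₀` of the `n₀` of the finitely many exponents `l` of `Q`; `g := ∑_l monomial b_l (Q.coeff l)`; `io_monomial`, `AddMonoidAlgebra.single_mul_single`.
-/

open MvPolynomial

namespace MotMono
namespace NC

open WH

variable {N r : ℕ}

private theorem k7b_den (c : Fin N → ℚ) : ∃ (m : ℕ) (z : Fin N → ℤ), 0 < m ∧
    ∀ t, (m : ℚ) * c t = z t := by
  classical
  refine ⟨∏ t, (c t).den, fun t => (c t).num * ((∏ t, (c t).den) / (c t).den : ℕ),
    Finset.prod_pos fun t _ => (c t).den_pos, fun t => ?_⟩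
  obtain ⟨d, hd⟩ := Finset.dvd_prod_of_mem (fun t => (c t).den) (Finset.mem_univ t)
  dsimp only at hd ⊢
  rw [hd, Nat.mul_div_cancel_left _ (c t).den_pos]
  push_cast
  have h1 : c t * (c t).den = (c t).num := Rat.mul_den_eq_num (c t)
  rw [← h1]
  ring

theorem lift_exp {S : Finset (Fin N →₀ ℕ)} {w : Fin N → ℕ} {e : ℕ} (hF : Fac S w e)
    (hw : ∀ i, 0 < w i) {k : ℕ} (l : Fin N → ℤ) (hl : ∑ i, l i * (w i : ℤ) = k * e) :
    ∃ n₀ : ℕ, ∀ n, n₀ ≤ n → ∃ b : Fin N →₀ ℕ, Cone (SA S w e) b ∧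
      wd w b = (k + n * (SA S w e).card) * e ∧
        ∀ i, (b i : ℤ) = l i + n * ∑ a ∈ SA S w e, (a i : ℤ) := by
  classical
  obtain ⟨D, hD, hli⟩ := exists_basis hF hw
  have hDA : ∀ t, D t ∈ SA S w e := fun t => mem_SA.2 (hD t)
  have hspan : Submodule.span ℚ (Set.range (fun l => fun i => ((D l i : ℕ) : ℚ))) = ⊤ :=
    hli.span_eq_top_of_card_eq_finrank' (by simp)
  have hmem : (fun i => (l i : ℚ)) ∈
      Submodule.span ℚ (Set.range (fun l => fun i => ((D l i : ℕ) : ℚ))) := by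
    rw [hspan]
    exact Submodule.mem_top
  obtain ⟨c, hc⟩ := (Submodule.mem_span_range_iff_exists_fun ℚ).1 hmem
  obtain ⟨m, z, hm, hz⟩ := k7b_den c
  have key : ∀ i, (m : ℤ) * l i = ∑ t, z t * (D t i : ℤ) := by
    intro i
    have h1 : (l i : ℚ) = ∑ t, c t * (D t i : ℚ) := by
      have h2 := congrFun hc i
      rw [Finset.sum_apply] at h2
      rw [← h2]
      exact Finset.sum_congr rfl fun t _ => by rw [Pi.smul_apply, smul_eq_mul]
    have h3 : ((m : ℤ) * l i : ℚ) = ((∑ t, z t * (D t i : ℤ) : ℤ) : ℚ) := by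
      push_cast
      rw [h1, Finset.mul_sum]
      refine Finset.sum_congr rfl fun t _ => ?_
      rw [← hz t]
      ring
    exact_mod_cast h3
  let z' : (Fin N →₀ ℕ) → ℤ := fun a => ∑ t, if D t = a then z t else 0
  have hz' : ∀ i, ∑ a ∈ SA S w e, z' a * (a i : ℤ) = ∑ t, z t * (D t i : ℤ) := by
    intro i
    have h1 : ∀ a ∈ SA S w e, z' a * (a i : ℤ) =
        ∑ t, if D t = a then z t * (a i : ℤ) else 0 := by
      intro a _
      change (∑ t, if D t = a then z t else 0) * (a i : ℤ) = _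
      rw [Finset.sum_mul]
      refine Finset.sum_congr rfl fun t _ => ?_
      split_ifs
      · rfl
      · rw [zero_mul]
    rw [Finset.sum_congr rfl h1, Finset.sum_comm]
    refine Finset.sum_congr rfl fun t _ => ?_
    rw [Finset.sum_ite_eq]
    rw [if_pos (hDA t)]
  have hzb : ∀ a, -(∑ t, (z t).natAbs : ℕ) ≤ z' a := by
    intro a
    push_cast
    rw [← Finset.sum_neg_distrib]
    refine Finset.sum_le_sum fun t _ => ?_
    split_ifs
    · exact neg_abs_le (z t)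
    · exact neg_nonpos.2 (abs_nonneg (z t))
  refine ⟨∑ t, (z t).natAbs, fun n hn => ?_⟩
  have hq : ∀ a, 0 ≤ z' a + m * n := by
    intro a
    have h1 := hzb a
    have h2 : (n : ℤ) ≤ m * n := by
      have h3 : 1 * n ≤ m * n := Nat.mul_le_mul_right _ hm
      rw [one_mul] at h3
      exact_mod_cast h3
    have h3 : ((∑ t, (z t).natAbs : ℕ) : ℤ) ≤ n := by exact_mod_cast hn
    omega
  have hsum : ∀ i, (m : ℤ) * (l i + n * ∑ a ∈ SA S w e, (a i : ℤ)) =
      ∑ a ∈ SA S w e, (z' a + m * n) * (a i : ℤ) := by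
    intro i
    have h1 : ∑ a ∈ SA S w e, (z' a + m * n) * (a i : ℤ) =
        ∑ a ∈ SA S w e, z' a * (a i : ℤ) + m * n * ∑ a ∈ SA S w e, (a i : ℤ) := by
      rw [Finset.mul_sum, ← Finset.sum_add_distrib]
      exact Finset.sum_congr rfl fun a _ => by ring
    rw [h1, hz' i, ← key i]
    ring
  have hpos : ∀ i, 0 ≤ l i + n * ∑ a ∈ SA S w e, (a i : ℤ) := by
    intro i
    have h1 : 0 ≤ (m : ℤ) * (l i + n * ∑ a ∈ SA S w e, (a i : ℤ)) := by
      rw [hsum i]
      exact Finset.sum_nonneg fun a _ => mul_nonneg (hq a) (by positivity)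
    have h2 : (0 : ℤ) < m := by exact_mod_cast hm
    exact nonneg_of_mul_nonneg_right h1 h2
  let b : Fin N →₀ ℕ := Finsupp.equivFunOnFinite.symm
    fun i => (l i + n * ∑ a ∈ SA S w e, (a i : ℤ)).toNat
  have hb : ∀ i, (b i : ℤ) = l i + n * ∑ a ∈ SA S w e, (a i : ℤ) := by
    intro i
    exact Int.toNat_of_nonneg (hpos i)
  refine ⟨b, ⟨m, fun a => (z' a + m * n).toNat, hm, ?_⟩, ?_, hb⟩
  · ext i
    have h1 : ((m * b i : ℕ) : ℤ) =
        ((∑ a ∈ SA S w e, (z' a + m * n).toNat * a i : ℕ) : ℤ) := by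
      push_cast
      rw [hb i, hsum i]
      refine Finset.sum_congr rfl fun a _ => ?_
      rw [Int.toNat_of_nonneg (hq a)]
    rw [Finsupp.smul_apply, smul_eq_mul, Finsupp.finsetSum_apply]
    have h2 : m * b i = ∑ a ∈ SA S w e, (z' a + m * n).toNat * a i := by exact_mod_cast h1
    rw [h2]
    exact Finset.sum_congr rfl fun a _ => by rw [Finsupp.smul_apply, smul_eq_mul]
  · have h1 : ((wd w b : ℕ) : ℤ) = (((k + n * (SA S w e).card) * e : ℕ) : ℤ) := by
      unfold wd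
      push_cast
      have h2 : ∑ i, (b i : ℤ) * (w i : ℤ) =
          ∑ i, l i * (w i : ℤ) + n * ∑ a ∈ SA S w e, ∑ i, (a i : ℤ) * (w i : ℤ) := by
        rw [Finset.sum_comm, Finset.mul_sum, ← Finset.sum_add_distrib]
        refine Finset.sum_congr rfl fun i _ => ?_
        rw [hb i, add_mul, mul_assoc, Finset.sum_mul]
      have h3 : ∑ a ∈ SA S w e, ∑ i, (a i : ℤ) * (w i : ℤ) = (SA S w e).card * e := by
        have h4 : ∀ a ∈ SA S w e, ∑ i, (a i : ℤ) * (w i : ℤ) = e := by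
          intro a ha
          rw [← (mem_SA.1 ha).2]
          unfold wd
          push_cast
          rfl
        rw [Finset.sum_congr rfl h4, Finset.sum_const, nsmul_eq_mul]
      rw [h2, hl, h3]
      ring
    exact_mod_cast h1

theorem lift_poly {S : Finset (Fin N →₀ ℕ)} {w : Fin N → ℕ} {e : ℕ} (hF : Fac S w e)
    (hw : ∀ i, 0 < w i) {k : ℕ} (Q : LR N)
    (hQ : ∀ l ∈ Q.coeff.support, ∑ i, l i * (w i : ℤ) = k * e) :
    ∃ n₀ : ℕ, ∀ n, n₀ ≤ n → ∃ g ∈ LK (SA S w e) w e (k + n * (SA S w e).card),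
      io N g = io N (monomial (∑ a ∈ SA S w e, n • a) 1) * Q := by
  classical
  have h1 : ∀ l : Fin N → ℤ, ∃ n₀ : ℕ, ∑ i, l i * (w i : ℤ) = k * e → ∀ n, n₀ ≤ n →
      ∃ b : Fin N →₀ ℕ, Cone (SA S w e) b ∧ wd w b = (k + n * (SA S w e).card) * e ∧
        ∀ i, (b i : ℤ) = l i + n * ∑ a ∈ SA S w e, (a i : ℤ) := by
    intro l
    by_cases hl : ∑ i, l i * (w i : ℤ) = k * e
    · obtain ⟨n₀, hn₀⟩ := lift_exp hF hw l hl
      exact ⟨n₀, fun _ => hn₀⟩
    · exact ⟨0, fun h => absurd h hl⟩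
  choose n₀ hn₀ using h1
  refine ⟨Q.coeff.support.sup n₀, fun n hn => ?_⟩
  have h2 : ∀ l : Fin N → ℤ, ∃ b : Fin N →₀ ℕ, l ∈ Q.coeff.support → Cone (SA S w e) b ∧
      wd w b = (k + n * (SA S w e).card) * e ∧
        ∀ i, (b i : ℤ) = l i + n * ∑ a ∈ SA S w e, (a i : ℤ) := by
    intro l
    by_cases hl : l ∈ Q.coeff.support
    · obtain ⟨b, hb⟩ := hn₀ l (hQ l hl) n (le_trans (Finset.le_sup hl) hn)
      exact ⟨b, fun _ => hb⟩
    · exact ⟨0, fun h => absurd h hl⟩
  choose b hb using h2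
  refine ⟨∑ l ∈ Q.coeff.support, monomial (b l) (Q.coeff l), ?_, ?_⟩
  · refine Submodule.sum_mem _ fun l hl => ?_
    exact monomial_mem_LK (hb l hl).1 (hb l hl).2.1 _
  · have hQs : Q = ∑ l ∈ Q.coeff.support, AddMonoidAlgebra.single l (Q.coeff l) := by
      apply AddMonoidAlgebra.coeff_injective
      rw [AddMonoidAlgebra.coeff_sum]
      simp only [AddMonoidAlgebra.coeff_single]
      exact (Finsupp.sum_single _).symm
    conv_rhs => rw [hQs]
    rw [map_sum, Finset.mul_sum]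
    refine Finset.sum_congr rfl fun l hl => ?_
    rw [io_monomial, io_monomial, AddMonoidAlgebra.single_mul_single, one_mul]
    congr 1
    funext i
    rw [(hb l hl).2.2 i, Pi.add_apply, Finsupp.finsetSum_apply, add_comm, Finset.mul_sum]
    congr 1
    push_cast
    exact Finset.sum_congr rfl fun a _ => by
      rw [Pi.smul_apply, smul_eq_mul]
      push_cast
      rfl

end NC
end MotMono
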