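import Pool.Agent.Lib.MP_4e5fcd_ag.NC.K7a

/-!
# NC-K8: the algebra of the slice: its points

`B := LR N ⧸ IB f w e u`, of finite type over `ℂ` (`LR N` is: `AddMonoidAlgebra` of the finitely generated monoid `Fin N → ℤ`). PROOFS.
* `hom_of_VU`: the character `l ↦ ∏ z i ^ l i` of `ℤ^N` gives `LR N →ₐ[ℂ] ℂ` (`AddMonoidAlgebra.lift`); it sends `io N g` to `eval z g` (algebra homomorphisms which agree on `X i`), and `single u 1` to `mon univ u z = 1`; so it kills the generators of `IB`: `Ideal.Quotient.liftₐ`.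
* `VU_of_hom`: `z i := φ (mk (single (Pi.single i 1) 1))`, nonzero because `single (Pi.single i 1) 1` is a unit; `φ (mk (single l c)) = c * ∏ z i ^ l i` (`l = ∑ l i • Pi.single i 1`, homomorphism of groups `ℤ^N → ℂˣ`); so `eval z (ip f w e j) = φ (mk (io ..)) = φ 0 = 0`, `mon univ u z = φ (mk (single u 1)) = 1`.
-/

open MvPolynomial

namespace MotMono
namespace NC

open WH

variable {N r : ℕ}

theorem finiteType_LR (N : ℕ) : Algebra.FiniteType ℂ (LR N) := by
  have h : AddGroup.FG (Fin N → ℤ) := Module.Finite.iff_addGroup_fg.1 inferInstance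
  exact AddMonoidAlgebra.finiteType_iff_group_fg.2 h

/-- the character of a point -/
private noncomputable def k8chr (z : Fin N → ℂ) (hz : ∀ i, z i ≠ 0) : LR N →ₐ[ℂ] ℂ :=
  AddMonoidAlgebra.lift ℂ ℂ (Fin N → ℤ)
    { toFun := fun l => ∏ i, z i ^ (l.toAdd i)
      map_one' := by simp
      map_mul' := fun a b => by
        rw [← Finset.prod_mul_distrib]
        refine Finset.prod_congr rfl fun i _ => ?_
        rw [toAdd_mul, Pi.add_apply, zpow_add₀ (hz i)] }

private theorem k8chr_single (z : Fin N → ℂ) (hz : ∀ i, z i ≠ 0) (l : Fin N → ℤ) (c : ℂ) :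
    k8chr z hz (AddMonoidAlgebra.single l c) = c * ∏ i, z i ^ l i := by
  unfold k8chr
  rw [AddMonoidAlgebra.lift_single]
  rfl

private theorem k8chr_io (z : Fin N → ℂ) (hz : ∀ i, z i ≠ 0) (g : MvPolynomial (Fin N) ℂ) :
    k8chr z hz (io N g) = eval z g := by
  have h1 : (k8chr z hz).comp (io N) = aeval z := by
    apply MvPolynomial.algHom_ext
    intro i
    rw [AlgHom.comp_apply]
    unfold io
    rw [aeval_X, k8chr_single, aeval_X, one_mul, Finset.prod_eq_single i]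
    · rw [Pi.single_eq_same, zpow_one]
    · intro j _ hj
      rw [Pi.single_eq_of_ne hj, zpow_zero]
    · intro h
      exact absurd (Finset.mem_univ i) h
  have h2 := DFunLike.congr_fun h1 g
  rw [AlgHom.comp_apply] at h2
  rw [h2]
  rfl

theorem hom_of_VU {f : Fin r → MvPolynomial (Fin N) ℂ} {w : Fin N → ℕ} {e : ℕ} {u : Fin N → ℤ}
    {z : Fin N → ℂ} (hz : z ∈ VU f w e u) :
    ∃ φ : (LR N ⧸ IB f w e u) →ₐ[ℂ] ℂ, ∀ g : MvPolynomial (Fin N) ℂ,
      φ (Ideal.Quotient.mk (IB f w e u) (io N g)) = eval z g := by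
  obtain ⟨⟨hz0, hzf⟩, hu⟩ := hz
  have hker : IB f w e u ≤ RingHom.ker (k8chr z hz0) := by
    unfold IB
    rw [Ideal.span_le]
    rintro _ (⟨j, rfl⟩ | rfl)
    · show k8chr z hz0 _ = 0
      rw [k8chr_io, hzf]
    · show k8chr z hz0 _ = 0
      rw [map_sub, map_one, k8chr_single, one_mul]
      exact sub_eq_zero.2 hu
  refine ⟨Ideal.Quotient.liftₐ (IB f w e u) (k8chr z hz0) (fun a ha => hker ha), fun g => ?_⟩
  rw [← k8chr_io z hz0 g]
  rfl

theorem VU_of_hom {f : Fin r → MvPolynomial (Fin N) ℂ} {w : Fin N → ℕ} {e : ℕ} {u : Fin N → ℤ}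
    (φ : (LR N ⧸ IB f w e u) →ₐ[ℂ] ℂ) : ∃ z ∈ VU f w e u,
      (∀ g : MvPolynomial (Fin N) ℂ, φ (Ideal.Quotient.mk (IB f w e u) (io N g)) = eval z g) ∧
      ∀ (l : Fin N → ℤ) (c : ℂ), φ (Ideal.Quotient.mk (IB f w e u) (AddMonoidAlgebra.single l c)) =
        c * ∏ i, z i ^ l i := by
  set Φ : LR N →ₐ[ℂ] ℂ := φ.comp (Ideal.Quotient.mkₐ ℂ (IB f w e u)) with hΦ
  have hΦ' : ∀ x, φ (Ideal.Quotient.mk (IB f w e u) x) = Φ x := fun x => rfl
  set θ : Multiplicative (Fin N → ℤ) →* ℂ := (Φ : LR N →* ℂ).comp (AddMonoidAlgebra.of ℂ _) with hθ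
  have hθ' : ∀ l : Fin N → ℤ, θ (Multiplicative.ofAdd l) = Φ (AddMonoidAlgebra.single l 1) :=
    fun l => rfl
  set Θ : Multiplicative (Fin N → ℤ) →* ℂˣ := θ.toHomUnits with hΘ
  have hΘ' : ∀ l : Fin N → ℤ, ((Θ (Multiplicative.ofAdd l) : ℂˣ) : ℂ) =
      Φ (AddMonoidAlgebra.single l 1) := fun l => rfl
  set z : Fin N → ℂ := fun i => Φ (AddMonoidAlgebra.single (Pi.single i 1) 1) with hzd
  have hz : ∀ i, z i ≠ 0 := by
    intro i
    show Φ (AddMonoidAlgebra.single (Pi.single i 1) 1) ≠ 0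
    rw [← hΘ']
    exact Units.ne_zero _
  have hs1 : ∀ l : Fin N → ℤ, Φ (AddMonoidAlgebra.single l 1) = ∏ i, z i ^ l i := by
    intro l
    have h1 : l = ∑ i, l i • (Pi.single i 1 : Fin N → ℤ) := by
      funext j
      rw [Finset.sum_apply, Finset.sum_eq_single j]
      · rw [Pi.smul_apply, Pi.single_eq_same, smul_eq_mul, mul_one]
      · intro i _ hi
        rw [Pi.smul_apply, Pi.single_eq_of_ne (Ne.symm hi), smul_zero]
      · intro h
        exact absurd (Finset.mem_univ j) h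
    have h2 : Θ (Multiplicative.ofAdd l) =
        ∏ i, Θ (Multiplicative.ofAdd (Pi.single i 1)) ^ l i := by
      conv_lhs => rw [h1]
      rw [ofAdd_sum, map_prod]
      exact Finset.prod_congr rfl fun i _ => by rw [ofAdd_zsmul, map_zpow]
    rw [← hΘ', h2, Units.coe_prod]
    exact Finset.prod_congr rfl fun i _ => by rw [Units.val_zpow_eq_zpow_val, hΘ']
  have hs : ∀ (l : Fin N → ℤ) (c : ℂ), Φ (AddMonoidAlgebra.single l c) = c * ∏ i, z i ^ l i := by
    intro l c
    have h1 : (AddMonoidAlgebra.single l c : LR N) = c • AddMonoidAlgebra.single l 1 := by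
      rw [AddMonoidAlgebra.smul_single, smul_eq_mul, mul_one]
    rw [h1, map_smul, hs1, smul_eq_mul]
  have hchr : Φ = k8chr z hz := by
    apply AddMonoidAlgebra.algHom_ext
    · intro l
      rw [hs, k8chr_single]
    · ext
  have hio : ∀ g : MvPolynomial (Fin N) ℂ, Φ (io N g) = eval z g := by
    intro g
    rw [hchr, k8chr_io]
  refine ⟨z, ⟨⟨hz, fun j => ?_⟩, ?_⟩, hio, hs⟩
  · have hj : io N (ip f w e j) ∈ IB f w e u := Ideal.subset_span (Or.inl ⟨j, rfl⟩)
    rw [← hio, ← hΦ', Ideal.Quotient.eq_zero_iff_mem.2 hj, map_zero]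
  · have h1 : Φ (AddMonoidAlgebra.single u 1 - 1) = 0 := by
      have hj : (AddMonoidAlgebra.single u 1 - 1 : LR N) ∈ IB f w e u :=
        Ideal.subset_span (Or.inr rfl)
      rw [← hΦ', Ideal.Quotient.eq_zero_iff_mem.2 hj, map_zero]
    rw [map_sub, map_one, hs1, sub_eq_zero] at h1
    exact h1

end NC
end MotMono
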