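import Pool.Agent.Lib.MP_4e5fcd_ag.NC.Base

/-!
# NC-KDefs: Kushnirenko's inequality, notation

`A` is a finite set of exponents, all of weight `e`.
-/

open MvPolynomial

namespace MotMono
namespace NC

open WH

variable {N r : ℕ}

/-- the points of `S` of weight `e` -/
def SA (S : Finset (Fin N →₀ ℕ)) (w : Fin N → ℕ) (e : ℕ) : Finset (Fin N →₀ ℕ) := {m ∈ S | wd w m = e}

/-- the lattice points of the cone over `A` -/
def Cone (A : Finset (Fin N →₀ ℕ)) (b : Fin N →₀ ℕ) : Prop :=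
  ∃ (n : ℕ) (q : (Fin N →₀ ℕ) → ℕ), 0 < n ∧ n • b = ∑ a ∈ A, q a • a

/-- `L_k`: the polynomials with exponents in the cone, of weight `k e` -/
noncomputable def LK (A : Finset (Fin N →₀ ℕ)) (w : Fin N → ℕ) (e k : ℕ) :
    Submodule ℂ (MvPolynomial (Fin N) ℂ) :=
  restrictSupport ℂ {b | Cone A b ∧ wd w b = k * e}

/-- `∑_{j ∈ J} F j L` -/
noncomputable def AJ (F : Fin r → MvPolynomial (Fin N) ℂ) (J : Finset (Fin r))
    (L : Submodule ℂ (MvPolynomial (Fin N) ℂ)) : Submodule ℂ (MvPolynomial (Fin N) ℂ) :=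
  ⨆ j ∈ J, L.map (LinearMap.mulLeft ℂ (F j))

/-- `U_k = ∑_{j ∈ J} F j L_(k-1)`, a subspace of `L_k` -/
noncomputable def UK (F : Fin r → MvPolynomial (Fin N) ℂ) (J : Finset (Fin r))
    (A : Finset (Fin N →₀ ℕ)) (w : Fin N → ℕ) (e : ℕ) : ℕ → Submodule ℂ (MvPolynomial (Fin N) ℂ)
  | 0 => ⊥
  | k + 1 => AJ F J (LK A w e k)

/-- the Laurent polynomials -/
abbrev LR (N : ℕ) : Type := AddMonoidAlgebra ℂ (Fin N → ℤ)

/-- polynomials as Laurent polynomials -/
noncomputable def io (N : ℕ) : MvPolynomial (Fin N) ℂ →ₐ[ℂ] LR N :=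
  aeval fun i => AddMonoidAlgebra.single (Pi.single i 1) 1

/-- the ideal of the slice: `F j = 0`, `x ^ u = 1` -/
noncomputable def IB (f : Fin r → MvPolynomial (Fin N) ℂ) (w : Fin N → ℕ) (e : ℕ) (u : Fin N → ℤ) :
    Ideal (LR N) :=
  Ideal.span ((Set.range fun j => io N (ip f w e j)) ∪ {AddMonoidAlgebra.single u 1 - 1})

end NC
end MotMono
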