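import Pool.Agent.Lib.MP_4e5fcd_ag.NC.K10
import Pool.Agent.Lib.MP_4e5fcd_ag.NC.K14

/-! # NC-KMain: Kushnirenko's inequality -/

open MvPolynomial

namespace MotMono
namespace NC

open WH

variable {N r : ℕ}

/-- The common zeros in the slice are finitely many, and there are at least as many as given by
pairwise inequivalent lattice points in the cone over a simplex in the facet; one more if a point
of the facet is outside of the simplex. -/
theorem kush {f : Fin r → MvPolynomial (Fin N) ℂ} (hr : r + 1 = N) (hf : Nondeg f)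
    {w : Fin N → ℕ} {e : ℕ} (hF : Fac (Sup f) w e) (hw : ∀ i, 0 < w i) (u : Fin N → ℤ)
    (hu : ∑ i, u i * (w i : ℤ) = 1) :
    (VU f w e u).Finite ∧ ∀ D : Fin N → (Fin N →₀ ℕ), (∀ l, D l ∈ Sup f ∧ wd w (D l) = e) →
      LinearIndependent ℚ (fun l => fun i => ((D l i : ℕ) : ℚ)) →
      ∀ G : Finset (Fin N →₀ ℕ),
        (∀ ρ ∈ G, e ∣ wd w ρ ∧ ∃ c : Fin N → ℚ, (∀ l, 0 ≤ c l) ∧
          ∀ i, (ρ i : ℚ) = ∑ l, c l * (D l i : ℚ)) →
        (∀ ρ ∈ G, ∀ ρ' ∈ G, ρ ≠ ρ' → ∀ c : Fin N → ℤ,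
          ¬ ∀ i, (ρ i : ℤ) = ρ' i + ∑ l, c l * (D l i : ℤ)) →
        G.card ≤ (VU f w e u).ncard ∧
          ((∃ m ∈ Sup f, wd w m = e ∧ ∃ c : Fin N → ℚ, (∃ l, c l < 0) ∧
            ∀ i, (m i : ℚ) = ∑ l, c l * (D l i : ℚ)) → G.card + 1 ≤ (VU f w e u).ncard) := by
  obtain ⟨h1, h2⟩ := dim_le hr hf hF hw hu
  exact ⟨h1, count hr hF hw _ h2⟩

end NC
end MotMono
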