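import Pool.Agent.Lib.MP_4e5fcd_ag.NC.MDefs

/-!
# NC-M1: constructibility; the level of the contact jets

`constr_Cj`: copy `v1c_constr_CAn` (SW-V1c; the coefficients of `along (f j) γ` are polynomials in `γ`: `CN.exists_alongPoly`). `constr_Pc`: `Cj` and finitely many equations and inequations
`γ (i, l) = 0`, `γ (i, l) ≠ 0` (`constr_iInter`; for `o i ≤ K` the set `∃ l, l = o i ∧ γ (i, l) ≠ 0` is a finite union, `constr_iUnion`, of `{γ (i, l) ≠ 0}` or `∅`; if `o i > K` there is no condition).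
`constr_Fz`: `constr_TA` (WH-V5a) and `constr_eq` with the constants `C (y j)`. `constr_Sl`: `constr_slice` (WH-V5a). `constr_Qj`, `constr_Q0`: `constr_slice`, `Constr.zeroSet`, `constr_ne`
(finite intersections, `constr_iInter`; for `j < j₀` distinguish the cases as in `v5b_constr_F`).
`chi_Cj_trunc`: copy `v1c_trunc` (SW-V1c): the conditions of `Cj` on a jet of level `n ≥ K` only depend on its truncation to level `K` (`CN.along_trunc`), and the truncation is linear and surjective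
(`LF.chi_linFib`).
-/

open MvPolynomial

namespace MotMono
namespace NC

open WH

variable {N r : ℕ}

private theorem m1_constr_eqc {σ : Type} (Q : MvPolynomial σ ℂ) (a : ℂ) :
    Constr {x : σ → ℂ | eval x Q = a} := by
  have h := constr_eq Q (MvPolynomial.C a)
  simpa only [eval_C] using h

theorem constr_Cj (f : Fin r → MvPolynomial (Fin N) ℂ) (y : Fin r → ℂ) (K n : ℕ) :
    Constr (Cj f y K n) := by
  classical
  have hP : ∀ (j : Fin r) (l : ℕ), ∃ P : MvPolynomial (Fin N × Fin (n + 1)) ℂ,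
      ∀ γ : Fin N × Fin (n + 1) → ℂ, eval γ P = (along (f j) γ).coeff l :=
    fun j l => CN.exists_alongPoly (f j) l
  choose P hP using hP
  have h1 : Cj f y K n =
      (⋂ i : Fin N, {γ : Fin N × Fin (n + 1) → ℂ | eval γ (X (i, 0)) = 0}) ∩
      ⋂ j : Fin r, ((⋂ l : Fin K, {γ : Fin N × Fin (n + 1) → ℂ | eval γ (P j l) = 0}) ∩
        {γ : Fin N × Fin (n + 1) → ℂ | eval γ (P j K) = y j}) := by
    ext γ
    simp only [Cj, Set.mem_ofPred_eq, Set.mem_inter_iff, Set.mem_iInter, hP, eval_X]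
    constructor
    · rintro ⟨h1, h2⟩
      exact ⟨h1, fun j => ⟨fun l => (h2 j).1 l l.2, (h2 j).2⟩⟩
    · rintro ⟨h1, h2⟩
      exact ⟨h1, fun j => ⟨fun l hl => (h2 j).1 ⟨l, hl⟩, (h2 j).2⟩⟩
  rw [h1]
  refine Constr.inter (constr_iInter fun i => m1_constr_eqc _ _) (constr_iInter fun j => ?_)
  exact Constr.inter (constr_iInter fun l => m1_constr_eqc _ _) (m1_constr_eqc _ _)

private theorem m1_constr_imp {σ : Type} (p : Prop) {E : Set (σ → ℂ)} (hE : Constr E) :
    Constr {x : σ → ℂ | p → x ∈ E} := by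
  by_cases h : p
  · have e : {x : σ → ℂ | p → x ∈ E} = E := by
      ext x
      exact ⟨fun h1 => h1 h, fun h1 _ => h1⟩
    rwa [e]
  · have e : {x : σ → ℂ | p → x ∈ E} = Set.univ := by
      ext x
      exact ⟨fun _ => trivial, fun _ h1 => absurd h1 h⟩
    rw [e]
    exact constr_univ

private theorem m1_constr_coord {σ : Type} (q : σ) : Constr {x : σ → ℂ | x q = 0} := by
  have h := Constr.zeroSet (X q : MvPolynomial σ ℂ)
  simpa only [eval_X] using h

private theorem m1_constr_coord_ne {σ : Type} (q : σ) : Constr {x : σ → ℂ | x q ≠ 0} := by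
  have h := constr_ne (X q : MvPolynomial σ ℂ)
  simpa only [eval_X] using h

theorem constr_Pc (f : Fin r → MvPolynomial (Fin N) ℂ) (y : Fin r → ℂ) (K n : ℕ)
    (o : Fin N → ℕ) : Constr (Pc f y K n o) := by
  classical
  have h1 : Pc f y K n o = Cj f y K n ∩ ⋂ i : Fin N,
      ((⋂ l : Fin (n + 1), {γ : Fin N × Fin (n + 1) → ℂ | (l : ℕ) < o i → γ ∈
        {γ : Fin N × Fin (n + 1) → ℂ | γ (i, l) = 0}}) ∩
      {γ : Fin N × Fin (n + 1) → ℂ | o i ≤ K → γ ∈ ⋃ l : {l : Fin (n + 1) // (l : ℕ) = o i},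
        {γ : Fin N × Fin (n + 1) → ℂ | γ (i, l.1) ≠ 0}}) := by
    ext γ
    simp only [Pc, Set.mem_ofPred_eq, Set.mem_inter_iff, Set.mem_iInter, Set.mem_iUnion]
    refine and_congr_right fun _ => forall_congr' fun i => and_congr_right fun _ => ?_
    refine imp_congr_right fun _ => ?_
    constructor
    · rintro ⟨l, h1, h2⟩
      exact ⟨⟨l, h1⟩, h2⟩
    · rintro ⟨l, h2⟩
      exact ⟨l.1, l.2, h2⟩
  rw [h1]
  refine (constr_Cj f y K n).inter (constr_iInter fun i => Constr.inter ?_ ?_)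
  · exact constr_iInter fun l => m1_constr_imp _ (m1_constr_coord _)
  · exact m1_constr_imp _ (constr_iUnion fun l => m1_constr_coord_ne _)

theorem constr_Fz (f : Fin r → MvPolynomial (Fin N) ℂ) (y : Fin r → ℂ) (K : ℕ)
    (o : Fin N → ℕ) : Constr (Fz f y K o) := by
  have h1 : Fz f y K o = TA (Finset.univ.filter fun i => o i ≤ K) ∩
      ⋂ j : Fin r, {z : Fin N → ℂ | eval z (ip f o K j) = y j} := by
    ext z
    simp only [Fz, Set.mem_ofPred_eq, Set.mem_inter_iff, Set.mem_iInter]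
  rw [h1]
  exact (constr_TA _).inter (constr_iInter fun j => m1_constr_eqc _ _)

theorem constr_Sl (u : (Fin N → ℕ) × ℕ → Fin N → ℤ) (p : (Fin N → ℕ) × ℕ) : Constr (Sl u p) :=
  constr_slice (sw p.1) (u p)

theorem constr_Qj (f : Fin r → MvPolynomial (Fin N) ℂ) (u : (Fin N → ℕ) × ℕ → Fin N → ℤ)
    (j₀ : Fin r) (p : (Fin N → ℕ) × ℕ) : Constr (Qj f u j₀ p) := by
  have h1 : Qj f u j₀ p = Sl u p ∩ ((⋂ j : Fin r, {x : Fin N → ℂ | j < j₀ → x ∈
      {x : Fin N → ℂ | eval x (Fp f p j) = 0}}) ∩ {x : Fin N → ℂ | eval x (Fp f p j₀) ≠ 0}) := by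
    ext x
    simp only [Qj, Set.mem_ofPred_eq, Set.mem_inter_iff, Set.mem_iInter]
  rw [h1]
  exact (constr_Sl u p).inter ((constr_iInter fun j =>
    m1_constr_imp _ (Constr.zeroSet _)).inter (constr_ne _))

theorem constr_Q0 (f : Fin r → MvPolynomial (Fin N) ℂ) (u : (Fin N → ℕ) × ℕ → Fin N → ℤ)
    (p : (Fin N → ℕ) × ℕ) : Constr (Q0 f u p) := by
  have h1 : Q0 f u p = Sl u p ∩ ⋂ j : Fin r, {x : Fin N → ℂ | eval x (Fp f p j) = 0} := by
    ext x
    simp only [Q0, Set.mem_ofPred_eq, Set.mem_inter_iff, Set.mem_iInter]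
  rw [h1]
  exact (constr_Sl u p).inter (constr_iInter fun j => Constr.zeroSet _)

theorem chi_Cj_trunc {χ : K0 →+* ℤ} (hχ : IsEulerCharF χ) (f : Fin r → MvPolynomial (Fin N) ℂ)
    (y : Fin r → ℂ) {K n : ℕ} (hKn : K ≤ n) :
    χ (cls (Cj f y K n)) = χ (cls (Cj f y K K)) := by
  set φ : (Fin N × Fin (n + 1) → ℂ) →ₗ[ℂ] (Fin N × Fin (K + 1) → ℂ) :=
    LinearMap.funLeft ℂ ℂ (fun q : Fin N × Fin (K + 1) =>
      (q.1, Fin.castLE (Nat.succ_le_succ hKn) q.2)) with hφ
  have h1 : Cj f y K n = {γ : Fin N × Fin (n + 1) → ℂ |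
      γ - 0 ∈ (⊤ : Submodule ℂ (Fin N × Fin (n + 1) → ℂ)) ∧ φ (γ - 0) ∈ Cj f y K K} := by
    ext γ
    have h2 : ∀ (j : Fin r) (l : ℕ), l ≤ K →
        (along (f j) (φ γ)).coeff l = (along (f j) γ).coeff l := by
      intro j l hl
      refine CN.along_trunc (f j) (φ γ) γ l fun i l' hl' => ?_
      rw [a1_arc_coeff, a1_arc_coeff, dif_pos (by omega), dif_pos (by omega)]
      rfl
    simp only [sub_zero, Set.mem_ofPred_eq, Submodule.mem_top, true_and, Cj]
    constructor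
    · rintro ⟨h3, h4⟩
      refine ⟨fun i => h3 i, fun j => ⟨fun l hl => ?_, ?_⟩⟩
      · rw [h2 j l hl.le]
        exact (h4 j).1 l hl
      · rw [h2 j K le_rfl]
        exact (h4 j).2
    · rintro ⟨h3, h4⟩
      refine ⟨fun i => h3 i, fun j => ⟨fun l hl => ?_, ?_⟩⟩
      · rw [← h2 j l hl.le]
        exact (h4 j).1 l hl
      · rw [← h2 j K le_rfl]
        exact (h4 j).2
  rw [h1]
  refine LF.chi_linFib hχ.line ⊤ 0 φ (fun z => ?_) (constr_Cj f y K K)
  have hinj : Function.Injective (fun q : Fin N × Fin (K + 1) =>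
      (q.1, Fin.castLE (Nat.succ_le_succ hKn) q.2)) := by
    rintro ⟨a, b⟩ ⟨a', b'⟩ hab
    simp only [Prod.mk.injEq] at hab
    obtain ⟨h3, h4⟩ := hab
    rw [h3, Fin.castLE_injective _ h4]
  obtain ⟨x, hx⟩ := LinearMap.funLeft_surjective_of_injective ℂ ℂ _ hinj z
  exact ⟨x, Submodule.mem_top, hx⟩

end NC
end MotMono
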