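import Pool.Agent.Lib.MP_4e5fcd_ag.NC.M5

/-!
# NC-M10: the terms of the sum

`finite_ifac`: the set is contained in the union over the finitely many `I : Finset (Fin N)` of the finite sets `{p | Fac (SI S I) p.1 p.2}` (`finite_fac`, Fa). `Set.finite_iUnion`, `Set.Finite.subset`.
`ifac_univ`: if all `w i > 0` then `sw w = univ` and `SI S (sw w) = S`.
`chi_Sl`: `chi_slice_TA` (WH-V5a) with the positive weights `wx w e`: `∑ i ∈ sw w, u p i * wx w e i = ∑ i, u p i * w i = 1 = (sw w).gcd (wx w e)` (`wx w e i = w i` for `i ∈ sw w`; `(sw w).gcd w = univ.gcd w = 1`,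
`Fac.prim`); `sw w` is nonempty (`ifac_props`).
`Q0_empty`: let `x` be in the set, `z i = x i` for `w i > 0`, `z i = 1` otherwise; all `z i ≠ 0`. The monomials of `Fp f p j` do not contain the variables with `w i = 0` (their weight `wx w e i = e + 1` is bigger than
`e`; `mem_support_ip` of Fa), so `eval z (Fp f p j) = eval x (Fp f p j) = 0` (`eval_eq'`) and `z ∈ VT f (wx w e) e`. All `m ∈ Sup f` have `wd (wx w e) m ≥ e` (if `m i ≠ 0` for some `i` with `w i = 0`:
`≥ e + 1`; otherwise `m ∈ SI`, `Fac.ge`), with equality for some `m` (`ifac_props`). `ext_of_zero` (Fa) with the `i`-th unit vector `y`, where `w i = 0`, and `t = 0` (the `m` of weight `e` have `m i = 0`):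
`1 = c * wx w e i`, `0 = c * e`, `e > 0`: contradiction.
`Q0_univ`: all `w i > 0`: `wx w e = w`, `sw w = univ`, `TA univ` = all `x i ≠ 0`; definitions of `VU`, `VT`.
-/

open MvPolynomial

namespace MotMono
namespace NC

open WH

variable {N r : ℕ}

private theorem sw_univ {w : Fin N → ℕ} (hw : ∀ i, 0 < w i) : sw w = Finset.univ :=
  Finset.filter_true_of_mem fun i _ => hw i

private theorem mem_sw {w : Fin N → ℕ} {i : Fin N} : i ∈ sw w ↔ 0 < w i := by
  unfold sw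
  simp

private theorem wx_pos (w : Fin N → ℕ) (e : ℕ) (i : Fin N) : 0 < wx w e i := by
  unfold wx
  split_ifs with h
  · omega
  · omega

private theorem wx_of_pos {w : Fin N → ℕ} {e : ℕ} {i : Fin N} (h : 0 < w i) : wx w e i = w i := by
  unfold wx
  rw [if_neg h.ne']

private theorem wx_of_zero {w : Fin N → ℕ} {e : ℕ} {i : Fin N} (h : w i = 0) :
    wx w e i = e + 1 := by
  unfold wx
  rw [if_pos h]

/-- points with a coordinate of weight `0` have large weight -/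
private theorem wd_big {w : Fin N → ℕ} {e : ℕ} {m : Fin N →₀ ℕ} {i : Fin N} (hi : w i = 0)
    (hm : m i ≠ 0) : e + 1 ≤ wd (wx w e) m := by
  unfold wd
  calc e + 1 = 1 * (e + 1) := (one_mul _).symm
    _ ≤ m i * wx w e i := by
        rw [wx_of_zero hi]
        exact Nat.mul_le_mul_right _ (Nat.one_le_iff_ne_zero.2 hm)
    _ ≤ ∑ k, m k * wx w e k :=
        Finset.single_le_sum (f := fun k => m k * wx w e k) (fun _ _ => Nat.zero_le _)
          (Finset.mem_univ i)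

private theorem wd_eq {w : Fin N → ℕ} {e : ℕ} {m : Fin N →₀ ℕ} (h : ∀ i, m i ≠ 0 → 0 < w i) :
    wd (wx w e) m = wd w m := by
  unfold wd
  refine Finset.sum_congr rfl fun i _ => ?_
  by_cases hm : m i = 0
  · rw [hm, zero_mul, zero_mul]
  · rw [wx_of_pos (h i hm)]

theorem finite_ifac (S : Finset (Fin N →₀ ℕ)) : {p : (Fin N → ℕ) × ℕ | IFac S p.1 p.2}.Finite := by
  refine Set.Finite.subset (Set.finite_iUnion fun I : Finset (Fin N) => finite_fac (SI S I)) ?_
  intro p hp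
  exact Set.mem_iUnion.2 ⟨sw p.1, hp⟩

theorem ifac_univ {S : Finset (Fin N →₀ ℕ)} {w : Fin N → ℕ} {e : ℕ} (hw : ∀ i, 0 < w i) :
    IFac S w e ↔ Fac S w e := by
  have h1 : SI S (sw w) = S := by
    rw [sw_univ hw]
    exact Finset.filter_true_of_mem fun m _ i _ => Finset.mem_univ i
  unfold IFac
  rw [h1]

theorem chi_Sl {χ : K0 →+* ℤ} (hχ : IsEulerCharF χ) {S : Finset (Fin N →₀ ℕ)}
    {p : (Fin N → ℕ) × ℕ} (hp : IFac S p.1 p.2) (u : (Fin N → ℕ) × ℕ → Fin N → ℤ)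
    (hu : ∑ i, u p i * (p.1 i : ℤ) = 1) :
    χ (cls (Sl u p)) = if (sw p.1).card = 1 then 1 else 0 := by
  obtain ⟨i0, hi0⟩ := (ifac_props hp).1
  refine chi_slice_TA hχ (wx_pos p.1 p.2) ⟨i0, mem_sw.2 hi0⟩ ?_
  have h1 : ∑ i ∈ sw p.1, u p i * (wx p.1 p.2 i : ℤ) = 1 := by
    rw [← hu]
    calc ∑ i ∈ sw p.1, u p i * (wx p.1 p.2 i : ℤ) = ∑ i ∈ sw p.1, u p i * (p.1 i : ℤ) :=
          Finset.sum_congr rfl fun i hi => by rw [wx_of_pos (mem_sw.1 hi)]
      _ = ∑ i, u p i * (p.1 i : ℤ) := by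
          refine Finset.sum_subset (Finset.subset_univ _) fun i _ hi => ?_
          have h2 : p.1 i = 0 := by
            by_contra h3
            exact hi (mem_sw.2 (Nat.pos_of_ne_zero h3))
          rw [h2, Nat.cast_zero, mul_zero]
  have h2 : (sw p.1).gcd (wx p.1 p.2) = 1 := by
    have h3 : (sw p.1).gcd (wx p.1 p.2) = (sw p.1).gcd p.1 :=
      Finset.gcd_congr rfl fun i hi => wx_of_pos (mem_sw.1 hi)
    have h4 : sw p.1 = Finset.univ.filter fun i => p.1 i ≠ 0 := by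
      unfold sw
      exact Finset.filter_congr fun i _ => Nat.pos_iff_ne_zero
    have h5 : Finset.univ.gcd p.1 = 1 := hp.prim
    rw [h3, h4, ← Finset.gcd_eq_gcd_filter_ne_zero, h5]
  rw [h1, h2, Nat.cast_one]

theorem Q0_empty {f : Fin r → MvPolynomial (Fin N) ℂ} (hr : r + 1 = N) (hf : Nondeg f)
    {p : (Fin N → ℕ) × ℕ} (hp : IFac (Sup f) p.1 p.2) (hi : ∃ i, p.1 i = 0)
    (u : (Fin N → ℕ) × ℕ → Fin N → ℤ) : Q0 f u p = ∅ := by
  classical
  obtain ⟨w, e⟩ := p
  simp only at hp hi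
  obtain ⟨i0, hi0⟩ := hi
  rw [Set.eq_empty_iff_forall_notMem]
  rintro x ⟨⟨hxT, _⟩, hx0⟩
  obtain ⟨z, hzdef⟩ : ∃ z : Fin N → ℂ, ∀ i, z i = if 0 < w i then x i else 1 := ⟨_, fun _ => rfl⟩
  have hz0 : ∀ i, z i ≠ 0 := by
    intro i
    rw [hzdef]
    split_ifs with h
    · exact (hxT i).2 (mem_sw.2 h)
    · exact one_ne_zero
  have hsupp : ∀ m : Fin N →₀ ℕ, wd (wx w e) m = e → ∀ i, m i ≠ 0 → 0 < w i := by
    intro m hm i hmi
    by_contra h
    have h1 : w i = 0 := by omega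
    have h2 := wd_big (e := e) h1 hmi
    omega
  have hz : z ∈ VT f (wx w e) e := by
    refine ⟨hz0, fun j => ?_⟩
    have h1 := hx0 j
    change eval x (ip f (wx w e) e j) = 0 at h1
    rw [← h1, eval_eq', eval_eq']
    refine Finset.sum_congr rfl fun m hm => ?_
    congr 1
    refine Finset.prod_congr rfl fun i _ => ?_
    by_cases hmi : m i = 0
    · rw [hmi, pow_zero, pow_zero]
    · rw [hzdef, if_pos (hsupp m (mem_support_ip hm).2 i hmi)]
  have hge : ∀ m ∈ Sup f, e ≤ wd (wx w e) m := by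
    intro m hm
    by_cases h : ∀ i, m i ≠ 0 → 0 < w i
    · rw [wd_eq h]
      exact hp.ge m (Finset.mem_filter.2 ⟨hm, fun i hi => mem_sw.2 (h i hi)⟩)
    · push Not at h
      obtain ⟨i, hi1, hi2⟩ := h
      have := wd_big (e := e) (Nat.le_zero.1 hi2) hi1
      omega
  obtain ⟨m0, hm0, hm1, hm2⟩ := (ifac_props hp).2.1
  obtain ⟨c, hc, hc'⟩ := ext_of_zero hr hf (wx_pos w e) hge ⟨m0, hm0, by rw [wd_eq hm1, hm2]⟩ hp.pos hz
    (fun i => if i = i0 then 1 else 0) 0 (by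
      intro m _ hme
      have h1 : m i0 = 0 := by
        by_contra h
        have := hsupp m hme i0 h
        omega
      refine Finset.sum_eq_zero fun i _ => ?_
      split_ifs with h
      · rw [h, h1, Nat.cast_zero, zero_mul]
      · rw [mul_zero])
  have he : (e : ℂ) ≠ 0 := by exact_mod_cast hp.pos.ne'
  have hc0 : c = 0 := (mul_eq_zero.1 hc'.symm).resolve_right he
  have h1 := hc i0
  rw [hc0, zero_mul, if_pos rfl] at h1
  exact one_ne_zero h1

theorem Q0_univ (f : Fin r → MvPolynomial (Fin N) ℂ) {p : (Fin N → ℕ) × ℕ} (hw : ∀ i, 0 < p.1 i)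
    (u : (Fin N → ℕ) × ℕ → Fin N → ℤ) : Q0 f u p = VU f p.1 p.2 (u p) := by
  have h1 : wx p.1 p.2 = p.1 := funext fun i => wx_of_pos (hw i)
  have h2 : sw p.1 = Finset.univ := sw_univ hw
  ext x
  unfold Q0 VU Sl VT Fp
  simp only [Set.mem_ofPred_eq, h1, h2]
  constructor
  · rintro ⟨⟨hx1, hx2⟩, hx3⟩
    exact ⟨⟨fun i => (hx1 i).2 (Finset.mem_univ i), hx3⟩, hx2⟩
  · rintro ⟨⟨hx1, hx3⟩, hx2⟩
    exact ⟨⟨fun i => ⟨fun _ => Finset.mem_univ i, fun _ => hx1 i⟩, hx2⟩, hx3⟩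

end NC
end MotMono
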