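import Pool.Agent.Lib.MP_4e5fcd_ag.NC.M5

/-!
# NC-M11: the axes

`ifac_axis`: (→) `sw w = {i}`: `w k = 0` for `k ≠ i`, `w i = gcd w = 1` (`Fac.prim`). A point of `SI S {i}` is `Finsupp.single i b` with weight `b`. `ifac_props`: `single i e ∈ S`; `Fac.ge`: `e ≤ b` for every
`single i b ∈ S` (`b = 0` cannot occur, `0 ∉ S`, or use that `single i b` is in `SI` anyway). (←) `w = Pi.single i 1`, `sw w = {i}`; `e > 0` since `single i 0 = 0 ∉ S`; `ge`: `IsAx`; `gcd = 1`; `ext`: `y k = 0` for `k ≠ i`,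
`e * y i = t`: `c = y i`.
`card_axes`: the map `i ↦ (Pi.single i 1, a)`, `a` the unique number with `IsAx S i a`, is a bijection of `A` and the filtered set (`Finset.card_bij`, or `Finset.card_nbij'`): injective as `Pi.single i 1` determines `i`;
surjective by `ifac_axis` (`Finset.card_eq_one`).
-/

open MvPolynomial

namespace MotMono
namespace NC

open WH

variable {N r : ℕ}

private theorem wd_ax {w : Fin N → ℕ} {i : Fin N} (hw : w = Pi.single i 1) (m : Fin N →₀ ℕ) :
    wd w m = m i := by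
  unfold wd
  rw [Finset.sum_eq_single i]
  · rw [hw, Pi.single_eq_same, mul_one]
  · intro k _ hk
    rw [hw, Pi.single_eq_of_ne hk, mul_zero]
  · intro h
    exact absurd (Finset.mem_univ i) h

private theorem eq_single_ax {i : Fin N} {m : Fin N →₀ ℕ} (hm : ∀ k, m k ≠ 0 → k = i) :
    m = Finsupp.single i (m i) := by
  ext k
  by_cases hk : k = i
  · rw [hk, Finsupp.single_eq_same]
  · rw [Finsupp.single_eq_of_ne hk]
    by_contra h
    exact hk (hm k h)

private theorem sw_ax {w : Fin N → ℕ} {i : Fin N} (hw : w = Pi.single i 1) : sw w = {i} := by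
  ext k
  unfold sw
  rw [Finset.mem_filter, Finset.mem_singleton]
  constructor
  · rintro ⟨-, h⟩
    by_contra hk
    rw [hw, Pi.single_eq_of_ne hk] at h
    exact lt_irrefl _ h
  · rintro rfl
    refine ⟨Finset.mem_univ _, ?_⟩
    rw [hw, Pi.single_eq_same]
    exact one_pos

theorem ifac_axis {S : Finset (Fin N →₀ ℕ)} (h0 : (0 : Fin N →₀ ℕ) ∉ S) {w : Fin N → ℕ} {e : ℕ}
    (i : Fin N) : (IFac S w e ∧ sw w = {i}) ↔ (w = Pi.single i 1 ∧ IsAx S i e) := by
  constructor
  · rintro ⟨hF, hs⟩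
    have hk0 : ∀ k, 0 < w k ↔ k = i := fun k => by
      have h1 : k ∈ sw w ↔ k ∈ ({i} : Finset (Fin N)) := by rw [hs]
      rw [Finset.mem_singleton] at h1
      rw [← h1]
      unfold sw
      rw [Finset.mem_filter]
      exact ⟨fun h => ⟨Finset.mem_univ k, h⟩, fun h => h.2⟩
    have hw0 : ∀ k, k ≠ i → w k = 0 := fun k hk => by
      by_contra h
      exact hk ((hk0 k).1 (Nat.pos_of_ne_zero h))
    have hi1 : w i = 1 := by
      have h1 : w i ∣ Finset.univ.gcd w := by
        refine Finset.dvd_gcd fun k _ => ?_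
        by_cases hk : k = i
        · rw [hk]
        · rw [hw0 k hk]
          exact dvd_zero _
      rw [hF.prim] at h1
      exact Nat.dvd_one.1 h1
    have hw : w = Pi.single i 1 := by
      funext k
      by_cases hk : k = i
      · rw [hk, Pi.single_eq_same, hi1]
      · rw [Pi.single_eq_of_ne hk, hw0 k hk]
    refine ⟨hw, ?_, ?_⟩
    · obtain ⟨-, ⟨m, hm, hm1, hm2⟩, -, -⟩ := ifac_props hF
      have h1 := eq_single_ax (i := i) (m := m) fun k hk => (hk0 k).1 (hm1 k hk)
      rw [wd_ax hw] at hm2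
      rw [← hm2, ← h1]
      exact hm
    · intro b hb
      have h1 : Finsupp.single i b ∈ SI S (sw w) := by
        unfold SI
        rw [Finset.mem_filter]
        refine ⟨hb, fun k hk => ?_⟩
        rw [hs, Finset.mem_singleton]
        by_contra hki
        exact hk (Finsupp.single_eq_of_ne hki)
      have h2 := hF.ge _ h1
      rwa [wd_ax hw, Finsupp.single_eq_same] at h2
  · rintro ⟨hw, hA⟩
    have hs := sw_ax hw
    refine ⟨?_, hs⟩
    have hmS : ∀ m ∈ SI S (sw w), m ∈ S ∧ m = Finsupp.single i (m i) := fun m hm => by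
      unfold SI at hm
      rw [Finset.mem_filter, hs] at hm
      exact ⟨hm.1, eq_single_ax fun k hk => Finset.mem_singleton.1 (hm.2 k hk)⟩
    show Fac (SI S (sw w)) w e
    refine ⟨?_, ?_, ?_, ?_⟩
    · refine Nat.pos_of_ne_zero fun he => h0 ?_
      have h1 := hA.1
      rwa [he, Finsupp.single_zero] at h1
    · intro m hm
      rw [wd_ax hw]
      refine hA.2 _ ?_
      rw [← (hmS m hm).2]
      exact (hmS m hm).1
    · have h1 : Finset.univ.gcd w ∣ w i := Finset.gcd_dvd (Finset.mem_univ i)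
      rw [hw, Pi.single_eq_same] at h1
      rw [hw]
      exact Nat.dvd_one.1 h1
    · intro y t hy ht
      have h1 : Finsupp.single i e ∈ SI S (sw w) := by
        unfold SI
        rw [Finset.mem_filter]
        refine ⟨hA.1, fun k hk => ?_⟩
        rw [hs, Finset.mem_singleton]
        by_contra hki
        exact hk (Finsupp.single_eq_of_ne hki)
      have h2 := ht _ h1 (by rw [wd_ax hw, Finsupp.single_eq_same])
      rw [Finset.sum_eq_single i] at h2
      · rw [Finsupp.single_eq_same] at h2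
        refine ⟨y i, fun k => ?_, ?_⟩
        · by_cases hk : k = i
          · rw [hk, hw, Pi.single_eq_same, Nat.cast_one, mul_one]
          · rw [hy k (by rw [hw, Pi.single_eq_of_ne hk]), hw, Pi.single_eq_of_ne hk, Nat.cast_zero,
              mul_zero]
        · rw [← h2, mul_comm]
      · intro k _ hk
        rw [Finsupp.single_eq_of_ne hk, Nat.cast_zero, zero_mul]
      · intro h
        exact absurd (Finset.mem_univ i) h

open Classical in
theorem card_axes {S : Finset (Fin N →₀ ℕ)} (h0 : (0 : Fin N →₀ ℕ) ∉ S) (Q : ℕ → Prop)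
    (T : Finset ((Fin N → ℕ) × ℕ)) (hT : ∀ p, p ∈ T ↔ IFac S p.1 p.2) (A : Finset (Fin N))
    (hA : ∀ i, i ∈ A ↔ ∃ a, IsAx S i a ∧ Q a) :
    ((T.filter fun p => Q p.2).filter fun p => (sw p.1).card = 1).card = A.card := by
  symm
  refine Finset.card_bij (fun i hi => ((Pi.single i 1 : Fin N → ℕ), Classical.choose ((hA i).1 hi)))
    ?_ ?_ ?_
  · intro i hi
    obtain ⟨h1, h2⟩ := Classical.choose_spec ((hA i).1 hi)
    have h3 := (ifac_axis h0 i).2 ⟨rfl, h1⟩
    rw [Finset.mem_filter, Finset.mem_filter, hT]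
    exact ⟨⟨h3.1, h2⟩, by rw [h3.2]; exact Finset.card_singleton i⟩
  · intro i hi k hk h
    have h1 := congrFun (congrArg Prod.fst h) i
    by_contra hne
    simp only [Pi.single_eq_same, Pi.single_eq_of_ne hne] at h1
    exact one_ne_zero h1
  · rintro ⟨w, e⟩ hp
    rw [Finset.mem_filter, Finset.mem_filter, hT] at hp
    obtain ⟨⟨h1, h2⟩, h3⟩ := hp
    obtain ⟨i, hi⟩ := Finset.card_eq_one.1 h3
    obtain ⟨h4, h5⟩ := (ifac_axis h0 i).1 ⟨h1, hi⟩
    have hiA : i ∈ A := (hA i).2 ⟨e, h5, h2⟩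
    refine ⟨i, hiA, ?_⟩
    obtain ⟨h6, h7⟩ := Classical.choose_spec ((hA i).1 hiA)
    refine Prod.ext h4.symm ?_
    exact le_antisymm (h6.2 _ h5.1) (h5.2 _ h6.1)

end NC
end MotMono
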