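import Pool.Agent.Lib.MP_4e5fcd_ag.NC.M1

/-!
# NC-M2: decomposition by the orders of the coordinates

`cls_biUnion` (K1.lean) with `s = box N K`, `E o = Pc f y K n o` (`constr_Pc`). Disjoint: let `γ` be in `Pc o` and `Pc o'`, `o i < o' i` (by symmetry). Then `o i ≤ K` (as `o' i ≤ K + 1`), so
`γ (i, l) ≠ 0` for the `l` with `l = o i`, but `l < o' i`, so `γ (i, l) = 0`. (Disjointness is needed for `o ∈ box`, `o' ∈ box` only; `cls_biUnion` gives the membership.)
Union: for `γ ∈ Cj f y K n` let `o i` be the least `l ≤ K` with `γ (i, l) ≠ 0` (`Nat.find`, `l < n + 1` as `K ≤ n`), and `o i = K + 1` if there is none; `o i ≥ 1` as `γ (i, 0) = 0`.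
-/

open MvPolynomial

namespace MotMono
namespace NC

open WH

variable {N r : ℕ}

private theorem m2_lt_false {f : Fin r → MvPolynomial (Fin N) ℂ} {y : Fin r → ℂ} {K n : ℕ}
    {o o' : Fin N → ℕ} (ho' : o' ∈ box N K) {γ : Fin N × Fin (n + 1) → ℂ}
    (h : γ ∈ Pc f y K n o) (h' : γ ∈ Pc f y K n o') (i : Fin N) (hlt : o i < o' i) : False := by
  have h1 : o' i ≤ K + 1 := (Finset.mem_Icc.1 (Fintype.mem_piFinset.1 ho' i)).2
  obtain ⟨l, hl, hne⟩ := (h.2 i).2 (by omega)
  exact hne ((h'.2 i).1 l (by omega))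

theorem chi_Cj_sum {χ : K0 →+* ℤ} (f : Fin r → MvPolynomial (Fin N) ℂ)
    (y : Fin r → ℂ) {K n : ℕ} (hKn : K ≤ n) :
    χ (cls (Cj f y K n)) = ∑ o ∈ box N K, χ (cls (Pc f y K n o)) := by
  classical
  have hU : Cj f y K n = ⋃ o ∈ box N K, Pc f y K n o := by
    ext γ
    simp only [Set.mem_iUnion, exists_prop]
    constructor
    · intro hγ
      let P : Fin N → ℕ → Prop := fun i l => l ≤ K ∧ ∃ hl : l < n + 1, γ (i, ⟨l, hl⟩) ≠ 0
      let o : Fin N → ℕ := fun i => if h : ∃ l, P i l then Nat.find h else K + 1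
      have ho1 : ∀ i, ∀ h : ∃ l, P i l, o i = Nat.find h := fun i h => dif_pos h
      have ho2 : ∀ i, (¬ ∃ l, P i l) → o i = K + 1 := fun i h => dif_neg h
      refine ⟨o, Fintype.mem_piFinset.2 fun i => Finset.mem_Icc.2 ?_, hγ, fun i => ⟨?_, ?_⟩⟩
      · by_cases h : ∃ l, P i l
        · rw [ho1 i h]
          obtain ⟨h1, hl, h2⟩ := Nat.find_spec h
          refine ⟨?_, by omega⟩
          by_contra hcon
          apply h2
          have h3 : (⟨Nat.find h, hl⟩ : Fin (n + 1)) = 0 := by
            apply Fin.ext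
            simp only [Fin.val_zero]
            omega
          rw [h3]
          exact hγ.1 i
        · rw [ho2 i h]
          omega
      · intro l hl
        by_cases h : ∃ l, P i l
        · rw [ho1 i h] at hl
          have h1 := (Nat.find_spec h).1
          have h2 := Nat.find_min h hl
          by_contra hne
          exact h2 ⟨by omega, l.2, hne⟩
        · rw [ho2 i h] at hl
          by_contra hne
          exact h ⟨l, by omega, l.2, hne⟩
      · intro hi
        by_cases h : ∃ l, P i l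
        · obtain ⟨-, hl, h2⟩ := Nat.find_spec h
          exact ⟨⟨Nat.find h, hl⟩, (ho1 i h).symm, h2⟩
        · rw [ho2 i h] at hi
          omega
    · rintro ⟨o, -, hγ⟩
      exact hγ.1
  rw [hU, cls_biUnion (box N K) (fun o _ => constr_Pc f y K n o) ?_, map_sum]
  intro o ho o' ho' hne
  rw [Set.disjoint_left]
  intro γ h h'
  apply hne
  funext i
  rcases lt_trichotomy (o i) (o' i) with hlt | heq | hlt
  · exact (m2_lt_false ho' h h' i hlt).elim
  · exact heq
  · exact (m2_lt_false ho h' h i hlt).elim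

end NC
end MotMono
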