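import Pool.Agent.Lib.MP_4e5fcd_ag.NC.M1

/-!
# NC-M3: the pieces whose least weight is not `K`

All is done with `M = 1`, `h = 1` and the weights `o` in `Low`, `lead`, `SecS`. For `γ ∈ Pc f y K n o` we have `Low o 1 1 γ`; and `lead o 1 1 γ i = γ (i, o i)` (`o i ≤ K + 1 ≤ n`).
`Pc_gt`: all monomials of `f j` have weight at least `K + 1`: `low_coeffS` (SW-B1, `δ = K + 1`, `M = h = 1`) gives `(along (f j) γ).coeff K = 0`, so `y j = 0` for all `j`: contradiction. So the set is empty.
`chi_Pc_lt`: `e < K` is the least weight; `e > 0` since `m ≠ 0` for `m ∈ Sup f` and `o > 0`. Let `γ ∈ Pc f y K n o` and `z i = γ (i, o i)` for `o i ≤ K`, `z i = 1` for `o i = K + 1`; all `z i ≠ 0`.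
The coefficient `e` of `f j (γ)` is `eval (lead o 1 1 γ) (ip f o e j)` by `eq_coeffS` (SW-B1) and also `0` by `e < K`; the monomials `m` of `ip f o e j` have weight `e < K + 1`, so
`m i = 0` if `o i = K + 1`, and `eval z (ip f o e j) = eval (lead o 1 1 γ) (ip f o e j) = 0` (`eval_eq'`): `z ∈ VT f o e`. If `o i = K + 1` for some `i`: `ext_of_zero` (Fa) with the `i`-th unit vector `y`
and `t = 0` (`m i = 0` for all `m ∈ Sup f` of weight `e`) gives `1 = c * o i`, `0 = c * e`, `e > 0`: contradiction. So: (a) if `o i = K + 1` for some `i` then `Pc = ∅`. (b) Otherwise all `o i ≤ K`, and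
`Pc f y K n o = SecS o 1 f univ (VT f o e) 1 (K + 1) n η` with `η b l = if l = K then y b else 0` (`γ (i, 0) = 0` since `o i ≥ 1`; `VT` contains the condition `lead ≠ 0`).
If `VT f o e = ∅` the set is empty. Otherwise `hf o e` gives independent gradients of the `ip f o e j = ini o (fun _ => e) f j` at the points of `VT f o e`
(so `ini ≠ 0` (a zero polynomial has gradient `0`), and `SWt o (fun _ => e) f`). `cls_SecS` (SW-C3; `hη`: `l * 1 ≤ 1 * e < K` so `η b l = 0`; `FixH o 1 1` is everything) gives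
`cls (Pc ..) = cls (VT f o e) * LL ^ _`, `hχ.line`, and `χ (cls (VT f o e)) = 0` by `chi_act` (SW-D3): `VT f o e` is stable under `act o s` (`ip f o e j` is weighted homogeneous:
`weightedHomogeneousComponent_isWeightedHomogeneous`; evaluation: `v5b_hom` in WH-V5b), `c ≠ 0` on it as `N > 0`. `Constr (VT f o e)`: finite intersection of `constr_ne (X i)` and `Constr.zeroSet`.
-/

open MvPolynomial

namespace MotMono
namespace NC

open WH

variable {N r : ℕ}

private theorem m3_ord {f : Fin r → MvPolynomial (Fin N) ℂ} {o : Fin N → ℕ} {e : ℕ}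
    (he : ∀ m ∈ Sup f, e ≤ wd o m) (j : Fin r) :
    ∀ m, coeff m (f j) ≠ 0 → e ≤ ∑ i, m i * o i := fun m hm =>
  he m (Finset.mem_biUnion.2 ⟨j, Finset.mem_univ j, mem_support_iff.2 hm⟩)

private theorem m3_low {f : Fin r → MvPolynomial (Fin N) ℂ} {y : Fin r → ℂ} {K n : ℕ}
    {o : Fin N → ℕ} {γ : Fin N × Fin (n + 1) → ℂ} (hγ : γ ∈ Pc f y K n o) : Low o 1 1 γ := by
  intro i l hl
  exact (hγ.2 i).1 l (by omega)

theorem Pc_gt (f : Fin r → MvPolynomial (Fin N) ℂ) {y : Fin r → ℂ} (hy : y ≠ 0) {K n : ℕ}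
    {o : Fin N → ℕ} (hm : ∀ m ∈ Sup f, K < wd o m) :
    Pc f y K n o = ∅ := by
  rw [Set.eq_empty_iff_forall_notMem]
  intro γ hγ
  apply hy
  funext j
  rw [← (hγ.1.2 j).2, Pi.zero_apply]
  exact low_coeffS (δ := K + 1) (m3_ord (fun m hm' => hm m hm') j) one_pos γ (m3_low hγ) K (by omega)

private theorem m3_constr_VT (f : Fin r → MvPolynomial (Fin N) ℂ) (w : Fin N → ℕ) (e : ℕ) :
    Constr (VT f w e) := by
  have h1 : VT f w e = (⋂ i : Fin N, {z : Fin N → ℂ | eval z (X i : MvPolynomial (Fin N) ℂ) ≠ 0}) ∩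
      ⋂ j : Fin r, {z : Fin N → ℂ | eval z (ip f w e j) = 0} := by
    ext z
    simp only [VT, Set.mem_ofPred_eq, Set.mem_inter_iff, Set.mem_iInter, eval_X]
  rw [h1]
  exact (constr_iInter fun i => constr_ne _).inter (constr_iInter fun j => Constr.zeroSet _)

/-- evaluation of a weighted homogeneous polynomial -/
private theorem m3_hom {w : Fin N → ℕ} {e : ℕ} {f : MvPolynomial (Fin N) ℂ}
    (hf : IsWeightedHomogeneous w f e) (s : ℂ) (x : Fin N → ℂ) :
    eval (fun i => s ^ w i * x i) f = s ^ e * eval x f := by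
  rw [eval_eq', eval_eq', Finset.mul_sum]
  refine Finset.sum_congr rfl fun m hm => ?_
  have h1 : Finsupp.weight w m = e := hf (mem_support_iff.1 hm)
  have h2 : ∑ i, m i * w i = e := by
    rw [← h1, Finsupp.weight_apply]
    exact (Finsupp.sum_fintype m (fun i c => c • w i) (fun i => zero_smul ℕ (w i))).symm
  have h3 : ∏ i, (s ^ w i * x i) ^ m i = s ^ e * ∏ i, x i ^ m i := by
    rw [← h2, ← Finset.prod_pow_eq_pow_sum, ← Finset.prod_mul_distrib]
    refine Finset.prod_congr rfl fun i _ => ?_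
    rw [mul_pow, ← pow_mul, mul_comm (w i)]
  rw [h3]
  ring

private theorem m3_chi_VT {χ : K0 →+* ℤ} (hχ : IsEulerCharF χ) (f : Fin r → MvPolynomial (Fin N) ℂ)
    (hN : 0 < N) {w : Fin N → ℕ} (hw : ∀ i, 0 < w i) (e : ℕ) : χ (cls (VT f w e)) = 0 := by
  refine chi_act hχ hw (m3_constr_VT f w e) (fun c hc h => ?_) fun s hs c hc => ⟨fun i => ?_, fun j => ?_⟩
  · exact hc.1 ⟨0, hN⟩ (by rw [h]; rfl)
  · exact mul_ne_zero (pow_ne_zero _ hs) (hc.1 i)
  · have h1 := m3_hom (weightedHomogeneousComponent_isWeightedHomogeneous (w := w) e (f j)) s c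
    have h2 := hc.2 j
    unfold ip at h2
    rw [h2, mul_zero] at h1
    exact h1

/-- the values of a part of small weight do not depend on the variables of large weight -/
private theorem m3_eval {f : Fin r → MvPolynomial (Fin N) ℂ} {o : Fin N → ℕ} {e : ℕ} (j : Fin r)
    {z z' : Fin N → ℂ} (h : ∀ i, o i ≤ e → z i = z' i) :
    eval z (ip f o e j) = eval z' (ip f o e j) := by
  rw [eval_eq', eval_eq']
  refine Finset.sum_congr rfl fun m hm => ?_
  congr 1
  refine Finset.prod_congr rfl fun i _ => ?_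
  by_cases hi : o i ≤ e
  · rw [h i hi]
  · have h1 : m i = 0 := by
      by_contra h2
      have h3 := (mem_support_ip hm).2
      have h4 : m i * o i ≤ wd o m :=
        Finset.single_le_sum (f := fun i => m i * o i) (fun _ _ => Nat.zero_le _) (Finset.mem_univ i)
      have h5 : o i ≤ m i * o i := Nat.le_mul_of_pos_left _ (Nat.pos_of_ne_zero h2)
      omega
    rw [h1, pow_zero, pow_zero]

private theorem m3_lead {o : Fin N → ℕ} {n : ℕ} (γ : Fin N × Fin (n + 1) → ℂ) (i : Fin N)
    (l : Fin (n + 1)) (hl : (l : ℕ) = o i) : lead o 1 1 γ i = γ (i, l) := by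
  have h1 : 1 ∣ 1 * o i ∧ 1 * o i / 1 < n + 1 := by
    refine ⟨one_dvd _, ?_⟩
    rw [Nat.div_one, one_mul, ← hl]
    exact l.2
  unfold lead
  rw [dif_pos h1]
  congr 2
  apply Fin.ext
  show 1 * o i / 1 = (l : ℕ)
  rw [Nat.div_one, one_mul, hl]

theorem chi_Pc_lt {χ : K0 →+* ℤ} (hχ : IsEulerCharF χ) {f : Fin r → MvPolynomial (Fin N) ℂ}
    (hr : r + 1 = N) (hf : Nondeg f) (h0 : (0 : Fin N →₀ ℕ) ∉ Sup f) (y : Fin r → ℂ) {K n : ℕ}
    (hn : 2 * K + 2 ≤ n) {o : Fin N → ℕ} (ho : o ∈ box N K) {e : ℕ} (he : ∀ m ∈ Sup f, e ≤ wd o m)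
    (hex : ∃ m ∈ Sup f, wd o m = e) (heK : e < K) : χ (cls (Pc f y K n o)) = 0 := by
  classical
  have ho1 : ∀ i, 1 ≤ o i ∧ o i ≤ K + 1 := fun i => Finset.mem_Icc.1 (Fintype.mem_piFinset.1 ho i)
  have hpos : ∀ i, 0 < o i := fun i => (ho1 i).1
  have he0 : 0 < e := by
    obtain ⟨m, hm, hme⟩ := hex
    have h1 : m ≠ 0 := fun h => h0 (h ▸ hm)
    obtain ⟨i, hi⟩ : ∃ i, m i ≠ 0 := by
      by_contra hcon
      push Not at hcon
      exact h1 (Finsupp.ext hcon)
    have h2 : m i * o i ≤ wd o m :=
      Finset.single_le_sum (f := fun i => m i * o i) (fun _ _ => Nat.zero_le _) (Finset.mem_univ i)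
    have h3 : 0 < m i * o i := Nat.mul_pos (Nat.pos_of_ne_zero hi) (hpos i)
    omega
  have hempty : (∀ γ, γ ∉ Pc f y K n o) → χ (cls (Pc f y K n o)) = 0 := by
    intro h
    rw [Set.eq_empty_iff_forall_notMem.2 h, cls_empty, map_zero]
  have hlead : ∀ γ ∈ Pc f y K n o, ∀ j, eval (lead o 1 1 γ) (ip f o e j) = 0 := by
    intro γ hγ j
    have h1 := eq_coeffS (m3_ord he j) (M := 1) (h := 1) one_pos le_rfl
      (fun i => by have := (ho1 i).2; omega) γ (m3_low hγ) e (by omega)
    exact h1.symm.trans ((hγ.1.2 j).1 e heK)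
  by_cases hall : ∀ i, o i ≤ K
  swap
  · apply hempty
    intro γ hγ
    push Not at hall
    obtain ⟨i, hi⟩ := hall
    set z : Fin N → ℂ := fun i => if o i ≤ K then lead o 1 1 γ i else 1 with hz
    have hzV : z ∈ VT f o e := by
      refine ⟨fun k => ?_, fun j => ?_⟩
      · rw [hz]
        by_cases hk : o k ≤ K
        · simp only [if_pos hk]
          obtain ⟨l, hl, hne⟩ := (hγ.2 k).2 hk
          rw [m3_lead γ k l hl]
          exact hne
        · simp only [if_neg hk]
          exact one_ne_zero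
      · rw [← hlead γ hγ j]
        refine m3_eval j fun k hk => ?_
        rw [hz]
        exact if_pos (by omega)
    obtain ⟨c, hc, hc0⟩ := ext_of_zero hr hf hpos he hex he0 hzV (Pi.single i 1) 0 (by
      intro m hm hme
      have h1 : m i = 0 := by
        by_contra h2
        have h4 : m i * o i ≤ wd o m :=
          Finset.single_le_sum (f := fun i => m i * o i) (fun _ _ => Nat.zero_le _) (Finset.mem_univ i)
        have h5 : o i ≤ m i * o i := Nat.le_mul_of_pos_left _ (Nat.pos_of_ne_zero h2)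
        omega
      rw [Finset.sum_eq_zero]
      intro k _
      by_cases hk : k = i
      · rw [hk, h1, Nat.cast_zero, zero_mul]
      · rw [Pi.single_eq_of_ne hk, mul_zero])
    have h1 := hc i
    rw [Pi.single_eq_same] at h1
    have h2 : (e : ℂ) ≠ 0 := by exact_mod_cast he0.ne'
    have h3 : c = 0 := (mul_eq_zero.1 hc0.symm).resolve_right h2
    rw [h3, zero_mul] at h1
    exact one_ne_zero h1
  · by_cases hV : (VT f o e).Nonempty
    swap
    · apply hempty
      intro γ hγ
      apply hV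
      refine ⟨lead o 1 1 γ, fun i => ?_, hlead γ hγ⟩
      obtain ⟨l, hl, hne⟩ := (hγ.2 i).2 (hall i)
      rw [m3_lead γ i l hl]
      exact hne
    · set η : Fin r → ℕ → ℂ := fun b l => if l = K then y b else 0 with hη
      have hset : Pc f y K n o = SecS o 1 f Finset.univ (VT f o e) 1 (K + 1) n η := by
        ext γ
        constructor
        · intro hγ
          refine ⟨m3_low hγ, ⟨fun i => ?_, hlead γ hγ⟩, fun b _ l hl => ?_⟩
          · obtain ⟨l, hl, hne⟩ := (hγ.2 i).2 (hall i)
            rw [m3_lead γ i l hl]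
            exact hne
          · rw [hη]
            by_cases hlK : l = K
            · simp only [if_pos hlK]
              rw [hlK]
              exact (hγ.1.2 b).2
            · simp only [if_neg hlK]
              exact (hγ.1.2 b).1 l (by omega)
        · rintro ⟨h1, h2, h3⟩
          refine ⟨⟨fun i => ?_, fun j => ⟨fun l hl => ?_, ?_⟩⟩, fun i => ⟨fun l hl => ?_, fun _ => ?_⟩⟩
          · refine h1 i 0 ?_
            rw [Fin.val_zero, Nat.zero_mul]
            exact Nat.mul_pos one_pos (hpos i)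
          · rw [h3 j (Finset.mem_univ j) l (by omega), hη]
            exact if_neg (by omega)
          · rw [h3 j (Finset.mem_univ j) K (by omega), hη]
            exact if_pos rfl
          · exact h1 i l (by omega)
          · have h4 : o i < n + 1 := by
              have := hall i
              omega
            refine ⟨⟨o i, h4⟩, rfl, ?_⟩
            rw [← m3_lead (o := o) γ i ⟨o i, h4⟩ rfl]
            exact h2.1 i
      have hind : ∀ c ∈ VT f o e, LinearIndependent ℂ fun j => grad (ip f o e j) c := fun c hc =>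
        hf o e hpos he hex c hc.1 hc.2
      have hSWt : SWt o (fun _ : Fin r => e) f := by
        refine ⟨hpos, fun _ => he0, fun j => m3_ord he j, fun j h => ?_⟩
        obtain ⟨c, hc⟩ := hV
        apply (hind c hc).ne_zero j
        have h1 : ip f o e j = 0 := h
        show grad (ip f o e j) c = 0
        rw [h1]
        funext i
        show eval c (pderiv i (0 : MvPolynomial (Fin N) ℂ)) = 0
        rw [map_zero, map_zero]
      rw [hset, cls_SecS (d := fun _ => e) hSWt one_pos le_rfl (fun i => by have := (ho1 i).2; omega)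
        (m3_constr_VT f o e) (fun c _ i hi => absurd (one_dvd _) hi)
        (fun c hc b _ => hc.2 b)
        (fun c hc => (hind c hc).comp _ Subtype.val_injective) η
        (fun b _ l hl => by
          rw [hη]
          refine if_neg ?_
          omega), map_mul, m3_chi_VT hχ f (by omega) hpos e, zero_mul]

end NC
end MotMono
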