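import Pool.Agent.Lib.MP_4e5fcd_ag.NC.M1

/-!
# NC-M4: the pieces whose least weight is `K`

`chi_Pc_eq`: let `I = {i | o i ≤ K}`. For `γ ∈ Pc f y K n o`: `Low o 1 1 γ` (`M = h = 1`). `low_coeffS`, `eq_coeffS` (SW-B1, `δ = K`): the coefficients `l < K` of `f j (γ)` vanish automatically and
the coefficient `K` is `eval (lead o 1 1 γ) (ip f o K j)`; the monomials of `ip f o K j` have weight `K`, so they do not contain the variables `i ∉ I` (`o i = K + 1`): the value is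
`eval z (ip f o K j)` for every `z` with `z i = γ (i, o i)`, `i ∈ I` (`eval_eq'`, `mem_support_ip` of Fa). Let `X` be the set of the `x : {i // i ∈ I} → ℂ` with all `x i ≠ 0` and
`eval (x extended by 0) (ip f o K j) = y j` for all `j` (constructible: `Constr.preimage`/`constr_Fz`). Then `Pc f y K n o = {γ | γ - 0 ∈ W ∧ φ (γ - 0) ∈ X}`, where `W` is the subspace of the `γ` with
`γ (i, l) = 0` for `l < o i` and `φ γ = (γ (i, o i))_(i ∈ I)` (linear, surjective on `W`; `o i ≤ K < n + 1`); and `Fz f y K o = {z | z - 0 ∈ W' ∧ ψ (z - 0) ∈ X}`, `W' = {z | z i = 0 for i ∉ I}`, `ψ` the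
restriction. Use `LF.chi_linFib` (LF-X0) with `hχ.line` twice.
`chi_Fz_zero`: `CN.chi_cstar` (CN-C1) with the weights `ξ`: `Fz` is stable under `z i ↦ s ^ ξ i * z i`: monomials `m` of `ip f o K j` satisfy `∑ m i * ξ i = 0`, so
`∏ (s ^ ξ i * z i) ^ m i = ∏ z i ^ m i`; `TA` is stable. There is `i` with `ξ i ≠ 0`, then `o i ≤ K` and `z i ≠ 0`. (`constr_Fz`.)
-/

open MvPolynomial

namespace MotMono
namespace NC

open WH

variable {N r : ℕ}

/-- the values of a part of small weight do not depend on the variables of large weight -/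
private theorem m4_eval {f : Fin r → MvPolynomial (Fin N) ℂ} {o : Fin N → ℕ} {e : ℕ} (j : Fin r)
    {z z' : Fin N → ℂ} (h : ∀ i, o i ≤ e → z i = z' i) :
    eval z (ip f o e j) = eval z' (ip f o e j) := by
  rw [eval_eq', eval_eq']
  refine Finset.sum_congr rfl fun m hm => ?_
  congr 1
  refine Finset.prod_congr rfl fun i _ => ?_
  by_cases hi : o i ≤ e
  · rw [h i hi]
  · have h1 : m i = 0 := by
      by_contra h2
      have h3 := (mem_support_ip hm).2
      have h4 : m i * o i ≤ wd o m :=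
        Finset.single_le_sum (f := fun i => m i * o i) (fun _ _ => Nat.zero_le _) (Finset.mem_univ i)
      have h5 : o i ≤ m i * o i := Nat.le_mul_of_pos_left _ (Nat.pos_of_ne_zero h2)
      omega
    rw [h1, pow_zero, pow_zero]

private theorem m4_lead {o : Fin N → ℕ} {n : ℕ} (γ : Fin N × Fin (n + 1) → ℂ) (i : Fin N)
    (l : Fin (n + 1)) (hl : (l : ℕ) = o i) : lead o 1 1 γ i = γ (i, l) := by
  have h1 : 1 ∣ 1 * o i ∧ 1 * o i / 1 < n + 1 := by
    refine ⟨one_dvd _, ?_⟩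
    rw [Nat.div_one, one_mul, ← hl]
    exact l.2
  unfold lead
  rw [dif_pos h1]
  congr 2
  apply Fin.ext
  show 1 * o i / 1 = (l : ℕ)
  rw [Nat.div_one, one_mul, hl]

/-- extension by zero -/
private noncomputable def m4_ext (o : Fin N → ℕ) (K : ℕ) (x : {i : Fin N // o i ≤ K} → ℂ) :
    Fin N → ℂ := fun i => if h : o i ≤ K then x ⟨i, h⟩ else 0

private theorem m4_ext_pos {o : Fin N → ℕ} {K : ℕ} (x : {i : Fin N // o i ≤ K} → ℂ) {i : Fin N}
    (h : o i ≤ K) : m4_ext o K x i = x ⟨i, h⟩ := dif_pos h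

private theorem m4_ext_neg {o : Fin N → ℕ} {K : ℕ} (x : {i : Fin N // o i ≤ K} → ℂ) {i : Fin N}
    (h : ¬ o i ≤ K) : m4_ext o K x i = 0 := dif_neg h

/-- the leading coefficients in the variables of weight at most `K` -/
private def m4_X (f : Fin r → MvPolynomial (Fin N) ℂ) (y : Fin r → ℂ) (K : ℕ) (o : Fin N → ℕ) :
    Set ({i : Fin N // o i ≤ K} → ℂ) := {x | m4_ext o K x ∈ Fz f y K o}

private theorem m4_constr_X (f : Fin r → MvPolynomial (Fin N) ℂ) (y : Fin r → ℂ) (K : ℕ)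
    (o : Fin N → ℕ) : Constr (m4_X f y K o) := by
  have h1 := (constr_Fz f y K o).preimage (σ := {i : Fin N // o i ≤ K})
    (fun i => if h : o i ≤ K then (X ⟨i, h⟩ : MvPolynomial {i : Fin N // o i ≤ K} ℂ) else 0)
  have h2 : m4_X f y K o = {x : {i : Fin N // o i ≤ K} → ℂ | (fun i => eval x
      (if h : o i ≤ K then (X ⟨i, h⟩ : MvPolynomial {i : Fin N // o i ≤ K} ℂ) else 0)) ∈ Fz f y K o} := by
    ext x
    have h3 : m4_ext o K x = fun i => eval x
        (if h : o i ≤ K then (X ⟨i, h⟩ : MvPolynomial {i : Fin N // o i ≤ K} ℂ) else 0) := by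
      funext i
      by_cases h : o i ≤ K
      · rw [m4_ext_pos x h, dif_pos h, eval_X]
      · rw [m4_ext_neg x h, dif_neg h, map_zero]
    rw [m4_X, Set.mem_ofPred_eq, Set.mem_ofPred_eq, h3]
  rw [h2]
  exact h1

private theorem m4_chi_Fz {χ : K0 →+* ℤ} (hχ : IsEulerCharF χ) (f : Fin r → MvPolynomial (Fin N) ℂ)
    (y : Fin r → ℂ) (K : ℕ) (o : Fin N → ℕ) :
    χ (cls (Fz f y K o)) = χ (cls (m4_X f y K o)) := by
  set W : Submodule ℂ (Fin N → ℂ) :=
    { carrier := {z | ∀ i, ¬ o i ≤ K → z i = 0}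
      add_mem' := fun {a b} ha hb i hi => by rw [Pi.add_apply, ha i hi, hb i hi, add_zero]
      zero_mem' := fun i _ => rfl
      smul_mem' := fun c a ha i hi => by rw [Pi.smul_apply, ha i hi, smul_zero] } with hW
  set ψ : (Fin N → ℂ) →ₗ[ℂ] ({i : Fin N // o i ≤ K} → ℂ) :=
    LinearMap.pi fun b => LinearMap.proj b.1 with hψ
  have hψa : ∀ z b, ψ z b = z b.1 := fun z b => rfl
  have hWm : ∀ z, z ∈ W ↔ ∀ i, ¬ o i ≤ K → z i = 0 := fun z => Iff.rfl
  have hext : ∀ z ∈ W, m4_ext o K (ψ z) = z := by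
    intro z hz
    funext i
    by_cases h : o i ≤ K
    · rw [m4_ext_pos _ h, hψa]
    · rw [m4_ext_neg _ h, (hWm z).1 hz i h]
  have hset : Fz f y K o = {z : Fin N → ℂ | z - 0 ∈ W ∧ ψ (z - 0) ∈ m4_X f y K o} := by
    ext z
    rw [Set.mem_ofPred_eq, sub_zero]
    constructor
    · intro hz
      have hzW : z ∈ W := by
        rw [hWm]
        intro i hi
        by_contra h
        have h1 := (hz.1 i).1 h
        exact hi (Finset.mem_filter.1 h1).2
      refine ⟨hzW, ?_⟩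
      show m4_ext o K (ψ z) ∈ Fz f y K o
      rw [hext z hzW]
      exact hz
    · rintro ⟨hzW, hz⟩
      have h1 : m4_ext o K (ψ z) ∈ Fz f y K o := hz
      rwa [hext z hzW] at h1
  rw [hset]
  refine LF.chi_linFib hχ.line W 0 ψ (fun x => ⟨m4_ext o K x, ?_, ?_⟩) (m4_constr_X f y K o)
  · rw [hWm]
    intro i hi
    exact m4_ext_neg x hi
  · funext b
    rw [hψa, m4_ext_pos x b.2]

theorem chi_Pc_eq {χ : K0 →+* ℤ} (hχ : IsEulerCharF χ) (f : Fin r → MvPolynomial (Fin N) ℂ)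
    (y : Fin r → ℂ) {K n : ℕ} (hn : K < n) {o : Fin N → ℕ} (ho : o ∈ box N K)
    (he : ∀ m ∈ Sup f, K ≤ wd o m) : χ (cls (Pc f y K n o)) = χ (cls (Fz f y K o)) := by
  classical
  rw [m4_chi_Fz hχ]
  have ho1 : ∀ i, 1 ≤ o i ∧ o i ≤ K + 1 := fun i => Finset.mem_Icc.1 (Fintype.mem_piFinset.1 ho i)
  have hord : ∀ j m, coeff m (f j) ≠ 0 → K ≤ ∑ i, m i * o i := fun j m hm =>
    he m (Finset.mem_biUnion.2 ⟨j, Finset.mem_univ j, mem_support_iff.2 hm⟩)
  have hlt : ∀ b : {i : Fin N // o i ≤ K}, o b.1 < n + 1 := fun b => by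
    have := b.2
    omega
  set W : Submodule ℂ (Fin N × Fin (n + 1) → ℂ) :=
    { carrier := {γ | ∀ i (l : Fin (n + 1)), (l : ℕ) < o i → γ (i, l) = 0}
      add_mem' := fun {a b} ha hb i l hi => by rw [Pi.add_apply, ha i l hi, hb i l hi, add_zero]
      zero_mem' := fun i l _ => rfl
      smul_mem' := fun c a ha i l hi => by rw [Pi.smul_apply, ha i l hi, smul_zero] } with hW
  set φ : (Fin N × Fin (n + 1) → ℂ) →ₗ[ℂ] ({i : Fin N // o i ≤ K} → ℂ) :=
    LinearMap.pi fun b => LinearMap.proj (b.1, ⟨o b.1, hlt b⟩) with hφ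
  have hφa : ∀ γ b, φ γ b = γ (b.1, ⟨o b.1, hlt b⟩) := fun γ b => rfl
  have hWm : ∀ γ, γ ∈ W ↔ ∀ i (l : Fin (n + 1)), (l : ℕ) < o i → γ (i, l) = 0 := fun γ => Iff.rfl
  have hlow : ∀ γ ∈ W, Low o 1 1 γ := by
    intro γ hγ i l hl
    exact (hWm γ).1 hγ i l (by omega)
  have hval : ∀ γ ∈ W, ∀ j, (along (f j) γ).coeff K = eval (m4_ext o K (φ γ)) (ip f o K j) := by
    intro γ hγ j
    have h1 := eq_coeffS (hord j) (M := 1) (h := 1) one_pos le_rfl
      (fun i => by have := (ho1 i).2; omega) γ (hlow γ hγ) K (by omega)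
    refine h1.trans ?_
    refine m4_eval j fun i hi => ?_
    rw [m4_ext_pos _ hi, hφa]
    exact m4_lead γ i _ rfl
  have hlowc : ∀ γ ∈ W, ∀ j, ∀ l < K, (along (f j) γ).coeff l = 0 := by
    intro γ hγ j l hl
    exact low_coeffS (δ := K) (hord j) one_pos γ (hlow γ hγ) l (by omega)
  have hset : Pc f y K n o = {γ : Fin N × Fin (n + 1) → ℂ | γ - 0 ∈ W ∧ φ (γ - 0) ∈ m4_X f y K o} := by
    ext γ
    rw [Set.mem_ofPred_eq, sub_zero]
    constructor
    · intro hγ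
      have hγW : γ ∈ W := (hWm γ).2 fun i l hl => (hγ.2 i).1 l hl
      refine ⟨hγW, ?_⟩
      show m4_ext o K (φ γ) ∈ Fz f y K o
      refine ⟨fun i => ?_, fun j => ?_⟩
      · rw [Finset.mem_filter]
        by_cases h : o i ≤ K
        · rw [m4_ext_pos _ h, hφa]
          obtain ⟨l, hl, hne⟩ := (hγ.2 i).2 h
          have h2 : l = ⟨o i, hlt ⟨i, h⟩⟩ := Fin.ext hl
          rw [h2] at hne
          exact iff_of_true hne ⟨Finset.mem_univ i, h⟩
        · rw [m4_ext_neg _ h]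
          exact iff_of_false (fun h2 => h2 rfl) fun h2 => h h2.2
      · rw [← hval γ hγW j]
        exact (hγ.1.2 j).2
    · rintro ⟨hγW, hγ⟩
      have h1 : m4_ext o K (φ γ) ∈ Fz f y K o := hγ
      refine ⟨⟨fun i => (hWm γ).1 hγW i 0 ?_, fun j => ⟨hlowc γ hγW j, ?_⟩⟩,
        fun i => ⟨fun l hl => (hWm γ).1 hγW i l hl, fun h => ⟨⟨o i, hlt ⟨i, h⟩⟩, rfl, ?_⟩⟩⟩
      · rw [Fin.val_zero]
        exact (ho1 i).1
      · rw [hval γ hγW j]
        exact h1.2 j
      · have h2 := (h1.1 i).2 (Finset.mem_filter.2 ⟨Finset.mem_univ i, h⟩)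
        rw [m4_ext_pos _ h, hφa] at h2
        exact h2
  rw [hset]
  refine LF.chi_linFib hχ.line W 0 φ (fun x => ?_) (m4_constr_X f y K o)
  refine ⟨fun q => if (q.2 : ℕ) = o q.1 then m4_ext o K x q.1 else 0, ?_, ?_⟩
  · rw [hWm]
    intro i l hl
    exact if_neg (by show ¬ (l : ℕ) = o i; omega)
  · funext b
    rw [hφa]
    simp only [if_true]
    rw [m4_ext_pos x b.2]

theorem chi_Fz_zero {χ : K0 →+* ℤ} (hχ : IsEulerCharF χ) (f : Fin r → MvPolynomial (Fin N) ℂ)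
    (y : Fin r → ℂ) {K : ℕ} {o : Fin N → ℕ} (ξ : Fin N → ℤ) (hξ : ξ ≠ 0)
    (hξ1 : ∀ i, K < o i → ξ i = 0)
    (hξ2 : ∀ m ∈ Sup f, wd o m = K → ∑ i, (m i : ℤ) * ξ i = 0) : χ (cls (Fz f y K o)) = 0 := by
  refine CN.chi_cstar hχ ξ _ (constr_Fz f y K o) ?_ ?_
  · rintro s hs z ⟨hz1, hz2⟩
    refine ⟨fun i => ?_, fun j => ?_⟩
    · rw [← hz1 i]
      exact ⟨fun h => right_ne_zero_of_mul h, fun h => mul_ne_zero (zpow_ne_zero _ hs) h⟩
    · rw [← hz2 j, eval_eq', eval_eq']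
      refine Finset.sum_congr rfl fun m hm => ?_
      congr 1
      obtain ⟨h1, h2⟩ := mem_support_ip hm
      have h3 : ∀ i, (s ^ ξ i * z i) ^ m i = s ^ ((m i : ℤ) * ξ i) * z i ^ m i := by
        intro i
        rw [mul_pow, mul_comm (m i : ℤ) (ξ i), zpow_mul, zpow_natCast]
      have h4 : ∏ i, s ^ ((m i : ℤ) * ξ i) = s ^ (∑ i, (m i : ℤ) * ξ i) := by
        classical
        have h5 : ∀ t : Finset (Fin N), ∏ i ∈ t, s ^ ((m i : ℤ) * ξ i) =
            s ^ (∑ i ∈ t, (m i : ℤ) * ξ i) := by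
          intro t
          induction t using Finset.induction_on with
          | empty => simp
          | insert a t ha ih => rw [Finset.prod_insert ha, Finset.sum_insert ha, zpow_add₀ hs, ih]
        exact h5 Finset.univ
      simp only [h3]
      rw [Finset.prod_mul_distrib, h4, hξ2 m h1 h2, zpow_zero, one_mul]
  · rintro z ⟨hz1, -⟩
    obtain ⟨i, hi⟩ := Function.ne_iff.1 hξ
    refine ⟨i, hi, ?_⟩
    have h1 : o i ≤ K := by
      by_contra h
      exact hi (hξ1 i (not_le.1 h))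
    exact (hz1 i).2 (Finset.mem_filter.2 ⟨Finset.mem_univ i, h1⟩)

end NC
end MotMono
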