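import Pool.Agent.Lib.MP_4e5fcd_ag.NC.MDefs

/-!
# NC-M5: facets in coordinate subspaces

`facI_props`: let `hF : IFac S w e`. (1) `w ≠ 0` since `gcd w = 1`. (2) there is `m ∈ SI S (sw w)` with `wd w m = e`: otherwise `hF.ext 0 1` (no conditions on the points) gives `0 = c * w i`, `1 = c * e`;
some `w i ≠ 0`, so `c = 0`: contradiction. (3) each `i` with `w i > 0` occurs in such an `m`: otherwise `hF.ext` with the `i`-th unit vector and `t = 0` gives `1 = c * w i`, `0 = c * e`, `e > 0`: contradiction.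
So `w i ≤ m i * w i ≤ e`. (`SI`: filter; `sw`: filter.)
`xi_or_fac`: `I = {i | o i ≤ K}`, `oI i = o i` for `i ∈ I`, `0` otherwise. A point `m ∈ S` of weight `K` for `o` has support in `I` (`o i = K + 1` off `I`) and is `≠ 0`, so `I ≠ ∅`; `h := gcd oI > 0`,
`w := oI / h`, so `h * w i = oI i`, `gcd w = 1` (`Finset.gcd_eq_gcd...`/`Nat`: e.g. `Finset.exists_mul_eq_gcd..`; or `Finset.gcd_div_eq_one`), `sw w = I`; `h ∣ K = ∑ m i * oI i`, `e := K / h > 0`, `K / e = h`.
For `m ∈ SI S I`: `h * wd w m = wd o m ≥ K = h * e`. Suppose there is no `ξ` as stated; to show `hF.ext`: let `y`, `t` be rational, `y i = 0` for `w i = 0`, `∑ m i * y i = t` for the `m ∈ SI S I` of weight `e` for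
`w` (these are the `m ∈ S` of weight `K` for `o`). `ξ' i := K * y i - t * oI i` (rational) satisfies `ξ' i = 0` off `I` and `∑ m i * ξ' i = K t - t K = 0` on these points. Multiply by a common denominator `D > 0`
(e.g. `∏ (ξ' i).den`, or `IsLocalization.exist_integer_multiples_of_finset`) : `ξ i = D ξ' i` is integral, so `ξ = 0` by assumption, i.e. `K * y i = t * oI i = t * h * w i`. Take `c = t * h / K = t / e`:
`y i = c * w i`, `c * e = t`.
-/

open MvPolynomial

namespace MotMono
namespace NC

open WH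

variable {N r : ℕ}

private lemma m5_mem_SI {S : Finset (Fin N →₀ ℕ)} {w : Fin N → ℕ} {m : Fin N →₀ ℕ} :
    m ∈ SI S (sw w) ↔ m ∈ S ∧ ∀ i, m i ≠ 0 → 0 < w i := by
  unfold SI sw
  simp only [Finset.mem_filter, Finset.mem_univ, true_and]

theorem ifac_props {S : Finset (Fin N →₀ ℕ)} {w : Fin N → ℕ} {e : ℕ} (hF : IFac S w e) :
    (∃ i, 0 < w i) ∧ (∃ m ∈ S, (∀ i, m i ≠ 0 → 0 < w i) ∧ wd w m = e) ∧
      (∀ i, 0 < w i → ∃ m ∈ S, (∀ i, m i ≠ 0 → 0 < w i) ∧ wd w m = e ∧ m i ≠ 0) ∧
      ∀ i, w i ≤ e := by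
  have hep : (0 : ℚ) < e := by exact_mod_cast hF.pos
  have h1 : ∃ i, 0 < w i := by
    by_contra hcon
    push Not at hcon
    have h2 := hF.prim
    have h3 : Finset.univ.gcd w = 0 := by
      rw [Finset.gcd_eq_zero_iff]
      intro i _
      have := hcon i
      omega
    omega
  have h3 : ∀ i, 0 < w i → ∃ m ∈ S, (∀ i, m i ≠ 0 → 0 < w i) ∧ wd w m = e ∧ m i ≠ 0 := by
    intro i hi
    by_contra hcon
    push Not at hcon
    obtain ⟨c, hc1, hc2⟩ := hF.ext (fun k => if k = i then 1 else 0) 0 (by
      intro k hk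
      have hki : k ≠ i := by
        rintro rfl
        omega
      simp [hki]) (by
      intro m hm hme
      rw [m5_mem_SI] at hm
      have h4 := hcon m hm.1 hm.2 hme
      simp [h4])
    have hc3 : c = 0 := by
      rcases mul_eq_zero.mp hc2.symm with h | h
      · exact h
      · exact absurd h hep.ne'
    have := hc1 i
    rw [hc3] at this
    simp at this
  obtain ⟨i0, hi0⟩ := h1
  obtain ⟨m0, hm0S, hm0, hm0e, _⟩ := h3 i0 hi0
  refine ⟨⟨i0, hi0⟩, ⟨m0, hm0S, hm0, hm0e⟩, h3, ?_⟩
  intro i
  rcases Nat.eq_zero_or_pos (w i) with hi | hi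
  · omega
  · obtain ⟨m, _, _, hme, hmi⟩ := h3 i hi
    rw [← hme]
    unfold wd
    calc w i ≤ m i * w i := Nat.le_mul_of_pos_left _ (Nat.pos_of_ne_zero hmi)
      _ ≤ ∑ i, m i * w i := Finset.single_le_sum (f := fun i => m i * w i)
          (fun _ _ => Nat.zero_le _) (Finset.mem_univ i)

theorem xi_or_fac {S : Finset (Fin N →₀ ℕ)} {K : ℕ} (hK : 0 < K)
    {o : Fin N → ℕ} (ho : o ∈ box N K) (he : ∀ m ∈ S, K ≤ wd o m) (hex : ∃ m ∈ S, wd o m = K) :
    (∃ ξ : Fin N → ℤ, ξ ≠ 0 ∧ (∀ i, K < o i → ξ i = 0) ∧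
      ∀ m ∈ S, wd o m = K → ∑ i, (m i : ℤ) * ξ i = 0) ∨
    ∃ p : (Fin N → ℕ) × ℕ, IFac S p.1 p.2 ∧ p.2 ∣ K ∧ o = oo K p := by
  by_cases hxi : ∃ ξ : Fin N → ℤ, ξ ≠ 0 ∧ (∀ i, K < o i → ξ i = 0) ∧
      ∀ m ∈ S, wd o m = K → ∑ i, (m i : ℤ) * ξ i = 0
  · exact Or.inl hxi
  right
  have ho' : ∀ i, 1 ≤ o i ∧ o i ≤ K + 1 := by
    intro i
    have := Fintype.mem_piFinset.mp ho i
    rwa [Finset.mem_Icc] at this
  obtain ⟨m0, hm0S, hm0⟩ := hex
  -- support of the points of weight `K`
  have hsupp : ∀ m : Fin N →₀ ℕ, wd o m = K → ∀ i, m i ≠ 0 → o i ≤ K := by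
    intro m hm i hi
    rw [← hm]
    unfold wd
    calc o i ≤ m i * o i := Nat.le_mul_of_pos_left _ (Nat.pos_of_ne_zero hi)
      _ ≤ ∑ i, m i * o i := Finset.single_le_sum (f := fun i => m i * o i)
          (fun _ _ => Nat.zero_le _) (Finset.mem_univ i)
  set oI : Fin N → ℕ := fun i => if o i ≤ K then o i else 0 with hoI
  have hoI1 : ∀ i, o i ≤ K → oI i = o i := fun i hi => by simp [hoI, hi]
  have hoI0 : ∀ i, ¬ o i ≤ K → oI i = 0 := fun i hi => by simp [hoI, hi]
  have hwdI : ∀ m : Fin N →₀ ℕ, (∀ i, m i ≠ 0 → o i ≤ K) → wd oI m = wd o m := by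
    intro m hm
    unfold wd
    apply Finset.sum_congr rfl
    intro i _
    by_cases hi : m i = 0
    · rw [hi, zero_mul, zero_mul]
    · rw [hoI1 i (hm i hi)]
  have hex0 : ∃ i, m0 i ≠ 0 := by
    by_contra hcon
    push Not at hcon
    have : wd o m0 = 0 := by
      unfold wd
      apply Finset.sum_eq_zero
      intro i _
      rw [hcon i, zero_mul]
    omega
  obtain ⟨i0, hi0⟩ := hex0
  have hi0K := hsupp m0 hm0 i0 hi0
  have hoIi0 : oI i0 ≠ 0 := by
    rw [hoI1 i0 hi0K]
    have := (ho' i0).1
    omega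
  set h := Finset.univ.gcd oI with hh
  have hdvd : ∀ i, h ∣ oI i := fun i => Finset.gcd_dvd (Finset.mem_univ i)
  have hpos : 0 < h := by
    rcases Nat.eq_zero_or_pos h with h0 | h0
    · exfalso
      have := hdvd i0
      rw [h0, zero_dvd_iff] at this
      exact hoIi0 this
    · exact h0
  set w : Fin N → ℕ := fun i => oI i / h with hw
  have hw1 : ∀ i, h * w i = oI i := fun i => Nat.mul_div_cancel' (hdvd i)
  have hprim : Finset.univ.gcd w = 1 := Finset.gcd_div_eq_one (Finset.mem_univ i0) hoIi0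
  have hwpos : ∀ i, 0 < w i ↔ o i ≤ K := by
    intro i
    constructor
    · intro hi
      by_contra hcon
      have h1 := hw1 i
      rw [hoI0 i hcon] at h1
      rcases Nat.mul_eq_zero.mp h1 with h2 | h2 <;> omega
    · intro hi
      rcases Nat.eq_zero_or_pos (w i) with h2 | h2
      · exfalso
        have h1 := hw1 i
        rw [hoI1 i hi, h2, mul_zero] at h1
        have := (ho' i).1
        omega
      · exact h2
  have hwdw : ∀ m : Fin N →₀ ℕ, h * wd w m = wd oI m := by
    intro m
    unfold wd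
    rw [Finset.mul_sum]
    apply Finset.sum_congr rfl
    intro i _
    rw [← hw1 i]
    ring
  have hKh : h ∣ K := by
    rw [← hm0, ← hwdI m0 (hsupp m0 hm0), ← hwdw]
    exact dvd_mul_right _ _
  obtain ⟨e, hKe⟩ := hKh
  have hepos : 0 < e := by
    rcases Nat.eq_zero_or_pos e with h0 | h0
    · rw [h0, mul_zero] at hKe
      omega
    · exact h0
  have hwe : ∀ m : Fin N →₀ ℕ, (∀ i, m i ≠ 0 → o i ≤ K) → (wd w m = e ↔ wd o m = K) := by
    intro m hm
    rw [← hwdI m hm, ← hwdw m, hKe]
    constructor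
    · intro h1
      rw [h1]
    · intro h1
      exact Nat.eq_of_mul_eq_mul_left hpos h1
  refine ⟨(w, e), ?_, ⟨h, by rw [hKe]; exact mul_comm _ _⟩, ?_⟩
  · refine ⟨hepos, ?_, hprim, ?_⟩
    · intro m hm
      rw [m5_mem_SI] at hm
      have hm' : ∀ i, m i ≠ 0 → o i ≤ K := fun i hi => (hwpos i).mp (hm.2 i hi)
      have h1 := he m hm.1
      rw [← hwdI m hm', ← hwdw m, hKe] at h1
      exact Nat.le_of_mul_le_mul_left h1 hpos
    · intro y t hy hyt
      -- the integral vector
      set x : Fin N → ℚ := fun i => K * y i - t * oI i with hx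
      obtain ⟨b, hb⟩ := IsLocalization.exist_integer_multiples_of_finset
        (nonZeroDivisors ℤ) (Finset.univ.image x)
      have hb' : ∀ i, ∃ z : ℤ, (z : ℚ) = (b : ℤ) * x i := by
        intro i
        obtain ⟨z, hz⟩ := hb (x i) (Finset.mem_image_of_mem x (Finset.mem_univ i))
        refine ⟨z, ?_⟩
        have : (algebraMap ℤ ℚ) z = (b : ℤ) • x i := hz
        rw [zsmul_eq_mul] at this
        exact this
      choose ξ hξ using hb'
      have hbne : ((b : ℤ) : ℚ) ≠ 0 := by
        have := nonZeroDivisors.ne_zero b.2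
        exact_mod_cast this
      have hx0 : ∀ i, K < o i → x i = 0 := by
        intro i hi
        have h1 : w i = 0 := by
          have := (hwpos i).not.mpr (by omega)
          omega
        simp only [hx]
        rw [hy i h1, hoI0 i (by omega)]
        simp
      have hKq : (K : ℚ) = h * e := by
        rw [hKe]
        push_cast
        ring
      have hxs : ∀ m ∈ S, wd o m = K → ∑ i, (m i : ℚ) * x i = 0 := by
        intro m hm hmK
        have hm' := hsupp m hmK
        have h1 : ∑ i, (m i : ℚ) * y i = t := by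
          apply hyt m _ ((hwe m hm').mpr hmK)
          rw [m5_mem_SI]
          exact ⟨hm, fun i hi => (hwpos i).mpr (hm' i hi)⟩
        have h2 : ∑ i, (m i : ℚ) * (oI i : ℚ) = K := by
          have := hwdI m hm'
          rw [hmK] at this
          rw [← this]
          unfold wd
          push_cast
          rfl
        calc ∑ i, (m i : ℚ) * x i = K * ∑ i, (m i : ℚ) * y i - t * ∑ i, (m i : ℚ) * (oI i : ℚ) := by
              rw [Finset.mul_sum, Finset.mul_sum, ← Finset.sum_sub_distrib]
              apply Finset.sum_congr rfl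
              intro i _
              simp only [hx]
              ring
          _ = 0 := by
              rw [h1, h2]
              ring
      have hξ0 : ξ = 0 := by
        by_contra hcon
        apply hxi
        refine ⟨ξ, hcon, ?_, ?_⟩
        · intro i hi
          have := hξ i
          rw [hx0 i hi, mul_zero] at this
          exact_mod_cast this
        · intro m hm hmK
          have h1 : ((∑ i, (m i : ℤ) * ξ i : ℤ) : ℚ) = 0 := by
            push_cast
            have h2 : ∑ i, (m i : ℚ) * (ξ i : ℚ) = (b : ℤ) * ∑ i, (m i : ℚ) * x i := by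
              rw [Finset.mul_sum]
              apply Finset.sum_congr rfl
              intro i _
              rw [hξ i]
              ring
            rw [h2, hxs m hm hmK, mul_zero]
          exact_mod_cast h1
      have hx00 : ∀ i, x i = 0 := by
        intro i
        have h1 := hξ i
        rw [hξ0] at h1
        simp only [Pi.zero_apply, Int.cast_zero] at h1
        rcases mul_eq_zero.mp h1.symm with h2 | h2
        · exact absurd h2 hbne
        · exact h2
      have heq : (e : ℚ) ≠ 0 := by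
        exact_mod_cast hepos.ne'
      have hhq : (h : ℚ) ≠ 0 := by
        exact_mod_cast hpos.ne'
      refine ⟨t / e, ?_, ?_⟩
      · intro i
        have h1 := hx00 i
        simp only [hx] at h1
        have h2 : (oI i : ℚ) = h * w i := by
          rw [← hw1 i]
          push_cast
          rfl
        rw [h2, hKq] at h1
        have h3 : (h : ℚ) * (e * y i - t * w i) = 0 := by linarith
        rcases mul_eq_zero.mp h3 with h4 | h4
        · exact absurd h4 hhq
        · field_simp
          linarith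
      · field_simp
  · funext i
    unfold oo
    simp only
    by_cases hi : w i = 0
    · rw [if_pos hi]
      have h1 := (hwpos i).not.mp (by omega)
      have h2 := (ho' i).2
      omega
    · rw [if_neg hi]
      have h1 := (hwpos i).mp (Nat.pos_of_ne_zero hi)
      have h2 : K / e = h := by
        rw [hKe]
        exact Nat.mul_div_cancel _ hepos
      rw [h2, hw1 i, hoI1 i h1]

end NC
end MotMono
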