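import Pool.Agent.Lib.MP_4e5fcd_ag.NC.M5

/-!
# NC-M6: reindexing

Let `p = (w, e) ∈ T`, `e ∣ K`, `h = K / e`, so `h e = K`, `h > 0`; `oo K p i = h * w i ≤ h * e = K` if `w i > 0` (`ifac_props`), and `≥ 1`; `oo K p i = K + 1` if `w i = 0`. So `oo K p ∈ box N K`.
For `m ∈ S`: if `m i ≠ 0` for some `i` with `w i = 0` then `wd (oo K p) m ≥ K + 1`; otherwise `m ∈ SI S (sw w)` and `wd (oo K p) m = h * wd w m ≥ h * e = K` (`Fac.ge`), with equality for the point of
`ifac_props`. `oo_inj`: if `oo K p = oo K p'` then `w i = 0 ↔ w' i = 0` (`oo K p i = K + 1 ↔ w i = 0`), so `h * w i = h' * w' i` for all `i`; `gcd w = gcd w' = 1`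
(`Fac.prim`) gives `h = h'` (`Finset.gcd_mul_left`), so `w = w'`, and `e = K / h = e'` (`h * e = K = h' * e'`).
`sum_box`: on the left only the `o` with the two conditions count; those for which `ξ` exists give `0` by `hg`; the others are `oo K p` for a unique `p ∈ T`, `p.2 ∣ K` (`xi_or_fac`); and it does not matter if
`oo K p` also admits a `ξ` (the term is the same on both sides). So: `Finset.sum_bij_ne_zero`, or: right side = sum over the image of `oo K` (injective, `Finset.sum_image`), which is a subset of the filtered box, and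
outside of it the terms vanish (`Finset.sum_subset`).
-/

open MvPolynomial

namespace MotMono
namespace NC

open WH

variable {N r : ℕ}

private theorem wd_oo {K : ℕ} {p : (Fin N → ℕ) × ℕ} {m : Fin N →₀ ℕ}
    (h : ∀ i, m i ≠ 0 → 0 < p.1 i) : wd (oo K p) m = K / p.2 * wd p.1 m := by
  unfold wd oo
  rw [Finset.mul_sum]
  refine Finset.sum_congr rfl fun i _ => ?_
  by_cases hm : m i = 0
  · rw [hm, zero_mul, zero_mul, mul_zero]
  · rw [if_neg (h i hm).ne']
    ring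

private theorem div_pos' {S : Finset (Fin N →₀ ℕ)} {K : ℕ} (hK : 0 < K) {w : Fin N → ℕ} {e : ℕ}
    (hp : IFac S w e) (hd : e ∣ K) : 0 < e ∧ 0 < K / e ∧ K / e * e = K := by
  have he : 0 < e := hp.pos
  exact ⟨he, Nat.div_pos (Nat.le_of_dvd hK hd) he, Nat.div_mul_cancel hd⟩

private theorem oo_le {S : Finset (Fin N →₀ ℕ)} {K : ℕ} (hK : 0 < K) {p : (Fin N → ℕ) × ℕ}
    (hp : IFac S p.1 p.2) (hd : p.2 ∣ K) (i : Fin N) : K / p.2 * p.1 i ≤ K := by
  obtain ⟨-, -, h3⟩ := div_pos' hK hp hd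
  calc K / p.2 * p.1 i ≤ K / p.2 * p.2 := Nat.mul_le_mul_left _ ((ifac_props hp).2.2.2 i)
    _ = K := h3

theorem oo_mem {S : Finset (Fin N →₀ ℕ)} {K : ℕ} (hK : 0 < K) {p : (Fin N → ℕ) × ℕ}
    (hp : IFac S p.1 p.2) (hd : p.2 ∣ K) :
    oo K p ∈ box N K ∧ (∀ m ∈ S, K ≤ wd (oo K p) m) ∧ ∃ m ∈ S, wd (oo K p) m = K := by
  obtain ⟨he, hh, hhe⟩ := div_pos' hK hp hd
  obtain ⟨-, ⟨m0, hm0, hs0, hw0⟩, -, hle⟩ := ifac_props hp
  refine ⟨?_, ?_, m0, hm0, ?_⟩
  · unfold box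
    rw [Fintype.mem_piFinset]
    intro i
    rw [Finset.mem_Icc]
    unfold oo
    split_ifs with h
    · exact ⟨by omega, le_rfl⟩
    · refine ⟨Nat.mul_pos hh (Nat.pos_of_ne_zero h), ?_⟩
      exact (oo_le hK hp hd i).trans (Nat.le_succ K)
  · intro m hm
    by_cases hc : ∀ i, m i ≠ 0 → 0 < p.1 i
    · rw [wd_oo hc]
      have h1 : p.2 ≤ wd p.1 m := by
        refine Fac.ge hp m ?_
        unfold SI sw
        rw [Finset.mem_filter]
        exact ⟨hm, fun i hi => Finset.mem_filter.2 ⟨Finset.mem_univ _, hc i hi⟩⟩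
      calc K = K / p.2 * p.2 := hhe.symm
        _ ≤ K / p.2 * wd p.1 m := Nat.mul_le_mul_left _ h1
    · push Not at hc
      obtain ⟨i, hi, hwi⟩ := hc
      have hw : p.1 i = 0 := by omega
      have h1 : m i * oo K p i ≤ wd (oo K p) m := by
        unfold wd
        exact Finset.single_le_sum (f := fun j => m j * oo K p j) (fun j _ => Nat.zero_le _)
          (Finset.mem_univ i)
      have h2 : oo K p i = K + 1 := by
        unfold oo
        rw [if_pos hw]
      rw [h2] at h1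
      have h3 : 1 ≤ m i := Nat.one_le_iff_ne_zero.2 hi
      nlinarith
  · rw [wd_oo hs0, hw0]
    exact hhe

theorem oo_inj {S : Finset (Fin N →₀ ℕ)} {K : ℕ} (hK : 0 < K) {p p' : (Fin N → ℕ) × ℕ}
    (hp : IFac S p.1 p.2) (hd : p.2 ∣ K) (hp' : IFac S p'.1 p'.2) (hd' : p'.2 ∣ K)
    (h : oo K p = oo K p') : p = p' := by
  obtain ⟨he, hh, hhe⟩ := div_pos' hK hp hd
  obtain ⟨he', hh', hhe'⟩ := div_pos' hK hp' hd'
  have hz : ∀ (q q' : (Fin N → ℕ) × ℕ), IFac S q.1 q.2 → q.2 ∣ K → IFac S q'.1 q'.2 → q'.2 ∣ K →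
      oo K q = oo K q' → ∀ i, q.1 i = 0 → q'.1 i = 0 := by
    intro q q' _ _ hq' hqd' hqq i hi
    by_contra hcon
    have h1 := congrFun hqq i
    unfold oo at h1
    rw [if_pos hi, if_neg hcon] at h1
    have h2 := oo_le hK hq' hqd' i
    omega
  have hmul : ∀ i, K / p.2 * p.1 i = K / p'.2 * p'.1 i := by
    intro i
    by_cases hi : p.1 i = 0
    · rw [hi, hz p p' hp hd hp' hd' h i hi, mul_zero, mul_zero]
    · have hi' : p'.1 i ≠ 0 := fun h0 => hi (hz p' p hp' hd' hp hd h.symm i h0)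
      have h1 := congrFun h i
      unfold oo at h1
      rw [if_neg hi, if_neg hi'] at h1
      exact h1
  have hg : K / p.2 = K / p'.2 := by
    have h1 : Finset.univ.gcd (fun i => K / p.2 * p.1 i) = K / p.2 := by
      rw [Finset.gcd_mul_left, show Finset.univ.gcd (fun i => p.1 i) = 1 from Fac.prim hp, mul_one]
      exact normalize_eq _
    have h2 : Finset.univ.gcd (fun i => K / p'.2 * p'.1 i) = K / p'.2 := by
      rw [Finset.gcd_mul_left, show Finset.univ.gcd (fun i => p'.1 i) = 1 from Fac.prim hp',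
        mul_one]
      exact normalize_eq _
    rw [← h1, ← h2]
    congr 1
    funext i
    exact hmul i
  refine Prod.ext ?_ ?_
  · funext i
    have h1 := hmul i
    rw [← hg] at h1
    exact Nat.eq_of_mul_eq_mul_left hh h1
  · have h1 : K / p.2 * p.2 = K / p.2 * p'.2 := by
      rw [hhe]
      conv_rhs => rw [hg]
      exact hhe'.symm
    exact Nat.eq_of_mul_eq_mul_left hh h1

open Classical in
theorem sum_box {S : Finset (Fin N →₀ ℕ)} {K : ℕ} (hK : 0 < K)
    (T : Finset ((Fin N → ℕ) × ℕ)) (hT : ∀ p, p ∈ T ↔ IFac S p.1 p.2) (g : (Fin N → ℕ) → ℤ)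
    (hg : ∀ o ∈ box N K, (∀ m ∈ S, K ≤ wd o m) → (∃ m ∈ S, wd o m = K) →
      (∃ ξ : Fin N → ℤ, ξ ≠ 0 ∧ (∀ i, K < o i → ξ i = 0) ∧
        ∀ m ∈ S, wd o m = K → ∑ i, (m i : ℤ) * ξ i = 0) → g o = 0) :
    (∑ o ∈ box N K, if (∀ m ∈ S, K ≤ wd o m) ∧ (∃ m ∈ S, wd o m = K) then g o else 0) =
      ∑ p ∈ T, if p.2 ∣ K then g (oo K p) else 0 := by
  rw [← Finset.sum_filter, ← Finset.sum_filter]
  have h1 : ∑ p ∈ T.filter (fun p => p.2 ∣ K), g (oo K p) =
      ∑ o ∈ (T.filter (fun p => p.2 ∣ K)).image (oo K), g o := by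
    rw [Finset.sum_image]
    intro p hp p' hp' h
    have hp1 := Finset.mem_filter.1 (Finset.mem_coe.1 hp)
    have hp2 := Finset.mem_filter.1 (Finset.mem_coe.1 hp')
    exact oo_inj hK ((hT p).1 hp1.1) hp1.2 ((hT p').1 hp2.1) hp2.2 h
  rw [h1]
  symm
  refine Finset.sum_subset ?_ ?_
  · intro o ho
    obtain ⟨p, hp, rfl⟩ := Finset.mem_image.1 ho
    have hp1 := Finset.mem_filter.1 hp
    obtain ⟨a, b, c⟩ := oo_mem hK ((hT p).1 hp1.1) hp1.2
    exact Finset.mem_filter.2 ⟨a, b, c⟩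
  · intro o ho hno
    obtain ⟨a, b, c⟩ := Finset.mem_filter.1 ho
    rcases xi_or_fac hK a b c with hx | ⟨p, hp, hd, rfl⟩
    · exact hg o a b c hx
    · exfalso
      apply hno
      exact Finset.mem_image.2 ⟨p, Finset.mem_filter.2 ⟨(hT p).2 hp, hd⟩, rfl⟩

end NC
end MotMono
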