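import Pool.Agent.Lib.MP_4e5fcd_ag.NC.M5

/-!
# NC-M7: the numbers of the facets

`Fz_oo`: `p = (w, e)`, `h = K / e`, `h e = K`. `oo K p i ≤ K ↔ w i > 0 ↔ wx w e i ≤ e` (`w i ≤ e` by `ifac_props`), so the sets `TA` agree. A monomial `m ∈ Sup f` has `wd (oo K p) m = K` iff `m i = 0` whenever
`w i = 0` and `h * wd w m = K = h * e`, iff `wd (wx w e) m = e`; so `ip f (oo K p) K j = ip f (wx w e) e j` (`coeff_weightedHomogeneousComponent`; `Finsupp.weight` is `wd`, see `mem_support_ip` in Fa).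
For monomials `m` not in the support of `f j` both coefficients vanish, so no membership in `Sup f` is needed.
`chi_Fz`: `chi_fibre_TA` (WH-V5b) with the weights `wx w e` (positive), `d = fun _ => e` (`e > 0`), the polynomials `Fp f p j` (weighted homogeneous of degree `e` for `wx w e`), `A = sw w` (nonempty, `ifac_props`),
`u p`: `∑ i ∈ sw w, u p i * wx w e i = ∑ i, u p i * w i = 1` and `(sw w).gcd (wx w e) = (sw w).gcd w = univ.gcd w = 1` (`wx w e i = w i` on `sw w`, `w i = 0` off `sw w`); the conditions `e < e` are void, and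
`sw w = {i | wx w e i ≤ e}`.
-/

open MvPolynomial

namespace MotMono
namespace NC

open WH

variable {N r : ℕ}

private theorem m7_weight (w : Fin N → ℕ) (m : Fin N →₀ ℕ) : Finsupp.weight w m = wd w m := by
  rw [Finsupp.weight_apply, Finsupp.sum_fintype _ _ (fun i => zero_smul ℕ (w i))]
  rfl

private theorem m7_term_le (w : Fin N → ℕ) (m : Fin N →₀ ℕ) (i : Fin N) (hi : m i ≠ 0) :
    w i ≤ wd w m := by
  unfold wd
  have h1 : m i * w i ≤ ∑ i, m i * w i :=
    Finset.single_le_sum (f := fun i => m i * w i) (fun _ _ => Nat.zero_le _) (Finset.mem_univ i)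
  have h2 : 1 * w i ≤ m i * w i := Nat.mul_le_mul_right _ (Nat.pos_of_ne_zero hi)
  omega

private theorem m7_wd {p : (Fin N → ℕ) × ℕ} {K h : ℕ} (he : 0 < p.2) (hh : 0 < h)
    (hK : K = p.2 * h) (m : Fin N →₀ ℕ) : wd (oo K p) m = K ↔ wd (wx p.1 p.2) m = p.2 := by
  by_cases hm : ∃ i, m i ≠ 0 ∧ p.1 i = 0
  · obtain ⟨i, h1, h2⟩ := hm
    have h3 : K + 1 ≤ wd (oo K p) m := by
      have h4 := m7_term_le (oo K p) m i h1
      unfold oo at h4
      simp only [h2, if_true] at h4
      exact h4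
    have h5 : p.2 + 1 ≤ wd (wx p.1 p.2) m := by
      have h4 := m7_term_le (wx p.1 p.2) m i h1
      unfold wx at h4
      simp only [h2, if_true] at h4
      exact h4
    constructor
    · intro h6; omega
    · intro h6; omega
  · push Not at hm
    have h1 : wd (oo K p) m = h * wd p.1 m := by
      unfold wd
      rw [Finset.mul_sum]
      refine Finset.sum_congr rfl fun i _ => ?_
      by_cases hi : m i = 0
      · rw [hi]; simp
      · unfold oo
        rw [if_neg (hm i hi), hK, Nat.mul_div_cancel_left _ he]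
        ring
    have h2 : wd (wx p.1 p.2) m = wd p.1 m := by
      unfold wd
      refine Finset.sum_congr rfl fun i _ => ?_
      by_cases hi : m i = 0
      · rw [hi]; simp
      · unfold wx
        rw [if_neg (hm i hi)]
    rw [h1, h2, hK, mul_comm p.2 h]
    exact ⟨fun h3 => Nat.eq_of_mul_eq_mul_left hh h3, fun h3 => by rw [h3]⟩

private theorem m7_ip (f : Fin r → MvPolynomial (Fin N) ℂ) {p : (Fin N → ℕ) × ℕ} {K h : ℕ}
    (he : 0 < p.2) (hh : 0 < h) (hK : K = p.2 * h) (j : Fin r) :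
    ip f (oo K p) K j = ip f (wx p.1 p.2) p.2 j := by
  classical
  unfold ip
  ext m
  rw [coeff_weightedHomogeneousComponent, coeff_weightedHomogeneousComponent, m7_weight, m7_weight]
  by_cases h1 : wd (oo K p) m = K
  · rw [if_pos h1, if_pos ((m7_wd he hh hK m).1 h1)]
  · rw [if_neg h1, if_neg fun h2 => h1 ((m7_wd he hh hK m).2 h2)]

private theorem m7_sw {p : (Fin N → ℕ) × ℕ} (hle : ∀ i, p.1 i ≤ p.2) :
    (Finset.univ.filter fun i => wx p.1 p.2 i ≤ p.2) = sw p.1 := by
  ext i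
  unfold sw
  rw [Finset.mem_filter, Finset.mem_filter]
  refine and_congr_right fun _ => ?_
  unfold wx
  by_cases hi : p.1 i = 0
  · rw [if_pos hi, hi]
    constructor <;> intro h <;> omega
  · rw [if_neg hi]
    exact ⟨fun _ => Nat.pos_of_ne_zero hi, fun _ => hle i⟩

theorem Fz_oo (f : Fin r → MvPolynomial (Fin N) ℂ) (y : Fin r → ℂ) {K : ℕ} (hK : 0 < K)
    {p : (Fin N → ℕ) × ℕ} (hp : IFac (Sup f) p.1 p.2) (hd : p.2 ∣ K) :
    Fz f y K (oo K p) = Fz f y p.2 (wx p.1 p.2) := by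
  obtain ⟨h, hh⟩ := hd
  have he : 0 < p.2 := hp.pos
  have hh0 : 0 < h := by
    rcases Nat.eq_zero_or_pos h with h0 | h0
    · rw [h0, mul_zero] at hh
      omega
    · exact h0
  have hle := (ifac_props hp).2.2.2
  have hset : (Finset.univ.filter fun i => oo K p i ≤ K) =
      Finset.univ.filter fun i => wx p.1 p.2 i ≤ p.2 := by
    rw [m7_sw hle]
    ext i
    unfold sw
    rw [Finset.mem_filter, Finset.mem_filter]
    refine and_congr_right fun _ => ?_
    unfold oo
    by_cases hi : p.1 i = 0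
    · rw [if_pos hi, hi]
      constructor <;> intro h <;> omega
    · rw [if_neg hi, hh, Nat.mul_div_cancel_left _ he]
      refine ⟨fun _ => Nat.pos_of_ne_zero hi, fun _ => ?_⟩
      rw [mul_comm p.2 h]
      exact Nat.mul_le_mul_left _ (hle i)
  unfold Fz
  rw [hset]
  ext z
  simp only [Set.mem_ofPred_eq]
  refine and_congr_right fun _ => forall_congr' fun j => ?_
  rw [m7_ip f he hh0 hh j]

theorem chi_Fz {χ : K0 →+* ℤ} (hχ : IsEulerCharF χ) (f : Fin r → MvPolynomial (Fin N) ℂ)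
    {y : Fin r → ℂ} {j₀ : Fin r} (hy : y j₀ = 1) {p : (Fin N → ℕ) × ℕ}
    (hp : IFac (Sup f) p.1 p.2) (u : (Fin N → ℕ) × ℕ → Fin N → ℤ)
    (hu : ∑ i, u p i * (p.1 i : ℤ) = 1) :
    χ (cls (Fz f y p.2 (wx p.1 p.2))) = p.2 * cq χ f u y j₀ p := by
  classical
  have he : 0 < p.2 := hp.pos
  obtain ⟨⟨i₀, hi₀⟩, -, -, hle⟩ := ifac_props hp
  have hA : (sw p.1).Nonempty := ⟨i₀, by unfold sw; exact Finset.mem_filter.2 ⟨Finset.mem_univ _, hi₀⟩⟩
  have hwx : ∀ i ∈ sw p.1, wx p.1 p.2 i = p.1 i := by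
    intro i hi
    unfold sw at hi
    unfold wx
    rw [if_neg (Finset.mem_filter.1 hi).2.ne']
  have hoff : ∀ i, i ∉ sw p.1 → p.1 i = 0 := by
    intro i hi
    unfold sw at hi
    by_contra h0
    exact hi (Finset.mem_filter.2 ⟨Finset.mem_univ _, Nat.pos_of_ne_zero h0⟩)
  have hgcd : (sw p.1).gcd (wx p.1 p.2) = 1 := by
    rw [Finset.gcd_congr rfl hwx]
    rw [← Nat.dvd_one, ← hp.prim]
    refine Finset.dvd_gcd fun i _ => ?_
    by_cases hi : i ∈ sw p.1
    · exact Finset.gcd_dvd hi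
    · rw [hoff i hi]
      exact dvd_zero _
  have hW : Wt (wx p.1 p.2) (fun _ => p.2) (Fp f p) := by
    refine ⟨fun i => ?_, fun _ => he, fun j => ?_⟩
    · unfold wx
      split_ifs with h
      · omega
      · exact Nat.pos_of_ne_zero h
    · unfold Fp ip
      exact weightedHomogeneousComponent_isWeightedHomogeneous _ _
  have hu' : ∑ i ∈ sw p.1, u p i * (wx p.1 p.2 i : ℤ) = (((sw p.1).gcd (wx p.1 p.2) : ℕ) : ℤ) := by
    rw [hgcd, Nat.cast_one, ← hu]
    have h1 : ∑ i ∈ sw p.1, u p i * (p.1 i : ℤ) = ∑ i, u p i * (p.1 i : ℤ) := by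
      refine Finset.sum_subset (Finset.subset_univ _) fun i _ hi => ?_
      rw [hoff i hi, Nat.cast_zero, mul_zero]
    rw [← h1]
    exact Finset.sum_congr rfl fun i hi => by rw [hwx i hi]
  have key := chi_fibre_TA hχ hW hA hu' p.2 y j₀ rfl hy
  rw [hgcd, Nat.cast_one, one_mul] at key
  unfold cq
  rw [← key]
  congr 2
  unfold Fz
  rw [m7_sw hle]
  ext z
  simp only [Set.mem_ofPred_eq]
  refine and_congr_right fun _ => ?_
  constructor
  · exact fun h => ⟨fun j hj => absurd hj (lt_irrefl _), fun j _ => h j⟩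
  · exact fun h j => h.2 j trivial

end NC
end MotMono
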