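import Pool.Agent.Lib.MP_4e5fcd_ag.NC.MA

/-!
# NC-M8: no zero or pole, no sum

`exists_zeta`: `Kum.exists_zeta_prod` (Kum-E11) with `s = T`, `n p = p.2 > 0` (`Fac.pos`), `c = cq ..`, `Λ K = χ (cls (Cj f y K K))`, `chi_Cj` (MA): if `∑ cq ≠ 0` there is `Z` with `IsZeta Λ Z`, `ZeroOrPole Z lam`.
`vis_of_zeta`: copy the proof of `vis_of_eigS` (SW-V2): some `Cj f y K K` with `K > 0` is not empty (otherwise `Λ K = 0` for all `K > 0`, `V2s_trivial` (private there: copy it)); take `γ` in it: `OrdGe` and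
`bp γ = 0` hold, the coefficient `K` of `f j₀` is `1 ≠ 0`, and `CN.CA (span) 0 (fun g => (along g γ).coeff K) d' = Cj f y d' d'` for all `d'` (`CN.mem_CA_span`). So `CN.Vis χ I 0 lam`.
`sum_cq_zero`: otherwise `Vis` at `0`, and `Near` holds with `p' = 0`: contradiction to `hn`.
-/

open MvPolynomial

namespace MotMono
namespace NC

open WH

variable {N r : ℕ}

private theorem m8_trivial (Λ : ℕ → ℤ) (h : ∀ m, 0 < m → Λ m = 0) (Z : PowerSeries ℂ)
    (hZ : IsZeta Λ Z) (lam : ℂ) (hP : ZeroOrPole Z lam) : False := by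
  have hL : (PowerSeries.mk fun d => if d = 0 then (0 : ℂ) else (Λ d : ℂ)) = 0 := by
    ext d
    rw [PowerSeries.coeff_mk]
    by_cases hd : d = 0
    · rw [if_pos hd]
      simp
    · rw [if_neg hd, h d (Nat.pos_of_ne_zero hd)]
      simp
  have h1 := hZ.2
  rw [hL, neg_zero, zero_mul] at h1
  have h2 : Z = 1 := by
    ext d
    rcases d with _ | d
    · have := hZ.1
      rw [PowerSeries.coeff_zero_eq_constantCoeff, this]
      simp
    · have h3 : PowerSeries.coeff (d + 1) (PowerSeries.X * PowerSeries.derivative ℂ Z)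
          = (0 : ℂ) := by
        rw [h1]
        simp
      rw [PowerSeries.coeff_succ_X_mul] at h3
      have h4 : PowerSeries.coeff d (PowerSeries.derivative ℂ Z)
          = PowerSeries.coeff (d + 1) Z * (d + 1) := PowerSeries.coeff_derivative Z d
      rw [h4] at h3
      have h5 : ((d : ℂ) + 1) ≠ 0 := by
        exact_mod_cast Nat.succ_ne_zero d
      rw [(mul_eq_zero.1 h3).resolve_right h5]
      rw [PowerSeries.coeff_one, if_neg (Nat.succ_ne_zero d)]
  obtain ⟨P, Q, hPQ, hQP, hroot⟩ := hP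
  rw [h2, mul_one] at hQP
  have h6 : Q = P := Polynomial.coe_injective ℂ hQP
  rw [h6] at hPQ hroot
  have h7 : IsUnit P := isCoprime_self.1 hPQ
  have h8 : P.eval lam ≠ 0 := by
    have := h7.map (Polynomial.evalRingHom lam)
    exact this.ne_zero
  rcases hroot with h | h
  · exact h8 h
  · exact h8 h

theorem vis_of_zeta {χ : K0 →+* ℤ} (f : Fin r → MvPolynomial (Fin N) ℂ) {y : Fin r → ℂ}
    {j₀ : Fin r} (hy : y j₀ = 1) {lam : ℂ} {Z : PowerSeries ℂ}
    (hZ : IsZeta (fun K => χ (cls (Cj f y K K))) Z) (hP : ZeroOrPole Z lam) :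
    CN.Vis χ (Ideal.span (Set.range f)) 0 lam := by
  have hex : ∃ m, 0 < m ∧ (Cj f y m m).Nonempty := by
    by_contra hcon
    push Not at hcon
    refine m8_trivial _ (fun m hm => ?_) Z hZ lam hP
    show χ (cls (Cj f y m m)) = 0
    rw [hcon m hm, cls_empty, map_zero]
  obtain ⟨m, hm, γ, hγ⟩ := hex
  have hbp : CN.bp γ = 0 := by
    funext i
    exact hγ.1 i
  have hord : CN.OrdGe (Ideal.span (Set.range f)) m γ := by
    rw [CN.ordGe_span]
    rintro _ ⟨j, rfl⟩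
    exact (hγ.2 j).1
  refine ⟨m, γ, hm, hbp, hord, ⟨f j₀, Ideal.subset_span ⟨j₀, rfl⟩, ?_⟩, Z, ?_, hP⟩
  · rw [(hγ.2 j₀).2, hy]
    exact one_ne_zero
  · have e1 : ∀ d', CN.CA (Ideal.span (Set.range f)) 0 (fun g => (along g γ).coeff m) d' =
        Cj f y d' d' := by
      intro d'
      ext δ
      have h1 := CN.mem_CA_span (m := d') (Set.range f) γ hord δ
      rw [hbp] at h1
      rw [h1]
      constructor
      · rintro ⟨h2, h3⟩
        refine ⟨fun i => congrFun h2 i, fun j => ?_⟩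
        obtain ⟨h4, h5⟩ := h3 (f j) ⟨j, rfl⟩
        exact ⟨h4, h5.trans (hγ.2 j).2⟩
      · rintro ⟨h2, h3⟩
        refine ⟨funext fun i => h2 i, ?_⟩
        rintro _ ⟨j, rfl⟩
        exact ⟨(h3 j).1, ((h3 j).2).trans ((hγ.2 j).2).symm⟩
    have e2 : (fun d => χ (cls (CN.CA (Ideal.span (Set.range f)) 0
        (fun g => (along g γ).coeff m) d))) = fun K => χ (cls (Cj f y K K)) := by
      funext d
      rw [e1 d]
    rw [e2]
    exact hZ

open Classical in
theorem sum_cq_zero {χ : K0 →+* ℤ} (hχ : IsEulerCharF χ) {f : Fin r → MvPolynomial (Fin N) ℂ}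
    (hr : r + 1 = N) (hf : Nondeg f) (h0 : (0 : Fin N →₀ ℕ) ∉ Sup f) {lam : ℂ}
    (hn : ¬ CN.Near χ (Ideal.span (Set.range f)) 0 lam)
    (T : Finset ((Fin N → ℕ) × ℕ)) (hT : ∀ p, p ∈ T ↔ IFac (Sup f) p.1 p.2)
    (u : (Fin N → ℕ) × ℕ → Fin N → ℤ) (hu : ∀ p ∈ T, ∑ i, u p i * (p.1 i : ℤ) = 1)
    {y : Fin r → ℂ} {j₀ : Fin r} (hy : y j₀ = 1) :
    ∑ p ∈ T.filter (fun p => lam ^ p.2 = 1), cq χ f u y j₀ p = 0 := by
  by_contra hne
  apply hn
  intro ε hε
  obtain ⟨Z, hZ, hP⟩ := Kum.exists_zeta_prod T (fun p => p.2) (fun p => cq χ f u y j₀ p)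
    (fun p hp => ((hT p).1 hp).pos) (fun K => χ (cls (Cj f y K K)))
    (fun K hK => chi_Cj hχ hr hf h0 T hT u hu hy hK) lam hne
  refine ⟨0, ?_, vis_of_zeta f hy hZ hP⟩
  rw [sub_zero, norm_zero]
  exact hε

end NC
end MotMono
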