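import Pool.Agent.Lib.MP_4e5fcd_ag.NC.M1

/-!
# NC-M9: integration over `y`

`sum_Qj_zero`: as `v5c_sumQ` (WH-V5c). Let `X p ⊆ (Fin N ⊕ Fin r → ℂ)` be the set of the `z` with `x := z ∘ inl ∈ Qj f u j₀ p` and `z (inr j) * eval x (Fp f p j₀) = eval x (Fp f p j)` for all `j`.
It is constructible (`constr_Qj`, `Constr.comp`, `constr_eq`, `rename Sum.inl`) and isomorphic to `Qj f u j₀ p` (`cls_iso`: the coordinates `inr j` are the regular functions
`eval x (Fp f p j) * (eval x (Fp f p j₀))⁻¹`; copy `v5c_clsX`). Fubini (`hχ.fubini` with `ι = {p // p ∈ T}` (a Fintype), `τ = Fin r`, `σ _ = Fin N`, `c = 1`): the sum is zero if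
`∑ p, χ (cls {x | Sum.elim x v ∈ X p}) = 0` for every `v : Fin r → ℂ`. If `v j₀ = 1` and `v j = 0` for all `j < j₀` then `{x | Sum.elim x v ∈ X p}` is the set
`QA (fun _ => p.2) (Fp f p) (sw p.1) (u p) p.2 v j₀` of `cq` (the conditions with `p.2 < p.2` are void, those with `p.2 = p.2` are the equations `eval x (Fp f p j) = v j * eval x (Fp f p j₀)`; for
`j < j₀` they say `eval x (Fp f p j) = 0`), and the sum is `0` by `hno`. Otherwise all the sets are empty: `v j₀ * F_j₀ = F_j₀ ≠ 0` gives `v j₀ = 1`, `v j * F_j₀ = F_j = 0` gives `v j = 0` for `j < j₀`.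
`sum_Qj`: `Sl u p` is the disjoint union of `Q0 f u p` and of the `Qj f u j₀ p`, `j₀ : Fin r` (`j₀` = the least `j` with `eval x (Fp f p j) ≠ 0`): `cls_biUnion` or `cls_diff`, `cls_union` (K1.lean).
-/

open MvPolynomial

namespace MotMono
namespace NC

open WH

variable {N r : ℕ}

/-- the pairs of a point and the values -/
private def m9X (f : Fin r → MvPolynomial (Fin N) ℂ) (u : (Fin N → ℕ) × ℕ → Fin N → ℤ) (j₀ : Fin r)
    (p : (Fin N → ℕ) × ℕ) : Set (Fin N ⊕ Fin r → ℂ) :=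
  {z | (fun i => z (Sum.inl i)) ∈ Qj f u j₀ p ∧ ∀ j : Fin r,
    z (Sum.inr j) * eval (fun i => z (Sum.inl i)) (Fp f p j₀) =
      eval (fun i => z (Sum.inl i)) (Fp f p j)}

private theorem m9_rename {τ : Type} (g : MvPolynomial (Fin N) ℂ) (z : Fin N ⊕ τ → ℂ) :
    eval z (rename Sum.inl g) = eval (fun j => z (Sum.inl j)) g := by
  rw [eval_rename]
  rfl

private theorem m9_constrX (f : Fin r → MvPolynomial (Fin N) ℂ)
    (u : (Fin N → ℕ) × ℕ → Fin N → ℤ) (j₀ : Fin r) (p : (Fin N → ℕ) × ℕ) :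
    Constr (m9X f u j₀ p) := by
  have h1 : m9X f u j₀ p = {z : Fin N ⊕ Fin r → ℂ | (fun i => z (Sum.inl i)) ∈ Qj f u j₀ p} ∩
      ⋂ j : Fin r, {z : Fin N ⊕ Fin r → ℂ |
        z (Sum.inr j) * eval (fun i => z (Sum.inl i)) (Fp f p j₀) =
          eval (fun i => z (Sum.inl i)) (Fp f p j)} := by
    ext z
    simp only [m9X, Set.mem_ofPred_eq, Set.mem_inter_iff, Set.mem_iInter]
  rw [h1]
  refine ((constr_Qj f u j₀ p).comp Sum.inl).inter (constr_iInter fun j => ?_)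
  have h2 := constr_eq ((X (Sum.inr j) : MvPolynomial (Fin N ⊕ Fin r) ℂ) * rename Sum.inl (Fp f p j₀))
    (rename Sum.inl (Fp f p j))
  simpa only [map_mul, eval_X, m9_rename] using h2

private theorem m9_clsX (f : Fin r → MvPolynomial (Fin N) ℂ)
    (u : (Fin N → ℕ) × ℕ → Fin N → ℤ) (j₀ : Fin r) (p : (Fin N → ℕ) × ℕ) :
    cls (m9X f u j₀ p) = cls (Qj f u j₀ p) := by
  refine cls_iso (m9_constrX f u j₀ p) (constr_Qj f u j₀ p) ?_
  refine ⟨fun z j => z (Sum.inl j), fun x => Sum.elim x (fun j : Fin r =>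
    eval x (Fp f p j) * (eval x (Fp f p j₀))⁻¹),
    fun j => regFun_coord _ _, fun j => ?_, fun z hz => hz.1, fun x hx => ?_, fun z hz => ?_,
    fun x _ => rfl⟩
  · rcases j with j | j
    · exact regFun_coord _ _
    · exact (regFun_poly _ (Fp f p j)).mul ((regFun_poly _ (Fp f p j₀)).inv fun x hx => hx.2.2)
  · refine ⟨hx, fun j => ?_⟩
    simp only [Sum.elim_inr, Sum.elim_inl]
    rw [mul_assoc, inv_mul_cancel₀ hx.2.2, mul_one]
  · funext s
    rcases s with j | j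
    · rfl
    · simp only [Sum.elim_inr]
      rw [← hz.2 j, mul_assoc, mul_inv_cancel₀ hz.1.2.2, mul_one]

theorem sum_Qj_zero {χ : K0 →+* ℤ} (hχ : IsEulerCharF χ) (f : Fin r → MvPolynomial (Fin N) ℂ)
    (T : Finset ((Fin N → ℕ) × ℕ)) (u : (Fin N → ℕ) × ℕ → Fin N → ℤ) (j₀ : Fin r)
    (hno : ∀ y : Fin r → ℂ, y j₀ = 1 → ∑ p ∈ T, cq χ f u y j₀ p = 0) :
    ∑ p ∈ T, χ (cls (Qj f u j₀ p)) = 0 := by
  classical
  have key := hχ.fubini (ι := {p // p ∈ T}) (τ := Fin r) (fun _ => Fin N)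
    (fun p => m9X f u j₀ p.1) (fun p => m9_constrX f u j₀ p.1) (fun _ => 1) ?_
  · rw [← key, Finset.sum_coe_sort T (fun p => (1 : ℤ) * χ (cls (m9X f u j₀ p)))]
    refine Finset.sum_congr rfl fun p _ => ?_
    rw [one_mul, m9_clsX]
  · intro v
    rw [Finset.sum_coe_sort T (fun p => (1 : ℤ) * χ (cls {x : Fin N → ℂ | Sum.elim x v ∈ m9X f u j₀ p}))]
    by_cases hv : v j₀ = 1 ∧ ∀ j < j₀, v j = 0
    · obtain ⟨hv1, hv2⟩ := hv
      rw [← hno v hv1]
      refine Finset.sum_congr rfl fun p _ => ?_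
      rw [one_mul]
      unfold cq
      congr 2
      ext x
      constructor
      · rintro ⟨⟨⟨h1, h2⟩, h3, h4⟩, h5⟩
        refine ⟨h1, h2, fun j hj => absurd hj (lt_irrefl _), fun j _ => ?_, h4⟩
        exact (h5 j).symm
      · rintro ⟨h1, h2, h3, h4, h5⟩
        refine ⟨⟨⟨h1, h2⟩, fun j hj => ?_, h5⟩, fun j => (h4 j rfl).symm⟩
        have h6 := h4 j rfl
        rw [hv2 j hj, zero_mul] at h6
        exact h6
    · refine Finset.sum_eq_zero fun p _ => ?_
      have hemp : {x : Fin N → ℂ | Sum.elim x v ∈ m9X f u j₀ p} = ∅ := by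
        rw [Set.eq_empty_iff_forall_notMem]
        rintro x ⟨⟨h1, h3, h4⟩, h5⟩
        apply hv
        have h5' : ∀ j, v j * eval x (Fp f p j₀) = eval x (Fp f p j) := h5
        have h4' : eval x (Fp f p j₀) ≠ 0 := h4
        have h3' : ∀ j < j₀, eval x (Fp f p j) = 0 := h3
        refine ⟨?_, fun j hj => ?_⟩
        · exact mul_right_cancel₀ h4' (by rw [h5' j₀, one_mul])
        · have h6 := h5' j
          rw [h3' j hj] at h6
          exact (mul_eq_zero.1 h6).resolve_right h4'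
      rw [hemp, cls_empty, map_zero, mul_zero]

theorem sum_Qj {χ : K0 →+* ℤ} (f : Fin r → MvPolynomial (Fin N) ℂ)
    (u : (Fin N → ℕ) × ℕ → Fin N → ℤ) (p : (Fin N → ℕ) × ℕ) :
    ∑ j₀, χ (cls (Qj f u j₀ p)) = χ (cls (Sl u p)) - χ (cls (Q0 f u p)) := by
  classical
  have hC : Constr (⋃ j₀ ∈ (Finset.univ : Finset (Fin r)), Qj f u j₀ p) :=
    constr_biUnion _ fun j₀ _ => constr_Qj f u j₀ p
  have h1 : cls (⋃ j₀ ∈ (Finset.univ : Finset (Fin r)), Qj f u j₀ p) = ∑ j₀, cls (Qj f u j₀ p) := by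
    refine cls_biUnion Finset.univ (fun j₀ _ => constr_Qj f u j₀ p) fun j _ k _ hjk => ?_
    rw [Set.disjoint_left]
    rintro x ⟨_, h1, h2⟩ ⟨_, h3, h4⟩
    rcases lt_trichotomy j k with h | h | h
    · exact h2 (h3 j h)
    · exact hjk h
    · exact h4 (h1 k h)
  have h2 : Sl u p = (⋃ j₀ ∈ (Finset.univ : Finset (Fin r)), Qj f u j₀ p) ∪ Q0 f u p := by
    ext x
    simp only [Set.mem_union, Set.mem_iUnion, exists_prop, Finset.mem_univ, true_and]
    constructor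
    · intro hx
      by_cases h0 : ∀ j, eval x (Fp f p j) = 0
      · exact Or.inr ⟨hx, h0⟩
      · left
        push Not at h0
        obtain ⟨j, hj⟩ := h0
        have hne : (Finset.univ.filter fun j => eval x (Fp f p j) ≠ 0).Nonempty :=
          ⟨j, Finset.mem_filter.2 ⟨Finset.mem_univ j, hj⟩⟩
        obtain ⟨j₀, hj₀, hmin⟩ := Finset.exists_min_image _ id hne
        rw [Finset.mem_filter] at hj₀
        refine ⟨j₀, hx, fun j hj => ?_, hj₀.2⟩
        by_contra h3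
        exact absurd (hmin j (Finset.mem_filter.2 ⟨Finset.mem_univ j, h3⟩)) (not_le.2 hj)
    · rintro (⟨j₀, hx⟩ | hx)
      · exact hx.1
      · exact hx.1
  have h3 : Disjoint (⋃ j₀ ∈ (Finset.univ : Finset (Fin r)), Qj f u j₀ p) (Q0 f u p) := by
    rw [Set.disjoint_left]
    intro x hx hx'
    simp only [Set.mem_iUnion, exists_prop, Finset.mem_univ, true_and] at hx
    obtain ⟨j₀, hx⟩ := hx
    exact hx.2.2 (hx'.2 j₀)
  rw [h2, cls_union hC (constr_Q0 f u p) h3, h1, map_add, map_sum, add_sub_cancel_right]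

end NC
end MotMono
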