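import Pool.Agent.Lib.MP_4e5fcd_ag.NC.M2
import Pool.Agent.Lib.MP_4e5fcd_ag.NC.M3
import Pool.Agent.Lib.MP_4e5fcd_ag.NC.M4
import Pool.Agent.Lib.MP_4e5fcd_ag.NC.M6
import Pool.Agent.Lib.MP_4e5fcd_ag.NC.M7

/-!
# NC-MA: the Euler characteristics of the contact jets (assembly, helper8)
-/

open MvPolynomial

namespace MotMono
namespace NC

open WH

variable {N r : ℕ}

open Classical in
theorem chi_Cj {χ : K0 →+* ℤ} (hχ : IsEulerCharF χ) {f : Fin r → MvPolynomial (Fin N) ℂ}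
    (hr : r + 1 = N) (hf : Nondeg f) (h0 : (0 : Fin N →₀ ℕ) ∉ Sup f)
    (T : Finset ((Fin N → ℕ) × ℕ)) (hT : ∀ p, p ∈ T ↔ IFac (Sup f) p.1 p.2)
    (u : (Fin N → ℕ) × ℕ → Fin N → ℤ) (hu : ∀ p ∈ T, ∑ i, u p i * (p.1 i : ℤ) = 1)
    {y : Fin r → ℂ} {j₀ : Fin r} (hy : y j₀ = 1) {K : ℕ} (hK : 0 < K) :
    χ (cls (Cj f y K K)) = ∑ p ∈ T, if p.2 ∣ K then cq χ f u y j₀ p * p.2 else 0 := by
  have hy0 : y ≠ 0 := by
    intro h
    rw [h] at hy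
    exact zero_ne_one hy
  have h1 : ∀ o ∈ box N K, χ (cls (Pc f y K (2 * K + 2) o)) =
      if (∀ m ∈ Sup f, K ≤ wd o m) ∧ (∃ m ∈ Sup f, wd o m = K) then χ (cls (Fz f y K o)) else 0 := by
    intro o ho
    by_cases hge : ∀ m ∈ Sup f, K ≤ wd o m
    · by_cases hex : ∃ m ∈ Sup f, wd o m = K
      · rw [if_pos ⟨hge, hex⟩]
        exact chi_Pc_eq hχ f y (by omega) ho hge
      · rw [if_neg fun h => hex h.2, Pc_gt f hy0 fun m hm => ?_, cls_empty, map_zero]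
        push Not at hex
        exact lt_of_le_of_ne (hge m hm) (hex m hm).symm
    · rw [if_neg fun h => hge h.1]
      push Not at hge
      obtain ⟨m, hm, hmK⟩ := hge
      obtain ⟨m₀, hm₀, hmin⟩ := Finset.exists_min_image (Sup f) (wd o) ⟨m, hm⟩
      exact chi_Pc_lt hχ hr hf h0 y (le_refl _) ho (e := wd o m₀) hmin ⟨m₀, hm₀, rfl⟩
        (lt_of_le_of_lt (hmin m hm) hmK)
  rw [← chi_Cj_trunc hχ f y (n := 2 * K + 2) (by omega), chi_Cj_sum f y (by omega),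
    Finset.sum_congr rfl h1, sum_box hK T hT (fun o => χ (cls (Fz f y K o))) ?_]
  · refine Finset.sum_congr rfl fun p hp => ?_
    by_cases hd : p.2 ∣ K
    · have hF := (hT p).1 hp
      rw [if_pos hd, if_pos hd, Fz_oo f y hK hF hd, chi_Fz hχ f hy hF u (hu p hp), mul_comm]
    · rw [if_neg hd, if_neg hd]
  · rintro o _ _ _ ⟨ξ, hξ, hξ1, hξ2⟩
    exact chi_Fz_zero hχ f y ξ hξ hξ1 hξ2

end NC
end MotMono
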