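import Pool.Agent.Lib.MP_4e5fcd_ag.NC.Fa
import Pool.Agent.Lib.MP_4e5fcd_ag.SW.V2
import Pool.Agent.Lib.MP_4e5fcd_ag.WH.V5c
import Pool.Agent.Lib.MP_4e5fcd_ag.Kum.E11

/-!
# NC-MDefs: definitions for part M (integral of the zeta function over the cone at the origin)

Do not edit.
-/

open MvPolynomial

namespace MotMono
namespace NC

open WH

variable {N r : ℕ}

/-- the coordinates of positive weight -/
def sw (w : Fin N → ℕ) : Finset (Fin N) := Finset.univ.filter fun i => 0 < w i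

/-- the exponents in `S` with support in `I` -/
def SI (S : Finset (Fin N →₀ ℕ)) (I : Finset (Fin N)) : Finset (Fin N →₀ ℕ) :=
  S.filter fun m => ∀ i, m i ≠ 0 → i ∈ I

/-- compact facets of the Newton polyhedron in the coordinate subspace of the `i` with `w i > 0` -/
def IFac (S : Finset (Fin N →₀ ℕ)) (w : Fin N → ℕ) (e : ℕ) : Prop := Fac (SI S (sw w)) w e

/-- positive weights: `w i` if `w i > 0`, and `e + 1` if `w i = 0` -/
def wx (w : Fin N → ℕ) (e : ℕ) : Fin N → ℕ := fun i => if w i = 0 then e + 1 else w i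

/-- orders of jets of level `K`: `K / e * w i` if `w i > 0`, and `K + 1` if `w i = 0`; `p = (w, e)` -/
def oo (K : ℕ) (p : (Fin N → ℕ) × ℕ) : Fin N → ℕ :=
  fun i => if p.1 i = 0 then K + 1 else K / p.2 * p.1 i

/-- contact jets of level `n`: the `f j` vanish to order `K`, the coefficient `K` of `f j` is `y j` -/
def Cj (f : Fin r → MvPolynomial (Fin N) ℂ) (y : Fin r → ℂ) (K n : ℕ) :
    Set (Fin N × Fin (n + 1) → ℂ) :=
  {γ | (∀ i, γ (i, 0) = 0) ∧
    ∀ j, (∀ l < K, (along (f j) γ).coeff l = 0) ∧ (along (f j) γ).coeff K = y j}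

/-- the possible orders `1, ..., K, K + 1` (`K + 1`: at least `K + 1`) -/
def box (N K : ℕ) : Finset (Fin N → ℕ) := Fintype.piFinset fun _ => Finset.Icc 1 (K + 1)

/-- the contact jets such that `γ i` has order `o i` if `o i ≤ K`, order at least `o i` otherwise -/
def Pc (f : Fin r → MvPolynomial (Fin N) ℂ) (y : Fin r → ℂ) (K n : ℕ) (o : Fin N → ℕ) :
    Set (Fin N × Fin (n + 1) → ℂ) :=
  {γ | γ ∈ Cj f y K n ∧ ∀ i, (∀ l : Fin (n + 1), (l : ℕ) < o i → γ (i, l) = 0) ∧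
    (o i ≤ K → ∃ l : Fin (n + 1), (l : ℕ) = o i ∧ γ (i, l) ≠ 0)}

/-- the leading coefficients if `K` is the least weight for the weights `o` -/
def Fz (f : Fin r → MvPolynomial (Fin N) ℂ) (y : Fin r → ℂ) (K : ℕ) (o : Fin N → ℕ) :
    Set (Fin N → ℂ) :=
  {z | z ∈ TA (Finset.univ.filter fun i => o i ≤ K) ∧ ∀ j, eval z (ip f o K j) = y j}

/-- the part of `f j` belonging to `p = (w, e)` -/
noncomputable def Fp (f : Fin r → MvPolynomial (Fin N) ℂ) (p : (Fin N → ℕ) × ℕ) (j : Fin r) :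
    MvPolynomial (Fin N) ℂ := ip f (wx p.1 p.2) p.2 j

/-- the numbers in the zeta function -/
noncomputable def cq (χ : K0 →+* ℤ) (f : Fin r → MvPolynomial (Fin N) ℂ)
    (u : (Fin N → ℕ) × ℕ → Fin N → ℤ) (y : Fin r → ℂ) (j₀ : Fin r) (p : (Fin N → ℕ) × ℕ) : ℤ :=
  χ (cls (QA (fun _ => p.2) (Fp f p) (sw p.1) (u p) p.2 y j₀))

/-- the slice of the torus of `p = (w, e)` -/
def Sl (u : (Fin N → ℕ) × ℕ → Fin N → ℤ) (p : (Fin N → ℕ) × ℕ) : Set (Fin N → ℂ) :=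
  {x | x ∈ TA (sw p.1) ∧ mon (sw p.1) (u p) x = 1}

/-- the points of the slice where `j₀` is the first `j` with `Fp f p j ≠ 0` -/
def Qj (f : Fin r → MvPolynomial (Fin N) ℂ) (u : (Fin N → ℕ) × ℕ → Fin N → ℤ) (j₀ : Fin r)
    (p : (Fin N → ℕ) × ℕ) : Set (Fin N → ℂ) :=
  {x | x ∈ Sl u p ∧ (∀ j < j₀, eval x (Fp f p j) = 0) ∧ eval x (Fp f p j₀) ≠ 0}

/-- the common zeros in the slice -/
def Q0 (f : Fin r → MvPolynomial (Fin N) ℂ) (u : (Fin N → ℕ) × ℕ → Fin N → ℤ)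
    (p : (Fin N → ℕ) × ℕ) : Set (Fin N → ℂ) :=
  {x | x ∈ Sl u p ∧ ∀ j, eval x (Fp f p j) = 0}

end NC
end MotMono
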