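import Pool.Agent.Lib.MP_4e5fcd_ag.NC.M8
import Pool.Agent.Lib.MP_4e5fcd_ag.NC.M9
import Pool.Agent.Lib.MP_4e5fcd_ag.NC.M10
import Pool.Agent.Lib.MP_4e5fcd_ag.NC.M11

/-! # NC-MMain: the integral of the zeta function over the normal cone at the origin -/

open MvPolynomial

namespace MotMono
namespace NC

open WH

variable {N r : ℕ}

theorem euler_sum {χ : K0 →+* ℤ} (hχ : IsEulerCharF χ) {f : Fin r → MvPolynomial (Fin N) ℂ}
    (hr : r + 1 = N) (hf : Nondeg f) (hr0 : 0 < r) (h0 : (0 : Fin N →₀ ℕ) ∉ Sup f) (lam : ℂ)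
    (hn : ¬ CN.Near χ (Ideal.span (Set.range f)) 0 lam) (P : Finset ((Fin N → ℕ) × ℕ))
    (hP : ∀ p, p ∈ P ↔ Fac (Sup f) p.1 p.2 ∧ (∀ i, 0 < p.1 i) ∧ lam ^ p.2 = 1)
    (u : (Fin N → ℕ) × ℕ → Fin N → ℤ) (hu : ∀ p ∈ P, ∑ i, u p i * (p.1 i : ℤ) = 1) (A : Finset (Fin N))
    (hA : ∀ i, i ∈ A ↔ ∃ a, IsAx (Sup f) i a ∧ lam ^ a = 1) :
    (A.card : ℤ) = ∑ p ∈ P, χ (cls (VU f p.1 p.2 (u p))) := by
  classical
  -- the index set and the exponents
  set T : Finset ((Fin N → ℕ) × ℕ) := (finite_ifac (Sup f)).toFinset with hTdef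
  have hT : ∀ p, p ∈ T ↔ IFac (Sup f) p.1 p.2 := by
    intro p
    rw [hTdef, Set.Finite.mem_toFinset]
    rfl
  choose ub hub using exists_bezout (N := N)
  set v : (Fin N → ℕ) × ℕ → Fin N → ℤ := fun p => if p ∈ P then u p else ub p.1 Finset.univ with hv
  have hvu : ∀ p ∈ T, ∑ i, v p i * (p.1 i : ℤ) = 1 := by
    intro p hp
    by_cases h : p ∈ P
    · rw [hv]
      simp only [if_pos h]
      exact hu p h
    · rw [hv]
      simp only [if_neg h]
      rw [hub p.1 Finset.univ, ((hT p).1 hp).prim]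
      rfl
  set T' : Finset ((Fin N → ℕ) × ℕ) := T.filter fun p => lam ^ p.2 = 1 with hT'
  have h1 : ∀ j₀ : Fin r, ∑ p ∈ T', χ (cls (Qj f v j₀ p)) = 0 := by
    intro j₀
    refine sum_Qj_zero hχ f T' v j₀ fun y hy => ?_
    have h2 := sum_cq_zero hχ hr hf h0 hn T hT v hvu hy
    rw [← h2]
  have h2 : ∑ p ∈ T', (χ (cls (Sl v p)) - χ (cls (Q0 f v p))) = 0 := by
    rw [Finset.sum_congr rfl fun p _ => (sum_Qj (χ := χ) f v p).symm, Finset.sum_comm]
    exact Finset.sum_eq_zero fun j₀ _ => h1 j₀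
  rw [Finset.sum_sub_distrib, sub_eq_zero] at h2
  have h3 : ∑ p ∈ T', χ (cls (Sl v p)) = (A.card : ℤ) := by
    rw [← card_axes h0 (fun a => lam ^ a = 1) T hT A hA, Finset.card_filter, Nat.cast_sum]
    refine Finset.sum_congr rfl fun p hp => ?_
    have hpT := (Finset.mem_filter.1 hp).1
    rw [chi_Sl hχ ((hT p).1 hpT) v (hvu p hpT)]
    split_ifs <;> simp
  have h4 : ∑ p ∈ T', χ (cls (Q0 f v p)) = ∑ p ∈ P, χ (cls (VU f p.1 p.2 (u p))) := by
    symm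
    have hPT : P ⊆ T' := by
      intro p hp
      obtain ⟨hp1, hp2, hp3⟩ := (hP p).1 hp
      rw [hT', Finset.mem_filter, hT p]
      exact ⟨(ifac_univ hp2).2 hp1, hp3⟩
    have h5 : ∀ p ∈ P, χ (cls (VU f p.1 p.2 (u p))) = χ (cls (Q0 f v p)) := by
      intro p hp
      rw [Q0_univ f ((hP p).1 hp).2.1 v, hv]
      simp only [if_pos hp]
    rw [Finset.sum_congr rfl h5]
    refine Finset.sum_subset hPT fun p hp hpP => ?_
    rw [hT', Finset.mem_filter, hT p] at hp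
    have h6 : ∃ i, p.1 i = 0 := by
      by_contra hcon
      push Not at hcon
      apply hpP
      have h7 : ∀ i, 0 < p.1 i := fun i => Nat.pos_of_ne_zero (hcon i)
      exact (hP p).2 ⟨(ifac_univ h7).1 hp.1, h7, hp.2⟩
    rw [Q0_empty hr hf hp.1 h6 v, cls_empty, map_zero]
  rw [← h3, h2, h4]

end NC
end MotMono
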