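import Pool.Agent.Lib.MP_4e5fcd_ag.NC.P2

/-!
# NC-P6: the common zeros for a B-facet are one orbit of `ℂ^*`

`(w, e)` a B-facet for the axis `i`: `w i = 1`, the exponents `m` of `Sup f` of weight `e` are `single i e` and some
`single i a + single k 1`, `k ≠ i` (`hB.only`).

`taylor_BT`: by `mem_support_ip` (NC/Fa) the monomials of `g := ip f w e j` are of this form. Both sides are additive in `g` (`g = ∑ m ∈ g.support, monomial m (coeff m g)`),
so let `g = monomial m c`. `m = single i e`: `eval z g = c * z i ^ e = eval z' g` (`z i = z' i`), the only nonzero derivative is that for `l = i`, and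
`z i - z' i = 0`. `m = single i a + single k 1`: `eval z g - eval z' g = c * z i ^ a * (z k - z' k)`; the derivative for `k` at `z'` is `c * z' i ^ a`, the terms for
`l ≠ k` vanish (`l = i`: `z i - z' i = 0`; else derivative `0`).

`euler_ip`: Euler's formula: `∑ l, eval z (pderiv l g) * (w l * z l) = e * eval z g` for `g = ip f w e j` (`euler_rel`, NC/Fa,
with `y i = w i`, `t = e`; `mem_support_ip`, `wd`).

`act_VT`: `eval (act w s z) (ip f w e j) = s ^ e * eval z (ip f w e j)` (monomial by monomial), and `s ^ w i * z i ≠ 0`.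

`eq_act`: let `z, z' ∈ VT f w e`, `s := z i / z' i ≠ 0`, `z'' := act w s z' ∈ VT f w e`, `z'' i = s ^ 1 * z' i = z i`. `δ l := z l - z'' l`, `δ i = 0`. By
`taylor_BT` (for `z, z''`) `∑ l, grad (ip f w e j) z'' l * δ l = 0 - 0 = 0` for all `j`; also `v l := w l * z'' l` satisfies `∑ l, grad (ip f w e j) z'' l * v l = 0`
(`euler_ip`). `hf` at `z''`: the `r = N - 1` gradients are linearly independent, so the space of all `u` with `∑ l, grad (ip ..) z'' l * u l = 0` for
all `j` has dimension `N - r = 1` (rank-nullity: the matrix `r × N` with independent rows has rank `r`). `v ≠ 0` (`v i = z'' i ≠ 0`), so `δ = c • v`,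
`0 = δ i = c * z'' i`, `c = 0`, `δ = 0`. [Elementary alternative: if `δ ≠ 0`, `δ` and `v` are linearly independent (because `δ i = 0 ≠ v i`) in
the kernel of the map `ℂ^N → ℂ^r`, which is surjective as its rows are independent.] So `z = act w s z'`.

`cls_VT_BT`: `z₀ ∈ VT`, `z₁ := act w (z₀ i)⁻¹ z₀ ∈ VT`, `z₁ i = 1`. `RegIso` between `VT f w e` and `{x : Unit → ℂ | x () ≠ 0}`: `z ↦ (fun _ => z i)`
and `x ↦ act w (x ()) z₁` (polynomials `X () ^ w k * C (z₁ k)`, denominator `1`); they are inverse to each other by `eq_act` (with `z' = z₁`, `s = z i`) and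
`(act w s z₁) i = s`. `cls_iso`, `cls {x | x () ≠ 0} = LL - 1` (`cls_diff`, `cls_singleton`; see `h2_cls_ne` in Mon/H2.lean, copy its proof).
`Constr (VT f w e)`: intersection of `constr_ne (X i)` and `Constr.zeroSet` (`constr_iInter`).
-/

open MvPolynomial

namespace MotMono
namespace NC

open WH

namespace Po

variable {N r : ℕ}

private theorem p6_support {f : Fin r → MvPolynomial (Fin N) ℂ} {w : Fin N → ℕ} {e : ℕ}
    {i : Fin N} (hB : BT (Sup f) w e i) (j : Fin r) {m : Fin N →₀ ℕ}
    (hm : m ∈ (ip f w e j).support) : m = Finsupp.single i e ∨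
      ∃ k, k ≠ i ∧ ∃ a, m = Finsupp.single i a + Finsupp.single k 1 :=
  hB.only m (mem_support_ip hm).1 (mem_support_ip hm).2

private theorem p6_grad_sum (g : MvPolynomial (Fin N) ℂ) (z : Fin N → ℂ) (l : Fin N) :
    grad g z l = ∑ m ∈ g.support, grad (monomial m (coeff m g)) z l := by
  unfold grad
  conv_lhs => rw [← g.support_sum_monomial_coeff]
  rw [map_sum, map_sum]

private theorem p6_eval_sum (g : MvPolynomial (Fin N) ℂ) (z : Fin N → ℂ) :
    eval z g = ∑ m ∈ g.support, eval z (monomial m (coeff m g)) := by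
  conv_lhs => rw [← g.support_sum_monomial_coeff]
  rw [map_sum]

private theorem p6_grad_zero {m : Fin N →₀ ℕ} (c : ℂ) (z : Fin N → ℂ) {l : Fin N}
    (h : m l = 0) : grad (monomial m c) z l = 0 := by
  unfold grad
  rw [pderiv_monomial, h, Nat.cast_zero, mul_zero, monomial_zero, map_zero]

private theorem p6_prod (y : Fin N → ℂ) (i : Fin N) (a : ℕ) :
    ((Finsupp.single i a).prod fun n e => y n ^ e) = y i ^ a :=
  Finsupp.prod_single_index (pow_zero _)

private theorem p6_mono {i : Fin N} {m : Fin N →₀ ℕ} {e : ℕ} (c : ℂ)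
    (hm : m = Finsupp.single i e ∨
      ∃ k, k ≠ i ∧ ∃ a, m = Finsupp.single i a + Finsupp.single k 1)
    {z z' : Fin N → ℂ} (hz : z i = z' i) :
    eval z (monomial m c) - eval z' (monomial m c) =
      ∑ l, grad (monomial m c) z' l * (z l - z' l) := by
  classical
  rcases hm with rfl | ⟨k, hk, a, rfl⟩
  · rw [Finset.sum_eq_zero]
    · rw [eval_monomial, eval_monomial, p6_prod, p6_prod, hz, sub_self]
    · intro l _
      by_cases hl : l = i
      · rw [hl, hz, sub_self, mul_zero]
      · rw [p6_grad_zero c z' (Finsupp.single_eq_of_ne hl), zero_mul]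
  · rw [Finset.sum_eq_single k]
    · have h1 : grad (monomial (Finsupp.single i a + Finsupp.single k 1) c) z' k =
          c * z' i ^ a := by
        unfold grad
        rw [pderiv_monomial, add_tsub_cancel_right, eval_monomial, p6_prod, Finsupp.add_apply,
          Finsupp.single_eq_same, Finsupp.single_eq_of_ne hk]
        simp
      have h2 : ∀ y : Fin N → ℂ,
          eval y (monomial (Finsupp.single i a + Finsupp.single k 1) c) =
            c * (y i ^ a * y k) := by
        intro y
        rw [eval_monomial, Finsupp.prod_add_index' (fun _ => pow_zero _) (fun _ _ _ => pow_add _ _ _),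
          p6_prod, p6_prod, pow_one]
      rw [h1, h2, h2, hz]
      ring
    · intro l _ hl
      by_cases hli : l = i
      · rw [hli, hz, sub_self, mul_zero]
      · rw [p6_grad_zero c z' (by
          rw [Finsupp.add_apply, Finsupp.single_eq_of_ne hli, Finsupp.single_eq_of_ne hl,
            add_zero]), zero_mul]
    · intro h
      exact absurd (Finset.mem_univ _) h

theorem taylor_BT {f : Fin r → MvPolynomial (Fin N) ℂ} {w : Fin N → ℕ} {e : ℕ} {i : Fin N}
    (hB : BT (Sup f) w e i) (j : Fin r) {z z' : Fin N → ℂ} (hz : z i = z' i) :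
    eval z (ip f w e j) - eval z' (ip f w e j) =
      ∑ l, grad (ip f w e j) z' l * (z l - z' l) := by
  rw [p6_eval_sum _ z, p6_eval_sum _ z', ← Finset.sum_sub_distrib]
  simp only [p6_grad_sum (ip f w e j) z', Finset.sum_mul]
  rw [Finset.sum_comm]
  refine Finset.sum_congr rfl fun m hm => ?_
  exact p6_mono _ (p6_support hB j hm) hz

theorem euler_ip (f : Fin r → MvPolynomial (Fin N) ℂ) (w : Fin N → ℕ) (e : ℕ) (j : Fin r)
    (z : Fin N → ℂ) :
    ∑ l, grad (ip f w e j) z l * ((w l : ℂ) * z l) = e * eval z (ip f w e j) := by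
  rw [← euler_rel (ip f w e j) (fun l => (w l : ℂ)) (e : ℂ) (fun m hm => by
    rw [← (mem_support_ip hm).2]
    unfold wd
    push_cast
    rfl) z]
  refine Finset.sum_congr rfl fun l _ => ?_
  ring

private theorem p6_eval_act (f : Fin r → MvPolynomial (Fin N) ℂ) (w : Fin N → ℕ) (e : ℕ)
    (j : Fin r) (s : ℂ) (z : Fin N → ℂ) :
    eval (act w s z) (ip f w e j) = s ^ e * eval z (ip f w e j) := by
  rw [eval_eq', eval_eq', Finset.mul_sum]
  refine Finset.sum_congr rfl fun m hm => ?_
  have h1 : ∏ i, act w s z i ^ m i = s ^ wd w m * ∏ i, z i ^ m i := by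
    unfold wd
    rw [← Finset.prod_pow_eq_pow_sum, ← Finset.prod_mul_distrib]
    refine Finset.prod_congr rfl fun i _ => ?_
    unfold act
    rw [mul_pow, ← pow_mul, mul_comm (w i) (m i)]
  rw [h1, (mem_support_ip hm).2]
  ring

theorem act_VT {f : Fin r → MvPolynomial (Fin N) ℂ} {w : Fin N → ℕ} {e : ℕ} {z : Fin N → ℂ}
    (hz : z ∈ VT f w e) {s : ℂ} (hs : s ≠ 0) : act w s z ∈ VT f w e := by
  refine ⟨fun i => mul_ne_zero (pow_ne_zero _ hs) (hz.1 i), fun j => ?_⟩
  rw [p6_eval_act, hz.2 j, mul_zero]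

theorem eq_act {f : Fin r → MvPolynomial (Fin N) ℂ} (hr : r + 1 = N) (hf : Nondeg f)
    {w : Fin N → ℕ} {e : ℕ} {i : Fin N} (hF : Fac (Sup f) w e) (hB : BT (Sup f) w e i)
    {z z' : Fin N → ℂ} (hz : z ∈ VT f w e) (hz' : z' ∈ VT f w e) :
    z = act w (z i / z' i) z' := by
  classical
  have hs : z i / z' i ≠ 0 := div_ne_zero (hz.1 i) (hz'.1 i)
  have hy : act w (z i / z' i) z' ∈ VT f w e := act_VT hz' hs
  set y : Fin N → ℂ := act w (z i / z' i) z' with hydef
  have hyi : z i = y i := by
    rw [hydef]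
    unfold act
    rw [hB.one, pow_one, div_mul_cancel₀ _ (hz'.1 i)]
  have hex : ∃ m ∈ Sup f, wd w m = e :=
    ⟨Finsupp.single i e, hB.ax, by rw [wd_single, hB.one, mul_one]⟩
  have hli := hf w e hB.pos hF.ge hex y hy.1 hy.2
  set A : Matrix (Fin r) (Fin N) ℂ := Matrix.of fun j l => grad (ip f w e j) y l with hA
  have hrow : LinearIndependent ℂ A.row := hli
  have hrank : Module.finrank ℂ (LinearMap.ker A.mulVecLin) = 1 := by
    have h1 := LinearMap.finrank_range_add_finrank_ker A.mulVecLin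
    have h2 : Module.finrank ℂ (LinearMap.range A.mulVecLin) = r := by
      have h3 := hrow.rank_matrix
      rw [Matrix.rank, Fintype.card_fin] at h3
      exact h3
    rw [h2, Module.finrank_fintype_fun_eq_card, Fintype.card_fin] at h1
    omega
  have hv : (fun l => (w l : ℂ) * y l) ∈ LinearMap.ker A.mulVecLin := by
    rw [LinearMap.mem_ker]
    funext j
    rw [Matrix.mulVecLin_apply, Matrix.mulVec, dotProduct, Pi.zero_apply]
    have h1 := euler_ip f w e j y
    rw [hy.2 j, mul_zero] at h1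
    exact h1
  have hd : (fun l => z l - y l) ∈ LinearMap.ker A.mulVecLin := by
    rw [LinearMap.mem_ker]
    funext j
    rw [Matrix.mulVecLin_apply, Matrix.mulVec, dotProduct, Pi.zero_apply]
    have h1 := taylor_BT hB j hyi
    rw [hy.2 j, hz.2 j, sub_self] at h1
    exact h1.symm
  have hvne : (⟨fun l => (w l : ℂ) * y l, hv⟩ : LinearMap.ker A.mulVecLin) ≠ 0 := by
    intro h
    have h1 := congrFun (congrArg Subtype.val h) i
    simp only [ZeroMemClass.coe_zero, Pi.zero_apply, hB.one, Nat.cast_one, one_mul] at h1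
    exact hy.1 i h1
  obtain ⟨c, hc⟩ := (finrank_eq_one_iff_of_nonzero' _ hvne).1 hrank ⟨_, hd⟩
  have hc' : ∀ l, c * ((w l : ℂ) * y l) = z l - y l := fun l =>
    congrFun (congrArg Subtype.val hc) l
  have hc0 : c = 0 := by
    have h1 := hc' i
    rw [hyi, sub_self, hB.one, Nat.cast_one, one_mul] at h1
    exact (mul_eq_zero.1 h1).resolve_right (hy.1 i)
  funext l
  have h1 := hc' l
  rw [hc0, zero_mul] at h1
  exact (sub_eq_zero.1 h1.symm)

private theorem p6_cls_ne : cls ({x : Unit → ℂ | x () ≠ 0}) = LL - 1 := by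
  have h : ({x : Unit → ℂ | x () ≠ 0}) = Set.univ \ {0} := by
    ext x
    simp only [Set.mem_ofPred_eq, Set.mem_sdiff, Set.mem_univ, true_and, Set.mem_singleton_iff]
    refine ⟨fun h h2 => h (by rw [h2]; rfl), fun h h2 => h ?_⟩
    funext u
    exact h2
  rw [h, cls_diff constr_univ (constr_singleton 0) (Set.subset_univ _), cls_singleton]
  rfl

private theorem p6_constr (f : Fin r → MvPolynomial (Fin N) ℂ) (w : Fin N → ℕ) (e : ℕ) :
    Constr (VT f w e) := by
  have h1 : VT f w e = (⋂ i, {z : Fin N → ℂ | eval z (X i) ≠ 0}) ∩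
      ⋂ j, {z : Fin N → ℂ | eval z (ip f w e j) = 0} := by
    ext z
    simp only [Set.mem_inter_iff, Set.mem_iInter]
    constructor
    · rintro ⟨h2, h3⟩
      exact ⟨fun i => by
        show eval z (X i) ≠ 0
        rw [eval_X]
        exact h2 i, h3⟩
    · rintro ⟨h2, h3⟩
      refine ⟨fun i => ?_, h3⟩
      have h4 : eval z (X i) ≠ 0 := h2 i
      rwa [eval_X] at h4
  rw [h1]
  exact (constr_iInter fun i => constr_ne (X i)).inter
    (constr_iInter fun j => Constr.zeroSet (ip f w e j))

theorem cls_VT_BT {f : Fin r → MvPolynomial (Fin N) ℂ} (hr : r + 1 = N) (hf : Nondeg f)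
    {w : Fin N → ℕ} {e : ℕ} {i : Fin N} (hF : Fac (Sup f) w e) (hB : BT (Sup f) w e i)
    (hne : (VT f w e).Nonempty) : cls (VT f w e) = LL - 1 := by
  obtain ⟨z₀, hz₀⟩ := hne
  have hz₁ : act w (z₀ i)⁻¹ z₀ ∈ VT f w e := act_VT hz₀ (inv_ne_zero (hz₀.1 i))
  set z₁ : Fin N → ℂ := act w (z₀ i)⁻¹ z₀ with hz₁def
  have hz₁i : z₁ i = 1 := by
    rw [hz₁def]
    unfold act
    rw [hB.one, pow_one, inv_mul_cancel₀ (hz₀.1 i)]
  have hC : Constr ({x : Unit → ℂ | x () ≠ 0}) := by
    have := constr_ne (X () : MvPolynomial Unit ℂ)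
    simpa using this
  rw [← p6_cls_ne]
  refine cls_iso (p6_constr f w e) hC ?_
  refine ⟨fun z _ => z i, fun x => act w (x ()) z₁, ?_, ?_, ?_, ?_, ?_, ?_⟩
  · intro _
    refine ⟨X i, 1, fun z _ => ⟨?_, ?_⟩⟩
    · rw [map_one]
      exact one_ne_zero
    · rw [map_one, div_one, eval_X]
  · intro k
    refine ⟨X () ^ w k * C (z₁ k), 1, fun x _ => ⟨?_, ?_⟩⟩
    · rw [map_one]
      exact one_ne_zero
    · rw [map_one, div_one, map_mul, map_pow, eval_X, eval_C]
      rfl
  · intro z hz
    exact hz.1 i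
  · intro x hx
    exact act_VT hz₁ hx
  · intro z hz
    have h1 := eq_act hr hf hF hB hz hz₁
    rw [hz₁i, div_one] at h1
    exact h1.symm
  · intro x _
    funext u
    show act w (x ()) z₁ i = x u
    unfold act
    rw [hB.one, pow_one, hz₁i, mul_one]

end Po
end NC
end MotMono
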