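import Pool.Agent.Lib.MP_4e5fcd_ag.NC.P9

/-!
# NC-PA: the measures for `S` and `SB S`

`QS_eq`: `bt_unique_axis`: if `BT S w e i` then `QS S w e h K n = QB w e i h K n`.
`mu_SB`: `n := K`. `mu_eq` (WH/A1) for `mons (SB S)` and `mons S`, `AS_mons`. `OS (SB S) n K` is the disjoint union of `OS S n K` and of the sets
`QS S p.1 p.2 h K n`, `p ∈ FB S`, `h ∈ HR p.2 K` (`mem_OS_SB`, `QS_not_OS`, `QS_disjoint`): `cls_union`, `cls_biUnion` (K1) over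
`(FB S).sigma fun p => HR p.2 K`; for `p ∈ FB S` choose `i` with `BT S p.1 p.2 i` (`mem_FB`), `QS_eq`, `val_QB`.
-/

open MvPolynomial

namespace MotMono
namespace NC

open WH

namespace Po

variable {N r : ℕ}

theorem QS_eq {S : Finset (Fin N →₀ ℕ)} {w : Fin N → ℕ} {e : ℕ} {i : Fin N} (hB : BT S w e i)
    (h K n : ℕ) : QS S w e h K n = QB w e i h K n := by
  ext γ
  constructor
  · rintro ⟨i', hB', hγ⟩
    rw [bt_unique_axis hB hB']
    exact hγ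
  · intro hγ
    exact ⟨i, hB, hγ⟩

theorem mu_SB (hr : r + 1 = N) (S : Finset (Fin N →₀ ℕ)) (K : ℕ) :
    WH.mu (mons (SB S)) K =
      WH.mu (mons S) K + ∑ p ∈ FB S, sect N r (LL - 1) (∑ i, p.1 i) p.2 K := by
  classical
  have hK : K ≤ K + 1 := Nat.le_succ K
  obtain ⟨s, hs⟩ : ∃ s : Finset (Σ _ : (Fin N → ℕ) × ℕ, ℕ), s = (FB S).sigma fun p => HR p.2 K :=
    ⟨_, rfl⟩
  have hmem : ∀ x, x ∈ s ↔ x.1 ∈ FB S ∧ x.2 ∈ HR x.1.2 K := by
    intro x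
    rw [hs, Finset.mem_sigma]
  have hset : OS (SB S) K K = OS S K K ∪ ⋃ x ∈ s, QS S x.1.1 x.1.2 x.2 K K := by
    ext γ
    rw [mem_OS_SB, Set.mem_union, Set.mem_iUnion₂]
    constructor
    · rintro (h | ⟨p, hp, h, hh, hγ⟩)
      · exact Or.inl h
      · exact Or.inr ⟨⟨p, h⟩, (hmem _).2 ⟨hp, hh⟩, hγ⟩
    · rintro (h | ⟨x, hx, hγ⟩)
      · exact Or.inl h
      · exact Or.inr ⟨x.1, ((hmem x).1 hx).1, x.2, ((hmem x).1 hx).2, hγ⟩
  have hcon : ∀ x ∈ s, Constr (QS S x.1.1 x.1.2 x.2 K K) := by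
    intro x hx
    obtain ⟨h1, h2⟩ := (hmem x).1 hx
    obtain ⟨hF, i, hB⟩ := mem_FB.1 h1
    rw [QS_eq hB]
    exact constr_QB hF.pos h2 le_rfl
  have hdis : ∀ x ∈ s, ∀ y ∈ s, x ≠ y →
      Disjoint (QS S x.1.1 x.1.2 x.2 K K) (QS S y.1.1 y.1.2 y.2 K K) := by
    intro x hx y hy hxy
    rw [Set.disjoint_left]
    intro γ h1 h2
    obtain ⟨e1, e2⟩ := QS_disjoint ((hmem x).1 hx).1 ((hmem y).1 hy).1 ((hmem x).1 hx).2
      ((hmem y).1 hy).2 h1 h2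
    apply hxy
    obtain ⟨x1, x2⟩ := x
    obtain ⟨y1, y2⟩ := y
    simp only at e1 e2
    subst e1
    subst e2
    rfl
  have hdis2 : Disjoint (OS S K K) (⋃ x ∈ s, QS S x.1.1 x.1.2 x.2 K K) := by
    rw [Set.disjoint_left]
    intro γ h1 h2
    rw [Set.mem_iUnion₂] at h2
    obtain ⟨x, hx, hγ⟩ := h2
    obtain ⟨g1, g2⟩ := (hmem x).1 hx
    exact QS_not_OS (mem_FB.1 g1).1.pos g2 hγ h1
  have hcls : cls (OS (SB S) K K) = cls (OS S K K) +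
      ∑ p ∈ FB S, ∑ h ∈ HR p.2 K, cls (QS S p.1 p.2 h K K) := by
    rw [hset, cls_union (constr_OS S hK) (constr_biUnion s hcon) hdis2, cls_biUnion s hcon hdis, hs,
      Finset.sum_sigma]
  unfold WH.mu
  rw [AS_mons _ hK, AS_mons _ hK, hcls, map_add, add_mul, map_sum, Finset.sum_mul]
  congr 1
  refine Finset.sum_congr rfl fun p hp => ?_
  obtain ⟨hF, i, hB⟩ := mem_FB.1 hp
  unfold sect
  rw [map_sum, Finset.sum_mul]
  refine Finset.sum_congr rfl fun h hh => ?_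
  rw [QS_eq hB]
  exact val_QB hr hF hB hh le_rfl

end Po
end NC
end MotMono
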