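import Pool.Agent.Lib.MP_4e5fcd_ag.NC.PDefs

/-!
# NC-PB: the series of the sectors

`F := mk (fun K => sect N r v W e (K + 1))`: the coefficient `K` is `∑_{h ≥ 1, h e ≤ K} v * Lu ^ (-(N + h W + r (K - h e)))` (`K + 1 - 1 - h e = K - h e`,
`h e < K + 1`). (1) `G := F * (1 - C (Lu ^ (-r)) * X ^ 1)` has the coefficient `K`: `F_K - Lu ^ (-r) F_(K-1)`, where the terms with `h e ≤ K - 1` cancel:
`G_K = ∑_{h ≥ 1, h e = K} v * Lu ^ (-(N + h W))`, i.e. `v * Lu ^ (-(N + (K/e) W))` if `e ∣ K`, `K ≥ 1`, and `0` otherwise. (2) `G * (1 - C (Lu ^ (-W)) * X ^ e) =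
C (v * Lu ^ (-(N + W))) * X ^ e` (compare coefficients: `K < e`: `0`; `K = e`; `K > e`: `G_K = Lu ^ (-W) G_(K - e)` if `e ∣ K`).
So `G` is in `polarRing s₀` by `CN.mem_polar_of_mul` (`a = W`, `b = e`; `CN.C_mem_polar`, `CN.X_pow_mem_polar`), and then `F` (`a = r`, `b = 1`).
-/

open MvPolynomial

namespace MotMono
namespace NC

open WH

namespace Po

variable {N r : ℕ}

theorem sect_zero (N r : ℕ) (v : K0) (W e : ℕ) : sect N r v W e 0 = 0 := by
  rw [sect, HR, Finset.range_zero, Finset.filter_empty, Finset.sum_empty]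

/-- the coefficients, in a commutative ring -/
private noncomputable def cf {R : Type*} [CommRing R] (c p q : R) (e K : ℕ) : R :=
  ∑ h ∈ HR e (K + 1), c * q ^ h * p ^ (K - h * e)

private theorem cf_zero {R : Type*} [CommRing R] (c p q : R) {e : ℕ} (he : 0 < e) :
    cf c p q e 0 = 0 := by
  rw [cf]
  refine Finset.sum_eq_zero fun h hh => ?_
  rw [mem_HR he] at hh
  have := Nat.mul_pos hh.1 he
  omega

private theorem cf_succ {R : Type*} [CommRing R] (c p q : R) {e : ℕ} (he : 0 < e) (K : ℕ) :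
    cf c p q e (K + 1) = p * cf c p q e K + if e ∣ K + 1 then c * q ^ ((K + 1) / e) else 0 := by
  classical
  have hs : ∑ h ∈ HR e (K + 1), c * q ^ h * p ^ (K + 1 - h * e) = p * cf c p q e K := by
    rw [cf, Finset.mul_sum]
    refine Finset.sum_congr rfl fun h hh => ?_
    rw [mem_HR he] at hh
    have e1 : K + 1 - h * e = K - h * e + 1 := by omega
    rw [e1, pow_succ]
    ring
  rw [← hs, cf]
  by_cases hd : e ∣ K + 1
  · rw [if_pos hd]
    obtain ⟨m, hm⟩ := hd
    have hdiv : (K + 1) / e = m := by rw [hm, Nat.mul_div_cancel_left _ he]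
    have hm0 : 1 ≤ m := by
      rcases Nat.eq_zero_or_pos m with h0 | h0
      · rw [h0, mul_zero] at hm
        omega
      · exact h0
    have hset : HR e (K + 1 + 1) = insert m (HR e (K + 1)) := by
      ext h
      rw [Finset.mem_insert, mem_HR he, mem_HR he]
      constructor
      · rintro ⟨ha, hb⟩
        rcases Nat.lt_or_ge (h * e) (K + 1) with hc | hc
        · exact Or.inr ⟨ha, hc⟩
        · left
          have h3 : h * e = K + 1 := by omega
          rw [hm, mul_comm e m] at h3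
          exact Nat.eq_of_mul_eq_mul_right he h3
      · rintro (rfl | ⟨ha, hb⟩)
        · refine ⟨hm0, ?_⟩
          rw [mul_comm h e, ← hm]
          omega
        · exact ⟨ha, by omega⟩
    have hnot : m ∉ HR e (K + 1) := by
      rw [mem_HR he, mul_comm m e, ← hm]
      omega
    rw [hset, Finset.sum_insert hnot, hdiv, hm, mul_comm m e, Nat.sub_self, pow_zero, mul_one,
      add_comm]
  · rw [if_neg hd, add_zero]
    have hset : HR e (K + 1 + 1) = HR e (K + 1) := by
      ext h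
      rw [mem_HR he, mem_HR he]
      refine ⟨fun ha => ⟨ha.1, ?_⟩, fun ha => ⟨ha.1, by omega⟩⟩
      rcases Nat.lt_or_ge (h * e) (K + 1) with hc | hc
      · exact hc
      · exact absurd ⟨h, by rw [mul_comm e h]; omega⟩ hd
    rw [hset]

private theorem cf_mul {R : Type*} [CommRing R] (c p q : R) {e : ℕ} (he : 0 < e) :
    PowerSeries.mk (cf c p q e) * (1 - PowerSeries.C p * PowerSeries.X ^ 1) *
      (1 - PowerSeries.C q * PowerSeries.X ^ e) =
      PowerSeries.C (c * q) * PowerSeries.X ^ e := by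
  have hG : PowerSeries.mk (cf c p q e) * (1 - PowerSeries.C p * PowerSeries.X ^ 1) =
      PowerSeries.mk (fun K => if K = 0 then 0 else if e ∣ K then c * q ^ (K / e) else 0) := by
    ext n
    have e1 : PowerSeries.mk (cf c p q e) * (1 - PowerSeries.C p * PowerSeries.X ^ 1) =
        PowerSeries.mk (cf c p q e) -
          PowerSeries.C p * (PowerSeries.mk (cf c p q e) * PowerSeries.X ^ 1) := by ring
    rw [e1, map_sub, PowerSeries.coeff_C_mul, PowerSeries.coeff_mul_X_pow']
    simp only [PowerSeries.coeff_mk]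
    rcases n with _ | n
    · rw [if_pos rfl, if_neg (by omega), cf_zero c p q he, mul_zero, sub_zero]
    · rw [if_neg (Nat.succ_ne_zero n), if_pos (by omega), Nat.add_sub_cancel,
        cf_succ c p q he, add_sub_cancel_left]
  rw [hG]
  ext n
  have e2 : ∀ G : PowerSeries R, G * (1 - PowerSeries.C q * PowerSeries.X ^ e) =
      G - PowerSeries.C q * (G * PowerSeries.X ^ e) := fun G => by ring
  rw [e2, map_sub, PowerSeries.coeff_C_mul, PowerSeries.coeff_mul_X_pow',
    PowerSeries.coeff_C_mul, PowerSeries.coeff_X_pow]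
  simp only [PowerSeries.coeff_mk]
  rcases lt_trichotomy n e with h | h | h
  · rw [if_neg (not_le.2 h), if_neg h.ne, mul_zero, mul_zero, sub_zero]
    by_cases h0 : n = 0
    · rw [if_pos h0]
    · rw [if_neg h0, if_neg fun hd => absurd (Nat.le_of_dvd (Nat.pos_of_ne_zero h0) hd)
        (not_le.2 h)]
  · subst h
    rw [if_neg he.ne', if_pos (dvd_refl n), if_pos le_rfl, if_pos (Nat.sub_self n), if_pos rfl,
      Nat.div_self he, pow_one, mul_zero, sub_zero, mul_one]
  · have hn0 : n ≠ 0 := by omega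
    have hne0 : n - e ≠ 0 := by omega
    rw [if_neg hn0, if_pos h.le, if_neg h.ne', if_neg hne0, mul_zero]
    by_cases hd : e ∣ n
    · have hd' : e ∣ n - e := Nat.dvd_sub hd (dvd_refl e)
      obtain ⟨m, hm⟩ := hd'
      have hn : n = e * (m + 1) := by
        rw [Nat.mul_succ, ← hm]
        omega
      rw [if_pos hd, if_pos ⟨m, hm⟩, hm, Nat.mul_div_cancel_left _ he, hn,
        Nat.mul_div_cancel_left _ he, pow_succ]
      ring
    · have hd' : ¬ e ∣ n - e := fun h' => hd (by
        have := Nat.dvd_add h' (dvd_refl e)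
        rwa [Nat.sub_add_cancel h.le] at this)
      rw [if_neg hd, if_neg hd', mul_zero, sub_zero]

private theorem sect_cf (N r : ℕ) (v : K0) (W e K : ℕ) :
    sect N r v W e (K + 1) =
      cf (algebraMap K0 MC v * ((Lu ^ (-(N : ℤ)) : MCˣ) : MC)) ((Lu ^ (-(r : ℤ)) : MCˣ) : MC)
        ((Lu ^ (-(W : ℤ)) : MCˣ) : MC) e K := by
  rw [sect, cf]
  refine Finset.sum_congr rfl fun h _ => ?_
  rw [Nat.add_sub_cancel, mul_assoc, mul_assoc]
  congr 1
  rw [← Units.val_pow_eq_pow_val, ← Units.val_pow_eq_pow_val, ← Units.val_mul, ← Units.val_mul,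
    ← zpow_natCast, ← zpow_natCast, ← zpow_mul, ← zpow_mul, ← zpow_add, ← zpow_add]
  congr 2
  push_cast
  ring

theorem sect_polar (N r : ℕ) (v : K0) (W : ℕ) {e : ℕ} (he : 0 < e) (s₀ : ℚ)
    (h1 : s₀ ≠ -((W : ℚ) / e)) (h2 : s₀ ≠ -(r : ℚ)) :
    PowerSeries.mk (fun K => sect N r v W e (K + 1)) ∈ polarRing s₀ := by
  have e0 : (fun K => sect N r v W e (K + 1)) =
      cf (algebraMap K0 MC v * ((Lu ^ (-(N : ℤ)) : MCˣ) : MC)) ((Lu ^ (-(r : ℤ)) : MCˣ) : MC)
        ((Lu ^ (-(W : ℤ)) : MCˣ) : MC) e := funext fun K => sect_cf N r v W e K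
  rw [e0]
  refine CN.mem_polar_of_mul s₀ (r : ℤ) 1 one_pos ?_ _
    (CN.mem_polar_of_mul s₀ (W : ℤ) e he ?_ _ ?_)
  · intro h
    exact h2 (by rw [← h]; simp)
  · intro h
    exact h1 (by rw [← h, neg_div]; simp)
  · rw [cf_mul _ _ _ he]
    exact Subring.mul_mem _ (CN.C_mem_polar s₀ _) (CN.X_pow_mem_polar s₀ e)

end Po
end NC
end MotMono
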