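import Pool.Agent.Lib.MP_4e5fcd_ag.NC.PDefs
import Pool.Agent.Lib.MP_4e5fcd_ag.LF.Z2
import Pool.Agent.Lib.MP_4e5fcd_ag.LF.M3

/-!
# NC-PC: the poles for monomial ideals

Apply `LF.exists_ess_of_pole` (LF/Z2) to `L : LF.Loc (Fin N) {m // m ∈ S} N` with `a i = Pi.single i 1`, `w g i = (g : Fin N →₀ ℕ) i`,
`V g = 1`, `p = 0` (`ha`: `Pi.single i 1 ≠ 0`; `hp`: `dotProduct_zero`; `hV`: `map_one`). `S` is nonempty: otherwise `Ideal.span (range (mons S)) = ⊥` and
`LF.zmot_bot` (LF/M3) contradicts the pole (`0 ∈ polarRing`). `L.gen g = 1 * ∏ i, linForm (Pi.single i 1) ^ g i = monomial g 1`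
(`linForm (Pi.single i 1) = X i`: `linForm a = ∑ i, C (a i) * X i`; `monomial_eq`), so `L.J = Ideal.span (Set.range (mons S))` (`S.equivFin` is a bijection).

We get `u` with `Prim u`, `Ess L.a L.w u`, `s₀ = -(nu L.a u) / (mn L.w u)`. Put `e := mn L.w u`. `pair (w g) u = ∑ i, g i * u i = wd u g`.
* `mn`: `e = sInf (range fun g => wd u g)`: attained, `e ≤ wd u m` for `m ∈ S` (`Nat.sInf_mem`, `Nat.sInf_le`). `0 < e`: `Ess.pos`. `Fc L.w u` is the set of the `g` with
  `wd u g = e`.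
* `rkS a D = card D`: `a` restricted to `D` is linearly independent (`Pi.basisFun`), `finrank_span_set_eq_card` or similar. So
  `nu a u = ∑ c ∈ range (∑ j, u j), #{j | c + 1 ≤ u j} = ∑ j, u j` (exchange the sums: `#{c < ∑ u | c + 1 ≤ u j} = u j`).
* `Du`: every `i` with `u i ≠ 0` is in `D := Du L.w u`: `Ess.closed`: `clo a D u i = sSup {c | a i ∈ sp a {j | j ∈ D ∧ c ≤ u j}} = u i`; if `i ∉ D` then `a i` is not in
  the span of other unit vectors (evaluate at `i`), the set is empty and `u i = sSup ∅ = 0`. So `D = {i | u i ≠ 0}`.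
* `LinM a D u` contains all `z` with `z i = 0` for `i ∉ D`: `MaxB a D u B` gives `IsBas a D B`: `B ⊆ D` and every `a i`, `i ∈ D`, is in the span of the `a b`, `b ∈ B`, so
  `i ∈ B` (evaluate at `i`). So `B = D` is unique and the second condition is trivial.
`Fac S u e`: `pos`, `ge` see above. `prim`: `Prim u`: the gcd divides all `u i` (`Finset.gcd_dvd`). `ext`: `y, t` given: `y i = 0` where `u i = 0`, so `y ∈ LinM`; for `g, g' ∈ Fc`
`pq (w g) y = ∑ g i * y i = t = pq (w g') y`. `Ess.ext`: `y i = c * u i` for `i ∈ D`, and for `i ∉ D` both sides are `0`. `t = ∑ m i * y i = c * wd u m = c * e` for an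
`m ∈ S` with `wd u m = e`.
-/

open MvPolynomial

namespace MotMono
namespace NC

open WH

namespace Po

variable {N r : ℕ}

/-- the unit vectors -/
private noncomputable def pcE (N : ℕ) : Fin N → Fin N → ℂ := fun i => Pi.single i 1

private theorem pc_mem (D : Set (Fin N)) (i : Fin N) (h : pcE N i ∈ LF.sp (pcE N) D) : i ∈ D := by
  classical
  by_contra hi
  have h1 : LF.sp (pcE N) D ≤ LinearMap.ker (LinearMap.proj i : (Fin N → ℂ) →ₗ[ℂ] ℂ) := by
    rw [LF.sp, Submodule.span_le]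
    rintro _ ⟨j, hj, rfl⟩
    have hne : i ≠ j := fun h2 => hi (h2 ▸ hj)
    rw [SetLike.mem_coe, LinearMap.mem_ker, LinearMap.proj_apply, pcE, Pi.single_eq_of_ne hne]
  have h2 := h1 h
  rw [LinearMap.mem_ker, LinearMap.proj_apply, pcE, Pi.single_eq_same] at h2
  exact one_ne_zero h2

private theorem pc_rk (D : Set (Fin N)) [DecidablePred (· ∈ D)] :
    LF.rkS (pcE N) D = (Finset.univ.filter (· ∈ D)).card := by
  classical
  have hli : LinearIndependent ℂ (fun x : D => pcE N x) := by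
    have h1 := (Pi.basisFun ℂ (Fin N)).linearIndependent
    have h2 : (fun x : D => pcE N x) = (⇑(Pi.basisFun ℂ (Fin N))) ∘ (Subtype.val : D → Fin N) := by
      funext x
      rw [Function.comp_apply, Pi.basisFun_apply, pcE]
    rw [h2]
    exact h1.comp _ Subtype.val_injective
  rw [LF.rkS, LF.sp, Set.image_eq_range, finrank_span_eq_card hli, Fintype.card_subtype]

private theorem pc_nu (u : Fin N → ℕ) : LF.nu (pcE N) u = ∑ j, u j := by
  classical
  unfold LF.nu
  have h1 : ∀ c ∈ Finset.range (∑ j, u j), LF.rkS (pcE N) {j | c + 1 ≤ u j} =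
      ∑ j, if c < u j then 1 else 0 := by
    intro c _
    rw [pc_rk, Finset.card_filter]
    rfl
  rw [Finset.sum_congr rfl h1, Finset.sum_comm]
  refine Finset.sum_congr rfl fun j _ => ?_
  rw [← Finset.card_filter]
  have h2 : (Finset.range (∑ j, u j)).filter (fun c => c < u j) = Finset.range (u j) := by
    ext c
    rw [Finset.mem_filter, Finset.mem_range, Finset.mem_range]
    have h3 : u j ≤ ∑ j, u j :=
      Finset.single_le_sum (f := u) (fun _ _ => Nat.zero_le _) (Finset.mem_univ j)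
    omega
  rw [h2, Finset.card_range]

private theorem pc_clo (D : Finset (Fin N)) (u : Fin N → ℕ) (i : Fin N) (hi : i ∉ D) :
    LF.clo (pcE N) D u i = 0 := by
  unfold LF.clo
  have h1 : {c | pcE N i ∈ LF.sp (pcE N) {j | j ∈ D ∧ c ≤ u j}} = (∅ : Set ℕ) := by
    rw [Set.eq_empty_iff_forall_notMem]
    intro c hc
    exact hi (pc_mem _ _ hc).1
  rw [h1, csSup_empty, Nat.bot_eq_zero]

private theorem pc_maxB (D : Finset (Fin N)) (u : Fin N → ℕ) (B : Finset (Fin N))
    (h : LF.MaxB (pcE N) D u B) : B = D := by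
  refine Finset.Subset.antisymm h.1.1 fun i hi => ?_
  have h1 := pc_mem _ _ (h.1.2.2 i hi)
  exact h1

private theorem pc_lin (D : Finset (Fin N)) (u : Fin N → ℕ) (z : Fin N → ℚ)
    (h : ∀ i, i ∉ D → z i = 0) : z ∈ LF.LinM (pcE N) D u := by
  refine ⟨h, fun B B' hB hB' => ?_⟩
  rw [pc_maxB D u B hB, pc_maxB D u B' hB']

private theorem pc_linForm (i : Fin N) : linForm (pcE N i) = X i := by
  classical
  unfold linForm pcE
  rw [Finset.sum_eq_single i]
  · rw [Pi.single_eq_same, C_1, one_mul]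
  · intro j _ hj
    rw [Pi.single_eq_of_ne hj, C_0, zero_mul]
  · intro h
    exact absurd (Finset.mem_univ i) h

/-- the local data of the monomials -/
private noncomputable def pcL (S : Finset (Fin N →₀ ℕ)) : LF.Loc (Fin N) {m // m ∈ S} N where
  a := pcE N
  w g i := (g : Fin N →₀ ℕ) i
  V _ := 1
  p := 0
  ha i := by
    intro h
    have h1 := congrFun h i
    rw [pcE, Pi.single_eq_same] at h1
    exact one_ne_zero h1
  hp i := by
    exact dotProduct_zero _
  hV g := by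
    rw [map_one]
    exact one_ne_zero

private theorem pc_gen (S : Finset (Fin N →₀ ℕ)) (g : {m // m ∈ S}) :
    (pcL S).gen g = monomial (g : Fin N →₀ ℕ) 1 := by
  unfold LF.Loc.gen
  change (1 : MvPolynomial (Fin N) ℂ) * ∏ i, linForm (pcE N i) ^ ((g : Fin N →₀ ℕ) i) = _
  rw [one_mul, monomial_eq, C_1, one_mul, Finsupp.prod_fintype _ _ (fun _ => pow_zero _)]
  exact Finset.prod_congr rfl fun i _ => by rw [pc_linForm]

private theorem pc_J (S : Finset (Fin N →₀ ℕ)) :
    (pcL S).J = Ideal.span (Set.range (mons S)) := by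
  unfold LF.Loc.J
  congr 1
  ext f
  constructor
  · rintro ⟨g, rfl⟩
    refine ⟨S.equivFin g, ?_⟩
    rw [pc_gen, mons, Equiv.symm_apply_apply]
  · rintro ⟨j, rfl⟩
    exact ⟨S.equivFin.symm j, pc_gen S _⟩

private theorem pc_fac {S : Finset (Fin N →₀ ℕ)} (hS : S.Nonempty) {u : Fin N → ℕ}
    (hu : Prim u) (hE : LF.Ess (pcL S).a (pcL S).w u) : Fac S u (LF.mn (pcL S).w u) := by
  classical
  have hpair : ∀ g : {m // m ∈ S}, pair ((pcL S).w g) u = wd u (g : Fin N →₀ ℕ) :=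
    fun g => rfl
  have hne : (Set.range fun g => pair ((pcL S).w g) u).Nonempty := by
    obtain ⟨m, hm⟩ := hS
    exact ⟨_, ⟨⟨m, hm⟩, rfl⟩⟩
  have hle : ∀ m ∈ S, LF.mn (pcL S).w u ≤ wd u m := by
    intro m hm
    exact Nat.sInf_le ⟨⟨m, hm⟩, rfl⟩
  obtain ⟨g₀, hg₀⟩ := Nat.sInf_mem hne
  have hg₀' : wd u (g₀ : Fin N →₀ ℕ) = LF.mn (pcL S).w u := hg₀
  have hD : ∀ i, i ∉ LF.Du (pcL S).w u → u i = 0 := by
    intro i hi
    rw [← hE.closed i]
    exact pc_clo _ _ _ hi
  refine ⟨hE.pos, hle, hu _ (fun i => Finset.gcd_dvd (Finset.mem_univ i)), fun y t hy h => ?_⟩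
  have hz : y ∈ LF.LinM (pcL S).a (LF.Du (pcL S).w u) u :=
    pc_lin _ _ _ fun i hi => hy i (hD i hi)
  have hFc : ∀ g ∈ LF.Fc (pcL S).w u, LF.pq ((pcL S).w g) y = t := by
    intro g hg
    unfold LF.Fc at hg
    rw [Finset.mem_filter] at hg
    have h1 : wd u (g : Fin N →₀ ℕ) = LF.mn (pcL S).w u := by
      refine le_antisymm ?_ (hle _ g.2)
      rw [← hg₀']
      exact hg.2 g₀
    exact h _ g.2 h1
  obtain ⟨c, hc⟩ := hE.ext y hz fun g hg g' hg' => by rw [hFc g hg, hFc g' hg']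
  have hc' : ∀ i, y i = c * u i := by
    intro i
    by_cases hi : i ∈ LF.Du (pcL S).w u
    · exact hc i hi
    · rw [hy i (hD i hi), hD i hi, Nat.cast_zero, mul_zero]
  refine ⟨c, hc', ?_⟩
  rw [← h _ g₀.2 hg₀', ← hg₀', wd]
  push_cast
  rw [Finset.mul_sum]
  exact Finset.sum_congr rfl fun i _ => by rw [hc' i]; ring

theorem exists_fac_of_pole_mons {S : Finset (Fin N →₀ ℕ)} {s₀ : ℚ}
    (hp : IsPole (Zmot (Ideal.span (Set.range (mons S)))) s₀) :
    ∃ w e, Fac S w e ∧ s₀ = -((∑ i, (w i : ℚ)) / e) := by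
  classical
  have hS : S.Nonempty := by
    rw [Finset.nonempty_iff_ne_empty]
    rintro rfl
    apply hp
    have h1 : Set.range (mons (∅ : Finset (Fin N →₀ ℕ))) = ∅ := by
      rw [Set.range_eq_empty_iff]
      rw [Finset.card_empty]
      infer_instance
    rw [h1, Ideal.span_empty, LF.zmot_bot]
    exact Subring.zero_mem _
  haveI : Nonempty {m // m ∈ S} := by
    obtain ⟨m, hm⟩ := hS
    exact ⟨⟨m, hm⟩⟩
  rw [← pc_J] at hp
  obtain ⟨u, hu, hE, hs⟩ := LF.exists_ess_of_pole (pcL S) rfl s₀ hp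
  refine ⟨u, LF.mn (pcL S).w u, pc_fac hS hu hE, ?_⟩
  have h1 : LF.nu (pcL S).a u = ∑ j, u j := pc_nu u
  rw [hs, h1, neg_div]
  push_cast
  rfl

end Po
end NC
end MotMono
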