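import Pool.Agent.Lib.MP_4e5fcd_ag.NC.P7

/-!
# NC-PD: the facets of `SB S`

Let `Fac (SB S) w e`.

`fac_SB_lt` (CASE 1): there is a B-facet `(w₀, a)` for an axis `i` (`Fac S w₀ a`, `BT S w₀ a i`) with `a * w i < e`. CLAIM: `w i = 0`, `e = 1`, `w k = 1` for all
`k ≠ i`. For `k ≠ i`: `single i (a - w₀ k) + single k 1 ∈ SB S` (`bt_pt_SB`), so `e ≤ (a - w₀ k) * w i + w k` (`wd_add`, `wd_single`). Put `δ k = w k - w i * w₀ k`
(in `ℤ`): `δ k ≥ e - a * w i > 0` for `k ≠ i`, `δ i = 0` (`w₀ i = 1`). For `m ∈ SB S` (integers):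
`wd w m = w i * wd w₀ m + ∑_{k ≠ i} m k * δ k ≥ w i * a + (∑_{k ≠ i} m k) * (e - a * w i) ≥ e` (`hF₀.ge` for `m ∈ S`; `1 ≤ ∑_{k ≠ i} m k`: `bt_SB_sum`). (*)
If `wd w m = e`, then all these are equalities: `∑_{k ≠ i} m k = 1`, so `m = single i b + single k 1` for some `k ≠ i`, `b = m i`, and `δ k = e - a * w i` (i.e.
`w k = e - a * w i + w i * w₀ k`), and `w i * wd w₀ m = w i * a`.
 - `w i > 0` is impossible: for `m ∈ SB S` with `wd w m = e` we have `wd w₀ m = a`. All `w k > 0` (`w k ≥ δ k > 0`). `hF.ext` with `y = w₀`, `t = a` (the condition at the zeros of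
   `w` is empty): `w₀ k = c * w k`, `a = c * e`; at `i`: `1 = c * w i`; so `a * w i = e`, contradiction to `a * w i < e`.
 - `w i = 0`: for `m ∈ SB S` with `wd w m = e`: `m = single i b + single k 1` with `w k = e`. Suppose `w k ≠ e` for some `k ≠ i`; `w k ≥ e > 0`. `hF.ext` with
   `y = Pi.single k 1`, `t = 0`: `y` vanishes where `w` vanishes; `∑ m l * y l = m k = 0` for all `m` of weight `e` (otherwise `m = single i b + single k 1`, `w k = e`). So
   `0 = c * e`, `c = 0`, `1 = c * w k = 0`, contradiction. So `w k = e` for all `k ≠ i`; `e` divides all `w l`, so `e = 1` (`hF.prim`, `Finset.dvd_gcd`).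

`fac_SB` : in CASE 1 `∑ w = N - 1` and `e = 1`: second alternative with `z = -(N - 1)`: (`∑ l, w l = #{k ≠ i}`, `N ≥ 1` because of `i`).
CASE 2: `e ≤ a * w i` for all B-facets `(w₀, a)` and their axes `i`. Then `Fac S w e`: `pos`, `prim` as for `SB S`. `ge`: `m ∈ S`: if `m ∈ SB S` clear; otherwise
`m = single i b` for a B-facet `(w₀, a)` with axis `i`, `a ≤ b` (`bt_exp`), `wd w m = b * w i ≥ a * w i ≥ e`. `ext`: the hypothesis for all `m ∈ S` of weight `e` implies that for all
`m ∈ SB S` of weight `e`; `hF.ext`. Not BT: suppose `BT S w e i`. For `m ∈ SB S` with `wd w m = e`: `hB.only`: `m = single i e` is impossible (`mem_SB`, with `Fac S w e`), so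
`m = single i b + single k 1`, `k ≠ i`. `hF.ext` (all `w l > 0`) with `y l = w l + (if l = i then 0 else 1)`, `t = e + 1`: `∑ m l * y l = wd w m + ∑_{l ≠ i} m l = e + 1`. So
`y = c * w`, at `i`: `1 = c * 1`, and `e + 1 = c * e = e`, contradiction.
-/

open MvPolynomial

namespace MotMono
namespace NC

open WH

namespace Po

variable {N r : ℕ}

private theorem pd_key {w w₀ : Fin N → ℕ} {i : Fin N} {c : ℕ} (h1 : w₀ i = 1)
    (hk : ∀ k, k ≠ i → c + w i * w₀ k ≤ w k) (m : Fin N →₀ ℕ) :
    w i * wd w₀ m + c * ∑ k ∈ Finset.univ.erase i, m k ≤ wd w m ∧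
      (w i * wd w₀ m + c * ∑ k ∈ Finset.univ.erase i, m k = wd w m →
        ∀ k, k ≠ i → m k ≠ 0 → w k = c + w i * w₀ k) := by
  classical
  have e1 : wd w m = m i * w i + ∑ k ∈ Finset.univ.erase i, m k * w k := by
    unfold wd
    exact (Finset.add_sum_erase _ (fun k => m k * w k) (Finset.mem_univ i)).symm
  have e2 : w i * wd w₀ m + c * ∑ k ∈ Finset.univ.erase i, m k =
      m i * w i + ∑ k ∈ Finset.univ.erase i, m k * (c + w i * w₀ k) := by
    have e3 : wd w₀ m = m i * w₀ i + ∑ k ∈ Finset.univ.erase i, m k * w₀ k := by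
      unfold wd
      exact (Finset.add_sum_erase _ (fun k => m k * w₀ k) (Finset.mem_univ i)).symm
    rw [e3, h1, mul_one, mul_add, add_assoc, Finset.mul_sum, Finset.mul_sum,
      ← Finset.sum_add_distrib]
    congr 1
    · ring
    · exact Finset.sum_congr rfl fun k _ => by ring
  have hle : ∀ k ∈ Finset.univ.erase i, m k * (c + w i * w₀ k) ≤ m k * w k := fun k hk' =>
    Nat.mul_le_mul_left _ (hk k (Finset.ne_of_mem_erase hk'))
  constructor
  · rw [e1, e2]
    exact Nat.add_le_add_left (Finset.sum_le_sum hle) _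
  · intro h k hk' hm
    rw [e1, e2] at h
    have h2 := (Finset.sum_eq_sum_iff_of_le hle).1 (Nat.add_left_cancel h) k
      (Finset.mem_erase.2 ⟨hk', Finset.mem_univ k⟩)
    exact (Nat.eq_of_mul_eq_mul_left (Nat.pos_of_ne_zero hm) h2).symm

/-- case 1 of the header -/
theorem fac_SB_lt {S : Finset (Fin N →₀ ℕ)} {w w₀ : Fin N → ℕ} {e a : ℕ} {i : Fin N}
    (hF : Fac (SB S) w e) (hF₀ : Fac S w₀ a) (hB : BT S w₀ a i) (hlt : a * w i < e) :
    w i = 0 ∧ e = 1 ∧ ∀ k, k ≠ i → w k = 1 := by
  classical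
  obtain ⟨c, hc⟩ := Nat.exists_eq_add_of_lt hlt
  -- `e = a * w i + c + 1`
  have hk : ∀ k, k ≠ i → (c + 1) + w i * w₀ k ≤ w k := by
    intro k hk
    have h1 := hF.ge _ (bt_pt_SB hB hk)
    rw [wd_add, wd_single, wd_single, one_mul] at h1
    have h2 := bt_le hB k
    have h3 : (a - w₀ k) * w i + w₀ k * w i = a * w i := by
      rw [← add_mul, Nat.sub_add_cancel h2]
    have h4 : w i * w₀ k = w₀ k * w i := mul_comm _ _
    omega
  have hm : ∀ m ∈ SB S, wd w m = e → w i * wd w₀ m = w i * a ∧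
      ∀ k, k ≠ i → m k ≠ 0 → w k = (c + 1) + w i * w₀ k := by
    intro m hm hme
    obtain ⟨h1, h2⟩ := pd_key hB.one hk m
    have h3 := bt_SB_sum hF₀ hB hm
    have h4 : w i * a ≤ w i * wd w₀ m := Nat.mul_le_mul_left _ (hF₀.ge m (mem_SB.1 hm).1)
    have h5 : (c + 1) * 1 ≤ (c + 1) * ∑ k ∈ Finset.univ.erase i, m k :=
      Nat.mul_le_mul_left _ h3
    have h6 : w i * a = a * w i := mul_comm _ _
    rw [hme] at h1 h2
    refine ⟨by omega, h2 (by omega)⟩
  have hw0 : w i = 0 := by
    by_contra hwi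
    have hwpos : ∀ k, w k ≠ 0 := by
      intro k
      by_cases hki : k = i
      · rw [hki]
        exact hwi
      · have := hk k hki
        omega
    obtain ⟨q, hq1, hq2⟩ := hF.ext (fun k => (w₀ k : ℚ)) (a : ℚ) (fun k h => absurd h (hwpos k))
      (by
        intro m hmS hme
        have h1 := Nat.eq_of_mul_eq_mul_left (Nat.pos_of_ne_zero hwi) (hm m hmS hme).1
        rw [← h1]
        unfold wd
        push_cast
        rfl)
    have h1 := hq1 i
    simp only [hB.one, Nat.cast_one] at h1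
    have h2 : (a : ℚ) * w i = e := by
      rw [hq2]
      calc q * (e : ℚ) * w i = (q * w i) * e := by ring
        _ = e := by rw [← h1, one_mul]
    have h3 : a * w i = e := by exact_mod_cast h2
    omega
  have hall : ∀ k, k ≠ i → w k = e := by
    intro k hki
    by_contra hne
    have hk1 := hk k hki
    have hkpos : w k ≠ 0 := by omega
    obtain ⟨q, hq1, hq2⟩ := hF.ext (Pi.single k 1) 0 (by
      intro l hl
      rw [Pi.single_eq_of_ne]
      rintro rfl
      exact hkpos hl) (by
      intro m hmS hme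
      rw [Finset.sum_eq_single k]
      · have h1 : m k = 0 := by
          by_contra h2
          have h3 := (hm m hmS hme).2 k hki h2
          rw [hw0] at h3 hc
          omega
        rw [h1, Nat.cast_zero, zero_mul]
      · intro l _ hl
        rw [Pi.single_eq_of_ne hl, mul_zero]
      · intro h
        exact absurd (Finset.mem_univ k) h)
    have he : (e : ℚ) ≠ 0 := by
      have := hF.pos
      exact_mod_cast this.ne'
    have hq0 : q = 0 := (mul_eq_zero.1 hq2.symm).resolve_right he
    have h1 := hq1 k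
    rw [Pi.single_eq_same, hq0, zero_mul] at h1
    exact one_ne_zero h1
  have he1 : e = 1 := by
    have h1 : e ∣ Finset.univ.gcd w := by
      refine Finset.dvd_gcd fun l _ => ?_
      by_cases hl : l = i
      · rw [hl, hw0]
        exact dvd_zero _
      · rw [hall l hl]
    rw [hF.prim] at h1
    exact Nat.dvd_one.1 h1
  exact ⟨hw0, he1, fun k hk' => by rw [hall k hk', he1]⟩

theorem fac_SB {S : Finset (Fin N →₀ ℕ)} {w : Fin N → ℕ} {e : ℕ} (hF : Fac (SB S) w e) :
    (Fac S w e ∧ ∀ i, ¬ BT S w e i) ∨ ∃ z : ℤ, -((∑ i, (w i : ℚ)) / e) = z := by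
  classical
  by_cases h : ∃ w₀ a i, Fac S w₀ a ∧ BT S w₀ a i ∧ a * w i < e
  · obtain ⟨w₀, a, i, hF₀, hB, hlt⟩ := h
    obtain ⟨-, he, -⟩ := fac_SB_lt hF hF₀ hB hlt
    right
    refine ⟨-(∑ l, (w l : ℤ)), ?_⟩
    rw [he]
    push_cast
    rw [div_one]
  · push Not at h
    left
    have hFS : Fac S w e := by
      refine ⟨hF.pos, ?_, hF.prim, ?_⟩
      · intro m hm
        by_cases hmB : m ∈ SB S
        · exact hF.ge m hmB
        · rw [mem_SB] at hmB
          push Not at hmB
          obtain ⟨w₀, a, i, hF₀, hB, b, rfl⟩ := hmB hm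
          rw [wd_single]
          exact (h w₀ a i hF₀ hB).trans (Nat.mul_le_mul_right _ (bt_exp hF₀ hB hm))
      · intro y t hy ht
        exact hF.ext y t hy fun m hm hme => ht m (mem_SB.1 hm).1 hme
    refine ⟨hFS, fun i hB => ?_⟩
    obtain ⟨q, hq1, hq2⟩ := hF.ext (fun l => (w l : ℚ) + if l = i then 0 else 1) ((e : ℚ) + 1)
      (fun l hl => absurd hl (hB.pos l).ne') (by
      intro m hm hme
      rcases hB.only m (mem_SB.1 hm).1 hme with h1 | ⟨k, hk, b, rfl⟩
      · exact absurd h1 ((mem_SB.1 hm).2 w e i hFS hB e)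
      · have h2 : ∑ l, (((Finsupp.single i b + Finsupp.single k 1 : Fin N →₀ ℕ) l : ℕ) : ℚ) *
            ((w l : ℚ) + if l = i then 0 else 1) =
            (wd w (Finsupp.single i b + Finsupp.single k 1) : ℚ) +
              ∑ l, (((Finsupp.single i b + Finsupp.single k 1 : Fin N →₀ ℕ) l : ℕ) : ℚ) *
                (if l = i then 0 else 1) := by
          unfold wd
          push_cast
          rw [← Finset.sum_add_distrib]
          exact Finset.sum_congr rfl fun l _ => by ring
        rw [h2, hme]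
        congr 1
        rw [Finset.sum_eq_single k]
        · rw [if_neg hk, mul_one, Finsupp.add_apply, Finsupp.single_eq_same,
            Finsupp.single_eq_of_ne hk]
          norm_num
        · intro l _ hl
          by_cases hli : l = i
          · rw [if_pos hli, mul_zero]
          · rw [Finsupp.add_apply, Finsupp.single_eq_of_ne hli, Finsupp.single_eq_of_ne hl]
            simp
        · intro h3
          exact absurd (Finset.mem_univ k) h3)
    have h1 := hq1 i
    simp only [if_true, add_zero, hB.one, Nat.cast_one, mul_one] at h1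
    rw [← h1, one_mul] at hq2
    linarith

end Po
end NC
end MotMono
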