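import Pool.Agent.Lib.MP_4e5fcd_ag.NC.P5
import Pool.Agent.Lib.MP_4e5fcd_ag.NC.P6
import Pool.Agent.Lib.MP_4e5fcd_ag.NC.PA
import Pool.Agent.Lib.MP_4e5fcd_ag.NC.PB
import Pool.Agent.Lib.MP_4e5fcd_ag.NC.PC
import Pool.Agent.Lib.MP_4e5fcd_ag.NC.PD

/-! # NC-PMain: the poles -/

open MvPolynomial

namespace MotMono
namespace NC

open WH

namespace Po

variable {N r : ℕ}

/-- the measure for `f` and the measure for the monomials of `SB S` differ by the sectors of the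
compact facets which are not B-facets -/
theorem mu_diff {f : Fin r → MvPolynomial (Fin N) ℂ} (hr : r + 1 = N) (hf : Nondeg f)
    (h0 : (0 : Fin N →₀ ℕ) ∉ Sup f)
    (hK : ∀ w e, Fac (Sup f) w e → (∀ i, 0 < w i) → (VT f w e).Nonempty) (K : ℕ) :
    WH.mu f K = WH.mu (mons (SB (Sup f))) K +
      ∑ p ∈ FC (Sup f) with p ∉ FB (Sup f),
        sect N r (cls (VT f p.1 p.2)) (∑ i, p.1 i) p.2 K := by
  classical
  rw [mu_FC hr hf h0 K, mu_SB hr (Sup f) K, add_assoc]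
  congr 1
  have h1 : ∑ p ∈ FB (Sup f), sect N r (LL - 1) (∑ i, p.1 i) p.2 K =
      ∑ p ∈ FC (Sup f) with p ∈ FB (Sup f),
        sect N r (cls (VT f p.1 p.2)) (∑ i, p.1 i) p.2 K := by
    have h2 : (FC (Sup f)).filter (fun p => p ∈ FB (Sup f)) = FB (Sup f) := by
      ext p
      rw [Finset.mem_filter]
      refine ⟨fun h => h.2, fun h => ⟨?_, h⟩⟩
      obtain ⟨h3, i, h4⟩ := mem_FB.1 h
      exact mem_FC.2 ⟨h3, h4.pos⟩
    rw [h2]
    refine Finset.sum_congr rfl fun p hp => ?_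
    obtain ⟨h3, i, h4⟩ := mem_FB.1 hp
    rw [cls_VT_BT hr hf h3 h4 (hK _ _ h3 h4.pos)]
  rw [h1, Finset.sum_filter_add_sum_filter_not]

end Po

open Po

variable {N r : ℕ}

theorem exists_fac_of_pole {f : Fin r → MvPolynomial (Fin N) ℂ} (hr : r + 1 = N) (hf : Nondeg f)
    (h0 : (0 : Fin N →₀ ℕ) ∉ Sup f)
    (hK : ∀ w e, Fac (Sup f) w e → (∀ i, 0 < w i) → (VT f w e).Nonempty) (s₀ : ℚ)
    (hp : IsPole (Zmot (Ideal.span (Set.range f))) s₀) (hz : ∀ z : ℤ, s₀ ≠ z) :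
    ∃ w e, Fac (Sup f) w e ∧ s₀ = -((∑ i, (w i : ℚ)) / e) ∧ ∀ i, ¬ BT (Sup f) w e i := by
  classical
  by_contra hcon
  push Not at hcon
  set D : ℕ → MC := fun K => ∑ p ∈ FC (Sup f) with p ∉ FB (Sup f),
        sect N r (cls (VT f p.1 p.2)) (∑ i, p.1 i) p.2 K with hD
  have hD0 : D 0 = 0 := by
    rw [hD]
    exact Finset.sum_eq_zero fun p _ => sect_zero _ _ _ _ _
  have hE : PowerSeries.mk (fun K => D (K + 1)) ∈ polarRing s₀ := by
    have e1 : PowerSeries.mk (fun K => D (K + 1)) = ∑ p ∈ FC (Sup f) with p ∉ FB (Sup f),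
        PowerSeries.mk (fun K => sect N r (cls (VT f p.1 p.2)) (∑ i, p.1 i) p.2 (K + 1)) := by
      ext K
      rw [PowerSeries.coeff_mk, map_sum]
      exact Finset.sum_congr rfl fun p _ => by rw [PowerSeries.coeff_mk]
    rw [e1]
    refine Subring.sum_mem _ fun p hp' => ?_
    obtain ⟨h1, h2⟩ := Finset.mem_filter.1 hp'
    obtain ⟨h3, -⟩ := mem_FC.1 h1
    refine sect_polar N r _ _ h3.pos s₀ (fun h4 => ?_) (fun h4 => ?_)
    · obtain ⟨i, hi⟩ := hcon p.1 p.2 h3 (by rw [h4]; push_cast; rfl)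
      exact h2 (mem_FB.2 ⟨h3, i, hi⟩)
    · exact hz (-(r : ℤ)) (by rw [h4]; push_cast; rfl)
  have hmu := mu_diff hr hf h0 hK
  have hZ : Zmot (Ideal.span (Set.range f)) = Zmot (Ideal.span (Set.range (mons (SB (Sup f))))) +
      ((PowerSeries.X : PowerSeries MC) ^ 1 * PowerSeries.mk (fun K => D (K + 1)) -
        PowerSeries.mk (fun K => D (K + 1))) := by
    ext k
    rw [map_add, zmot_coeff, zmot_coeff, hmu k, hmu (k + 1), map_sub, pow_one,
      PowerSeries.coeff_mk]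
    cases k with
    | zero =>
      rw [PowerSeries.coeff_zero_X_mul]
      have : (∑ p ∈ FC (Sup f) with p ∉ FB (Sup f),
        sect N r (cls (VT f p.1 p.2)) (∑ i, p.1 i) p.2 0) = 0 := hD0
      rw [this]
      simp only [hD]
      ring
    | succ k =>
      rw [PowerSeries.coeff_succ_X_mul, PowerSeries.coeff_mk]
      simp only [hD]
      ring
  have hp' : IsPole (Zmot (Ideal.span (Set.range (mons (SB (Sup f)))))) s₀ := by
    intro h
    apply hp
    rw [hZ]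
    exact Subring.add_mem _ h (Subring.sub_mem _
      (Subring.mul_mem _ (CN.X_pow_mem_polar s₀ 1) hE) hE)
  obtain ⟨w, e, hF, hs⟩ := exists_fac_of_pole_mons hp'
  rcases fac_SB hF with ⟨h1, h2⟩ | ⟨z, h1⟩
  · obtain ⟨i, hi⟩ := hcon w e h1 hs
    exact h2 i hi
  · exact hz z (by rw [hs, h1])

end NC
end MotMono
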