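import Mathlib

/-!
# NC-Wd: nondegenerate curves, combinatorial notation

`S` is a finite set of exponents.
-/

namespace MotMono
namespace NC

variable {N : ℕ}

/-- the weight of an exponent -/
def wd (w : Fin N → ℕ) (m : Fin N →₀ ℕ) : ℕ := ∑ i, m i * w i

/-- Facets of the Newton polyhedron of `S` which are not coordinate hyperplanes: primitive weights
`w`, `e > 0` the least weight; `w` is determined by the points of `S` of weight `e` and by its
vanishing coordinates. The facet is compact if `w i > 0` for all `i`. -/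
structure Fac (S : Finset (Fin N →₀ ℕ)) (w : Fin N → ℕ) (e : ℕ) : Prop where
  pos : 0 < e
  ge : ∀ m ∈ S, e ≤ wd w m
  prim : Finset.univ.gcd w = 1
  ext : ∀ (y : Fin N → ℚ) (t : ℚ), (∀ i, w i = 0 → y i = 0) →
    (∀ m ∈ S, wd w m = e → ∑ i, (m i : ℚ) * y i = t) → ∃ c : ℚ, (∀ i, y i = c * w i) ∧ t = c * e

/-- `a` is the least exponent of a power of `x i` in `S` -/
def IsAx (S : Finset (Fin N →₀ ℕ)) (i : Fin N) (a : ℕ) : Prop :=
  Finsupp.single i a ∈ S ∧ ∀ b, Finsupp.single i b ∈ S → a ≤ b

/-- B-facets: compact facets such that the points of `S` of weight `e` are `e` on the axis `i` and one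
point `a + (k-th unit vector)` for each `k ≠ i`. -/
structure BT (S : Finset (Fin N →₀ ℕ)) (w : Fin N → ℕ) (e : ℕ) (i : Fin N) : Prop where
  pos : ∀ k, 0 < w k
  one : w i = 1
  two : 2 ≤ e
  ax : Finsupp.single i e ∈ S
  pt : ∀ k, k ≠ i → ∃ a, Finsupp.single i a + Finsupp.single k 1 ∈ S ∧ a + w k = e
  only : ∀ m ∈ S, wd w m = e → m = Finsupp.single i e ∨
    ∃ k, k ≠ i ∧ ∃ a, m = Finsupp.single i a + Finsupp.single k 1

end NC
end MotMono
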