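import Pool.Agent.Lib.MP_4e5fcd_ag.NC.R6
import Pool.Agent.Lib.MP_4e5fcd_ag.NC.Wd
import Pool.Agent.Lib.MP_4e5fcd_ag.NW.B5

/-!
# NC-R7: the facets of a monomial ideal give zeros or poles at the points of the strata

`m l`: exponents, `w`, `e` a facet (primitive weights, `e > 0` the least weight, `w` determined by the
exponents of weight `e` and its zeros), `p` a point with `p i = 0` iff `w i > 0`. The jet
`t ^ (w i)` (`w i > 0`), `p i` (`w i = 0`) has the leading coefficients `zF`; `Mov` is empty for them, the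
orders of every contact jet with these leading coefficients are a multiple of `w`, so its level is a
multiple of `e`. By `chi_mon_pos` and `sum_eq_zero` every `lam` with `lam ^ e = 1` is visible.
-/

open MvPolynomial

namespace MotMono
namespace NC

open CN HY NW

variable {N s : ℕ}

/-- facets for a family of exponents -/
structure FacF (m : Fin s → (Fin N →₀ ℕ)) (w : Fin N → ℕ) (e : ℕ) : Prop where
  pos : 0 < e
  ge : ∀ l, e ≤ wd w (m l)
  prim : Finset.univ.gcd w = 1
  ext : ∀ (y : Fin N → ℚ) (t : ℚ), (∀ i, w i = 0 → y i = 0) →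
    (∀ l, wd w (m l) = e → ∑ i, (m l i : ℚ) * y i = t) → ∃ c : ℚ, (∀ i, y i = c * w i) ∧ t = c * e

/-- the leading coefficients of the monomials along the jet `t ^ (w i)`, `p i` -/
noncomputable def zF (m : Fin s → (Fin N →₀ ℕ)) (p : Fin N → ℂ) (w : Fin N → ℕ) (e : ℕ) :
    Fin s → ℂ :=
  fun l => if wd w (m l) = e then ∏ i, (if w i = 0 then p i else 1) ^ (m l i) else 0

private theorem zF_ne {m : Fin s → (Fin N →₀ ℕ)} {p : Fin N → ℂ} {w : Fin N → ℕ} {e : ℕ}
    (hp : ∀ i, p i = 0 ↔ 0 < w i) (l : Fin s) : zF m p w e l ≠ 0 ↔ wd w (m l) = e := by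
  unfold zF
  constructor
  · intro h
    by_contra h1
    rw [if_neg h1] at h
    exact h rfl
  · intro h
    rw [if_pos h]
    refine Finset.prod_ne_zero_iff.2 fun i _ => pow_ne_zero _ ?_
    by_cases h1 : w i = 0
    · rw [if_pos h1]
      intro h2
      have h3 := (hp i).1 h2
      omega
    · rw [if_neg h1]
      exact one_ne_zero

/-- every variable of positive weight occurs in an exponent of weight `e` -/
private theorem occ {m : Fin s → (Fin N →₀ ℕ)} {w : Fin N → ℕ} {e : ℕ} (hF : FacF m w e)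
    {i : Fin N} (hi : 0 < w i) : ∃ l, wd w (m l) = e ∧ 0 < m l i := by
  classical
  by_contra h
  push Not at h
  obtain ⟨c, hc, hc0⟩ := hF.ext (fun k => if k = i then 1 else 0) 0 (by
    intro k hk
    rw [if_neg]
    rintro rfl
    omega) (by
    intro l hl
    refine Finset.sum_eq_zero fun k _ => ?_
    by_cases hk : k = i
    · subst hk
      have h1 : m l k = 0 := Nat.le_zero.1 (h l hl)
      rw [h1]
      simp
    · rw [if_neg hk, mul_zero])
  have h1 := hc i
  have he : (e : ℚ) ≠ 0 := by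
    have := hF.pos
    exact_mod_cast this.ne'
  have h2 : c = 0 := by
    rcases mul_eq_zero.1 hc0.symm with h3 | h3
    · exact h3
    · exact absurd h3 he
  rw [h2] at h1
  simp at h1

private theorem le_e {m : Fin s → (Fin N →₀ ℕ)} {w : Fin N → ℕ} {e : ℕ} (hF : FacF m w e)
    (i : Fin N) : w i ≤ e := by
  rcases Nat.eq_zero_or_pos (w i) with h | h
  · rw [h]
    exact Nat.zero_le _
  · obtain ⟨l, hl, hl2⟩ := occ hF h
    have h1 : m l i * w i ≤ wd w (m l) :=
      Finset.single_le_sum (f := fun k => m l k * w k) (fun _ _ => Nat.zero_le _)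
        (Finset.mem_univ i)
    rw [hl] at h1
    exact le_trans (Nat.le_mul_of_pos_left _ hl2) h1

private theorem no_mov {m : Fin s → (Fin N →₀ ℕ)} {p : Fin N → ℂ} {w : Fin N → ℕ} {e : ℕ}
    (hF : FacF m w e) (hp : ∀ i, p i = 0 ↔ 0 < w i) (i : Fin N) : ¬ Mov m p (zF m p w e) i := by
  rintro ⟨u, ⟨hu1, hu2⟩, hu3⟩
  obtain ⟨c, hc, hc0⟩ := hF.ext (fun k => (u k : ℚ)) 0 (by
    intro k hk
    have h1 : p k ≠ 0 := by
      intro h2
      have h3 := (hp k).1 h2
      omega
    rw [hu1 k h1]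
    simp) (by
    intro l hl
    have h1 := hu2 l ((zF_ne hp l).2 hl)
    have h2 : ((∑ k, u k * (m l k : ℤ) : ℤ) : ℚ) = 0 := by
      rw [h1]
      simp
    rw [← h2]
    push_cast
    exact Finset.sum_congr rfl fun k _ => mul_comm _ _)
  have he : (e : ℚ) ≠ 0 := by
    have := hF.pos
    exact_mod_cast this.ne'
  have h2 : c = 0 := by
    rcases mul_eq_zero.1 hc0.symm with h3 | h3
    · exact h3
    · exact absurd h3 he
  have h1 := hc i
  rw [h2, zero_mul] at h1
  exact hu3 (by exact_mod_cast h1)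

private theorem lead_facet {m : Fin s → (Fin N →₀ ℕ)} {p : Fin N → ℂ} {w : Fin N → ℕ} {e : ℕ}
    (hF : FacF m w e) (hp : ∀ i, p i = 0 ↔ 0 < w i) :
    Lead m p (zF m p w e) e w fun i => if w i = 0 then p i else 1 := by
  have hpn : ∀ i, w i = 0 → p i ≠ 0 := by
    intro i hi h
    have h3 := (hp i).1 h
    omega
  refine ⟨?_, fun i hi => absurd hi (no_mov hF hp i), ?_, ?_, ?_, ?_⟩
  · intro i
    show (if w i = 0 then p i else 1) ≠ 0
    by_cases h : w i = 0
    · rw [if_pos h]
      exact hpn i h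
    · rw [if_neg h]
      exact one_ne_zero
  · intro i hi
    have h : w i = 0 := by
      by_contra h1
      exact hi ((hp i).2 (Nat.pos_of_ne_zero h1))
    exact ⟨h, if_pos h⟩
  · intro i hi _
    exact ⟨(hp i).1 hi, le_e hF i⟩
  · intro l hl
    have h1 := (zF_ne hp l).1 hl
    refine ⟨fun i hi => absurd hi (no_mov hF hp i), ?_, ?_⟩
    · rw [← h1]
      unfold wd
      exact Finset.sum_congr rfl fun k _ => mul_comm _ _
    · unfold zF
      rw [if_pos h1]
  · intro l hl
    right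
    have h1 : wd w (m l) ≠ e := fun h2 => (zF_ne hp l).2 h2 hl
    have h2 := hF.ge l
    have h3 : ∑ i, w i * m l i = wd w (m l) := by
      unfold wd
      exact Finset.sum_congr rfl fun k _ => mul_comm _ _
    rw [h3]
    omega

private theorem dvd_of_lead {m : Fin s → (Fin N →₀ ℕ)} {p : Fin N → ℂ} {w : Fin N → ℕ} {e : ℕ}
    (hF : FacF m w e) (hp : ∀ i, p i = 0 ↔ 0 < w i) {d : ℕ} {a : Fin N → ℕ} {b : Fin N → ℂ}
    (h : Lead m p (zF m p w e) d a b) : e ∣ d := by
  obtain ⟨-, -, h1, -, h2, -⟩ := h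
  obtain ⟨c, hc, hc0⟩ := hF.ext (fun k => (a k : ℚ)) d (by
    intro k hk
    have h3 : p k ≠ 0 := by
      intro h4
      have h5 := (hp k).1 h4
      omega
    show ((a k : ℕ) : ℚ) = 0
    rw [(h1 k h3).1]
    simp) (by
    intro l hl
    have h3 := (h2 l ((zF_ne hp l).2 hl)).2.1
    rw [← h3]
    push_cast
    exact Finset.sum_congr rfl fun k _ => mul_comm _ _)
  have h3 : ∀ i, a i * e = d * w i := by
    intro i
    have h4 : ((a i : ℕ) : ℚ) * e = d * w i := by
      have h5 : ((a i : ℕ) : ℚ) = c * w i := hc i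
      rw [h5, hc0]
      ring
    exact_mod_cast h4
  have h4 : e ∣ Finset.univ.gcd fun i => d * w i :=
    Finset.dvd_gcd fun i _ => ⟨a i, by rw [← h3 i, mul_comm]⟩
  rw [Finset.gcd_mul_left, hF.prim, mul_one] at h4
  simpa using h4

theorem vis_mon {χ : K0 →+* ℤ} (hχ : IsEulerCharF χ) (m : Fin s → (Fin N →₀ ℕ)) (p : Fin N → ℂ)
    (hP : PerAt χ (Ideal.span (Set.range (mon m))) p) {w : Fin N → ℕ} {e : ℕ} (hF : FacF m w e)
    (hp : ∀ i, p i = 0 ↔ 0 < w i) {lam : ℂ} (hl : lam ^ e = 1) :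
    CN.Vis χ (Ideal.span (Set.range (mon m))) p lam := by
  classical
  by_contra hno
  have hz : zF m p w e ≠ 0 := by
    intro h
    -- some exponent has weight `e`
    have h1 : ∃ l, wd w (m l) = e := by
      by_contra h2
      push Not at h2
      obtain ⟨c, hc, hc0⟩ := hF.ext (fun _ => 0) 1 (fun _ _ => rfl) fun l hl => absurd hl (h2 l)
      have h3 : ∃ i, w i ≠ 0 := by
        by_contra h4
        push Not at h4
        have h5 : Finset.univ.gcd w = 0 := Finset.gcd_eq_zero_iff.2 fun i _ => h4 i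
        rw [hF.prim] at h5
        exact one_ne_zero h5
      obtain ⟨i, hi⟩ := h3
      have h4 := hc i
      have h5 : (w i : ℚ) ≠ 0 := by exact_mod_cast hi
      have h6 : c = 0 := by
        rcases mul_eq_zero.1 h4.symm with h7 | h7
        · exact h7
        · exact absurd h7 h5
      rw [h6, zero_mul] at hc0
      exact one_ne_zero hc0
    obtain ⟨l, hl'⟩ := h1
    exact (zF_ne hp l).2 hl' (congrFun h l)
  obtain ⟨M, hM, hper⟩ := perT_of_perAt (mon m) p hP
  obtain ⟨c, e', he', hpos, hc⟩ := chi_mon_pos hχ m p (zF m p w e)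
  have hc0 : 0 < c := hpos _ _ _ hF.pos (lead_facet hF hp)
  have hne : (CT (mon m) p (zF m p w e) e').Nonempty := by
    rw [Set.nonempty_iff_ne_empty]
    intro h1
    have h2 := hc e' he'
    rw [h1, cls_empty, map_zero, if_pos (dvd_refl _)] at h2
    have h3 : c = 0 := by exact_mod_cast h2.symm
    omega
  have hee : e ∣ e' := by
    obtain ⟨γ, hγ⟩ := hne
    obtain ⟨a, b, hab, -⟩ := (mem_fix_iff m p (zF m p w e) he' γ).1
      ⟨hγ, fun i hi => absurd hi (no_mov hF hp i)⟩
    exact dvd_of_lead hF hp hab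
  have hle : lam ^ e' = 1 := by
    obtain ⟨k, rfl⟩ := hee
    rw [pow_mul, hl, one_pow]
  have hM' : e' ∣ M := by
    have h2 := hper _ hz e' he'
    rw [hc e' he', hc _ (Nat.gcd_pos_of_pos_left _ he'), if_pos (dvd_refl e')] at h2
    by_cases h3 : e' ∣ Nat.gcd e' M
    · exact h3.trans (Nat.gcd_dvd_right e' M)
    · rw [if_neg h3] at h2
      have h4 : c = 0 := by exact_mod_cast h2
      omega
  have hlM : lam ^ M = 1 := by
    obtain ⟨k, rfl⟩ := hM'
    rw [pow_mul, hle, one_pow]
  have h0 := sum_eq_zero hχ (mon m) p _ hz hM (hper _ hz) hlM hno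
  have h1 : ∑ d ∈ Finset.Icc 1 M,
      lam ^ d * ((χ (cls (CT (mon m) p (zF m p w e) d)) : ℤ) : ℂ) =
      ((∑ d ∈ Finset.Icc 1 M, if e' ∣ d then c else 0 : ℕ) : ℂ) := by
    rw [Nat.cast_sum]
    refine Finset.sum_congr rfl fun d hd => ?_
    rw [hc d (Finset.mem_Icc.1 hd).1]
    by_cases h2 : e' ∣ d
    · rw [if_pos h2, if_pos h2]
      obtain ⟨k, rfl⟩ := h2
      rw [pow_mul, hle, one_pow, one_mul]
      simp
    · rw [if_neg h2, if_neg h2]
      simp
  rw [h1] at h0
  have h2 : ∑ d ∈ Finset.Icc 1 M, (if e' ∣ d then c else 0) = 0 := by exact_mod_cast h0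
  have h3 := (Finset.sum_eq_zero_iff.1 h2) M (Finset.mem_Icc.2 ⟨hM, le_rfl⟩)
  rw [if_pos hM'] at h3
  omega

end NC
end MotMono
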