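import Pool.Agent.Lib.MP_4e5fcd_ag.NC.R2

/-!
# NC-R4: Nullstellensatz

PROOF. Let `A = Ideal.span {g | Rl f J g}` in `MvPolynomial {m // m ∈ Sup f} ℂ` (finitely many variables). By `r_zero` the zero locus of `A` is contained in `{0}`, so every variable `X m` vanishes on it:
`X m ∈ vanishingIdeal (zeroLocus A) = A.radical` (`MvPolynomial.vanishingIdeal_zeroLocus_eq_radical`). So `X m ^ (n m) ∈ A`; let `n` be the maximum of the `n m` and `1`, and `k = n * (number of elements of Sup f) + 1`. If `dg a = k` then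
`a m ≥ n` for some `m` (pigeonhole), and `monomial a 1` is a multiple of `X m ^ n`.
-/

open MvPolynomial

namespace MotMono
namespace NC

variable {N r : ℕ}

theorem r_null {f : Fin r → MvPolynomial (Fin N) ℂ} (hr : r + 1 = N) (hf : Nondeg f)
    (h0 : (0 : Fin N →₀ ℕ) ∉ Sup f) {J : Finset (Fin N)} (hJ : J.Nonempty)
    (hJ' : J ≠ Finset.univ) :
    ∃ k, 0 < k ∧ ∀ a : {m // m ∈ Sup f} →₀ ℕ, dg a = k →
      monomial a (1 : ℂ) ∈ Ideal.span {g | Rl f J g} := by
  classical
  set A : Ideal (MvPolynomial {m // m ∈ Sup f} ℂ) := Ideal.span {g | Rl f J g} with hA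
  have hX : ∀ m : {m // m ∈ Sup f}, (X m : MvPolynomial {m // m ∈ Sup f} ℂ) ∈ A.radical := by
    intro m
    rw [← vanishingIdeal_zeroLocus_eq_radical (k := ℂ) (K := ℂ) A, mem_vanishingIdeal_iff]
    intro y hy
    rw [mem_zeroLocus_iff] at hy
    have h : y = 0 := r_zero hr hf h0 hJ hJ' y fun g hg => by
      have := hy g (Ideal.subset_span hg)
      rwa [aeval_eq_eval] at this
    rw [h]
    simp
  choose n hn using fun m => (Ideal.mem_radical_iff.1 (hX m))
  set M : ℕ := ∑ m, n m with hM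
  refine ⟨M * Fintype.card {m // m ∈ Sup f} + 1, by omega, ?_⟩
  intro a ha
  obtain ⟨m, hm⟩ : ∃ m, M < a m := by
    by_contra h
    push Not at h
    have h1 : dg a ≤ ∑ _m : {m // m ∈ Sup f}, M := Finset.sum_le_sum fun m _ => h m
    rw [Finset.sum_const, Finset.card_univ, smul_eq_mul, mul_comm] at h1
    omega
  have hnm : n m ≤ a m := (Finset.single_le_sum (f := n) (fun i _ => Nat.zero_le _)
    (Finset.mem_univ m)).trans hm.le
  have h2 : monomial a (1 : ℂ) = monomial (a - Finsupp.single m (n m)) (1 : ℂ) * X m ^ n m := by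
    rw [X_pow_eq_monomial, monomial_mul, one_mul, tsub_add_cancel_of_le]
    exact Finsupp.single_le_iff.2 hnm
  rw [h2]
  exact Ideal.mul_mem_left _ _ (hn m)

end NC
end MotMono
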