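import Mathlib

/-!
# NC-R5b: integral elements by Cayley-Hamilton

PROOF. `M = A` as a module over `R = MvPolynomial (Fin N) ℂ` (finitely generated). Multiplication by `x` is an endomorphism of `M` (`x * a ∈ I * A ≤ A`), with range in `I • ⊤` (`I * A` is the image of `I • (⊤ : Submodule R A)`; `Submodule.mem_smul_top_iff` or
`Submodule.smul_induction_on`). `LinearMap.exists_monic_and_coeff_mem_pow_and_aeval_eq_zero_of_range_le_smul` gives a monic `p` with `p.coeff k ∈ I ^ (p.natDegree - k)` and `p (x) = 0` on `M`: `eval x p * a = 0` for `a ∈ A`; as `R` is a domain and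
`A ≠ ⊥`, `eval x p = 0`. So `x ^ n + ∑_{i = 1}^n a_i x ^ (n - i) = 0` with `a_i = p.coeff (n - i) ∈ I ^ i` for `i ≤ n`, `a_i = 0` for `i > n`, `n = p.natDegree` (`a_0 = 1` is fine: `I ^ 0 = ⊤`). `n > 0`: if `n = 0` then `p = 1` and `1 = 0`.
-/

open MvPolynomial

namespace MotMono
namespace NC

variable {N : ℕ}

theorem r_int (I A : Ideal (MvPolynomial (Fin N) ℂ)) (hA : A ≠ ⊥) (x : MvPolynomial (Fin N) ℂ)
    (hx : ∀ a ∈ A, x * a ∈ I * A) :
    ∃ (n : ℕ) (a : ℕ → MvPolynomial (Fin N) ℂ), 0 < n ∧ (∀ i, a i ∈ I ^ i) ∧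
      x ^ n + ∑ i ∈ Finset.Icc 1 n, a i * x ^ (n - i) = 0 := by
  have hfin : Module.Finite (MvPolynomial (Fin N) ℂ) A :=
    Module.Finite.iff_fg.2 ((isNoetherianRing_iff_ideal_fg _).1 inferInstance A)
  have hrange : LinearMap.range (algebraMap (MvPolynomial (Fin N) ℂ)
      (Module.End (MvPolynomial (Fin N) ℂ) A) x) ≤ I • (⊤ : Submodule (MvPolynomial (Fin N) ℂ) A) := by
    rintro _ ⟨y, rfl⟩
    rw [Submodule.mem_smul_top_iff]
    exact hx y.1 y.2
  obtain ⟨p, hp1, -, hp2, hp3⟩ :=
    LinearMap.exists_monic_and_natDegree_eq_and_coeff_mem_pow_and_aeval_eq_zero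
      (MvPolynomial (Fin N) ℂ) (algebraMap (MvPolynomial (Fin N) ℂ)
      (Module.End (MvPolynomial (Fin N) ℂ) A) x) I hrange
  obtain ⟨y, hy, hy0⟩ := Submodule.exists_mem_ne_zero_of_ne_bot hA
  have hev : p.eval x = 0 := by
    rw [Polynomial.aeval_algebraMap_apply] at hp3
    have h1 := LinearMap.congr_fun hp3 ⟨y, hy⟩
    have h2 : (Polynomial.aeval x p) * y = 0 := congrArg Subtype.val h1
    rw [Polynomial.coe_aeval_eq_eval] at h2
    exact (mul_eq_zero.1 h2).resolve_right hy0
  refine ⟨p.natDegree, fun i => if i ≤ p.natDegree then p.coeff (p.natDegree - i) else 0,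
    ?_, ?_, ?_⟩
  · by_contra hcon
    have h0 : p.natDegree = 0 := by omega
    rw [hp1.natDegree_eq_zero.1 h0, Polynomial.eval_one] at hev
    exact one_ne_zero hev
  · intro i
    dsimp only
    split_ifs with hi
    · have h1 := hp2 (p.natDegree - i)
      rwa [Nat.sub_sub_self hi] at h1
    · exact Ideal.zero_mem _
  · rw [Polynomial.eval_eq_sum_range, Finset.sum_range_succ, hp1.coeff_natDegree, one_mul,
      add_comm] at hev
    refine Eq.trans ?_ hev
    congr 1
    refine Finset.sum_nbij' (fun i => p.natDegree - i) (fun k => p.natDegree - k) ?_ ?_ ?_ ?_ ?_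
    · intro i hi
      rw [Finset.mem_Icc] at hi
      rw [Finset.mem_range]
      omega
    · intro k hk
      rw [Finset.mem_range] at hk
      rw [Finset.mem_Icc]
      omega
    · intro i hi
      rw [Finset.mem_Icc] at hi
      omega
    · intro k hk
      rw [Finset.mem_range] at hk
      omega
    · intro i hi
      rw [Finset.mem_Icc] at hi
      dsimp only
      rw [if_pos hi.2]

end NC
end MotMono
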