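import Mathlib

/-!
# NC-R5a: a form of the lemma of Nakayama

PROOF. In the `R`-module `R ⧸ B` let `M` be the image of `A` (`Submodule.map (Submodule.mkQ B) A` or `Ideal.map`), finitely generated (Noetherian). `A ≤ B ⊔ Q * A` gives `M ≤ Q • M`. `Submodule.exists_sub_one_mem_and_smul_eq_zero_of_fg_of_le_smul`
gives `t` with `t - 1 ∈ Q` and `t • M = 0`: for `a ∈ A` the class of `t * a` is `0`, `t * a ∈ B`.
-/

namespace MotMono
namespace NC

theorem r_nak {R : Type} [CommRing R] [IsNoetherianRing R] (A B Q : Ideal R)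
    (h : A ≤ B ⊔ Q * A) : ∃ t : R, t - 1 ∈ Q ∧ ∀ a ∈ A, t * a ∈ B := by
  have hfg : (Submodule.map (Submodule.mkQ B) A).FG :=
    Submodule.FG.map _ (IsNoetherian.noetherian A)
  have hle : Submodule.map (Submodule.mkQ B) A ≤ Q • Submodule.map (Submodule.mkQ B) A := by
    rintro x ⟨a, ha, rfl⟩
    obtain ⟨b, hb, c, hc, rfl⟩ := Submodule.mem_sup.1 (h ha)
    have h1 : Submodule.mkQ B (b + c) = Submodule.mkQ B c := by
      rw [map_add, (Submodule.Quotient.mk_eq_zero B).2 hb |> fun h => (show Submodule.mkQ B b = 0 from h), zero_add]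
    rw [h1, ← Submodule.map_smul'']
    exact Submodule.mem_map_of_mem (by simpa [smul_eq_mul] using hc)
  obtain ⟨t, ht, h0⟩ :=
    Submodule.exists_sub_one_mem_and_smul_eq_zero_of_fg_of_le_smul Q _ hfg hle
  refine ⟨t, ht, fun a ha => ?_⟩
  have h2 : t • Submodule.mkQ B a = 0 := h0 _ (Submodule.mem_map_of_mem ha)
  rw [← map_smul] at h2
  exact (Submodule.Quotient.mk_eq_zero B).1 h2

end NC
end MotMono
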