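import Pool.Agent.Lib.MP_4e5fcd_ag.NC.RDefs
import Pool.Agent.Lib.MP_4e5fcd_ag.NC.R5a

/-!
# NC-R5c: the two steps at the points of the stratum

PROOF. Let `A = mmI (Sup f) ^ k`, `B = I * mmI (Sup f) ^ (k - 1)`, `T = tI (Sup f) J k`, `P = ∏_{i ∉ J} X i`. `bI = B ⊔ (xI Jᶜ * A ⊔ T)`, so `r_nak A (B ⊔ T) (xI Jᶜ)` gives `h1` with `h1 - 1 ∈ xI Jᶜ`, `h1 * A ≤ B ⊔ T`; `eval 0 h1 = 1` (elements of `xI Jᶜ`
vanish at `0`). `T` is finitely generated (Noetherian), each generator `g` of the span satisfies `P ^ n * g ∈ xI J * A` for some `n`, so there is one `n` with `P ^ n * T ≤ xI J * A` (the set of the `g` with `P ^ n * g ∈ xI J * A` is an increasing sequence of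
ideals whose union contains `T`; or `Submodule.fg_span_iff_fg_span_finset_subset`). So `q = P ^ n * h1` satisfies `q * A ≤ B ⊔ xI J * A`. Let `p i = 0 ↔ i ∈ J`, `eval p h1 ≠ 0`: `eval p q ≠ 0`. Let `m_p = RingHom.ker (eval p)` (an ideal). `xI J ≤ m_p`.
For `a ∈ A`: `C (eval p q) * a = q * a - (q - C (eval p q)) * a ∈ B ⊔ m_p * A`; divide by the constant: `A ≤ B ⊔ m_p * A`. `r_nak A B m_p`: `t - 1 ∈ m_p`, so `eval p t = 1`, and `t * A ≤ B`.
-/

open MvPolynomial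

namespace MotMono
namespace NC

variable {N r : ℕ}

private theorem r5c_xI_le {J : Finset (Fin N)} {p : Fin N → ℂ} (hp : ∀ i ∈ J, p i = 0) :
    xI J ≤ RingHom.ker (eval p) := by
  unfold xI
  rw [Ideal.span_le]
  rintro g ⟨i, hi, rfl⟩
  rw [SetLike.mem_coe, RingHom.mem_ker, eval_X]
  exact hp i hi

private theorem r5c_one {p : Fin N → ℂ} {t : MvPolynomial (Fin N) ℂ}
    (h : t - 1 ∈ RingHom.ker (eval p)) : eval p t ≠ 0 := by
  rw [RingHom.mem_ker, map_sub, map_one, sub_eq_zero] at h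
  rw [h]
  exact one_ne_zero

private theorem r5c_pow {S : Finset (Fin N →₀ ℕ)} {J : Finset (Fin N)} {k : ℕ} :
    ∃ n : ℕ, ∀ g ∈ tI S J k, (∏ i ∈ Jᶜ, (X i : MvPolynomial (Fin N) ℂ)) ^ n * g ∈
      xI J * mmI S ^ k := by
  set P : MvPolynomial (Fin N) ℂ := ∏ i ∈ Jᶜ, X i with hP
  have hmono : ∀ (n m : ℕ) (g : MvPolynomial (Fin N) ℂ), n ≤ m → P ^ n * g ∈ xI J * mmI S ^ k →
      P ^ m * g ∈ xI J * mmI S ^ k := by
    intro n m g hnm hg
    obtain ⟨e, rfl⟩ := Nat.exists_eq_add_of_le hnm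
    have e1 : P ^ (n + e) * g = P ^ e * (P ^ n * g) := by ring
    rw [e1]
    exact Ideal.mul_mem_left _ _ hg
  have h1 : ∀ g ∈ tI S J k, ∃ n : ℕ, P ^ n * g ∈ xI J * mmI S ^ k := by
    intro g hg
    unfold tI at hg
    refine Submodule.span_induction (p := fun g _ => ∃ n : ℕ, P ^ n * g ∈ xI J * mmI S ^ k)
      ?_ ?_ ?_ ?_ hg
    · rintro x ⟨-, hx⟩
      exact hx
    · exact ⟨0, by rw [mul_zero]; exact Ideal.zero_mem _⟩
    · rintro x y - - ⟨n, hn⟩ ⟨m, hm⟩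
      refine ⟨max n m, ?_⟩
      rw [mul_add]
      exact Ideal.add_mem _ (hmono _ _ _ (le_max_left _ _) hn) (hmono _ _ _ (le_max_right _ _) hm)
    · rintro a x - ⟨n, hn⟩
      refine ⟨n, ?_⟩
      have e1 : P ^ n * (a • x) = a * (P ^ n * x) := by rw [smul_eq_mul]; ring
      rw [e1]
      exact Ideal.mul_mem_left _ _ hn
  obtain ⟨s, hs⟩ := (IsNoetherian.noetherian (tI S J k) : (tI S J k).FG)
  have h2 : ∀ g ∈ s, g ∈ tI S J k := fun g hg => by
    rw [← hs]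
    exact Submodule.subset_span hg
  have h3 : ∀ u : Finset (MvPolynomial (Fin N) ℂ), (∀ g ∈ u, g ∈ tI S J k) →
      ∃ n : ℕ, ∀ g ∈ u, P ^ n * g ∈ xI J * mmI S ^ k := by
    classical
    intro u
    induction u using Finset.induction_on with
    | empty => intro _; exact ⟨0, fun g hg => absurd hg (Finset.notMem_empty g)⟩
    | insert a u _ ih =>
      intro hu
      obtain ⟨n, hn⟩ := ih fun g hg => hu g (Finset.mem_insert_of_mem hg)
      obtain ⟨m, hm⟩ := h1 a (hu a (Finset.mem_insert_self a u))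
      refine ⟨max n m, fun g hg => ?_⟩
      rcases Finset.mem_insert.1 hg with h | h
      · subst h
        exact hmono _ _ _ (le_max_right _ _) hm
      · exact hmono _ _ _ (le_max_left _ _) (hn g h)
  obtain ⟨n, hn⟩ := h3 s h2
  refine ⟨n, fun g hg => ?_⟩
  rw [← hs] at hg
  refine Submodule.span_induction (p := fun g _ => P ^ n * g ∈ xI J * mmI S ^ k) ?_ ?_ ?_ ?_ hg
  · intro x hx
    exact hn x hx
  · show P ^ n * 0 ∈ _
    rw [mul_zero]; exact Ideal.zero_mem _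
  · intro x y _ _ hx hy
    show P ^ n * (x + y) ∈ _
    rw [mul_add]
    exact Ideal.add_mem _ hx hy
  · intro a x _ hx
    show P ^ n * (a • x) ∈ _
    have e1 : P ^ n * (a • x) = a * (P ^ n * x) := by rw [smul_eq_mul]; ring
    rw [e1]
    exact Ideal.mul_mem_left _ _ hx

theorem r_point {f : Fin r → MvPolynomial (Fin N) ℂ} {J : Finset (Fin N)} {k : ℕ}
    (h : mmI (Sup f) ^ k ≤ bI f J k) :
    ∃ h1 : MvPolynomial (Fin N) ℂ, eval 0 h1 ≠ 0 ∧ ∀ p : Fin N → ℂ, (∀ i, p i = 0 ↔ i ∈ J) →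
      eval p h1 ≠ 0 → ∃ t : MvPolynomial (Fin N) ℂ, eval p t ≠ 0 ∧
        ∀ a ∈ mmI (Sup f) ^ k, t * a ∈ Ideal.span (Set.range f) * mmI (Sup f) ^ (k - 1) := by
  set A := mmI (Sup f) ^ k with hA
  set B := Ideal.span (Set.range f) * mmI (Sup f) ^ (k - 1) with hB
  have hAB : A ≤ (B ⊔ tI (Sup f) J k) ⊔ xI Jᶜ * A := by
    refine h.trans ?_
    unfold bI
    rw [← hA, ← hB]
    refine sup_le (le_sup_left.trans le_sup_left) (sup_le le_sup_right ?_)
    exact le_sup_right.trans le_sup_left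
  obtain ⟨h1, h2, h3⟩ := r_nak A (B ⊔ tI (Sup f) J k) (xI Jᶜ) hAB
  refine ⟨h1, r5c_one (r5c_xI_le (fun i _ => rfl) h2), ?_⟩
  obtain ⟨n, hn⟩ := r5c_pow (S := Sup f) (J := J) (k := k)
  intro p hp hp1
  set P : MvPolynomial (Fin N) ℂ := ∏ i ∈ Jᶜ, X i with hP
  have hPp : eval p P ≠ 0 := by
    rw [hP, map_prod]
    refine Finset.prod_ne_zero_iff.2 fun i hi => ?_
    rw [eval_X]
    intro h0
    exact (Finset.mem_compl.1 hi) ((hp i).1 h0)
  have hle : xI J ≤ RingHom.ker (eval p) := r5c_xI_le fun i hi => (hp i).2 hi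
  have hq : ∀ a ∈ A, P ^ n * h1 * a ∈ B ⊔ xI J * A := by
    intro a ha
    obtain ⟨b, hb, t, ht, hbt⟩ := Submodule.mem_sup.1 (h3 a ha)
    have e1 : P ^ n * h1 * a = P ^ n * b + P ^ n * t := by
      rw [mul_assoc, ← hbt, mul_add]
    rw [e1]
    exact Submodule.add_mem_sup (Ideal.mul_mem_left _ _ hb) (hn t ht)
  set c : ℂ := eval p (P ^ n * h1) with hc
  have hc0 : c ≠ 0 := by
    rw [hc, map_mul, map_pow]
    exact mul_ne_zero (pow_ne_zero _ hPp) hp1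
  have hAm : A ≤ B ⊔ RingHom.ker (eval p) * A := by
    intro a ha
    have e1 : a = C c⁻¹ * (P ^ n * h1 * a - (P ^ n * h1 - C c) * a) := by
      have e2 : (C c⁻¹ : MvPolynomial (Fin N) ℂ) * C c = 1 := by
        rw [← C_mul, inv_mul_cancel₀ hc0, C_1]
      linear_combination -a * e2
    rw [e1]
    refine Ideal.mul_mem_left _ _ (Ideal.sub_mem _ ?_ ?_)
    · exact (sup_le_sup_left (Ideal.mul_mono_left hle) B) (hq a ha)
    · refine Ideal.mem_sup_right (Ideal.mul_mem_mul ?_ ha)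
      rw [RingHom.mem_ker, map_sub, eval_C, ← hc, sub_self]
  obtain ⟨t, ht1, ht2⟩ := r_nak A B (RingHom.ker (eval p)) hAm
  exact ⟨t, r5c_one ht1, ht2⟩

end NC
end MotMono
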