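import Pool.Agent.Lib.MP_4e5fcd_ag.NC.R3
import Pool.Agent.Lib.MP_4e5fcd_ag.NC.R4
import Pool.Agent.Lib.MP_4e5fcd_ag.NC.R5b
import Pool.Agent.Lib.MP_4e5fcd_ag.NC.R5c

/-!
# NC-RClo: near the points of a stratum the integral closure is monomial
-/

open MvPolynomial

namespace MotMono
namespace NC

variable {N r : ℕ}

theorem r_closure {f : Fin r → MvPolynomial (Fin N) ℂ} (hr : r + 1 = N) (hf : Nondeg f)
    (h0 : (0 : Fin N →₀ ℕ) ∉ Sup f) (J : Finset (Fin N)) (hJ : J.Nonempty)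
    (hJ' : J ≠ Finset.univ) :
    ∃ h1 : MvPolynomial (Fin N) ℂ, eval 0 h1 ≠ 0 ∧ ∀ p : Fin N → ℂ, (∀ i, p i = 0 ↔ i ∈ J) →
      eval p h1 ≠ 0 → ∃ h : MvPolynomial (Fin N) ℂ, eval p h ≠ 0 ∧
        ∀ g ∈ mmI (Sup f), IntOver (Ideal.span (Set.range f)) (h * g) := by
  obtain ⟨k, hk, hk1⟩ := r_null hr hf h0 hJ hJ'
  obtain ⟨h1, hh1, hp⟩ := r_point (r_cert hk hk1)
  refine ⟨h1, hh1, fun p hpJ hph => ?_⟩
  obtain ⟨t, ht, hta⟩ := hp p hpJ hph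
  refine ⟨t, ht, fun g hg => ?_⟩
  by_cases hm : mmI (Sup f) = ⊥
  · rw [hm, Ideal.mem_bot] at hg
    rw [hg, mul_zero]
    exact r_int _ ⊤ (by simp) 0 fun a _ => by
      rw [zero_mul]
      exact Submodule.zero_mem _
  · refine r_int _ (mmI (Sup f) ^ (k - 1)) (pow_ne_zero _ hm) _ fun a ha => ?_
    rw [mul_assoc]
    refine hta _ ?_
    have h2 : mmI (Sup f) ^ k = mmI (Sup f) * mmI (Sup f) ^ (k - 1) := by
      obtain ⟨l, rfl⟩ : ∃ l, k = l + 1 := ⟨k - 1, by omega⟩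
      rw [Nat.add_sub_cancel, pow_succ']
    rw [h2]
    exact Ideal.mul_mem_mul hg ha

theorem f_mem_mmI (f : Fin r → MvPolynomial (Fin N) ℂ) :
    ∀ g ∈ Ideal.span (Set.range f), g ∈ mmI (Sup f) := by
  intro g hg
  refine (Ideal.span_le.2 ?_) hg
  rintro _ ⟨j, rfl⟩
  rw [SetLike.mem_coe, (f j).as_sum]
  refine Ideal.sum_mem _ fun m hm => ?_
  have h1 : monomial m (coeff m (f j)) = C (coeff m (f j)) * monomial m 1 := by
    rw [C_mul_monomial, mul_one]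
  rw [h1]
  refine Ideal.mul_mem_left _ _ (Ideal.subset_span ⟨m, ?_, rfl⟩)
  unfold Sup
  exact Finset.mem_biUnion.2 ⟨j, Finset.mem_univ j, hm⟩

end NC
end MotMono
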