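import Pool.Agent.Lib.MP_4e5fcd_ag.NC.Fa
import Pool.Agent.Lib.MP_4e5fcd_ag.NC.RClo
import Pool.Agent.Lib.MP_4e5fcd_ag.NC.R7
import Pool.Agent.Lib.MP_4e5fcd_ag.HY.R1

/-!
# NC-RMain: noncompact facets give zeros or poles

Let `J` be the set of the `i` with `w i > 0`. By `r_closure` (NC-RClo) the integral closure of the ideal at
the points `p` near the origin with `p i = 0` iff `i ∈ J` is the monomial ideal. `per_lin` (HY-R1) gives
the periods for the monomial ideal, `vis_mon` (NC-R7) the zero or pole `lam` for it, and `vis_red` (NW-B5)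
for the ideal of the `f j`.
-/

open MvPolynomial

namespace MotMono
namespace NC

open WH CN HY

variable {N r : ℕ}

private theorem rm_one : IsProdLin (1 : MvPolynomial (Fin N) ℂ) :=
  ⟨1, 0, fun _ _ => 0, by simp, by simp⟩

private theorem rm_X_mul (i : Fin N) (f : MvPolynomial (Fin N) ℂ) (hf : IsProdLin f) :
    IsProdLin (X i * f) := by
  classical
  obtain ⟨u, n, a, hu, rfl⟩ := hf
  refine ⟨u, n + 1, Fin.cons (fun i' => if i' = i then 1 else 0) a, hu, ?_⟩
  rw [Fin.prod_univ_succ]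
  have h1 : ∑ i', C ((Fin.cons (fun i' => if i' = i then (1 : ℂ) else 0) a :
      Fin (n + 1) → Fin N → ℂ) 0 i') * X i' = (X i : MvPolynomial (Fin N) ℂ) := by
    rw [Finset.sum_eq_single i]
    · simp
    · intro b _ hb
      simp [hb]
    · intro h
      exact absurd (Finset.mem_univ i) h
  rw [h1]
  simp only [Fin.cons_succ]
  ring

private theorem rm_isProdLin (e : Fin N →₀ ℕ) : IsProdLin (monomial e (1 : ℂ)) := by
  classical
  induction e using Finsupp.induction_linear with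
  | zero => exact rm_one
  | add f g hf hg =>
    have h1 : (monomial (f + g) (1 : ℂ)) = monomial f 1 * monomial g 1 := by
      rw [monomial_mul, one_mul]
    rw [h1]
    obtain ⟨u, n, a, hu, hf⟩ := hf
    obtain ⟨v, n', b, hv, hg⟩ := hg
    refine ⟨u * v, n + n', Fin.append a b, ?_, ?_⟩
    · rw [map_mul]
      exact mul_ne_zero hu hv
    · rw [hf, hg, Fin.prod_univ_add]
      simp only [Fin.append_left, Fin.append_right]
      ring
  | single i k =>
    induction k with
    | zero =>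
      rw [Finsupp.single_zero]
      exact rm_one
    | succ k ih =>
      have h1 : (monomial (Finsupp.single i (k + 1)) (1 : ℂ)) =
          X i * monomial (Finsupp.single i k) 1 := by
        rw [X, monomial_mul, one_mul, ← Finsupp.single_add, add_comm]
      rw [h1]
      exact rm_X_mul i _ ih

private theorem rm_eval (e : Fin N →₀ ℕ) (h : e ≠ 0) :
    eval 0 (monomial e (1 : ℂ)) = 0 := by
  rw [eval_monomial, one_mul]
  obtain ⟨i, hi⟩ := Finsupp.ne_iff.1 h
  rw [Finsupp.prod]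
  refine Finset.prod_eq_zero (i := i) (Finsupp.mem_support_iff.2 hi) ?_
  simpa using hi

private theorem rm_ball (h : MvPolynomial (Fin N) ℂ) (h0 : eval 0 h ≠ 0) :
    ∃ δ : ℝ, 0 < δ ∧ ∀ p : Fin N → ℂ, ‖p‖ < δ → eval p h ≠ 0 := by
  have hc : Continuous fun p : Fin N → ℂ => eval p h := MvPolynomial.continuous_eval h
  have hO : IsOpen {p : Fin N → ℂ | eval p h ≠ 0} := isOpen_ne_fun hc continuous_const
  obtain ⟨δ, hδ, hb⟩ := Metric.isOpen_iff.1 hO 0 h0
  refine ⟨δ, hδ, fun p hp => hb ?_⟩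
  rw [Metric.mem_ball, dist_zero_right]
  exact hp

theorem near_of_noncompact {χ : K0 →+* ℤ} (hχ : IsEulerCharF χ)
    {f : Fin r → MvPolynomial (Fin N) ℂ} (hr : r + 1 = N) (hf : Nondeg f)
    {w : Fin N → ℕ} {e : ℕ} (hF : Fac (Sup f) w e) (hk : ∃ k, w k = 0) {lam : ℂ}
    (hl : lam ^ e = 1) : CN.Near χ (Ideal.span (Set.range f)) 0 lam := by
  classical
  intro ε hε
  have h0 : (0 : Fin N →₀ ℕ) ∉ Sup f := by
    intro h
    have h1 := hF.ge 0 h
    have h2 : wd w (0 : Fin N →₀ ℕ) = 0 := by simp [wd]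
    have h3 := hF.pos
    omega
  -- the exponents
  obtain ⟨s, m, hm⟩ : ∃ (s : ℕ) (m : Fin s → (Fin N →₀ ℕ)), ∀ v, v ∈ Sup f ↔ ∃ l, m l = v := by
    refine ⟨(Sup f).card, fun l => ((Sup f).equivFin.symm l).1, fun v => ⟨fun hv => ?_, ?_⟩⟩
    · exact ⟨(Sup f).equivFin ⟨v, hv⟩, by simp⟩
    · rintro ⟨l, rfl⟩
      exact ((Sup f).equivFin.symm l).2
  have hspan : Ideal.span (Set.range (NW.mon m)) = mmI (Sup f) := by
    unfold mmI
    congr 1
    ext g
    constructor
    · rintro ⟨l, rfl⟩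
      exact ⟨m l, (hm _).2 ⟨l, rfl⟩, rfl⟩
    · rintro ⟨v, hv, rfl⟩
      obtain ⟨l, rfl⟩ := (hm v).1 hv
      exact ⟨l, rfl⟩
  have hFF : FacF m w e := by
    refine ⟨hF.pos, fun l => hF.ge _ ((hm _).2 ⟨l, rfl⟩), hF.prim, fun y t h1 h2 => ?_⟩
    refine hF.ext y t h1 fun v hv hv2 => ?_
    obtain ⟨l, rfl⟩ := (hm v).1 hv
    exact h2 l hv2
  -- the strata
  set J : Finset (Fin N) := Finset.univ.filter fun i => 0 < w i with hJdef
  have hJ : J.Nonempty := by
    by_contra h
    rw [Finset.not_nonempty_iff_eq_empty, hJdef, Finset.filter_eq_empty_iff] at h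
    have h1 : Finset.univ.gcd w = 0 := Finset.gcd_eq_zero_iff.2 fun i hi => by
      have h2 := h hi
      omega
    rw [hF.prim] at h1
    exact one_ne_zero h1
  have hJ' : J ≠ Finset.univ := by
    obtain ⟨k, hk⟩ := hk
    intro h
    have h1 : k ∈ J := by rw [h]; exact Finset.mem_univ k
    rw [hJdef, Finset.mem_filter] at h1
    omega
  obtain ⟨h1, h10, hcl⟩ := r_closure hr hf h0 J hJ hJ'
  -- some exponent
  have hne : ∃ l : Fin s, True := by
    by_contra h
    push Not at h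
    obtain ⟨c, hc, hc0⟩ := hF.ext (fun _ => 0) 1 (fun _ _ => rfl) fun v hv _ => by
      obtain ⟨l, -⟩ := (hm v).1 hv
      exact (h l).elim
    obtain ⟨i, hi⟩ := hJ
    have h4 := hc i
    rw [hJdef, Finset.mem_filter] at hi
    have h5 : (w i : ℚ) ≠ 0 := by
      have := hi.2
      exact_mod_cast this.ne'
    have h6 : c = 0 := by
      rcases mul_eq_zero.1 h4.symm with h7 | h7
      · exact h7
      · exact absurd h7 h5
    rw [h6, zero_mul] at hc0
    exact one_ne_zero hc0
  obtain ⟨l₀, -⟩ := hne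
  obtain ⟨h', h0', hq⟩ := per_lin hχ (Set.range (NW.mon m))
    (by
      rintro g ⟨l, rfl⟩
      exact rm_isProdLin _)
    ⟨_, ⟨l₀, rfl⟩, by
      unfold NW.mon
      rw [Ne, monomial_eq_zero]
      exact one_ne_zero⟩
    (by
      rintro g ⟨l, rfl⟩
      refine rm_eval _ fun h => h0 ?_
      rw [← h]
      exact (hm _).2 ⟨l, rfl⟩)
  have h3 : eval 0 (h1 * h') ≠ 0 := by
    rw [map_mul]
    exact mul_ne_zero h10 h0'
  obtain ⟨δ, hδ, hb⟩ := rm_ball _ h3
  -- the point
  set t : ℝ := min δ ε / 2 with ht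
  have htpos : 0 < t := by
    rw [ht]
    exact half_pos (lt_min hδ hε)
  set p : Fin N → ℂ := fun i => if 0 < w i then 0 else (t : ℂ) with hp
  have hp0 : ∀ i, p i = 0 ↔ 0 < w i := by
    intro i
    show (if 0 < w i then (0 : ℂ) else (t : ℂ)) = 0 ↔ 0 < w i
    by_cases h : 0 < w i
    · rw [if_pos h]
      exact ⟨fun _ => h, fun _ => rfl⟩
    · rw [if_neg h]
      constructor
      · intro h4
        exact absurd (by exact_mod_cast h4 : t = 0) htpos.ne'
      · intro h4
        exact absurd h4 h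
  have hpn : ‖p‖ < min δ ε := by
    have h4 : ‖p‖ ≤ t := by
      refine (pi_norm_le_iff_of_nonneg htpos.le).2 fun i => ?_
      show ‖(if 0 < w i then (0 : ℂ) else (t : ℂ))‖ ≤ t
      by_cases h : 0 < w i
      · rw [if_pos h, norm_zero]
        exact htpos.le
      · rw [if_neg h, Complex.norm_real, Real.norm_of_nonneg htpos.le]
    have h5 : t < min δ ε := half_lt_self (lt_min hδ hε)
    exact lt_of_le_of_lt h4 h5
  have h4 := hb p (hpn.trans_le (min_le_left _ _))
  rw [map_mul] at h4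
  obtain ⟨h, hh, hint⟩ := hcl p (fun i => by
    rw [hp0 i, hJdef, Finset.mem_filter]
    exact ⟨fun h => ⟨Finset.mem_univ _, h⟩, fun h => h.2⟩) (left_ne_zero_of_mul h4)
  refine ⟨p, ?_, ?_⟩
  · rw [sub_zero]
    exact hpn.trans_le (min_le_right _ _)
  · refine NW.vis_red hχ _ m h ⟨fun g hg => ?_, fun l => ?_⟩ p hh
      (hq p (right_ne_zero_of_mul h4)) (vis_mon hχ m p (hq p (right_ne_zero_of_mul h4)) hFF hp0 hl)
    · rw [hspan]
      exact Ideal.mul_mem_left _ _ (f_mem_mmI f g hg)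
    · exact hint _ (Ideal.subset_span ⟨m l, (hm _).2 ⟨l, rfl⟩, rfl⟩)

end NC
end MotMono
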