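import Pool.Agent.Lib.MP_4e5fcd_ag.NC.KMain
import Pool.Agent.Lib.MP_4e5fcd_ag.NC.RMain
import Pool.Agent.Lib.MP_4e5fcd_ag.NC.PMain
import Pool.Agent.Lib.MP_4e5fcd_ag.NC.MMain
import Pool.Agent.Lib.MP_4e5fcd_ag.NC.FMain
import Pool.Agent.Lib.MP_4e5fcd_ag.NC.O1
import Pool.Agent.Lib.MP_4e5fcd_ag.CN.Sp

/-! # NC-Main: the motivic monodromy conjecture for nondegenerate curves -/

open MvPolynomial

namespace MotMono
namespace NC

open WH

variable {N r : ℕ}

theorem expo_int (z : ℤ) : CN.expo (z : ℚ) = 1 := by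
  rw [CN.expo]
  have e1 : 2 * Real.pi * Complex.I * (((z : ℚ)) : ℂ) = (z : ℂ) * (2 * Real.pi * Complex.I) := by
    push_cast
    ring
  rw [e1, Complex.exp_int_mul_two_pi_mul_I]

/-- `exp (2 π i s₀) ^ a = 1` if and only if the denominator of `s₀` divides `a` -/
theorem expo_pow (s₀ : ℚ) (a : ℕ) : CN.expo s₀ ^ a = 1 ↔ s₀.den ∣ a := by
  rw [CN.expo, ← Complex.exp_nat_mul, Complex.exp_eq_one_iff]
  have hpi : (2 * Real.pi * Complex.I : ℂ) ≠ 0 := by
    simp [Real.pi_ne_zero]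
  constructor
  · rintro ⟨n, hn⟩
    have h1 : (2 * Real.pi * Complex.I : ℂ) * ((a : ℂ) * (s₀ : ℂ)) =
        (2 * Real.pi * Complex.I : ℂ) * (n : ℂ) := by
      rw [← sub_eq_zero] at hn ⊢
      rw [← hn]
      ring
    have h2 : ((a : ℂ) * (s₀ : ℂ)) = (n : ℂ) := mul_left_cancel₀ hpi h1
    have h3 : (a : ℚ) * s₀ = (n : ℚ) := by exact_mod_cast h2
    have h4 : (a : ℚ) * s₀.num = n * s₀.den := by
      have h5 : s₀ * s₀.den = s₀.num := Rat.mul_den_eq_num s₀
      rw [← h5, ← mul_assoc, h3]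
    have h5 : (a : ℤ) * s₀.num = n * s₀.den := by exact_mod_cast h4
    have h6 : (s₀.den : ℤ) ∣ (a : ℤ) * s₀.num := ⟨n, by rw [h5]; ring⟩
    have h7 : IsCoprime (s₀.den : ℤ) s₀.num := by
      rw [Int.isCoprime_iff_gcd_eq_one, Int.gcd_comm]
      exact s₀.reduced
    exact_mod_cast h7.dvd_of_dvd_mul_right h6
  · rintro ⟨b, rfl⟩
    refine ⟨b * s₀.num, ?_⟩
    have h5 : (s₀ : ℂ) * (s₀.den : ℂ) = (s₀.num : ℂ) := by
      exact_mod_cast congrArg (fun q : ℚ => (q : ℂ)) (Rat.mul_den_eq_num s₀)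
    push_cast
    rw [← h5]
    ring

theorem near_main {χ : K0 →+* ℤ} (hχ : IsEulerCharF χ) {f : Fin r → MvPolynomial (Fin N) ℂ}
    (hr : r + 1 = N) (hr0 : 0 < r) (h0 : ∀ j, eval 0 (f j) = 0) (hf : Nondeg f) (s₀ : ℚ)
    (hp : IsPole (Zmot (Ideal.span (Set.range f))) s₀) :
    CN.Near χ (Ideal.span (Set.range f)) 0 (CN.expo s₀) := by
  classical
  have h0S : (0 : Fin N →₀ ℕ) ∉ Sup f := by
    intro h
    obtain ⟨j, _, hj⟩ := Finset.mem_biUnion.1 h
    rw [mem_support_iff] at hj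
    apply hj
    have h1 := h0 j
    rw [← constantCoeff_eq, ← eval_zero]
    exact h1
  choose ub hub using exists_bezout (N := N)
  have hub' : ∀ w e, Fac (Sup f) w e → ∑ i, ub w Finset.univ i * (w i : ℤ) = 1 := by
    intro w e hF
    rw [hub w Finset.univ, hF.prim]
    rfl
  have hV : ∀ w e, Fac (Sup f) w e → (∀ i, 0 < w i) → (VT f w e).Nonempty := by
    intro w e hF hw
    obtain ⟨D, hD1, hD2⟩ := exists_basis hF hw
    obtain ⟨hfin, h1⟩ := kush hr hf hF hw _ (hub' w e hF)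
    have h2 := (h1 D hD1 hD2 {0} (by
      intro ρ hρ
      rw [Finset.mem_singleton] at hρ
      subst hρ
      refine ⟨by simp [wd], 0, fun l => le_refl _, fun i => ?_⟩
      simp) (by
      intro ρ hρ ρ' hρ' hne
      rw [Finset.mem_singleton] at hρ hρ'
      exact absurd (hρ.trans hρ'.symm) hne)).1
    rw [Finset.card_singleton] at h2
    obtain ⟨z, hz⟩ := Set.nonempty_of_ncard_ne_zero (s := VU f w e (ub w Finset.univ)) (by omega)
    exact ⟨z, hz.1⟩
  by_cases hz : ∀ z : ℤ, s₀ ≠ z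
  · by_contra hn
    obtain ⟨w, e, hF, hs, hB⟩ := exists_fac_of_pole hr hf h0S hV s₀ hp hz
    have hden : ((∑ i, (w i : ℚ)) / e).den = s₀.den := by
      rw [hs, Rat.neg_den]
    have hm : 2 ≤ s₀.den := by
      have h1 := s₀.pos
      have h2 : s₀.den ≠ 1 := fun h => hz s₀.num (Rat.den_eq_one_iff s₀ |>.1 h).symm
      omega
    have hfin := finite_fac (Sup f)
    set P : Finset ((Fin N → ℕ) × ℕ) :=
      hfin.toFinset.filter fun p => (∀ i, 0 < p.1 i) ∧ s₀.den ∣ p.2 with hPdef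
    have hP : ∀ p, p ∈ P ↔ Fac (Sup f) p.1 p.2 ∧ (∀ i, 0 < p.1 i) ∧ s₀.den ∣ p.2 := by
      intro p
      rw [hPdef, Finset.mem_filter, Set.Finite.mem_toFinset]
      rfl
    set A : Finset (Fin N) := Finset.univ.filter fun i => ∃ a, IsAx (Sup f) i a ∧ s₀.den ∣ a with hAdef
    have hA : ∀ i, i ∈ A ↔ ∃ a, IsAx (Sup f) i a ∧ s₀.den ∣ a := by
      intro i
      rw [hAdef, Finset.mem_filter]
      simp
    have hE := euler_sum hχ hr hf hr0 h0S (CN.expo s₀) hn P
      (fun p => by rw [hP p, expo_pow]) (fun p => ub p.1 Finset.univ)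
      (fun p hp => hub' _ _ ((hP p).1 hp).1) A (fun i => by
        rw [hA i]
        refine exists_congr fun a => ?_
        rw [expo_pow])
    have hE' : A.card = ∑ p ∈ P, (VU f p.1 p.2 (ub p.1 Finset.univ)).ncard := by
      have h1 : ∀ p ∈ P, χ (cls (VU f p.1 p.2 (ub p.1 Finset.univ))) =
          ((VU f p.1 p.2 (ub p.1 Finset.univ)).ncard : ℤ) := by
        intro p hp'
        have h2 := (hP p).1 hp'
        exact CN.chi_finite χ (kush hr hf h2.1 h2.2.1 _ (hub' _ _ h2.1)).1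
      rw [Finset.sum_congr rfl h1] at hE
      exact_mod_cast hE
    obtain ⟨i, hi⟩ := comb (by omega) (Sup f) h0S s₀.den hm P hP
      (fun w e hF' hd i => by
        by_contra hw
        exact hn (near_of_noncompact hχ hr hf hF' ⟨i, by omega⟩ ((expo_pow s₀ e).2 hd)))
      (fun p => (VU f p.1 p.2 (ub p.1 Finset.univ)).ncard)
      (fun p hp' => by
        have h2 := (hP p).1 hp'
        exact (kush hr hf h2.1 h2.2.1 _ (hub' _ _ h2.1)).2) A hA hE' w e hF hden
    exact hB i hi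
  · push Not at hz
    obtain ⟨z, rfl⟩ := hz
    rw [expo_int]
    have hS : (Sup f).Nonempty := by
      by_contra hS
      rw [Finset.not_nonempty_iff_eq_empty] at hS
      have hf0 : ∀ j, f j = 0 := by
        intro j
        rw [← support_eq_empty, ← Finset.subset_empty, ← hS]
        exact Finset.subset_biUnion_of_mem (fun j => (f j).support) (Finset.mem_univ j)
      apply hp
      have h1 : Zmot (Ideal.span (Set.range f)) = 0 := by
        have h2 : Ideal.span (Set.range f) = ⊥ := by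
          rw [Ideal.span_eq_bot]
          rintro _ ⟨j, rfl⟩
          exact hf0 j
        rw [h2]
        ext k
        rw [Zmot, PowerSeries.coeff_mk, map_zero]
        have h3 : ordLocus (⊥ : Ideal (MvPolynomial (Fin N) ℂ)) k = ∅ := by
          rw [Set.eq_empty_iff_forall_notMem]
          rintro γ ⟨_, _, g, hg, hg'⟩
          rw [Ideal.mem_bot] at hg
          rw [hg] at hg'
          apply hg'
          unfold along
          rw [map_zero, Polynomial.coeff_zero]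
        rw [h3, cls_empty, map_zero, zero_mul]
      rw [h1]
      exact Subring.zero_mem _
    obtain ⟨w, e, hF⟩ := exists_fac (Sup f) hS h0S
    by_cases hw : ∀ i, 0 < w i
    · obtain ⟨x, hx⟩ := hV w e hF hw
      exact near_one_torus hχ hr0 hf hF hw hx
    · push Not at hw
      obtain ⟨k, hk⟩ := hw
      exact near_of_noncompact hχ hr hf hF ⟨k, by omega⟩ (one_pow e)

theorem main {χ : K0 →+* ℤ} (hχ : IsEulerCharF χ) {f : Fin r → MvPolynomial (Fin N) ℂ}
    (hr : r + 1 = N) (hr0 : 0 < r) (h0 : ∀ j, eval 0 (f j) = 0) (hf : Nondeg f) (s₀ : ℚ)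
    (hpole : IsPole (Zmot (Ideal.span (Set.range f))) s₀) (ε : ℝ) (hε : 0 < ε) :
    ∃ p : Fin N → ℂ, ‖p‖ < ε ∧ (∀ g ∈ Ideal.span (Set.range f), eval p g = 0) ∧
      ∃ y : ConePoint (Ideal.span (Set.range f)) p, y.Nonzero ∧
        ∃ Z, IsZeta (fun m => χ (cls (contactArcs (Ideal.span (Set.range f)) p y m))) Z ∧
          ZeroOrPole Z (Complex.exp (2 * Real.pi * Complex.I * s₀)) := by
  obtain ⟨p, hp', hv⟩ := near_main hχ hr hr0 h0 hf s₀ hpole ε hε
  rw [sub_zero] at hp'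
  obtain ⟨h1, y, hy, Z, hZ, hZP⟩ := CN.cone_of_vis hv
  exact ⟨p, hp', h1, y, hy, Z, hZ, hZP⟩

end NC
end MotMono
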