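import Pool.Agent.Lib.MP_4e5fcd_ag.NC.PDefs

/-!
# NC-P1: monomials along a jet

`monomial_along`: `along (monomial m 1) γ = ∏ i, arc γ i ^ m i`. The coefficients of `arc γ i` of index
`< od γ i` vanish and the coefficient `od γ i` is `γ (i, od γ i) ≠ 0` if `od γ i < n + 1` (`od_zero`, `od_ne`);
`arc γ i = 0` if `od γ i = n + 1`. So (case 1) if `od γ i < n + 1` for all `i` with `m i ≠ 0`, then
the product has order exactly `∑ m i * od γ i = wd (od γ) m` (a polynomial with lowest coefficient: `X ^ o ∣ P`,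
`P.coeff o ≠ 0`; e.g. write `arc γ i = X ^ od γ i * u i` with `(u i).coeff 0 ≠ 0`; the product of the `u i ^ m i`
has coefficient `0` equal to `∏ (u i).coeff 0 ^ m i ≠ 0`). (case 2) if `m i ≠ 0` and `od γ i = n + 1` for some `i`, then the product
is `0` and `wd (od γ) m ≥ m i * (n + 1) ≥ n + 1 ≥ K` (`mul_le_wd`), so both sides are true.
(Compare `Mon/G2.lean`, `PP_order_iff`.)

`OS_AS`: `f j = ∑ m ∈ support, C (coeff m) * monomial m 1` and `along` is additive (`aeval`): all coefficients `l < K` of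
`along (f j) γ` vanish by `monomial_along`. `γ (i, 0) = 0` from `1 ≤ od γ i` (`od_zero`).

`AS_mons`: by `monomial_along`; `mons S j` runs over the monomials with exponents in `S`
(`S.equivFin` is a bijection); `γ (i, 0) = 0 ↔ 1 ≤ od γ i` (`le_od_iff` with `o = 1`).
-/

open MvPolynomial

namespace MotMono
namespace NC

open WH

namespace Po

variable {N r : ℕ}

private theorem arc_coeff {n : ℕ} (γ : Fin N × Fin n → ℂ) (l : Fin N) (e : ℕ) :
    (arc γ l).coeff e = if h : e < n then γ (l, ⟨e, h⟩) else 0 := by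
  unfold arc
  rw [Polynomial.finsetSum_coeff]
  simp only [Polynomial.coeff_C_mul, Polynomial.coeff_X_pow, mul_ite, mul_one, mul_zero]
  split_ifs with h
  · rw [Finset.sum_eq_single ⟨e, h⟩]
    · simp
    · intro j _ hj
      rw [if_neg]
      intro he
      exact hj (Fin.ext he.symm)
    · intro hj
      exact absurd (Finset.mem_univ _) hj
  · refine Finset.sum_eq_zero fun j _ => ?_
    rw [if_neg]
    intro he
    exact h (he ▸ j.2)

private theorem arc_fac {n : ℕ} (γ : Fin N × Fin (n + 1) → ℂ) (i : Fin N) :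
    ∃ R : Polynomial ℂ, arc γ i = Polynomial.X ^ od γ i * R ∧
      (od γ i < n + 1 → R.coeff 0 ≠ 0) := by
  have h1 : ∀ e < od γ i, (arc γ i).coeff e = 0 := by
    intro e he
    rw [arc_coeff]
    split_ifs with h
    · exact od_zero he
    · rfl
  obtain ⟨R, hR⟩ := Polynomial.X_pow_dvd_iff.2 h1
  refine ⟨R, hR, fun h => ?_⟩
  have h2 : (arc γ i).coeff (od γ i) = γ (i, ⟨od γ i, h⟩) := by
    rw [arc_coeff, dif_pos h]
  rw [hR, Polynomial.coeff_X_pow_mul', if_pos le_rfl, Nat.sub_self] at h2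
  rw [h2]
  exact od_ne h

private theorem along_mon {n : ℕ} (γ : Fin N × Fin n → ℂ) (m : Fin N →₀ ℕ) (c : ℂ) :
    along (monomial m c) γ = Polynomial.C c * ∏ i, arc γ i ^ m i := by
  unfold along
  rw [aeval_monomial, Finsupp.prod_fintype _ _ (fun i => pow_zero _)]
  rfl

theorem monomial_along {n : ℕ} (γ : Fin N × Fin (n + 1) → ℂ) (m : Fin N →₀ ℕ) {K : ℕ}
    (hK : K ≤ n + 1) :
    (∀ l < K, (along (monomial m 1) γ).coeff l = 0) ↔ K ≤ wd (od γ) m := by
  rw [along_mon, Polynomial.C_1, one_mul]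
  by_cases hc : ∃ i, m i ≠ 0 ∧ ¬ od γ i < n + 1
  · obtain ⟨i, hi, ho⟩ := hc
    have ho' : od γ i = n + 1 := le_antisymm (od_le γ i) (not_lt.1 ho)
    have h0 : arc γ i = 0 := by
      ext e
      rw [arc_coeff, Polynomial.coeff_zero]
      split_ifs with h
      · exact od_zero (by rw [ho']; exact h)
      · rfl
    have h1 : ∏ i, arc γ i ^ m i = 0 :=
      Finset.prod_eq_zero (Finset.mem_univ i) (by rw [h0, zero_pow hi])
    rw [h1]
    refine ⟨fun _ => ?_, fun _ l _ => Polynomial.coeff_zero l⟩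
    calc K ≤ n + 1 := hK
      _ = 1 * (n + 1) := (one_mul _).symm
      _ ≤ m i * od γ i := by
        rw [ho']
        exact Nat.mul_le_mul_right _ (Nat.one_le_iff_ne_zero.2 hi)
      _ ≤ wd (od γ) m := mul_le_wd _ _ i
  · push Not at hc
    choose R hR hR0 using arc_fac γ
    have h1 : ∏ i, arc γ i ^ m i = Polynomial.X ^ wd (od γ) m * ∏ i, R i ^ m i := by
      unfold wd
      rw [← Finset.prod_pow_eq_pow_sum, ← Finset.prod_mul_distrib]
      refine Finset.prod_congr rfl fun i _ => ?_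
      conv_lhs => rw [hR i]
      rw [mul_pow, ← pow_mul, mul_comm (od γ i)]
    have h2 : (∏ i, R i ^ m i).coeff 0 ≠ 0 := by
      rw [Polynomial.coeff_zero_eq_eval_zero, Polynomial.eval_prod, Finset.prod_ne_zero_iff]
      intro i _
      rw [Polynomial.eval_pow, ← Polynomial.coeff_zero_eq_eval_zero]
      by_cases hi : m i = 0
      · rw [hi, pow_zero]
        exact one_ne_zero
      · exact pow_ne_zero _ (hR0 i (hc i hi))
    rw [h1]
    constructor
    · intro h
      by_contra hlt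
      have h3 := h (wd (od γ) m) (not_le.1 hlt)
      rw [Polynomial.coeff_X_pow_mul', if_pos le_rfl, Nat.sub_self] at h3
      exact h2 h3
    · intro h l hl
      rw [Polynomial.coeff_X_pow_mul', if_neg (by omega)]

theorem OS_AS {f : Fin r → MvPolynomial (Fin N) ℂ} {n K : ℕ} (hK : K ≤ n + 1)
    {γ : Fin N × Fin (n + 1) → ℂ} (h : γ ∈ OS (Sup f) n K) : γ ∈ AS f n K := by
  refine ⟨fun i => od_zero (l := 0) (lt_of_lt_of_le Nat.zero_lt_one (h.1 i)), fun j l hl => ?_⟩
  have h1 : along (f j) γ = ∑ m ∈ (f j).support, along (monomial m (coeff m (f j))) γ := by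
    unfold along
    rw [← map_sum, ← as_sum]
  rw [h1, Polynomial.finsetSum_coeff]
  refine Finset.sum_eq_zero fun m hm => ?_
  have hm' : m ∈ Sup f := Finset.mem_biUnion.2 ⟨j, Finset.mem_univ j, hm⟩
  have h2 := (monomial_along γ m hK).2 (h.2 m hm') l hl
  rw [along_mon, Polynomial.C_1, one_mul] at h2
  rw [along_mon, Polynomial.coeff_C_mul, h2, mul_zero]

theorem AS_mons (S : Finset (Fin N →₀ ℕ)) {n K : ℕ} (hK : K ≤ n + 1) :
    AS (mons S) n K = OS S n K := by
  ext γ
  constructor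
  · rintro ⟨h1, h2⟩
    refine ⟨fun i => (le_od_iff γ i (by omega)).2 fun l hl => ?_, fun m hm => ?_⟩
    · have : l = 0 := Fin.ext (by simpa using hl)
      rw [this]
      exact h1 i
    · have h3 := h2 (S.equivFin ⟨m, hm⟩)
      unfold mons at h3
      rw [Equiv.symm_apply_apply] at h3
      exact (monomial_along γ m hK).1 h3
  · rintro ⟨h1, h2⟩
    refine ⟨fun i => od_zero (l := 0) (lt_of_lt_of_le Nat.zero_lt_one (h1 i)), fun j => ?_⟩
    exact (monomial_along γ _ hK).2 (h2 _ (S.equivFin.symm j).2)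

theorem constr_OS (S : Finset (Fin N →₀ ℕ)) {n K : ℕ} (hK : K ≤ n + 1) : Constr (OS S n K) := by
  rw [← AS_mons S hK]
  exact constr_AS (mons S) n K

end Po
end NC
end MotMono
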