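import Pool.Agent.Lib.MP_4e5fcd_ag.NC.PDefs

/-!
# NC-P2: initial coefficients along a jet, scaling of weights

`coeff_lead`: `g = ∑ e' ∈ range (E + 1), weightedHomogeneousComponent w e' g` for a large `E`, where the parts with `e' < e` are
`0` by `hg` (`weight w m = wd w m`: `Finsupp.weight_apply`, `Finsupp.sum_fintype`, as in `not_dvd_lead`, WH/B1). `along` is additive.
For `e' > e`: `h * e < h * e'` (`h ≥ 1`), so the coefficients `l ≤ h * e` of `along (part e') γ` vanish (`low_coeff`, WH/B1, with
`M = 1`). For `e' = e`: `low_coeff` for `l < h * e` and `eq_coeff` (WH/B1) for `l = h * e`.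
(If you prefer: `MvPolynomial.induction_on'''`-like arguments or linearity in the monomials of `g`:
both sides are additive over `g = ∑ m ∈ g.support, monomial m (coeff m g)`.)

`ip_mul`: a monomial has weight `g * e` for `g * w` iff it has weight `e` for `w` (`wd_mul`), compare coefficients
(`coeff_weightedHomogeneousComponent`). `VT_mul` follows.

`ip_congr`: `eval_eq'`: the monomials `m` in the support of `ip f w e j` have `wd w m = e` (`mem_support_ip`, NC/Fa), so `m i * w i ≤ e` and
`m i = 0` if `e < w i` (`mul_le_wd`).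

(`mem_support_ip`, NC/Fa: the monomials of `ip f w e j` are in `Sup f` and have weight `e`.)
-/

open MvPolynomial

namespace MotMono
namespace NC

open WH

namespace Po

variable {N r : ℕ}

private theorem p2_weight (w : Fin N → ℕ) (m : Fin N →₀ ℕ) : Finsupp.weight w m = wd w m := by
  rw [Finsupp.weight_apply, Finsupp.sum_fintype _ _ (fun i => zero_smul ℕ (w i))]
  unfold wd
  simp only [smul_eq_mul]

private theorem p2_along_sum {n : ℕ} (g : MvPolynomial (Fin N) ℂ) (γ : Fin N × Fin (n + 1) → ℂ)
    (l : ℕ) : (along g γ).coeff l =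
      ∑ m ∈ g.support, (along (monomial m (coeff m g)) γ).coeff l := by
  conv_lhs => rw [← support_sum_monomial_coeff g]
  unfold along
  rw [map_sum, Polynomial.finsetSum_coeff]

theorem coeff_lead {w : Fin N → ℕ} {g : MvPolynomial (Fin N) ℂ} {e h n : ℕ}
    (hg : ∀ m, coeff m g ≠ 0 → e ≤ wd w m) (hh : 1 ≤ h) (hn : ∀ i, h * w i < n + 1)
    (γ : Fin N × Fin (n + 1) → ℂ) (hL : Low w 1 h γ) :
    (∀ l < h * e, (along g γ).coeff l = 0) ∧
      (along g γ).coeff (h * e) = eval (lead w 1 h γ) (weightedHomogeneousComponent w e g) := by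
  have hom : ∀ m, IsWeightedHomogeneous w (monomial m (coeff m g)) (wd w m) := fun m =>
    isWeightedHomogeneous_monomial w m _ (p2_weight w m)
  constructor
  · intro l hl
    rw [p2_along_sum]
    refine Finset.sum_eq_zero fun m hm => ?_
    have h1 : h * e ≤ h * wd w m := Nat.mul_le_mul_left _ (hg m (mem_support_iff.1 hm))
    exact low_coeff (hom m) Nat.one_pos γ hL l (by omega)
  · rw [p2_along_sum, weightedHomogeneousComponent_apply, map_sum, Finset.sum_filter]
    refine Finset.sum_congr rfl fun m hm => ?_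
    have h0 : e ≤ wd w m := hg m (mem_support_iff.1 hm)
    rw [p2_weight]
    split_ifs with h1
    · refine eq_coeff (hom m) Nat.one_pos (fun i => ?_) γ hL _ ?_
      · rw [mul_one]
        exact hn i
      · rw [h1, mul_one]
    · have h2 : h * e < h * wd w m :=
        Nat.mul_lt_mul_of_pos_left (lt_of_le_of_ne h0 (Ne.symm h1)) hh
      exact low_coeff (hom m) Nat.one_pos γ hL _ (by omega)

theorem ip_mul (f : Fin r → MvPolynomial (Fin N) ℂ) (w : Fin N → ℕ) (e : ℕ) {g : ℕ} (hg : 0 < g)
    (j : Fin r) : ip f (fun i => g * w i) (g * e) j = ip f w e j := by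
  classical
  unfold ip
  ext m
  rw [coeff_weightedHomogeneousComponent, coeff_weightedHomogeneousComponent, p2_weight,
    p2_weight, wd_mul]
  have h1 : g * wd w m = g * e ↔ wd w m = e := Nat.mul_right_inj hg.ne'
  simp only [h1]

theorem VT_mul (f : Fin r → MvPolynomial (Fin N) ℂ) (w : Fin N → ℕ) (e : ℕ) {g : ℕ} (hg : 0 < g) :
    VT f (fun i => g * w i) (g * e) = VT f w e := by
  unfold VT
  simp only [ip_mul f w e hg]

theorem ip_congr (f : Fin r → MvPolynomial (Fin N) ℂ) (w : Fin N → ℕ) (e : ℕ) (j : Fin r)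
    {z z' : Fin N → ℂ} (h : ∀ i, w i ≤ e → z i = z' i) :
    eval z (ip f w e j) = eval z' (ip f w e j) := by
  rw [eval_eq', eval_eq']
  refine Finset.sum_congr rfl fun m hm => ?_
  congr 1
  refine Finset.prod_congr rfl fun i _ => ?_
  by_cases hi : w i ≤ e
  · rw [h i hi]
  · have h1 := mul_le_wd w m i
    rw [(mem_support_ip hm).2] at h1
    have h2 : m i = 0 := by
      by_contra h3
      have h4 : 1 * w i ≤ m i * w i := Nat.mul_le_mul_right _ (Nat.one_le_iff_ne_zero.2 h3)
      omega
    rw [h2, pow_zero, pow_zero]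

end Po
end NC
end MotMono
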