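import Pool.Agent.Lib.MP_4e5fcd_ag.NC.P2

/-!
# NC-P3: common zeros in the torus exist on compact facets only

`exists_pt`: otherwise `m i = 0` for all `m ∈ S` with `wd w m = e`, and `hF.ext` with `y = Pi.single i 1`, `t = 0`
(`y k = 0` where `w k = 0`, as `w i > 0`; `∑ m k * y k = m i = 0`) gives `c` with `0 = c * e`, so `c = 0` (`e > 0`) and
`1 = y i = 0`. `le_of_fac`: by `exists_pt` `w i ≤ m i * w i ≤ wd w m = e` (trivial if `w i = 0`).

`fac_of_zero`: `0 < N` by `hr`, so `g := Finset.univ.gcd w > 0`. Write `w i = g * w' i`; `g ∣ wd w m` for all `m`, in particular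
`g ∣ e` (`hex`), `e = g * e'`. `wd w m = g * wd w' m` (`wd_mul`). `e > 0`: `0 ∉ Sup f` and `w > 0`, so `wd w m > 0` for
`m ∈ Sup f`. `Fac (Sup f) w' e'`: `pos`, `ge` clear (cancel `g`); `prim`: `Finset.gcd` of `w = g * w'` is
`g * gcd w'` (`Finset.gcd_mul_left`), cancel `g`. `ext`: `y, t` rational with `∑ m i * y i = t` for all `m` of weight `e'` for `w'`, i.e. of weight `e`
for `w`. Cast to `ℂ` and use `ext_of_zero` (NC/Fa) for `w, e, z`: there is `c : ℂ` with `y i = c * w i`, `t = c * e`. Take an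
`i` (`0 < N`): `c * g = y i / w' i` is (the cast of) a rational number `c'`, and `y i = c' * w' i`, `t = c' * e'`
(injectivity of the cast `ℚ → ℂ`). `VT f w e = VT f w' e'` by `VT_mul`.
-/

open MvPolynomial

namespace MotMono
namespace NC

open WH

namespace Po

variable {N r : ℕ}

theorem exists_pt {S : Finset (Fin N →₀ ℕ)} {w : Fin N → ℕ} {e : ℕ} (hF : Fac S w e) {i : Fin N}
    (hi : 0 < w i) : ∃ m ∈ S, wd w m = e ∧ 0 < m i := by
  classical
  by_contra hcon
  push Not at hcon
  obtain ⟨c, hc, hce⟩ := hF.ext (Pi.single i (1 : ℚ)) 0 (by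
    intro k hk
    have hki : k ≠ i := by
      rintro rfl
      omega
    rw [Pi.single_eq_of_ne hki]) (by
    intro m hm hme
    have h1 : m i = 0 := Nat.le_zero.1 (hcon m hm hme)
    rw [Finset.sum_eq_single i]
    · rw [h1]
      simp
    · intro k _ hk
      rw [Pi.single_eq_of_ne hk, mul_zero]
    · intro h
      exact absurd (Finset.mem_univ i) h)
  have he : (e : ℚ) ≠ 0 := by
    have := hF.pos
    positivity
  have hc0 : c = 0 := by
    rcases mul_eq_zero.1 hce.symm with h | h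
    · exact h
    · exact absurd h he
  have h1 := hc i
  rw [Pi.single_eq_same, hc0, zero_mul] at h1
  exact one_ne_zero h1

theorem le_of_fac {S : Finset (Fin N →₀ ℕ)} {w : Fin N → ℕ} {e : ℕ} (hF : Fac S w e) (i : Fin N) :
    w i ≤ e := by
  rcases Nat.eq_zero_or_pos (w i) with h | h
  · omega
  · obtain ⟨m, -, hme, hmi⟩ := exists_pt hF h
    have h1 := mul_le_wd w m i
    rw [hme] at h1
    exact le_trans (Nat.le_mul_of_pos_left _ hmi) h1

private theorem p3_gcd (a : ℕ) (w : Fin N → ℕ) :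
    (Finset.univ.gcd fun i => a * w i) = a * Finset.univ.gcd w := by
  rw [Finset.gcd_mul_left]
  simp

theorem fac_of_zero {f : Fin r → MvPolynomial (Fin N) ℂ} (hr : r + 1 = N) (hf : Nondeg f)
    (h0 : (0 : Fin N →₀ ℕ) ∉ Sup f) {w : Fin N → ℕ} {e : ℕ} (hw : ∀ i, 0 < w i)
    (hge : ∀ m ∈ Sup f, e ≤ wd w m) (hex : ∃ m ∈ Sup f, wd w m = e) {z : Fin N → ℂ}
    (hz : z ∈ VT f w e) :
    ∃ (g : ℕ) (w' : Fin N → ℕ) (e' : ℕ), 0 < g ∧ w = (fun i => g * w' i) ∧ e = g * e' ∧
      Fac (Sup f) w' e' ∧ (∀ i, 0 < w' i) ∧ VT f w e = VT f w' e' := by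
  classical
  have hN : 0 < N := by omega
  let i0 : Fin N := ⟨0, hN⟩
  obtain ⟨m0, hm0, hme⟩ := hex
  have hepos : 0 < e := by
    rcases Nat.eq_zero_or_pos e with h | h
    · exfalso
      apply h0
      have hz0 : m0 = 0 := by
        ext i
        have h1 := mul_le_wd w m0 i
        rw [hme, h] at h1
        rcases Nat.mul_eq_zero.1 (Nat.le_zero.1 h1) with h2 | h2
        · exact h2
        · exact absurd h2 (hw i).ne'
      rwa [hz0] at hm0
    · exact h
  obtain ⟨g, hgdef⟩ : ∃ g : ℕ, g = Finset.univ.gcd w := ⟨_, rfl⟩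
  have hdvd : ∀ i, g ∣ w i := fun i => by
    rw [hgdef]
    exact Finset.gcd_dvd (Finset.mem_univ i)
  have hg : 0 < g := Nat.pos_of_dvd_of_pos (hdvd i0) (hw i0)
  obtain ⟨w', hw'⟩ : ∃ w' : Fin N → ℕ, w = fun i => g * w' i :=
    ⟨fun i => w i / g, funext fun i => (Nat.mul_div_cancel' (hdvd i)).symm⟩
  have hwd : ∀ m, wd w m = g * wd w' m := fun m => by rw [hw', wd_mul]
  obtain ⟨e', he'⟩ : ∃ e' : ℕ, e = g * e' := ⟨wd w' m0, by rw [← hme, hwd]⟩
  have hw'pos : ∀ i, 0 < w' i := by
    intro i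
    have h1 := hw i
    rw [hw'] at h1
    exact Nat.pos_of_mul_pos_left h1
  refine ⟨g, w', e', hg, hw', he', ?_, hw'pos, ?_⟩
  · refine ⟨?_, ?_, ?_, ?_⟩
    · rw [he'] at hepos
      exact Nat.pos_of_mul_pos_left hepos
    · intro m hm
      have h1 := hge m hm
      rw [he', hwd] at h1
      exact Nat.le_of_mul_le_mul_left h1 hg
    · have h1 : Finset.univ.gcd w = g * Finset.univ.gcd w' := by
        rw [hw', p3_gcd]
      rw [← hgdef] at h1
      have h2 : g * 1 = g * Finset.univ.gcd w' := by rw [mul_one]; exact h1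
      exact (Nat.eq_of_mul_eq_mul_left hg h2).symm
    · intro y t _ hy
      obtain ⟨c, hc, hct⟩ := ext_of_zero hr hf hw hge ⟨m0, hm0, hme⟩ hepos hz
        (fun i => (y i : ℂ)) (t : ℂ) (by
          intro m hm hme'
          have h1 : wd w' m = e' := by
            rw [hwd, he'] at hme'
            exact Nat.eq_of_mul_eq_mul_left hg hme'
          have h2 := hy m hm h1
          rw [← h2]
          push_cast
          rfl)
      have hw0 : ((w' i0 : ℚ)) ≠ 0 := by
        have := hw'pos i0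
        positivity
      have hw0C : ((w' i0 : ℂ)) ≠ 0 := by
        have := (hw'pos i0).ne'
        exact_mod_cast this
      have hwi : ∀ i, (w i : ℂ) = (g : ℂ) * (w' i : ℂ) := by
        intro i
        have : w i = g * w' i := by rw [hw']
        rw [this]
        push_cast
        rfl
      have hcg : ((y i0 / (w' i0 : ℚ) : ℚ) : ℂ) = c * g := by
        push_cast
        have h1 := hc i0
        rw [hwi] at h1
        rw [h1]
        field_simp
      refine ⟨y i0 / (w' i0 : ℚ), fun i => ?_, ?_⟩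
      · have h1 := hc i
        rw [hwi] at h1
        have h2 : ((y i : ℚ) : ℂ) = ((y i0 / (w' i0 : ℚ) * (w' i : ℚ) : ℚ) : ℂ) := by
          rw [Rat.cast_mul, hcg, h1]
          push_cast
          ring
        exact_mod_cast h2
      · have h2 : ((t : ℚ) : ℂ) = ((y i0 / (w' i0 : ℚ) * (e' : ℚ) : ℚ) : ℂ) := by
          rw [Rat.cast_mul, hcg, hct, he']
          push_cast
          ring
        exact_mod_cast h2
  · rw [hw', he']
    exact VT_mul f w' e' hg

end Po
end NC
end MotMono
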