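import Pool.Agent.Lib.MP_4e5fcd_ag.NC.P1
import Pool.Agent.Lib.MP_4e5fcd_ag.NC.P3

/-!
# NC-P4: the jets along which `f` vanishes to order `K`

`od_secA`: for `γ ∈ SecA f w e h K n` (unfold `SecA`, `SecS`, `Low`, `lead`, `M = 1`): `γ (i, l) = 0` for `l < h * w i`, and
`lead w 1 h γ i = γ (i, h * w i) ≠ 0` by `VT` (`h * w i < n + 1`: the condition `1 ∣ _ ∧ h * w i / 1 < n + 1` holds). So
`od γ i = h * w i` by `od_eq_iff`.

`secA_AS`: `γ (i, 0) = 0` because `0 * 1 < h * w i`; the other conditions are part of `SecS` (`η = 0`).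

`secA_not_OS`: there is `m ∈ S` with `wd w m = e` (S nonempty of weight `e`: otherwise `hF.ext` with `y = 0`, `t = 1` gives
`1 = c * e` and `0 = c * w i` for all `i`, so `c ≠ 0`, `w = 0`, contradiction to `hF.prim`: gcd of zeros is `0`; or use `exists_pt`), and
`wd (od γ) m = h * wd w m = h * e < K` (`od_secA`, `wd_mul`).

`mem_AS`: `←`: `OS_AS` and `secA_AS`. `→`: let `γ ∈ AS f n K`, `γ ∉ OS (Sup f) n K`; as `1 ≤ od γ i` (`γ (i, 0) = 0`,
`le_od_iff`), there is `m₀ ∈ Sup f` with `wd (od γ) m₀ < K`. Put `o i := min (od γ i) K` (`K ≥ 1`, so `o i ≥ 1`) and let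
`e'` be the minimum of `wd o m`, `m ∈ Sup f`; `e' ≤ wd o m₀ ≤ wd (od γ) m₀ < K` (`wd_mono`). `Low o 1 1 γ` holds (`l < o i ≤ od γ i` => `γ (i,l) = 0`). Let
`c := lead o 1 1 γ`, `c i = γ (i, o i)` (`o i ≤ K < n + 1`). By `coeff_lead` (`h = 1`, `w = o`, `e = e'`, `g = f j`)
`eval c (ip f o e' j) = coeff e' (along (f j) γ) = 0` because `e' < K` and `γ ∈ AS f n K`. Put `z i := c i` if `od γ i < K`, `1` otherwise. If
`o i ≤ e'`, then `o i < K`, so `od γ i < K` and `z i = c i`: by `ip_congr` `eval z (ip f o e' j) = 0`. `z i ≠ 0` by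
`od_ne` (if `od γ i < K` then `o i = od γ i`). So `z ∈ VT f o e'` and `fac_of_zero` gives `o = g * w`, `e' = g * e`, a compact facet `(w, e)` and
`VT f o e' = VT f w e`. For every `i`: `exists_pt`: `m ∈ Sup f`, `wd w m = e`, `0 < m i`; so `o i ≤ m i * o i ≤ wd o m = g * e = e' < K`
(`mul_le_wd`, `wd_mul`), hence `od γ i < K` and `o = od γ`, `z = c`. Then `γ ∈ SecA f w e g K n`: `Low w 1 g γ`
(`g * w i = o i = od γ i`), `lead w 1 g γ = lead o 1 1 γ = c ∈ VT f w e` (`1 * o i = g * w i`), coefficients `l < K` vanish.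
`g ∈ HR e K` (`mem_HR`).

`secA_disjoint`: `γ` in both: `od γ = h * w = h' * w'` (`od_secA`; `h * w i ≤ n` from `hn` and `h * w i ≤ h * e < K` by `le_of_fac`). gcd: `h = h'`
(`Finset.gcd_mul_left`, `prim`), so `w = w'`, and `e = e'` because both are the minimum of `wd w m`, `m ∈ S` (attained, as in
`secA_not_OS`).
-/

open MvPolynomial

namespace MotMono
namespace NC

open WH

namespace Po

variable {N r : ℕ}

/-- the least weight is attained -/
private theorem p4_attained {S : Finset (Fin N →₀ ℕ)} {w : Fin N → ℕ} {e : ℕ} (hF : Fac S w e) :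
    ∃ m ∈ S, wd w m = e := by
  by_contra hc
  push Not at hc
  obtain ⟨c, h1, h2⟩ := hF.ext (fun _ => 0) 1 (fun _ _ => rfl)
    (fun m hm h => absurd h (hc m hm))
  have hc0 : c ≠ 0 := by
    rintro rfl
    rw [zero_mul] at h2
    exact one_ne_zero h2
  have hw : ∀ i, w i = 0 := fun i => by
    have h3 := h1 i
    have h4 : (w i : ℚ) = 0 := by
      rcases mul_eq_zero.1 h3.symm with h | h
      · exact absurd h hc0
      · exact h
    exact_mod_cast h4
  have h5 := hF.prim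
  have h6 : Finset.univ.gcd w = 0 := Finset.gcd_eq_zero_iff.2 fun i _ => hw i
  rw [h6] at h5
  exact zero_ne_one h5

theorem od_secA {f : Fin r → MvPolynomial (Fin N) ℂ} {w : Fin N → ℕ} {e h K n : ℕ}
    (hn : ∀ i, h * w i ≤ n) {γ : Fin N × Fin (n + 1) → ℂ} (hγ : γ ∈ SecA f w e h K n) (i : Fin N) :
    od γ i = h * w i := by
  obtain ⟨hL, hV, _⟩ := hγ
  have hlt : h * w i < n + 1 := Nat.lt_succ_of_le (hn i)
  refine (od_eq_iff γ i hlt).2 ⟨fun l hl => hL i l (by rw [mul_one]; exact hl), ?_⟩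
  have h1 := hV.1 i
  unfold lead at h1
  have hq : 1 ∣ h * w i ∧ h * w i / 1 < n + 1 := ⟨one_dvd _, by rw [Nat.div_one]; exact hlt⟩
  rw [dif_pos hq] at h1
  have h2 : (⟨h * w i / 1, hq.2⟩ : Fin (n + 1)) = ⟨h * w i, hlt⟩ := Fin.ext (Nat.div_one _)
  rw [h2] at h1
  exact h1

theorem secA_AS {f : Fin r → MvPolynomial (Fin N) ℂ} {w : Fin N → ℕ} {e h K n : ℕ}
    (hw : ∀ i, 0 < w i) (hh : 1 ≤ h) {γ : Fin N × Fin (n + 1) → ℂ}
    (hγ : γ ∈ SecA f w e h K n) : γ ∈ AS f n K := by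
  obtain ⟨hL, _, hc⟩ := hγ
  refine ⟨fun i => hL i 0 ?_, fun j l hl => hc j (Finset.mem_univ j) l hl⟩
  have h1 : 0 < h * w i := Nat.mul_pos hh (hw i)
  simpa using h1

/-- bounds in a sector -/
private theorem p4_le {S : Finset (Fin N →₀ ℕ)} {w : Fin N → ℕ} {e h K n : ℕ} (hF : Fac S w e)
    (hh : h ∈ HR e K) (hn : K ≤ n) (i : Fin N) : h * w i ≤ n := by
  have h1 := (mem_HR hF.pos).1 hh
  have h2 : h * w i ≤ h * e := Nat.mul_le_mul_left _ (le_of_fac hF i)
  omega

theorem secA_not_OS {f : Fin r → MvPolynomial (Fin N) ℂ} {w : Fin N → ℕ} {e h K n : ℕ}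
    (hF : Fac (Sup f) w e) (hh : h ∈ HR e K) (hn : K ≤ n) {γ : Fin N × Fin (n + 1) → ℂ}
    (hγ : γ ∈ SecA f w e h K n) : γ ∉ OS (Sup f) n K := by
  intro hO
  obtain ⟨m, hm, hme⟩ := p4_attained hF
  have h1 : K ≤ wd (od γ) m := hO.2 m hm
  have h2 : od γ = fun i => h * w i := funext fun i => od_secA (p4_le hF hh hn) hγ i
  rw [h2, wd_mul, hme] at h1
  have h3 := ((mem_HR hF.pos).1 hh).2
  omega

theorem mem_AS {f : Fin r → MvPolynomial (Fin N) ℂ} (hr : r + 1 = N) (hf : Nondeg f)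
    (h0 : (0 : Fin N →₀ ℕ) ∉ Sup f) {n K : ℕ} (hn : K ≤ n) (γ : Fin N × Fin (n + 1) → ℂ) :
    γ ∈ AS f n K ↔ γ ∈ OS (Sup f) n K ∨
      ∃ p ∈ FC (Sup f), ∃ h ∈ HR p.2 K, γ ∈ SecA f p.1 p.2 h K n := by
  classical
  constructor
  · intro hA
    by_cases hO : γ ∈ OS (Sup f) n K
    · exact Or.inl hO
    right
    -- the orders are positive
    have hod1 : ∀ i, 1 ≤ od γ i := fun i => by
      refine (le_od_iff γ i (by omega)).2 fun l hl => ?_
      have h1 : l = 0 := Fin.ext (by have : (l : ℕ) < 1 := hl; simpa using this)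
      rw [h1]
      exact hA.1 i
    obtain ⟨m₀, hm₀, hlt₀⟩ : ∃ m ∈ Sup f, wd (od γ) m < K := by
      by_contra hc
      push Not at hc
      exact hO ⟨hod1, hc⟩
    -- truncated orders
    set o : Fin N → ℕ := fun i => min (od γ i) K with ho
    have hK1 : 1 ≤ K := by omega
    have ho1 : ∀ i, 0 < o i := fun i => by
      have := hod1 i
      simp only [ho]
      omega
    have hole : ∀ i, o i ≤ od γ i := fun i => min_le_left _ _
    have hoK : ∀ i, o i ≤ K := fun i => min_le_right _ _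
    obtain ⟨m₁, hm₁, hmin⟩ := Finset.exists_min_image (Sup f) (fun m => wd o m) ⟨m₀, hm₀⟩
    set e' : ℕ := wd o m₁ with he'
    have he'K : e' < K := by
      have h1 : e' ≤ wd o m₀ := hmin m₀ hm₀
      have h2 : wd o m₀ ≤ wd (od γ) m₀ := wd_mono fun i _ => hole i
      omega
    have hL : Low o 1 1 γ := by
      intro i l hl
      rw [mul_one, one_mul] at hl
      exact od_zero (lt_of_lt_of_le hl (hole i))
    have hlead : ∀ i, ∀ hi : o i < n + 1, lead o 1 1 γ i = γ (i, ⟨o i, hi⟩) := by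
      intro i hi
      unfold lead
      have hq : 1 ∣ 1 * o i ∧ 1 * o i / 1 < n + 1 :=
        ⟨one_dvd _, by rw [Nat.div_one, one_mul]; exact hi⟩
      rw [dif_pos hq]
      have h2 : (⟨1 * o i / 1, hq.2⟩ : Fin (n + 1)) = ⟨o i, hi⟩ :=
        Fin.ext ((Nat.div_one _).trans (one_mul _))
      rw [h2]
    have hon : ∀ i, o i < n + 1 := fun i => lt_of_le_of_lt (hoK i) (by omega)
    have hcoef : ∀ j, eval (lead o 1 1 γ) (ip f o e' j) = 0 := by
      intro j
      have h1 := (coeff_lead (w := o) (g := f j) (e := e') (h := 1) (n := n)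
        (fun m hm => hmin m (by
          unfold Sup
          exact Finset.mem_biUnion.2 ⟨j, Finset.mem_univ j, mem_support_iff.2 hm⟩))
        le_rfl (fun i => by rw [one_mul]; exact hon i) γ hL).2
      rw [one_mul] at h1
      have h2 : (along (f j) γ).coeff e' = 0 := hA.2 j e' he'K
      rw [h2] at h1
      exact h1.symm
    set z : Fin N → ℂ := fun i => if od γ i < K then lead o 1 1 γ i else 1 with hz
    have hz1 : ∀ i, od γ i < K → z i = lead o 1 1 γ i := fun i hi => if_pos hi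
    have hoeq : ∀ i, od γ i < K → o i = od γ i := fun i hi => min_eq_left hi.le
    have hzV : z ∈ VT f o e' := by
      refine ⟨fun i => ?_, fun j => ?_⟩
      · by_cases hi : od γ i < K
        · rw [hz1 i hi, hlead i (hon i)]
          have hn1 : od γ i < n + 1 := by omega
          have h2 : (⟨o i, hon i⟩ : Fin (n + 1)) = ⟨od γ i, hn1⟩ := Fin.ext (hoeq i hi)
          rw [h2]
          exact od_ne hn1
        · simp only [hz, if_neg hi]
          exact one_ne_zero
      · rw [← hcoef j]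
        refine ip_congr f o e' j fun i hi => ?_
        have h1 : od γ i < K := by
          have h2 : min (od γ i) K ≤ e' := hi
          omega
        exact hz1 i h1
    obtain ⟨g, w, e, hg, how, hee, hF, hw, hVT⟩ := fac_of_zero hr hf h0 ho1 hmin
      ⟨m₁, hm₁, rfl⟩ hzV
    have hodK : ∀ i, od γ i < K := by
      intro i
      obtain ⟨m, hm, hme, hmi⟩ := exists_pt hF (hw i)
      have h1 : o i ≤ e' := by
        have h2 : m i * o i ≤ wd o m := mul_le_wd o m i
        have h3 : wd o m = g * e := by rw [how, wd_mul, hme]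
        have h4 : o i ≤ m i * o i := Nat.le_mul_of_pos_left _ hmi
        omega
      have h5 : min (od γ i) K ≤ e' := h1
      omega
    have hod : ∀ i, od γ i = g * w i := fun i => by
      rw [← hoeq i (hodK i), how]
    have hgw : ∀ i, g * w i < n + 1 := fun i => by
      have := hodK i
      rw [hod i] at this
      omega
    have hlw : lead w 1 g γ = lead o 1 1 γ := by
      funext i
      rw [hlead i (hon i)]
      unfold lead
      have hq : 1 ∣ g * w i ∧ g * w i / 1 < n + 1 :=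
        ⟨one_dvd _, by rw [Nat.div_one]; exact hgw i⟩
      rw [dif_pos hq]
      have h2 : (⟨g * w i / 1, hq.2⟩ : Fin (n + 1)) = ⟨o i, hon i⟩ :=
        Fin.ext ((Nat.div_one _).trans (congrFun how i).symm)
      rw [h2]
    have hzl : z = lead o 1 1 γ := funext fun i => hz1 i (hodK i)
    refine ⟨(w, e), mem_FC.2 ⟨hF, hw⟩, g, (mem_HR hF.pos).2 ⟨hg, by rw [← hee]; exact he'K⟩,
      ?_, ?_, ?_⟩
    · intro i l hl
      rw [mul_one] at hl
      exact od_zero (by rw [hod i]; exact hl)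
    · show lead w 1 g γ ∈ VT f w e
      rw [hlw, ← hVT, ← hzl]
      exact hzV
    · intro j _ l hl
      exact hA.2 j l hl
  · rintro (hO | ⟨p, hp, h, hh, hγ⟩)
    · exact OS_AS (by omega) hO
    · have hp' := mem_FC.1 hp
      exact secA_AS hp'.2 ((mem_HR hp'.1.pos).1 hh).1 hγ

theorem secA_disjoint {f : Fin r → MvPolynomial (Fin N) ℂ} {p p' : (Fin N → ℕ) × ℕ} {h h' K n : ℕ}
    (hp : p ∈ FC (Sup f)) (hp' : p' ∈ FC (Sup f)) (hh : h ∈ HR p.2 K) (hh' : h' ∈ HR p'.2 K)
    (hn : K ≤ n) {γ : Fin N × Fin (n + 1) → ℂ} (hγ : γ ∈ SecA f p.1 p.2 h K n)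
    (hγ' : γ ∈ SecA f p'.1 p'.2 h' K n) : p = p' ∧ h = h' := by
  obtain ⟨hF, -⟩ := mem_FC.1 hp
  obtain ⟨hF', -⟩ := mem_FC.1 hp'
  have h1 : ∀ i, od γ i = h * p.1 i := fun i => od_secA (p4_le hF hh hn) hγ i
  have h1' : ∀ i, od γ i = h' * p'.1 i := fun i => od_secA (p4_le hF' hh' hn) hγ' i
  have h2 : (fun i => h * p.1 i) = fun i => h' * p'.1 i := funext fun i => (h1 i).symm.trans (h1' i)
  have h3 : h = h' := by
    have h4 : Finset.univ.gcd (fun i => h * p.1 i) = Finset.univ.gcd (fun i => h' * p'.1 i) := by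
      rw [h2]
    rw [Finset.gcd_mul_left, Finset.gcd_mul_left] at h4
    have h5 : Finset.univ.gcd (fun i => p.1 i) = 1 := hF.prim
    have h6 : Finset.univ.gcd (fun i => p'.1 i) = 1 := hF'.prim
    rw [h5, h6, mul_one, mul_one] at h4
    simpa using h4
  refine ⟨?_, h3⟩
  have hpos : 0 < h := ((mem_HR hF.pos).1 hh).1
  have hw : p.1 = p'.1 := by
    funext i
    have h7 : h * p.1 i = h' * p'.1 i := congrFun h2 i
    rw [← h3] at h7
    exact Nat.eq_of_mul_eq_mul_left hpos h7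
  have he : p.2 = p'.2 := by
    obtain ⟨m, hm, hme⟩ := p4_attained hF
    obtain ⟨m', hm', hme'⟩ := p4_attained hF'
    have h8 := hF'.ge m hm
    have h9 := hF.ge m' hm'
    rw [← hw, hme] at h8
    rw [hw, hme'] at h9
    exact le_antisymm h9 h8
  exact Prod.ext hw he

end Po
end NC
end MotMono
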