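import Pool.Agent.Lib.MP_4e5fcd_ag.NC.P4
import Pool.Agent.Lib.MP_4e5fcd_ag.WH.E1

/-!
# NC-P5: the measure of the sectors of the compact facets

`constr_VT`: intersection of the sets `z i ≠ 0` (`constr_ne (X i)`) and `ip f w e j = 0` (`Constr.zeroSet`); `constr_iInter`.
`constr_SecA`: `constr_SecS` (SW).

`cls_SecA`: if `VT f w e = ∅` both sides are `0` (`SecA ⊆ ∅`, `cls_empty`). Otherwise `cls_SecS` (SW/C3) with `M = 1`, `d := fun _ => e`,
`B = univ`, `η = 0`: `SWt`: `w_pos`, `d_pos = hF.pos`, `ord`: `coeff m (f j) ≠ 0` gives `m ∈ Sup f`, `hF.ge` (`wd` unfolds to the sum);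
`ini_ne`: `ini w d f j = ip f w e j` (definitional), and for `z ∈ VT` the gradients are linearly independent by `hf w e` (there is a point of `Sup f` of weight `e`:
as in the header of NC/P4, e.g. by `exists_pt`), so the gradient of `ip f w e j` is not zero and `ip f w e j ≠ 0`. `hSF`: `1 ∣ _`. `hSv`: `VT`.
`hSi`: the same linear independence (restricted to `b : B`: `LinearIndependent.comp` with `Subtype.val`). `hn`: `h * w i ≤ h * e < K` (`le_of_fac`), `2 * K ≤ n`.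
`∑ b ∈ univ, (K - 1 - h * e / 1) = r * (K - 1 - h * e)`, `h * w i / 1 = h * w i` (`Nat.div_one`).

`val_SecA`: `e1_LL_pow` (WH/E1: `algebraMap (LL ^ k) * Lu ^ a = Lu ^ (k + a)`; copy it if the import is not there) with
`k = ∑ i, (n - h * w i) - r * (K - 1 - h * e)`, `a = -(N * (n + 1))`. All subtractions are exact: `h * w i < K`, and `r * (K - 1 - h * e) ≤ N * K ≤ ∑ i, (n - h * w i)`
since `r ≤ N` and `n - h * w i ≥ K`. So `k + a = N n - h W - r (K - 1 - h e) - N (n + 1) = -(N + h W + r (K - 1 - h e))`.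

`mu_FC`: `n := 2 * K`. `mu_eq` (WH/A1) for `f` and for `mons (Sup f)`, `AS_mons`. `AS f n K` is the disjoint union of `OS (Sup f) n K` and of the sets
`SecA f p.1 p.2 h K n`, `p ∈ FC (Sup f)`, `h ∈ HR p.2 K` (`mem_AS`, `secA_not_OS`, `secA_disjoint`): `cls_union`, `cls_biUnion` (K1) over
`(FC (Sup f)).sigma fun p => HR p.2 K` (or twice `cls_biUnion`), then `val_SecA`.
-/

open MvPolynomial

namespace MotMono
namespace NC

open WH

namespace Po

variable {N r : ℕ}

theorem constr_VT (f : Fin r → MvPolynomial (Fin N) ℂ) (w : Fin N → ℕ) (e : ℕ) :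
    Constr (VT f w e) := by
  have h1 : Constr (⋂ i : Fin N, {z : Fin N → ℂ | eval z (X i : MvPolynomial (Fin N) ℂ) ≠ 0}) :=
    constr_iInter fun i => constr_ne _
  have h2 : Constr (⋂ j : Fin r, {z : Fin N → ℂ | eval z (ip f w e j) = 0}) :=
    constr_iInter fun j => Constr.zeroSet _
  have e1 : VT f w e = (⋂ i : Fin N, {z : Fin N → ℂ | eval z (X i : MvPolynomial (Fin N) ℂ) ≠ 0}) ∩
      ⋂ j : Fin r, {z : Fin N → ℂ | eval z (ip f w e j) = 0} := by
    ext z
    simp only [VT, Set.mem_ofPred_eq, Set.mem_inter_iff, Set.mem_iInter, eval_X]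
  rw [e1]
  exact h1.inter h2

theorem constr_SecA (f : Fin r → MvPolynomial (Fin N) ℂ) (w : Fin N → ℕ) (e h K n : ℕ) :
    Constr (SecA f w e h K n) :=
  constr_SecS w 1 f Finset.univ (constr_VT f w e) h K n 0

private theorem P5_ex {S : Finset (Fin N →₀ ℕ)} {w : Fin N → ℕ} {e : ℕ} (hF : Fac S w e) :
    ∃ m ∈ S, wd w m = e := by
  by_contra hcon
  push Not at hcon
  obtain ⟨c, hc1, hc2⟩ := hF.ext 0 1 (fun i _ => rfl) fun m hm h => absurd h (hcon m hm)
  have hc0 : c ≠ 0 := by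
    rintro rfl
    rw [zero_mul] at hc2
    exact one_ne_zero hc2
  have h1 : ∀ i, w i = 0 := by
    intro i
    have h2 := hc1 i
    rw [Pi.zero_apply] at h2
    have h3 : (w i : ℚ) = 0 := (mul_eq_zero.1 h2.symm).resolve_left hc0
    exact_mod_cast h3
  have h2 := hF.prim
  rw [show Finset.univ.gcd w = 0 from Finset.gcd_eq_zero_iff.2 fun i _ => h1 i] at h2
  exact absurd h2 (by norm_num)

theorem cls_SecA {f : Fin r → MvPolynomial (Fin N) ℂ} (hf : Nondeg f) {w : Fin N → ℕ}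
    {e h K n : ℕ} (hF : Fac (Sup f) w e) (hw : ∀ i, 0 < w i) (hh : h ∈ HR e K) (hn : 2 * K ≤ n) :
    cls (SecA f w e h K n) =
      cls (VT f w e) * LL ^ (∑ i, (n - h * w i) - r * (K - 1 - h * e)) := by
  obtain ⟨hh1, hh2⟩ := (mem_HR hF.pos).1 hh
  rcases (VT f w e).eq_empty_or_nonempty with hE | ⟨z, hz⟩
  · have h1 : SecA f w e h K n = ∅ := by
      rw [Set.eq_empty_iff_forall_notMem]
      intro γ hγ
      have h2 : lead w 1 h γ ∈ VT f w e := hγ.2.1
      rw [hE] at h2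
      exact absurd h2 (Set.notMem_empty _)
    rw [h1, hE, cls_empty, cls_empty, zero_mul]
  · have hord : ∀ (j : Fin r) (m : Fin N →₀ ℕ), coeff m (f j) ≠ 0 → e ≤ ∑ i, m i * w i := by
      intro j m hm
      exact hF.ge m (Finset.mem_biUnion.2 ⟨j, Finset.mem_univ j, mem_support_iff.2 hm⟩)
    have hex := P5_ex hF
    have hli := hf w e hw hF.ge hex
    have hW : SWt w (fun _ : Fin r => e) f := by
      refine ⟨hw, fun _ => hF.pos, hord, fun j h0 => ?_⟩
      apply (hli z hz.1 hz.2).ne_zero j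
      have h1 : ip f w e j = 0 := h0
      show grad (ip f w e j) z = 0
      rw [h1]
      funext i
      unfold grad
      rw [map_zero, map_zero]
      rfl
    have hn' : ∀ i, h * w i + K * 1 ≤ n * 1 := by
      intro i
      have h1 : h * w i ≤ h * e := Nat.mul_le_mul_left _ (le_of_fac hF i)
      omega
    have hSi : ∀ c ∈ VT f w e, LinearIndependent ℂ
        (fun b : (Finset.univ : Finset (Fin r)) => grad (ini w (fun _ : Fin r => e) f b) c) := by
      intro c hc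
      exact (hli c hc.1 hc.2).comp (fun b : (Finset.univ : Finset (Fin r)) => (b : Fin r))
        Subtype.val_injective
    have hSv : ∀ c ∈ VT f w e, ∀ b ∈ (Finset.univ : Finset (Fin r)),
        eval c (ini w (fun _ : Fin r => e) f b) = 0 := fun c hc b _ => hc.2 b
    have hSF : VT f w e ⊆ FixH w 1 h := fun c _ i hi => absurd (one_dvd _) hi
    have key := cls_SecS hW (M := 1) (h := h) (K := K) (n := n) Nat.one_pos hh1 hn'
      (B := Finset.univ) (S := VT f w e) (constr_VT f w e) hSF hSv hSi 0 (fun b _ l _ => rfl)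
    have e1 : SecA f w e h K n = SecS w 1 f Finset.univ (VT f w e) h K n 0 := rfl
    rw [e1, key]
    simp only [Nat.div_one, Finset.sum_const, Finset.card_univ, Fintype.card_fin, smul_eq_mul]

theorem val_SecA {f : Fin r → MvPolynomial (Fin N) ℂ} (hr : r + 1 = N) (hf : Nondeg f)
    {w : Fin N → ℕ} {e h K n : ℕ} (hF : Fac (Sup f) w e) (hw : ∀ i, 0 < w i) (hh : h ∈ HR e K)
    (hn : 2 * K ≤ n) :
    algebraMap K0 MC (cls (SecA f w e h K n)) * ((Lu ^ (-(N * (n + 1) : ℤ)) : MCˣ) : MC) =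
      algebraMap K0 MC (cls (VT f w e)) *
        ((Lu ^ (-((N + h * (∑ i, w i) + r * (K - 1 - h * e) : ℕ) : ℤ)) : MCˣ) : MC) := by
  obtain ⟨hh1, hh2⟩ := (mem_HR hF.pos).1 hh
  rw [cls_SecA hf hF hw hh hn, map_mul, mul_assoc, WH.e1_LL_pow]
  have h1 : ∀ i, h * w i ≤ K := by
    intro i
    have : h * w i ≤ h * e := Nat.mul_le_mul_left _ (le_of_fac hF i)
    omega
  have h2 : ∑ i, (n - h * w i) + h * ∑ i, w i = N * n := by
    rw [Finset.mul_sum, ← Finset.sum_add_distrib]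
    have : ∀ i ∈ (Finset.univ : Finset (Fin N)), n - h * w i + h * w i = n := by
      intro i _
      have := h1 i
      omega
    rw [Finset.sum_congr rfl this, Finset.sum_const, Finset.card_univ, Fintype.card_fin,
      smul_eq_mul]
  have h3 : r * (K - 1 - h * e) ≤ ∑ i, (n - h * w i) := by
    calc r * (K - 1 - h * e) ≤ N * K := Nat.mul_le_mul (by omega) (by omega)
      _ = ∑ _i : Fin N, K := by
          rw [Finset.sum_const, Finset.card_univ, Fintype.card_fin, smul_eq_mul]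
      _ ≤ ∑ i, (n - h * w i) := Finset.sum_le_sum fun i _ => by
          have := h1 i
          omega
  have h4 : (((∑ i, (n - h * w i) - r * (K - 1 - h * e) : ℕ) : ℤ) + (-(N * (n + 1) : ℤ))) =
      (-((N + h * (∑ i, w i) + r * (K - 1 - h * e) : ℕ) : ℤ)) := by
    have h5 : ((∑ i, (n - h * w i) : ℕ) : ℤ) + ((h * ∑ i, w i : ℕ) : ℤ) = ((N * n : ℕ) : ℤ) := by
      exact_mod_cast h2
    rw [Nat.cast_sub h3]
    have h6 : ((N * n : ℕ) : ℤ) = (N : ℤ) * n := by push_cast; ring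
    rw [h6] at h5
    have h7 : ((N + h * (∑ i, w i) + r * (K - 1 - h * e) : ℕ) : ℤ) =
        (N : ℤ) + ((h * ∑ i, w i : ℕ) : ℤ) + ((r * (K - 1 - h * e) : ℕ) : ℤ) := by
      rw [Nat.cast_add, Nat.cast_add]
    rw [h7]
    linear_combination h5
  rw [h4]

theorem mu_FC {f : Fin r → MvPolynomial (Fin N) ℂ} (hr : r + 1 = N) (hf : Nondeg f)
    (h0 : (0 : Fin N →₀ ℕ) ∉ Sup f) (K : ℕ) :
    WH.mu f K = WH.mu (mons (Sup f)) K +
      ∑ p ∈ FC (Sup f), sect N r (cls (VT f p.1 p.2)) (∑ i, p.1 i) p.2 K := by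
  classical
  have hK1 : K ≤ 2 * K + 1 := by omega
  have hK2 : K ≤ 2 * K := by omega
  rw [← WH.mu_eq f (2 * K) K hK1, ← WH.mu_eq (mons (Sup f)) (2 * K) K hK1, AS_mons _ hK1]
  set I : Finset (Σ _ : (Fin N → ℕ) × ℕ, ℕ) := (FC (Sup f)).sigma fun p => HR p.2 K with hI
  have hAS : AS f (2 * K) K = OS (Sup f) (2 * K) K ∪
      ⋃ q ∈ I, SecA f q.1.1 q.1.2 q.2 K (2 * K) := by
    ext γ
    rw [mem_AS hr hf h0 hK2, Set.mem_union, Set.mem_iUnion₂]
    refine or_congr Iff.rfl ⟨?_, ?_⟩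
    · rintro ⟨p, hp, h, hh, hγ⟩
      exact ⟨⟨p, h⟩, Finset.mem_sigma.2 ⟨hp, hh⟩, hγ⟩
    · rintro ⟨⟨p, h⟩, hq, hγ⟩
      rw [hI, Finset.mem_sigma] at hq
      exact ⟨p, hq.1, h, hq.2, hγ⟩
  have hdisj : Disjoint (OS (Sup f) (2 * K) K) (⋃ q ∈ I, SecA f q.1.1 q.1.2 q.2 K (2 * K)) := by
    rw [Set.disjoint_left]
    intro γ h1 h2
    rw [Set.mem_iUnion₂] at h2
    obtain ⟨⟨p, h⟩, hq, hγ⟩ := h2
    rw [hI, Finset.mem_sigma] at hq
    exact secA_not_OS (mem_FC.1 hq.1).1 hq.2 hK2 hγ h1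
  have hcon : ∀ q ∈ I, Constr (SecA f q.1.1 q.1.2 q.2 K (2 * K)) := fun q _ => constr_SecA _ _ _ _ _ _
  have hcls : cls (AS f (2 * K) K) = cls (OS (Sup f) (2 * K) K) +
      ∑ q ∈ I, cls (SecA f q.1.1 q.1.2 q.2 K (2 * K)) := by
    rw [hAS, cls_union (constr_OS _ hK1) (constr_biUnion I hcon) hdisj]
    congr 1
    refine cls_biUnion I hcon ?_
    rintro ⟨p, h⟩ hq ⟨p', h'⟩ hq' hne
    rw [hI, Finset.mem_sigma] at hq hq'
    rw [Set.disjoint_left]
    intro γ hγ hγ'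
    obtain ⟨h1, h2⟩ := secA_disjoint hq.1 hq'.1 hq.2 hq'.2 hK2 hγ hγ'
    apply hne
    have h1' : p = p' := h1
    have h2' : h = h' := h2
    subst h1'
    subst h2'
    rfl
  rw [hcls, map_add, add_mul, map_sum, Finset.sum_mul]
  congr 1
  rw [hI, Finset.sum_sigma]
  refine Finset.sum_congr rfl fun p hp => ?_
  unfold sect
  refine Finset.sum_congr rfl fun h hh => ?_
  exact_mod_cast val_SecA hr hf (mem_FC.1 hp).1 (mem_FC.1 hp).2 hh (le_refl (2 * K))

end Po
end NC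
end MotMono
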