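import Pool.Agent.Lib.MP_4e5fcd_ag.NC.PDefs

/-!
# NC-P7: combinatorics of B-facets

`BT S w e i`: `w > 0`, `w i = 1`, `2 ≤ e`, `single i e ∈ S`, for all `k ≠ i` a point `single i a + single k 1 ∈ S` with `a + w k = e`, and these are
all points of `S` of weight `e`.

`bt_le`: `w i = 1 ≤ e`; for `k ≠ i` from `hB.pt`.
`bt_pt`: `a = e - w k` in `hB.pt`. `bt_wd`: `wd_add`, `wd_single`, `w i = 1`: `(e - w k) * 1 + 1 * w k = e`.
`bt_exp`: `single i b ∈ S`: `hF.ge`: `e ≤ wd w (single i b) = b * w i = b`.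
`bt_unique_fac`: `e = e'`: `bt_exp` twice (`hB.ax`, `hB'.ax`). For `k ≠ i` the point `single i (e - w k) + single k 1 ∈ S` has weight `≥ e'` for `w'`:
`(e - w k) + w' k ≥ e`, so `w' k ≥ w k`; by symmetry `w = w'` (at `i` both are `1`).
`bt_unique_axis`: suppose `i ≠ i'`. `single i' e ∈ S` has weight `e * w i' = e` (`w i' = 1` by `hB'.one`), so by `hB.only` it is `single i e` (then evaluate at `i'`:
`e = 0`) or `single i a + single k 1`, `k ≠ i`: its value at `k` is `1`, so `k = i'` (otherwise the value of `single i' e` at `k` is `0`) and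
`e = 1`; contradiction to `2 ≤ e`.
`bt_pt_SB`: `single i (e - w k) + single k 1 ∈ S` is not a power `single i' b` of a variable with a B-facet `(w', e')`: its value at `k` is `≥ 1`, so
`i' = k` and (value at `i`) `e - w k = 0`, `b = 1`: so `single k 1 ∈ S`, and `bt_exp` for `(w', e')` gives `e' ≤ 1`, contradiction to `2 ≤ e'`.
`bt_SB_sum`: `m ∈ SB S`: if `m k = 0` for all `k ≠ i` then `m = single i (m i)`, contradiction to `mem_SB`.
-/

open MvPolynomial

namespace MotMono
namespace NC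

open WH

namespace Po

variable {N r : ℕ}

theorem bt_le {S : Finset (Fin N →₀ ℕ)} {w : Fin N → ℕ} {e : ℕ} {i : Fin N} (hB : BT S w e i)
    (k : Fin N) : w k ≤ e := by
  by_cases h : k = i
  · have h1 := hB.one
    have h2 := hB.two
    rw [h, h1]
    omega
  · obtain ⟨a, _, ha⟩ := hB.pt k h
    omega

theorem bt_pt {S : Finset (Fin N →₀ ℕ)} {w : Fin N → ℕ} {e : ℕ} {i : Fin N} (hB : BT S w e i)
    {k : Fin N} (hk : k ≠ i) : Finsupp.single i (e - w k) + Finsupp.single k 1 ∈ S := by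
  obtain ⟨a, h1, ha⟩ := hB.pt k hk
  have h2 : e - w k = a := by omega
  rw [h2]
  exact h1

theorem bt_wd {S : Finset (Fin N →₀ ℕ)} {w : Fin N → ℕ} {e : ℕ} {i : Fin N} (hB : BT S w e i)
    (k : Fin N) : wd w (Finsupp.single i (e - w k) + Finsupp.single k 1) = e := by
  have h := bt_le hB k
  rw [wd_add, wd_single, wd_single, hB.one, mul_one, one_mul]
  omega

theorem bt_exp {S : Finset (Fin N →₀ ℕ)} {w : Fin N → ℕ} {e : ℕ} {i : Fin N} (hF : Fac S w e)
    (hB : BT S w e i) {b : ℕ} (hb : Finsupp.single i b ∈ S) : e ≤ b := by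
  have h := hF.ge _ hb
  rw [wd_single, hB.one, mul_one] at h
  exact h

theorem bt_unique_fac {S : Finset (Fin N →₀ ℕ)} {w w' : Fin N → ℕ} {e e' : ℕ} {i : Fin N}
    (hF : Fac S w e) (hB : BT S w e i) (hF' : Fac S w' e') (hB' : BT S w' e' i) :
    w = w' ∧ e = e' := by
  have he : e = e' := le_antisymm (bt_exp hF hB hB'.ax) (bt_exp hF' hB' hB.ax)
  subst he
  refine ⟨?_, rfl⟩
  funext k
  by_cases hk : k = i
  · rw [hk, hB.one, hB'.one]
  · have h1 := hF'.ge _ (bt_pt hB hk)
    have h2 := hF.ge _ (bt_pt hB' hk)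
    rw [wd_add, wd_single, wd_single, hB'.one, mul_one, one_mul] at h1
    rw [wd_add, wd_single, wd_single, hB.one, mul_one, one_mul] at h2
    have h3 := bt_le hB k
    have h4 := bt_le hB' k
    omega

theorem bt_unique_axis {S : Finset (Fin N →₀ ℕ)} {w : Fin N → ℕ} {e : ℕ} {i i' : Fin N}
    (hB : BT S w e i) (hB' : BT S w e i') : i = i' := by
  by_contra hne
  have he := hB.two
  have h1 : wd w (Finsupp.single i' e) = e := by rw [wd_single, hB'.one, mul_one]
  rcases hB.only _ hB'.ax h1 with h | ⟨k, hk, a, h⟩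
  · have h2 := DFunLike.congr_fun h i'
    rw [Finsupp.single_eq_same, Finsupp.single_eq_of_ne (Ne.symm hne)] at h2
    omega
  · have h2 := DFunLike.congr_fun h k
    rw [Finsupp.add_apply, Finsupp.single_eq_same, Finsupp.single_eq_of_ne hk] at h2
    by_cases hk' : k = i'
    · rw [hk', Finsupp.single_eq_same] at h2
      omega
    · rw [Finsupp.single_eq_of_ne hk'] at h2
      omega

theorem bt_pt_SB {S : Finset (Fin N →₀ ℕ)} {w : Fin N → ℕ} {e : ℕ} {i : Fin N}
    (hB : BT S w e i) {k : Fin N} (hk : k ≠ i) :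
    Finsupp.single i (e - w k) + Finsupp.single k 1 ∈ SB S := by
  refine mem_SB.2 ⟨bt_pt hB hk, fun w' e' i' hF' hB' b heq => ?_⟩
  have h2 := DFunLike.congr_fun heq k
  rw [Finsupp.add_apply, Finsupp.single_eq_same, Finsupp.single_eq_of_ne hk] at h2
  by_cases hk' : k = i'
  · subst hk'
    rw [Finsupp.single_eq_same] at h2
    have h3 := bt_pt hB hk
    rw [heq] at h3
    have h4 := bt_exp hF' hB' h3
    have h5 := hB'.two
    omega
  · rw [Finsupp.single_eq_of_ne hk'] at h2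
    omega

theorem bt_SB_sum {S : Finset (Fin N →₀ ℕ)} {w : Fin N → ℕ} {e : ℕ} {i : Fin N} (hF : Fac S w e)
    (hB : BT S w e i) {m : Fin N →₀ ℕ} (hm : m ∈ SB S) :
    1 ≤ ∑ k ∈ Finset.univ.erase i, m k := by
  by_contra hc
  have h0 : ∑ k ∈ Finset.univ.erase i, m k = 0 := by omega
  have h1 : ∀ k, k ≠ i → m k = 0 := fun k hk =>
    (Finset.sum_eq_zero_iff.1 h0) k (Finset.mem_erase.2 ⟨hk, Finset.mem_univ k⟩)
  refine (mem_SB.1 hm).2 w e i hF hB (m i) ?_
  ext k
  by_cases hk : k = i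
  · rw [hk, Finsupp.single_eq_same]
  · rw [h1 k hk, Finsupp.single_eq_of_ne hk]

end Po
end NC
end MotMono
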