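import Pool.Agent.Lib.MP_4e5fcd_ag.NC.P7

/-!
# NC-P8: the jets along which the monomials of `SB S` vanish to order `K`

`mem_QB_lt`: for `γ ∈ QB w e i h K n`, `h ∈ HR e K`, `k ≠ i`: `od γ k ≥ K - (e - w k) h > h * w k` because `K > e h` and `w k ≤ e` (`bt_le`), i.e.
`K ≤ od γ k + (e - w k) * h` and `h * e < K` give `h * w k < od γ k` (`(e - w k) * h + w k * h = e * h`).

`QB_OS`: `1 ≤ od γ i = h`, `1 ≤ od γ k` for `k ≠ i` by `mem_QB_lt`. Let `m ∈ SB S`. `wd (od γ) m = m i * h + ∑_{k ≠ i} m k * od γ k` and for `k ≠ i`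
`od γ k ≥ h * w k + (K - h e)` (from `K ≤ od γ k + (e - w k) h`, as natural numbers with `h e < K`), so
`wd (od γ) m ≥ h * wd w m + (∑_{k ≠ i} m k) * (K - h e) ≥ h * e + (K - h * e) = K` (`w i = 1`, `hF.ge` because `m ∈ S`, `bt_SB_sum`).

`QB_not_OS`: `single i e ∈ S` (`hB.ax`) has `wd (od γ) (single i e) = e * h < K`.

`mem_OS_SB`: `←`: `OS S n K ⊆ OS (SB S) n K` because `SB S ⊆ S`; `QB_OS`. `→`: `γ ∈ OS (SB S) n K`, not in `OS S n K`: there is `m ∈ S` with `wd (od γ) m < K`, so `m ∉ SB S`: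
`m = single i b`, `Fac S w e`, `BT S w e i` (`mem_SB`, push_neg). `h := od γ i ≥ 1`. `e ≤ b` (`bt_exp`), so `h * e ≤ b * od γ i = wd (od γ) m < K` (`wd_single`): `h ∈ HR e K`
(`mem_HR`). For `k ≠ i`: `single i (e - w k) + single k 1 ∈ SB S` (`bt_pt_SB`), so `K ≤ (e - w k) * h + od γ k`. `(w, e) ∈ FB S` by `mem_FB`.

`QS_disjoint`: `γ ∈ QB w e i h K n` and `γ ∈ QB w' e' i' h' K n`. If `i = i'`: `(w, e) = (w', e')` by `bt_unique_fac`, `h = od γ i = h'`. If `i ≠ i'`: `mem_QB_lt` for `k = i'`: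
`h * w i' < od γ i' = h'`, so `h < h'` (`w i' ≥ 1`, `hB.pos`), and by symmetry `h' < h`. Contradiction.
-/

open MvPolynomial

namespace MotMono
namespace NC

open WH

namespace Po

variable {N r : ℕ}

theorem mem_QB_lt {S : Finset (Fin N →₀ ℕ)} {w : Fin N → ℕ} {e : ℕ} {i : Fin N} (hB : BT S w e i)
    {h K n : ℕ} (hh : h ∈ HR e K) {γ : Fin N × Fin (n + 1) → ℂ} (hγ : γ ∈ QB w e i h K n)
    {k : Fin N} (hk : k ≠ i) : h * w k < od γ k := by
  have he : 0 < e := lt_of_lt_of_le Nat.zero_lt_two hB.two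
  obtain ⟨-, h1⟩ := (mem_HR he).1 hh
  have h2 := hγ.2 k hk
  have h3 : (e - w k) * h + h * w k = h * e := by
    have h4 := bt_le hB k
    calc (e - w k) * h + h * w k = ((e - w k) + w k) * h := by ring
      _ = h * e := by rw [Nat.sub_add_cancel h4, mul_comm]
  omega

theorem QB_OS {S : Finset (Fin N →₀ ℕ)} {w : Fin N → ℕ} {e : ℕ} {i : Fin N} (hF : Fac S w e)
    (hB : BT S w e i) {h K n : ℕ} (hh : h ∈ HR e K) {γ : Fin N × Fin (n + 1) → ℂ}
    (hγ : γ ∈ QB w e i h K n) : γ ∈ OS (SB S) n K := by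
  classical
  obtain ⟨h1, h2⟩ := (mem_HR hF.pos).1 hh
  have hod : ∀ k, h * w k + (if k = i then 0 else K - h * e) ≤ od γ k := by
    intro k
    by_cases hk : k = i
    · rw [if_pos hk, hk, hB.one, mul_one, add_zero, hγ.1]
    · rw [if_neg hk]
      have h3 := hγ.2 k hk
      have h4 : (e - w k) * h + h * w k = h * e := by
        have h5 := bt_le hB k
        calc (e - w k) * h + h * w k = ((e - w k) + w k) * h := by ring
          _ = h * e := by rw [Nat.sub_add_cancel h5, mul_comm]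
      omega
  refine ⟨fun k => ?_, fun m hm => ?_⟩
  · by_cases hk : k = i
    · rw [hk, hγ.1]
      exact h1
    · have := mem_QB_lt hB hh hγ hk
      omega
  · have h3 : wd (fun k => h * w k + (if k = i then 0 else K - h * e)) m ≤ wd (od γ) m :=
      wd_mono fun k _ => hod k
    have h4 : wd (fun k => h * w k + (if k = i then 0 else K - h * e)) m =
        h * wd w m + (K - h * e) * ∑ k ∈ Finset.univ.erase i, m k := by
      unfold wd
      rw [Finset.mul_sum, Finset.mul_sum]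
      have h5 : ∀ k, m k * (h * w k + (if k = i then 0 else K - h * e)) =
          h * (m k * w k) + (if k = i then 0 else (K - h * e) * m k) := by
        intro k
        by_cases hk : k = i
        · rw [if_pos hk, if_pos hk]
          ring
        · rw [if_neg hk, if_neg hk]
          ring
      rw [Finset.sum_congr rfl fun k _ => h5 k, Finset.sum_add_distrib]
      congr 1
      rw [← Finset.add_sum_erase _ _ (Finset.mem_univ i), if_pos rfl, zero_add]
      exact Finset.sum_congr rfl fun k hk => if_neg (Finset.ne_of_mem_erase hk)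
    have h5 := bt_SB_sum hF hB hm
    have h6 : h * e ≤ h * wd w m := Nat.mul_le_mul_left _ (hF.ge m (mem_SB.1 hm).1)
    have h7 : (K - h * e) * 1 ≤ (K - h * e) * ∑ k ∈ Finset.univ.erase i, m k :=
      Nat.mul_le_mul_left _ h5
    omega

theorem QS_not_OS {S : Finset (Fin N →₀ ℕ)} {w : Fin N → ℕ} {e : ℕ} {h K n : ℕ} (he : 0 < e)
    (hh : h ∈ HR e K) {γ : Fin N × Fin (n + 1) → ℂ} (hγ : γ ∈ QS S w e h K n) :
    γ ∉ OS S n K := by
  obtain ⟨i, hB, hγ1, -⟩ := hγ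
  intro h1
  have h2 := h1.2 _ hB.ax
  have h3 := ((mem_HR he).1 hh).2
  rw [wd_single, hγ1, mul_comm] at h2
  omega

theorem mem_OS_SB (S : Finset (Fin N →₀ ℕ)) {n K : ℕ} (γ : Fin N × Fin (n + 1) → ℂ) :
    γ ∈ OS (SB S) n K ↔ γ ∈ OS S n K ∨
      ∃ p ∈ FB S, ∃ h ∈ HR p.2 K, γ ∈ QS S p.1 p.2 h K n := by
  constructor
  · intro hγ
    by_cases hS : γ ∈ OS S n K
    · exact Or.inl hS
    · right
      have h1 : ∃ m ∈ S, wd (od γ) m < K := by
        by_contra hcon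
        push Not at hcon
        exact hS ⟨hγ.1, hcon⟩
      obtain ⟨m, hm, hmK⟩ := h1
      have h2 : m ∉ SB S := fun h => absurd (hγ.2 m h) (not_le.2 hmK)
      rw [mem_SB] at h2
      push Not at h2
      obtain ⟨w, e, i, hF, hB, b, rfl⟩ := h2 hm
      have h3 := bt_exp hF hB hm
      rw [wd_single] at hmK
      have h4 : od γ i * e ≤ b * od γ i := by
        rw [mul_comm (od γ i) e]
        exact Nat.mul_le_mul_right _ h3
      refine ⟨(w, e), mem_FB.2 ⟨hF, i, hB⟩, od γ i, (mem_HR hF.pos).2 ⟨hγ.1 i, by omega⟩,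
        i, hB, rfl, fun k hk => ?_⟩
      have h5 := hγ.2 _ (bt_pt_SB hB hk)
      rw [wd_add, wd_single, wd_single, one_mul] at h5
      rw [add_comm]
      exact h5
  · rintro (hγ | ⟨p, hp, h, hh, i, hB, hγ⟩)
    · exact ⟨hγ.1, fun m hm => hγ.2 m (mem_SB.1 hm).1⟩
    · exact QB_OS (mem_FB.1 hp).1 hB hh hγ

theorem QS_disjoint {S : Finset (Fin N →₀ ℕ)} {p p' : (Fin N → ℕ) × ℕ} {h h' K n : ℕ}
    (hp : p ∈ FB S) (hp' : p' ∈ FB S) (hh : h ∈ HR p.2 K) (hh' : h' ∈ HR p'.2 K)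
    {γ : Fin N × Fin (n + 1) → ℂ} (hγ : γ ∈ QS S p.1 p.2 h K n)
    (hγ' : γ ∈ QS S p'.1 p'.2 h' K n) : p = p' ∧ h = h' := by
  obtain ⟨i, hB, hγ⟩ := hγ
  obtain ⟨i', hB', hγ'⟩ := hγ'
  by_cases hi : i = i'
  · subst hi
    obtain ⟨h1, h2⟩ := bt_unique_fac (mem_FB.1 hp).1 hB (mem_FB.1 hp').1 hB'
    exact ⟨Prod.ext h1 h2, hγ.1.symm.trans hγ'.1⟩
  · exfalso
    have h1 := mem_QB_lt hB hh hγ (Ne.symm hi)
    have h2 := mem_QB_lt hB' hh' hγ' hi
    rw [hγ'.1] at h1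
    rw [hγ.1] at h2
    have h3 : h * 1 ≤ h * p.1 i' := Nat.mul_le_mul_left _ (hB.pos i')
    have h4 : h' * 1 ≤ h' * p'.1 i := Nat.mul_le_mul_left _ (hB'.pos i)
    omega

end Po
end NC
end MotMono
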