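import Pool.Agent.Lib.MP_4e5fcd_ag.NC.P1
import Pool.Agent.Lib.MP_4e5fcd_ag.NC.P8

/-!
# NC-P9: the measure of `QB`

`box`: copy of `h2_box` (Mon/H2.lean, 45 lines, imports only `K2` and `C1`; its auxiliary lemma `h2_cls_ne` too), made private.

`QB_box`: `h ∈ HR e K`, so `1 ≤ h < K ≤ n` (`h ≤ h * e`). `od γ i = h` iff `γ (i, l) = 0` for `l < h` and `γ (i, h) ≠ 0` (`od_eq_iff`). For `k ≠ i`:
`K ≤ od γ k + (e - w k) h` iff `K - (e - w k) h ≤ od γ k` iff `γ (k, l) = 0` for `l < K - (e - w k) h` (`le_od_iff`). So `QB w e i h K n` is the box with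
`Z q := q.2 < oo q.1`, `F q := q.1 = i ∧ q.2 = h`, `oo i = h`, `oo k = K - (e - w k) h` for `k ≠ i`.

`cls_QB`: `h2_box` gives `cls = ∏ k, ∏ l, (if l < oo k then 1 else if k = i ∧ l = h then LL - 1 else LL)` (`Fintype.prod_prod_type`). The factor `k = i` is
`(LL - 1) * LL ^ (n - h)`, the factor `k ≠ i` is `LL ^ (n + 1 - oo k)` (`Finset.prod_ite`, cardinalities; `Fin.prod_univ_eq_prod_range` may help).

`val_QB`: multiply by `Lu ^ (-(N (n + 1)))`: the exponent is (in `ℤ`) `(n - h) + ∑_{k ≠ i} (n + 1 - K + (e - w k) h) - N (n + 1)`; note `K - (e - w k) h ≥ 0` is exact: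
`(e - w k) h ≤ e h < K`. With `N = r + 1`, `w i = 1`, `∑_{k ≠ i} w k = W - 1` (`W = ∑ w k`) and `#{k ≠ i} = r`: it is
`n - h + r (n + 1) - r K + r e h - (W - 1) h - (r + 1) (n + 1) = -1 - r K + r e h - W h`, and `-(N + h W + r (K - 1 - h e)) = -(r + 1) - h W - r K + r + r h e`
is the same. (`e1_LL_pow` (WH/E1): `algebraMap (LL ^ k) * Lu ^ a = Lu ^ (k + a)`; copy it.)
-/

open MvPolynomial

namespace MotMono
namespace NC

open WH

namespace Po

variable {N r : ℕ}

private theorem p9_cls_ne : cls ({x : Unit → ℂ | x () ≠ 0}) = LL - 1 := by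
  have h : ({x : Unit → ℂ | x () ≠ 0}) = Set.univ \ {0} := by
    ext x
    simp only [Set.mem_ofPred_eq, Set.mem_sdiff, Set.mem_univ, true_and, Set.mem_singleton_iff]
    refine ⟨fun h h2 => h (by rw [h2]; rfl), fun h h2 => h ?_⟩
    funext u
    exact h2
  rw [h, cls_diff constr_univ (constr_singleton 0) (Set.subset_univ _), cls_singleton]
  rfl

open Classical in
private theorem p9_box {σ : Type} [Fintype σ] (Z F : σ → Prop) :
    Constr {w : σ → ℂ | ∀ x, (Z x → w x = 0) ∧ (¬ Z x → F x → w x ≠ 0)} ∧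
    cls {w : σ → ℂ | ∀ x, (Z x → w x = 0) ∧ (¬ Z x → F x → w x ≠ 0)} =
      ∏ x, (if Z x then 1 else if F x then LL - 1 else LL) := by
  let G : σ → Set (Unit → ℂ) := fun x =>
    if Z x then {0} else if F x then {y | y () ≠ 0} else Set.univ
  have hG : ∀ x, Constr (G x) := by
    intro x
    simp only [G]
    split_ifs
    · exact constr_singleton 0
    · have := constr_ne (X () : MvPolynomial Unit ℂ)
      simpa using this
    · exact constr_univ
  have hcl : ∀ x, cls (G x) = if Z x then 1 else if F x then LL - 1 else LL := by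
    intro x
    simp only [G]
    split_ifs
    · exact cls_singleton 0
    · exact p9_cls_ne
    · rfl
  have h1 := cls_levels hG
  have e : {y : Unit × σ → ℂ | (fun i => y ((Equiv.punitProd σ).symm i)) ∈
      {w : σ → ℂ | ∀ x, (Z x → w x = 0) ∧ (¬ Z x → F x → w x ≠ 0)}} =
      {γ : Unit × σ → ℂ | ∀ l, (fun i => γ (i, l)) ∈ G l} := by
    ext y
    simp only [Set.mem_ofPred_eq]
    refine forall_congr' fun x => ?_
    simp only [G]
    have hx : ((Equiv.punitProd σ).symm x) = ((), x) := rfl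
    rw [hx]
    by_cases hz : Z x
    · simp only [hz, true_imp_iff, not_true, false_imp_iff, and_true, if_true,
        Set.mem_singleton_iff]
      refine ⟨fun h => ?_, fun h => congrFun h ()⟩
      funext u
      exact h
    · by_cases hf : F x
      · simp [hz, hf]
      · simp [hz, hf]
  have hr := RegIso.reindex (Equiv.punitProd σ).symm
    {w : σ → ℂ | ∀ x, (Z x → w x = 0) ∧ (¬ Z x → F x → w x ≠ 0)}
  rw [e] at hr
  have hc : Constr {w : σ → ℂ | ∀ x, (Z x → w x = 0) ∧ (¬ Z x → F x → w x ≠ 0)} := by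
    have := (constr_levels hG).comp (fun q : Unit × σ => q.2)
    have h3 : {x : σ → ℂ | (fun j : Unit × σ => x j.2) ∈
        {γ : Unit × σ → ℂ | ∀ l, (fun i => γ (i, l)) ∈ G l}} =
        {w : σ → ℂ | ∀ x, (Z x → w x = 0) ∧ (¬ Z x → F x → w x ≠ 0)} := by
      rw [← e]
      rfl
    rwa [h3] at this
  refine ⟨hc, ?_⟩
  rw [cls_iso hc (constr_levels hG) hr, h1]
  exact Finset.prod_congr rfl fun x _ => hcl x

private theorem p9_prodA {M : Type*} [CommMonoid M] (x : M) (m o : ℕ) :
    ∏ l ∈ Finset.range m, (if l < o then 1 else x) = x ^ (m - o) := by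
  induction m with
  | zero => simp
  | succ m ih =>
    rw [Finset.prod_range_succ, ih]
    by_cases h : m < o
    · rw [if_pos h, Nat.sub_eq_zero_of_le h.le, Nat.sub_eq_zero_of_le h, pow_zero, mul_one]
    · rw [if_neg h, ← pow_succ]
      congr 1
      omega

private theorem p9_prodB {M : Type*} [CommMonoid M] (x y : M) (m h : ℕ) (hm : h < m) :
    ∏ l ∈ Finset.range m, (if l < h then 1 else if l = h then y else x) = y * x ^ (m - 1 - h) := by
  induction m with
  | zero => omega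
  | succ m ih =>
    rw [Finset.prod_range_succ]
    by_cases h1 : h = m
    · subst h1
      rw [if_neg (lt_irrefl _), if_pos rfl]
      have h2 : ∏ l ∈ Finset.range h, (if l < h then 1 else if l = h then y else x) = 1 := by
        refine Finset.prod_eq_one fun l hl => ?_
        rw [if_pos (Finset.mem_range.1 hl)]
      rw [h2, one_mul, Nat.add_sub_cancel, Nat.sub_self, pow_zero, mul_one]
    · have h2 : h < m := by omega
      rw [ih h2, if_neg (by omega), if_neg (by omega), mul_assoc, ← pow_succ]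
      congr 2
      omega

open Classical in
private theorem p9_eq {w : Fin N → ℕ} {e : ℕ} {i : Fin N} {h K n : ℕ} (he : 0 < e)
    (hh : h ∈ HR e K) (hn : K ≤ n) :
    QB w e i h K n = {γ : Fin N × Fin (n + 1) → ℂ | ∀ x : Fin N × Fin (n + 1),
      ((x.2 : ℕ) < (if x.1 = i then h else K - (e - w x.1) * h) → γ x = 0) ∧
      (¬ (x.2 : ℕ) < (if x.1 = i then h else K - (e - w x.1) * h) →
        (x.1 = i ∧ (x.2 : ℕ) = h) → γ x ≠ 0)} := by
  obtain ⟨h1, h2⟩ := (mem_HR he).1 hh
  have hhe : h ≤ h * e := Nat.le_mul_of_pos_right h he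
  have hhn : h < n + 1 := by omega
  ext γ
  constructor
  · rintro ⟨g1, g2⟩ ⟨k, l⟩
    have hz : (l : ℕ) < (if k = i then h else K - (e - w k) * h) → γ (k, l) = 0 := by
      intro hl
      by_cases hk : k = i
      · rw [if_pos hk] at hl
        refine od_zero ?_
        rw [hk, g1]
        exact hl
      · rw [if_neg hk] at hl
        refine od_zero ?_
        have := g2 k hk
        omega
    refine ⟨hz, ?_⟩
    rintro - ⟨hk, hl⟩
    simp only at hk hl
    subst hk
    have h3 := ((od_eq_iff γ k hhn).1 g1).2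
    have h4 : l = ⟨h, hhn⟩ := Fin.ext hl
    rw [h4]
    exact h3
  · intro hγ
    refine ⟨(od_eq_iff γ i hhn).2 ⟨?_, ?_⟩, ?_⟩
    · intro l hl
      refine (hγ (i, l)).1 ?_
      simpa using hl
    · refine (hγ (i, ⟨h, hhn⟩)).2 ?_ ⟨rfl, rfl⟩
      simp
    · intro k hk
      have h3 : K - (e - w k) * h ≤ od γ k := by
        refine (le_od_iff γ k (by omega)).2 fun l hl => (hγ (k, l)).1 ?_
        simp only [if_neg hk]
        exact hl
      omega

theorem constr_QB {w : Fin N → ℕ} {e : ℕ} {i : Fin N} {h K n : ℕ} (he : 0 < e)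
    (hh : h ∈ HR e K) (hn : K ≤ n) : Constr (QB w e i h K n) := by
  classical
  rw [p9_eq he hh hn]
  exact (p9_box (fun x : Fin N × Fin (n + 1) =>
    (x.2 : ℕ) < (if x.1 = i then h else K - (e - w x.1) * h))
    (fun x => x.1 = i ∧ (x.2 : ℕ) = h)).1

theorem cls_QB {w : Fin N → ℕ} {e : ℕ} {i : Fin N} {h K n : ℕ} (he : 0 < e)
    (hh : h ∈ HR e K) (hn : K ≤ n) :
    cls (QB w e i h K n) = (LL - 1) * LL ^ (n - h) *
      ∏ k ∈ Finset.univ.erase i, LL ^ (n + 1 - (K - (e - w k) * h)) := by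
  classical
  obtain ⟨h1, h2⟩ := (mem_HR he).1 hh
  have hhe : h ≤ h * e := Nat.le_mul_of_pos_right h he
  have hhn : h < n + 1 := by omega
  rw [p9_eq he hh hn, (p9_box (fun x : Fin N × Fin (n + 1) =>
    (x.2 : ℕ) < (if x.1 = i then h else K - (e - w x.1) * h))
    (fun x => x.1 = i ∧ (x.2 : ℕ) = h)).2, Fintype.prod_prod_type,
    ← Finset.mul_prod_erase Finset.univ _ (Finset.mem_univ i)]
  congr 1
  · trans ∏ l : Fin (n + 1),
      (fun l : ℕ => if l < h then (1 : K0) else if l = h then LL - 1 else LL) (l : ℕ)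
    · refine Finset.prod_congr rfl fun l _ => ?_
      simp only [if_true, true_and]
    · rw [Fin.prod_univ_eq_prod_range
        (fun l : ℕ => if l < h then (1 : K0) else if l = h then LL - 1 else LL) (n + 1),
        p9_prodB _ _ _ _ hhn]
      congr 2
  · refine Finset.prod_congr rfl fun k hk => ?_
    have hki : k ≠ i := Finset.ne_of_mem_erase hk
    trans ∏ l : Fin (n + 1),
      (fun l : ℕ => if l < K - (e - w k) * h then (1 : K0) else LL) (l : ℕ)
    · refine Finset.prod_congr rfl fun l _ => ?_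
      simp only [hki, if_false, false_and]
    · rw [Fin.prod_univ_eq_prod_range
        (fun l : ℕ => if l < K - (e - w k) * h then (1 : K0) else LL) (n + 1), p9_prodA]

private theorem p9_LL_pow (k : ℕ) (a : ℤ) :
    algebraMap K0 MC (LL ^ k) * ((Lu ^ a : MCˣ) : MC) = ((Lu ^ ((k : ℤ) + a) : MCˣ) : MC) := by
  have h1 : algebraMap K0 MC LL = ((Lu : MCˣ) : MC) := by
    unfold Lu
    rw [IsUnit.unit_spec]
  rw [map_pow, h1, ← Units.val_pow_eq_pow_val, ← Units.val_mul, ← zpow_natCast, ← zpow_add]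

theorem val_QB {S : Finset (Fin N →₀ ℕ)} {w : Fin N → ℕ} {e : ℕ} {i : Fin N} (hr : r + 1 = N)
    (hF : Fac S w e) (hB : BT S w e i) {h K n : ℕ} (hh : h ∈ HR e K) (hn : K ≤ n) :
    algebraMap K0 MC (cls (QB w e i h K n)) * ((Lu ^ (-(N * (n + 1) : ℤ)) : MCˣ) : MC) =
      algebraMap K0 MC (LL - 1) *
        ((Lu ^ (-((N + h * (∑ i, w i) + r * (K - 1 - h * e) : ℕ) : ℤ)) : MCˣ) : MC) := by
  classical
  have he : 0 < e := hF.pos
  obtain ⟨h1, h2⟩ := (mem_HR he).1 hh
  have hhe : h ≤ h * e := Nat.le_mul_of_pos_right h he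
  rw [cls_QB he hh hn, Finset.prod_pow_eq_pow_sum, mul_assoc, ← pow_add, map_mul, mul_assoc,
    p9_LL_pow]
  congr 4
  have hterm : ∀ k ∈ Finset.univ.erase i, ((n + 1 - (K - (e - w k) * h) : ℕ) : ℤ) =
      ((n : ℤ) + 1 - K + e * h) - h * w k := by
    intro k _
    have hk := bt_le hB k
    have h3 : (e - w k) * h ≤ h * e := by
      rw [mul_comm h e]
      exact Nat.mul_le_mul_right _ (Nat.sub_le _ _)
    have h4 : ((e - w k) * h : ℕ) = ((e : ℤ) - w k) * h := by
      rw [Nat.cast_mul, Nat.cast_sub hk]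
    have h5 : ((K - (e - w k) * h : ℕ) : ℤ) = (K : ℤ) - ((e : ℤ) - w k) * h := by
      rw [Nat.cast_sub (by omega), h4]
    rw [Nat.cast_sub (by omega), h5]
    push_cast
    ring
  have hcard : ((Finset.univ.erase i : Finset (Fin N)).card : ℤ) = r := by
    rw [Finset.card_erase_of_mem (Finset.mem_univ i), Finset.card_univ, Fintype.card_fin, ← hr,
      Nat.add_sub_cancel]
  have hW : ∑ k ∈ Finset.univ.erase i, (w k : ℤ) = ((∑ k, w k : ℕ) : ℤ) - 1 := by
    have h3 := Finset.add_sum_erase Finset.univ (fun k => (w k : ℤ)) (Finset.mem_univ i)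
    simp only [hB.one] at h3
    push_cast at h3 ⊢
    linarith
  have hsum : ((∑ k ∈ Finset.univ.erase i, (n + 1 - (K - (e - w k) * h)) : ℕ) : ℤ) =
      r * ((n : ℤ) + 1 - K + e * h) - h * (((∑ k, w k : ℕ) : ℤ) - 1) := by
    rw [Nat.cast_sum, Finset.sum_congr rfl hterm, Finset.sum_sub_distrib, Finset.sum_const,
      ← Finset.mul_sum, hW, nsmul_eq_mul, hcard]
  have hK1 : ((K - 1 - h * e : ℕ) : ℤ) = (K : ℤ) - 1 - h * e := by
    rw [Nat.sub_sub, Nat.cast_sub (by omega)]
    push_cast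
    ring
  have hnh : ((n - h : ℕ) : ℤ) = (n : ℤ) - h := by
    rw [Nat.cast_sub (by omega)]
  have hN : (N : ℤ) = r + 1 := by
    rw [← hr]
    push_cast
    ring
  rw [Nat.cast_add, hnh, hsum, Nat.cast_add, Nat.cast_add, Nat.cast_mul, Nat.cast_mul, hK1, hN]
  ring

end Po
end NC
end MotMono
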