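import Pool.Agent.Lib.MP_4e5fcd_ag.NC.Fa
import Pool.Agent.Lib.MP_4e5fcd_ag.WH.A2

/-!
# NC-PDefs: notation for the poles

`S` is a finite set of exponents, `0 ∉ S`. `od γ i` is the order of the coordinate `i` of the jet `γ`.
-/

open MvPolynomial

namespace MotMono
namespace NC

open WH

namespace Po

variable {N r : ℕ}

/-- the orders of the coordinates of a jet (`n + 1` if the coordinate is zero) -/
noncomputable def od {n : ℕ} (γ : Fin N × Fin (n + 1) → ℂ) (i : Fin N) : ℕ :=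
  Mon.ord1 fun l => γ (i, l)

/-- the monomials with exponents in `S` -/
noncomputable def mons (S : Finset (Fin N →₀ ℕ)) : Fin S.card → MvPolynomial (Fin N) ℂ :=
  fun j => monomial (S.equivFin.symm j : Fin N →₀ ℕ) 1

/-- the jets at the origin along which all monomials with exponents in `S` vanish to order `K`
(for `K ≤ n + 1`) -/
def OS (S : Finset (Fin N →₀ ℕ)) (n K : ℕ) : Set (Fin N × Fin (n + 1) → ℂ) :=
  {γ | (∀ i, 1 ≤ od γ i) ∧ ∀ m ∈ S, K ≤ wd (od γ) m}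

open Classical in
/-- the compact facets -/
noncomputable def FC (S : Finset (Fin N →₀ ℕ)) : Finset ((Fin N → ℕ) × ℕ) :=
  (finite_fac S).toFinset.filter fun p => ∀ i, 0 < p.1 i

open Classical in
/-- the B-facets -/
noncomputable def FB (S : Finset (Fin N →₀ ℕ)) : Finset ((Fin N → ℕ) × ℕ) :=
  (FC S).filter fun p => ∃ i, BT S p.1 p.2 i

open Classical in
/-- `S` without the powers of the variables `x i` such that there is a B-facet for the axis `i` -/
noncomputable def SB (S : Finset (Fin N →₀ ℕ)) : Finset (Fin N →₀ ℕ) :=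
  S.filter fun m => ∀ w e i, Fac S w e → BT S w e i → ∀ b, m ≠ Finsupp.single i b

/-- the sector `h` of a facet: the coordinate `i` has order exactly `h * w i` -/
def SecA (f : Fin r → MvPolynomial (Fin N) ℂ) (w : Fin N → ℕ) (e h K n : ℕ) :
    Set (Fin N × Fin (n + 1) → ℂ) :=
  SecS w 1 f Finset.univ (VT f w e) h K n 0

/-- the jets with order `h` in the coordinate `i` and order at least `K - (e - w k) * h` in the
coordinate `k`, for all `k ≠ i` -/
def QB (w : Fin N → ℕ) (e : ℕ) (i : Fin N) (h K n : ℕ) : Set (Fin N × Fin (n + 1) → ℂ) :=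
  {γ | od γ i = h ∧ ∀ k, k ≠ i → K ≤ od γ k + (e - w k) * h}

/-- the same, with the axis `i` of a B-facet -/
def QS (S : Finset (Fin N →₀ ℕ)) (w : Fin N → ℕ) (e h K n : ℕ) :
    Set (Fin N × Fin (n + 1) → ℂ) :=
  {γ | ∃ i, BT S w e i ∧ γ ∈ QB w e i h K n}

/-- the range of the sectors -/
def HR (e K : ℕ) : Finset ℕ := (Finset.range K).filter fun h => 1 ≤ h ∧ h * e < K

/-- The measure of the union of the sectors of a facet `(w, e)`; `v` is the class of the set of the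
common zeros, `W = ∑ i, w i`. -/
noncomputable def sect (N r : ℕ) (v : K0) (W e K : ℕ) : MC :=
  ∑ h ∈ HR e K, algebraMap K0 MC v *
    ((Lu ^ (-((N + h * W + r * (K - 1 - h * e) : ℕ) : ℤ)) : MCˣ) : MC)

theorem mem_FC {S : Finset (Fin N →₀ ℕ)} {p : (Fin N → ℕ) × ℕ} :
    p ∈ FC S ↔ Fac S p.1 p.2 ∧ ∀ i, 0 < p.1 i := by
  classical
  rw [FC, Finset.mem_filter, Set.Finite.mem_toFinset]
  rfl

theorem mem_FB {S : Finset (Fin N →₀ ℕ)} {p : (Fin N → ℕ) × ℕ} :
    p ∈ FB S ↔ Fac S p.1 p.2 ∧ ∃ i, BT S p.1 p.2 i := by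
  classical
  rw [FB, Finset.mem_filter, mem_FC]
  exact ⟨fun h => ⟨h.1.1, h.2⟩, fun h => ⟨⟨h.1, h.2.choose_spec.pos⟩, h.2⟩⟩

theorem mem_SB {S : Finset (Fin N →₀ ℕ)} {m : Fin N →₀ ℕ} :
    m ∈ SB S ↔ m ∈ S ∧ ∀ w e i, Fac S w e → BT S w e i → ∀ b, m ≠ Finsupp.single i b := by
  classical
  rw [SB, Finset.mem_filter]

theorem mem_HR {e K h : ℕ} (he : 0 < e) : h ∈ HR e K ↔ 1 ≤ h ∧ h * e < K := by
  rw [HR, Finset.mem_filter, Finset.mem_range]
  refine ⟨fun h => h.2, fun h1 => ⟨?_, h1⟩⟩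
  have := Nat.le_mul_of_pos_right h he
  omega

/-! ### Orders -/

theorem od_le {n : ℕ} (γ : Fin N × Fin (n + 1) → ℂ) (i : Fin N) : od γ i ≤ n + 1 :=
  Nat.sInf_le (fun h => absurd h (lt_irrefl (n + 1)))

theorem od_ne {n : ℕ} {γ : Fin N × Fin (n + 1) → ℂ} {i : Fin N} (h : od γ i < n + 1) :
    γ (i, ⟨od γ i, h⟩) ≠ 0 :=
  Nat.sInf_mem (s := {j | ∀ h : j < n + 1, γ (i, ⟨j, h⟩) ≠ 0})
    ⟨n + 1, fun h => absurd h (lt_irrefl (n + 1))⟩ h

theorem od_zero {n : ℕ} {γ : Fin N × Fin (n + 1) → ℂ} {i : Fin N} {l : Fin (n + 1)}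
    (h : (l : ℕ) < od γ i) : γ (i, l) = 0 := by
  by_contra h0
  exact Nat.notMem_of_lt_sInf h (fun _ => h0)

theorem le_od_iff {n : ℕ} (γ : Fin N × Fin (n + 1) → ℂ) (i : Fin N) {o : ℕ} (ho : o ≤ n + 1) :
    o ≤ od γ i ↔ ∀ l : Fin (n + 1), (l : ℕ) < o → γ (i, l) = 0 := by
  refine ⟨fun h l hl => od_zero (lt_of_lt_of_le hl h), fun h => ?_⟩
  by_contra hc
  have h1 : od γ i < o := not_le.1 hc
  exact od_ne (lt_of_lt_of_le h1 ho) (h ⟨od γ i, lt_of_lt_of_le h1 ho⟩ h1)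

theorem od_eq_iff {n : ℕ} (γ : Fin N × Fin (n + 1) → ℂ) (i : Fin N) {o : ℕ} (ho : o < n + 1) :
    od γ i = o ↔ (∀ l : Fin (n + 1), (l : ℕ) < o → γ (i, l) = 0) ∧ γ (i, ⟨o, ho⟩) ≠ 0 := by
  constructor
  · rintro rfl
    exact ⟨fun l hl => od_zero hl, od_ne ho⟩
  · rintro ⟨h1, h2⟩
    refine le_antisymm ?_ ((le_od_iff γ i ho.le).2 h1)
    by_contra hc
    exact h2 (od_zero (not_le.1 hc))

/-! ### Weights -/

theorem wd_mul (w : Fin N → ℕ) (g : ℕ) (m : Fin N →₀ ℕ) : wd (fun i => g * w i) m = g * wd w m := by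
  unfold wd
  rw [Finset.mul_sum]
  exact Finset.sum_congr rfl fun i _ => by ring

theorem wd_mono {w w' : Fin N → ℕ} {m : Fin N →₀ ℕ} (h : ∀ i, m i ≠ 0 → w i ≤ w' i) :
    wd w m ≤ wd w' m := by
  unfold wd
  refine Finset.sum_le_sum fun i _ => ?_
  by_cases hi : m i = 0
  · rw [hi, zero_mul, zero_mul]
  · exact Nat.mul_le_mul_left _ (h i hi)

theorem mul_le_wd (w : Fin N → ℕ) (m : Fin N →₀ ℕ) (i : Fin N) : m i * w i ≤ wd w m :=
  Finset.single_le_sum (f := fun i => m i * w i) (fun _ _ => Nat.zero_le _) (Finset.mem_univ i)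

theorem wd_single (w : Fin N → ℕ) (i : Fin N) (b : ℕ) : wd w (Finsupp.single i b) = b * w i := by
  classical
  unfold wd
  rw [Finset.sum_eq_single i]
  · rw [Finsupp.single_eq_same]
  · intro j _ hj
    rw [Finsupp.single_eq_of_ne hj, zero_mul]
  · intro h
    exact absurd (Finset.mem_univ i) h

theorem wd_add (w : Fin N → ℕ) (m m' : Fin N →₀ ℕ) : wd w (m + m') = wd w m + wd w m' := by
  unfold wd
  rw [← Finset.sum_add_distrib]
  exact Finset.sum_congr rfl fun i _ => by rw [Finsupp.add_apply]; ring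

end Po
end NC
end MotMono
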