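import Pool.Agent.Lib.MP_4e5fcd_ag.NC.Main
import Pool.Agent.Lib.MP_4e5fcd_ag.CN.E4
import Pool.Agent.Lib.MP_4e5fcd_ag.CN.P3
import Pool.Agent.Lib.MP_4e5fcd_ag.CN.P4
import Pool.Agent.Lib.MP_4e5fcd_ag.CN.V4

/-! # NC-Pull: nondegenerate in suitable coordinates -/

open MvPolynomial

namespace MotMono
namespace NC

open CN

variable {N r : ℕ}

/-- copy of `HY.zmot_pull` -/
private theorem nc_zmot_pull {s₀ : ℚ} {M k : ℕ} (I : Ideal (MvPolynomial (Fin M) ℂ))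
    (G : Ideal (MvPolynomial (Fin k) ℂ)) (h : LocPull I 0 G) (hG : Zmot G ∈ polarRing s₀) :
    Zmot I ∈ polarRing s₀ := by
  obtain ⟨u, e, h, hinj, hh, hj, h0, hpush, hpull⟩ := h
  have c : Chart I G u e h := ⟨hinj, hpush, hpull⟩
  have hΓ : Constr ({0} : Set (Empty ⊕ Fin M → ℂ)) := constr_singleton 0
  have h1 := Zf_chart c hΓ (by
    intro z hz
    rw [Set.mem_singleton_iff] at hz
    subst hz
    exact hh) (by
    intro z hz
    rw [Set.mem_singleton_iff] at hz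
    subst hz
    exact hj)
  rw [Zf_zero I hΓ (by
    intro z hz i
    rw [Set.mem_singleton_iff] at hz
    subst hz
    rfl), cls_singleton, map_one, map_one, one_mul] at h1
  rw [h1]
  refine Subring.mul_mem _ (C_mem_polar s₀ _) ?_
  rw [Zf_zero G (constr_push _ hΓ) (by
    rintro z ⟨hz1, hz2⟩ i
    rw [hz2 i]
    have e1 : (fun j => z (Sum.inl (Sum.inr j))) = (0 : Fin M → ℂ) := by
      rw [Set.mem_singleton_iff] at hz1
      funext j
      exact congrFun hz1 (Sum.inr j)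
    rw [e1]
    exact h0 i)]
  exact Subring.mul_mem _ (C_mem_polar s₀ _) hG

theorem main_pull {χ : K0 →+* ℤ} (hχ : IsEulerCharF χ) {f : Fin r → MvPolynomial (Fin N) ℂ}
    (hr : r + 1 = N) (hr0 : 0 < r) (h0 : ∀ j, eval 0 (f j) = 0) (hf : Nondeg f) {M : ℕ}
    (I : Ideal (MvPolynomial (Fin M) ℂ)) (hI : LocPull I 0 (Ideal.span (Set.range f))) (s₀ : ℚ)
    (hpole : IsPole (Zmot I) s₀) (ε : ℝ) (hε : 0 < ε) :
    ∃ p : Fin M → ℂ, ‖p‖ < ε ∧ (∀ g ∈ I, eval p g = 0) ∧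
      ∃ y : ConePoint I p, y.Nonzero ∧
        ∃ Z, IsZeta (fun m => χ (cls (contactArcs I p y m))) Z ∧
          ZeroOrPole Z (Complex.exp (2 * Real.pi * Complex.I * s₀)) := by
  have h1 : IsPole (Zmot (Ideal.span (Set.range f))) s₀ := fun h => hpole (nc_zmot_pull I _ hI h)
  have h2 := near_of_locPull hχ I 0 _ hI (CN.expo s₀) (near_main hχ hr hr0 h0 hf s₀ h1)
  obtain ⟨p, hp', hv⟩ := h2 ε hε
  rw [sub_zero] at hp'
  obtain ⟨h3, y, hy, Z, hZ, hZP⟩ := CN.cone_of_vis hv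
  exact ⟨p, hp', h3, y, hy, Z, hZ, hZP⟩

end NC
end MotMono
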