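import Pool.Agent.Lib.MP_4e5fcd_ag.NC.RDefs
import Pool.Agent.Lib.MP_4e5fcd_ag.NC.K1

/-!
# NC-R1: a face of the Newton polyhedron from a closed set of exponents

The lemma of Farkas is used twice: it gives weights `w'` which are positive exactly on `J` with `F` in the
face of least weight, and then a small change `u` of a large multiple of `w'`.
-/

open MvPolynomial

namespace MotMono
namespace NC

variable {N : ℕ}

/-- the vector of the exponent `m`, restricted to `K`, with last coordinate `-1` -/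
private def r1v (K : Finset (Fin N)) (m : Fin N →₀ ℕ) : Option (Fin N) → ℤ
  | none => -1
  | some i => if i ∈ K then (m i : ℤ) else 0

/-- the unit vector -/
private def r1e (k : Fin N) : Option (Fin N) → ℤ
  | none => 0
  | some i => if i = k then 1 else 0

private theorem r1v_sum (K : Finset (Fin N)) (m : Fin N →₀ ℕ) (u : Option (Fin N) → ℤ) :
    ∑ o, u o * r1v K m o = ∑ i ∈ K, u (some i) * (m i : ℤ) - u none := by
  rw [Fintype.sum_option]
  have h1 : ∑ i, u (some i) * r1v K m (some i) = ∑ i ∈ K, u (some i) * (m i : ℤ) := by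
    have h2 : ∀ i, u (some i) * r1v K m (some i) = if i ∈ K then u (some i) * (m i : ℤ) else 0 := by
      intro i
      show u (some i) * (if i ∈ K then (m i : ℤ) else 0) = _
      split_ifs
      · rfl
      · rw [mul_zero]
    rw [Finset.sum_congr rfl fun i _ => h2 i, ← Finset.sum_filter]
    congr 1
    ext i
    simp
  rw [h1]
  show u none * (-1) + _ = _
  ring

private theorem r1e_sum (k : Fin N) (u : Option (Fin N) → ℤ) :
    ∑ o, u o * r1e k o = u (some k) := by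
  rw [Fintype.sum_option]
  have h1 : ∑ i, u (some i) * r1e k (some i) = u (some k) := by
    have h2 : ∀ i, u (some i) * r1e k (some i) = if i = k then u (some i) else 0 := by
      intro i
      show u (some i) * (if i = k then 1 else 0) = _
      split_ifs
      · rw [mul_one]
      · rw [mul_zero]
    rw [Finset.sum_congr rfl fun i _ => h2 i, Finset.sum_ite_eq' Finset.univ k]
    simp
  rw [h1]
  show u none * 0 + _ = _
  ring

private theorem r1_sub {T : Type*} [Fintype T] (P : T → Prop) [DecidablePred P]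
    (g : {m // P m} → ℤ) : ∑ x, g x = ∑ m, if h : P m then g ⟨m, h⟩ else 0 := by
  have h1 : ∑ m ∈ Finset.univ.filter P, (if h : P m then g ⟨m, h⟩ else 0) =
      ∑ x : {m // P m}, (if h : P x.1 then g ⟨x.1, h⟩ else 0) :=
    Finset.sum_subtype (Finset.univ.filter P) (fun x => by simp) _
  have h2 : ∑ x : {m // P m}, (if h : P x.1 then g ⟨x.1, h⟩ else 0) = ∑ x, g x :=
    Finset.sum_congr rfl fun x _ => by rw [dif_pos x.2]
  rw [h2] at h1
  rw [← h1, Finset.sum_filter]
  refine Finset.sum_congr rfl fun m _ => ?_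
  split_ifs <;> rfl

private theorem r1_ab (S F : Finset (Fin N →₀ ℕ)) (β : {m // m ∈ S} → ℕ)
    (γ : {m : {m // m ∈ S} // (m : Fin N →₀ ℕ) ∈ F} → ℤ) :
    ∃ a b : {m // m ∈ S} →₀ ℕ, (∀ m, b m ≠ 0 → (m : Fin N →₀ ℕ) ∈ F) ∧
      (∀ g : {m // m ∈ S} → ℤ, ∑ m, (b m : ℤ) * g m - ∑ m, (a m : ℤ) * g m =
        ∑ c, γ c * g c.1 - ∑ m, (β m : ℤ) * g m) ∧ ∀ m, β m ≠ 0 → a m ≠ 0 := by
  classical
  obtain ⟨γ', hγ⟩ : ∃ γ' : {m // m ∈ S} → ℤ, ∀ m, γ' m =
    if h : (m : Fin N →₀ ℕ) ∈ F then γ ⟨m, h⟩ else 0 := ⟨_, fun m => rfl⟩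
  refine ⟨Finsupp.equivFunOnFinite.symm fun m => β m + (-γ' m).toNat,
    Finsupp.equivFunOnFinite.symm fun m => (γ' m).toNat, fun m hm => ?_, fun g => ?_, fun m hm => ?_⟩
  · by_contra hcon
    apply hm
    rw [Finsupp.equivFunOnFinite_symm_apply_apply, hγ, dif_neg hcon]
    rfl
  · simp only [Finsupp.equivFunOnFinite_symm_apply_apply]
    have h1 : ∑ c, γ c * g c.1 = ∑ m, γ' m * g m := by
      rw [r1_sub (fun m : {m // m ∈ S} => (m : Fin N →₀ ℕ) ∈ F) (fun c => γ c * g c.1)]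
      refine Finset.sum_congr rfl fun m _ => ?_
      rw [hγ]
      split_ifs
      · rfl
      · rw [zero_mul]
    rw [h1, ← Finset.sum_sub_distrib, ← Finset.sum_sub_distrib]
    refine Finset.sum_congr rfl fun m _ => ?_
    have h2 : ((γ' m).toNat : ℤ) - ((-γ' m).toNat : ℤ) = γ' m := Int.toNat_sub_toNat_neg _
    push_cast
    linear_combination g m * h2
  · rw [Finsupp.equivFunOnFinite_symm_apply_apply]
    omega

private theorem r1_dg {S : Finset (Fin N →₀ ℕ)} (a : {m // m ∈ S} →₀ ℕ) :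
    (dg a : ℤ) = ∑ m, (a m : ℤ) * 1 := by
  unfold dg
  push_cast
  exact Finset.sum_congr rfl fun m _ => by ring

private theorem r1_ex {S : Finset (Fin N →₀ ℕ)} (a : {m // m ∈ S} →₀ ℕ) (i : Fin N) :
    (ex a i : ℤ) = ∑ m, (a m : ℤ) * ((m : Fin N →₀ ℕ) i : ℤ) := by
  unfold ex
  rw [Finsupp.finsetSum_apply, Nat.cast_sum]
  refine Finset.sum_congr rfl fun m _ => ?_
  rw [Finsupp.smul_apply, smul_eq_mul, Nat.cast_mul]

/-- step A -/
private theorem r1_A (S F : Finset (Fin N →₀ ℕ)) (hFS : F ⊆ S) (hF : F.Nonempty) (J : Finset (Fin N))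
    (h5 : ∀ a b : {m // m ∈ S} →₀ ℕ, (∀ m, b m ≠ 0 → (m : Fin N →₀ ℕ) ∈ F) → dg a = dg b →
      (∀ i ∈ J, ex a i ≤ ex b i) → ∀ i ∈ J, ex a i = ex b i) :
    ∃ (w' : Fin N → ℕ) (d : ℕ), (∀ i, 0 < w' i ↔ i ∈ J) ∧ (∀ m ∈ S, d ≤ wd w' m) ∧
      ∀ m ∈ F, wd w' m = d := by
  classical
  rcases farkas_int (fun k : {k // k ∈ J} => r1e k.1) (fun m : {m // m ∈ S} => r1v J m.1)
    (fun c : {m : {m // m ∈ S} // (m : Fin N →₀ ℕ) ∈ F} => r1v J c.1.1) with
    ⟨u, h1, h2, h3⟩ | ⟨α, β, γ, ⟨k, hk⟩, h⟩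
  · simp only [r1e_sum, r1v_sum] at h1 h2 h3
    obtain ⟨w', hw'⟩ : ∃ w' : Fin N → ℕ, ∀ i, w' i = if i ∈ J then (u (some i)).toNat else 0 :=
      ⟨_, fun i => rfl⟩
    have hu : ∀ i ∈ J, 0 < u (some i) := fun i hi => h1 ⟨i, hi⟩
    have hwd : ∀ m : Fin N →₀ ℕ, (wd w' m : ℤ) = ∑ i ∈ J, u (some i) * (m i : ℤ) := by
      intro m
      unfold wd
      push_cast
      have h4 : ∀ i, (m i : ℤ) * (w' i : ℤ) = if i ∈ J then u (some i) * (m i : ℤ) else 0 := by
        intro i
        rw [hw']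
        split_ifs with hi
        · rw [Int.toNat_of_nonneg (hu i hi).le, mul_comm]
        · simp
      rw [Finset.sum_congr rfl fun i _ => h4 i, ← Finset.sum_filter]
      congr 1
      ext i
      simp
    have hF' : ∀ m ∈ F, (wd w' m : ℤ) = u none := by
      intro m hm
      have := h3 ⟨⟨m, hFS hm⟩, hm⟩
      rw [hwd]
      simp only at this
      linarith
    obtain ⟨m₀, hm₀⟩ := hF
    have hd : 0 ≤ u none := by
      rw [← hF' m₀ hm₀]
      exact Int.natCast_nonneg _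
    refine ⟨w', (u none).toNat, fun i => ?_, fun m hm => ?_, fun m hm => ?_⟩
    · rw [hw']
      constructor
      · intro h
        by_contra hcon
        rw [if_neg hcon] at h
        exact lt_irrefl _ h
      · intro hi
        rw [if_pos hi]
        have := hu i hi
        omega
    · have h4 := h2 ⟨m, hm⟩
      have h6 := hwd m
      simp only at h4
      omega
    · have h4 := hF' m hm
      omega
  · exfalso
    obtain ⟨a, b, hb, hab, -⟩ := r1_ab S F β γ
    have hnone := h none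
    have hsome := fun i => h (some i)
    have hd : dg a = dg b := by
      have h6 := hab fun _ => 1
      rw [← r1_dg, ← r1_dg] at h6
      have h7 : ∑ a : {k // k ∈ J}, (α a : ℤ) * r1e a.1 none = 0 :=
        Finset.sum_eq_zero fun x _ => mul_zero _
      have h8 : ∀ m : Fin N →₀ ℕ, r1v J m none = -1 := fun _ => rfl
      simp only [h7, h8, mul_neg, mul_one, Finset.sum_neg_distrib] at hnone
      simp only [mul_one] at h6
      have : (dg b : ℤ) = dg a := by linarith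
      exact_mod_cast this.symm
    have he : ∀ i (hi : i ∈ J), (ex b i : ℤ) - ex a i = α ⟨i, hi⟩ := by
      intro i hi
      have h6 := hab fun m => ((m : Fin N →₀ ℕ) i : ℤ)
      rw [← r1_ex, ← r1_ex] at h6
      have h7 := hsome i
      have h8 : ∀ m : Fin N →₀ ℕ, r1v J m (some i) = (m i : ℤ) := fun m => if_pos hi
      have h9 : ∑ x : {k // k ∈ J}, (α x : ℤ) * r1e x.1 (some i) = α ⟨i, hi⟩ := by
        rw [Finset.sum_eq_single (⟨i, hi⟩ : {k // k ∈ J})]
        · show (α ⟨i, hi⟩ : ℤ) * (if i = i then 1 else 0) = _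
          rw [if_pos rfl, mul_one]
        · intro x _ hx
          show (α x : ℤ) * (if i = x.1 then 1 else 0) = 0
          rw [if_neg fun h => hx (Subtype.ext h.symm), mul_zero]
        · intro hx
          exact absurd (Finset.mem_univ _) hx
      simp only [h8] at h7
      rw [h9] at h7
      linarith
    have h6 := h5 a b hb hd (fun i hi => by
      have := he i hi
      omega) k.1 k.2
    have h7 := he k.1 k.2
    apply hk
    have h8 : (⟨k.1, k.2⟩ : {k // k ∈ J}) = k := rfl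
    rw [h8] at h7
    omega

/-- step B -/
private theorem r1_B (S F : Finset (Fin N →₀ ℕ)) (hFS : F ⊆ S) (J : Finset (Fin N))
    (h2 : ∀ a b : {m // m ∈ S} →₀ ℕ, (∀ m, b m ≠ 0 → (m : Fin N →₀ ℕ) ∈ F) → dg a = dg b →
      (∀ i ∈ J, ex a i = ex b i) → ex a ≤ ex b → ex a = ex b)
    (h1 : ∀ a b : {m // m ∈ S} →₀ ℕ, (∀ m, b m ≠ 0 → (m : Fin N →₀ ℕ) ∈ F) → dg a = dg b →
      ex a = ex b → ∀ m, a m ≠ 0 → (m : Fin N →₀ ℕ) ∈ F) :
    ∃ (u : Fin N → ℤ) (d' : ℤ), (∀ m ∈ F, ∑ i, u i * (m i : ℤ) = d') ∧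
      (∀ m ∈ S, m ∉ F → d' < ∑ i, u i * (m i : ℤ)) ∧ ∀ k, k ∉ J → 0 < u k := by
  classical
  rcases farkas_int (Sum.elim (fun m : {m : {m // m ∈ S} // (m : Fin N →₀ ℕ) ∉ F} =>
      r1v Finset.univ m.1.1) (fun k : {k // k ∉ J} => r1e k.1))
    (fun m : Empty => m.elim)
    (fun c : {m : {m // m ∈ S} // (m : Fin N →₀ ℕ) ∈ F} => r1v Finset.univ c.1.1) with
    ⟨u, hp, -, he⟩ | ⟨α, β, γ, ⟨k, hk⟩, h⟩
  · refine ⟨fun i => u (some i), u none, fun m hm => ?_, fun m hm hmF => ?_, fun k hk => ?_⟩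
    · have := he ⟨⟨m, hFS hm⟩, hm⟩
      rw [r1v_sum] at this
      simp only at this ⊢
      linarith
    · have := hp (Sum.inl ⟨⟨m, hm⟩, hmF⟩)
      simp only [Sum.elim_inl] at this
      rw [r1v_sum] at this
      simp only at this ⊢
      linarith
    · have := hp (Sum.inr ⟨k, hk⟩)
      simp only [Sum.elim_inr] at this
      rw [r1e_sum] at this
      exact this
  · exfalso
    obtain ⟨β, hβ⟩ : ∃ β : {m // m ∈ S} → ℕ, ∀ m, β m =
      if h : (m : Fin N →₀ ℕ) ∉ F then α (Sum.inl ⟨m, h⟩) else 0 := ⟨_, fun m => rfl⟩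
    obtain ⟨a, b, hb, hab, ha⟩ := r1_ab S F β γ
    have hsum : ∀ g : {m // m ∈ S} → ℤ,
        ∑ x : {m : {m // m ∈ S} // (m : Fin N →₀ ℕ) ∉ F}, (α (Sum.inl x) : ℤ) * g x.1 =
          ∑ m, (β m : ℤ) * g m := by
      intro g
      rw [r1_sub (fun m : {m // m ∈ S} => (m : Fin N →₀ ℕ) ∉ F) (fun x => (α (Sum.inl x) : ℤ) * g x.1)]
      refine Finset.sum_congr rfl fun m _ => ?_
      rw [hβ]
      by_cases hm : (m : Fin N →₀ ℕ) ∉ F
      · rw [dif_pos hm, dif_pos hm]
      · rw [dif_neg hm, dif_neg hm]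
        simp
    have hnone := h none
    have hsome := fun i => h (some i)
    simp only [Fintype.sum_sum_type, Sum.elim_inl, Sum.elim_inr, Finset.univ_eq_empty,
      Finset.sum_empty, add_zero] at hnone hsome
    have hd : dg a = dg b := by
      have h6 := hab fun _ => 1
      rw [← r1_dg, ← r1_dg] at h6
      have h7 : ∑ x : {k // k ∉ J}, (α (Sum.inr x) : ℤ) * r1e x.1 none = 0 :=
        Finset.sum_eq_zero fun x _ => mul_zero _
      have h8 : ∀ m : Fin N →₀ ℕ, r1v Finset.univ m none = -1 := fun _ => rfl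
      have h9 := hsum fun _ => 1
      simp only [h7, h8, mul_neg, mul_one, Finset.sum_neg_distrib, add_zero] at hnone
      simp only [mul_one] at h6 h9
      have : (dg b : ℤ) = dg a := by linarith
      exact_mod_cast this.symm
    have he : ∀ i, (ex b i : ℤ) - ex a i =
        ∑ x : {k // k ∉ J}, (α (Sum.inr x) : ℤ) * (if i = x.1 then 1 else 0) := by
      intro i
      have h6 := hab fun m => ((m : Fin N →₀ ℕ) i : ℤ)
      rw [← r1_ex, ← r1_ex] at h6
      have h7 := hsome i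
      have h8 : ∀ m : Fin N →₀ ℕ, r1v Finset.univ m (some i) = (m i : ℤ) :=
        fun m => if_pos (Finset.mem_univ i)
      have h9 := hsum fun m => ((m : Fin N →₀ ℕ) i : ℤ)
      have h10 : ∀ x : {k // k ∉ J}, r1e x.1 (some i) = if i = x.1 then 1 else 0 := fun _ => rfl
      simp only [h8, h10] at h7
      linarith
    have hnn : ∀ i, ex a i ≤ ex b i := by
      intro i
      have h6 : (0 : ℤ) ≤ ∑ x : {k // k ∉ J}, (α (Sum.inr x) : ℤ) * (if i = x.1 then 1 else 0) :=
        Finset.sum_nonneg fun x _ => mul_nonneg (Int.natCast_nonneg _) (by split_ifs <;> norm_num)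
      have h7 := he i
      omega
    have hJ : ∀ i ∈ J, ex a i = ex b i := by
      intro i hi
      have h6 : ∑ x : {k // k ∉ J}, (α (Sum.inr x) : ℤ) * (if i = x.1 then 1 else 0) = 0 :=
        Finset.sum_eq_zero fun x _ => by
          have hne : i ≠ x.1 := by
            rintro rfl
            exact x.2 hi
          rw [if_neg hne, mul_zero]
      have h7 := he i
      omega
    have heq := h2 a b hb hd hJ (fun i => hnn i)
    rcases k with x | x
    · have h6 := h1 a b hb hd heq x.1 (ha x.1 (by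
        rw [hβ, dif_pos x.2]
        exact hk))
      exact x.2 h6
    · apply hk
      have h7 := he x.1
      rw [heq, sub_self] at h7
      have h8 : ∑ y : {k // k ∉ J}, (α (Sum.inr y) : ℤ) * (if x.1 = y.1 then 1 else 0) =
          α (Sum.inr x) := by
        rw [Finset.sum_eq_single x]
        · rw [if_pos rfl, mul_one]
        · intro y _ hy
          rw [if_neg fun h => hy (Subtype.ext h.symm), mul_zero]
        · intro hx
          exact absurd (Finset.mem_univ _) hx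
      rw [h8] at h7
      omega

theorem r_face (S F : Finset (Fin N →₀ ℕ)) (hFS : F ⊆ S) (hF : F.Nonempty) (J : Finset (Fin N))
    (h5 : ∀ a b : {m // m ∈ S} →₀ ℕ, (∀ m, b m ≠ 0 → (m : Fin N →₀ ℕ) ∈ F) → dg a = dg b →
      (∀ i ∈ J, ex a i ≤ ex b i) → ∀ i ∈ J, ex a i = ex b i)
    (h2 : ∀ a b : {m // m ∈ S} →₀ ℕ, (∀ m, b m ≠ 0 → (m : Fin N →₀ ℕ) ∈ F) → dg a = dg b →
      (∀ i ∈ J, ex a i = ex b i) → ex a ≤ ex b → ex a = ex b)
    (h1 : ∀ a b : {m // m ∈ S} →₀ ℕ, (∀ m, b m ≠ 0 → (m : Fin N →₀ ℕ) ∈ F) → dg a = dg b →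
      ex a = ex b → ∀ m, a m ≠ 0 → (m : Fin N →₀ ℕ) ∈ F) :
    ∃ (w w' : Fin N → ℕ) (e d : ℕ), (∀ i, 0 < w i) ∧
      (∀ m ∈ S, e ≤ wd w m ∧ (wd w m = e ↔ m ∈ F)) ∧ (∀ i, 0 < w' i ↔ i ∈ J) ∧
      ∀ m ∈ F, wd w' m = d := by
  classical
  obtain ⟨w', d, hJ, hS, hF'⟩ := r1_A S F hFS hF J h5
  obtain ⟨u, d', hu, hu', hk⟩ := r1_B S F hFS J h2 h1
  obtain ⟨C, hC⟩ : ∃ C : ℕ, ∀ i, (u i).natAbs < C :=
    ⟨∑ i, (u i).natAbs + 1, fun i => Nat.lt_succ_of_le
      (Finset.single_le_sum (f := fun i => (u i).natAbs) (fun _ _ => Nat.zero_le _)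
        (Finset.mem_univ i))⟩
  have hpos : ∀ i, 0 < (C : ℤ) * w' i + u i := by
    intro i
    by_cases hi : i ∈ J
    · have h6 := (hJ i).2 hi
      have h7 : (C : ℤ) * 1 ≤ C * w' i :=
        mul_le_mul_of_nonneg_left (by exact_mod_cast h6) (Int.natCast_nonneg _)
      have h8 := hC i
      omega
    · have h6 := hk i hi
      have h7 : (0 : ℤ) ≤ C * w' i := mul_nonneg (Int.natCast_nonneg _) (Int.natCast_nonneg _)
      omega
  obtain ⟨w, hw⟩ : ∃ w : Fin N → ℕ, ∀ i, (w i : ℤ) = C * w' i + u i :=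
    ⟨fun i => ((C : ℤ) * w' i + u i).toNat, fun i => Int.toNat_of_nonneg (hpos i).le⟩
  have hwd : ∀ m : Fin N →₀ ℕ, (wd w m : ℤ) = C * (wd w' m : ℤ) + ∑ i, u i * (m i : ℤ) := by
    intro m
    unfold wd
    push_cast
    rw [Finset.mul_sum, ← Finset.sum_add_distrib]
    refine Finset.sum_congr rfl fun i _ => ?_
    rw [hw]
    ring
  obtain ⟨m₀, hm₀⟩ := hF
  have he : ∀ m ∈ F, wd w m = wd w m₀ := by
    intro m hm
    have h6 := hwd m
    have h7 := hwd m₀
    rw [hu m hm, hF' m hm] at h6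
    rw [hu m₀ hm₀, hF' m₀ hm₀] at h7
    omega
  have hgt : ∀ m ∈ S, m ∉ F → wd w m₀ < wd w m := by
    intro m hm hmF
    have h6 := hwd m
    have h7 := hwd m₀
    rw [hu m₀ hm₀, hF' m₀ hm₀] at h7
    have h8 := hu' m hm hmF
    have h9 : (C : ℤ) * d ≤ C * (wd w' m : ℤ) :=
      mul_le_mul_of_nonneg_left (by exact_mod_cast hS m hm) (Int.natCast_nonneg _)
    omega
  refine ⟨w, w', wd w m₀, d, fun i => ?_, fun m hm => ?_, hJ, hF'⟩
  · have h6 := hpos i
    rw [← hw] at h6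
    exact_mod_cast h6
  · by_cases hmF : m ∈ F
    · exact ⟨(he m hmF).ge, iff_of_true (he m hmF) hmF⟩
    · have h6 := hgt m hm hmF
      exact ⟨h6.le, iff_of_false h6.ne' hmF⟩

end NC
end MotMono
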