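import Pool.Agent.Lib.MP_4e5fcd_ag.NC.R1
import Pool.Agent.Lib.MP_4e5fcd_ag.NC.K2

/-!
# NC-R2: the relations have no common zero except `0`

PROOF. `eval y (monomial b 1) = ∏ m, y m ^ b m`. Suppose `y ≠ 0` and let `F` be the set of the `m ∈ Sup f` with `y m ≠ 0` (nonempty). If `b` is supported on `F`, `∏ y m ^ b m ≠ 0`. So the relations `upJ`, `up`, `bin` give the hypotheses `h5`
(if `ex a i < ex b i` for some `i ∈ J` then `∏ y ^ b = 0`), `h2` and `h1` (`∏ y ^ a = ∏ y ^ b ≠ 0`, so `y m ≠ 0` if `a m ≠ 0`) of `r_face`. Let `w, w', e, d` be as there.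
Characters (K2 of NC_paper.md; module K2 if it is there, chief helper25; otherwise prove it privately): the values `y m`, `m ∈ F`, satisfy `∏ y ^ a = ∏ y ^ b` for `a, b` supported on `F` with `dg a = dg b`, `ex a = ex b`; so there are
`z : Fin N → ℂ` with `z i ≠ 0` and `κ ≠ 0` with `y m = κ * ∏ z i ^ (m i)` for `m ∈ F`.
Then `z ∈ VT f w e`: `eval z (ip f w e j) = ∑ m ∈ F, coeff m (f j) * ∏ z i ^ m i` (the monomials of `f j` of weight `e` are in `F`) `= κ⁻¹ * ∑ m, coeff m (f j) * y m = 0` by `lin` (`y m = 0` outside of `F`).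
`ext_of_zero` (NC/Fa.lean; `e > 0` because `m ≠ 0` for `m ∈ F`, `h0`, and `w > 0`) with the vector `w'` and `t = d` gives `c` with `w' i = c * w i`. For `k ∉ J` (`hJ'`): `w' k = 0`, so `c = 0`; for `i ∈ J` (`hJ`) `w' i > 0`: contradiction.
-/

open MvPolynomial

namespace MotMono
namespace NC

variable {N r : ℕ}

private theorem eval_mono {S : Finset (Fin N →₀ ℕ)} (y : {m // m ∈ S} → ℂ) (b : {m // m ∈ S} →₀ ℕ) :
    eval y (monomial b 1) = ∏ m, y m ^ b m := by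
  rw [eval_monomial, one_mul, Finsupp.prod_pow]

private theorem sum_ext {M : Type*} [AddCommMonoid M] {S F : Finset (Fin N →₀ ℕ)} (hFS : F ⊆ S)
    (g : {m // m ∈ F} → M) (G : {m // m ∈ S} → M)
    (h1 : ∀ t : {m // m ∈ F}, g t = G ⟨t.1, hFS t.2⟩)
    (h2 : ∀ m : {m // m ∈ S}, (m : Fin N →₀ ℕ) ∉ F → G m = 0) : ∑ t, g t = ∑ m, G m := by
  refine Fintype.sum_of_injective (fun t : {m // m ∈ F} => (⟨t.1, hFS t.2⟩ : {m // m ∈ S})) ?_ g G ?_ h1
  · intro a b hab
    exact Subtype.ext (congrArg (fun x : {m // m ∈ S} => (x : Fin N →₀ ℕ)) hab)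
  · intro m hm
    refine h2 m fun hF => hm ⟨⟨m.1, hF⟩, rfl⟩

private theorem prod_ext' {S F : Finset (Fin N →₀ ℕ)} (hFS : F ⊆ S)
    (g : {m // m ∈ F} → ℂ) (G : {m // m ∈ S} → ℂ)
    (h1 : ∀ t : {m // m ∈ F}, g t = G ⟨t.1, hFS t.2⟩)
    (h2 : ∀ m : {m // m ∈ S}, (m : Fin N →₀ ℕ) ∉ F → G m = 1) : ∏ t, g t = ∏ m, G m := by
  refine Fintype.prod_of_injective (fun t : {m // m ∈ F} => (⟨t.1, hFS t.2⟩ : {m // m ∈ S})) ?_ g G ?_ h1
  · intro a b hab
    exact Subtype.ext (congrArg (fun x : {m // m ∈ S} => (x : Fin N →₀ ℕ)) hab)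
  · intro m hm
    refine h2 m fun hF => hm ⟨⟨m.1, hF⟩, rfl⟩

private theorem ex_apply {S : Finset (Fin N →₀ ℕ)} (a : {m // m ∈ S} →₀ ℕ) (i : Fin N) :
    ex a i = ∑ m : {m // m ∈ S}, a m * (m : Fin N →₀ ℕ) i := by
  unfold ex
  rw [Finsupp.finsetSum_apply]
  rfl

theorem r_zero {f : Fin r → MvPolynomial (Fin N) ℂ} (hr : r + 1 = N) (hf : Nondeg f)
    (h0 : (0 : Fin N →₀ ℕ) ∉ Sup f) {J : Finset (Fin N)} (hJ : J.Nonempty) (hJ' : J ≠ Finset.univ)
    (y : {m // m ∈ Sup f} → ℂ) (hy : ∀ g, Rl f J g → eval y g = 0) : y = 0 := by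
  classical
  by_contra hy0
  obtain ⟨F, hFdef⟩ : ∃ F : Finset (Fin N →₀ ℕ),
      F = (Sup f).filter (fun m => ∃ h : m ∈ Sup f, y ⟨m, h⟩ ≠ 0) := ⟨_, rfl⟩
  have hFS : F ⊆ Sup f := by
    rw [hFdef]
    exact Finset.filter_subset _ _
  have hmF : ∀ m : {m // m ∈ Sup f}, (m : Fin N →₀ ℕ) ∈ F ↔ y m ≠ 0 := by
    intro m
    rw [hFdef, Finset.mem_filter]
    constructor
    · rintro ⟨_, _, h⟩
      exact h
    · intro h
      exact ⟨m.2, m.2, h⟩
  have hFne : F.Nonempty := by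
    obtain ⟨m, hm⟩ := Function.ne_iff.1 hy0
    exact ⟨m, (hmF m).2 hm⟩
  have hne : ∀ b : {m // m ∈ Sup f} →₀ ℕ, (∀ m, b m ≠ 0 → (m : Fin N →₀ ℕ) ∈ F) →
      eval y (monomial b 1) ≠ 0 := by
    intro b hb
    rw [eval_mono, Finset.prod_ne_zero_iff]
    intro m _
    by_cases hm : b m = 0
    · rw [hm, pow_zero]
      exact one_ne_zero
    · exact pow_ne_zero _ ((hmF m).1 (hb m hm))
  have hbin : ∀ a b : {m // m ∈ Sup f} →₀ ℕ, dg a = dg b → ex a = ex b →
      ∏ m, y m ^ a m = ∏ m, y m ^ b m := by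
    intro a b h1 h2
    have h3 := hy _ (Rl.bin a b h1 h2)
    rw [map_sub, eval_mono, eval_mono, sub_eq_zero] at h3
    exact h3
  obtain ⟨w, w', e, d, hw, hS, hJw, hd⟩ := r_face (Sup f) F hFS hFne J
    (by
      intro a b hb h1 h2 i hi
      by_contra h3
      exact hne b hb (hy _ (Rl.upJ a b h1 h2 ⟨i, hi, lt_of_le_of_ne (h2 i hi) h3⟩)))
    (by
      intro a b hb h1 h2 h3
      by_contra h4
      exact hne b hb (hy _ (Rl.up a b h1 h2 h3 h4)))
    (by
      intro a b hb h1 h2 m hm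
      have h3 := hbin a b h1 h2
      have h4 := hne b hb
      rw [eval_mono, ← h3, Finset.prod_ne_zero_iff] at h4
      rw [hmF]
      intro h5
      apply h4 m (Finset.mem_univ m)
      rw [h5, zero_pow hm])
  obtain ⟨κ, z, hκ, hz, hψ⟩ := exists_char_nat (σ := Fin N) (T := {m // m ∈ F})
    (fun t i => (t : Fin N →₀ ℕ) i) (fun t => y ⟨t.1, hFS t.2⟩)
    (fun t => (hmF ⟨t.1, hFS t.2⟩).1 t.2) (by
      intro a b hab hi
      obtain ⟨E, hE⟩ : ∃ E : ({m // m ∈ F} → ℕ) → ({m // m ∈ Sup f} →₀ ℕ),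
          ∀ a m, E a m = if h : (m : Fin N →₀ ℕ) ∈ F then a ⟨m, h⟩ else 0 :=
        ⟨fun a => Finsupp.equivFunOnFinite.symm fun m => if h : (m : Fin N →₀ ℕ) ∈ F then a ⟨m, h⟩ else 0,
          fun a m => rfl⟩
      have hE1 : ∀ (a : {m // m ∈ F} → ℕ) (t : {m // m ∈ F}), E a ⟨t.1, hFS t.2⟩ = a t := by
        intro a t
        rw [hE, dif_pos t.2]
      have hE2 : ∀ (a : {m // m ∈ F} → ℕ) (m : {m // m ∈ Sup f}), (m : Fin N →₀ ℕ) ∉ F → E a m = 0 := by
        intro a m hm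
        rw [hE, dif_neg hm]
      have hdg : ∀ a, dg (E a) = ∑ t, a t := by
        intro a
        unfold dg
        exact (sum_ext hFS a (fun m => E a m) (fun t => (hE1 a t).symm) (hE2 a)).symm
      have hex : ∀ a i, ex (E a) i = ∑ t, a t * (t : Fin N →₀ ℕ) i := by
        intro a i
        rw [ex_apply]
        exact (sum_ext hFS (fun t => a t * (t : Fin N →₀ ℕ) i)
          (fun m => E a m * (m : Fin N →₀ ℕ) i) (fun t => by rw [hE1])
          (fun m hm => by rw [hE2 a m hm, zero_mul])).symm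
      have hpr : ∀ a, ∏ m, y m ^ (E a) m = ∏ t : {m // m ∈ F}, y ⟨t.1, hFS t.2⟩ ^ a t := by
        intro a
        exact (prod_ext' hFS (fun t => y ⟨t.1, hFS t.2⟩ ^ a t) (fun m => y m ^ (E a) m)
          (fun t => by rw [hE1]) (fun m hm => by rw [hE2 a m hm, pow_zero])).symm
      have h3 := hbin (E a) (E b) (by rw [hdg, hdg, hab]) (by
        ext i
        rw [hex, hex]
        exact hi i)
      rw [hpr, hpr] at h3
      exact h3)
  -- the values of `y`
  have hyv : ∀ m : {m // m ∈ Sup f}, y m = if (m : Fin N →₀ ℕ) ∈ F then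
      κ * ∏ i, z i ^ ((m : Fin N →₀ ℕ) i) else 0 := by
    intro m
    split_ifs with h
    · exact hψ ⟨m.1, h⟩
    · by_contra h1
      exact h ((hmF m).2 h1)
  have hVT : z ∈ VT f w e := by
    refine ⟨hz, fun j => ?_⟩
    have h1 := hy _ (Rl.lin j)
    rw [map_sum] at h1
    have h2 : eval z (ip f w e j) = ∑ m : {m // m ∈ Sup f}, coeff (m : Fin N →₀ ℕ) (ip f w e j) *
        ∏ i, z i ^ ((m : Fin N →₀ ℕ) i) := by
      rw [eval_eq', Finset.sum_coe_sort (Sup f)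
        (fun m => coeff m (ip f w e j) * ∏ i, z i ^ (m i))]
      refine Finset.sum_subset (fun m hm => (mem_support_ip hm).1) fun m _ hm => ?_
      rw [notMem_support_iff.1 hm, zero_mul]
    have h3 : κ * eval z (ip f w e j) = 0 := by
      rw [h2, ← h1, Finset.mul_sum]
      refine Finset.sum_congr rfl fun m _ => ?_
      rw [map_mul, eval_C, eval_X, hyv m]
      have h4 : coeff (m : Fin N →₀ ℕ) (ip f w e j) =
          if (m : Fin N →₀ ℕ) ∈ F then coeff (m : Fin N →₀ ℕ) (f j) else 0 := by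
        have h5 : Finsupp.weight w (m : Fin N →₀ ℕ) = wd w (m : Fin N →₀ ℕ) := by
          rw [Finsupp.weight_apply, Finsupp.sum_fintype _ _ (fun i => zero_smul ℕ (w i))]
          unfold wd
          simp only [smul_eq_mul]
        unfold ip
        rw [coeff_weightedHomogeneousComponent, h5]
        by_cases h6 : (m : Fin N →₀ ℕ) ∈ F
        · rw [if_pos h6, if_pos ((hS m m.2).2.2 h6)]
        · rw [if_neg h6, if_neg fun h7 => h6 ((hS m m.2).2.1 h7)]
      rw [h4]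
      split_ifs
      · ring
      · ring
    exact (mul_eq_zero.1 h3).resolve_left hκ
  obtain ⟨m0, hm0⟩ := hFne
  have hm0e : wd w m0 = e := (hS m0 (hFS hm0)).2.2 hm0
  have he : 0 < e := by
    rw [← hm0e]
    have h1 : m0 ≠ 0 := fun h => h0 (h ▸ hFS hm0)
    obtain ⟨i, hi⟩ : ∃ i, m0 i ≠ 0 := by
      by_contra hcon
      push Not at hcon
      exact h1 (Finsupp.ext hcon)
    unfold wd
    refine Finset.sum_pos' (fun _ _ => Nat.zero_le _) ⟨i, Finset.mem_univ i, ?_⟩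
    exact Nat.mul_pos (Nat.pos_of_ne_zero hi) (hw i)
  obtain ⟨c, hc, _⟩ := ext_of_zero hr hf hw (fun m hm => (hS m hm).1) ⟨m0, hFS hm0, hm0e⟩ he hVT
    (fun i => (w' i : ℂ)) (d : ℂ) (by
      intro m hm hme
      rw [← hd m ((hS m hm).2.1 hme)]
      unfold wd
      push_cast
      rfl)
  obtain ⟨k, hk⟩ : ∃ k, k ∉ J := by
    by_contra hcon
    push Not at hcon
    exact hJ' (Finset.eq_univ_iff_forall.2 hcon)
  have hwk : w' k = 0 := by
    by_contra h1
    exact hk ((hJw k).1 (Nat.pos_of_ne_zero h1))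
  have hc0 : c = 0 := by
    have h1 := hc k
    simp only [hwk, Nat.cast_zero] at h1
    have h2 : (w k : ℂ) ≠ 0 := by exact_mod_cast (hw k).ne'
    exact (mul_eq_zero.1 h1.symm).resolve_right h2
  obtain ⟨i, hi⟩ := hJ
  have h1 := hc i
  rw [hc0, zero_mul] at h1
  have h2 := (hJw i).2 hi
  have h3 : w' i = 0 := by exact_mod_cast h1
  omega

end NC
end MotMono
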