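import Pool.Agent.Lib.MP_4e5fcd_ag.NC.R3a

/-!
# NC-R3: the relations in the Rees algebra

PROOF. Let `R = MvPolynomial (Fin N) ℂ`, `ψ = aeval (fun m => Polynomial.C (monomial m 1) * Polynomial.X)` (values in `Polynomial R`). Then `ψ (monomial a c) = Polynomial.C (C c * monomial (ex a) 1) * X ^ (dg a)`, and
`(ψ q).coeff j ∈ mmI ^ j` for all `q, j` (a product of `dg a` monomials with exponents in `S`). CLAIM for `k ≥ 1`: `(ψ q).coeff k ∈ bI f J k` for all `q` in the ideal generated by the relations.
By `Submodule.span_induction` (or `Ideal.span` as finite sums `∑ q g`) and linearity: `q = monomial c t * g`, `g` one of the relations, homogeneous of degree `δ` (`δ = dg b`, resp. `1`):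
`bin`: `ψ g = 0`. `up`: `ex b = ex a + β`, `β ≠ 0` supported outside of `J`: `monomial (ex c + ex b) 1 = monomial β 1 * monomial (ex c + ex a) 1 ∈ xI Jᶜ * mmI ^ (dg c + dg a)`.
`upJ`: `g' = monomial (ex c + ex b) 1` is in `mmI ^ k`, and with `n = ∑ i, ex a i` (or larger) the exponent of `(∏_{i ∉ J} X i) ^ n * g'` is `≥ ex c + ex a` everywhere and `>` at some `i ∈ J`; so it is `X i` times a multiple of
`monomial (ex c + ex a) 1 ∈ mmI ^ k` : in `xI J * mmI ^ k`, so `g' ∈ tI`. `lin`: `ψ g = Polynomial.C (f j) * X` (`∑ m ∈ Sup f, coeff m (f j) monomial m 1 = f j` as the support of `f j` is in `Sup f`), so the coefficient is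
`monomial (ex c) * f j ∈ mmI ^ (k - 1) * I`.
`r_cert`: `monomial a 1` with `dg a = k` is in the ideal; `(ψ (monomial a 1)).coeff k = monomial (ex a) 1`; and `mmI ^ k` is generated by the `monomial (ex a) 1` with `dg a = k` (`mmI_pow`, R3a; it is also the way to see that `monomial (ex a) 1 ∈ mmI ^ (dg a)`).
-/

open MvPolynomial

namespace MotMono
namespace NC

variable {N r : ℕ}

private lemma r3_dg_add {S : Finset (Fin N →₀ ℕ)} (a b : {m // m ∈ S} →₀ ℕ) :
    dg (a + b) = dg a + dg b := by
  unfold dg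
  simp [Finset.sum_add_distrib]

private lemma r3_ex_add {S : Finset (Fin N →₀ ℕ)} (a b : {m // m ∈ S} →₀ ℕ) :
    ex (a + b) = ex a + ex b := by
  unfold ex
  simp [Finset.sum_add_distrib, add_smul]

private lemma r3_dg_single {S : Finset (Fin N →₀ ℕ)} (m : {m // m ∈ S}) :
    dg (Finsupp.single m 1) = 1 := by
  unfold dg
  simp [Finsupp.single_apply]

private lemma r3_ex_single {S : Finset (Fin N →₀ ℕ)} (m : {m // m ∈ S}) :
    ex (Finsupp.single m 1) = (m : Fin N →₀ ℕ) := by
  unfold ex
  rw [Finset.sum_eq_single m]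
  · simp
  · intro b _ hb
    simp [Finsupp.single_apply, Ne.symm hb]
  · intro h
    exact absurd (Finset.mem_univ _) h

/-- the part of degree `k` of the map to the Rees algebra -/
private noncomputable def r3_L (S : Finset (Fin N →₀ ℕ)) (k : ℕ) :
    MvPolynomial {m // m ∈ S} ℂ →ₗ[ℂ] MvPolynomial (Fin N) ℂ :=
  (basisMonomials {m // m ∈ S} ℂ).constr ℂ
    (fun a => if dg a = k then monomial (ex a) (1 : ℂ) else 0)

private lemma r3_L_mono (S : Finset (Fin N →₀ ℕ)) (k : ℕ) (a : {m // m ∈ S} →₀ ℕ) (t : ℂ) :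
    r3_L S k (monomial a t) = if dg a = k then monomial (ex a) t else 0 := by
  have h1 : (monomial a t : MvPolynomial {m // m ∈ S} ℂ) = t • monomial a 1 := by
    rw [smul_monomial, smul_eq_mul, mul_one]
  have h2 : r3_L S k (monomial a 1) = if dg a = k then monomial (ex a) (1 : ℂ) else 0 := by
    have := (basisMonomials {m // m ∈ S} ℂ).constr_basis ℂ
      (fun a => if dg a = k then monomial (ex a) (1 : ℂ) else 0) a
    simpa [r3_L, coe_basisMonomials] using this
  rw [h1, map_smul, h2]
  split_ifs with h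
  · rw [smul_monomial, smul_eq_mul, mul_one]
  · simp

private lemma r3_mem (S : Finset (Fin N →₀ ℕ)) (k : ℕ) (a : {m // m ∈ S} →₀ ℕ) (ha : dg a = k)
    (t : ℂ) : monomial (ex a) t ∈ mmI S ^ k := by
  have h1 : (monomial (ex a) t : MvPolynomial (Fin N) ℂ) = C t * monomial (ex a) 1 := by
    rw [C_mul_monomial, mul_one]
  rw [h1, mmI_pow]
  exact Ideal.mul_mem_left _ _ (Ideal.subset_span ⟨a, ha, rfl⟩)

/-- a monomial bigger than `u` with strictly bigger exponent of `i ∈ K` -/
private lemma r3_gt (S : Finset (Fin N →₀ ℕ)) (k : ℕ) (K : Finset (Fin N)) (a : {m // m ∈ S} →₀ ℕ)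
    (ha : dg a = k) (v : Fin N →₀ ℕ) (hv : ex a ≤ v) (i : Fin N) (hi : i ∈ K) (hlt : ex a i < v i)
    (t : ℂ) : (monomial v t : MvPolynomial (Fin N) ℂ) ∈ xI K * mmI S ^ k := by
  have h1 : v = (v - ex a - Finsupp.single i 1) + (Finsupp.single i 1 + ex a) := by
    ext j
    have := hv j
    by_cases hj : i = j
    · subst hj
      simp only [Finsupp.add_apply, Finsupp.tsub_apply, Finsupp.single_eq_same]
      omega
    · simp only [Finsupp.add_apply, Finsupp.tsub_apply, Finsupp.single_apply, if_neg hj]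
      omega
  have h2 : (monomial v t : MvPolynomial (Fin N) ℂ)
      = monomial (v - ex a - Finsupp.single i 1) 1 * (X i * monomial (ex a) t) := by
    have : (X i : MvPolynomial (Fin N) ℂ) = monomial (Finsupp.single i 1) 1 := rfl
    rw [this, monomial_mul, monomial_mul, one_mul, one_mul, ← h1]
  rw [h2]
  apply Ideal.mul_mem_left
  apply Ideal.mul_mem_mul
  · exact Ideal.subset_span ⟨i, hi, rfl⟩
  · exact r3_mem S k a ha t

private lemma r3_lin_sum (f : Fin r → MvPolynomial (Fin N) ℂ) (j : Fin r) :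
    (∑ m : {m // m ∈ Sup f}, monomial (m : Fin N →₀ ℕ) (coeff (m : Fin N →₀ ℕ) (f j))) = f j := by
  have h1 : (∑ m : {m // m ∈ Sup f}, monomial (m : Fin N →₀ ℕ) (coeff (m : Fin N →₀ ℕ) (f j)))
      = ∑ m ∈ Sup f, monomial m (coeff m (f j)) := by
    rw [← Finset.sum_attach (Sup f)]
    rfl
  rw [h1]
  have h2 : (f j).support ⊆ Sup f := by
    intro m hm
    unfold Sup
    rw [Finset.mem_biUnion]
    exact ⟨j, Finset.mem_univ _, hm⟩
  rw [← Finset.sum_subset h2]
  · exact support_sum_monomial_coeff (f j)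
  · intro m _ hm
    rw [notMem_support_iff.mp hm]
    simp

private lemma r3_rel {f : Fin r → MvPolynomial (Fin N) ℂ} {J : Finset (Fin N)} {k : ℕ}
    (g : MvPolynomial {m // m ∈ Sup f} ℂ) (hg : Rl f J g) (c : {m // m ∈ Sup f} →₀ ℕ) (t : ℂ) :
    r3_L (Sup f) k (monomial c t * g) ∈ bI f J k := by
  cases hg with
  | bin a b hd he =>
    have h1 : dg (c + a) = dg (c + b) := by rw [r3_dg_add, r3_dg_add, hd]
    have h2 : ex (c + a) = ex (c + b) := by rw [r3_ex_add, r3_ex_add, he]
    rw [mul_sub, monomial_mul, monomial_mul, map_sub, r3_L_mono, r3_L_mono, h1, h2, sub_self]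
    exact Submodule.zero_mem _
  | up a b hd he hle hne =>
    rw [monomial_mul, r3_L_mono, mul_one]
    split_ifs with hk
    · have hi : ∃ i, ex a i < ex b i := by
        by_contra hcon
        push Not at hcon
        exact hne (le_antisymm hle hcon)
      obtain ⟨i, hi⟩ := hi
      have hiJ : i ∈ Jᶜ := by
        rw [Finset.mem_compl]
        intro hiJ
        rw [he i hiJ] at hi
        exact lt_irrefl _ hi
      have h3 : monomial (ex (c + b)) t ∈ xI Jᶜ * mmI (Sup f) ^ k := by
        apply r3_gt (Sup f) k Jᶜ (c + a) _ _ _ i hiJ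
        · rw [r3_ex_add, r3_ex_add]
          simp only [Finsupp.add_apply]
          omega
        · rw [← hk, r3_dg_add, r3_dg_add, hd]
        · rw [r3_ex_add, r3_ex_add]
          exact add_le_add le_rfl hle
      unfold bI
      exact Submodule.mem_sup_right (Submodule.mem_sup_left h3)
    · exact Submodule.zero_mem _
  | upJ a b hd hle hlt =>
    rw [monomial_mul, r3_L_mono, mul_one]
    split_ifs with hk
    · unfold bI
      refine Submodule.mem_sup_right (Submodule.mem_sup_right ?_)
      unfold tI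
      apply Ideal.subset_span
      refine ⟨r3_mem _ k _ hk t, ∑ i, ex a i, ?_⟩
      have h4 : (∏ i ∈ Jᶜ, (X i : MvPolynomial (Fin N) ℂ)) ^ (∑ i, ex a i)
          = monomial ((∑ i, ex a i) • ∑ i ∈ Jᶜ, Finsupp.single i 1) 1 := by
        have h5 : (∏ i ∈ Jᶜ, (X i : MvPolynomial (Fin N) ℂ))
            = monomial (∑ i ∈ Jᶜ, Finsupp.single i 1) 1 := by
          rw [monomial_sum_one]
          rfl
        rw [h5, monomial_pow, one_pow]
      rw [h4, monomial_mul, one_mul]
      have h6 : ∀ j ∈ Jᶜ, (((∑ i, ex a i) • ∑ i ∈ Jᶜ, Finsupp.single i 1 : Fin N →₀ ℕ)) j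
          = ∑ i, ex a i := by
        intro j hj
        have h7 : (∑ i ∈ Jᶜ, Finsupp.single i 1 : Fin N →₀ ℕ) j = 1 := by
          rw [Finsupp.finsetSum_apply, Finset.sum_eq_single j]
          · simp
          · intro b _ hb
            rw [Finsupp.single_apply, if_neg hb]
          · intro h
            exact absurd hj h
        rw [Finsupp.smul_apply, h7, smul_eq_mul, mul_one]
      obtain ⟨i, hiJ, hi⟩ := hlt
      apply r3_gt (Sup f) k J (c + a) _ _ _ i hiJ
      · simp only [r3_ex_add, Finsupp.add_apply]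
        omega
      · rw [← hk, r3_dg_add, r3_dg_add, hd]
      · intro j
        simp only [r3_ex_add, Finsupp.add_apply]
        by_cases hj : j ∈ J
        · have := hle j hj
          omega
        · rw [h6 j (Finset.mem_compl.mpr hj)]
          have : ex a j ≤ ∑ i, ex a i :=
            Finset.single_le_sum (f := fun i => ex a i) (fun _ _ => Nat.zero_le _)
              (Finset.mem_univ j)
          omega
    · exact Submodule.zero_mem _
  | lin j =>
    have h1 : monomial c t * (∑ m : {m // m ∈ Sup f},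
          C (coeff (m : Fin N →₀ ℕ) (f j)) * X m)
        = ∑ m : {m // m ∈ Sup f}, monomial (c + Finsupp.single m 1)
          (t * coeff (m : Fin N →₀ ℕ) (f j)) := by
      rw [Finset.mul_sum]
      apply Finset.sum_congr rfl
      intro m _
      rw [C_mul_X_eq_monomial, monomial_mul]
    rw [h1, map_sum]
    by_cases hk : dg c + 1 = k
    · have h2 : (∑ m : {m // m ∈ Sup f}, r3_L (Sup f) k (monomial (c + Finsupp.single m 1)
          (t * coeff (m : Fin N →₀ ℕ) (f j)))) = f j * monomial (ex c) t := by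
        conv_rhs => rw [← r3_lin_sum f j]
        rw [Finset.sum_mul]
        apply Finset.sum_congr rfl
        intro m _
        rw [r3_L_mono, if_pos (by rw [r3_dg_add, r3_dg_single, hk]), r3_ex_add, r3_ex_single,
          monomial_mul, add_comm, mul_comm]
      rw [h2]
      unfold bI
      refine Submodule.mem_sup_left (Ideal.mul_mem_mul (Ideal.subset_span ⟨j, rfl⟩) ?_)
      exact r3_mem _ _ c (by omega) t
    · have h2 : (∑ m : {m // m ∈ Sup f}, r3_L (Sup f) k (monomial (c + Finsupp.single m 1)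
          (t * coeff (m : Fin N →₀ ℕ) (f j)))) = 0 := by
        apply Finset.sum_eq_zero
        intro m _
        rw [r3_L_mono, if_neg (by rw [r3_dg_add, r3_dg_single]; exact hk)]
      rw [h2]
      exact Submodule.zero_mem _

private lemma r3_ideal {f : Fin r → MvPolynomial (Fin N) ℂ} {J : Finset (Fin N)} {k : ℕ}
    (q : MvPolynomial {m // m ∈ Sup f} ℂ) (hq : q ∈ Ideal.span {g | Rl f J g}) :
    ∀ p, r3_L (Sup f) k (p * q) ∈ bI f J k := by
  induction hq using Submodule.span_induction with
  | mem g hg =>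
    intro p
    induction p using MvPolynomial.induction_on' with
    | monomial c t => exact r3_rel g hg c t
    | add p q hp hq =>
      rw [add_mul, map_add]
      exact Submodule.add_mem _ hp hq
  | zero =>
    intro p
    rw [mul_zero, map_zero]
    exact Submodule.zero_mem _
  | add x y _ _ hx hy =>
    intro p
    rw [mul_add, map_add]
    exact Submodule.add_mem _ (hx p) (hy p)
  | smul a x _ hx =>
    intro p
    rw [smul_eq_mul, ← mul_assoc]
    exact hx (p * a)

theorem r_cert {f : Fin r → MvPolynomial (Fin N) ℂ} {J : Finset (Fin N)} {k : ℕ} (hk : 0 < k)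
    (h : ∀ a : {m // m ∈ Sup f} →₀ ℕ, dg a = k →
      monomial a (1 : ℂ) ∈ Ideal.span {g | Rl f J g}) :
    mmI (Sup f) ^ k ≤ bI f J k := by
  rw [mmI_pow]
  rw [Ideal.span_le]
  rintro g ⟨a, ha, rfl⟩
  have h1 := r3_ideal (k := k) (monomial a (1 : ℂ)) (h a ha) 1
  rw [one_mul, r3_L_mono, if_pos ha] at h1
  exact h1

end NC
end MotMono
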