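import Pool.Agent.Lib.MP_4e5fcd_ag.NC.RDefs

/-!
# NC-R3a: powers of the monomial ideal

PROOF. `mmI S = span G`, `G` the set of the `monomial m 1`, `m ∈ S`. Induction on `k`: `k = 0`: `a = 0`, `monomial 0 1 = 1`. Step: `span G ^ (k + 1) = span G ^ k * span G = span (products)` (`Ideal.span_mul_span'`), and
`monomial (ex a) 1 * monomial m 1 = monomial (ex (a + single m 1)) 1`, `dg (a + single m 1) = k + 1`; conversely an `a` with `dg a = k + 1` has some `a m > 0`, `a = a' + single m 1` with `a' = a - single m 1`.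
-/

open MvPolynomial

namespace MotMono
namespace NC

variable {N : ℕ}

private theorem dg_add_single {S : Finset (Fin N →₀ ℕ)} (a : {m // m ∈ S} →₀ ℕ)
    (m : {m // m ∈ S}) : dg (a + Finsupp.single m 1) = dg a + 1 := by
  classical
  unfold dg
  simp only [Finsupp.add_apply, Finset.sum_add_distrib]
  congr 1
  rw [Finset.sum_eq_single m]
  · simp
  · intro b _ hb
    exact Finsupp.single_eq_of_ne hb
  · intro h
    exact absurd (Finset.mem_univ m) h

private theorem ex_add_single {S : Finset (Fin N →₀ ℕ)} (a : {m // m ∈ S} →₀ ℕ)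
    (m : {m // m ∈ S}) : ex (a + Finsupp.single m 1) = ex a + (m : Fin N →₀ ℕ) := by
  classical
  unfold ex
  simp only [Finsupp.add_apply, add_smul, Finset.sum_add_distrib]
  congr 1
  rw [Finset.sum_eq_single m]
  · simp
  · intro b _ hb
    rw [Finsupp.single_eq_of_ne hb, zero_smul]
  · intro h
    exact absurd (Finset.mem_univ m) h

theorem mmI_pow (S : Finset (Fin N →₀ ℕ)) (k : ℕ) :
    mmI S ^ k = Ideal.span {g | ∃ a : {m // m ∈ S} →₀ ℕ, dg a = k ∧ g = monomial (ex a) 1} := by
  classical
  induction k with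
  | zero =>
    rw [pow_zero, Ideal.one_eq_top, eq_comm, Ideal.eq_top_iff_one]
    refine Ideal.subset_span ⟨0, ?_, ?_⟩
    · simp [dg]
    · simp [ex]
  | succ k ih =>
    rw [pow_succ, ih]
    unfold mmI
    rw [Ideal.span_mul_span']
    congr 1
    ext g
    rw [Set.mem_mul]
    constructor
    · rintro ⟨x, ⟨a, ha, rfl⟩, y, ⟨m, hm, rfl⟩, rfl⟩
      refine ⟨a + Finsupp.single ⟨m, hm⟩ 1, ?_, ?_⟩
      · rw [dg_add_single, ha]
      · rw [ex_add_single, monomial_mul, one_mul]
    · rintro ⟨a, ha, rfl⟩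
      have hne : ∑ m, a m ≠ 0 := by
        have : dg a = ∑ m, a m := rfl
        rw [← this, ha]
        exact Nat.succ_ne_zero k
      obtain ⟨m, -, hm⟩ := Finset.exists_ne_zero_of_sum_ne_zero hne
      have hle : Finsupp.single m 1 ≤ a :=
        Finsupp.single_le_iff.2 (Nat.one_le_iff_ne_zero.2 hm)
      have hadd : a - Finsupp.single m 1 + Finsupp.single m 1 = a := tsub_add_cancel_of_le hle
      refine ⟨monomial (ex (a - Finsupp.single m 1)) 1, ⟨a - Finsupp.single m 1, ?_, rfl⟩,
        monomial (m : Fin N →₀ ℕ) 1, ⟨m, m.2, rfl⟩, ?_⟩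
      · have h1 := dg_add_single (a - Finsupp.single m 1) m
        rw [hadd, ha] at h1
        exact (Nat.succ_injective h1).symm
      · rw [monomial_mul, one_mul, ← ex_add_single, hadd]

end NC
end MotMono
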