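import Pool.Agent.Lib.MP_4e5fcd_ag.NC.Fa
import Pool.Agent.Lib.MP_4e5fcd_ag.NW.Defs

/-!
# NC-RDefs: noncompact facets, notation. Do not edit.

`mmI S` is the ideal generated by the monomials with exponents in `S`. Multisets of elements of `S` are
functions `a : {m // m ∈ S} →₀ ℕ` with degree `dg a` and sum `ex a`.
-/

open MvPolynomial

namespace MotMono
namespace NC

variable {N r : ℕ}

/-- the ideal generated by the monomials with exponents in `S` -/
noncomputable def mmI (S : Finset (Fin N →₀ ℕ)) : Ideal (MvPolynomial (Fin N) ℂ) :=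
  Ideal.span {g | ∃ m ∈ S, g = monomial m 1}

/-- the ideal generated by the variables with index in `J` -/
noncomputable def xI (J : Finset (Fin N)) : Ideal (MvPolynomial (Fin N) ℂ) :=
  Ideal.span {g | ∃ i ∈ J, g = X i}

/-- the elements of `mm ^ k` which are in `(x_i, i ∈ J) mm ^ k` after multiplication by a power of the
product of the other variables -/
noncomputable def tI (S : Finset (Fin N →₀ ℕ)) (J : Finset (Fin N)) (k : ℕ) :
    Ideal (MvPolynomial (Fin N) ℂ) :=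
  Ideal.span {g | g ∈ mmI S ^ k ∧ ∃ n : ℕ, (∏ i ∈ Jᶜ, X i) ^ n * g ∈ xI J * mmI S ^ k}

/-- `I mm ^ (k - 1) + (x_i, i ∉ J) mm ^ k + tI` -/
noncomputable def bI (f : Fin r → MvPolynomial (Fin N) ℂ) (J : Finset (Fin N)) (k : ℕ) :
    Ideal (MvPolynomial (Fin N) ℂ) :=
  Ideal.span (Set.range f) * mmI (Sup f) ^ (k - 1) ⊔ (xI Jᶜ * mmI (Sup f) ^ k ⊔ tI (Sup f) J k)

/-- the number of elements of the multiset -/
def dg {S : Finset (Fin N →₀ ℕ)} (a : {m // m ∈ S} →₀ ℕ) : ℕ := ∑ m, a m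

/-- the sum of the elements of the multiset -/
noncomputable def ex {S : Finset (Fin N →₀ ℕ)} (a : {m // m ∈ S} →₀ ℕ) : Fin N →₀ ℕ :=
  ∑ m, a m • (m : Fin N →₀ ℕ)

/-- the relations: binomials, monomials, linear forms -/
inductive Rl (f : Fin r → MvPolynomial (Fin N) ℂ) (J : Finset (Fin N)) :
    MvPolynomial {m // m ∈ Sup f} ℂ → Prop
  | bin (a b : {m // m ∈ Sup f} →₀ ℕ) (hd : dg a = dg b) (he : ex a = ex b) :
      Rl f J (monomial a 1 - monomial b 1)
  | up (a b : {m // m ∈ Sup f} →₀ ℕ) (hd : dg a = dg b) (he : ∀ i ∈ J, ex a i = ex b i)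
      (hle : ex a ≤ ex b) (hne : ex a ≠ ex b) : Rl f J (monomial b 1)
  | upJ (a b : {m // m ∈ Sup f} →₀ ℕ) (hd : dg a = dg b) (hle : ∀ i ∈ J, ex a i ≤ ex b i)
      (hlt : ∃ i ∈ J, ex a i < ex b i) : Rl f J (monomial b 1)
  | lin (j : Fin r) : Rl f J (∑ m : {m // m ∈ Sup f}, C (coeff (m : Fin N →₀ ℕ) (f j)) * X m)

end NC
end MotMono
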